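import Mathlib

namespace Pool.Agent.P.MP_754fe6_co.Rup

/-! A small checker for clausal refutations by unit propagation.  A clause is a number whose
digits in base 65536 are its literals. -/

/-- truth of a literal -/
def Tr (P : ℕ → Prop) (l : ℕ) : Prop := if l % 2 = 0 then P (l / 2) else ¬ P (l / 2)

inductive SatC (P : ℕ → Prop) : ℕ → Prop
  | here (c : ℕ) : c ≠ 0 → Tr P (c % 65536) → SatC P c
  | there (c : ℕ) : SatC P (c / 65536) → SatC P c

variable {P : ℕ → Prop}

theorem SatC.ne {c : ℕ} (h : SatC P c) : c ≠ 0 := by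
  induction h with
  | here c h _ => exact h
  | there c _ ih => omega

theorem SatC.inv {c : ℕ} (h : SatC P c) : Tr P (c % 65536) ∨ SatC P (c / 65536) := by
  cases h with
  | here _ _ h => exact Or.inl h
  | there _ h => exact Or.inr h

theorem Tr_even (v : ℕ) : Tr P (2 * v) ↔ P v := by
  unfold Tr
  rw [if_pos (by omega), show 2 * v / 2 = v by omega]

theorem Tr_odd (v : ℕ) : Tr P (2 * v + 1) ↔ ¬ P v := by
  unfold Tr
  rw [if_neg (by omega), show (2 * v + 1) / 2 = v by omega]

theorem Tr_xor {l : ℕ} (h : Tr P l) : ¬ Tr P (l ^^^ 1) := by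
  rcases Nat.even_or_odd' l with ⟨v, rfl | rfl⟩
  · rw [Nat.xor_one_of_even (by simp), Tr_odd, not_not]
    rwa [Tr_even] at h
  · rw [Nat.xor_one_of_odd (by simp), add_tsub_cancel_right, Tr_even]
    rwa [Tr_odd] at h

theorem taut : SatC P 196610 := by
  by_cases h : P 1
  · exact .here _ (by omega) ((Tr_even 1).2 h)
  · exact .there _ (.here _ (by omega) ((Tr_odd 1).2 h))

def tb (F l : ℕ) : Bool := Nat.beq (Nat.land (Nat.shiftRight F l) 1) 1

theorem tb_eq (F l : ℕ) : tb F l = F.testBit l := by
  have : Nat.land (Nat.shiftRight F l) 1 = (F >>> l) &&& 1 := rfl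
  rw [tb, this, Nat.testBit, Nat.and_one_is_mod, Nat.one_and_eq_mod_two]
  rcases Nat.mod_two_eq_zero_or_one (F >>> l) with h | h <;> rw [h] <;> rfl

/-- all literals in the mask are false -/
def Inv (P : ℕ → Prop) (F : ℕ) : Prop := ∀ l, F.testBit l = true → ¬ Tr P l

theorem Inv.add {F l : ℕ} (h : Inv P F) (hl : ¬ Tr P l) :
    Inv P (Nat.lor F (Nat.shiftLeft 1 l)) := by
  intro k hk
  have : Nat.lor F (Nat.shiftLeft 1 l) = F ||| (1 <<< l) := rfl
  rw [this, Nat.testBit_or, Nat.one_shiftLeft, Nat.testBit_two_pow, Bool.or_eq_true] at hk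
  rcases hk with hk | hk
  · exact h k hk
  · rw [← of_decide_eq_true hk]
    exact hl

noncomputable section

def force (n : ℕ) (k : ℕ → Bool) : Bool := Nat.rec (k Nat.zero) (fun m _ => k (Nat.succ m)) n

theorem force_eq (n : ℕ) (k : ℕ → Bool) : force n k = k n := by cases n <;> rfl

/-- mask of the literals of a clause -/
def mk (fuel : ℕ) : ℕ → ℕ → ℕ := Nat.rec (motive := fun _ => ℕ → ℕ → ℕ) (fun _ acc => acc)
  (fun _ ih c acc => Nat.rec acc (fun m _ => ih (Nat.div (Nat.succ m) 65536)
    (Nat.lor acc (Nat.shiftLeft 1 (Nat.mod (Nat.succ m) 65536)))) c) fuel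

theorem mk_inv (fuel : ℕ) : ∀ c acc, ¬ SatC P c → Inv P acc → Inv P (mk fuel c acc) := by
  induction fuel with
  | zero => exact fun _ _ _ h => h
  | succ f ih =>
    intro c acc hc h
    cases c with
    | zero => exact h
    | succ m =>
      exact ih _ _ (fun hh => hc (.there _ hh)) (h.add fun hh => hc (.here _ (by omega) hh))

/-- 0: all literals false; `l + 2`: only `l` is not false; 1: failure -/
def unit (F fuel : ℕ) : ℕ → ℕ → ℕ := Nat.rec (motive := fun _ => ℕ → ℕ → ℕ) (fun _ _ => 1)
  (fun _ ih c u => Nat.rec u (fun m _ => Bool.rec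
    (Nat.rec (ih (Nat.div (Nat.succ m) 65536) (Nat.add (Nat.mod (Nat.succ m) 65536) 2))
      (fun _ _ => 1) u)
    (ih (Nat.div (Nat.succ m) 65536) u) (tb F (Nat.mod (Nat.succ m) 65536))) c) fuel

theorem unit_ok {F : ℕ} (hF : Inv P F) (fuel : ℕ) : ∀ c u,
    (SatC P c ∨ ∃ l, u = l + 2 ∧ Tr P l) → unit F fuel c u = 1 ∨
      ∃ l, unit F fuel c u = l + 2 ∧ Tr P l := by
  induction fuel with
  | zero => exact fun _ _ _ => Or.inl rfl
  | succ f ih =>
    intro c u h
    cases c with
    | zero =>
      rcases h with h | h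
      · exact absurd rfl h.ne
      · exact Or.inr h
    | succ m =>
      have e : unit F (f + 1) (m + 1) u = Bool.rec
          (Nat.rec (unit F f ((m + 1) / 65536) ((m + 1) % 65536 + 2)) (fun _ _ => 1) u)
          (unit F f ((m + 1) / 65536) u) (tb F ((m + 1) % 65536)) := rfl
      rw [e]
      cases ht : tb F ((m + 1) % 65536) with
      | true =>
        refine ih _ _ (h.imp_left fun h => h.inv.resolve_left ?_)
        exact hF _ (tb_eq _ _ ▸ ht)
      | false =>
        cases u with
        | succ u => exact Or.inl rfl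
        | zero =>
          refine ih _ _ ?_
          rcases h with h | ⟨l, h, -⟩
          · exact h.inv.symm.imp_right fun h => ⟨_, rfl, h⟩
          · omega

inductive T
  | nil : T
  | node (a b : ℕ) (l r : T) : T

def get (t : T) : ℕ → ℕ := T.rec (motive := fun _ => ℕ → ℕ) (fun _ => 196610)
  (fun a _ _ _ il ir n => Nat.rec 196610 (fun k _ => Nat.rec a (fun m _ =>
    Bool.rec (il (Nat.div (Nat.succ (Nat.succ m)) 2)) (ir (Nat.div (Nat.succ (Nat.succ m)) 2))
      (Nat.beq (Nat.mod m 2) 1)) k) n) t

/-- unit propagation along the hints -/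
def rup (t : T) (id fuel : ℕ) : ℕ → ℕ → Bool := Nat.rec (motive := fun _ => ℕ → ℕ → Bool)
  (fun _ _ => false)
  (fun _ ih h F => Nat.rec false (fun m _ => Bool.rec false
    (Nat.rec true (fun u _ => Nat.rec false (fun l _ =>
      force (Nat.lor F (Nat.shiftLeft 1 (Nat.xor l 1))) (ih (Nat.div (Nat.succ m) 65536))) u)
      (unit F 1000 (get t (Nat.mod (Nat.succ m) 65536)) 0))
    (Nat.ble (Nat.succ (Nat.mod (Nat.succ m) 65536)) id)) h) fuel

theorem rup_ok {t : T} {id : ℕ} (ht : ∀ k, k < id → SatC P (get t k)) (fuel : ℕ) :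
    ∀ h F, Inv P F → rup t id fuel h F = false := by
  induction fuel with
  | zero => exact fun _ _ _ => rfl
  | succ f ih =>
    intro h F hF
    cases h with
    | zero => rfl
    | succ m =>
      have e : rup t id (f + 1) (m + 1) F = Bool.rec false
          (Nat.rec true (fun u _ => Nat.rec false (fun l _ =>
            force (Nat.lor F (Nat.shiftLeft 1 (l ^^^ 1))) (rup t id f ((m + 1) / 65536))) u)
            (unit F 1000 (get t ((m + 1) % 65536)) 0))
          (Nat.ble ((m + 1) % 65536 + 1) id) := rfl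
      rw [e]
      cases hb : Nat.ble ((m + 1) % 65536 + 1) id with
      | false => rfl
      | true =>
        rcases unit_ok hF 1000 _ 0 (Or.inl (ht _ (Nat.le_of_ble_eq_true hb))) with h | ⟨l, h, hl⟩
        · rw [h]
          rfl
        · rw [h]
          exact (force_eq _ _).trans (ih _ _ (hF.add (Tr_xor hl)))

/-- one node: an initial clause (odd `b`) or a derived clause (even `b`) -/
def step (ax : ℕ → ℕ → Bool) (t : T) (id a b : ℕ) : Bool :=
  Bool.rec (force id fun id => force (mk 1000 a 0) (rup t id 100000 (Nat.div b 2)))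
    (ax a (Nat.div b 2)) (Nat.beq (Nat.mod b 2) 1)

theorem step_ok {ax : ℕ → ℕ → Bool} (hax : ∀ a b, ax a b = true → SatC P a) {t : T} {id a b : ℕ}
    (ht : ∀ k, k < id → SatC P (get t k)) (h : step ax t id a b = true) : SatC P a := by
  unfold step at h
  cases hb : Nat.beq (Nat.mod b 2) 1 with
  | true =>
    rw [hb] at h
    exact hax _ _ h
  | false =>
    rw [hb] at h
    by_contra hc
    simp only [force_eq] at h
    rw [rup_ok ht _ _ _ (mk_inv _ _ _ hc fun l hl => by simp at hl)] at h
    exact absurd h (by simp)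

def all (f : ℕ → ℕ → ℕ → Bool) (t : T) : ℕ → ℕ → Bool :=
  T.rec (motive := fun _ => ℕ → ℕ → Bool) (fun _ _ => true)
    (fun a b _ _ il ir acc sc => Bool.rec false (Bool.rec false
      (force (Nat.add acc sc) fun acc' => ir acc' (Nat.mul 2 sc))
      (force (Nat.mul 2 sc) (il acc))) (f (Nat.add acc sc) a b)) t

theorem all_ok {f : ℕ → ℕ → ℕ → Bool} (t : T) : ∀ acc sc, all f t acc sc = true → ∀ n,
    get t n = 196610 ∨ ∃ b, f (acc + sc * n) (get t n) b = true := by
  induction t with
  | nil => exact fun _ _ _ _ => Or.inl rfl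
  | node a b l r il ir =>
    intro acc sc h n
    have e : all f (.node a b l r) acc sc = Bool.rec false (Bool.rec false
      (force (acc + sc) fun acc' => all f r acc' (2 * sc))
      (force (2 * sc) (all f l acc))) (f (acc + sc) a b) := rfl
    rw [e, force_eq, force_eq] at h
    cases h1 : f (acc + sc) a b with
    | false => rw [h1] at h; exact absurd h (by simp)
    | true =>
    cases h2 : all f l acc (2 * sc) with
    | false => rw [h1, h2] at h; exact absurd h (by simp)
    | true =>
    rw [h1, h2] at h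
    match n with
    | 0 => exact Or.inl rfl
    | 1 => exact Or.inr ⟨b, by rw [mul_one]; exact h1⟩
    | m + 2 =>
      have e2 : get (.node a b l r) (m + 2) = Bool.rec (get l ((m + 2) / 2)) (get r ((m + 2) / 2))
        (Nat.beq (m % 2) 1) := rfl
      rw [e2]
      obtain ⟨k, rfl | rfl⟩ := Nat.even_or_odd' m
      · rw [show 2 * k % 2 = 0 by omega, show (2 * k + 2) / 2 = k + 1 by omega]
        have := il _ _ h2 (k + 1)
        rw [show acc + 2 * sc * (k + 1) = acc + sc * (2 * k + 2) by ring] at this
        exact this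
      · rw [show (2 * k + 1) % 2 = 1 by omega, show (2 * k + 1 + 2) / 2 = k + 1 by omega]
        have := ir _ _ h (k + 1)
        rw [show acc + sc + 2 * sc * (k + 1) = acc + sc * (2 * k + 1 + 2) by ring] at this
        exact this

/-- the refutation checker; `last` is the position of the empty clause -/
def refute (ax : ℕ → ℕ → Bool) (t : T) (last : ℕ) : Bool :=
  Bool.rec false (all (step ax t) t 0 1) (Nat.beq (get t last) 0)

theorem refute_ok {ax : ℕ → ℕ → Bool} (hax : ∀ a b, ax a b = true → SatC P a) {t : T} {last : ℕ}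
    (h : refute ax t last = true) : False := by
  unfold refute at h
  cases hb : Nat.beq (get t last) 0 with
  | false => rw [hb] at h; exact absurd h (by simp)
  | true =>
    rw [hb] at h
    have key : ∀ n, SatC P (get t n) := by
      intro n
      induction n using Nat.strong_induction_on with
      | _ n ih =>
        rcases all_ok t 0 1 h n with e | ⟨b, e⟩
        · rw [e]
          exact taut
        · rw [zero_add, one_mul] at e
          exact step_ok hax ih e
    exact (key last).ne (Nat.eq_of_beq_eq_true hb)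

end

end Pool.Agent.P.MP_754fe6_co.Rup
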