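import Mathlib
import Pool.Agent.P.MP_754fe6_co.Rup

namespace Pool.Agent.P.MP_754fe6_co.Rup

/-- mask of `f 0, ..., f (j - 1)` -/
def pre (f : ℕ → ℕ) : ℕ → ℕ
  | 0 => 0
  | j + 1 => pre f j ||| 2 ^ f j

/-- a blocked system, with sets written as masks -/
structure MSys (r fm : ℕ) where
  δ : ℕ → ℕ → ℝ
  F : ℕ → ℝ
  Φ : ℝ
  s : ℕ → ℝ
  mono : ∀ S S' x, S &&& S' = S → δ S x ≤ δ S' x
  Fnn : ∀ S, 0 ≤ F S
  Fle : ∀ S, F S ≤ Φ
  Fstep : ∀ S x, x < r → S.testBit x = false → F S + δ S x ≤ F (S ||| 2 ^ x)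
  srt : ∀ x, x + 1 < r → δ ((2 ^ r - 1) ^^^ 2 ^ (x + 1)) (x + 1) ≤ δ ((2 ^ r - 1) ^^^ 2 ^ x) x
  blk : ∀ f : ℕ → ℕ, (∀ t, t < r → f t < r) → (∀ i, i < r → ∀ t, t < i → f t ≠ f i) →
    ∃ j i, 1 ≤ j ∧ j ≤ i ∧ i < r ∧ fm.testBit j = true ∧ s (j * 8 + i) ≤ δ (pre f j) (f i)

variable {r fm : ℕ} (X : MSys r fm)

def MSys.P0 (c : ℕ) : Prop := X.s (c / 512) ≤ X.δ (c / 8 % 64) (c % 8)

def MSys.P (tab v : ℕ) : Prop := X.P0 (tab >>> (16 * v) % 65536)

def cd (tab a : ℕ) : ℕ := tab >>> (16 * (a % 65536 / 2)) % 65536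

variable {X} {tab : ℕ}

theorem ns_odd {a : ℕ} (h : ¬ SatC (X.P tab) a) (h1 : a % 2 = 1) : X.P0 (cd tab a) := by
  by_contra hc
  refine h (.here _ (by omega) ?_)
  unfold Tr
  rwa [if_neg (by omega)]

theorem ns_even {a : ℕ} (h : ¬ SatC (X.P tab) a) (h0 : a ≠ 0) (h1 : a % 2 = 0) :
    ¬ X.P0 (cd tab a) := by
  intro hc
  refine h (.here _ h0 ?_)
  unfold Tr
  rwa [if_pos (by omega)]

theorem ns_next {P : ℕ → Prop} {a : ℕ} (h : ¬ SatC P a) : ¬ SatC P (a / 65536) :=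
  fun hh => h (.there _ hh)

noncomputable section

def two (tab a : ℕ) (k : ℕ → ℕ → Bool) : Bool :=
  decide (a % 2 = 1) && decide (a / 65536 ≠ 0) && decide (a / 65536 % 2 = 0) &&
    force (cd tab a) fun c1 => force (cd tab (a / 65536)) fun c2 => k c1 c2

theorem two_ok {a : ℕ} {k : ℕ → ℕ → Bool} (hk : ∀ c1 c2, k c1 c2 = true → X.P0 c1 → X.P0 c2)
    (h : two tab a k = true) : SatC (X.P tab) a := by
  by_contra hc
  simp only [two, force_eq, Bool.and_eq_true, decide_eq_true_eq] at h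
  exact ns_even (ns_next hc) h.1.1.2 h.1.2 (hk _ _ h.2 (ns_odd hc h.1.1.1))

def kMono (ord : List ℕ) (idx c1 c2 : ℕ) : Bool :=
  decide (c1 % 8 = c2 % 8) && decide (c1 / 8 % 64 &&& c2 / 8 % 64 = c1 / 8 % 64) &&
    (decide (c1 / 512 = c2 / 512) || (decide (c2 / 512 < 128) &&
      decide (ord.getD idx 0 = c1 / 512 * 128 + c2 / 512)))

theorem kMono_ok {ord : List ℕ} (ho : ∀ p ∈ ord, X.s (p % 128) ≤ X.s (p / 128)) (idx c1 c2 : ℕ)
    (h : kMono ord idx c1 c2 = true) (h1 : X.P0 c1) : X.P0 c2 := by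
  simp only [kMono, Bool.and_eq_true, Bool.or_eq_true, decide_eq_true_eq] at h
  obtain ⟨⟨a1, a2⟩, a3⟩ := h
  unfold MSys.P0 at *
  rw [← a1]
  refine le_trans ?_ (h1.trans (X.mono _ _ _ a2))
  rcases a3 with a3 | ⟨a3, a4⟩
  · rw [a3]
  have : X.s (ord.getD idx 0 % 128) ≤ X.s (ord.getD idx 0 / 128) := by
    rw [List.getD_eq_getElem?_getD]
    cases e : ord[idx]? with
    | none => exact le_rfl
    | some p => exact ho p (List.mem_of_getElem? e)
  rwa [a4, show (c1 / 512 * 128 + c2 / 512) % 128 = c2 / 512 by omega,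
    show (c1 / 512 * 128 + c2 / 512) / 128 = c1 / 512 by omega] at this

def kSym (r c1 c2 : ℕ) : Bool :=
  decide (c1 % 8 = c2 % 8 + 1) && decide (c1 % 8 < r) && decide (c1 / 512 = c2 / 512) &&
    decide (c1 / 8 % 64 = (2 ^ r - 1) ^^^ 2 ^ (c1 % 8)) &&
    decide (c2 / 8 % 64 = (2 ^ r - 1) ^^^ 2 ^ (c2 % 8))

theorem kSym_ok (c1 c2 : ℕ) (h : kSym r c1 c2 = true) (h1 : X.P0 c1) : X.P0 c2 := by
  simp only [kSym, Bool.and_eq_true, decide_eq_true_eq] at h
  obtain ⟨⟨⟨⟨a1, a2⟩, a3⟩, a4⟩, a5⟩ := h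
  unfold MSys.P0 at *
  rw [a4, a1, a3] at h1
  rw [a5]
  exact h1.trans (X.srt _ (by omega))

def hasP (tab : ℕ) : List ℕ → ℕ → Bool
  | [], _ => true
  | c :: cs, a => decide (a ≠ 0) && decide (a % 2 = 0) && decide (cd tab a = c) &&
      force (a / 65536) (hasP tab cs)

theorem hasP_ok : ∀ (cs : List ℕ) (a : ℕ), hasP tab cs a = true → ¬ SatC (X.P tab) a →
    ∀ c ∈ cs, ¬ X.P0 c
  | [], _, _, _ => by simp
  | c :: cs, a, h, hc => by
    simp only [hasP, force_eq, Bool.and_eq_true, decide_eq_true_eq] at h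
    intro c' hc'
    rcases List.mem_cons.1 hc' with rfl | hc'
    · exact h.1.2 ▸ ns_even hc h.1.1.1 h.1.1.2
    · exact hasP_ok cs _ h.2 (ns_next hc) c' hc'

def dig (p t : ℕ) : ℕ := p >>> (3 * t) % 8

def axBlk (r fm tab a p : ℕ) : Bool :=
  (List.range r).all (fun i => decide (dig p i < r) &&
    (List.range i).all fun t => decide (dig p t ≠ dig p i)) &&
  hasP tab ((List.range' 1 (r - 1)).flatMap fun j => if fm.testBit j then
    (List.range' j (r - j)).map fun i => (j * 8 + i) * 512 + pre (dig p) j * 8 + dig p i else []) a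

theorem pre_lt {f : ℕ → ℕ} (hr : r ≤ 6) (hf : ∀ t, t < r → f t < r) :
    ∀ j, j ≤ r → pre f j < 2 ^ 6
  | 0, _ => by simp [pre]
  | j + 1, h => Nat.or_lt_two_pow (pre_lt hr hf j (by omega))
      (Nat.pow_lt_pow_right (by omega) (by have := hf j (by omega); omega))

theorem axBlk_ok (hr : r ≤ 6) {a p : ℕ} (h : axBlk r fm tab a p = true) : SatC (X.P tab) a := by
  by_contra hc
  simp only [axBlk, Bool.and_eq_true, List.all_eq_true, List.mem_range, decide_eq_true_eq] at h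
  obtain ⟨j, i, a1, a2, a3, a4, a5⟩ := X.blk (dig p) (fun t ht => (h.1 t ht).1)
    fun i hi => (h.1 i hi).2
  refine hasP_ok _ _ h.2 hc ((j * 8 + i) * 512 + pre (dig p) j * 8 + dig p i) ?_ ?_
  · refine List.mem_flatMap.2 ⟨j, List.mem_range'_1.2 (by omega), ?_⟩
    rw [if_pos a4]
    exact List.mem_map.2 ⟨i, List.mem_range'_1.2 (by omega), rfl⟩
  · have b1 := pre_lt hr (fun t ht => (h.1 t ht).1) j (by omega)
    have b2 := (h.1 i a3).1
    unfold MSys.P0
    generalize pre (dig p) j = S at *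
    generalize dig p i = x at *
    rwa [show ((j * 8 + i) * 512 + S * 8 + x) / 512 = j * 8 + i by omega,
      show ((j * 8 + i) * 512 + S * 8 + x) / 8 % 64 = S by omega,
      show ((j * 8 + i) * 512 + S * 8 + x) % 8 = x by omega]

def chain (r tab : ℕ) : ℕ → ℕ → ℕ → List ℕ → Bool
  | 0, _, _, W => W.isEmpty
  | k + 1, S, a, W => decide (a % 2 = 1) && force (cd tab a) fun c =>
      decide (c / 8 % 64 = S) && decide (c % 8 < r) && !(S.testBit (c % 8)) &&
        decide (c / 512 ∈ W) && chain r tab k (S ||| 2 ^ (c % 8)) (a / 65536) (W.erase (c / 512))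

theorem chain_ok : ∀ (k S a : ℕ) (W : List ℕ), chain r tab k S a W = true →
    ¬ SatC (X.P tab) a → X.F S + (W.map X.s).sum ≤ X.Φ
  | 0, S, _, W, h, _ => by
    rw [chain, List.isEmpty_iff] at h
    simpa [h] using X.Fle S
  | k + 1, S, a, W, h, hc => by
    simp only [chain, force_eq, Bool.and_eq_true, decide_eq_true_eq, Bool.not_eq_eq_eq_not,
      Bool.not_true] at h
    obtain ⟨a0, ⟨⟨⟨a1, a2⟩, a3⟩, a4⟩, a5⟩ := h
    have b1 := chain_ok k _ _ _ a5 (ns_next hc)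
    have b2 := X.Fstep S _ a2 a3
    have b3 := ns_odd hc a0
    unfold MSys.P0 at b3
    rw [a1] at b3
    rw [((List.perm_cons_erase a4).map X.s).sum_eq, List.map_cons, List.sum_cons]
    linarith

def axChain (r tab : ℕ) (bad : List (List ℕ)) (a idx : ℕ) : Bool :=
  match bad[idx]? with
  | none => false
  | some W => chain r tab W.length (cd tab a / 8 % 64) a W

/-- the initial clauses -/
def ax (r fm tab : ℕ) (ord : List ℕ) (bad : List (List ℕ)) (a b : ℕ) : Bool :=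
  if b % 4 = 0 then two tab a (kMono ord (b / 4)) else
  if b % 4 = 1 then axChain r tab bad a (b / 4) else
  if b % 4 = 2 then axBlk r fm tab a (b / 4) else two tab a (kSym r)

/-- the facts `ord` and `bad` about the thresholds exclude blocked systems -/
def KOK (r fm : ℕ) (K : List ℕ × List (List ℕ)) : Prop :=
  ∀ X : MSys r fm, (∀ p ∈ K.1, X.s (p % 128) ≤ X.s (p / 128)) →
    (∀ W ∈ K.2, X.Φ < (W.map X.s).sum) → False

theorem kok_of (hr : r ≤ 6) {ord : List ℕ} {bad : List (List ℕ)} (tab : ℕ) (t : T) (last : ℕ)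
    (h : refute (ax r fm tab ord bad) t last = true) : KOK r fm (ord, bad) := by
  intro X h1 h2
  refine refute_ok (P := X.P tab) (fun a b hab => ?_) h
  unfold ax at hab
  split_ifs at hab
  · exact two_ok (kMono_ok h1 _) hab
  · unfold axChain at hab
    by_contra hc
    cases e : bad[b / 4]? with
    | none => rw [e] at hab; exact absurd hab (by simp)
    | some W =>
      rw [e] at hab
      have := chain_ok _ _ _ _ hab hc
      have := h2 W (List.mem_of_getElem? e)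
      have := X.Fnn (cd tab a / 8 % 64)
      linarith
  · exact axBlk_ok hr hab
  · exact two_ok kSym_ok hab

end

end Pool.Agent.P.MP_754fe6_co.Rup
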