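import Mathlib
import Pool.Agent.P.MP_754fe6_co.Ax

namespace Pool.Agent.P.MP_754fe6_co.Rup

def toR (v : List ℕ) : ℕ → ℝ := fun t => (v.getD t 0 : ℝ)

/-- `c` lies in the closed cone spanned by the rays (dual form) -/
def InCone (rays : List (List ℕ)) (c : ℕ → ℝ) : Prop :=
  ∀ φ : (ℕ → ℝ) →ₗ[ℝ] ℝ, (∀ v ∈ rays, 0 ≤ φ (toR v)) → 0 ≤ φ c

def comb (x y : ℕ) : List ℕ → List ℕ → List ℕ
  | [], v => v.map fun b => y * b
  | a :: u, [] => x * a :: comb x y u []
  | a :: u, b :: v => (x * a + y * b) :: comb x y u v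

theorem comb_getD (x y : ℕ) : ∀ (u v : List ℕ) (t : ℕ),
    (comb x y u v).getD t 0 = x * u.getD t 0 + y * v.getD t 0
  | [], v, t => by
    simp only [comb, List.getD_eq_getElem?_getD, List.getElem?_map]
    cases v[t]? <;> simp
  | a :: u, [], 0 => by simp [comb]
  | a :: u, [], t + 1 => by simpa [comb] using comb_getD x y u [] t
  | a :: u, b :: v, 0 => by simp [comb]
  | a :: u, b :: v, t + 1 => by simpa [comb] using comb_getD x y u v t

theorem toR_comb (x y : ℕ) (u v : List ℕ) :
    toR (comb x y u v) = (x : ℝ) • toR u + (y : ℝ) • toR v := by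
  funext t
  simp only [toR, comb_getD, Pi.add_apply, Pi.smul_apply, smul_eq_mul]
  push_cast
  ring

theorem InCone.split {rays R1 R2 : List (List ℕ)} {c : ℕ → ℝ} (h : InCone rays c) {u v : List ℕ}
    {x y : ℕ} (hx : 0 < x) (hy : 0 < y) (h1 : ∀ z ∈ rays, z = u ∨ z = v ∨ (z ∈ R1 ∧ z ∈ R2))
    (v1 : v ∈ R1) (u2 : u ∈ R2) (w1 : comb x y u v ∈ R1) (w2 : comb x y u v ∈ R2) :
    InCone R1 c ∨ InCone R2 c := by
  by_contra hc
  simp only [InCone, not_or, not_forall, not_le] at hc
  obtain ⟨⟨φ1, a1, b1⟩, φ2, a2, b2⟩ := hc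
  have x0 : (0 : ℝ) < x := by exact_mod_cast hx
  have y0 : (0 : ℝ) < y := by exact_mod_cast hy
  have c1 := a1 _ v1
  have c2 := a2 _ u2
  have d1 := a1 _ w1
  have d2 := a2 _ w2
  rw [toR_comb, map_add, map_smul, map_smul, smul_eq_mul, smul_eq_mul] at d1 d2
  have n1 : φ1 (toR u) < 0 := by
    by_contra hh
    refine absurd (h φ1 fun z hz => ?_) (not_le.2 b1)
    rcases h1 z hz with rfl | rfl | hz
    · exact not_lt.1 hh
    · exact c1
    · exact a1 z hz.1
  have n2 : φ2 (toR v) < 0 := by
    by_contra hh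
    refine absurd (h φ2 fun z hz => ?_) (not_le.2 b2)
    rcases h1 z hz with rfl | rfl | hz
    · exact c2
    · exact not_lt.1 hh
    · exact a2 z hz.2
  have := h (φ2 (toR u) • φ1 + (-φ1 (toR u)) • φ2) fun z hz => by
    simp only [LinearMap.add_apply, LinearMap.smul_apply, smul_eq_mul]
    rcases h1 z hz with rfl | rfl | hz
    · linarith
    · have e1 : x * -φ1 (toR u) ≤ y * φ1 (toR z) := by linarith
      have e2 : y * -φ2 (toR z) ≤ x * φ2 (toR u) := by linarith
      have := mul_le_mul e1 e2 (by nlinarith) (by positivity)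
      have xy : (0 : ℝ) < x * y := by positivity
      refine le_of_mul_le_mul_left ?_ xy
      nlinarith
    · have := a1 z hz.1
      have := a2 z hz.2
      nlinarith
  simp only [LinearMap.add_apply, LinearMap.smul_apply, smul_eq_mul] at this
  nlinarith

/-- the slack of the window with code `w = 8 j + i`, in partial-sum coordinates -/
def sL (r w : ℕ) (c : ℕ → ℝ) : ℝ := c r + c (w / 8 - 1) - c (w % 8)

def pj (t : ℕ) : (ℕ → ℝ) →ₗ[ℝ] ℝ := LinearMap.proj t

theorem pj_apply (t : ℕ) (c : ℕ → ℝ) : pj t c = c t := rfl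

noncomputable def sumL (r : ℕ) : List ℕ → (ℕ → ℝ) →ₗ[ℝ] ℝ
  | [] => 0
  | w :: W => pj r + pj (w / 8 - 1) - pj (w % 8) + sumL r W

theorem sumL_apply (r : ℕ) (c : ℕ → ℝ) : ∀ W : List ℕ, sumL r W c = (W.map fun w => sL r w c).sum
  | [] => by simp [sumL]
  | w :: W => by simp [sumL, sL, pj_apply, sumL_apply r c W]

def up (r : ℕ) (v : List ℕ) : List ℕ → ℕ
  | [] => 0
  | w :: W => v.getD r 0 + v.getD (w / 8 - 1) 0 + up r v W

def dn (v : List ℕ) : List ℕ → ℕ
  | [] => 0
  | w :: W => v.getD (w % 8) 0 + dn v W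

theorem sumL_toR (r : ℕ) (v : List ℕ) : ∀ W : List ℕ, sumL r W (toR v) = up r v W - dn v W
  | [] => by simp [sumL, up, dn]
  | w :: W => by
    simp only [sumL, up, dn, LinearMap.add_apply, LinearMap.sub_apply, pj_apply,
      sumL_toR r v W, toR]
    push_cast
    ring

def leR (r : ℕ) (rays : List (List ℕ)) (A W : List ℕ) : Bool :=
  rays.all fun v => Nat.ble (up r v A + dn v W) (up r v W + dn v A)

theorem leR_ok {r : ℕ} {rays : List (List ℕ)} {A W : List ℕ} (h : leR r rays A W = true)
    {c : ℕ → ℝ} (hc : InCone rays c) :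
    (A.map fun w => sL r w c).sum ≤ (W.map fun w => sL r w c).sum := by
  have := hc (sumL r W - sumL r A) fun v hv => by
    have := Nat.le_of_ble_eq_true (List.all_eq_true.1 h v hv)
    have : ((up r v A + dn v W : ℕ) : ℝ) ≤ (up r v W + dn v A : ℕ) := by exact_mod_cast this
    rw [LinearMap.sub_apply, sumL_toR, sumL_toR]
    push_cast at this
    linarith
  rw [LinearMap.sub_apply, sumL_apply, sumL_apply] at this
  linarith

inductive CT
  | leaf (k : ℕ) (fams : List ℕ) : CT
  | split (i k x y : ℕ) (l r : CT) : CT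

def badOK (r : ℕ) (rays : List (List ℕ)) (Fams : List (List (List ℕ))) :
    List (List ℕ) → List ℕ → Bool
  | [], _ => true
  | _ :: _, [] => false
  | W :: Ws, f :: fs => (match Fams[f]? with
      | none => false
      | some φ => φ.all fun A => leR r rays A W) && badOK r rays Fams Ws fs

theorem badOK_ok {r : ℕ} {rays : List (List ℕ)} {Fams : List (List (List ℕ))} {c : ℕ → ℝ}
    (hc : InCone rays c) {Φ : ℝ} (hF : ∀ φ ∈ Fams, ∃ A ∈ φ, Φ < (A.map fun w => sL r w c).sum) :
    ∀ (Ws : List (List ℕ)) (fs : List ℕ), badOK r rays Fams Ws fs = true →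
      ∀ W ∈ Ws, Φ < (W.map fun w => sL r w c).sum
  | [], _, _ => by simp
  | _ :: _, [], h => by simp [badOK] at h
  | W :: Ws, f :: fs, h => by
    simp only [badOK, Bool.and_eq_true] at h
    intro W' hW
    rcases List.mem_cons.1 hW with rfl | hW
    · cases e : Fams[f]? with
      | none => simp [e] at h
      | some φ =>
        obtain ⟨A, hA, h2⟩ := hF φ (List.mem_of_getElem? e)
        have := h.1
        simp only [e, List.all_eq_true] at this
        exact h2.trans_le (leR_ok (this A hA) hc)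
    · exact badOK_ok hc hF Ws fs h.2 W' hW

noncomputable section

def forceL (v : List ℕ) : (List ℕ → Bool) → Bool :=
  List.rec (motive := fun _ => (List ℕ → Bool) → Bool) (fun k => k [])
    (fun a _ ih k => force a fun a' => ih fun l => k (a' :: l)) v

theorem forceL_eq : ∀ (v : List ℕ) (k : List ℕ → Bool), forceL v k = k v
  | [], _ => rfl
  | a :: v, k => (force_eq a fun a' => forceL v fun l => k (a' :: l)).trans
      (forceL_eq v fun l => k (a :: l))

def cover (r : ℕ) (Fams : List (List (List ℕ))) (Ks : List (List ℕ × List (List ℕ))) (t : CT) :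
    List (List ℕ) → Bool :=
  CT.rec (motive := fun _ => List (List ℕ) → Bool)
    (fun k fs rays => match Ks[k]? with
      | none => false
      | some K => (K.1.all fun p => leR r rays [p % 128] [p / 128]) && badOK r rays Fams K.2 fs)
    (fun i k x y _ _ il ir rays => match rays[i]?, rays[k]? with
      | some u, some v => decide (0 < x) && decide (0 < y) && decide (i ≠ k) &&
          forceL (comb x y u v) fun w => il (rays.set i w) && ir (rays.set k w)
      | _, _ => false) t

theorem mem_set_or {α : Type} {l : List α} {i : ℕ} {u z : α} (w : α) (h : l[i]? = some u)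
    (hz : z ∈ l) : z = u ∨ z ∈ l.set i w := by
  obtain ⟨j, hj⟩ := List.mem_iff_getElem?.1 hz
  by_cases e : i = j
  · rw [e, hj] at h
    exact Or.inl (Option.some_injective _ h)
  · exact Or.inr (List.mem_iff_getElem?.2 ⟨j, by rw [List.getElem?_set_ne e, hj]⟩)

theorem mem_set_self {α : Type} {l : List α} {i : ℕ} {u : α} (w : α) (h : l[i]? = some u) :
    w ∈ l.set i w :=
  List.mem_set (List.getElem?_eq_some_iff.1 h).1 w

theorem cover_ok {r fm : ℕ} {Fams : List (List (List ℕ))} {Ks : List (List ℕ × List (List ℕ))}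
    (hK : ∀ K ∈ Ks, KOK r fm K) (X : MSys r fm) {c : ℕ → ℝ} (hs : ∀ w, X.s w = sL r w c)
    (hF : ∀ φ ∈ Fams, ∃ A ∈ φ, X.Φ < (A.map fun w => sL r w c).sum) (t : CT) :
    ∀ rays, cover r Fams Ks t rays = true → InCone rays c → False := by
  induction t with
  | leaf k fs =>
    intro rays h hc
    have e : cover r Fams Ks (.leaf k fs) rays = match Ks[k]? with
      | none => false
      | some K => (K.1.all fun p => leR r rays [p % 128] [p / 128]) &&
        badOK r rays Fams K.2 fs := rfl
    rw [e] at h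
    cases e2 : Ks[k]? with
    | none => simp [e2] at h
    | some K =>
      simp only [e2, Bool.and_eq_true, List.all_eq_true] at h
      refine hK K (List.mem_of_getElem? e2) X (fun p hp => ?_) fun W hW => ?_
      · simpa [hs] using leR_ok (h.1 p hp) hc
      · rw [funext hs]
        exact badOK_ok hc hF _ _ h.2 W hW
  | split i k x y l r' il ir =>
    intro rays h hc
    have e : cover r Fams Ks (.split i k x y l r') rays = match rays[i]?, rays[k]? with
      | some u, some v => decide (0 < x) && decide (0 < y) && decide (i ≠ k) &&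
          forceL (comb x y u v) fun w => cover r Fams Ks l (rays.set i w) &&
            cover r Fams Ks r' (rays.set k w)
      | _, _ => false := rfl
    rw [e] at h
    cases e1 : rays[i]? with
    | none => simp [e1] at h
    | some u =>
    cases e2 : rays[k]? with
    | none => simp [e1, e2] at h
    | some v =>
    simp only [e1, e2, forceL_eq, Bool.and_eq_true, decide_eq_true_eq] at h
    obtain ⟨⟨⟨a1, a2⟩, a3⟩, a4, a5⟩ := h
    refine (hc.split a1 a2 (u := u) (v := v) (fun z hz => ?_) ?_ ?_ (mem_set_self _ e1)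
      (mem_set_self _ e2)).elim (il _ a4) (ir _ a5)
    · rcases mem_set_or (comb x y u v) e1 hz with h | h
      · exact Or.inl h
      · exact Or.inr ((mem_set_or _ e2 hz).imp_right fun h' => ⟨h, h'⟩)
    · exact List.mem_iff_getElem?.2 ⟨k, by rw [List.getElem?_set_ne a3, e2]⟩
    · exact List.mem_iff_getElem?.2 ⟨i, by rw [List.getElem?_set_ne a3.symm, e1]⟩

end

/-- the initial rays -/
def ray0 (r t : ℕ) : List ℕ := (List.range (r + 1)).map fun u => if t ≤ u then 1 else 0

def rays0 (r fm : ℕ) : List (List ℕ) :=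
  ((List.range' 1 r).filter fun t => decide (t = r) || fm.testBit t).map (ray0 r)

theorem inCone0 {r fm : ℕ} (a : ℕ → ℝ) (h0 : ∀ t, 1 ≤ t → t ≤ r → 0 ≤ a t)
    (h1 : ∀ t, 1 ≤ t → t < r → fm.testBit t = false → a t = 0) :
    ∃ c, InCone (rays0 r fm) c ∧ ∀ u, u ≤ r → c u = ∑ t ∈ Finset.Icc 1 u, a t := by
  refine ⟨∑ t ∈ Finset.Icc 1 r, a t • toR (ray0 r t), fun φ hφ => ?_, fun u hu => ?_⟩
  · rw [map_sum]
    refine Finset.sum_nonneg fun t ht => ?_
    obtain ⟨t1, t2⟩ := Finset.mem_Icc.1 ht
    rw [map_smul, smul_eq_mul]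
    by_cases h : t = r ∨ fm.testBit t = true
    · refine mul_nonneg (h0 t t1 t2) (hφ _ (List.mem_map.2 ⟨t, ?_, rfl⟩))
      exact List.mem_filter.2 ⟨List.mem_range'_1.2 (by omega), by simpa using h⟩
    · push Not at h
      rw [h1 t t1 (by omega) (by simpa using h.2), zero_mul]
  · rw [Finset.sum_apply, ← Finset.sum_subset (Finset.Icc_subset_Icc_right hu)]
    · refine Finset.sum_congr rfl fun t ht => ?_
      have := (Finset.mem_Icc.1 ht).2
      simp [toR, ray0, List.getD_eq_getElem?_getD, show u < r + 1 by omega, this]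
    · intro t ht ht'
      have : ¬ t ≤ u := by
        simp only [Finset.mem_Icc] at ht ht'
        omega
      simp [toR, ray0, List.getD_eq_getElem?_getD, show u < r + 1 by omega, this]

end Pool.Agent.P.MP_754fe6_co.Rup
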