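import Mathlib

namespace Pool.Agent.P.MP_754fe6_co

open Finset

/-- `IsStar d S`: the family `S` of finite vertex sets is the edge set of a generalised star
`St_r(d_1, ..., d_{r-1})`, where `d = [d_1, ..., d_{r-1}]`.  For `d = []` it is one vertex; for
`d = k :: d'` there is a common vertex `v` whose deletion leaves `k` vertex-disjoint copies of the
generalised star with degrees `d'`. -/
def IsStar {V : Type} [DecidableEq V] : List ℕ → Finset (Finset V) → Prop
  | [], S => ∃ v : V, S = {{v}}
  | k :: d, S => ∃ (v : V) (T : Fin k → Finset (Finset V)),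
      (∀ i, IsStar d (T i)) ∧ (∀ i, v ∉ (T i).sup id) ∧
      (∀ i j, i ≠ j → Disjoint ((T i).sup id) ((T j).sup id)) ∧
      S = univ.biUnion fun i => (T i).image (insert v)

open Classical in
/-- The Turan number `ex(n, St_r(d))`, `r = d.length + 1`: the largest number of edges of an
`r`-uniform hypergraph on `Fin n` that contains no copy of the generalised star. -/
noncomputable def exStar (n : ℕ) (d : List ℕ) : ℕ :=
  ((powersetCard (d.length + 1) (univ : Finset (Fin n))).powerset.filter
    fun H => ¬ ∃ S, S ⊆ H ∧ IsStar d S).sup card

end Pool.Agent.P.MP_754fe6_co
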