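import Mathlib
import Pool.Agent.P.MP_754fe6_co.Defs

namespace Pool.Agent.P.MP_754fe6_co

open Finset

/-- the list of degrees `[d 1, ..., d m]` -/
def degs (m : ℕ) (d : ℕ → ℕ) : List ℕ := List.ofFn fun t : Fin m => d (t + 1)

/-- the product `d j * ... * d i` -/
def win (d : ℕ → ℕ) (j i : ℕ) : ℕ := ∏ t ∈ Icc j i, d t

/-- `d 1 * ... * d i` for `i < r`, and `n` for `i = r` -/
def topWin (r n : ℕ) (d : ℕ → ℕ) (i : ℕ) : ℕ := if i = r then n else win d 1 i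

/-- the maximum, over the windows `1 ≤ j ≤ i ≤ r - 1` with `d j * ... * d i ≥ 2`, of
`n ^ (r - 1 - z) * (d j * ... * d i) ^ z * topWin (i + 1)`, where `z = i - j + 1` -/
def windowMax (r n : ℕ) (d : ℕ → ℕ) : ℕ :=
  ((Icc 1 (r - 1) ×ˢ Icc 1 (r - 1)).filter fun p => p.1 ≤ p.2 ∧ 2 ≤ win d p.1 p.2).sup fun p =>
    n ^ (r - 1 - (p.2 + 1 - p.1)) * win d p.1 p.2 ^ (p.2 + 1 - p.1) * topWin r n d (p.2 + 1)

end Pool.Agent.P.MP_754fe6_co
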