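import Mathlib
import Pool.Agent.P.MP_754fe6_co.Defs2

namespace Pool.Agent.P.MP_754fe6_co

open Finset

/-- the least product of `z` consecutive degrees `d j * ... * d (j + z - 1)` with
`ρ ≤ j ≤ I - z` -/
noncomputable def minWin (d : ℕ → ℕ) (ρ z I : ℕ) : ℕ :=
  sInf ((fun j => win d j (j + z - 1)) '' Set.Icc ρ (I - z))

/-- the maximum, over `ρ, z ≥ 1` and `ρ + z ≤ I ≤ r` with `minWin d ρ z I ≥ 2`, of
`n ^ (r - ρ - z) * topWin I ^ ρ * minWin d ρ z I ^ z` -/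
noncomputable def famMax (r n : ℕ) (d : ℕ → ℕ) : ℕ :=
  ((Icc 1 r ×ˢ Icc 1 r ×ˢ Icc 1 r).filter fun p =>
    p.1 + p.2.1 ≤ p.2.2 ∧ 2 ≤ minWin d p.1 p.2.1 p.2.2).sup fun p =>
    n ^ (r - p.1 - p.2.1) * topWin r n d p.2.2 ^ p.1 * minWin d p.1 p.2.1 p.2.2 ^ p.2.1

end Pool.Agent.P.MP_754fe6_co
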