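import Mathlib
import Pool.Agent.P.MP_754fe6_co.Defs2

namespace Pool.Agent.P.MP_754fe6_co

open Finset

variable {V κ : Type} [DecidableEq V] [DecidableEq κ]

theorem degs_succ (m : ℕ) (D : ℕ → ℕ) : degs (m + 1) D = D 1 :: degs m fun t => D (t + 1) := by
  simp [degs, List.ofFn_succ]

theorem degs_length (m : ℕ) (D : ℕ → ℕ) : (degs m D).length = m := by simp [degs]

def edgeOf (m : ℕ) (f : ℕ → κ) (e : κ → V) : Finset V := (range (m + 1)).image fun t => e (f t)

omit [DecidableEq κ] in
theorem edgeOf_succ (m : ℕ) (f : ℕ → κ) (e : κ → V) :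
    edgeOf (m + 1) f e = insert (e (f 0)) (edgeOf m (fun t => f (t + 1)) e) := by
  ext x
  simp only [edgeOf, mem_image, mem_range, mem_insert]
  constructor
  · rintro ⟨t, ht, rfl⟩
    rcases t with _ | t
    · exact Or.inl rfl
    · exact Or.inr ⟨t, by omega, rfl⟩
  · rintro (rfl | ⟨t, ht, rfl⟩)
    · exact ⟨0, by omega, rfl⟩
    · exact ⟨t + 1, by omega, rfl⟩

def Good (c : V → κ) (m : ℕ) (D : ℕ → ℕ) (f : ℕ → κ) (G : Finset (κ → V))
    (S : Finset (Finset V)) : Prop :=
  IsStar (degs m D) S ∧ (∀ E ∈ S, ∃ e ∈ G, E = edgeOf m f e) ∧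
    ∀ i, i ≤ m → ((S.sup id).filter fun v => c v = f i).card ≤ ∏ t ∈ Ioc 0 i, D t

theorem greedy {α : Type} (P : α → Prop) (R : α → α → Prop) (hR : ∀ a b, R a b → R b a) (k : ℕ) :
    (∃ T : Fin k → α, (∀ i, P (T i)) ∧ ∀ i j, i ≠ j → R (T i) (T j)) ∨
    ∃ k', k' < k ∧ ∃ T : Fin k' → α, (∀ i, P (T i)) ∧ ∀ a, P a → ¬ ∀ i, R a (T i) := by
  induction k with
  | zero => exact Or.inl ⟨Fin.elim0, fun i => i.elim0, fun i => i.elim0⟩
  | succ k ih =>
    rcases ih with ⟨T, h1, h2⟩ | ⟨k', hk, T, h1, h2⟩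
    · by_cases h : ∃ a, P a ∧ ∀ i, R a (T i)
      · obtain ⟨a, a1, a2⟩ := h
        refine Or.inl ⟨Fin.cons a T, fun i => ?_, fun i j hij => ?_⟩
        · refine Fin.cases ?_ (fun i => ?_) i
          · exact a1
          · exact h1 i
        · revert hij
          refine Fin.cases ?_ (fun i => ?_) i <;> refine Fin.cases ?_ (fun j => ?_) j <;> intro hij
          · exact absurd rfl hij
          · exact a2 j
          · exact hR _ _ (a2 i)
          · exact h2 i j fun hh => hij (by rw [hh])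
      · exact Or.inr ⟨k, by omega, T, h1, fun a a1 a2 => h ⟨a, a1, a2⟩⟩
    · exact Or.inr ⟨k', by omega, T, h1, h2⟩

theorem prod_shift (D : ℕ → ℕ) (j i : ℕ) :
    ∏ t ∈ Ioc j i, D (t + 1) = ∏ t ∈ Ioc (j + 1) (i + 1), D t := by
  rw [← Finset.map_add_right_Ioc, prod_map]
  rfl

theorem prod_Ioc_zero_succ (D : ℕ → ℕ) (i : ℕ) :
    ∏ t ∈ Ioc 0 (i + 1), D t = D 1 * ∏ t ∈ Ioc 0 i, D (t + 1) := by
  rw [prod_shift, ← prod_Ioc_consecutive D (show 0 ≤ 1 by omega) (show 1 ≤ i + 1 by omega)]
  simp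

theorem mem_sup_id {S : Finset (Finset V)} {v : V} : v ∈ S.sup id ↔ ∃ E ∈ S, v ∈ E := by
  simp [mem_sup]

/-- the conclusion of the cover lemma -/
def Cov (c : V → κ) (m : ℕ) (D : ℕ → ℕ) (f : ℕ → κ) (G : Finset (κ → V))
    (W : ℕ → (κ → V) → Finset V) : Prop :=
  (∀ j e e', (∀ t, t < j → e (f t) = e' (f t)) → W j e = W j e') ∧
  (∀ j e i, j ≤ i → i ≤ m →
    ((W j e).filter fun v => c v = f i).card ≤ (D j - 1) * ∏ t ∈ Ioc j i, D t) ∧
  ∀ e ∈ G, ∃ j i, j ≤ i ∧ i ≤ m ∧ e (f i) ∈ W j e

theorem cover (c : V → κ) (m : ℕ) : ∀ (D : ℕ → ℕ) (f : ℕ → κ) (G : Finset (κ → V)),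
    (∀ a b, a ≤ m → b ≤ m → f a = f b → a = b) → (∀ e ∈ G, ∀ x, c (e x) = x) →
    (∃ T : Fin (D 0) → Finset (Finset V), (∀ i, Good c m D f G (T i)) ∧
      ∀ i j, i ≠ j → Disjoint ((T i).sup id) ((T j).sup id)) ∨ ∃ W, Cov c m D f G W := by
  have step0 : ∀ (m : ℕ) (D : ℕ → ℕ) (f : ℕ → κ) (G : Finset (κ → V)),
      (∃ T : Fin (D 0) → Finset (Finset V), (∀ i, Good c m D f G (T i)) ∧
        ∀ i j, i ≠ j → Disjoint ((T i).sup id) ((T j).sup id)) ∨
      ∃ W0 : Finset V, (∀ i, i ≤ m →
        (W0.filter fun v => c v = f i).card ≤ (D 0 - 1) * ∏ t ∈ Ioc 0 i, D t) ∧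
        ∀ S, Good c m D f G S → ¬ Disjoint (S.sup id) W0 := by
    intro m D f G
    rcases greedy (Good c m D f G) (fun S S' => Disjoint (S.sup id) (S'.sup id))
      (fun a b h => h.symm) (D 0) with h | ⟨k, hk, T, h1, h2⟩
    · exact Or.inl h
    · refine Or.inr ⟨univ.biUnion fun i => (T i).sup id, fun i hi => ?_, fun S hS hd => ?_⟩
      · rw [filter_biUnion]
        refine card_biUnion_le.trans ?_
        refine (sum_le_sum fun a _ => (h1 a).2.2 i hi).trans ?_
        simp only [sum_const, card_univ, Fintype.card_fin, smul_eq_mul]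
        exact Nat.mul_le_mul_right _ (by omega)
      · exact h2 S hS fun i => hd.mono_right (subset_biUnion_of_mem (fun i => (T i).sup id)
          (mem_univ i))
  induction m with
  | zero =>
    intro D f G _ hG
    rcases step0 0 D f G with h | ⟨W0, h1, h2⟩
    · exact Or.inl h
    refine Or.inr ⟨fun j _ => if j = 0 then W0 else ∅, fun _ _ _ _ => rfl, ?_, ?_⟩
    · intro j e i hj hi
      obtain rfl : j = 0 := by omega
      simpa using h1 i hi
    · intro e he
      refine ⟨0, 0, le_rfl, le_rfl, ?_⟩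
      by_contra hc
      refine h2 {{e (f 0)}} ⟨⟨e (f 0), rfl⟩, ?_, ?_⟩ (by simpa using hc)
      · intro E hE
        exact ⟨e, he, by simpa [edgeOf] using hE⟩
      · intro i hi
        obtain rfl : i = 0 := by omega
        exact (card_filter_le _ _).trans (by simp)
  | succ m ih =>
    intro D f G hf hG
    rcases step0 (m + 1) D f G with h | ⟨W0, h1, h2⟩
    · exact Or.inl h
    have key : ∀ x : V, ∃ W, c x = f 0 → Cov c m (fun t => D (t + 1)) (fun t => f (t + 1))
        (G.filter fun e => (∀ i, i ≤ m + 1 → e (f i) ∉ W0) ∧ e (f 0) = x) W := by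
      intro x
      by_cases hx : c x = f 0
      swap
      · exact ⟨fun _ _ => ∅, fun h => absurd h hx⟩
      rcases ih (fun t => D (t + 1)) (fun t => f (t + 1))
        (G.filter fun e => (∀ i, i ≤ m + 1 → e (f i) ∉ W0) ∧ e (f 0) = x)
        (fun a b ha hb hab => by have := hf (a + 1) (b + 1) (by omega) (by omega) hab; omega)
        (fun e he => hG e (mem_filter.1 he).1) with ⟨T, t1, t2⟩ | ⟨W, hW⟩
      swap
      · exact ⟨W, fun _ => hW⟩
      exfalso
      have col : ∀ i v, v ∈ (T i).sup id → c v ≠ f 0 := by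
        intro i v hv
        obtain ⟨E, hE, hvE⟩ := mem_sup_id.1 hv
        obtain ⟨e, he, rfl⟩ := (t1 i).2.1 E hE
        obtain ⟨t, ht, rfl⟩ := mem_image.1 hvE
        rw [hG e (mem_filter.1 he).1]
        intro hh
        have := hf (t + 1) 0 (by have := mem_range.1 ht; omega) (by omega) hh
        omega
      have edges : ∀ E ∈ (univ.biUnion fun i => (T i).image (insert x)),
          ∃ e ∈ G, (∀ i, i ≤ m + 1 → e (f i) ∉ W0) ∧ E = edgeOf (m + 1) f e := by
        intro E hE
        obtain ⟨i, -, hi⟩ := mem_biUnion.1 hE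
        obtain ⟨E', hE', rfl⟩ := mem_image.1 hi
        obtain ⟨e, he, rfl⟩ := (t1 i).2.1 E' hE'
        obtain ⟨he1, he2, he3⟩ := mem_filter.1 he
        exact ⟨e, he1, he2, by rw [edgeOf_succ, he3]⟩
      have verts : (univ.biUnion fun i => (T i).image (insert x)).sup id ⊆
          insert x (univ.biUnion fun i => (T i).sup id) := by
        intro v hv
        obtain ⟨E, hE, hvE⟩ := mem_sup_id.1 hv
        obtain ⟨i, -, hi⟩ := mem_biUnion.1 hE
        obtain ⟨E', hE', rfl⟩ := mem_image.1 hi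
        rcases mem_insert.1 hvE with rfl | hh
        · exact mem_insert_self _ _
        · exact mem_insert_of_mem (mem_biUnion.2 ⟨i, mem_univ _, mem_sup_id.2 ⟨E', hE', hh⟩⟩)
      refine h2 (univ.biUnion fun i => (T i).image (insert x)) ⟨?_, ?_, ?_⟩ ?_
      · rw [degs_succ]
        exact ⟨x, T, fun i => (t1 i).1, fun i hi => col i x hi hx, t2, rfl⟩
      · intro E hE
        obtain ⟨e, he, -, h3⟩ := edges E hE
        exact ⟨e, he, h3⟩
      · intro i hi
        refine (card_le_card (filter_subset_filter _ verts)).trans ?_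
        rcases i with _ | i
        · refine (card_le_card (t := {x}) ?_).trans (by simp)
          intro v hv
          obtain ⟨hv1, hv2⟩ := mem_filter.1 hv
          rcases mem_insert.1 hv1 with rfl | hh
          · exact mem_singleton_self _
          · obtain ⟨a, -, ha⟩ := mem_biUnion.1 hh
            exact absurd hv2 (col a v ha)
        · rw [filter_insert, if_neg (by
            rw [hx]
            intro hh
            have := hf 0 (i + 1) (by omega) hi hh
            omega), filter_biUnion, prod_Ioc_zero_succ]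
          refine card_biUnion_le.trans ?_
          refine (sum_le_sum fun a _ => (t1 a).2.2 i (by omega)).trans ?_
          simp
      · rw [disjoint_left]
        intro v hv hv2
        obtain ⟨E, hE, hvE⟩ := mem_sup_id.1 hv
        obtain ⟨e, he, h3, rfl⟩ := edges E hE
        obtain ⟨t, ht, rfl⟩ := mem_image.1 hvE
        exact h3 t (by have := mem_range.1 ht; omega) hv2
    choose W hW using key
    refine Or.inr ⟨fun j e => match j with
      | 0 => W0
      | j + 1 => if c (e (f 0)) = f 0 then W (e (f 0)) j e else ∅, ?_, ?_, ?_⟩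
    · intro j e e' h
      rcases j with _ | j
      · rfl
      · have e0 := h 0 (by omega)
        simp only [← e0]
        split_ifs with hc
        · exact (hW _ hc).1 j e e' fun t ht => h (t + 1) (by omega)
        · rfl
    · intro j e i hj hi
      rcases j with _ | j
      · exact h1 i hi
      · obtain ⟨i, rfl⟩ : ∃ i', i = i' + 1 := ⟨i - 1, by omega⟩
        simp only
        split_ifs with hc
        · rw [← prod_shift]
          exact (hW _ hc).2.1 j e i (by omega) (by omega)
        · simp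
    · intro e he
      by_cases h : ∀ i, i ≤ m + 1 → e (f i) ∉ W0
      · have hc := hG e he (f 0)
        obtain ⟨j, i, a1, a2, a3⟩ := (hW _ hc).2.2 e (mem_filter.2 ⟨he, h, rfl⟩)
        refine ⟨j + 1, i + 1, by omega, by omega, ?_⟩
        simp only [if_pos hc]
        exact a3
      · push Not at h
        obtain ⟨i, hi, hh⟩ := h
        exact ⟨0, i, by omega, hi, hh⟩

end Pool.Agent.P.MP_754fe6_co
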