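import Mathlib

namespace Pool.Agent.P.MP_754fe6_co

open Finset

/-- data of the scheduling lemma -/
structure Sys (κ : Type) [Fintype κ] [DecidableEq κ] where
  δ : Finset κ → κ → ℝ
  F : Finset κ → ℝ
  Φ : ℝ
  δmono : ∀ S S' x, S ⊆ S' → δ S x ≤ δ S' x
  δnn : ∀ S x, 0 ≤ δ S x
  Fnn : 0 ≤ F ∅
  Fstep : ∀ A x, x ∉ A → F A + δ A x ≤ F (insert x A)
  Fle : F univ ≤ Φ

namespace Sys

variable {κ : Type} [Fintype κ] [DecidableEq κ] (X : Sys κ)

theorem Fmono {A B : Finset κ} (h : A ⊆ B) : X.F A ≤ X.F B := by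
  obtain ⟨C, rfl⟩ : ∃ C, B = A ∪ C := ⟨B, (union_eq_right.2 h).symm⟩
  clear h
  induction C using Finset.induction_on with
  | empty => simp
  | insert x C hx ih =>
    rw [union_insert]
    by_cases hxa : x ∈ A ∪ C
    · rw [insert_eq_of_mem hxa]; exact ih
    · have := X.Fstep _ _ hxa
      have := X.δnn (A ∪ C) x
      linarith

theorem F0 (A : Finset κ) : 0 ≤ X.F A := X.Fnn.trans (X.Fmono (empty_subset _))

theorem FΦ (A : Finset κ) : X.F A ≤ X.Φ := (X.Fmono (subset_univ _)).trans X.Fle

def Closed (t : ℝ) (A : Finset κ) : Prop := ∀ x, t ≤ X.δ A x → x ∈ A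

open Classical in
noncomputable def cl (t : ℝ) (S : Finset κ) : Finset κ :=
  univ.filter fun x => ∀ A, S ⊆ A → X.Closed t A → x ∈ A

theorem mem_cl {t : ℝ} {S : Finset κ} {x : κ} :
    x ∈ X.cl t S ↔ ∀ A, S ⊆ A → X.Closed t A → x ∈ A := by
  simp [cl]

theorem sub_cl (t : ℝ) (S : Finset κ) : S ⊆ X.cl t S :=
  fun _ hx => X.mem_cl.2 fun _ hA _ => hA hx

theorem cl_closed (t : ℝ) (S : Finset κ) : X.Closed t (X.cl t S) := by
  intro x hx
  refine X.mem_cl.2 fun A hA hc => hc x (hx.trans (X.δmono _ _ _ ?_))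
  exact fun y hy => X.mem_cl.1 hy A hA hc

theorem cl_min {t : ℝ} {S A : Finset κ} (h : S ⊆ A) (hc : X.Closed t A) : X.cl t S ⊆ A :=
  fun _ hy => X.mem_cl.1 hy A h hc

theorem Closed.mono {t t' : ℝ} {A : Finset κ} (hc : X.Closed t A) (h : t ≤ t') :
    X.Closed t' A := fun x hx => hc x (h.trans hx)

theorem cl_sub {t t' : ℝ} {S S' : Finset κ} (h : t' ≤ t) (hS : S ⊆ X.cl t' S') :
    X.cl t S ⊆ X.cl t' S' :=
  X.cl_min hS (Closed.mono X (X.cl_closed _ _) h)

theorem cl_step {t : ℝ} {S A : Finset κ} (hS : S ⊆ A) (h : ¬ X.cl t S ⊆ A) :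
    ∃ x ∈ X.cl t S, x ∉ A ∧ t ≤ X.δ (A ∩ X.cl t S) x := by
  by_contra hcon
  push Not at hcon
  apply h
  refine (X.cl_min (subset_inter hS (X.sub_cl t S)) ?_).trans inter_subset_left
  intro x hx
  have h1 : x ∈ X.cl t S := X.cl_closed t S x (hx.trans (X.δmono _ _ _ inter_subset_right))
  by_contra hx2
  have : x ∉ A := fun ha => hx2 (mem_inter.2 ⟨ha, h1⟩)
  exact absurd hx (not_le.2 (hcon x h1 this))

theorem cl_step' {t : ℝ} {S A : Finset κ} (hS : S ⊆ A) (h : ¬ X.cl t S ⊆ A) :
    ∃ x ∈ X.cl t S, x ∉ A ∧ t ≤ X.δ A x := by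
  obtain ⟨x, h1, h2, h3⟩ := X.cl_step hS h
  exact ⟨x, h1, h2, h3.trans (X.δmono _ _ _ inter_subset_left)⟩

theorem F_cl {t : ℝ} {S : Finset κ} (m : ℕ) : ∀ {A : Finset κ}, S ⊆ A →
    (X.cl t S \ A).card = m → X.F A + t * m ≤ X.F (A ∪ X.cl t S) := by
  induction m with
  | zero => intro A _ _; simpa using X.Fmono subset_union_left
  | succ m ih =>
    intro A hS hm
    have hn : ¬ X.cl t S ⊆ A := by
      intro h
      rw [sdiff_eq_empty_iff_subset.2 h] at hm
      simp at hm
    obtain ⟨x, h1, h2, h3⟩ := X.cl_step' hS hn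
    have h4 : (X.cl t S \ insert x A).card = m := by
      rw [sdiff_insert, card_erase_of_mem (mem_sdiff.2 ⟨h1, h2⟩), hm]; rfl
    have h5 := ih (hS.trans (subset_insert x A)) h4
    have h6 := X.Fstep A x h2
    have h7 : insert x A ∪ X.cl t S = A ∪ X.cl t S := by
      rw [insert_union, insert_eq_of_mem (mem_union_right _ h1)]
    rw [h7] at h5
    push_cast
    linarith

/-- convenient form: if `A ∪ cl` has at least `A.card + m` elements -/
theorem F_cl' {t : ℝ} (ht : 0 ≤ t) {S A : Finset κ} (hS : S ⊆ A) {m : ℕ}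
    (hm : A.card + m ≤ (A ∪ X.cl t S).card) : X.F A + t * m ≤ X.F (A ∪ X.cl t S) := by
  have h1 := X.F_cl (t := t) _ hS rfl
  have h2 : (X.cl t S \ A).card + A.card = (A ∪ X.cl t S).card := by
    rw [card_sdiff_add_card, union_comm]
  have h3 : (m : ℝ) ≤ ((X.cl t S \ A).card : ℝ) := by exact_mod_cast (by omega)
  nlinarith

/-- numerical hypotheses on the slack function -/
structure Slack (s : ℕ → ℕ → ℝ) : Prop where
  nn : ∀ j D, 0 ≤ s j D
  anti : ∀ j j' D D', 1 ≤ j' → j' ≤ j → D ≤ D' → s j' D' ≤ s j D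
  sup : ∀ j i D, 1 ≤ j → j ≤ i → i ≤ D → D < Fintype.card κ → s j D + s 1 i ≤ s j i + s 1 D
  top : s 1 (Fintype.card κ) ≤ 0
  big : ∀ j i, 1 ≤ j → j ≤ i → i < Fintype.card κ →
    X.Φ < ((i + 1 - j : ℕ) : ℝ) * s j i + s 1 (i + 1)

variable {X} {s : ℕ → ℕ → ℝ}

theorem Slack.key (h : X.Slack s) {j D1 D : ℕ} (hj : 1 ≤ j) (h1 : j ≤ D1) (h2 : D1 < D)
    (h3 : D < Fintype.card κ) :
    X.Φ < ((D1 + 1 - j : ℕ) : ℝ) * s j D1 + ((D - D1 - 1 : ℕ) : ℝ) * s j D + s 1 D := by
  have b1 := h.big j D1 hj h1 (by omega)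
  rcases Nat.eq_or_lt_of_le h2 with e | e
  · subst e
    simpa using b1
  have b2 := h.big j D hj (by omega) h3
  obtain ⟨a, ha⟩ : ∃ a, D1 + 1 - j = a + 1 := ⟨D1 - j, by omega⟩
  obtain ⟨b, hb⟩ : ∃ b, D - D1 - 1 = b + 1 := ⟨D - D1 - 2, by omega⟩
  have hc : D + 1 - j = a + b + 3 := by omega
  rw [ha] at b1 ⊢
  rw [hb]
  rw [hc] at b2
  push_cast at *
  have s1 := h.sup j (D1 + 1) D hj (by omega) (by omega) h3
  have s2 := h.anti j j D1 (D1 + 1) hj le_rfl (by omega)
  have s3 := h.anti j j D1 D hj le_rfl (by omega)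
  have s4 := h.anti 1 1 D (D + 1) le_rfl le_rfl (by omega)
  have s5 := h.nn j D
  have ha0 : (0 : ℝ) ≤ a := Nat.cast_nonneg a
  have hb0 : (0 : ℝ) ≤ b := Nat.cast_nonneg b
  by_contra hcon
  push Not at hcon
  have e1 : 0 ≤ (a : ℝ) * (s j D1 - s j D) := mul_nonneg ha0 (by linarith)
  have e2 : 0 ≤ (b : ℝ) * s j D := mul_nonneg hb0 s5
  nlinarith

theorem Slack.key2 (h : X.Slack s) {j D1 D : ℕ} (hj : 1 ≤ j) (h1 : j ≤ D1) (h2 : D1 < D)
    (h3 : D < Fintype.card κ) :
    X.Φ < ((D1 + 1 - j : ℕ) : ℝ) * s j D1 + ((D - D1 : ℕ) : ℝ) * s j D := by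
  have := h.key hj h1 h2 h3
  have e : D - D1 = (D - D1 - 1) + 1 := by omega
  rw [e]
  have := h.anti j 1 D D le_rfl hj le_rfl
  push_cast
  linarith

variable (X s) in
noncomputable def C (S : Finset κ) (u : κ) (D : ℕ) : Finset κ :=
  X.cl (s (S.card + 1) D) (insert u S)

variable (X s) in
def BadAt (S : Finset κ) (u : κ) (D : ℕ) : Prop :=
  S.card + 1 ≤ D ∧ D < Fintype.card κ ∧ D + 1 ≤ (X.C s S u D).card

theorem sub_C (S : Finset κ) (u : κ) (D : ℕ) : insert u S ⊆ X.C s S u D := X.sub_cl _ _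

theorem Slack.F_C (h : X.Slack s) {S A : Finset κ} {u : κ} {D m : ℕ} (hS : insert u S ⊆ A)
    (hm : A.card + m ≤ (A ∪ X.C s S u D).card) :
    X.F A + s (S.card + 1) D * m ≤ X.F (A ∪ X.C s S u D) := X.F_cl' (h.nn _ _) hS hm

theorem Slack.F_C0 (h : X.Slack s) {S : Finset κ} {u : κ} (hu : u ∉ S) {D m : ℕ}
    (hm : S.card + 1 + m ≤ (X.C s S u D).card) :
    X.F (insert u S) + s (S.card + 1) D * m ≤ X.F (X.C s S u D) := by
  have := h.F_C (S := S) (u := u) (D := D) (m := m) subset_rfl
    (by rw [union_eq_right.2 (sub_C S u D), card_insert_of_notMem hu]; exact hm)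
  rwa [union_eq_right.2 (sub_C S u D)] at this

theorem Slack.bad_F (h : X.Slack s) {S : Finset κ} {u : κ} (hu : u ∉ S) {D : ℕ}
    (hb : X.BadAt s S u D) :
    X.F (insert u S) + ((D + 1 - (S.card + 1) : ℕ) : ℝ) * s (S.card + 1) D ≤
      X.F (X.C s S u D) := by
  have := h.F_C0 hu (D := D) (m := D + 1 - (S.card + 1)) (by have := hb.1; have := hb.2.2; omega)
  linarith

theorem Slack.bad_card (h : X.Slack s) {S : Finset κ} {u : κ} (hu : u ∉ S) {D : ℕ}
    (hb : X.BadAt s S u D) : (X.C s S u D).card = D + 1 ∧ D + 1 < Fintype.card κ := by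
  have b := h.big (S.card + 1) D (by omega) hb.1 hb.2.1
  have f0 := X.F0 (insert u S)
  have f1 := X.FΦ (X.C s S u D)
  constructor
  · by_contra hne
    have := h.F_C0 hu (D := D) (m := D + 1 - (S.card + 1) + 1)
      (by have := hb.1; have := hb.2.2; omega)
    have a := h.anti (S.card + 1) 1 D (D + 1) le_rfl (by omega) (by omega)
    push_cast at this b
    linarith
  · by_contra hne
    have e : D + 1 = Fintype.card κ := by have := hb.2.1; omega
    have := h.bad_F hu hb
    have t := h.top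
    rw [← e] at t
    linarith

theorem Slack.C_sub (h : X.Slack s) {S : Finset κ} {u v : κ} {D D' : ℕ} (hD : D ≤ D')
    (hu : u ∈ X.C s S v D') : X.C s S u D ⊆ X.C s S v D' :=
  X.cl_sub (h.anti _ _ _ _ (by omega) le_rfl hD)
    (insert_subset hu ((subset_insert _ _).trans (sub_C S v D')))

theorem card_union_C {S A : Finset κ} {u : κ} {D : ℕ} (hu : u ∉ S) (hA : insert u S ⊆ A)
    (hd : ∀ g ∈ X.C s S u D, g ∈ A → g ∈ insert u S) (hc : (X.C s S u D).card = D + 1) :
    (A ∪ X.C s S u D).card + (S.card + 1) = A.card + (D + 1) := by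
  have e : A ∩ X.C s S u D = insert u S := by
    apply Subset.antisymm
    · intro g hg
      exact hd g (mem_inter.1 hg).2 (mem_inter.1 hg).1
    · exact subset_inter hA (sub_C S u D)
  have := card_union_add_card_inter A (X.C s S u D)
  rw [e, card_insert_of_notMem hu, hc] at this
  exact this

theorem Slack.factA (h : X.Slack s) {S : Finset κ} {y : κ} (hy : y ∉ S) {D1 : ℕ}
    (hb : X.BadAt s S y D1) (hall : ∀ b ∈ X.C s S y D1, b ∉ S → ∃ D, X.BadAt s S b D) :
    ∀ b ∈ X.C s S y D1, b ∉ S → X.C s S b D1 = X.C s S y D1 := by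
  obtain ⟨c1, r1⟩ := h.bad_card hy hb
  have hj : 1 ≤ S.card + 1 := by omega
  suffices H : ∀ m (A : Finset κ), insert y S ⊆ A → A ⊆ X.C s S y D1 →
      (∀ g ∈ A, g ∉ S → X.C s S g D1 = X.C s S y D1) →
      s (S.card + 1) D1 * ((A.card - (S.card + 1) : ℕ) : ℝ) ≤ X.F A →
      (X.C s S y D1 \ A).card = m →
      ∀ b ∈ X.C s S y D1, b ∉ S → X.C s S b D1 = X.C s S y D1 by
    refine H _ (insert y S) subset_rfl (sub_C _ _ _) ?_ ?_ rfl
    · intro g hg hgS
      rcases mem_insert.1 hg with rfl | hg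
      · rfl
      · exact absurd hg hgS
    · rw [card_insert_of_notMem hy]
      simpa using X.F0 _
  intro m
  induction m with
  | zero =>
    intro A _ _ h3 _ h5 b hb1 hb2
    exact h3 b (sdiff_eq_empty_iff_subset.1 (card_eq_zero.1 h5) hb1) hb2
  | succ m ih =>
    intro A h1 h2 h3 h4 h5
    have hn : ¬ X.C s S y D1 ⊆ A := by
      intro hh
      rw [sdiff_eq_empty_iff_subset.2 hh] at h5
      simp at h5
    obtain ⟨k, k1, k2, k3⟩ := X.cl_step' h1 hn
    have k1' : k ∈ X.C s S y D1 := k1
    have hSA : S ⊆ A := (subset_insert _ _).trans h1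
    have kS : k ∉ S := fun hh => k2 (hSA hh)
    have hAc : S.card + 1 ≤ A.card := by
      have := card_le_card h1
      rwa [card_insert_of_notMem hy] at this
    have hFk : s (S.card + 1) D1 * (((insert k A).card - (S.card + 1) : ℕ) : ℝ) ≤
        X.F (insert k A) := by
      have := X.Fstep A k k2
      rw [card_insert_of_notMem k2, show A.card + 1 - (S.card + 1) = A.card - (S.card + 1) + 1 by
        omega]
      push_cast
      linarith
    have main : X.C s S k D1 = X.C s S y D1 := by
      obtain ⟨Dk, hk⟩ := hall k k1' kS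
      obtain ⟨ck, rk⟩ := h.bad_card kS hk
      have Fk := h.bad_F kS hk
      have f0 := X.F0 (insert k S)
      by_cases hg : ∃ g ∈ X.C s S k Dk, g ∈ A ∧ g ∉ S
      · obtain ⟨g, g1, g2, g3⟩ := hg
        have eg := h3 g g2 g3
        rcases lt_trichotomy Dk D1 with hl | hl | hl
        · exfalso
          have hsub : X.C s S k Dk ⊆ X.C s S y D1 := h.C_sub hl.le k1'
          have := h.F_C (S := S) (u := g) (D := D1) (A := X.C s S k Dk) (m := D1 - Dk)
            (insert_subset g1 ((subset_insert _ _).trans (sub_C _ _ _)))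
            (by rw [eg, union_eq_right.2 hsub]; omega)
          have kk := h.key2 hj hk.1 hl hb.2.1
          have := X.FΦ (X.C s S k Dk ∪ X.C s S g D1)
          linarith
        · subst hl
          symm
          apply eq_of_subset_of_card_le _ (by omega)
          rw [← eg]
          exact h.C_sub le_rfl g1
        · exfalso
          have F1 := h.bad_F hy hb
          have f1 := X.F0 (insert y S)
          have := h.F_C (S := S) (u := k) (D := Dk) (A := X.C s S y D1) (m := Dk - D1)
            (insert_subset k1' ((subset_insert _ _).trans (sub_C _ _ _)))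
            (by have := card_le_card (subset_union_right (s₁ := X.C s S y D1) (s₂ := X.C s S k Dk))
                omega)
          have kk := h.key2 hj hb.1 hl hk.2.1
          have := X.FΦ (X.C s S y D1 ∪ X.C s S k Dk)
          linarith
      · exfalso
        push Not at hg
        have hkA : insert k S ⊆ insert k A := insert_subset_insert _ hSA
        have cu := card_union_C (X := X) (s := s) (D := Dk) kS hkA (by
          intro g g1 g2
          rcases mem_insert.1 g2 with rfl | g2
          · exact mem_insert_self _ _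
          · exact mem_insert_of_mem (hg g g1 g2)) ck
        have hk1 := hk.1
        have F2 := h.F_C (S := S) (u := k) (D := Dk) (A := insert k A)
          (m := Dk + 1 - (S.card + 1)) hkA (by omega)
        rw [card_insert_of_notMem k2] at hFk cu
        have snn := h.nn (S.card + 1) D1
        by_cases hl : D1 ≤ Dk + 1
        · have b := h.big (S.card + 1) Dk hj hk.1 hk.2.1
          have a := h.anti (S.card + 1) 1 D1 (Dk + 1) le_rfl hj hl
          have := X.FΦ (insert k A ∪ X.C s S k Dk)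
          have e : (1 : ℝ) ≤ ((A.card + 1 - (S.card + 1) : ℕ) : ℝ) := by
            exact_mod_cast (by omega : 1 ≤ A.card + 1 - (S.card + 1))
          nlinarith
        · have hsub : X.C s S k Dk ⊆ X.C s S y D1 := h.C_sub (by omega) k1'
          have hB : insert k A ∪ X.C s S k Dk ⊆ X.C s S y D1 :=
            union_subset (insert_subset k1' h2) hsub
          have hBc := card_le_card hB
          have F3 := h.F_C (S := S) (u := y) (D := D1) (A := insert k A ∪ X.C s S k Dk)
            (m := D1 + 1 - (insert k A ∪ X.C s S k Dk).card)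
            (h1.trans ((subset_insert _ _).trans subset_union_left))
            (by rw [union_eq_right.2 hB]; omega)
          have kk := h.key2 hj hk.1 (by omega : Dk < D1) hb.2.1
          have := X.FΦ (insert k A ∪ X.C s S k Dk ∪ X.C s S y D1)
          have e : ((D1 - Dk : ℕ) : ℝ) = ((A.card + 1 - (S.card + 1) : ℕ) : ℝ) +
              ((D1 + 1 - (insert k A ∪ X.C s S k Dk).card : ℕ) : ℝ) := by
            exact_mod_cast (by omega)
          rw [e] at kk
          nlinarith
    refine ih (insert k A) (h1.trans (subset_insert _ _)) (insert_subset k1' h2) ?_ hFk ?_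
    · intro g hg hgS
      rcases mem_insert.1 hg with rfl | hg
      · exact main
      · exact h3 g hg hgS
    · rw [sdiff_insert, card_erase_of_mem (mem_sdiff.2 ⟨k1', k2⟩), h5]; rfl

theorem Slack.fact4 (h : X.Slack s) {S : Finset κ} {y : κ} (hy : y ∉ S) {D1 : ℕ}
    (hb : X.BadAt s S y D1) (hall : ∀ b ∈ X.C s S y D1, b ∉ S → ∃ D, X.BadAt s S b D)
    {w : κ} (hw : w ∉ X.C s S y D1) (Dw : ℕ) : ¬ X.BadAt s S w Dw := by
  intro hbw
  have hA := h.factA hy hb hall
  obtain ⟨c1, r1⟩ := h.bad_card hy hb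
  have hSC : S ⊆ X.C s S y D1 := (subset_insert _ _).trans (sub_C _ _ _)
  have wS : w ∉ S := fun hh => hw (hSC hh)
  obtain ⟨cw, rw'⟩ := h.bad_card wS hbw
  have hj : 1 ≤ S.card + 1 := by omega
  have hb1 := hb.1
  have hw1 := hbw.1
  have big1 := h.big (S.card + 1) D1 hj hb.1 hb.2.1
  have bigw := h.big (S.card + 1) Dw hj hbw.1 hbw.2.1
  have nn1 := h.nn (S.card + 1) D1
  have nnw := h.nn (S.card + 1) Dw
  suffices H : ∀ m (A : Finset κ), insert w S ⊆ A → A ⊆ X.C s S w Dw →
      (∀ g ∈ A, g ∈ X.C s S y D1 → g ∈ S) →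
      s (S.card + 1) Dw * ((A.card - (S.card + 1) : ℕ) : ℝ) ≤ X.F A →
      (X.C s S w Dw \ A).card = m → False by
    refine H _ (insert w S) subset_rfl (sub_C _ _ _) ?_ ?_ rfl
    · intro g hg hg'
      rcases mem_insert.1 hg with rfl | hg
      · exact absurd hg' hw
      · exact hg
    · rw [card_insert_of_notMem wS]
      simpa using X.F0 _
  intro m
  induction m with
  | zero =>
    intro A _ _ h3 _ h5
    have hsub := sdiff_eq_empty_iff_subset.1 (card_eq_zero.1 h5)
    have F1 := h.bad_F hy hb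
    have f1 := X.F0 (insert y S)
    have f2 : X.F (X.C s S y D1) ≤ X.F (insert w (X.C s S y D1)) := X.Fmono (subset_insert _ _)
    have hwA : insert w S ⊆ insert w (X.C s S y D1) := insert_subset_insert _ hSC
    have cu := card_union_C (X := X) (s := s) (D := Dw) wS hwA (by
      intro g g1 g2
      rcases mem_insert.1 g2 with rfl | g2
      · exact mem_insert_self _ _
      · exact mem_insert_of_mem (h3 g (hsub g1) g2)) cw
    have F2 := h.F_C (S := S) (u := w) (D := Dw) (A := insert w (X.C s S y D1))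
      (m := Dw + 1 - (S.card + 1)) hwA (by omega)
    have := X.FΦ (insert w (X.C s S y D1) ∪ X.C s S w Dw)
    have e1 : (1 : ℝ) ≤ ((D1 + 1 - (S.card + 1) : ℕ) : ℝ) := by
      exact_mod_cast (by omega : 1 ≤ D1 + 1 - (S.card + 1))
    have e2 : (1 : ℝ) ≤ ((Dw + 1 - (S.card + 1) : ℕ) : ℝ) := by
      exact_mod_cast (by omega : 1 ≤ Dw + 1 - (S.card + 1))
    by_cases hl : D1 ≤ Dw + 1
    · have a := h.anti (S.card + 1) 1 D1 (Dw + 1) le_rfl hj hl
      nlinarith
    · have a := h.anti (S.card + 1) 1 Dw (D1 + 1) le_rfl hj (by omega)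
      nlinarith
  | succ m ih =>
    intro A h1 h2 h3 h4 h5
    have hn : ¬ X.C s S w Dw ⊆ A := by
      intro hh
      rw [sdiff_eq_empty_iff_subset.2 hh] at h5
      simp at h5
    obtain ⟨k, k1, k2, k3⟩ := X.cl_step' h1 hn
    have k1' : k ∈ X.C s S w Dw := k1
    have hSA : S ⊆ A := (subset_insert _ _).trans h1
    have kS : k ∉ S := fun hh => k2 (hSA hh)
    have hAc : S.card + 1 ≤ A.card := by
      have := card_le_card h1
      rwa [card_insert_of_notMem wS] at this
    have hFk : s (S.card + 1) Dw * (((insert k A).card - (S.card + 1) : ℕ) : ℝ) ≤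
        X.F (insert k A) := by
      have := X.Fstep A k k2
      rw [card_insert_of_notMem k2, show A.card + 1 - (S.card + 1) = A.card - (S.card + 1) + 1 by
        omega]
      push_cast
      linarith
    by_cases hkC : k ∈ X.C s S y D1
    · have ek := hA k hkC kS
      have hkA : insert k S ⊆ insert k A := insert_subset_insert _ hSA
      have cu := card_union_C (X := X) (s := s) (D := D1) kS hkA (by
        intro g g1 g2
        rcases mem_insert.1 g2 with rfl | g2
        · exact mem_insert_self _ _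
        · exact mem_insert_of_mem (h3 g g2 (ek ▸ g1))) (by rw [ek]; exact c1)
      have F2 := h.F_C (S := S) (u := k) (D := D1) (A := insert k A)
        (m := D1 + 1 - (S.card + 1)) hkA (by omega)
      rw [card_insert_of_notMem k2] at hFk cu
      have e : (1 : ℝ) ≤ ((A.card + 1 - (S.card + 1) : ℕ) : ℝ) := by
        exact_mod_cast (by omega : 1 ≤ A.card + 1 - (S.card + 1))
      by_cases hl : Dw ≤ D1 + 1
      · have a := h.anti (S.card + 1) 1 Dw (D1 + 1) le_rfl hj hl
        have := X.FΦ (insert k A ∪ X.C s S k D1)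
        nlinarith
      · have F3 := h.F_C (S := S) (u := w) (D := Dw) (A := insert k A ∪ X.C s S k D1)
          (m := Dw + 1 - (insert k A ∪ X.C s S k D1).card)
          (h1.trans ((subset_insert _ _).trans subset_union_left))
          (by
            have a1 := card_le_card (subset_union_right (s₁ := insert k A ∪ X.C s S k D1)
              (s₂ := X.C s S w Dw))
            have a2 := card_le_card (subset_union_left (s₁ := insert k A ∪ X.C s S k D1)
              (s₂ := X.C s S w Dw))
            omega)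
        have kk := h.key2 hj hb.1 (by omega : D1 < Dw) hbw.2.1
        have := X.FΦ (insert k A ∪ X.C s S k D1 ∪ X.C s S w Dw)
        have e : ((Dw - D1 : ℕ) : ℝ) ≤ ((A.card + 1 - (S.card + 1) : ℕ) : ℝ) +
            ((Dw + 1 - (insert k A ∪ X.C s S k D1).card : ℕ) : ℝ) := by
          exact_mod_cast (by omega)
        nlinarith
    · refine ih (insert k A) (h1.trans (subset_insert _ _)) (insert_subset k1' h2) ?_ hFk ?_
      · intro g hg hg'
        rcases mem_insert.1 hg with rfl | hg
        · exact absurd hg' hkC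
        · exact h3 g hg hg'
      · rw [sdiff_insert, card_erase_of_mem (mem_sdiff.2 ⟨k1', k2⟩), h5]; rfl

theorem exists_notMem_of_card_lt {A : Finset κ} (hA : A.card < Fintype.card κ) :
    ∃ w, w ∉ A := by
  by_contra hc
  push Not at hc
  have := card_le_card (show (univ : Finset κ) ⊆ A from fun x _ => hc x)
  rw [card_univ] at this
  omega

theorem Slack.exists_good (h : X.Slack s) {S : Finset κ} (hS : S.card < Fintype.card κ) :
    ∃ w, w ∉ S ∧ ∀ D, ¬ X.BadAt s S w D := by
  by_contra hc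
  push Not at hc
  obtain ⟨y, hy⟩ := exists_notMem_of_card_lt hS
  obtain ⟨D1, hb⟩ := hc y hy
  obtain ⟨c1, r1⟩ := h.bad_card hy hb
  obtain ⟨w, hw⟩ := exists_notMem_of_card_lt (A := X.C s S y D1) (by omega)
  obtain ⟨Dw, hbw⟩ := hc w fun hh => hw ((subset_insert _ _).trans (sub_C _ _ _) hh)
  exact h.fact4 hy hb (fun b _ hb => hc b hb) hw Dw hbw

theorem Slack.choice (h : X.Slack s) {S : Finset κ} (hS : S.card < Fintype.card κ)
    (K : ℕ → Finset κ) (hK : Monotone K)
    (hD : ∀ D, ¬ K D ⊆ S → ∃ y ∈ K D, y ∉ S ∧ s 1 D ≤ X.δ S y) :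
    ∃ w, w ∉ S ∧ ∀ D, S.card + 1 ≤ D → D < Fintype.card κ →
      w ∈ X.cl (s (S.card + 1) D) (S ∪ K D) ∨
        (X.cl (s (S.card + 1) D) (insert w (S ∪ K D))).card ≤ D := by
  classical
  have hj : 1 ≤ S.card + 1 := by omega
  have good : ∀ w D, S.card + 1 ≤ D → D < Fintype.card κ → K D ⊆ S → ¬ X.BadAt s S w D →
      (X.cl (s (S.card + 1) D) (insert w (S ∪ K D))).card ≤ D := by
    intro w D h1 h2 h3 h4
    rw [union_eq_left.2 h3]
    by_contra hc
    exact h4 ⟨h1, h2, by unfold C; omega⟩
  by_cases hex : ∃ D, S.card + 1 ≤ D ∧ D < Fintype.card κ ∧ ¬ K D ⊆ S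
  swap
  · push Not at hex
    obtain ⟨w, w1, w2⟩ := h.exists_good hS
    exact ⟨w, w1, fun D h1 h2 => Or.inr (good w D h1 h2 (hex D h1 h2) (w2 D))⟩
  obtain ⟨d1, d2, d3⟩ := Nat.find_spec hex
  set D0 := Nat.find hex with hD0
  have small : ∀ D, S.card + 1 ≤ D → D < D0 → K D ⊆ S := by
    intro D h1 h2
    by_contra hc
    exact Nat.find_min hex h2 ⟨h1, by omega, hc⟩
  obtain ⟨y, y1, y2, y3⟩ := hD D0 d3
  have fin : ∀ w, w ∉ S → (∀ D, ¬ X.BadAt s S w D) →
      (∀ D, D0 ≤ D → D < Fintype.card κ → w ∈ X.cl (s (S.card + 1) D) (S ∪ K D) ∨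
        (X.cl (s (S.card + 1) D) (insert w (S ∪ K D))).card ≤ D) →
      ∃ w, w ∉ S ∧ ∀ D, S.card + 1 ≤ D → D < Fintype.card κ →
      w ∈ X.cl (s (S.card + 1) D) (S ∪ K D) ∨
        (X.cl (s (S.card + 1) D) (insert w (S ∪ K D))).card ≤ D := by
    intro w w1 w2 w3
    refine ⟨w, w1, fun D h1 h2 => ?_⟩
    by_cases hl : D < D0
    · exact Or.inr (good w D h1 h2 (small D h1 hl) (w2 D))
    · exact w3 D (by omega) h2
  have yK : ∀ D, D0 ≤ D → y ∈ X.cl (s (S.card + 1) D) (S ∪ K D) := fun D hl =>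
    X.sub_cl _ _ (mem_union_right _ (hK hl y1))
  by_cases hy : ∀ D, ¬ X.BadAt s S y D
  · exact fin y y2 hy fun D hl _ => Or.inl (yK D hl)
  push Not at hy
  obtain ⟨D1, hb⟩ := hy
  obtain ⟨c1, r1⟩ := h.bad_card y2 hb
  have F1 := h.bad_F y2 hb
  have Fy := X.Fstep S y y2
  have f0 := X.F0 S
  have hlt : D1 + 2 ≤ D0 := by
    by_contra hc
    have b := h.big (S.card + 1) D1 hj hb.1 hb.2.1
    have a := h.anti 1 1 D0 (D1 + 1) le_rfl le_rfl (by omega)
    have := X.FΦ (X.C s S y D1)
    linarith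
  by_cases hall : ∀ b ∈ X.C s S y D1, b ∉ S → ∃ D, X.BadAt s S b D
  swap
  · push Not at hall
    obtain ⟨b, b1, b2, b3⟩ := hall
    refine fin b b2 b3 fun D hl _ => Or.inl ?_
    refine X.cl_sub (h.anti _ _ D1 D hj le_rfl (by omega)) ?_ b1
    exact insert_subset (yK D hl) (subset_union_left.trans (X.sub_cl _ _))
  have hSC : S ⊆ X.C s S y D1 := (subset_insert _ _).trans (sub_C _ _ _)
  have out : ∀ w, w ∉ X.C s S y D1 → ∀ D, D0 ≤ D → D < Fintype.card κ → K D ⊆ X.C s S y D1 →
      (X.cl (s (S.card + 1) D) (insert w (S ∪ K D))).card ≤ D := by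
    intro w hw D h1 h2 h3
    by_contra hc
    have hsub : insert w (S ∪ K D) ⊆ insert w (X.C s S y D1) :=
      insert_subset_insert _ (union_subset hSC h3)
    have F2 := X.F_cl' (h.nn (S.card + 1) D) hsub (m := D - D1 - 1) (by
      have := card_le_card (subset_union_right (s₁ := insert w (X.C s S y D1))
        (s₂ := X.cl (s (S.card + 1) D) (insert w (S ∪ K D))))
      rw [card_insert_of_notMem hw]
      omega)
    have f2 : X.F (X.C s S y D1) ≤ X.F (insert w (X.C s S y D1)) := X.Fmono (subset_insert _ _)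
    have kk := h.key hj hb.1 (by omega : D1 < D) h2
    have a := h.anti 1 1 D0 D le_rfl le_rfl h1
    have := X.FΦ (insert w (X.C s S y D1) ∪ X.cl (s (S.card + 1) D) (insert w (S ∪ K D)))
    linarith
  by_cases hex2 : ∃ D, ¬ K D ⊆ X.C s S y D1
  · obtain ⟨w, w1, w2⟩ := not_subset.1 (Nat.find_spec hex2)
    refine fin w (fun hh => w2 (hSC hh)) (h.fact4 y2 hb hall w2) fun D h1 h2 => ?_
    by_cases hl : D < Nat.find hex2
    · exact Or.inr (out w w2 D h1 h2 (not_not.1 (Nat.find_min hex2 hl)))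
    · exact Or.inl (X.sub_cl _ _ (mem_union_right _ (hK (not_lt.1 hl) w1)))
  · push Not at hex2
    obtain ⟨w, w2⟩ := exists_notMem_of_card_lt (A := X.C s S y D1) (by omega)
    exact fin w (fun hh => w2 (hSC hh)) (h.fact4 y2 hb hall w2) fun D h1 h2 =>
      Or.inr (out w w2 D h1 h2 (hex2 D))

theorem Slack.run (h : X.Slack s) [Inhabited κ] (j : ℕ) (hj : j ≤ Fintype.card κ) :
    ∃ (f : ℕ → κ) (K : ℕ → Finset κ), Set.InjOn f (range j : Finset ℕ) ∧ Monotone K ∧
      (∀ D A, (range j).image f ⊆ A → ¬ K D ⊆ A → ∃ y ∈ K D, y ∉ A ∧ s 1 D ≤ X.δ A y) ∧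
      (∀ j' D, 1 ≤ j' → j' ≤ j → X.cl (s j' D) ((range j').image f) ⊆ K D) ∧
      (∀ D, j + 1 ≤ D → D < Fintype.card κ →
        (X.cl (s (j + 1) D) ((range j).image f ∪ K D)).card ≤ D) ∧
      (∀ j' D, 1 ≤ j' → j' ≤ D → D ≤ j → D < Fintype.card κ →
        X.cl (s j' D) ((range j').image f) ⊆ (range D).image f) := by
  induction j with
  | zero =>
    refine ⟨fun _ => default, fun _ => ∅, by simp, monotone_const, by simp, by omega, ?_, by omega⟩
    intro D h1 h2
    by_contra hc
    simp only [range_zero, image_empty, union_empty, zero_add] at hc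
    have F1 := X.F_cl' (h.nn 1 D) (S := ∅) (A := ∅) subset_rfl (m := D + 1) (by simp; omega)
    have b := h.big 1 D le_rfl (by omega) h2
    have a := h.anti 1 1 D (D + 1) le_rfl le_rfl (by omega)
    have := X.FΦ (∅ ∪ X.cl (s 1 D) ∅)
    have := X.Fnn
    simp only [add_tsub_cancel_right] at b
    push_cast at F1
    linarith
  | succ j ih =>
    obtain ⟨f, K, i1, i2, i3, i4, i5, i6⟩ := ih (by omega)
    have hc : ((range j).image f).card = j := by rw [card_image_of_injOn i1, card_range]
    obtain ⟨w, w1, w2⟩ := h.choice (S := (range j).image f) (by omega) K i2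
      fun D => i3 D _ subset_rfl
    rw [hc] at w2
    have e1 : ∀ j', j' ≤ j → (range j').image (Function.update f j w) = (range j').image f := by
      intro j' hj'
      refine image_congr fun t ht => ?_
      have : t < j' := by simpa using ht
      exact Function.update_of_ne (by omega) _ _
    have e2 : (range (j + 1)).image (Function.update f j w) = insert w ((range j).image f) := by
      rw [range_add_one, image_insert, e1 j le_rfl, Function.update_self]
    have inv : ∀ D, j + 1 ≤ D → D < Fintype.card κ →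
        (X.cl (s (j + 1) D) (insert w ((range j).image f) ∪
          (K D ∪ X.cl (s (j + 1) D) (insert w ((range j).image f))))).card ≤ D := by
      intro D h1 h2
      rcases w2 D h1 h2 with hh | hh
      · refine le_trans (card_le_card (X.cl_sub le_rfl ?_)) (i5 D h1 h2)
        have a : insert w ((range j).image f) ⊆ X.cl (s (j + 1) D) ((range j).image f ∪ K D) :=
          insert_subset hh (subset_union_left.trans (X.sub_cl _ _))
        exact union_subset a (union_subset (subset_union_right.trans (X.sub_cl _ _))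
          (X.cl_sub le_rfl a))
      · refine le_trans (card_le_card (X.cl_sub le_rfl ?_)) hh
        have a : insert w ((range j).image f) ⊆
            X.cl (s (j + 1) D) (insert w ((range j).image f ∪ K D)) :=
          (insert_subset_insert _ subset_union_left).trans (X.sub_cl _ _)
        exact union_subset a (union_subset
          ((subset_union_right.trans (subset_insert _ _)).trans (X.sub_cl _ _))
          (X.cl_sub le_rfl a))
    have i4' : ∀ j' D, 1 ≤ j' → j' ≤ j + 1 →
        X.cl (s j' D) ((range j').image (Function.update f j w)) ⊆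
          K D ∪ X.cl (s (j + 1) D) (insert w ((range j).image f)) := by
      intro j' D h1 h2
      rcases Nat.eq_or_lt_of_le h2 with e | e
      · rw [e, e2]; exact subset_union_right
      · rw [e1 j' (by omega)]; exact (i4 j' D h1 (by omega)).trans subset_union_left
    refine ⟨Function.update f j w, fun D => K D ∪ X.cl (s (j + 1) D) (insert w ((range j).image f)),
      ?_, ?_, ?_, i4', ?_, ?_⟩
    · rw [← card_image_iff, e2, card_insert_of_notMem w1, hc, card_range]
    · intro D D' hD
      exact union_subset_union (i2 hD)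
        (X.cl_sub (h.anti _ _ _ _ (by omega) le_rfl hD) (X.sub_cl _ _))
    · intro D A hA hn
      rw [e2] at hA
      by_cases hK : K D ⊆ A
      · have : ¬ X.cl (s (j + 1) D) (insert w ((range j).image f)) ⊆ A :=
          fun hh => hn (union_subset hK hh)
        obtain ⟨x, x1, x2, x3⟩ := X.cl_step' hA this
        exact ⟨x, mem_union_right _ x1, x2, (h.anti _ _ _ _ le_rfl (by omega) le_rfl).trans x3⟩
      · obtain ⟨x, x1, x2, x3⟩ := i3 D A ((subset_insert _ _).trans hA) hK
        exact ⟨x, mem_union_left _ x1, x2, x3⟩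
    · intro D h1 h2
      rw [e2]
      refine le_trans (card_le_card (X.cl_sub (h.anti _ _ _ _ (by omega) (by omega) le_rfl)
        (X.sub_cl _ _))) (inv D (by omega) h2)
    · intro j' D h1 h2 h3 h4
      rcases Nat.eq_or_lt_of_le h3 with e | e
      · subst e
        rw [e2]
        have a := inv (j + 1) le_rfl h4
        have b := (card_le_card (X.sub_cl _ _)).trans a
        have c : insert w ((range j).image f) = insert w ((range j).image f) ∪
            (K (j + 1) ∪ X.cl (s (j + 1) (j + 1)) (insert w ((range j).image f))) :=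
          eq_of_subset_of_card_le subset_union_left
            (by rw [card_insert_of_notMem w1, hc]; exact b)
        rw [c]
        exact (i4' j' (j + 1) h1 h2).trans subset_union_right
      · rw [e1 j' (by omega), e1 D (by omega)]
        exact i6 j' D h1 h2 (by omega) h4

/-- the scheduling lemma: there is an unblocked ordering -/
theorem Slack.sched (h : X.Slack s) [Inhabited κ] :
    ∃ f : ℕ → κ, Set.InjOn f (range (Fintype.card κ) : Finset ℕ) ∧
      ∀ j i, 1 ≤ j → j ≤ i → i < Fintype.card κ → X.δ ((range j).image f) (f i) < s j i := by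
  obtain ⟨f, K, i1, -, -, -, -, i6⟩ := h.run _ le_rfl
  refine ⟨f, i1, fun j i h1 h2 h3 => ?_⟩
  by_contra hc
  push Not at hc
  have a : f i ∈ X.cl (s j i) ((range j).image f) :=
    X.cl_closed _ _ _ (hc.trans (X.δmono _ _ _ (X.sub_cl _ _)))
  obtain ⟨t, t1, t2⟩ := mem_image.1 (i6 j i h1 h2 h3.le h3 a)
  have t3 : t < i := by simpa using t1
  have := i1 (by simp; omega) (by simp; omega) t2
  omega

end Sys

end Pool.Agent.P.MP_754fe6_co
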