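import Mathlib
import Pool.Agent.P.MP_754fe6_co.Cover
import Pool.Agent.P.MP_754fe6_co.Sched
import Pool.Agent.P.MP_754fe6_co.Defs2

set_option linter.unusedSectionVars false

namespace Pool.Agent.P.MP_754fe6_co

open Finset

section cost

variable {V κ : Type} [DecidableEq V] [DecidableEq κ] [Fintype κ]

open Classical in
/-- the possible values at `x` of the members of `G` that agree with `e` on `S` -/
noncomputable def fib (G : Finset (κ → V)) (S : Finset κ) (x : κ) (e : κ → V) : Finset V :=
  (G.filter fun e' => ∀ y ∈ S, e' y = e y).image fun e' => e' x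

theorem mem_fib {G : Finset (κ → V)} {S : Finset κ} {x : κ} {e : κ → V} {v : V} :
    v ∈ fib G S x e ↔ ∃ e' ∈ G, (∀ y ∈ S, e' y = e y) ∧ e' x = v := by
  simp [fib, and_assoc]

/-- the largest number of possible values at `x` once the values on `S` are fixed -/
noncomputable def cost (G : Finset (κ → V)) (S : Finset κ) (x : κ) : ℕ :=
  G.sup fun e => (fib G S x e).card

theorem le_cost {G : Finset (κ → V)} (S : Finset κ) (x : κ) {e : κ → V} (he : e ∈ G) :
    (fib G S x e).card ≤ cost G S x := le_sup (f := fun e => (fib G S x e).card) he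

theorem cost_le_of {G : Finset (κ → V)} {S : Finset κ} {x : κ} {b : ℕ}
    (h : ∀ e ∈ G, (fib G S x e).card ≤ b) : cost G S x ≤ b := Finset.sup_le h

def proj (A : Finset κ) (e : κ → V) : κ → Option V := fun x => if x ∈ A then some (e x) else none

def NN (G : Finset (κ → V)) (A : Finset κ) : ℕ := (G.image (proj A)).card

theorem cost_anti (G : Finset (κ → V)) {S S' : Finset κ} (h : S ⊆ S') (x : κ) :
    cost G S' x ≤ cost G S x := by
  refine cost_le_of fun e he => le_trans (card_le_card fun v hv => ?_) (le_cost S x he)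
  obtain ⟨e', a, b, c⟩ := mem_fib.1 hv
  exact mem_fib.2 ⟨e', a, fun y hy => b y (h hy), c⟩

theorem cost_pos {G : Finset (κ → V)} (hG : G.Nonempty) (S : Finset κ) (x : κ) :
    1 ≤ cost G S x := by
  obtain ⟨e, he⟩ := hG
  exact le_trans (card_pos.2 ⟨e x, mem_fib.2 ⟨e, he, fun _ _ => rfl, rfl⟩⟩) (le_cost S x he)

theorem cost_le [Fintype V] (G : Finset (κ → V)) (S : Finset κ) (x : κ) :
    cost G S x ≤ Fintype.card V :=
  cost_le_of fun _ _ => card_le_univ _

theorem NN_step (G : Finset (κ → V)) (A : Finset κ) (x : κ) :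
    NN G (insert x A) ≤ cost G A x * NN G A := by
  unfold NN
  let ρ : (κ → Option V) → κ → Option V := fun p y => if y ∈ A then p y else none
  have hρ : ∀ e : κ → V, ρ (proj (insert x A) e) = proj A e := fun e => funext fun y => by
    by_cases hy : y ∈ A <;> simp [ρ, proj, hy]
  refine card_le_mul_card_image_of_maps_to (f := ρ) (fun p hp => ?_) _ fun q hq => ?_
  · obtain ⟨e, he, rfl⟩ := mem_image.1 hp
    exact mem_image.2 ⟨e, he, (hρ e).symm⟩
  obtain ⟨e0, he0, rfl⟩ := mem_image.1 hq
  refine le_trans ?_ (le_cost A x he0)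
  have agree : ∀ e : κ → V, ρ (proj (insert x A) e) = proj A e0 → ∀ y ∈ A, e y = e0 y := by
    intro e h y hy
    rw [hρ] at h
    have := congrFun h y
    simpa [proj, hy] using this
  refine card_le_card_of_injOn (fun p => (p x).getD (e0 x)) ?_ ?_
  · intro p hp
    obtain ⟨hp1, hp2⟩ := mem_filter.1 (mem_coe.1 hp)
    obtain ⟨e, he, rfl⟩ := mem_image.1 hp1
    exact mem_coe.2 (mem_fib.2 ⟨e, he, agree e hp2, by simp [proj]⟩)
  · intro p hp p' hp' hpp
    obtain ⟨hp1, hp2⟩ := mem_filter.1 (mem_coe.1 hp)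
    obtain ⟨e, he, rfl⟩ := mem_image.1 hp1
    obtain ⟨hp1', hp2'⟩ := mem_filter.1 (mem_coe.1 hp')
    obtain ⟨e', he', rfl⟩ := mem_image.1 hp1'
    have hx : e x = e' x := by simpa [proj] using hpp
    funext y
    by_cases hy : y ∈ A
    · simp [proj, hy, agree e hp2 y hy, agree e' hp2' y hy]
    · by_cases hyx : y = x
      · simp [proj, hyx, hx]
      · simp [proj, hy, hyx]

theorem NN_univ (G : Finset (κ → V)) : NN G univ = G.card := by
  refine card_image_of_injective _ fun e e' h => funext fun y => ?_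
  simpa [proj] using congrFun h y

theorem NN_empty (G : Finset (κ → V)) : NN G ∅ ≤ 1 := by
  refine card_le_one.2 fun a ha b hb => ?_
  obtain ⟨e, -, rfl⟩ := mem_image.1 ha
  obtain ⟨e', -, rfl⟩ := mem_image.1 hb
  funext y
  simp [proj]

theorem NN_pos {G : Finset (κ → V)} (hG : G.Nonempty) (A : Finset κ) : 1 ≤ NN G A :=
  card_pos.2 (hG.image _)

/-- the potential system attached to a family of coloured edges -/
noncomputable def sysOf [Fintype V] (G : Finset (κ → V)) (hG : G.Nonempty) : Sys κ where
  δ S x := Real.log (Fintype.card V) - Real.log (cost G S x)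
  F A := A.card * Real.log (Fintype.card V) - Real.log (NN G A)
  Φ := Fintype.card κ * Real.log (Fintype.card V) - Real.log G.card
  δmono S S' x h := by
    have h1 : (0 : ℝ) < cost G S' x := by exact_mod_cast cost_pos hG S' x
    have := Real.log_le_log h1 (show (cost G S' x : ℝ) ≤ cost G S x by
      exact_mod_cast cost_anti G h x)
    linarith
  δnn S x := by
    have h1 : (0 : ℝ) < cost G S x := by exact_mod_cast cost_pos hG S x
    have := Real.log_le_log h1 (show (cost G S x : ℝ) ≤ Fintype.card V by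
      exact_mod_cast cost_le G S x)
    linarith
  Fnn := by
    have : NN G ∅ = 1 := le_antisymm (NN_empty G) (NN_pos hG _)
    simp [this]
  Fstep A x hx := by
    have h1 : (0 : ℝ) < cost G A x := by exact_mod_cast cost_pos hG A x
    have h2 : (0 : ℝ) < NN G A := by exact_mod_cast NN_pos hG A
    have h3 : (0 : ℝ) < NN G (insert x A) := by exact_mod_cast NN_pos hG _
    have := Real.log_le_log h3 (show (NN G (insert x A) : ℝ) ≤ cost G A x * NN G A by
      exact_mod_cast NN_step G A x)
    rw [Real.log_mul h1.ne' h2.ne'] at this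
    rw [card_insert_of_notMem hx]
    push_cast
    linarith
  Fle := by rw [NN_univ, card_univ]

end cost

/-- every ordering of the colour classes is blocked -/
def Blocked {m n : ℕ} (d : ℕ → ℕ) (G : Finset (Fin (m + 1) → Fin n)) : Prop :=
  ∀ f : ℕ → Fin (m + 1), Set.InjOn f (range (m + 1) : Finset ℕ) →
    ∃ j i, 1 ≤ j ∧ j ≤ i ∧ i ≤ m ∧ 2 ≤ d j ∧ cost G ((range j).image f) (f i) ≤ win d j i

theorem rainbow {r n : ℕ} (hr : 0 < r) (H : Finset (Finset (Fin n)))
    (hH : ∀ E ∈ H, E.card = r) :
    ∃ c : Fin n → Fin r, H.card ≤ r ^ r * ((univ : Finset (Fin r → Fin n)).filter fun e =>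
      (∀ x, c (e x) = x) ∧ univ.image e ∈ H).card := by
  classical
  have : Nonempty (Fin r) := ⟨⟨0, hr⟩⟩
  have fib : ∀ e : Fin r → Fin n, Function.Injective e →
      r ^ n ≤ r ^ r * ((univ : Finset (Fin n → Fin r)).filter fun c => ∀ x, c (e x) = x).card := by
    intro e he
    have := card_le_card_of_injOn (s := (univ : Finset (Fin n → Fin r)))
      (t := (univ : Finset (Fin r → Fin r)) ×ˢ
        ((univ : Finset (Fin n → Fin r)).filter fun c => ∀ x, c (e x) = x))
      (fun c => (c ∘ e, Function.extend e id c)) (by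
        intro c _
        simp [he.extend_apply]) (by
        intro c _ c' _ h
        obtain ⟨h1, h2⟩ := Prod.ext_iff.1 h
        funext v
        by_cases hv : ∃ x, e x = v
        · obtain ⟨x, rfl⟩ := hv
          exact congrFun h1 x
        · have := congrFun h2 v
          simpa [Function.extend_apply' _ _ _ hv] using this)
    simpa using this
  have sum : H.card * r ^ n ≤ ∑ c : Fin n → Fin r, r ^ r * ((univ : Finset (Fin r → Fin n)).filter
      fun e => (∀ x, c (e x) = x) ∧ univ.image e ∈ H).card := by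
    rw [← mul_sum]
    simp only [card_filter]
    rw [sum_comm]
    have hx : ∀ E : H, ∃ e : Fin r → Fin n, Function.Injective e ∧ univ.image e = E.1 := by
      intro E
      refine ⟨E.1.orderEmbOfFin (hH E.1 E.2), (E.1.orderEmbOfFin (hH E.1 E.2)).injective, ?_⟩
      simp
    choose g g1 g2 using hx
    have ginj : Function.Injective g := by
      intro a b h
      apply Subtype.ext
      rw [← g2 a, ← g2 b, h]
    calc H.card * r ^ n = ∑ E : H, r ^ n := by simp
      _ ≤ ∑ E : H, r ^ r * ∑ c : Fin n → Fin r,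
          (if (∀ x, c (g E x) = x) ∧ univ.image (g E) ∈ H then 1 else 0) := by
        refine sum_le_sum fun E _ => (fib (g E) (g1 E)).trans (Nat.mul_le_mul_left _ ?_)
        rw [card_filter]
        refine sum_le_sum fun c _ => ?_
        simp [g2 E]
      _ ≤ _ := by
        rw [← mul_sum]
        refine Nat.mul_le_mul_left _ ?_
        rw [← sum_image (s := univ) (g := g) (f := fun e => ∑ c : Fin n → Fin r,
          (if (∀ x, c (e x) = x) ∧ univ.image e ∈ H then 1 else 0)) fun a _ b _ h => ginj h]
        exact sum_le_sum_of_subset (subset_univ _)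
  by_contra hc
  push Not at hc
  have := sum_lt_sum_of_nonempty (s := (univ : Finset (Fin n → Fin r))) univ_nonempty
    fun c _ => hc c
  simp only [sum_const, card_univ, Fintype.card_pi, Fintype.card_fin, prod_const, smul_eq_mul]
    at this
  rw [mul_comm] at sum
  omega

/-- the constant of the upper bounds -/
def CU (r : ℕ) : ℕ := r ^ r * (r * r) ^ (r ^ r)

theorem upper_reduction (m n : ℕ) (d : ℕ → ℕ) (B : ℕ)
    (hB : ∀ G : Finset (Fin (m + 1) → Fin n), G.Nonempty → Blocked d G → G.card ≤ B) :
    exStar n (degs m d) ≤ CU (m + 1) * B := by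
  classical
  refine Finset.sup_le fun H hH => ?_
  obtain ⟨h1, h2⟩ := mem_filter.1 hH
  have hc : ∀ E ∈ H, E.card = m + 1 := fun E hE => by
    have := (mem_powersetCard.1 (mem_powerset.1 h1 hE)).2
    rwa [degs_length] at this
  obtain ⟨c, hc1⟩ := rainbow (by omega) H hc
  set G := (univ : Finset (Fin (m + 1) → Fin n)).filter fun e =>
      (∀ x, c (e x) = x) ∧ univ.image e ∈ H with hG
  refine hc1.trans ?_
  rw [CU, mul_assoc]
  refine Nat.mul_le_mul_left _ ?_
  let D : ℕ → ℕ := Function.update d 0 1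
  have hD : ∀ t, 1 ≤ t → D t = d t := fun t ht => Function.update_of_ne (by omega) _ _
  have hdeg : degs m D = degs m d := by
    unfold degs
    congr 1
  let ff : (Fin (m + 1) → Fin (m + 1)) → ℕ → Fin (m + 1) := fun p t =>
    if h : t < m + 1 then p ⟨t, h⟩ else 0
  have hW : ∀ p : Fin (m + 1) → Fin (m + 1), ∃ W, Function.Injective p →
      Cov c m D (ff p) G W := by
    intro p
    by_cases hp : Function.Injective p
    swap
    · exact ⟨fun _ _ => ∅, fun h => absurd h hp⟩
    rcases cover c m D (ff p) G (by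
        intro a b ha hb hab
        simp only [ff, dif_pos (show a < m + 1 by omega), dif_pos (show b < m + 1 by omega)] at hab
        simpa using hp hab) (fun e he => (mem_filter.1 he).2.1) with ⟨T, t1, -⟩ | ⟨W, hW⟩
    · exfalso
      have h0 : 0 < D 0 := by simp [D]
      obtain ⟨a, b, -⟩ := t1 ⟨0, h0⟩
      refine h2 ⟨_, fun E hE => ?_, hdeg ▸ a⟩
      obtain ⟨e, he, rfl⟩ := b E hE
      have : edgeOf m (ff p) e = univ.image e := by
        ext v
        simp only [edgeOf, mem_image, mem_range, mem_univ, true_and]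
        constructor
        · rintro ⟨t, -, rfl⟩
          exact ⟨_, rfl⟩
        · rintro ⟨x, rfl⟩
          obtain ⟨y, rfl⟩ := Finite.surjective_of_injective hp x
          exact ⟨y, y.2, by simp only [ff, dif_pos y.2]⟩
      rw [this]
      exact (mem_filter.1 he).2.2
    · exact ⟨W, fun _ => hW⟩
  choose W hW using hW
  have hβ : ∀ e : Fin (m + 1) → Fin n, ∀ p : Fin (m + 1) → Fin (m + 1),
      ∃ b : Fin (m + 1) × Fin (m + 1), e ∈ G → Function.Injective p →
        b.1 ≤ b.2 ∧ e (ff p b.2) ∈ W p b.1 e := by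
    intro e p
    by_cases h : e ∈ G ∧ Function.Injective p
    · obtain ⟨j, i, a1, a2, a3⟩ := (hW p h.2).2.2 e h.1
      exact ⟨(⟨j, by omega⟩, ⟨i, by omega⟩), fun _ _ => ⟨a1, a3⟩⟩
    · exact ⟨(0, 0), fun a b => absurd ⟨a, b⟩ h⟩
  choose β hβ using hβ
  have := card_le_mul_card_image_of_maps_to (s := G)
    (t := (univ : Finset ((Fin (m + 1) → Fin (m + 1)) → Fin (m + 1) × Fin (m + 1))))
    (f := β) (fun _ _ => mem_univ _) B ?_
  · rw [mul_comm]
    simpa using this
  intro b _
  rcases (G.filter fun e => β e = b).eq_empty_or_nonempty with h | h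
  · simp [h]
  refine hB _ h fun f hf => ?_
  let p : Fin (m + 1) → Fin (m + 1) := fun t => f t
  have hp : Function.Injective p := fun a b hab =>
    Fin.ext (hf (by simpa using a.2) (by simpa using b.2) hab)
  have hff : ∀ t, t ≤ m → ff p t = f t := fun t ht => by
    simp only [ff, p, dif_pos (show t < m + 1 by omega)]
  obtain ⟨c1, c2, -⟩ := hW p hp
  have hi : ((b p).2 : ℕ) ≤ m := by have := (b p).2.2; omega
  have mem : ∀ e ∈ G.filter fun e => β e = b, ((b p).1 : ℕ) ≤ (b p).2 ∧
      e (f (b p).2) ∈ (W p (b p).1 e).filter fun v => c v = ff p (b p).2 := by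
    intro e he
    obtain ⟨he1, he2⟩ := mem_filter.1 he
    have := hβ e p he1 hp
    rw [he2] at this
    refine ⟨this.1, mem_filter.2 ⟨?_, ?_⟩⟩
    · rw [← hff _ hi]; exact this.2
    · rw [(mem_filter.1 he1).2.1, hff _ hi]
  obtain ⟨e0, he0⟩ := h
  have hji := (mem e0 he0).1
  have pos := (card_pos.2 ⟨_, (mem e0 he0).2⟩).trans_le (c2 _ e0 _ hji hi)
  have hj : 1 ≤ ((b p).1 : ℕ) := by
    by_contra hh
    have : ((b p).1 : ℕ) = 0 := by omega
    rw [this] at pos
    simp [D] at pos
  have hd2 : 2 ≤ d (b p).1 := by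
    by_contra hh
    rw [hD _ hj, show d (b p).1 - 1 = 0 by omega] at pos
    simp at pos
  refine ⟨(b p).1, (b p).2, hj, hji, hi, hd2, cost_le_of fun e he => ?_⟩
  refine le_trans (card_le_card (t := (W p (b p).1 e).filter fun v => c v = ff p (b p).2) ?_)
    ((c2 _ e _ hji hi).trans ?_)
  · intro v hv
    obtain ⟨e', he1, he2, rfl⟩ := mem_fib.1 hv
    rw [← c1 (b p).1 e' e fun t ht => by
      rw [hff t (by omega)]
      exact he2 _ (mem_image.2 ⟨t, mem_range.2 ht, rfl⟩)]
    exact (mem e' he1).2
  · rw [win, ← Finset.Ioc_insert_left hji, prod_insert (by simp), hD _ hj]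
    refine Nat.mul_le_mul (by omega) (le_of_eq (prod_congr rfl fun t ht => hD t ?_))
    have := (mem_Ioc.1 ht).1
    omega

end Pool.Agent.P.MP_754fe6_co
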