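import Mathlib
import Pool.Agent.P.MP_754fe6_co.Upper

namespace Pool.Agent.P.MP_754fe6_co

open Finset

theorem win_pos {d : ℕ → ℕ} (hd : ∀ t, 1 ≤ d t) (j i : ℕ) : 1 ≤ win d j i :=
  prod_pos (f := d) fun t _ => hd t

theorem win_mono {d : ℕ → ℕ} (hd : ∀ t, 1 ≤ d t) {j j' i i' : ℕ} (h1 : j' ≤ j) (h2 : i ≤ i') :
    win d j i ≤ win d j' i' :=
  prod_le_prod_of_subset_of_one_le' (Icc_subset_Icc h1 h2) fun t _ _ => hd t

theorem win_split (d : ℕ → ℕ) {j i k : ℕ} (h1 : j ≤ i + 1) (h2 : i ≤ k) :
    win d j k = win d j i * win d (i + 1) k := by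
  unfold win
  rw [← prod_union]
  · congr 1
    ext t
    simp only [mem_union, mem_Icc]
    omega
  · rw [disjoint_left]
    intro t
    simp only [mem_Icc]
    omega

theorem le_win {d : ℕ → ℕ} (hd : ∀ t, 1 ≤ d t) {j i t : ℕ} (h1 : j ≤ t) (h2 : t ≤ i) :
    d t ≤ win d j i := by
  have := win_mono hd h1 h2
  simpa [win] using this

noncomputable def gg (L M : ℝ) (x : ℕ) : ℝ := if 2 ≤ x then L - Real.log x else M

theorem gg_sup {L M : ℝ} (h : L ≤ M) {a b c : ℕ} (ha : 1 ≤ a) (hb : 1 ≤ b) (hc : 1 ≤ c) :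
    gg L M (b * c) + gg L M (a * b) ≤ gg L M b + gg L M (a * (b * c)) := by
  have a0 : (a : ℝ) ≠ 0 := by positivity
  have b0 : (b : ℝ) ≠ 0 := by positivity
  have c0 : (c : ℝ) ≠ 0 := by positivity
  by_cases h2 : 2 ≤ b
  · have e1 : 2 ≤ b * c := by nlinarith
    have e2 : 2 ≤ a * b := by nlinarith
    have e3 : 2 ≤ a * (b * c) := by nlinarith
    simp only [gg, if_pos h2, if_pos e1, if_pos e2, if_pos e3]
    push_cast
    rw [Real.log_mul a0 (mul_ne_zero b0 c0), Real.log_mul a0 b0, Real.log_mul b0 c0]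
    linarith
  obtain rfl : b = 1 := by omega
  by_cases h3 : 2 ≤ a
  · by_cases h4 : 2 ≤ c
    · have e3 : 2 ≤ a * c := by nlinarith
      simp only [gg, one_mul, mul_one, if_pos h3, if_pos h4, if_pos e3, if_neg h2]
      push_cast
      rw [Real.log_mul a0 c0]
      linarith
    · obtain rfl : c = 1 := by omega
      simp
  · obtain rfl : a = 1 := by omega
    simp [add_comm]

theorem gg_anti {L M : ℝ} (h : L ≤ M) {a b : ℕ} (hab : a ≤ b) (ha : 1 ≤ a) :
    gg L M b ≤ gg L M a := by
  unfold gg
  by_cases h2 : 2 ≤ a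
  · rw [if_pos h2, if_pos (h2.trans hab)]
    have := Real.log_le_log (show (0 : ℝ) < a by positivity) (show (a : ℝ) ≤ b by exact_mod_cast hab)
    linarith
  · rw [if_neg h2]
    split_ifs
    · have := Real.log_natCast_nonneg b
      linarith
    · exact le_rfl

theorem gg_nn {M : ℝ} {n a : ℕ} (h : Real.log n ≤ M) (ha : a ≤ n) : 0 ≤ gg (Real.log n) M a := by
  unfold gg
  split_ifs with h2
  · have := Real.log_le_log (show (0 : ℝ) < a by positivity) (show (a : ℝ) ≤ n by exact_mod_cast ha)
    linarith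
  · exact (Real.log_natCast_nonneg n).trans h

theorem card_le_windowMax {m n : ℕ} {d : ℕ → ℕ} (hd : ∀ t, 1 ≤ d t) (hn : win d 1 m ≤ n)
    (G : Finset (Fin (m + 1) → Fin n)) (hG : G.Nonempty) (hB : Blocked d G) :
    G.card ≤ windowMax (m + 1) n d := by
  by_contra hc
  push Not at hc
  have n1 : 1 ≤ n := (win_pos hd _ _).trans hn
  set L := Real.log n with hL
  have L0 : 0 ≤ L := Real.log_natCast_nonneg n
  set M := (m + 1) * L + 1 with hM
  have m0 : (0 : ℝ) ≤ m := Nat.cast_nonneg m
  have LM : L ≤ M := by nlinarith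
  let s : ℕ → ℕ → ℝ := fun j i => if j = 0 ∨ m + 1 ≤ i then 0 else gg L M (win d j i)
  have hs : ∀ j i, 1 ≤ j → i ≤ m → s j i = gg L M (win d j i) := fun j i h1 h2 =>
    if_neg (by omega)
  have snn : ∀ j i, 0 ≤ s j i := by
    intro j i
    by_cases h : j = 0 ∨ m + 1 ≤ i
    · exact le_of_eq (if_pos h).symm
    · rw [hs j i (by omega) (by omega)]
      exact gg_nn LM ((win_mono hd (by omega) (by omega)).trans hn)
  have hΦ : (sysOf G hG).Φ = (m + 1) * L - Real.log G.card := by
    simp [sysOf, hL]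
  have key : (sysOf G hG).Slack s := by
    refine ⟨snn, ?_, ?_, ?_, ?_⟩
    · intro j j' D D' h1 h2 h3
      by_cases h : m + 1 ≤ D'
      · exact le_trans (le_of_eq (if_pos (Or.inr h))) (snn _ _)
      · rw [hs j' D' h1 (by omega), hs j D (by omega) (by omega)]
        exact gg_anti LM (win_mono hd h2 h3) (win_pos hd _ _)
    · intro j i D h1 h2 h3 h4
      rw [Fintype.card_fin] at h4
      obtain ⟨j, rfl⟩ : ∃ j', j = j' + 1 := ⟨j - 1, by omega⟩
      rw [hs _ _ h1 (by omega), hs _ _ le_rfl (by omega), hs _ _ h1 (by omega),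
        hs _ _ le_rfl (by omega), win_split d (j := 1) (i := j) (k := D) (by omega) (by omega),
        win_split d (j := 1) (i := j) (k := i) (by omega) (by omega),
        win_split d (j := j + 1) (i := i) (k := D) (by omega) (by omega)]
      exact gg_sup LM (win_pos hd _ _) (win_pos hd _ _) (win_pos hd _ _)
    · rw [Fintype.card_fin]
      exact le_of_eq (if_pos (Or.inr le_rfl))
    · intro j i h1 h2 h3
      rw [Fintype.card_fin] at h3
      rw [hΦ, hs j i h1 (by omega)]
      have z1 : (1 : ℝ) ≤ ((i + 1 - j : ℕ) : ℝ) := by exact_mod_cast (by omega : 1 ≤ i + 1 - j)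
      by_cases h : 2 ≤ win d j i
      · have t1 : 1 ≤ topWin (m + 1) n d (i + 1) := by
          unfold topWin
          split_ifs
          · exact n1
          · exact win_pos hd _ _
        have e : s 1 (i + 1) = L - Real.log (topWin (m + 1) n d (i + 1)) := by
          unfold topWin
          split_ifs with h4
          · rw [← hL, sub_self]
            exact if_pos (Or.inr (by omega))
          · rw [hs _ _ le_rfl (by omega), gg, if_pos (h.trans (win_mono hd h1 (by omega)))]
        have lt : n ^ (m + 1 - 1 - (i + 1 - j)) * win d j i ^ (i + 1 - j) *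
            topWin (m + 1) n d (i + 1) < G.card := by
          refine lt_of_le_of_lt ?_ hc
          exact le_sup (f := fun p : ℕ × ℕ => n ^ (m + 1 - 1 - (p.2 + 1 - p.1)) *
            win d p.1 p.2 ^ (p.2 + 1 - p.1) * topWin (m + 1) n d (p.2 + 1)) (b := (j, i))
            (by simp only [mem_filter, mem_product, mem_Icc]; omega)
        have lt2 := Real.log_lt_log (by positivity)
          (show ((n ^ (m + 1 - 1 - (i + 1 - j)) * win d j i ^ (i + 1 - j) *
            topWin (m + 1) n d (i + 1) : ℕ) : ℝ) < G.card by exact_mod_cast lt)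
        push_cast at lt2
        rw [Real.log_mul (by positivity) (by positivity), Real.log_mul (by positivity)
          (by positivity), Real.log_pow, Real.log_pow, ← hL] at lt2
        have e2 : ((m - (i + 1 - j) : ℕ) : ℝ) = m - ((i + 1 - j : ℕ) : ℝ) := by
          rw [eq_sub_iff_add_eq]
          exact_mod_cast (by omega)
        rw [e2] at lt2
        rw [e, gg, if_pos h]
        linarith
      · rw [gg, if_neg h]
        have := snn 1 (i + 1)
        have := Real.log_natCast_nonneg G.card
        nlinarith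
  obtain ⟨f, f1, f2⟩ := key.sched
  rw [Fintype.card_fin] at f1 f2
  obtain ⟨j, i, a1, a2, a3, a4, a5⟩ := hB f f1
  have := f2 j i a1 a2 (by omega)
  rw [hs j i a1 a3, gg, if_pos (a4.trans (le_win hd le_rfl a2))] at this
  simp only [sysOf, Fintype.card_fin] at this
  have c1 := cost_pos hG ((range j).image f) (f i)
  have := Real.log_le_log (show (0 : ℝ) < cost G ((range j).image f) (f i) by positivity)
    (show (cost G ((range j).image f) (f i) : ℝ) ≤ win d j i by exact_mod_cast a5)
  linarith

theorem upper_window {m n : ℕ} {d : ℕ → ℕ} (hd : ∀ t, 1 ≤ d t) (hn : win d 1 m ≤ n) :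
    exStar n (degs m d) ≤ CU (m + 1) * windowMax (m + 1) n d :=
  upper_reduction m n d _ (card_le_windowMax hd hn)

end Pool.Agent.P.MP_754fe6_co
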