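import Mathlib
import Pool.Agent.P.MP_754fe6_co.UpperW

set_option linter.unusedSectionVars false

namespace Pool.Agent.P.MP_754fe6_co

open Finset

variable {V : Type} [DecidableEq V]

theorem star_nonempty : ∀ (l : List ℕ) (S : Finset (Finset V)), (∀ t ∈ l, 1 ≤ t) → IsStar l S →
    S.Nonempty
  | [], S, _, ⟨v, hv⟩ => by simp [hv]
  | k :: l, S, h, ⟨v, T, h1, _, _, h4⟩ => by
    have hk : 0 < k := h k (by simp)
    obtain ⟨E, hE⟩ := star_nonempty l (T ⟨0, hk⟩) (fun t ht => h t (by simp [ht])) (h1 _)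
    exact ⟨insert v E, h4 ▸ mem_biUnion.2 ⟨⟨0, hk⟩, mem_univ _, mem_image_of_mem _ hE⟩⟩

theorem star_image {W : Type} [DecidableEq W] (g : V → W) : ∀ (l : List ℕ) (S : Finset (Finset V)),
    (∀ t ∈ l, 1 ≤ t) → IsStar l S → Set.InjOn g (S.sup id : Finset V) →
    IsStar l (S.image (image g))
  | [], S, _, ⟨v, hv⟩, _ => ⟨g v, by simp [hv]⟩
  | k :: l, S, h, ⟨v, T, h1, h2, h3, h4⟩, hg => by
    have sub : ∀ i, (T i).sup id ⊆ S.sup id := by
      intro i x hx
      obtain ⟨E, hE, hx⟩ := mem_sup_id.1 hx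
      exact mem_sup_id.2 ⟨insert v E, h4 ▸ mem_biUnion.2 ⟨i, mem_univ _, mem_image_of_mem _ hE⟩,
        mem_insert_of_mem hx⟩
    have hv : v ∈ S.sup id := by
      have hk : 0 < k := h k (by simp)
      obtain ⟨E, hE⟩ := star_nonempty l (T ⟨0, hk⟩) (fun t ht => h t (by simp [ht])) (h1 _)
      exact mem_sup_id.2 ⟨insert v E,
        h4 ▸ mem_biUnion.2 ⟨⟨0, hk⟩, mem_univ _, mem_image_of_mem _ hE⟩, mem_insert_self _ _⟩
    have mm : ∀ i w, w ∈ ((T i).image (image g)).sup id → ∃ x ∈ (T i).sup id, g x = w := by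
      intro i w hw
      obtain ⟨E, hE, hw⟩ := mem_sup_id.1 hw
      obtain ⟨E', hE', rfl⟩ := mem_image.1 hE
      obtain ⟨x, hx, rfl⟩ := mem_image.1 hw
      exact ⟨x, mem_sup_id.2 ⟨E', hE', hx⟩, rfl⟩
    refine ⟨g v, fun i => (T i).image (image g), fun i => star_image g l (T i)
      (fun t ht => h t (by simp [ht])) (h1 i) (hg.mono (sub i)), fun i hi => ?_,
      fun i j hij => ?_, ?_⟩
    · obtain ⟨x, hx, e⟩ := mm i _ hi
      exact h2 i (hg (sub i hx) hv e ▸ hx)
    · rw [disjoint_left]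
      intro w hi hj
      obtain ⟨x, hx, rfl⟩ := mm i _ hi
      obtain ⟨y, hy, e⟩ := mm j _ hj
      exact disjoint_left.1 (h3 i j hij) hx (hg (sub j hy) (sub i hx) e ▸ hy)
    · rw [h4, biUnion_image]
      congr 1
      funext i
      rw [image_image, image_image]
      refine image_congr fun E _ => ?_
      simp [image_insert]

theorem degs_pos {d : ℕ → ℕ} (hd : ∀ t, 1 ≤ d t) (m : ℕ) : ∀ t ∈ degs m d, 1 ≤ t := by
  intro t ht
  obtain ⟨i, rfl⟩ := List.mem_ofFn.1 ht
  exact hd _

theorem le_exStar [Fintype V] {n : ℕ} (hn : Fintype.card V ≤ n) {l : List ℕ} (hl : ∀ t ∈ l, 1 ≤ t)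
    (H : Finset (Finset V)) (hH : ∀ E ∈ H, E.card = l.length + 1)
    (hS : ¬ ∃ S, S ⊆ H ∧ IsStar l S) : H.card ≤ exStar n l := by
  classical
  rcases H.eq_empty_or_nonempty with rfl | ⟨E0, hE0⟩
  · simp
  have : Nonempty V := by
    obtain ⟨v, -⟩ : E0.Nonempty := card_pos.1 (by rw [hH E0 hE0]; omega)
    exact ⟨v⟩
  obtain ⟨φ⟩ : Nonempty (V ↪ Fin n) :=
    Function.Embedding.nonempty_of_card_le (by simpa using hn)
  have hg : ∀ x, Function.invFun φ (φ x) = x := Function.leftInverse_invFun φ.injective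
  rw [← card_image_of_injective H (image_injective φ.injective)]
  refine le_sup (f := card) (mem_filter.2 ⟨mem_powerset.2 fun E hE => ?_, ?_⟩)
  · obtain ⟨E', hE', rfl⟩ := mem_image.1 hE
    exact mem_powersetCard.2 ⟨subset_univ _, by
      rw [card_image_of_injective _ φ.injective, hH E' hE']⟩
  · rintro ⟨S, h1, h2⟩
    refine hS ⟨_, ?_, star_image (Function.invFun φ) l S hl h2 ?_⟩
    · intro E hE
      obtain ⟨E1, hE1, rfl⟩ := mem_image.1 hE
      obtain ⟨E', hE', rfl⟩ := mem_image.1 (h1 hE1)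
      rw [image_image]
      have : Function.invFun φ ∘ φ = id := funext hg
      rw [this, image_id]
      exact hE'
    · have : ∀ w ∈ S.sup id, ∃ x, φ x = w := by
        intro w hw
        obtain ⟨E, hE, hw⟩ := mem_sup_id.1 hw
        obtain ⟨E', -, rfl⟩ := mem_image.1 (h1 hE)
        obtain ⟨x, -, rfl⟩ := mem_image.1 hw
        exact ⟨x, rfl⟩
      intro a ha b hb hab
      obtain ⟨x, rfl⟩ := this a ha
      obtain ⟨y, rfl⟩ := this b hb
      rw [hg, hg] at hab
      rw [hab]

theorem image_range_succ (v : V) (l : ℕ → V) (j : ℕ) :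
    (range (j + 1)).image (fun t => Nat.casesOn (motive := fun _ => V) t v l) =
      insert v ((range j).image l) := by
  ext x
  simp only [mem_image, mem_range, mem_insert]
  constructor
  · rintro ⟨t, ht, rfl⟩
    rcases t with _ | t
    · exact Or.inl rfl
    · exact Or.inr ⟨t, by omega, rfl⟩
  · rintro (rfl | ⟨t, ht, rfl⟩)
    · exact ⟨0, by omega, rfl⟩
    · exact ⟨t + 1, by omega, rfl⟩

theorem path {d : ℕ → ℕ} (hd : ∀ t, 1 ≤ d t) (U : Finset V → ℕ → ℕ → Finset V) {ε : ℝ}
    (hε : 0 ≤ ε) (hU : ∀ P j i, ((U P j i).card : ℝ) ≤ ε * win d j i) (k : ℕ) :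
    ∀ (a : ℕ) (S : Finset (Finset V)) (P : Finset V) (B : ℕ → Finset V),
    IsStar (degs k fun t => d (a + t)) S →
    ∑ t ∈ range (k + 1), ((B t ∩ S.sup id).card : ℝ) / win d (a + 1) (a + t) + k * k * ε < 1 →
    ∃ l : ℕ → V, (range (k + 1)).image l ∈ S ∧ Set.InjOn l (range (k + 1) : Finset ℕ) ∧
      (∀ t, t ≤ k → l t ∉ B t) ∧
      (∀ j t, 1 ≤ j → j ≤ t → t ≤ k → l t ∉ U (P ∪ (range j).image l) (a + j) (a + t)) ∧
      ∀ p, 1 ≤ p → p ≤ k → 2 ≤ d (a + p) →
        ∃ E ∈ S, (∀ t, t < p → l t ∈ E) ∧ ∀ t, p ≤ t → t ≤ k → l t ∉ E := by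
  induction k with
  | zero =>
    intro a S P B ⟨v, hv⟩ h
    refine ⟨fun _ => v, by simp [hv], by simp, ?_, by omega, by omega⟩
    intro t ht hvB
    obtain rfl : t = 0 := by omega
    have : B 0 ∩ S.sup id = {v} := by
      rw [hv]
      simpa using hvB
    simp [this, win] at h
  | succ k ih =>
    intro a S P B hS h
    rw [degs_succ] at hS
    obtain ⟨v, T, h1, h2, h3, h4⟩ := hS
    have e : (fun t => d (a + (t + 1))) = fun t => d (a + 1 + t) := by
      funext t
      congr 1
      omega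
    rw [e] at h1
    have hpos := degs_pos (d := fun t => d (a + 1 + t)) (fun t => hd _) k
    have memS : ∀ i E, E ∈ T i → insert v E ∈ S := fun i E hE =>
      h4 ▸ mem_biUnion.2 ⟨i, mem_univ _, mem_image_of_mem _ hE⟩
    have sub : ∀ i, (T i).sup id ⊆ S.sup id := by
      intro i x hx
      obtain ⟨E, hE, hx⟩ := mem_sup_id.1 hx
      exact mem_sup_id.2 ⟨insert v E, memS i E hE, mem_insert_of_mem hx⟩
    have hk : 0 < d (a + 1) := hd _
    have hv : v ∈ S.sup id := by
      obtain ⟨E, hE⟩ := star_nonempty _ (T ⟨0, hk⟩) hpos (h1 _)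
      exact mem_sup_id.2 ⟨insert v E, memS _ E hE, mem_insert_self _ _⟩
    rw [sum_range_succ'] at h
    have wpos : ∀ j i, (0 : ℝ) < win d j i := fun j i => by exact_mod_cast win_pos hd j i
    have snn : 0 ≤ ∑ t ∈ range (k + 1),
        ((B (t + 1) ∩ S.sup id).card : ℝ) / win d (a + 1) (a + (t + 1)) :=
      sum_nonneg fun t _ => by have := wpos (a + 1) (a + (t + 1)); positivity
    have kε : 0 ≤ ((k + 1 : ℕ) : ℝ) * ((k + 1 : ℕ) : ℝ) * ε := by positivity
    have vB : v ∉ B 0 := by
      intro hvB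
      have : (1 : ℝ) ≤ (B 0 ∩ S.sup id).card := by
        exact_mod_cast card_pos.2 ⟨v, mem_inter.2 ⟨hvB, hv⟩⟩
      have e0 : win d (a + 1) (a + 0) = 1 := by simp [win]
      rw [e0] at h
      simp only [Nat.cast_one, div_one] at h
      linarith
    let B' : ℕ → Finset V := fun t => B (t + 1) ∪ U (insert v P) (a + 1) (a + (t + 1))
    have hex : ∃ c : Fin (d (a + 1)), ∑ t ∈ range (k + 1),
        ((B' t ∩ (T c).sup id).card : ℝ) / win d (a + 1 + 1) (a + 1 + t) + k * k * ε < 1 := by
      by_contra hc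
      push Not at hc
      have s1 := sum_le_sum fun c (_ : c ∈ (univ : Finset (Fin (d (a + 1))))) => hc c
      rw [sum_add_distrib, sum_comm] at s1
      simp only [sum_const, card_univ, Fintype.card_fin, nsmul_eq_mul, mul_one] at s1
      have s2 : ∀ t ∈ range (k + 1), ∑ c : Fin (d (a + 1)),
          ((B' t ∩ (T c).sup id).card : ℝ) / win d (a + 1 + 1) (a + 1 + t) ≤
          d (a + 1) * (((B (t + 1) ∩ S.sup id).card : ℝ) / win d (a + 1) (a + (t + 1)) + ε) := by
        intro t _
        have c1 : ∑ c : Fin (d (a + 1)), (B' t ∩ (T c).sup id).card ≤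
            (B (t + 1) ∩ S.sup id).card + (U (insert v P) (a + 1) (a + (t + 1))).card := by
          rw [← card_biUnion]
          · refine le_trans (card_le_card ?_) (card_union_le _ _)
            intro x hx
            obtain ⟨c, -, hx⟩ := mem_biUnion.1 hx
            obtain ⟨x1, x2⟩ := mem_inter.1 hx
            rcases mem_union.1 x1 with x1 | x1
            · exact mem_union_left _ (mem_inter.2 ⟨x1, sub c x2⟩)
            · exact mem_union_right _ x1
          · intro c _ c' _ hcc
            exact (h3 c c' hcc).mono inter_subset_right inter_subset_right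
        have c2 : ((∑ c : Fin (d (a + 1)), (B' t ∩ (T c).sup id).card : ℕ) : ℝ) ≤
            (B (t + 1) ∩ S.sup id).card + ε * win d (a + 1) (a + (t + 1)) := by
          have := hU (insert v P) (a + 1) (a + (t + 1))
          have c1' : ((∑ c : Fin (d (a + 1)), (B' t ∩ (T c).sup id).card : ℕ) : ℝ) ≤
            (B (t + 1) ∩ S.sup id).card + (U (insert v P) (a + 1) (a + (t + 1))).card := by
            exact_mod_cast c1
          linarith
        have w : (win d (a + 1) (a + (t + 1)) : ℝ) = d (a + 1) * win d (a + 1 + 1) (a + 1 + t) := by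
          rw [win_split d (j := a + 1) (i := a + 1) (k := a + (t + 1)) (by omega) (by omega),
            show a + (t + 1) = a + 1 + t by omega]
          simp [win]
        have p1 := wpos (a + 1 + 1) (a + 1 + t)
        have p2 : (0 : ℝ) < d (a + 1) := by exact_mod_cast hk
        rw [← sum_div, div_le_iff₀ p1]
        push_cast at c2
        refine c2.trans (le_of_eq ?_)
        rw [w]
        field_simp
      have s3 := sum_le_sum s2
      rw [← mul_sum, sum_add_distrib] at s3
      simp only [sum_const, card_range, nsmul_eq_mul] at s3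
      have p2 : (0 : ℝ) < d (a + 1) := by exact_mod_cast hk
      have z0 : (0 : ℝ) ≤ ((B 0 ∩ S.sup id).card : ℝ) / win d (a + 1) (a + 0) := by
        have := wpos (a + 1) (a + 0); positivity
      have k0 : (0 : ℝ) ≤ k * ε := by positivity
      push_cast at h s3
      have : (d (a + 1) : ℝ) * 1 ≤ d (a + 1) * (∑ t ∈ range (k + 1),
          ((B (t + 1) ∩ S.sup id).card : ℝ) / win d (a + 1) (a + (t + 1)) + (k + 1) * ε +
          k * k * ε) := by linarith
      have := le_of_mul_le_mul_left this p2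
      linarith
    obtain ⟨c, hc⟩ := hex
    obtain ⟨l, l1, l2, l3, l4, l5⟩ := ih (a + 1) (T c) (insert v P) B' (h1 c) hc
    have lT : ∀ t, t ≤ k → l t ∈ (T c).sup id := fun t ht =>
      mem_sup_id.2 ⟨_, l1, mem_image_of_mem _ (mem_range.2 (by omega))⟩
    refine ⟨fun t => Nat.casesOn (motive := fun _ => V) t v l, ?_, ?_, ?_, ?_, ?_⟩
    · rw [image_range_succ]
      exact memS c _ l1
    · rw [← card_image_iff, image_range_succ, card_insert_of_notMem, card_image_of_injOn l2]
      · simp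
      · intro hh
        exact h2 c (mem_sup_id.2 ⟨_, l1, hh⟩)
    · intro t ht
      rcases t with _ | t
      · exact vB
      · exact fun hh => l3 t (by omega) (mem_union_left _ hh)
    · intro j t hj hjt ht
      obtain ⟨j, rfl⟩ : ∃ j', j = j' + 1 := ⟨j - 1, by omega⟩
      obtain ⟨t, rfl⟩ : ∃ t', t = t' + 1 := ⟨t - 1, by omega⟩
      rw [image_range_succ, union_insert, ← insert_union]
      rcases j with _ | j
      · intro hh
        refine l3 t (by omega) (mem_union_right _ ?_)
        simpa using hh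
      · have := l4 (j + 1) t (by omega) (by omega) (by omega)
        rwa [show a + 1 + (j + 1) = a + (j + 1 + 1) by omega,
          show a + 1 + t = a + (t + 1) by omega] at this
    · intro p hp hpk hd2
      have nv : ∀ t, t ≤ k → l t ≠ v := fun t ht hh => h2 c (hh ▸ lT t ht)
      rcases Nat.eq_or_lt_of_le hp with rfl | hp1
      · obtain ⟨c', hc'⟩ : ∃ c' : Fin (d (a + 1)), c' ≠ c := by
          have : Nontrivial (Fin (d (a + 1))) := Fin.nontrivial_iff_two_le.2 hd2
          exact exists_ne c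
        obtain ⟨E, hE⟩ := star_nonempty _ (T c') hpos (h1 _)
        refine ⟨insert v E, memS _ _ hE, fun t ht => ?_, fun t ht htk => ?_⟩
        · obtain rfl : t = 0 := by omega
          exact mem_insert_self _ _
        · obtain ⟨t, rfl⟩ : ∃ t', t = t' + 1 := ⟨t - 1, by omega⟩
          intro hh
          rcases mem_insert.1 hh with hh | hh
          · exact nv t (by omega) hh
          · exact disjoint_left.1 (h3 c' c hc') (mem_sup_id.2 ⟨E, hE, hh⟩) (lT t (by omega))
      · obtain ⟨p, rfl⟩ : ∃ p', p = p' + 1 := ⟨p - 1, by omega⟩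
        obtain ⟨E, hE, e1, e2⟩ := l5 p (by omega) (by omega)
          (by rwa [show a + 1 + p = a + (p + 1) by omega])
        refine ⟨insert v E, memS _ _ hE, fun t ht => ?_, fun t ht htk => ?_⟩
        · rcases t with _ | t
          · exact mem_insert_self _ _
          · exact mem_insert_of_mem (e1 t (by omega))
        · obtain ⟨t, rfl⟩ : ∃ t', t = t' + 1 := ⟨t - 1, by omega⟩
          intro hh
          rcases mem_insert.1 hh with hh | hh
          · exact nv t (by omega) hh
          · exact e2 t (by omega) (by omega) hh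

variable {κ : Type} [DecidableEq κ] [Fintype κ]

theorem star_free {m : ℕ} (hκ : Fintype.card κ = m + 1) {d : ℕ → ℕ} (hd : ∀ t, 1 ≤ d t)
    (c : V → κ) (G : Finset (κ → V)) (hG : ∀ e ∈ G, ∀ x, c (e x) = x)
    (hB : ∀ f : ℕ → κ, Set.InjOn f (range (m + 1) : Finset ℕ) → ∃ j i, 1 ≤ j ∧ j ≤ i ∧ i ≤ m ∧
      2 ≤ win d j i ∧ (cost G ((range j).image f) (f i) ≤ 1 ∨
        cost G ((range j).image f) (f i) * (m + 1) ^ 3 < win d j i)) :
    ¬ ∃ S, S ⊆ G.image (fun e => univ.image e) ∧ IsStar (degs m d) S := by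
  classical
  rintro ⟨S, h1, h2⟩
  let Ext : Finset V → κ → Finset V := fun P x =>
    (G.filter fun e => P ⊆ univ.image e).image fun e => e x
  let U : Finset V → ℕ → ℕ → Finset V := fun P j i =>
    (univ.filter fun x => (Ext P x).card * (m + 1) ^ 3 < win d j i).biUnion (Ext P)
  have m1 : (0 : ℝ) < (m + 1 : ℝ) := by positivity
  have hU : ∀ P j i, ((U P j i).card : ℝ) ≤ (1 / (m + 1) ^ 2) * win d j i := by
    intro P j i
    have a : (U P j i).card * (m + 1) ^ 3 ≤ (m + 1) * win d j i := by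
      refine (Nat.mul_le_mul_right _ card_biUnion_le).trans ?_
      rw [sum_mul]
      refine (sum_le_sum fun x hx => (mem_filter.1 hx).2.le).trans ?_
      rw [sum_const, smul_eq_mul]
      exact Nat.mul_le_mul_right _ ((card_le_univ _).trans hκ.le)
    have b : ((U P j i).card : ℝ) * (m + 1) ^ 3 ≤ (m + 1) * win d j i := by exact_mod_cast a
    rw [one_div, inv_mul_eq_div, le_div_iff₀ (by positivity)]
    have : ((U P j i).card : ℝ) * (m + 1) ^ 2 * (m + 1) ≤ win d j i * (m + 1) := by linarith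
    exact le_of_mul_le_mul_right this m1
  obtain ⟨l, l1, l2, -, l4, l5⟩ := path hd U (by positivity) hU m 0 S ∅ (fun _ => ∅)
    (by simpa using h2) (by
      simp only [empty_inter, card_empty, Nat.cast_zero, zero_div, sum_const_zero, zero_add]
      rw [mul_one_div, div_lt_one (by positivity)]
      nlinarith)
  obtain ⟨e, he, e1⟩ := mem_image.1 (h1 l1)
  have val : ∀ e' ∈ G, ∀ v ∈ univ.image e', e' (c v) = v := by
    intro e' he' v hv
    obtain ⟨x, -, rfl⟩ := mem_image.1 hv
    rw [hG e' he']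
  have le : ∀ t, t ≤ m → e (c (l t)) = l t := fun t ht =>
    val e he _ (e1 ▸ mem_image_of_mem _ (mem_range.2 (by omega)))
  obtain ⟨j, i, a1, a2, a3, a4, a5⟩ := hB (fun t => c (l t)) (by
    intro s hs t ht hst
    refine l2 hs ht ?_
    have hs' : s < m + 1 := by simpa using hs
    have ht' : t < m + 1 := by simpa using ht
    rw [← le s (by omega), ← le t (by omega)]
    exact congrArg e hst)
  have sub : Ext ((range j).image l) (c (l i)) ⊆
      fib G ((range j).image fun t => c (l t)) (c (l i)) e := by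
    intro v hv
    obtain ⟨e', he', rfl⟩ := mem_image.1 hv
    obtain ⟨b1, b2⟩ := mem_filter.1 he'
    refine mem_fib.2 ⟨e', b1, fun y hy => ?_, rfl⟩
    obtain ⟨t, ht, rfl⟩ := mem_image.1 hy
    rw [le t (by have := mem_range.1 ht; omega)]
    exact val e' b1 _ (b2 (mem_image_of_mem _ ht))
  have cle := (card_le_card sub).trans (le_cost _ _ he)
  have memE : l i ∈ Ext ((range j).image l) (c (l i)) := by
    refine mem_image.2 ⟨e, mem_filter.2 ⟨he, ?_⟩, le i a3⟩
    rw [e1]
    exact image_subset_image (range_subset_range.2 (by omega))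
  rcases a5 with a5 | a5
  · obtain ⟨p, hp, hp2⟩ : ∃ p ∈ Icc j i, 2 ≤ d p := by
      by_contra hc
      push Not at hc
      have : win d j i = 1 := prod_eq_one fun t ht => by have := hc t ht; have := hd t; omega
      omega
    obtain ⟨p1, p2⟩ := mem_Icc.1 hp
    obtain ⟨E, hE, b1, b2⟩ := l5 p (by omega) (by omega) (by simpa using hp2)
    obtain ⟨e', he', rfl⟩ := mem_image.1 (h1 hE)
    have : e' (c (l i)) ∈ Ext ((range j).image l) (c (l i)) := by
      refine mem_image.2 ⟨e', mem_filter.2 ⟨he', fun v hv => ?_⟩, rfl⟩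
      obtain ⟨t, ht, rfl⟩ := mem_image.1 hv
      exact b1 t (by have := mem_range.1 ht; omega)
    have := card_le_one.1 (cle.trans a5) _ this _ memE
    exact b2 i p2 a3 (this ▸ mem_image_of_mem _ (mem_univ _))
  · refine l4 j i a1 a2 a3 ?_
    simp only [empty_union, zero_add]
    exact mem_biUnion.2 ⟨c (l i), mem_filter.2 ⟨mem_univ _,
      lt_of_le_of_lt (Nat.mul_le_mul_right _ cle) a5⟩, memE⟩

theorem lower_reduction [Fintype V] {m n : ℕ} (hn : Fintype.card V ≤ n)
    (hκ : Fintype.card κ = m + 1) {d : ℕ → ℕ} (hd : ∀ t, 1 ≤ d t)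
    (c : V → κ) (G : Finset (κ → V)) (hG : ∀ e ∈ G, ∀ x, c (e x) = x)
    (hB : ∀ f : ℕ → κ, Set.InjOn f (range (m + 1) : Finset ℕ) → ∃ j i, 1 ≤ j ∧ j ≤ i ∧ i ≤ m ∧
      2 ≤ win d j i ∧ (cost G ((range j).image f) (f i) ≤ 1 ∨
        cost G ((range j).image f) (f i) * (m + 1) ^ 3 < win d j i)) :
    G.card ≤ exStar n (degs m d) := by
  have val : ∀ e' ∈ G, ∀ v ∈ univ.image e', e' (c v) = v := by
    intro e' he' v hv
    obtain ⟨x, -, rfl⟩ := mem_image.1 hv
    rw [hG e' he']
  rw [← card_image_of_injOn (f := fun e => univ.image e) (s := G)]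
  · refine le_exStar hn (degs_pos hd m) _ (fun E hE => ?_) (star_free hκ hd c G hG hB)
    obtain ⟨e, he, rfl⟩ := mem_image.1 hE
    rw [card_image_of_injective, card_univ, hκ, degs_length]
    intro x y hxy
    rw [← hG e he x, hxy, hG e he y]
  · intro e he e' he' h
    funext x
    have h' : univ.image e = univ.image e' := h
    have := val e' he' (e x) (h' ▸ mem_image_of_mem _ (mem_univ x))
    rw [hG e he] at this
    exact this.symm

end Pool.Agent.P.MP_754fe6_co
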