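import Mathlib
import Pool.Agent.P.MP_754fe6_co.Lower

namespace Pool.Agent.P.MP_754fe6_co

open Finset

theorem aux_max {a K : ℕ} (hK : 1 ≤ K) :
    a ≤ 2 * K * max 1 ((a - 1) / K) ∧ (max 1 ((a - 1) / K) ≤ 1 ∨ max 1 ((a - 1) / K) * K < a) := by
  have h1 := Nat.div_mul_le_self (a - 1) K
  have h2 := Nat.lt_div_mul_add (a := a - 1) hK
  rcases le_total ((a - 1) / K) 1 with h | h
  · rw [max_eq_left h]
    have := Nat.mul_le_mul_right K h
    omega
  · rw [max_eq_right h]
    have := Nat.mul_le_mul_right K h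
    constructor
    · have e : 2 * K * ((a - 1) / K) = 2 * ((a - 1) / K * K) := by ring
      omega
    · right
      omega

theorem poly_bound {ρ l q r : ℕ} (h1 : ρ ≤ r) (h2 : l ≤ r) (y : Fin ρ → Fin q) (x : Fin l) :
    ∑ k, (y k : ℕ) * (x : ℕ) ^ (k : ℕ) < (q - 1) * (r * r ^ r) + 1 := by
  have r1 : 1 ≤ r := by have := x.2; omega
  have : ∀ k ∈ (univ : Finset (Fin ρ)), (y k : ℕ) * (x : ℕ) ^ (k : ℕ) ≤ (q - 1) * r ^ r := by
    intro k _
    refine Nat.mul_le_mul (by have := (y k).2; omega) ?_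
    exact (Nat.pow_le_pow_left (by have := x.2; omega) _).trans
      (Nat.pow_le_pow_right r1 (by have := k.2; omega))
  have := sum_le_sum this
  simp only [sum_const, card_univ, Fintype.card_fin, smul_eq_mul] at this
  have e : ρ * ((q - 1) * r ^ r) ≤ (q - 1) * (r * r ^ r) := by
    rw [mul_left_comm]
    exact Nat.mul_le_mul_left _ (Nat.mul_le_mul_right _ h1)
  omega

theorem poly_det {ρ l q : ℕ} (y y' : Fin ρ → Fin q) (A : Finset (Fin l)) (hA : ρ ≤ A.card)
    (h : ∀ x ∈ A, ∑ k, (y k : ℕ) * (x : ℕ) ^ (k : ℕ) = ∑ k, (y' k : ℕ) * (x : ℕ) ^ (k : ℕ)) :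
    y = y' := by
  let g := A.orderEmbOfCardLe hA
  have := Matrix.eq_zero_of_forall_index_sum_mul_pow_eq_zero (R := ℤ)
    (f := fun i => ((g i : ℕ) : ℤ)) (v := fun k => ((y k : ℕ) : ℤ) - ((y' k : ℕ) : ℤ))
    (fun a b hab => g.injective (Fin.ext (by simpa using hab))) (fun j => by
      have := h (g j) (A.orderEmbOfCardLe_mem hA j)
      have e : ((∑ k, (y k : ℕ) * (g j : ℕ) ^ (k : ℕ) : ℕ) : ℤ) =
        ((∑ k, (y' k : ℕ) * (g j : ℕ) ^ (k : ℕ) : ℕ) : ℤ) := by rw [this]
      push_cast at e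
      simp only [sub_mul, sum_sub_distrib, e, sub_self])
  funext k
  have := congrFun this k
  simp only [Pi.zero_apply, sub_eq_zero, Nat.cast_inj] at this
  exact Fin.ext this

/-- the constant of the lower bounds -/
def CL (r : ℕ) : ℕ := (2 * r ^ 3 * (r * r ^ r)) ^ r

theorem lower_fam {m n : ℕ} {d : ℕ → ℕ} (hd : ∀ t, 1 ≤ d t) (hn : win d 1 m ≤ n) (hmn : m + 1 ≤ n)
    {ρ z w I t0 : ℕ} (hρ : 1 ≤ ρ) (hz : 1 ≤ z) (hw : ρ + z + w = m + 1) (hI : ρ + z ≤ I)
    (hI2 : I ≤ m + 1) (ht0 : 2 ≤ t0) (ht : ∀ j, ρ ≤ j → j + z ≤ I → t0 ≤ win d j (j + z - 1)) :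
    n ^ w * topWin (m + 1) n d I ^ ρ * t0 ^ z ≤ CL (m + 1) * exStar n (degs m d) := by
  set T0 := topWin (m + 1) n d I with hT0
  have T0n : T0 ≤ n := by
    rw [hT0, topWin]
    split_ifs
    · exact le_rfl
    · exact (win_mono hd le_rfl (by omega)).trans hn
  have tT : t0 ≤ T0 := by
    refine (ht ρ le_rfl hI).trans ?_
    rw [hT0, topWin]
    split_ifs
    · exact (win_mono hd hρ (by omega)).trans hn
    · exact win_mono hd hρ (by omega)
  set K := (m + 1) ^ 3 with hK
  set c0 := (m + 1) * (m + 1) ^ (m + 1) with hc0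
  have K1 : m + 1 ≤ K := Nat.le_self_pow (by omega) _
  have c1 : 1 ≤ c0 := Nat.succ_le_of_lt (by rw [hc0]; positivity)
  obtain ⟨t, t1, a1, a2⟩ : ∃ t, 1 ≤ t ∧ t0 ≤ 2 * K * t ∧ (t ≤ 1 ∨ t * K < t0) :=
    ⟨_, le_max_left _ _, aux_max (by omega)⟩
  obtain ⟨q, q1, b1, b2⟩ : ∃ q, 1 ≤ q ∧ T0 ≤ 2 * (K * t * c0) * q ∧
      (q ≤ 1 ∨ q * (K * t * c0) < T0) :=
    ⟨_, le_max_left _ _, aux_max (Nat.mul_pos (Nat.mul_pos (by omega) t1) c1)⟩
  set Q := (q - 1) * c0 + 1 with hQ
  have b3 : t * Q ≤ 1 ∨ t * Q * K < T0 := by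
    rcases b2 with b2 | b2
    · have : Q = 1 := by rw [hQ, show q - 1 = 0 by omega]; simp
      rw [this, mul_one]
      omega
    · right
      refine lt_of_le_of_lt ?_ b2
      have : Q ≤ q * c0 := by
        obtain ⟨q, rfl⟩ : ∃ q', q = q' + 1 := ⟨q - 1, by omega⟩
        rw [hQ, add_mul]
        simp only [add_tsub_cancel_right]
        omega
      calc t * Q * K ≤ t * (q * c0) * K := by gcongr
        _ = _ := by ring
  set n' := n / (m + 1) with hn'
  have n1 : 1 ≤ n' := (Nat.le_div_iff_mul_le (by omega)).2 (by omega)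
  have b4 : t * Q ≤ n' := by
    rcases b3 with b3 | b3
    · omega
    · refine (Nat.le_div_iff_mul_le (by omega)).2 ?_
      have := Nat.mul_le_mul_left (t * Q) K1
      omega
  let val : (Fin ρ → Fin q) → Fin (ρ + z) → Fin Q := fun y x =>
    ⟨∑ k, (y k : ℕ) * (x : ℕ) ^ (k : ℕ), poly_bound (r := m + 1) (by omega) (by omega) y x⟩
  let E : (Fin (ρ + z) → Fin t) × (Fin ρ → Fin q) × (Fin w → Fin n') → Fin (ρ + z) ⊕ Fin w →
      (Fin (ρ + z) × Fin t × Fin Q) ⊕ (Fin w × Fin n') := fun p =>
    Sum.elim (fun x => Sum.inl (x, p.1 x, val p.2.1 x)) fun x => Sum.inr (x, p.2.2 x)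
  have Einj : Function.Injective E := by
    rintro ⟨α, y, γ⟩ ⟨α', y', γ'⟩ h
    have h1 : ∀ x, α x = α' x ∧ val y x = val y' x := fun x => by
      simpa [E] using congrFun h (Sum.inl x)
    have h2 : ∀ x, γ x = γ' x := fun x => by simpa [E] using congrFun h (Sum.inr x)
    have h3 : y = y' := poly_det y y' (univ : Finset (Fin (ρ + z))) (by simp)
      fun x _ => congrArg Fin.val (h1 x).2
    rw [funext fun x => (h1 x).1, h3, funext h2]
  have cost1 : ∀ S x, cost (univ.image E) S (Sum.inl x) ≤ t * Q := by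
    intro S x
    refine cost_le_of fun e _ => le_trans (card_le_card (t := univ.image
      fun a : Fin t × Fin Q => Sum.inl (x, a)) ?_) (card_image_le.trans (by simp))
    intro v hv
    obtain ⟨e', he', -, rfl⟩ := mem_fib.1 hv
    obtain ⟨p, -, rfl⟩ := mem_image.1 he'
    exact mem_image.2 ⟨_, mem_univ _, rfl⟩
  have cost2 : ∀ (S : Finset (Fin (ρ + z) ⊕ Fin w)) x,
      ρ ≤ (univ.filter fun a => Sum.inl a ∈ S).card → cost (univ.image E) S (Sum.inl x) ≤ t := by
    intro S x hS
    refine cost_le_of fun e he => ?_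
    obtain ⟨p, -, rfl⟩ := mem_image.1 he
    refine le_trans (card_le_card (t := univ.image
      fun a : Fin t => Sum.inl (x, a, val p.2.1 x)) ?_) (card_image_le.trans (by simp))
    intro v hv
    obtain ⟨e', he', h, rfl⟩ := mem_fib.1 hv
    obtain ⟨p', -, rfl⟩ := mem_image.1 he'
    have : p'.2.1 = p.2.1 := poly_det _ _ _ hS fun a ha => by
      have := h _ (mem_filter.1 ha).2
      simp only [E, Sum.elim_inl, Sum.inl.injEq, Prod.mk.injEq, true_and] at this
      exact congrArg Fin.val this.2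
    exact mem_image.2 ⟨p'.1 x, mem_univ _, by simp [E, this]⟩
  have main := lower_reduction (V := (Fin (ρ + z) × Fin t × Fin Q) ⊕ (Fin w × Fin n'))
    (κ := Fin (ρ + z) ⊕ Fin w) (m := m) (n := n) (d := d) (by
      simp only [Fintype.card_sum, Fintype.card_prod, Fintype.card_fin]
      have := Nat.mul_le_mul_left (ρ + z) b4
      have e : (ρ + z) * n' + w * n' = (m + 1) * n' := by rw [← hw]; ring
      have := Nat.mul_div_le n (m + 1)
      rw [← hn'] at this
      omega) (by simpa using hw) hd (Sum.map Prod.fst Prod.fst) (univ.image E) (by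
      intro e he x
      obtain ⟨p, -, rfl⟩ := mem_image.1 he
      rcases x with x | x <;> rfl) (by
      intro f hf
      have surj : (range (m + 1)).image f = univ := by
        apply eq_univ_of_card
        rw [card_image_of_injOn hf]
        simpa using hw.symm
      have : ∀ x : Fin (ρ + z), ∃ p, p ≤ m ∧ f p = Sum.inl x := fun x => by
        obtain ⟨p, hp, e⟩ := mem_image.1 (surj ▸ mem_univ (Sum.inl x : Fin (ρ + z) ⊕ Fin w))
        exact ⟨p, by have := mem_range.1 hp; omega, e⟩
      choose pos p1 p2 using this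
      have pinj : Function.Injective pos := fun a b hab => by
        have := p2 a
        rw [hab, p2 b] at this
        exact (Sum.inl_injective this).symm
      obtain ⟨x0, -, hx0⟩ := exists_max_image univ pos ⟨⟨0, by omega⟩, mem_univ _⟩
      have len : ρ + z ≤ pos x0 + 1 := by
        have := card_le_card_of_injOn (s := univ) (t := range (pos x0 + 1)) pos
          (fun a _ => by have := hx0 a (mem_univ _); simp; omega) pinj.injOn
        simpa using this
      by_cases hl : I ≤ pos x0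
      · have T1 : T0 ≤ win d 1 (pos x0) := by
          rw [hT0, topWin, if_neg (by have := p1 x0; omega)]
          exact win_mono hd le_rfl hl
        refine ⟨1, pos x0, le_rfl, by omega, p1 x0, by omega, ?_⟩
        rw [p2]
        have := cost1 ((range 1).image f) x0
        have := Nat.mul_le_mul_right K this
        rw [← hK]
        omega
      · have w1 := ht (pos x0 + 1 - z) (by omega) (by omega)
        rw [show pos x0 + 1 - z + z - 1 = pos x0 by omega] at w1
        refine ⟨pos x0 + 1 - z, pos x0, by omega, by omega, p1 x0, by omega, ?_⟩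
        rw [p2]
        have := cost2 ((range (pos x0 + 1 - z)).image f) x0 (by
          have a := card_filter_add_card_filter_not (s := (univ : Finset (Fin (ρ + z))))
            fun a => (Sum.inl a : Fin (ρ + z) ⊕ Fin w) ∈ (range (pos x0 + 1 - z)).image f
          have b := card_le_card_of_injOn (s := univ.filter fun a =>
              ¬ (Sum.inl a : Fin (ρ + z) ⊕ Fin w) ∈ (range (pos x0 + 1 - z)).image f)
            (t := Ico (pos x0 + 1 - z) (pos x0 + 1)) pos (fun a ha => by
              have h1 := (mem_filter.1 (mem_coe.1 ha)).2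
              have h2 := hx0 a (mem_univ _)
              have h3 : ¬ pos a < pos x0 + 1 - z := fun hh =>
                h1 (mem_image.2 ⟨pos a, mem_range.2 hh, p2 a⟩)
              simp only [coe_Ico, Set.mem_Ico]
              omega) pinj.injOn
          simp only [card_univ, Fintype.card_fin, Nat.card_Ico] at a b
          omega)
        have := Nat.mul_le_mul_right K this
        rw [← hK]
        omega)
  rw [card_image_of_injective _ Einj] at main
  simp only [card_univ, Fintype.card_prod, Fintype.card_pi, Fintype.card_fin, prod_const] at main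
  refine le_trans ?_ (Nat.mul_le_mul_left _ main)
  have e1 : n ≤ 2 * K * c0 * n' := by
    have := Nat.lt_div_mul_add (a := n) (b := m + 1) (by omega)
    rw [← hn'] at this
    have h1 : (m + 1) * n' ≤ K * c0 * n' := Nat.mul_le_mul_right _ (by nlinarith)
    have h2 : m + 1 ≤ (m + 1) * n' := Nat.le_mul_of_pos_right _ n1
    nlinarith
  have e2 : T0 ≤ 2 * K * c0 * (t * q) := b1.trans (le_of_eq (by ring))
  have e3 : t0 ≤ 2 * K * c0 * t := a1.trans (Nat.mul_le_mul_right _ (by nlinarith))
  calc n ^ w * T0 ^ ρ * t0 ^ z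
      ≤ (2 * K * c0 * n') ^ w * (2 * K * c0 * (t * q)) ^ ρ * (2 * K * c0 * t) ^ z := by gcongr
    _ = _ := by
      rw [CL, ← hK, ← hc0]
      generalize 2 * K * c0 = M
      rw [← hw]
      ring

end Pool.Agent.P.MP_754fe6_co
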