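import Mathlib
import Pool.Agent.P.MP_754fe6_co.Constr

namespace Pool.Agent.P.MP_754fe6_co

open Finset

theorem star_card {V : Type} [DecidableEq V] : ∀ (l : List ℕ) (S : Finset (Finset V)),
    IsStar l S → l.prod ≤ (S.sup id).card
  | [], S, ⟨v, hv⟩ => by simp [hv]
  | k :: l, S, ⟨v, T, h1, h2, h3, h4⟩ => by
    have sub : (univ.biUnion fun i => (T i).sup id) ⊆ S.sup id := by
      intro x hx
      obtain ⟨i, -, hx⟩ := mem_biUnion.1 hx
      obtain ⟨E, hE, hx⟩ := mem_sup_id.1 hx
      exact mem_sup_id.2 ⟨insert v E, h4 ▸ mem_biUnion.2 ⟨i, mem_univ _, mem_image_of_mem _ hE⟩,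
        mem_insert_of_mem hx⟩
    refine le_trans ?_ (card_le_card sub)
    rw [card_biUnion fun i _ j _ hij => h3 i j hij, List.prod_cons]
    have := sum_le_sum (s := (univ : Finset (Fin k))) fun i _ => star_card l (T i) (h1 i)
    simpa using this

theorem degs_prod (m : ℕ) (d : ℕ → ℕ) : (degs m d).prod = win d 1 m := by
  induction m with
  | zero => simp [degs, win]
  | succ m ih =>
    rw [win, prod_Icc_succ_top (by omega), ← win, ← ih, degs, degs, List.ofFn_succ', List.prod_concat]
    simp

theorem exStar_le_pow (n : ℕ) (l : List ℕ) : exStar n l ≤ n ^ (l.length + 1) := by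
  classical
  refine Finset.sup_le fun H hH => ?_
  refine (card_le_card (mem_powerset.1 (mem_filter.1 hH).1)).trans ?_
  rw [card_powersetCard, card_univ, Fintype.card_fin]
  exact Nat.choose_le_pow _ _

theorem pow_le_exStar {n : ℕ} {l : List ℕ} (hl : ∀ t ∈ l, 1 ≤ t) (h : n < l.prod)
    (hn : l.length + 1 ≤ n) :
    n ^ (l.length + 1) ≤ (l.length + 1) ^ (l.length + 1) * (l.length + 1).factorial * exStar n l := by
  have a := le_exStar (V := Fin n) (n := n) (by simp) hl (powersetCard (l.length + 1) univ)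
    (fun E hE => (mem_powersetCard.1 hE).2) (by
      rintro ⟨S, -, h2⟩
      have := (star_card l S h2).trans (card_le_univ _)
      rw [Fintype.card_fin] at this
      omega)
  rw [card_powersetCard, card_univ, Fintype.card_fin] at a
  generalize l.length + 1 = r at *
  have b := Nat.pow_sub_le_descFactorial n r
  rw [Nat.descFactorial_eq_factorial_mul_choose] at b
  rcases Nat.eq_zero_or_pos r with rfl | hr
  · simpa using a
  have c : n ≤ r * (n + 1 - r) := by
    obtain ⟨k, rfl⟩ := Nat.exists_eq_add_of_le hn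
    rw [show r + k + 1 - r = k + 1 by omega]
    nlinarith
  calc n ^ r ≤ (r * (n + 1 - r)) ^ r := Nat.pow_le_pow_left c _
    _ = r ^ r * (n + 1 - r) ^ r := mul_pow _ _ _
    _ ≤ r ^ r * (r.factorial * exStar n l) :=
      Nat.mul_le_mul_left _ (b.trans (Nat.mul_le_mul_left _ a))
    _ = _ := by ring

/-- the constant for both bounds -/
def CC (r : ℕ) : ℕ := CU r + CL r + r ^ r * r.factorial

/-- from the range `D ≤ n` to all parameters -/
theorem both_of {m n g : ℕ} {d : ℕ → ℕ} (hd : ∀ t, 1 ≤ d t) (hmn : m + 1 ≤ n)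
    (h1 : win d 1 m ≤ n → exStar n (degs m d) ≤ CU (m + 1) * g)
    (h2 : win d 1 m ≤ n → g ≤ CL (m + 1) * exStar n (degs m d))
    (h3 : n < win d 1 m → n ^ (m + 1) ≤ g) :
    exStar n (degs m d) ≤ CC (m + 1) * min (n ^ (m + 1)) g ∧
      min (n ^ (m + 1)) g ≤ CC (m + 1) * exStar n (degs m d) := by
  have u := exStar_le_pow n (degs m d)
  rw [degs_length] at u
  have c1 : 1 ≤ CC (m + 1) := by
    have : 0 < (m + 1) ^ (m + 1) * (m + 1).factorial := by positivity
    unfold CC
    omega
  have u2 : exStar n (degs m d) ≤ CC (m + 1) * n ^ (m + 1) :=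
    u.trans (Nat.le_mul_of_pos_left _ c1)
  rcases le_or_gt (win d 1 m) n with h | h
  · constructor
    · rcases le_total (n ^ (m + 1)) g with h4 | h4
      · rwa [min_eq_left h4]
      · rw [min_eq_right h4]
        exact (h1 h).trans (Nat.mul_le_mul_right _ (by unfold CC; omega))
    · exact (min_le_right _ _).trans ((h2 h).trans (Nat.mul_le_mul_right _ (by unfold CC; omega)))
  · rw [min_eq_left (h3 h)]
    refine ⟨u2, ?_⟩
    have := pow_le_exStar (degs_pos hd m) (by rwa [degs_prod]) (by rwa [degs_length])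
    rw [degs_length] at this
    exact this.trans (Nat.mul_le_mul_right _ (by unfold CC; omega))

end Pool.Agent.P.MP_754fe6_co
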