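import Mathlib
import Pool.Agent.P.MP_754fe6_co.Cone
import Pool.Agent.P.MP_754fe6_co.Triv
import Pool.Agent.P.MP_754fe6_co.Defs3

namespace Pool.Agent.P.MP_754fe6_co

open Finset Rup

theorem log_win {d : ℕ → ℕ} (hd : ∀ t, 1 ≤ d t) (j i : ℕ) :
    Real.log (win d j i) = ∑ t ∈ Icc j i, Real.log (d t) := by
  rw [win, Nat.cast_prod, Real.log_prod fun t _ => by have := hd t; positivity]

theorem exists_msys {m n : ℕ} {d : ℕ → ℕ} (hd : ∀ t, 1 ≤ d t) (hn : win d 1 m ≤ n) (hm : m ≤ 6)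
    (G : Finset (Fin (m + 1) → Fin n)) (hG : G.Nonempty) (hB : Blocked d G) {fm : ℕ}
    (hfm : ∀ t, 1 ≤ t → t ≤ m → (fm.testBit t = true ↔ 2 ≤ d t)) :
    ∃ (X : MSys (m + 1) fm) (c : ℕ → ℝ), InCone (rays0 (m + 1) fm) c ∧
      (∀ w, X.s w = sL (m + 1) w c) ∧ X.Φ = (m + 1) * Real.log n - Real.log G.card ∧
      (∀ u, u ≤ m → c u = Real.log (win d 1 u)) ∧ c (m + 1) = Real.log n := by
  have w1 := win_pos hd 1 m
  obtain ⟨c, c1, c2⟩ := inCone0 (r := m + 1) (fm := fm)
    (fun t => if t = m + 1 then Real.log n - Real.log (win d 1 m) else Real.log (d t))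
    (fun t _ _ => by
      split_ifs
      · exact sub_nonneg.2 (Real.log_le_log (by positivity) (by exact_mod_cast hn))
      · exact Real.log_natCast_nonneg _)
    (fun t h1 h2 h3 => by
      have := hfm t h1 (by omega)
      have := hd t
      rw [if_neg (by omega), show d t = 1 by
        by_contra hh
        simp [(hfm t h1 (by omega)).2 (by omega)] at h3]
      simp)
  have c3 : ∀ u, u ≤ m → c u = Real.log (win d 1 u) := fun u hu => by
    rw [c2 u (by omega), log_win hd 1 u]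
    exact sum_congr rfl fun t ht => if_neg (by have := (mem_Icc.1 ht).2; omega)
  have c4 : c (m + 1) = Real.log n := by
    rw [c2 _ le_rfl, sum_Icc_succ_top (by omega), ← c2 m (by omega), c3 m le_rfl, if_pos rfl]
    ring
  obtain ⟨Y, Y1, Y2⟩ : ∃ Y : Sys (Fin (m + 1)),
      (∀ S x, Y.δ S x = Real.log n - Real.log (cost G S x)) ∧
      Y.Φ = (m + 1) * Real.log n - Real.log G.card :=
    ⟨sysOf G hG, fun S x => by simp [sysOf], by simp [sysOf]⟩
  obtain ⟨σ, hσ⟩ : ∃ σ : Equiv.Perm (Fin (m + 1)),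
      Monotone ((fun y : Fin (m + 1) => -Y.δ (univ.erase y) y) ∘ σ) := ⟨_, Tuple.monotone_sort _⟩
  let ms : ℕ → Finset (Fin (m + 1)) := fun S => univ.filter fun y => S.testBit (σ.symm y) = true
  let pt : ℕ → Fin (m + 1) := fun x => σ (Fin.ofNat _ x)
  have hpt : ∀ x, x < m + 1 → (σ.symm (pt x) : ℕ) = x := fun x hx => by
    simp [pt, Nat.mod_eq_of_lt hx]
  have hpt2 : ∀ x, x < m + 1 → ∀ y, (σ.symm y : ℕ) = x ↔ y = pt x := fun x hx y =>
    ⟨fun h => by
      rw [← σ.apply_symm_apply y]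
      exact congrArg σ (Fin.ext (by simp [h, Nat.mod_eq_of_lt hx])), fun h => h ▸ hpt x hx⟩
  have ins : ∀ S x, x < m + 1 → ms (S ||| 2 ^ x) = insert (pt x) (ms S) := fun S x hx => by
    ext y
    simp only [ms, mem_filter, mem_univ, true_and, mem_insert, Nat.testBit_or, Bool.or_eq_true,
      Nat.testBit_two_pow, decide_eq_true_eq, ← hpt2 x hx]
    tauto
  have era : ∀ x, x < m + 1 → ms ((2 ^ (m + 1) - 1) ^^^ 2 ^ x) = univ.erase (pt x) := fun x hx => by
    ext y
    have := (σ.symm y).2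
    simp only [ms, mem_filter, mem_univ, true_and, mem_erase, Nat.testBit_xor, and_true,
      Nat.testBit_two_pow, Nat.testBit_two_pow_sub_one, this, decide_true, Ne, ← hpt2 x hx]
    rw [Bool.true_xor, Bool.not_eq_eq_eq_not, Bool.not_true, decide_eq_false_iff_not, eq_comm]
  refine ⟨⟨fun S x => Y.δ (ms S) (pt x), fun S => Y.F (ms S), Y.Φ, fun w => sL (m + 1) w c,
    fun S S' x h => Y.δmono _ _ _ fun y hy => ?_, fun S => Y.F0 _, fun S => Y.FΦ _,
    fun S x hx h => ?_, fun x hx => ?_, fun f h1 h2 => ?_⟩, c, c1, fun _ => rfl, Y2, c3, c4⟩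
  · simp only [ms, mem_filter, mem_univ, true_and] at hy ⊢
    rw [← h, Nat.testBit_and, Bool.and_eq_true] at hy
    exact hy.2
  · rw [ins S x hx]
    exact Y.Fstep _ _ (by simp [ms, hpt x hx, h])
  · rw [era x (by omega), era _ hx]
    have := hσ (a := Fin.ofNat _ x) (b := Fin.ofNat _ (x + 1)) (by
      rw [Fin.le_def]
      simp [Nat.mod_eq_of_lt hx, Nat.mod_eq_of_lt (show x < m + 1 by omega)])
    simpa [pt] using this
  · obtain ⟨j, i, a1, a2, a3, a4, a5⟩ := hB (fun t => pt (f t)) (by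
      intro a ha b hb hab
      have ha' : a < m + 1 := by simpa using ha
      have hb' : b < m + 1 := by simpa using hb
      have e : f a = f b := by
        rw [← hpt _ (h1 a ha'), ← hpt _ (h1 b hb')]
        exact congrArg (fun y => (σ.symm y : ℕ)) hab
      rcases lt_trichotomy a b with h | h | h
      · exact absurd e (h2 b hb' a h)
      · exact h
      · exact absurd e.symm (h2 a ha' b h))
    refine ⟨j, i, a1, a2, by omega, (hfm j a1 (by omega)).2 a4, ?_⟩
    have e : ∀ k, k ≤ m + 1 → ms (pre f k) = (range k).image fun t => pt (f t) := by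
      intro k
      induction k with
      | zero => simp [ms, pre]
      | succ k ih =>
        intro hk
        rw [pre, ins _ _ (h1 k (by omega)), ih (by omega), range_add_one, image_insert]
    rw [e j (by omega), sL, show (j * 8 + i) / 8 = j by omega, show (j * 8 + i) % 8 = i by omega,
      c4, c3 _ (by omega), c3 _ a3, win_split d (j := 1) (i := j - 1) (k := i) (by omega) (by omega),
      show j - 1 + 1 = j by omega]
    have p1 := win_pos hd 1 (j - 1)
    have p2 := win_pos hd j i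
    have p3 := cost_pos hG ((range j).image fun t => pt (f t)) (pt (f i))
    have := Real.log_le_log (show (0 : ℝ) < cost G ((range j).image fun t => pt (f t)) (pt (f i)) by
      positivity) (show (cost G ((range j).image fun t => pt (f t)) (pt (f i)) : ℝ) ≤ win d j i by
      exact_mod_cast a5)
    push_cast
    rw [Real.log_mul (by positivity) (by positivity), Y1]
    linarith

def pieces (f : ℕ) : List (List ℕ) :=
  (List.range' (f % 8) (f / 64 + 1 - f / 8 % 8 - f % 8)).map fun j =>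
    List.replicate (f % 8) (8 + f / 64) ++ List.replicate (f / 8 % 8) (8 * j + (j + f / 8 % 8 - 1))

def valid (r fm f : ℕ) : Bool :=
  decide (1 ≤ f % 8) && decide (1 ≤ f / 8 % 8) && decide (f % 8 + f / 8 % 8 ≤ f / 64) &&
    decide (f / 64 ≤ r) && (List.range' (f % 8) (f / 64 + 1 - f / 8 % 8 - f % 8)).all fun j =>
      (List.range' j (f / 8 % 8)).any fm.testBit

theorem minWin_spec (d : ℕ → ℕ) {ρ z I : ℕ} (h : ρ + z ≤ I) :
    ∃ j, ρ ≤ j ∧ j + z ≤ I ∧ minWin d ρ z I = win d j (j + z - 1) := by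
  obtain ⟨j, ⟨a, b⟩, e⟩ := Nat.sInf_mem (s := (fun j => win d j (j + z - 1)) '' Set.Icc ρ (I - z))
    ⟨_, ρ, ⟨le_rfl, by omega⟩, rfl⟩
  exact ⟨j, a, by omega, e.symm⟩

theorem minWin_le (d : ℕ → ℕ) {ρ z I j : ℕ} (h1 : ρ ≤ j) (h2 : j + z ≤ I) :
    minWin d ρ z I ≤ win d j (j + z - 1) := Nat.sInf_le ⟨j, ⟨h1, by omega⟩, rfl⟩

theorem le_famMax {r n : ℕ} {d : ℕ → ℕ} {ρ z I : ℕ} (h1 : 1 ≤ ρ) (h2 : 1 ≤ z) (h3 : ρ + z ≤ I)
    (h4 : I ≤ r) (h5 : 2 ≤ minWin d ρ z I) :
    n ^ (r - ρ - z) * topWin r n d I ^ ρ * minWin d ρ z I ^ z ≤ famMax r n d :=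
  le_sup (f := fun p : ℕ × ℕ × ℕ =>
    n ^ (r - p.1 - p.2.1) * topWin r n d p.2.2 ^ p.1 * minWin d p.1 p.2.1 p.2.2 ^ p.2.1)
    (b := (ρ, z, I)) (by simp only [mem_filter, mem_product, mem_Icc]; omega)

theorem fam_piece {m n : ℕ} {d : ℕ → ℕ} (hd : ∀ t, 1 ≤ d t) (hn : win d 1 m ≤ n) (hm : m ≤ 6)
    {fm : ℕ} (hfm : ∀ t, 1 ≤ t → t ≤ m → (fm.testBit t = true ↔ 2 ≤ d t)) {c : ℕ → ℝ}
    (c3 : ∀ u, u ≤ m → c u = Real.log (win d 1 u)) (c4 : c (m + 1) = Real.log n) {g : ℕ}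
    (hg : famMax (m + 1) n d < g) {f : ℕ} (hf : valid (m + 1) fm f = true) :
    ∃ A ∈ pieces f, (m + 1) * Real.log n - Real.log g < (A.map fun w => sL (m + 1) w c).sum := by
  simp only [valid, Bool.and_eq_true, decide_eq_true_eq, List.all_eq_true, List.any_eq_true,
    List.mem_range'_1] at hf
  unfold pieces
  generalize f % 8 = ρ at *
  generalize f / 8 % 8 = z at *
  generalize f / 64 = I at *
  obtain ⟨⟨⟨⟨a1, a2⟩, a3⟩, a4⟩, a5⟩ := hf
  obtain ⟨j, j1, j2, j3⟩ := minWin_spec d a3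
  obtain ⟨t, ⟨t1, t2⟩, t3⟩ := a5 j (by omega)
  have h2 : 2 ≤ win d j (j + z - 1) :=
    ((hfm t (by omega) (by omega)).1 t3).trans (le_win hd t1 (by omega))
  have lt := (le_famMax (n := n) a1 a2 a3 a4 (j3 ▸ h2)).trans_lt hg
  rw [j3] at lt
  refine ⟨_, List.mem_map.2 ⟨j, List.mem_range'_1.2 (by omega), rfl⟩, ?_⟩
  have n1 : 1 ≤ n := (win_pos hd _ _).trans hn
  have p1 : 1 ≤ topWin (m + 1) n d I := by
    unfold topWin
    split_ifs
    · exact n1
    · exact win_pos hd _ _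
  have e1 : sL (m + 1) (8 + I) c = Real.log n - Real.log (topWin (m + 1) n d I) := by
    rw [sL, show (8 + I) / 8 - 1 = 0 by omega, show (8 + I) % 8 = I by omega, c4, c3 0 (by omega),
      topWin]
    split_ifs with h
    · simp [h, c4, win]
    · simp [c3 I (by omega), win]
  have e2 : sL (m + 1) (8 * j + (j + z - 1)) c = Real.log n - Real.log (win d j (j + z - 1)) := by
    have p2 := win_pos hd 1 (j - 1)
    rw [sL, show (8 * j + (j + z - 1)) / 8 = j by omega,
      show (8 * j + (j + z - 1)) % 8 = j + z - 1 by omega, c4, c3 _ (by omega), c3 _ (by omega),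
      win_split d (j := 1) (i := j - 1) (k := j + z - 1) (by omega) (by omega),
      show j - 1 + 1 = j by omega]
    push_cast
    rw [Real.log_mul (by positivity) (by positivity)]
    ring
  simp only [List.map_append, List.map_replicate, List.sum_append, List.sum_replicate, e1, e2,
    nsmul_eq_mul]
  have lt2 := Real.log_lt_log (by positivity)
    (show ((n ^ (m + 1 - ρ - z) * topWin (m + 1) n d I ^ ρ * win d j (j + z - 1) ^ z : ℕ) : ℝ) < g by
      exact_mod_cast lt)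
  push_cast at lt2
  rw [Real.log_mul (by positivity) (by positivity), Real.log_mul (by positivity)
    (by positivity), Real.log_pow, Real.log_pow, Real.log_pow] at lt2
  have e3 : ((m + 1 - ρ - z : ℕ) : ℝ) = m + 1 - ρ - z := by
    rw [eq_sub_iff_add_eq, eq_sub_iff_add_eq]
    exact_mod_cast (by omega)
  rw [e3] at lt2
  linarith

/-- a verified case of the parameter space -/
def CaseOK (r fm : ℕ) : Prop := ∃ (codes : List ℕ) (Ks : List (List ℕ × List (List ℕ))) (t : CT),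
  (∀ K ∈ Ks, KOK r fm K) ∧
    (codes.all (valid r fm) && Rup.cover r (codes.map pieces) Ks t (rays0 r fm)) = true

theorem exists_fm (m : ℕ) (d : ℕ → ℕ) :
    ∃ g, g < 2 ^ m ∧ ∀ t, 1 ≤ t → t ≤ m → ((2 * g).testBit t = true ↔ 2 ≤ d t) := by
  refine ⟨Nat.ofBits fun t : Fin m => decide (2 ≤ d (t + 1)), Nat.ofBits_lt_two_pow _,
    fun t h1 h2 => ?_⟩
  obtain ⟨t, rfl⟩ : ∃ t', t = t' + 1 := ⟨t - 1, by omega⟩
  rw [Nat.testBit_succ, Nat.mul_div_cancel_left _ (by omega), Nat.testBit_ofBits_lt _ _ (by omega)]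
  simp

theorem upper_fam {m n : ℕ} {d : ℕ → ℕ} (hd : ∀ t, 1 ≤ d t) (hn : win d 1 m ≤ n) (hm : m ≤ 6)
    (h : ∀ g, g < 2 ^ m → CaseOK (m + 1) (2 * g)) :
    exStar n (degs m d) ≤ CU (m + 1) * famMax (m + 1) n d := by
  refine upper_reduction m n d _ fun G hG hB => ?_
  by_contra hc
  obtain ⟨g, g1, hfm⟩ := exists_fm m d
  obtain ⟨codes, Ks, t, k1, k2⟩ := h g g1
  obtain ⟨X, c, c1, c2, c0, c3, c4⟩ := exists_msys hd hn hm G hG hB hfm
  rw [Bool.and_eq_true, List.all_eq_true] at k2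
  refine cover_ok k1 X c2 (fun φ hφ => ?_) t _ k2.2 c1
  obtain ⟨f, hf, rfl⟩ := List.mem_map.1 hφ
  rw [c0]
  exact fam_piece hd hn hm hfm c3 c4 (not_le.1 hc) (k2.1 f hf)

theorem famMax_le {m n : ℕ} {d : ℕ → ℕ} (hd : ∀ t, 1 ≤ d t) (hn : win d 1 m ≤ n)
    (hmn : m + 1 ≤ n) : famMax (m + 1) n d ≤ CL (m + 1) * exStar n (degs m d) := by
  refine Finset.sup_le ?_
  rintro ⟨ρ, z, I⟩ hp
  simp only [mem_filter, mem_product, mem_Icc] at hp ⊢
  exact lower_fam hd hn hmn hp.1.1.1 hp.1.2.1.1 (by omega) hp.2.1 hp.1.2.2.2 hp.2.2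
    fun j a b => minWin_le d a b

theorem pow_le_famMax {m n : ℕ} {d : ℕ → ℕ} (hm : 1 ≤ m) (hn : 1 ≤ n) (h : n < win d 1 m) :
    n ^ (m + 1) ≤ famMax (m + 1) n d := by
  obtain ⟨j, j1, j2, j3⟩ := minWin_spec d (ρ := 1) (z := m) (I := m + 1) (by omega)
  obtain rfl : j = 1 := by omega
  rw [show 1 + m - 1 = m by omega] at j3
  refine le_trans ?_ (le_famMax (ρ := 1) (z := m) (I := m + 1) le_rfl hm (by omega) le_rfl
    (by omega))
  rw [j3, topWin, if_pos rfl, show m + 1 - 1 - m = 0 by omega, pow_zero, one_mul, pow_one,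
    pow_succ']
  gcongr

end Pool.Agent.P.MP_754fe6_co
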