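import Mathlib
import Pool.Agent.P.MP_754fe6_co.Cone

namespace Pool.Agent.P.MP_754fe6_co.Rup

/-- the two cones produced by one subdivision -/
def sp (i k x y : ℕ) (rays : List (List ℕ)) : Option (List (List ℕ) × List (List ℕ)) :=
  match rays[i]?, rays[k]? with
  | some u, some v => if 0 < x ∧ 0 < y ∧ i ≠ k then
      some (rays.set i (comb x y u v), rays.set k (comb x y u v)) else none
  | _, _ => none

/-- the cone has a verified subdivision -/
def Cov (r : ℕ) (Fams : List (List (List ℕ))) (Ks : List (List ℕ × List (List ℕ)))
    (rays : List (List ℕ)) : Prop := ∃ t, cover r Fams Ks t rays = true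

theorem Cov.split {r : ℕ} {Fams : List (List (List ℕ))} {Ks : List (List ℕ × List (List ℕ))}
    {rays R1 R2 : List (List ℕ)} (i k x y : ℕ) (h1 : Cov r Fams Ks R1) (h2 : Cov r Fams Ks R2)
    (h : sp i k x y rays = some (R1, R2)) : Cov r Fams Ks rays := by
  obtain ⟨l, h1⟩ := h1
  obtain ⟨r', h2⟩ := h2
  refine ⟨.split i k x y l r', ?_⟩
  have e : cover r Fams Ks (.split i k x y l r') rays = match rays[i]?, rays[k]? with
    | some u, some v => decide (0 < x) && decide (0 < y) && decide (i ≠ k) &&
        forceL (comb x y u v) fun w => cover r Fams Ks l (rays.set i w) &&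
          cover r Fams Ks r' (rays.set k w)
    | _, _ => false := rfl
  rw [e]
  unfold sp at h
  cases e1 : rays[i]? with
  | none => simp [e1] at h
  | some u =>
  cases e2 : rays[k]? with
  | none => simp [e1, e2] at h
  | some v =>
  simp only [e1, e2] at h
  split_ifs at h with hc
  simp only [Option.some.injEq, Prod.mk.injEq] at h
  simp only [forceL_eq, h.1, h.2, h1, h2, hc.1, hc.2.1, hc.2.2, ne_eq, not_false_eq_true,
    decide_true, Bool.and_self]

def le1 (r : ℕ) (v A W : List ℕ) : Bool :=
  Nat.ble (Nat.add (up r v A) (dn v W)) (Nat.add (up r v W) (dn v A))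

def ordV (r : ℕ) (ord v : List ℕ) : Bool := ord.all fun p => le1 r v [p % 128] [p / 128]

def famV (r : ℕ) (φ : List (List ℕ)) (W v : List ℕ) : Bool := φ.all fun A => le1 r v A W

def badOK2 (r : ℕ) (rays : List (List ℕ)) (Fams : List (List (List ℕ))) :
    List (List ℕ) → List ℕ → Bool
  | [], _ => true
  | _ :: _, [] => false
  | W :: Ws, f :: fs => (match Fams[f]? with
      | none => false
      | some φ => rays.all (famV r φ W)) && badOK2 r rays Fams Ws fs

theorem badOK_of {r : ℕ} {rays : List (List ℕ)} {Fams : List (List (List ℕ))} :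
    ∀ (Ws : List (List ℕ)) (fs : List ℕ), badOK2 r rays Fams Ws fs = true →
      badOK r rays Fams Ws fs = true
  | [], _, _ => by simp [badOK]
  | _ :: _, [], h => by simp [badOK2] at h
  | W :: Ws, f :: fs, h => by
    simp only [badOK2, badOK, Bool.and_eq_true] at h ⊢
    refine ⟨?_, badOK_of Ws fs h.2⟩
    have h1 := h.1
    cases e : Fams[f]? with
    | none => simp [e] at h1
    | some φ =>
      simp only [e, List.all_eq_true, famV, leR] at h1 ⊢
      exact fun A hA v hv => h1 v hv A hA

/-- the same check as `cover`, ray by ray -/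
noncomputable def cover2 (r : ℕ) (Fams : List (List (List ℕ)))
    (Ks : List (List ℕ × List (List ℕ))) (t : CT) : List (List ℕ) → Bool :=
  CT.rec (motive := fun _ => List (List ℕ) → Bool)
    (fun k fs rays => match Ks[k]? with
      | none => false
      | some K => rays.all (ordV r K.1) && badOK2 r rays Fams K.2 fs)
    (fun i k x y _ _ il ir rays => match rays[i]?, rays[k]? with
      | some u, some v => decide (0 < x) && decide (0 < y) && decide (i ≠ k) &&
          forceL (comb x y u v) fun w => il (rays.set i w) && ir (rays.set k w)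
      | _, _ => false) t

theorem Cov.of2 {r : ℕ} {Fams : List (List (List ℕ))} {Ks : List (List ℕ × List (List ℕ))}
    (t : CT) : ∀ {rays}, cover2 r Fams Ks t rays = true → Cov r Fams Ks rays := by
  induction t with
  | leaf k fs =>
    intro rays h
    refine ⟨.leaf k fs, ?_⟩
    have e : cover r Fams Ks (.leaf k fs) rays = match Ks[k]? with
      | none => false
      | some K => (K.1.all fun p => leR r rays [p % 128] [p / 128]) &&
        badOK r rays Fams K.2 fs := rfl
    have e2 : cover2 r Fams Ks (.leaf k fs) rays = match Ks[k]? with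
      | none => false
      | some K => rays.all (ordV r K.1) && badOK2 r rays Fams K.2 fs := rfl
    rw [e2] at h
    rw [e]
    cases e3 : Ks[k]? with
    | none => simp [e3] at h
    | some K =>
      simp only [e3, Bool.and_eq_true, List.all_eq_true, ordV, leR] at h ⊢
      exact ⟨fun p hp v hv => h.1 v hv p hp, badOK_of _ _ h.2⟩
  | split i k x y l r' il ir =>
    intro rays h
    have e : cover2 r Fams Ks (.split i k x y l r') rays = match rays[i]?, rays[k]? with
      | some u, some v => decide (0 < x) && decide (0 < y) && decide (i ≠ k) &&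
          forceL (comb x y u v) fun w => cover2 r Fams Ks l (rays.set i w) &&
            cover2 r Fams Ks r' (rays.set k w)
      | _, _ => false := rfl
    rw [e] at h
    cases e1 : rays[i]? with
    | none => simp [e1] at h
    | some u =>
    cases e2 : rays[k]? with
    | none => simp [e1, e2] at h
    | some v =>
    simp only [e1, e2, forceL_eq, Bool.and_eq_true, decide_eq_true_eq] at h
    obtain ⟨⟨⟨a1, a2⟩, a3⟩, a4, a5⟩ := h
    exact .split i k x y (il a4) (ir a5) (by simp [sp, e1, e2, a1, a2, a3])

end Pool.Agent.P.MP_754fe6_co.Rup
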