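import Mathlib
import Pool.Agent.P.MP_754fe6_co.Bridge

set_option maxRecDepth 100000

namespace Pool.Agent.P.MP_754fe6_co.D2

open Rup

abbrev n := T.node
abbrev z := T.nil

def t0x0 : T :=
(n 0x0 0x45
z z)

theorem k0x0 : KOK 2 0 ([], []) :=
  kok_of (by omega) 0x0 t0x0 1 (by decide +kernel)

def t2x0 : T :=
(n 0x40003 0x7
(n 0x2 0x45
(n 0x4 0x20004
z z) z) (n 0x5 0x3
(n 0x0 0x60008
z z) z))

theorem k2x0 : KOK 2 2 ([], [[9]]) :=
  kok_of (by omega) 0x121012090000 t2x0 5 (by decide +kernel)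

end Pool.Agent.P.MP_754fe6_co.D2
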