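import Mathlib
import Pool.Agent.P.MP_754fe6_co.Bridge

set_option maxRecDepth 100000

namespace Pool.Agent.P.MP_754fe6_co.D3

open Rup

abbrev n := T.node
abbrev z := T.nil

def t0x0 : T :=
(n 0x0 0x445
z z)

theorem k0x0 : KOK 3 0 ([], []) :=
  kok_of (by omega) 0x0 t0x0 1 (by decide +kernel)

def t4x0 : T :=
(n 0x40003 0x7
(n 0x20007 0x7
(n 0x5 0x3
z z) (n 0x4 0x2000a
z z)) (n 0x6 0x445
(n 0x2 0x40006
z z) (n 0x0 0x8000c
z z)))

theorem k4x0 : KOK 3 4 ([], [[18]]) :=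
  kok_of (by omega) 0x241a243024290000 t4x0 7 (by decide +kernel)

def t2x0 : T :=
(n 0x40003 0x1
(n 0x20007 0x1
(n 0xe000d 0x1
(n 0x160019 0x1
(n 0x130017 0x3
z z) z) (n 0x180010 0x215
(n 0x5 0x120024
z z) z)) (n 0x100015 0x1
(n 0x60008 0x285
(n 0x13 0x14000400060002001e001c001600180008001000220020
z z) z) (n 0x50011 0x3
(n 0x17 0xe0028
z z) z))) (n 0xa0009 0x1
(n 0x120011 0x1
(n 0x120005 0x7
(n 0x13000f 0x3
z z) z) (n 0x140016 0x55
(n 0x15 0xc0026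
z z) z)) (n 0x40017 0x1
(n 0xc001a 0x40d
(n 0x11 0xa0024
z z) z) (n 0xb001b 0x3
(n 0x0 0x1a002a002c
z z) z))))

theorem k2x0 : KOK 3 2 ([1289], [[9, 9]]) :=
  kok_of (by omega) 0x12101421122114201230122012121412121a120a1409122912090000 t2x0 23 (by decide +kernel)

def t6x0 : T :=
(n 0x40003 0x1
(n 0x80007 0x1
(n 0xe000d 0x1
(n 0x160019 0x1
(n 0x50011 0x3
z z) (n 0x15 0xc002c
z z)) (n 0x1c001e000c 0x8d
(n 0x1b 0x14001e
z z) z)) (n 0x100015 0x1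
(n 0x1c001b 0x7
(n 0x130017 0x3
z z) (n 0x0 0x1a002800320030
z z)) (n 0x1c00100018 0x55
(n 0x11 0xa002a
z z) z))) (n 0x6000b 0x1
(n 0x120011 0x1
(n 0x120005 0x7
(n 0x9001f 0x3
z z) (n 0x17 0xe002e
z z)) (n 0x1a00160014 0x215
(n 0x13 0x6001600040002002200200018001c00080010002600240028001e
z z) z)) (n 0x40017 0x1
(n 0x1a0002000a 0x285
(n 0x13000f 0x3
z z) z) (n 0x1d 0xb
(n 0x5 0x12002a
z z) z))))

theorem k6x0 : KOK 3 6 ([1162], [[10, 10], [18]]) :=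
  kok_of (by omega) 0x1410243024291221142112201430142014121212120a141a140a142914090000 t6x0 26 (by decide +kernel)

end Pool.Agent.P.MP_754fe6_co.D3
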