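import Mathlib
import Pool.Agent.P.MP_754fe6_co.D3k0

set_option maxRecDepth 100000

namespace Pool.Agent.P.MP_754fe6_co.D3

open Rup

theorem c0 : CaseOK 3 0 := ⟨[],
[([], [])],
(.leaf 0 []),
List.forall_mem_cons.2 ⟨k0x0, List.forall_mem_nil _⟩,
by decide +kernel⟩

theorem c4 : CaseOK 3 4 := ⟨[202],
[([], [[18]])],
(.leaf 0 [0]),
List.forall_mem_cons.2 ⟨k4x0, List.forall_mem_nil _⟩,
by decide +kernel⟩

theorem c2 : CaseOK 3 2 := ⟨[137],
[([1289], [[9, 9]])],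
(.leaf 0 [0]),
List.forall_mem_cons.2 ⟨k2x0, List.forall_mem_nil _⟩,
by decide +kernel⟩

theorem c6 : CaseOK 3 6 := ⟨[209, 202],
[([1162], [[10, 10], [18]])],
(.leaf 0 [0, 1]),
List.forall_mem_cons.2 ⟨k6x0, List.forall_mem_nil _⟩,
by decide +kernel⟩

theorem all (g : ℕ) (hg : g < 2 ^ 2) : CaseOK 3 (2 * g) := by
  interval_cases g
  exacts [c0, c2, c4, c6]

end Pool.Agent.P.MP_754fe6_co.D3
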