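import Mathlib
import Pool.Agent.P.MP_754fe6_co.D4k0

set_option maxRecDepth 100000

namespace Pool.Agent.P.MP_754fe6_co.D4

open Rup

theorem c0 : CaseOK 4 0 := ⟨[],
[([], [])],
(.leaf 0 []),
List.forall_mem_cons.2 ⟨k0x0, List.forall_mem_nil _⟩,
by decide +kernel⟩

theorem c8 : CaseOK 4 8 := ⟨[267],
[([], [[27]])],
(.leaf 0 [0]),
List.forall_mem_cons.2 ⟨k8x0, List.forall_mem_nil _⟩,
by decide +kernel⟩

theorem c4 : CaseOK 4 4 := ⟨[274],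
[([2450], [[18, 18]])],
(.leaf 0 [0]),
List.forall_mem_cons.2 ⟨k4x0, List.forall_mem_nil _⟩,
by decide +kernel⟩

theorem c12 : CaseOK 4 12 := ⟨[274, 267],
[([2323], [[19, 19], [27]])],
(.leaf 0 [0, 1]),
List.forall_mem_cons.2 ⟨k12x0, List.forall_mem_nil _⟩,
by decide +kernel⟩

theorem c2 : CaseOK 4 2 := ⟨[137],
[([1289, 1417], [[9, 9]])],
(.leaf 0 [0]),
List.forall_mem_cons.2 ⟨k2x0, List.forall_mem_nil _⟩,
by decide +kernel⟩

theorem c10 : CaseOK 4 10 := ⟨[137, 281, 267],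
[([1163, 1289, 1291], [[9, 9], [11, 11, 11], [27]])],
(.leaf 0 [0, 1, 2]),
List.forall_mem_cons.2 ⟨k10x0, List.forall_mem_nil _⟩,
by decide +kernel⟩

theorem c6 : CaseOK 4 6 := ⟨[137, 209, 274],
[([1162, 1418, 2314, 2323, 2442, 2450], [[9, 10], [10, 10, 10], [18, 18]])],
(.leaf 0 [0, 1, 2]),
List.forall_mem_cons.2 ⟨k6x0, List.forall_mem_nil _⟩,
by decide +kernel⟩

theorem c14 : CaseOK 4 14 := ⟨[137, 281, 267, 201, 274],
[([1163, 1291, 2323, 2443], [[9, 11], [11, 11, 11], [19, 19], [27]]),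
([1162, 1291, 2323, 2443], [[9, 10], [9, 19], [11, 11, 11], [11, 18], [19, 19], [27]])],
(.split 1 0 1 1
(.split 1 3 1 1
(.split 2 3 1 1
(.split 2 0 1 2
(.split 3 0 1 1
(.leaf 1 [0, 0, 1, 0, 0, 2]) (.leaf 0 [2, 1, 0, 2])) (.leaf 0 [2, 1, 2, 2])) (.leaf 0 [1, 1, 2, 2])) (.leaf 0 [1, 1, 1, 1])) (.leaf 0 [3, 1, 4, 2])),
List.forall_mem_cons.2 ⟨k14x0, List.forall_mem_cons.2 ⟨k14x1, List.forall_mem_nil _⟩⟩,
by decide +kernel⟩

theorem all (g : ℕ) (hg : g < 2 ^ 3) : CaseOK 4 (2 * g) := by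
  interval_cases g
  exacts [c0, c2, c4, c6, c8, c10, c12, c14]

end Pool.Agent.P.MP_754fe6_co.D4
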