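import Mathlib
import Pool.Agent.P.MP_754fe6_co.D5k3

set_option maxRecDepth 100000

namespace Pool.Agent.P.MP_754fe6_co.D5

open Rup

theorem c0 : CaseOK 5 0 := ⟨[],
[([], [])],
(.leaf 0 []),
List.forall_mem_cons.2 ⟨k0x0, List.forall_mem_nil _⟩,
by decide +kernel⟩

theorem c16 : CaseOK 5 16 := ⟨[332],
[([], [[36]])],
(.leaf 0 [0]),
List.forall_mem_cons.2 ⟨k16x0, List.forall_mem_nil _⟩,
by decide +kernel⟩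

theorem c8 : CaseOK 5 8 := ⟨[339],
[([3611], [[27, 27]])],
(.leaf 0 [0]),
List.forall_mem_cons.2 ⟨k8x0, List.forall_mem_nil _⟩,
by decide +kernel⟩

theorem c24 : CaseOK 5 24 := ⟨[339, 332],
[([3484], [[28, 28], [36]])],
(.leaf 0 [0, 1]),
List.forall_mem_cons.2 ⟨k24x0, List.forall_mem_nil _⟩,
by decide +kernel⟩

theorem c4 : CaseOK 5 4 := ⟨[209],
[([2450, 2578], [[18, 18, 18]])],
(.leaf 0 [0]),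
List.forall_mem_cons.2 ⟨k4x0, List.forall_mem_nil _⟩,
by decide +kernel⟩

theorem c20 : CaseOK 5 20 := ⟨[346, 332],
[([2324, 2452], [[20, 20, 20], [36]])],
(.leaf 0 [0, 1]),
List.forall_mem_cons.2 ⟨k20x0, List.forall_mem_nil _⟩,
by decide +kernel⟩

theorem c12 : CaseOK 5 12 := ⟨[346, 339],
[([2323, 2324, 2579, 3475, 3484, 3603, 3611], [[19, 19, 19], [27, 27]])],
(.leaf 0 [0, 1]),
List.forall_mem_cons.2 ⟨k12x0, List.forall_mem_nil _⟩,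
by decide +kernel⟩

theorem c28 : CaseOK 5 28 := ⟨[332, 346, 339],
[([2324, 2452, 3476, 3484, 3604], [[18, 28], [20, 20, 20], [28, 28], [36]])],
(.leaf 0 [0, 1, 2, 0]),
List.forall_mem_cons.2 ⟨k28x0, List.forall_mem_nil _⟩,
by decide +kernel⟩

theorem c2 : CaseOK 5 2 := ⟨[137],
[([1289, 1417, 1545], [[9, 9]])],
(.leaf 0 [0]),
List.forall_mem_cons.2 ⟨k2x0, List.forall_mem_nil _⟩,
by decide +kernel⟩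

theorem c18 : CaseOK 5 18 := ⟨[137, 353, 332],
[([1289, 1417, 1420], [[9, 9], [12, 12, 12, 12], [36]])],
(.leaf 0 [0, 1, 2]),
List.forall_mem_cons.2 ⟨k18x0, List.forall_mem_nil _⟩,
by decide +kernel⟩

theorem c10 : CaseOK 5 10 := ⟨[137, 281, 339],
[([1163, 1289, 1291, 1547, 3467, 3484, 3595, 3611], [[9, 9], [11, 11, 11, 11], [27, 27]])],
(.leaf 0 [0, 1, 2]),
List.forall_mem_cons.2 ⟨k10x0, List.forall_mem_nil _⟩,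
by decide +kernel⟩

theorem c26 : CaseOK 5 26 := ⟨[137, 332, 353, 339],
[([1164, 1289, 1292, 1420, 3468, 3484, 3596], [[9, 9], [9, 28], [12, 12, 12, 12], [28, 28], [36]])],
(.leaf 0 [0, 1, 2, 3, 1]),
List.forall_mem_cons.2 ⟨k26x0, List.forall_mem_nil _⟩,
by decide +kernel⟩

theorem c6 : CaseOK 5 6 := ⟨[137, 209],
[([1162, 1418, 1546, 2314, 2442, 2570], [[9, 10], [10, 10, 10]])],
(.leaf 0 [0, 1]),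
List.forall_mem_cons.2 ⟨k6x0, List.forall_mem_nil _⟩,
by decide +kernel⟩

theorem c22 : CaseOK 5 22 := ⟨[137, 332, 209, 273, 353, 346],
[([1162, 1291, 1292, 1418, 1420, 2314, 2316, 2323, 2324, 2442, 2444, 2450, 2452, 2572], [[9, 10], [9, 20], [10, 10, 10], [10, 18, 20], [12, 12, 12, 12], [12, 18, 18], [20, 20, 20], [36]])],
(.leaf 0 [0, 1, 2, 3, 4, 3, 5, 1]),
List.forall_mem_cons.2 ⟨k22x0, List.forall_mem_nil _⟩,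
by decide +kernel⟩

theorem c14 : CaseOK 5 14 := ⟨[201, 209, 202, 281, 346, 339, 137],
[([1162, 1163, 1164, 1291, 1292, 1420, 1547, 2314, 2323, 2324, 2443, 2444, 2452, 2571, 2572, 2579, 3467, 3475, 3484, 3595, 3596, 3603, 3611], [[9, 10], [9, 19], [10, 10, 11], [10, 11, 19], [10, 27], [11, 11, 11, 11], [12, 18], [19, 19, 19], [27, 27]]),
([1162, 1163, 1291, 1292, 1420, 1547, 2314, 2315, 2316, 2323, 2324, 2443, 2444, 2452, 2571, 2572, 2579, 3467, 3475, 3484, 3595, 3596, 3603, 3611], [[9, 12], [10, 10, 11], [10, 11, 19], [10, 27], [11, 11, 11, 11], [11, 11, 18], [19, 19, 19], [27, 27]])],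
(.split 0 1 1 1
(.leaf 1 [0, 1, 2, 0, 3, 2, 4, 5]) (.leaf 0 [6, 0, 1, 2, 0, 3, 0, 4, 5])),
List.forall_mem_cons.2 ⟨k14x0, List.forall_mem_cons.2 ⟨k14x1, List.forall_mem_nil _⟩⟩,
by decide +kernel⟩

theorem c30 : CaseOK 5 30 := ⟨[137, 332, 353, 339, 209, 201, 265, 346, 273, 202],
[([1162, 1163, 1164, 1291, 1292, 1420, 2314, 2315, 2316, 2323, 2324, 2443, 2444, 2452, 2572, 3484, 3596, 3604], [[9, 11], [9, 20], [10, 10, 11], [10, 12, 19], [10, 18, 20], [10, 28], [11, 11, 18], [12, 12, 12, 12], [12, 18, 18], [12, 27], [20, 20, 20], [28, 28], [36]]),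
([1162, 1163, 1164, 1291, 1292, 1420, 2314, 2444, 2452, 2572, 3468, 3476, 3484, 3596, 3604], [[9, 10], [9, 20], [10, 10, 11], [10, 12, 19], [10, 28], [12, 12, 12, 12], [12, 18], [20, 20, 20], [28, 28], [36]]),
([1162, 1163, 1164, 1291, 1292, 1420, 2314, 2315, 2316, 2323, 2324, 2443, 2444, 2452, 2572, 3484, 3596, 3604], [[9, 10], [9, 20], [10, 10, 11], [10, 11, 19], [10, 28], [11, 18], [12, 12, 12, 12], [12, 18, 18], [12, 19, 19], [12, 27], [20, 20, 20], [28, 28], [36]]),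
([1164, 1291, 1292, 1420, 2314, 2315, 2316, 2323, 2324, 2443, 2444, 2452, 2572, 3467, 3476, 3484, 3596, 3604], [[9, 12], [10, 10, 12], [10, 11, 19], [10, 28], [11, 11, 18], [12, 12, 12, 12], [12, 12, 28], [12, 18, 20], [20, 20, 20], [28, 28], [36]]),
([1162, 1163, 1164, 1291, 1292, 1420, 2314, 2315, 2316, 2323, 2324, 2443, 2444, 2452, 2572, 3484, 3596, 3604], [[9, 11], [9, 20], [10, 10, 11], [10, 11, 19], [10, 18, 20], [10, 28], [11, 11, 18], [12, 12, 12, 12], [12, 18, 18], [12, 19, 19], [12, 27], [20, 20, 20], [28, 28], [36]])],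
(.split 1 0 1 1
(.split 3 0 1 1
(.split 1 2 1 1
(.split 4 2 1 1
(.split 1 4 1 2
(.split 2 4 1 1
(.split 3 4 1 2
(.leaf 1 [0, 1, 0, 1, 1, 2, 1, 1, 3, 1]) (.leaf 1 [0, 2, 0, 2, 2, 2, 2, 3, 3, 1])) (.leaf 1 [0, 2, 0, 2, 2, 2, 2, 3, 3, 1])) (.leaf 1 [0, 2, 2, 2, 2, 2, 2, 2, 2, 1])) (.leaf 1 [0, 1, 4, 5, 1, 2, 6, 1, 3, 1])) (.split 0 2 1 1
(.split 0 4 2 3
(.split 1 4 2 1
(.split 2 4 1 1
(.split 3 4 1 1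
(.split 0 1 1 1
(.split 3 1 1 2
(.split 4 1 1 1
(.leaf 2 [0, 0, 4, 0, 0, 5, 2, 0, 0, 2, 0, 0, 1]) (.leaf 1 [0, 0, 0, 0, 0, 2, 1, 0, 0, 1])) (.leaf 1 [0, 0, 0, 0, 0, 2, 1, 0, 0, 1])) (.leaf 1 [0, 0, 0, 0, 0, 2, 1, 0, 0, 1])) (.leaf 1 [0, 0, 4, 0, 0, 2, 2, 0, 0, 1])) (.leaf 1 [0, 0, 4, 4, 0, 2, 2, 0, 0, 1])) (.leaf 1 [0, 0, 4, 4, 0, 2, 2, 0, 0, 1])) (.leaf 1 [0, 0, 4, 4, 0, 2, 2, 0, 0, 1])) (.leaf 1 [0, 0, 4, 0, 0, 2, 0, 0, 0, 1]))) (.split 2 1 1 1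
(.leaf 2 [0, 1, 4, 4, 1, 5, 2, 0, 5, 6, 1, 3, 1]) (.leaf 1 [0, 1, 4, 5, 1, 2, 6, 7, 3, 1]))) (.split 0 2 1 1
(.split 4 2 1 1
(.split 0 4 1 2
(.split 2 4 1 1
(.split 3 4 1 1
(.split 0 1 1 2
(.split 2 1 1 1
(.split 3 1 1 1
(.split 4 1 1 1
(.split 1 0 1 1
(.split 3 0 1 1
(.split 2 0 1 1
(.leaf 3 [2, 2, 2, 2, 2, 2, 2, 2, 7, 2, 7]) (.split 2 1 1 1
(.leaf 3 [2, 2, 2, 2, 2, 2, 2, 2, 7, 2, 7]) (.leaf 1 [0, 2, 4, 2, 2, 2, 7, 7, 2, 7]))) (.leaf 0 [2, 2, 4, 2, 0, 2, 2, 2, 0, 7, 7, 2, 7])) (.leaf 0 [2, 2, 4, 2, 2, 2, 2, 2, 2, 7, 7, 2, 7])) (.leaf 3 [7, 2, 2, 7, 2, 2, 7, 2, 7, 3, 1])) (.leaf 3 [7, 2, 2, 7, 2, 2, 7, 2, 7, 3, 1])) (.leaf 3 [7, 2, 2, 7, 2, 2, 7, 2, 7, 3, 1])) (.leaf 3 [1, 2, 2, 7, 2, 2, 1, 2, 7, 3, 1])) (.leaf 1 [0, 2, 4, 2, 2, 2, 2, 7, 3, 1])) (.leaf 1 [0, 2, 4, 2, 2, 2, 2, 7, 3,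 1])) (.leaf 1 [0, 2, 4, 2, 2, 2, 2, 2, 2, 1])) (.split 1 0 1 1
(.split 2 1 1 1
(.split 4 1 1 1
(.leaf 0 [2, 2, 4, 2, 0, 2, 2, 2, 0, 2, 2, 2, 2]) (.split 0 4 1 1
(.split 1 4 2 1
(.split 2 4 2 1
(.split 3 4 2 1
(.leaf 3 [1, 1, 1, 1, 1, 2, 1, 7, 7, 3, 1]) (.leaf 0 [2, 2, 4, 2, 0, 2, 2, 2, 0, 2, 7, 3, 1])) (.leaf 0 [2, 2, 4, 2, 0, 2, 2, 2, 0, 2, 2, 2, 1])) (.leaf 0 [2, 2, 4, 2, 0, 2, 2, 2, 0, 2, 2, 2, 1])) (.leaf 0 [2, 2, 4, 2, 0, 2, 2, 2, 0, 2, 2, 2, 2]))) (.split 2 0 1 1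
(.split 3 0 1 1
(.split 4 0 1 1
(.leaf 0 [2, 2, 4, 2, 0, 2, 2, 2, 0, 2, 2, 2, 2]) (.split 4 1 1 1
(.leaf 3 [2, 2, 2, 2, 2, 2, 2, 2, 2, 2, 1]) (.leaf 1 [0, 1, 0, 1, 1, 2, 1, 7, 3, 1]))) (.split 3 1 1 1
(.split 4 1 1 1
(.leaf 3 [2, 2, 2, 2, 2, 2, 2, 2, 2, 2, 1]) (.leaf 1 [0, 1, 0, 7, 1, 2, 1, 7, 3, 1])) (.leaf 1 [0, 3, 0, 7, 3, 2, 1, 7, 3, 1]))) (.split 2 1 1 1
(.split 3 1 1 1
(.split 4 1 1 1
(.leaf 3 [2, 2, 2, 2, 2, 2, 2, 2, 2, 2, 1]) (.leaf 1 [0, 1, 0, 7, 1, 2, 1, 7, 3, 1])) (.leaf 1 [0, 3, 0, 7, 3, 2, 1, 7, 3, 1])) (.leaf 1 [0, 3, 0, 7, 3, 2, 1, 7, 3, 1])))) (.leaf 3 [6, 8, 9, 1, 9, 2, 7, 7, 7, 3, 1]))) (.split 4 1 1 1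
(.split 0 4 1 1
(.split 2 4 1 2
(.split 3 4 1 2
(.split 2 1 1 2
(.split 3 1 1 3
(.split 4 1 1 1
(.split 0 3 1 1
(.split 3 2 1 2
(.leaf 4 [4, 4, 4, 4, 4, 4, 4, 2, 4, 8, 4, 7, 0, 1]) (.leaf 0 [4, 4, 4, 7, 7, 4, 4, 2, 7, 4, 7, 0, 1])) (.leaf 0 [4, 0, 4, 4, 4, 0, 4, 4, 4, 4, 4, 0, 1])) (.leaf 4 [4, 4, 4, 4, 1, 4, 4, 2, 1, 8, 4, 7, 0, 1])) (.leaf 4 [1, 1, 4, 4, 1, 1, 4, 2, 1, 8, 1, 7, 0, 1])) (.leaf 4 [1, 1, 4, 4, 1, 1, 4, 2, 1, 8, 1, 7, 0, 1])) (.leaf 0 [2, 1, 4, 2, 2, 1, 4, 2, 2, 1, 7, 2, 1])) (.leaf 0 [2, 2, 4, 2, 2, 2, 4, 2, 2, 2, 2, 2, 1])) (.leaf 0 [2, 2, 4, 2, 2, 2, 4, 2, 2, 2, 2, 2, 2])) (.leaf 0 [5, 1, 4, 5, 0, 1, 4, 2, 0, 6, 7, 3, 1])))),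
List.forall_mem_cons.2 ⟨k30x0, List.forall_mem_cons.2 ⟨k30x1, List.forall_mem_cons.2 ⟨k30x2, List.forall_mem_cons.2 ⟨k30x3, List.forall_mem_cons.2 ⟨k30x4, List.forall_mem_nil _⟩⟩⟩⟩⟩,
by decide +kernel⟩

theorem all (g : ℕ) (hg : g < 2 ^ 4) : CaseOK 5 (2 * g) := by
  interval_cases g
  exacts [c0, c2, c4, c6, c8, c10, c12, c14, c16, c18, c20, c22, c24, c26, c28, c30]

end Pool.Agent.P.MP_754fe6_co.D5
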