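import Mathlib
import Pool.Agent.P.MP_754fe6_co.ConeSplit

set_option maxRecDepth 100000

namespace Pool.Agent.P.MP_754fe6_co.D6

open Rup

def fA : List (List (List ℕ)) :=
[[[10, 9]], [[12, 11, 11, 11]], [[14, 14, 14, 29, 29, 29]], [[14, 14, 14, 14, 14, 45]], [[14, 13, 13, 13, 13, 13]], [[14, 14, 21, 21, 21, 21]], [[13, 11, 11, 11], [13, 20, 20, 20]], [[12, 12, 12, 27]], [[11, 11, 18]], [[12, 10, 10], [12, 19, 19]], [[12, 12, 19, 19]], [[11, 10, 10]], [[14, 14, 14, 14, 37, 37]], [[11, 9], [11, 18]], [[12, 9], [12, 18], [12, 27]], [[11, 27, 27]], [[11, 11, 27], [11, 28, 27], [20, 11, 27], [20, 28, 27]], [[12, 19, 18]]]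

def kA : List (List ℕ × List (List ℕ)) :=
[([1162, 1163, 1164, 1165, 1291, 1292, 1293, 1420, 1421, 1549, 2314, 2323, 2324, 2325, 2443, 2444, 2445, 2452, 2453, 2572, 2573, 2581, 2701, 3467, 3468, 3469, 3475, 3476, 3477, 3484, 3485, 3596, 3597, 3604, 3605, 3613, 3725, 3733, 4620, 4621, 4628, 4629, 4636, 4637, 4645, 4749, 4757, 4765], [[9, 10], [9, 21], [10, 10, 13], [10, 11, 11, 21], [10, 11, 19], [10, 11, 20, 21], [10, 12, 19, 21], [10, 19, 20], [10, 29], [11, 11, 11, 12], [11, 11, 20, 20], [11, 11, 29, 29], [11, 12, 12, 28], [11, 12, 19, 20], [11, 13, 27, 29], [11, 19, 19, 21], [11, 27, 27], [11, 37], [12, 12, 12, 27], [12, 12, 19, 19], [12, 18, 19], [13, 13, 13, 13, 13],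 [13, 13, 13, 36], [13, 13, 27, 27], [13, 13, 29, 29], [13, 18], [13, 19, 19, 19], [13, 20, 20, 20], [20, 27, 28], [21, 21, 21, 21], [29, 29, 29], [37, 37], [45]]),
([1162, 1163, 1165, 1291, 1292, 1293, 1420, 1421, 1549, 2314, 2315, 2316, 2317, 2323, 2324, 2325, 2443, 2444, 2445, 2452, 2453, 2572, 2573, 2581, 2701, 3467, 3468, 3469, 3475, 3476, 3477, 3484, 3485, 3596, 3597, 3604, 3605, 3613, 3725, 3733, 4645, 4749, 4765], [[9, 13], [10, 10, 12], [10, 10, 13, 13], [10, 11, 11, 21], [10, 11, 19], [10, 11, 20, 21], [10, 12, 19, 21], [10, 19, 20], [10, 29], [11, 11, 11, 12], [11, 11, 18], [11, 11, 20, 20], [11, 11, 29, 29], [11, 12, 12, 28], [11, 12, 18, 21], [11, 12, 19, 20],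 [11, 13, 27, 29], [11, 18, 20], [11, 19, 19, 21], [11, 27, 28], [11, 37], [12, 12, 12, 27], [12, 12, 18], [12, 12, 19, 19], [12, 27, 27], [13, 13, 13, 13, 13], [13, 13, 27, 27], [13, 13, 28, 28], [13, 13, 37], [13, 18, 21, 21], [13, 19, 19, 19], [13, 20, 20, 20], [13, 21, 29, 29], [21, 21, 21, 21], [29, 29, 29], [37, 37], [45]]),
([1162, 1163, 1165, 1291, 1292, 1293, 1420, 1421, 1549, 2314, 2315, 2316, 2317, 2323, 2324, 2325, 2443, 2444, 2445, 2452, 2453, 2572, 2573, 2581, 2701, 3467, 3468, 3469, 3475, 3476, 3477, 3484, 3485, 3596, 3597, 3604, 3605, 3613, 3725, 3733, 4637, 4645, 4749, 4765], [[9, 13], [10, 10, 12], [10, 11, 11, 21], [10, 11, 19], [10, 11, 20, 21], [10,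 12, 19, 21], [10, 19, 20], [10, 29], [11, 11, 11, 13], [11, 11, 18], [11, 11, 20, 20], [11, 11, 29, 29], [11, 12, 12, 28], [11, 12, 18, 21], [11, 12, 19, 20], [11, 13, 27, 29], [11, 18, 20], [11, 27, 28], [11, 37], [12, 12, 12, 27], [12, 12, 18], [12, 12, 19, 19], [13, 13, 13, 13, 13], [13, 13, 27, 27], [13, 13, 29, 29], [13, 13, 37], [13, 19, 19, 21], [13, 21, 21, 29], [20, 27, 27], [21, 21, 21, 21], [29, 29, 29], [37, 37], [45]]),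
([1162, 1163, 1164, 1165, 1291, 1292, 1293, 1420, 1421, 1549, 2314, 2315, 2317, 2325, 2443, 2444, 2445, 2452, 2453, 2572, 2573, 2581, 2701, 3467, 3469, 3477, 3484, 3485, 3596, 3597, 3604, 3605, 3613, 3725, 3733, 4621, 4629, 4636, 4637, 4645, 4749, 4757, 4765], [[9, 10], [9, 21], [10, 10, 11], [10, 11, 19], [10, 12, 19, 21], [10, 13, 21], [10, 19, 20], [10, 29], [11, 11, 11, 12], [11, 11, 20, 20], [11, 11, 29, 29], [11, 12, 12, 28], [11, 12, 19, 20], [11, 13, 13, 21], [11, 19, 19, 21], [11, 27, 27], [11, 37], [12, 12, 19, 19], [13, 13, 13, 13, 13], [13, 13, 27], [13, 18], [13, 19, 19, 19], [21, 21, 21, 21], [29, 29, 29], [37, 37], [45]]),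
([1162, 1163, 1164, 1165, 1291, 1292, 1293, 1420, 1421, 1549, 2314, 2315, 2316, 2317, 2323, 2324, 2325, 2443, 2444, 2445, 2452, 2453, 2572, 2573, 2581, 2701, 3467, 3468, 3469, 3475, 3476, 3477, 3484, 3485, 3596, 3597, 3604, 3605, 3613, 3725, 3733, 4621, 4645, 4749, 4757, 4765], [[9, 12], [9, 21], [10, 10, 12], [10, 10, 13, 21], [10, 11, 11, 21], [10, 11, 19], [10, 11, 20, 21], [10, 12, 19, 21], [10, 19, 20], [10, 29], [11, 11, 11, 12], [11, 11, 18], [11, 11, 20, 20], [11, 11, 29, 29], [11, 12, 12, 28], [11, 12, 18, 21], [11, 12, 19, 20], [11, 13, 27, 29], [11, 18, 20], [11, 19, 19, 21], [11, 27, 27], [12, 12, 19, 19], [12, 12, 27], [12, 18, 19], [13, 13, 13, 13, 13], [13,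 13, 28, 28], [13, 18, 19, 21], [13, 19, 19, 19], [13, 20, 20, 20], [13, 21, 21, 29], [13, 37], [21, 21, 21, 21], [29, 29, 29], [45]]),
([1162, 1163, 1164, 1165, 1291, 1292, 1293, 1420, 1421, 1549, 2314, 2315, 2316, 2317, 2323, 2324, 2325, 2443, 2444, 2445, 2452, 2453, 2572, 2573, 2581, 2701, 3467, 3468, 3469, 3475, 3476, 3477, 3484, 3485, 3596, 3597, 3604, 3605, 3613, 3725, 3733, 4621, 4645, 4749, 4757, 4765], [[9, 12], [9, 21], [10, 10, 12], [10, 10, 13, 21], [10, 11, 11, 21], [10, 11, 19], [10, 11, 20, 21], [10, 12, 19, 21], [10, 19, 20], [10, 29], [11, 11, 11, 13], [11, 11, 18], [11, 11, 20, 20], [11, 11, 29, 29], [11, 12, 12, 28], [11, 12, 18, 21], [11, 12, 19, 20],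 [11, 13, 27, 29], [11, 18, 20], [11, 19, 19, 21], [11, 27, 27], [12, 12, 19, 19], [12, 12, 27], [12, 18, 19], [13, 13, 13, 13, 13], [13, 13, 27, 27], [13, 13, 29, 29], [13, 18, 21, 21], [13, 19, 19, 20], [13, 37], [21, 21, 21, 21], [29, 29, 29], [45]]),
([1162, 1163, 1164, 1165, 1291, 1292, 1293, 1420, 1421, 1549, 2314, 2315, 2316, 2317, 2323, 2324, 2325, 2443, 2444, 2445, 2452, 2453, 2572, 2573, 2581, 2701, 3467, 3475, 3485, 3596, 3597, 3604, 3605, 3613, 3725, 3733, 4620, 4621, 4628, 4629, 4636, 4637, 4645, 4749, 4757, 4765], [[9, 11], [9, 21], [10, 10, 11], [10, 11, 11, 21], [10, 11, 19], [10, 11, 20, 21], [10, 13, 19, 21], [10, 19, 20], [10, 29], [11, 11, 11, 12], [11,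 11, 18], [11, 11, 29, 29], [11, 12, 12, 28], [11, 12, 18, 21], [11, 12, 19, 20], [11, 13, 20, 20], [11, 18, 20], [11, 19, 19, 21], [11, 37], [12, 19, 19], [13, 13, 13, 13, 13], [13, 13, 28, 28], [13, 19, 19, 19], [13, 27], [21, 21, 21, 21], [29, 29, 29], [37, 37], [45]]),
([1162, 1163, 1164, 1165, 1291, 1292, 1293, 1420, 1421, 1549, 2314, 2315, 2316, 2317, 2323, 2324, 2325, 2443, 2444, 2445, 2452, 2453, 2572, 2573, 2581, 2701, 3467, 3468, 3469, 3475, 3476, 3477, 3484, 3485, 3596, 3597, 3604, 3605, 3613, 3725, 3733, 4620, 4621, 4645, 4749, 4757, 4765], [[9, 10], [9, 21], [10, 10, 11], [10, 11, 11, 21], [10, 11, 19], [10, 11, 20, 21], [10, 12, 19, 21], [10, 19, 20], [10,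 29], [11, 11, 11, 12], [11, 11, 20, 20], [11, 11, 29, 29], [11, 12, 12, 28], [11, 12, 18, 21], [11, 12, 19, 20], [11, 13, 28, 29], [11, 18], [11, 19, 19, 21], [12, 12, 19, 19], [12, 18, 19], [12, 27], [13, 13, 13, 13, 13], [13, 13, 27, 27], [13, 19, 19], [13, 20, 20, 21], [13, 37], [21, 21, 21, 21], [29, 29, 29], [45]]),
([1162, 1163, 1164, 1165, 1291, 1292, 1293, 1420, 1421, 1549, 2314, 2315, 2316, 2317, 2323, 2324, 2325, 2443, 2444, 2445, 2452, 2453, 2572, 2573, 2581, 2701, 3467, 3468, 3469, 3475, 3476, 3477, 3484, 3485, 3596, 3597, 3604, 3605, 3613, 3725, 3733, 4621, 4645, 4749, 4757, 4765], [[9, 10], [9, 21], [10, 10, 11], [10, 11, 11, 21], [10, 11, 20, 21], [10, 12,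 19, 21], [10, 13, 19], [10, 29], [11, 11, 11, 12], [11, 11, 18], [11, 11, 20, 20], [11, 11, 29, 29], [11, 12, 12, 28], [11, 12, 18, 21], [11, 12, 19, 20], [11, 13, 27, 29], [11, 19, 19, 21], [11, 27, 27], [11, 37], [12, 12, 12, 27], [12, 12, 19, 19], [12, 18], [13, 13, 13, 13, 13], [13, 13, 27, 27], [13, 13, 29, 29], [13, 19, 19, 19], [13, 21, 21, 21], [13, 36], [21, 27, 29], [29, 29, 29], [37, 37], [45]]),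
([1162, 1163, 1164, 1165, 1291, 1292, 1293, 1420, 1421, 1549, 2314, 2315, 2316, 2317, 2323, 2324, 2325, 2443, 2444, 2445, 2452, 2453, 2572, 2573, 2581, 2701, 3467, 3468, 3469, 3475, 3477, 3484, 3485, 3596, 3597, 3604, 3605, 3613, 3725, 3733, 4637, 4645, 4749, 4757, 4765], [[9, 11], [9, 21], [10, 10, 11], [10, 11, 11, 21], [10, 11, 20, 21], [10, 12, 19, 21], [10, 13, 19], [10, 29], [11, 11, 11, 12], [11, 11, 18], [11, 11, 20, 20], [11, 11, 29, 29], [11, 12, 12, 28], [11, 12, 18, 21], [11, 12, 19, 20], [11, 13, 27, 29], [11, 18, 20], [11, 19, 19, 21], [11, 37], [12, 12, 12, 27], [12, 12, 19, 19], [12, 18, 19], [12, 27], [13, 13, 13, 13, 13], [13, 13, 27, 27], [13, 13, 29,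 29], [13, 19, 19, 19], [13, 21, 21, 21], [13, 36], [29, 29, 29], [37, 37], [45]])]

theorem p0 : Cov 6 fA kA [[0, 1, 1, 2, 2, 2, 3], [0, 1, 2, 3, 3, 3, 4], [0, 0, 0, 1, 1, 1, 1], [0, 0, 0, 0, 1, 1, 2], [0, 0, 0, 0, 0, 1, 2], [0, 0, 0, 1, 1, 1, 3]] :=
.of2 (.split 0 2 2 1
(.split 3 2 2 1
(.split 4 2 2 1
(.split 5 2 1 1
(.split 0 2 1 1
(.split 1 2 1 1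
(.split 3 2 1 3
(.split 4 2 1 5
(.split 5 2 1 2
(.split 3 0 1 2
(.split 4 0 1 3
(.leaf 0 [0, 1, 0, 1, 1, 1, 1, 1, 1, 1, 1, 1, 1, 1, 1, 1, 15, 1, 1, 1, 1, 1, 1, 1, 1, 1, 1, 1, 15, 1, 2, 0, 3]) (.split 4 1 1 3
(.leaf 0 [0, 1, 0, 1, 1, 1, 1, 1, 1, 1, 1, 1, 1, 1, 1, 1, 15, 1, 1, 1, 1, 4, 1, 1, 1, 3, 1, 1, 15, 1, 2, 0, 3]) (.leaf 1 [3, 0, 0, 1, 1, 1, 1, 1, 3, 1, 1, 1, 2, 1, 1, 1, 2, 1, 2, 2, 3, 1, 1, 1, 2, 4, 2, 2, 4, 1, 2, 2, 2, 5, 2, 1, 3]))) (.split 3 1 1 2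
(.split 4 1 1 3
(.leaf 0 [0, 1, 0, 1, 1, 1, 1, 1, 1, 1, 1, 1, 1, 1, 1, 1, 15, 1, 1, 1, 1, 4, 1, 1, 1, 3, 1, 1, 16, 1, 2, 0, 3]) (.leaf 1 [3, 0, 0, 1, 1, 1, 1, 1, 3, 1, 1, 1, 2, 1, 1, 1, 2, 1, 5, 2, 3, 1, 1, 1, 2, 4, 2, 2, 4, 1, 5, 6, 2, 5, 2, 1, 3])) (.split 3 0 1 1
(.leaf 1 [3, 0, 0, 1, 1, 1, 1, 1, 3, 1, 1, 1, 2, 7, 1, 1, 2, 1, 5, 2, 3, 7, 1, 1, 2, 4, 2, 2, 4, 1, 5, 6, 2, 5, 2, 1, 3]) (.leaf 2 [3, 0, 1, 1, 1, 1, 1, 3, 6, 1, 5, 5, 7, 1, 5, 5, 1, 2, 3, 7, 4, 5, 4, 5, 2, 4, 5, 2, 2, 5, 2, 4, 3])))) (.leaf 3 [0, 3, 0, 1, 0, 3, 1, 3, 1, 7, 3, 7, 7, 3, 3, 3, 3, 7, 4, 3, 3, 3, 5, 2, 5, 3])) (.leaf 3 [0, 3, 0, 3, 0, 3, 3, 3, 1, 7, 3, 7, 7, 3, 3, 3, 3, 7, 4, 3, 3, 3, 5, 2, 2, 3]))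 (.leaf 3 [0, 3, 0, 3, 0, 3, 3, 3, 1, 7, 3, 7, 7, 3, 3, 3, 3, 7, 4, 3, 3, 3, 5, 2, 2, 3])) (.leaf 3 [0, 3, 0, 3, 0, 3, 0, 3, 1, 7, 0, 7, 7, 3, 0, 3, 3, 7, 4, 3, 3, 0, 5, 2, 3, 3])) (.leaf 3 [0, 3, 0, 0, 0, 3, 0, 3, 1, 0, 0, 7, 0, 3, 0, 3, 3, 0, 4, 3, 3, 0, 5, 2, 3, 3])) (.leaf 3 [0, 3, 0, 0, 0, 3, 0, 3, 1, 0, 0, 0, 0, 0, 0, 3, 3, 0, 0, 3, 3, 0, 5, 2, 3, 3])) (.leaf 3 [0, 3, 0, 0, 0, 3, 0, 3, 1, 0, 0, 0, 0, 0, 0, 0, 3, 0, 0, 3, 3, 0, 5, 2, 3, 3])) (.leaf 3 [0, 3, 0, 0, 0, 3, 0, 3, 1, 0, 0, 0, 0, 0, 0, 0, 3, 0, 0, 3, 3, 0, 5, 2, 3, 3])) (.leaf 3 [0, 3, 0, 0, 0, 0, 0, 3, 1, 0, 0, 0, 0, 0, 0, 0, 3, 0, 0, 3, 3, 0, 0, 2, 3, 3]))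
  (by decide +kernel)

theorem p1 : Cov 6 fA kA [[0, 1, 2, 3, 4, 4, 6], [0, 1, 5, 6, 7, 7, 9], [0, 0, 0, 1, 1, 1, 1], [0, 0, 0, 0, 1, 1, 2], [0, 2, 4, 6, 6, 9, 14], [0, 0, 0, 1, 1, 1, 3]] :=
.of2 (.split 4 3 1 2
(.split 0 2 1 3
(.split 1 2 1 3
(.split 3 2 1 2
(.split 4 2 1 21
(.split 5 2 1 3
(.split 0 4 5 2
(.split 1 4 5 8
(.leaf 2 [5, 0, 1, 1, 1, 1, 1, 5, 5, 1, 5, 5, 5, 1, 5, 5, 1, 2, 5, 5, 4, 5, 4, 5, 5, 4, 5, 5, 2, 5, 2, 4, 3]) (.split 1 5 1 2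
(.split 0 1 1 9
(.split 4 1 1 51
(.split 3 0 9 2
(.leaf 2 [1, 0, 1, 1, 1, 1, 1, 1, 6, 1, 1, 1, 1, 1, 1, 1, 1, 16, 1, 1, 1, 1, 4, 1, 1, 1, 1, 1, 16, 5, 2, 0, 3]) (.split 3 1 3 2
(.leaf 2 [5, 0, 1, 1, 1, 1, 1, 1, 6, 1, 5, 1, 1, 1, 5, 1, 1, 16, 1, 1, 1, 5, 4, 1, 1, 1, 1, 5, 16, 5, 2, 0, 3]) (.split 3 4 48 1
(.leaf 2 [5, 0, 1, 1, 1, 1, 1, 1, 5, 1, 5, 1, 1, 1, 5, 1, 1, 16, 1, 1, 1, 5, 4, 1, 1, 1, 1, 5, 16, 5, 2, 0, 3]) (.leaf 2 [5, 0, 1, 1, 1, 1, 1, 5, 5, 1, 5, 5, 5, 1, 5, 5, 1, 2, 5, 5, 4, 5, 4, 5, 5, 4, 5, 5, 2, 5, 2, 4, 3])))) (.split 3 0 9 2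
(.split 4 0 3 19
(.leaf 2 [1, 0, 1, 1, 1, 1, 1, 1, 5, 1, 1, 1, 1, 1, 1, 1, 1, 16, 1, 1, 1, 1, 4, 1, 1, 1, 1, 1, 16, 5, 2, 0, 3]) (.split 4 1 32 19
(.leaf 2 [1, 0, 1, 1, 1, 1, 1, 1, 5, 1, 1, 1, 1, 1, 1, 1, 1, 16, 1, 1, 1, 1, 4, 1, 1, 1, 1, 1, 16, 5, 2, 0, 3]) (.leaf 2 [5, 0, 1, 1, 1, 1, 1, 1, 5, 1, 1, 1, 1, 1, 1, 1, 1, 2, 1, 1, 1, 1, 4, 1, 5, 1, 5, 5, 2, 5, 2, 1, 3]))) (.split 3 1 48 1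
(.split 4 1 32 19
(.leaf 2 [1, 0, 1, 1, 1, 1, 1, 1, 5, 1, 1, 1, 1, 1, 1, 1, 1, 16, 1, 1, 1, 1, 4, 1, 1, 1, 1, 1, 16, 5, 2, 0, 3]) (.leaf 2 [5, 0, 1, 1, 1, 1, 1, 1, 5, 1, 1, 1, 1, 1, 1, 1, 1, 2, 1, 1, 1, 1, 4, 1, 5, 1, 5, 5, 2, 5, 2, 1, 3])) (.leaf 2 [5, 0, 1, 1, 1, 1, 1, 5, 5, 1, 5, 5, 5, 1, 5, 5, 1, 2, 5, 5, 4, 5, 4, 5, 5, 4, 5, 5, 2, 5, 2, 4, 3])))) (.split 0 1 1 2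
(.split 3 1 9 2
(.split 4 1 3 19
(.leaf 2 [1, 0, 1, 1, 1, 1, 1, 1, 5, 1, 1, 1, 1, 1, 1, 1, 1, 16, 1, 1, 1, 1, 4, 1, 1, 1, 1, 1, 2, 5, 2, 0, 3]) (.leaf 2 [5, 0, 1, 1, 1, 1, 1, 1, 5, 1, 1, 1, 1, 1, 1, 1, 1, 2, 1, 1, 1, 1, 4, 1, 5, 1, 5, 5, 2, 5, 2, 1, 3])) (.leaf 2 [5, 0, 1, 1, 1, 1, 1, 5, 5, 1, 5, 5, 5, 1, 5, 5, 1, 2, 5, 5, 4, 5, 4, 5, 5, 4, 5, 5, 2, 5, 2, 4, 3])) (.leaf 2 [5, 0, 1, 1, 1, 1, 1, 5, 5, 1, 5, 5, 5, 1, 5, 5, 1, 2, 5, 5, 4, 5, 4, 5, 5, 4, 5, 5, 2, 5, 2, 4, 3]))) (.leaf 2 [5, 1, 1, 1, 1, 1, 1, 4, 6, 1, 5, 4, 4, 1, 5, 4, 1, 4, 4, 4, 4, 5, 4, 4, 5, 4, 5, 5, 4, 5, 2, 4, 3]))) (.split 0 5 2 1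
(.split 1 5 1 2
(.split 3 1 3 2
(.split 4 1 1 6
(.leaf 2 [3, 0, 1, 1, 1, 1, 1, 1, 6, 1, 5, 1, 1, 1, 5, 1, 1, 16, 1, 1, 1, 5, 4, 1, 1, 1, 1, 5, 16, 5, 2, 0, 3]) (.leaf 2 [3, 0, 1, 1, 1, 1, 1, 1, 6, 1, 5, 1, 1, 1, 5, 1, 1, 2, 1, 1, 1, 5, 4, 1, 5, 1, 1, 5, 2, 5, 2, 1, 3])) (.leaf 2 [3, 0, 1, 1, 1, 1, 1, 7, 2, 1, 5, 5, 7, 1, 5, 5, 1, 2, 7, 7, 4, 5, 4, 5, 5, 4, 5, 5, 2, 5, 2, 4, 3])) (.leaf 2 [3, 1, 1, 1, 1, 1, 1, 4, 6, 1, 5, 4, 4, 1, 5, 4, 1, 4, 4, 4, 4, 5, 4, 4, 5, 4, 5, 5, 4, 5, 2, 4, 3])) (.leaf 2 [3, 1, 1, 1, 1, 1, 1, 4, 4, 1, 4, 4, 4, 1, 4, 4, 1, 4, 4, 4, 4, 4, 4, 4, 5, 4, 4, 5, 4, 5, 2, 4, 3]))) (.leaf 2 [3, 1, 1, 3, 1, 1, 3, 3, 6, 3, 5, 5, 7, 1, 5, 5, 3, 3, 3, 7, 3,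 5, 4, 5, 5, 3, 5, 5, 3, 5, 2, 2, 3])) (.leaf 2 [3, 5, 1, 3, 1, 1, 3, 3, 6, 3, 5, 5, 7, 1, 5, 5, 3, 3, 3, 7, 3, 5, 4, 5, 5, 3, 5, 5, 3, 5, 2, 3, 3])) (.leaf 2 [3, 5, 1, 3, 5, 5, 3, 3, 6, 3, 5, 5, 7, 5, 5, 5, 3, 3, 3, 7, 3, 5, 4, 5, 5, 3, 5, 5, 3, 5, 2, 3, 3])) (.leaf 2 [3, 3, 1, 3, 5, 5, 3, 3, 6, 3, 5, 5, 7, 5, 5, 5, 3, 3, 3, 7, 3, 5, 4, 5, 5, 3, 5, 5, 3, 5, 2, 3, 3])) (.leaf 2 [3, 3, 0, 3, 0, 0, 3, 3, 3, 3, 5, 5, 7, 0, 5, 5, 3, 3, 3, 7, 3, 5, 4, 5, 5, 3, 5, 5, 3, 5, 2, 3, 3])) (.split 0 2 2 3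
(.split 1 2 1 3
(.split 3 2 1 6
(.split 4 2 1 5
(.split 3 1 1 3
(.split 4 1 3 5
(.split 0 5 1 1
(.split 1 5 2 7
(.split 3 5 2 17
(.split 4 5 2 35
(.leaf 0 [0, 3, 0, 1, 3, 1, 1, 3, 3, 1, 1, 1, 1, 1, 1, 1, 15, 3, 1, 1, 3, 1, 1, 1, 1, 3, 1, 6, 16, 5, 2, 0, 3]) (.leaf 1 [3, 0, 0, 1, 3, 1, 1, 3, 3, 1, 3, 1, 1, 1, 1, 1, 1, 3, 1, 1, 3, 1, 3, 1, 1, 4, 1, 1, 3, 1, 1, 6, 1, 5, 1, 0, 3])) (.leaf 1 [3, 0, 0, 1, 3, 1, 1, 3, 3, 1, 3, 1, 1, 1, 1, 1, 1, 3, 1, 1, 3, 1, 3, 1, 1, 4, 1, 1, 3, 1, 1, 6, 1, 5, 1, 0, 3])) (.leaf 1 [3, 1, 0, 1, 3, 1, 1, 3, 3, 1, 3, 1, 1, 1, 1, 1, 1, 3, 1, 1, 3, 1, 3, 1, 1, 4, 1, 1, 3, 1, 1, 6, 1, 5, 1, 0, 3])) (.leaf 2 [3, 1, 1, 1, 1, 1, 1, 3, 4, 1, 1, 1, 1, 1,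 1, 1, 1, 1, 3, 1, 3, 1, 4, 1, 1, 3, 1, 1, 1, 4, 1, 0, 3])) (.leaf 1 [3, 0, 0, 1, 3, 1, 1, 3, 3, 1, 3, 1, 1, 1, 1, 1, 1, 3, 1, 2, 3, 1, 3, 1, 2, 4, 1, 1, 3, 1, 1, 6, 5, 5, 2, 0, 3])) (.leaf 1 [3, 0, 0, 1, 3, 1, 1, 3, 3, 1, 3, 1, 1, 1, 1, 1, 1, 3, 1, 2, 3, 1, 3, 1, 2, 4, 1, 5, 3, 1, 1, 6, 5, 5, 2, 2, 3])) (.leaf 1 [3, 5, 0, 1, 3, 1, 1, 3, 3, 1, 3, 1, 0, 1, 1, 1, 0, 3, 1, 0, 3, 1, 3, 1, 0, 4, 0, 0, 3, 5, 1, 6, 5, 5, 2, 3, 3])) (.leaf 1 [3, 5, 0, 1, 3, 1, 1, 3, 3, 1, 3, 1, 0, 1, 1, 1, 0, 3, 1, 0, 3, 1, 3, 1, 0, 4, 0, 0, 3, 5, 1, 6, 5, 5, 2, 3, 3])) (.leaf 1 [3, 3, 0, 1, 3, 1, 1, 3, 3, 1, 3, 1, 0, 1, 1, 1, 0, 3, 1, 0, 3, 1, 3, 1, 0, 4, 0, 0, 3, 5, 1, 6, 0, 5, 0, 3, 3])) (.leaf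 2 [3, 3, 0, 3, 0, 0, 3, 3, 3, 3, 0, 0, 1, 0, 0, 0, 3, 0, 3, 1, 3, 0, 4, 0, 0, 3, 0, 0, 0, 0, 0, 3, 3])))
  (by decide +kernel)

theorem p2 : Cov 6 fA kA [[0, 1, 2, 3, 4, 4, 6], [0, 1, 5, 6, 6, 6, 7], [0, 0, 0, 1, 1, 1, 1], [0, 1, 5, 6, 7, 7, 9], [0, 2, 4, 6, 6, 9, 14], [0, 0, 0, 1, 1, 1, 3]] :=
.of2 (.split 0 2 1 3
(.split 1 2 1 1
(.split 3 2 1 3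
(.split 4 2 1 17
(.split 5 2 1 3
(.split 0 5 2 1
(.split 1 5 2 9
(.split 3 5 2 7
(.leaf 0 [0, 1, 0, 1, 1, 1, 1, 1, 1, 1, 1, 1, 1, 1, 1, 1, 15, 1, 1, 1, 1, 4, 1, 1, 5, 3, 1, 1, 16, 5, 2, 0, 3]) (.leaf 1 [3, 1, 0, 1, 1, 1, 1, 1, 1, 1, 1, 1, 1, 1, 1, 1, 1, 1, 1, 1, 1, 1, 1, 1, 1, 4, 1, 1, 1, 1, 1, 1, 4, 5, 2, 0, 3])) (.leaf 1 [3, 1, 1, 1, 1, 1, 1, 1, 1, 1, 1, 1, 1, 1, 1, 1, 1, 1, 1, 1, 1, 1, 1, 1, 1, 4, 1, 1, 1, 1, 1, 1, 4, 5, 2, 0, 3])) (.leaf 1 [3, 1, 1, 1, 1, 1, 1, 1, 1, 1, 1, 1, 1, 1, 1, 1, 1, 1, 1, 1, 1, 1, 1, 1, 1, 4, 1, 1, 1, 1, 1, 1, 4, 4, 4, 0, 3])) (.leaf 4 [3, 3, 1, 1, 1, 8, 1, 1, 8, 3, 1, 8, 1, 1, 1, 1, 1, 1, 8, 1, 3, 1, 3, 8, 4, 1, 1, 1, 1, 5, 3, 5, 2, 3])) (.leaf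 4 [3, 3, 8, 1, 1, 8, 1, 1, 8, 3, 1, 8, 1, 1, 1, 1, 1, 1, 8, 1, 3, 1, 3, 8, 4, 1, 1, 1, 1, 5, 3, 5, 2, 3])) (.leaf 4 [3, 3, 9, 1, 1, 8, 1, 1, 8, 3, 1, 8, 1, 1, 1, 1, 1, 1, 8, 1, 3, 1, 3, 8, 4, 1, 1, 1, 1, 5, 3, 5, 2, 3])) (.leaf 4 [3, 3, 9, 1, 1, 8, 1, 1, 8, 3, 1, 8, 1, 1, 1, 1, 1, 1, 8, 1, 3, 1, 3, 8, 4, 1, 1, 1, 1, 5, 3, 5, 2, 3])) (.leaf 4 [3, 3, 9, 1, 1, 8, 1, 1, 8, 3, 1, 8, 1, 1, 1, 1, 1, 1, 8, 1, 3, 1, 3, 8, 4, 1, 0, 1, 1, 5, 3, 5, 2, 3]))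
  (by decide +kernel)

theorem p3 : Cov 6 fA kA [[0, 1, 2, 3, 3, 3, 4], [0, 1, 5, 6, 6, 6, 7], [0, 0, 0, 1, 1, 1, 1], [0, 1, 2, 3, 4, 4, 6], [0, 2, 4, 6, 6, 9, 14], [0, 0, 0, 1, 1, 1, 3]] :=
.of2 (.split 0 2 1 1
(.split 1 2 1 1
(.split 3 2 1 3
(.split 4 2 1 17
(.split 5 2 1 3
(.split 0 5 2 3
(.split 1 5 2 9
(.split 3 5 2 1
(.leaf 0 [0, 1, 0, 1, 1, 1, 1, 1, 1, 1, 1, 1, 1, 1, 1, 1, 15, 1, 1, 1, 1, 4, 1, 1, 5, 3, 1, 1, 16, 5, 2, 0, 3]) (.leaf 1 [3, 0, 0, 1, 1, 1, 1, 1, 1, 1, 1, 1, 1, 1, 1, 1, 1, 1, 1, 1, 1, 1, 1, 1, 1, 4, 1, 1, 1, 1, 1, 1, 4, 5, 2, 0, 3])) (.leaf 1 [3, 1, 1, 1, 1, 1, 1, 1, 1, 1, 1, 1, 1, 1, 1, 1, 1, 1, 1, 1, 1, 1, 1, 1, 1, 4, 1, 1, 1, 1, 1, 1, 4, 5, 2, 0,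 3])) (.leaf 1 [3, 1, 1, 1, 1, 1, 1, 1, 1, 1, 1, 1, 1, 1, 1, 1, 1, 1, 1, 1, 1, 1, 1, 1, 1, 4, 1, 1, 1, 1, 1, 1, 4, 4, 2, 0, 3])) (.leaf 4 [3, 3, 1, 1, 1, 8, 1, 1, 8, 3, 1, 8, 1, 1, 1, 1, 1, 1, 8, 1, 3, 1, 3, 8, 4, 1, 1, 1, 1, 5, 3, 5, 2, 3])) (.leaf 4 [3, 3, 8, 1, 1, 8, 1, 1, 8, 3, 1, 8, 1, 1, 1, 1, 1, 1, 8, 1, 3, 1, 3, 8, 4, 1, 1, 1, 1, 5, 3, 5, 2, 3])) (.leaf 4 [3, 3, 9, 1, 1, 8, 1, 1, 8, 3, 1, 8, 1, 1, 1, 1, 1, 1, 8, 1, 3, 1, 3, 8, 4, 1, 1, 1, 1, 5, 3, 5, 2, 3])) (.leaf 4 [3, 3, 9, 1, 1, 8, 1, 1, 8, 3, 1, 8, 1, 0, 1, 1, 1, 0, 8, 1, 0, 1, 3, 8, 4, 0, 1, 1, 1, 0, 3, 8, 0, 3])) (.leaf 4 [3, 3, 9, 1, 1, 8, 1, 1, 8, 3, 1, 8, 1, 0, 1, 1, 1, 0, 8, 1, 0, 1, 3, 8, 4, 0, 0, 1,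 1, 0, 3, 0, 0, 3]))
  (by decide +kernel)

theorem p4 : Cov 6 fA kA [[0, 9, 39, 88, 96, 99, 119], [0, 1, 5, 7, 7, 7, 8], [0, 0, 0, 1, 1, 1, 1], [0, 0, 0, 2, 3, 3, 4], [0, 3, 15, 30, 30, 31, 37], [0, 0, 0, 4, 4, 4, 6]] :=
.of2 (.split 1 3 1 1
(.split 4 3 3 8
(.split 3 0 1 1
(.split 0 5 2 47
(.split 1 5 2 7
(.split 3 5 2 45
(.split 4 5 2 53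
(.leaf 0 [0, 1, 0, 1, 1, 1, 1, 1, 1, 1, 1, 1, 1, 1, 1, 1, 15, 1, 1, 1, 1, 1, 1, 1, 1, 3, 1, 6, 16, 5, 2, 0, 3]) (.leaf 1 [1, 1, 0, 1, 1, 1, 1, 1, 1, 1, 1, 1, 1, 1, 1, 1, 1, 1, 1, 1, 1, 1, 1, 1, 1, 4, 1, 1, 1, 1, 1, 6, 1, 5, 1, 0, 3])) (.leaf 1 [1, 1, 0, 1, 1, 1, 1, 1, 1, 1, 1, 1, 1, 1, 1, 1, 1, 1, 1, 1, 1, 1, 1, 1, 1, 4, 1, 1, 1, 1, 1, 6, 1, 5, 1, 0, 3])) (.leaf 1 [1, 1, 0, 1, 1, 1, 1, 1, 1, 1, 1, 1, 1, 1, 1, 1, 1, 1, 1, 1, 1, 1, 1, 1, 1, 4, 1, 1, 1, 1, 1, 6, 1, 5, 1, 0, 3])) (.leaf 1 [1, 1, 0, 1, 1, 1, 1, 1, 1, 1, 1, 1, 1, 1, 1, 1, 1, 1, 1, 1, 1, 1, 1, 1, 1, 4, 1, 1, 1, 1, 1, 6, 1, 5, 1, 0, 3])) (.split 3 4 1 1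
(.split 0 5 2 45
(.split 1 5 2 7
(.split 3 5 2 51
(.split 4 5 2 53
(.leaf 0 [0, 1, 0, 1, 1, 1, 1, 1, 1, 1, 1, 1, 1, 1, 1, 1, 15, 1, 1, 1, 1, 1, 1, 1, 1, 3, 1, 6, 16, 5, 2, 0, 3]) (.leaf 1 [1, 1, 0, 1, 1, 1, 1, 1, 1, 1, 1, 1, 1, 1, 1, 1, 1, 1, 1, 1, 1, 1, 1, 1, 1, 4, 1, 1, 1, 1, 1, 6, 1, 5, 1, 0, 3])) (.leaf 1 [1, 1, 0, 1, 1, 1, 1, 1, 1, 1, 1, 1, 1, 1, 1, 1, 1, 1, 1, 1, 1, 1, 1, 1, 1, 4, 1, 1, 1, 1, 1, 6, 1, 5, 1, 0, 3])) (.leaf 1 [1, 1, 0, 1, 1, 1, 1, 1, 1, 1, 1, 1, 1, 1, 1, 1, 1, 1, 1, 1, 1, 1, 1, 1, 1, 4, 1, 1, 1, 1, 1, 6, 1, 5, 1, 0, 3])) (.leaf 1 [1, 1, 0, 1, 1, 1, 1, 1, 1, 1, 1, 1, 1, 1, 1, 1, 1, 1, 1, 1, 1, 1, 1, 1, 1, 4, 1, 1, 1, 1, 1, 6, 1, 5, 1, 0, 3])) (.split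 0 3 2 45
(.split 1 3 2 7
(.split 4 3 2 51
(.leaf 2 [5, 0, 1, 1, 1, 1, 1, 5, 5, 1, 5, 5, 5, 1, 5, 5, 1, 2, 5, 5, 4, 5, 4, 5, 5, 4, 5, 5, 2, 5, 2, 4, 3]) (.split 4 5 2 51
(.leaf 2 [5, 0, 1, 1, 1, 1, 1, 5, 5, 1, 5, 1, 5, 1, 5, 1, 1, 16, 5, 5, 4, 5, 4, 1, 5, 4, 5, 5, 16, 5, 2, 1, 3]) (.leaf 2 [5, 1, 1, 1, 1, 1, 1, 5, 5, 1, 5, 1, 5, 1, 5, 1, 1, 1, 5, 5, 4, 5, 4, 1, 4, 4, 5, 5, 1, 5, 5, 1, 3]))) (.split 1 5 2 7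
(.split 4 5 2 51
(.leaf 2 [5, 0, 1, 1, 1, 1, 1, 5, 6, 1, 5, 1, 5, 1, 5, 1, 1, 16, 5, 5, 4, 5, 4, 1, 5, 4, 5, 5, 16, 5, 2, 1, 3]) (.leaf 2 [5, 1, 1, 1, 1, 1, 1, 5, 6, 1, 5, 1, 5, 1, 5, 1, 1, 1, 5, 5, 4, 5, 4, 1, 4, 4, 5, 5, 1, 5, 5, 1, 3])) (.leaf 2 [5, 1, 1, 1, 1, 1, 1, 5, 6, 1, 5, 1, 5, 1, 5, 1, 1, 1, 5, 5, 4, 5, 4, 1, 4, 4, 5, 5, 1, 5, 5, 1, 3]))) (.split 0 5 2 45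
(.split 1 5 2 7
(.split 4 5 2 51
(.leaf 2 [5, 0, 1, 1, 1, 1, 1, 5, 6, 1, 5, 1, 5, 1, 5, 1, 1, 16, 5, 5, 4, 5, 4, 1, 5, 4, 5, 5, 16, 5, 2, 1, 3]) (.leaf 2 [5, 1, 1, 1, 1, 1, 1, 5, 6, 1, 5, 1, 5, 1, 5, 1, 1, 1, 5, 5, 4, 5, 4, 1, 4, 4, 5, 5, 1, 5, 5, 1, 3])) (.leaf 2 [5, 1, 1, 1, 1, 1, 1, 5, 6, 1, 5, 1, 5, 1, 5, 1, 1, 1, 5, 5, 4, 5, 4, 1, 4, 4, 5, 5, 1, 5, 5, 1, 3])) (.leaf 2 [5, 1, 1, 1, 1, 1, 1, 5, 6, 1, 5, 1, 5, 1, 5, 1, 1, 1, 5, 5, 4, 5, 4, 1, 4, 4, 5, 5, 1, 5, 5, 1, 3]))))) (.split 0 5 2 47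
(.split 1 5 2 7
(.split 3 5 2 53
(.split 4 5 2 23
(.leaf 0 [0, 1, 0, 1, 1, 1, 1, 1, 1, 1, 1, 1, 1, 1, 1, 1, 15, 1, 1, 1, 1, 1, 1, 1, 1, 3, 1, 1, 16, 1, 2, 0, 3]) (.leaf 1 [1, 1, 0, 1, 1, 1, 1, 1, 1, 1, 1, 1, 1, 1, 1, 1, 1, 1, 1, 1, 1, 1, 1, 1, 1, 1, 1, 1, 1, 1, 1, 1, 1, 1, 1, 0, 3])) (.leaf 1 [1, 1, 0, 1, 1, 1, 1, 1, 1, 1, 1, 1, 1, 1, 1, 1, 1, 1, 1, 1, 1, 1, 1, 1, 1, 4, 1, 1, 1, 1, 1, 1, 1, 1, 1, 0, 3])) (.leaf 1 [1, 1, 0, 1, 1, 1, 1, 1, 1, 1, 1, 1, 1, 1, 1, 1, 1, 1, 1, 1, 1, 1, 1, 1, 1, 4, 1, 1, 1, 1, 1, 1, 1, 1, 1, 0, 3])) (.leaf 1 [1, 1, 0, 1, 1, 1, 1, 1, 1, 1, 1, 1, 1, 1, 1, 1, 1, 1, 1, 1, 1, 1, 1, 1, 1, 4, 1, 1, 1, 1, 1, 1, 1, 1, 1, 0, 3]))) (.split 1 5 1 2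
(.split 3 5 2 1
(.split 4 5 1 4
(.split 0 5 2 47
(.split 1 5 2 5
(.split 3 5 1 6
(.split 4 5 2 15
(.leaf 0 [0, 1, 0, 1, 1, 1, 1, 1, 1, 1, 1, 1, 1, 1, 1, 1, 15, 1, 1, 1, 1, 1, 1, 1, 1, 3, 1, 1, 16, 1, 2, 0, 3]) (.leaf 1 [1, 0, 0, 1, 1, 1, 1, 1, 1, 1, 1, 1, 1, 1, 1, 1, 1, 1, 1, 1, 1, 1, 1, 1, 1, 1, 1, 1, 1, 1, 1, 1, 1, 1, 1, 0, 3])) (.leaf 1 [1, 1, 0, 1, 1, 1, 1, 1, 1, 1, 1, 1, 1, 1, 1, 1, 1, 1, 1, 1, 1, 1, 1, 1, 1, 1, 1, 1, 1, 1, 1, 1, 1, 1, 1, 0, 3])) (.leaf 1 [1, 1, 0, 1, 1, 1, 1, 1, 1, 1, 1, 1, 1, 1, 1, 1, 1, 1, 1, 1, 1, 1, 1, 1, 1, 1, 1, 1, 1, 1, 1, 1, 1, 1, 1, 0, 3])) (.leaf 1 [1, 1, 0, 1, 1, 1, 1, 1, 1, 1, 1, 1, 1, 1, 1, 1, 1, 1, 1, 1, 1, 1, 1, 1, 1, 4, 1, 1, 1, 1,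 1, 1, 1, 1, 1, 0, 3])) (.leaf 1 [1, 1, 0, 1, 1, 1, 1, 1, 1, 1, 1, 1, 1, 1, 1, 1, 1, 1, 1, 1, 1, 1, 1, 1, 1, 4, 1, 1, 1, 1, 1, 1, 1, 1, 1, 0, 1])) (.leaf 1 [1, 1, 0, 1, 1, 1, 1, 1, 1, 1, 1, 1, 1, 1, 1, 1, 1, 1, 1, 1, 1, 1, 1, 1, 1, 4, 1, 1, 1, 1, 1, 1, 1, 1, 1, 0, 1])) (.leaf 1 [1, 1, 1, 1, 1, 1, 1, 1, 1, 1, 1, 1, 1, 1, 1, 1, 1, 1, 1, 1, 1, 1, 1, 1, 1, 4, 1, 1, 1, 1, 1, 1, 1, 1, 1, 0, 1])))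
  (by decide +kernel)

theorem p5 : Cov 6 fA kA [[0, 9, 39, 72, 72, 75, 87], [0, 1, 5, 7, 7, 7, 8], [0, 0, 0, 1, 1, 1, 1], [0, 9, 39, 88, 96, 99, 119], [0, 3, 15, 30, 30, 31, 37], [0, 0, 0, 4, 4, 4, 6]] :=
.of2 (.split 0 5 1 12
(.split 1 5 1 2
(.split 4 5 1 4
(.split 0 5 2 39
(.split 1 5 2 5
(.split 3 5 2 47
(.split 4 5 2 15
(.leaf 0 [0, 1, 0, 1, 1, 1, 1, 1, 1, 1, 1, 1, 1, 1, 1, 1, 15, 1, 1, 1, 1, 1, 1, 1, 1, 3, 1, 1, 16, 1, 2, 0, 3]) (.leaf 1 [1, 0, 0, 1, 1, 1, 1, 1, 1, 1, 1, 1, 1, 1, 1, 1, 1, 1, 1, 1, 1, 1, 1, 1, 1, 1, 1, 1, 1, 1, 1, 1, 1, 1, 1, 0, 3])) (.leaf 1 [1, 1, 0, 1, 1, 1, 1, 1, 1, 1, 1, 1, 1, 1, 1, 1, 1, 1, 1, 1, 1, 1, 1, 1, 1, 4, 1, 1, 1, 1, 1, 1, 1, 1, 1, 0,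 3])) (.leaf 1 [1, 1, 0, 1, 1, 1, 1, 1, 1, 1, 1, 1, 1, 1, 1, 1, 1, 1, 1, 1, 1, 1, 1, 1, 1, 4, 1, 1, 1, 1, 1, 1, 1, 1, 1, 0, 3])) (.leaf 1 [1, 1, 0, 1, 1, 1, 1, 1, 1, 1, 1, 1, 1, 1, 1, 1, 1, 1, 1, 1, 1, 1, 1, 1, 1, 4, 1, 1, 1, 1, 1, 1, 1, 1, 1, 0, 3])) (.leaf 1 [1, 1, 0, 1, 1, 1, 1, 1, 1, 1, 1, 1, 1, 1, 1, 1, 1, 1, 1, 1, 1, 1, 1, 1, 1, 4, 1, 1, 1, 1, 1, 1, 1, 1, 1, 0, 1])) (.leaf 1 [1, 1, 1, 1, 1, 1, 1, 1, 1, 1, 1, 1, 1, 1, 1, 1, 1, 1, 1, 1, 1, 1, 1, 1, 1, 4, 1, 1, 1, 1, 1, 1, 1, 1, 1, 0, 1])) (.leaf 1 [1, 1, 1, 1, 1, 1, 1, 1, 1, 1, 1, 1, 1, 1, 1, 1, 1, 1, 1, 1, 1, 1, 1, 1, 1, 4, 1, 1, 1, 1, 1, 1, 1, 1, 1, 0, 1]))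
  (by decide +kernel)

theorem p6 : Cov 6 fA kA [[0, 18, 78, 270, 333, 339, 426], [0, 3, 15, 30, 30, 31, 37], [0, 0, 0, 1, 1, 1, 1], [0, 0, 0, 2, 3, 3, 4], [0, 0, 0, 9, 9, 10, 13], [0, 0, 0, 4, 4, 4, 6]] :=
.of2 (.split 1 3 2 23
(.leaf 2 [5, 0, 1, 1, 1, 1, 1, 5, 5, 1, 5, 5, 5, 1, 5, 5, 1, 2, 5, 5, 4, 5, 4, 5, 5, 4, 5, 5, 2, 5, 2, 4, 3]) (.split 1 4 4 23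
(.leaf 2 [5, 0, 1, 1, 1, 1, 1, 5, 5, 1, 5, 5, 5, 1, 5, 5, 1, 2, 5, 5, 4, 5, 4, 5, 5, 4, 5, 5, 2, 5, 2, 1, 3]) (.split 1 5 2 23
(.split 0 1 4 11
(.split 3 1 12 11
(.split 4 1 8 7
(.split 0 1 4 97
(.split 3 1 4 115
(.split 4 1 1 23
(.leaf 0 [0, 1, 0, 1, 1, 1, 1, 1, 1, 1, 1, 1, 1, 1, 1, 1, 15, 1, 1, 1, 1, 1, 1, 1, 1, 3, 1, 1, 16, 1, 2, 0, 3]) (.split 4 5 1 184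
(.leaf 0 [0, 1, 0, 1, 1, 1, 1, 1, 1, 1, 1, 1, 1, 1, 1, 1, 15, 1, 1, 1, 1, 1, 1, 1, 1, 3, 1, 1, 16, 5, 2, 0, 3]) (.leaf 1 [1, 0, 0, 1, 1, 1, 1, 1, 1, 1, 1, 1, 1, 1, 1, 1, 1, 1, 1, 5, 1, 1, 1, 1, 5, 1, 1, 1, 1, 1, 1, 1, 1, 5, 5, 0, 3]))) (.split 3 5 1 230
(.split 4 5 1 184
(.split 0 2 1 6486
(.split 1 2 1 7314
(.split 3 2 1 966
(.split 4 2 1 690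
(.split 0 3 23 21
(.split 1 3 1 1
(.split 4 3 1 1
(.leaf 2 [1, 0, 1, 1, 1, 1, 1, 1, 5, 1, 1, 1, 1, 1, 1, 1, 1, 16, 1, 1, 1, 1, 1, 1, 1, 1, 1, 5, 16, 5, 2, 0, 3]) (.leaf 0 [0, 1, 0, 1, 1, 1, 1, 1, 1, 1, 1, 1, 1, 1, 1, 1, 15, 1, 1, 1, 1, 1, 1, 1, 1, 1, 1, 5, 16, 5, 2, 0, 3])) (.leaf 0 [0, 1, 0, 1, 1, 1, 1, 1, 1, 1, 1, 1, 1, 1, 1, 1, 15, 1, 1, 1, 1, 1, 1, 1, 1, 1, 1, 5, 16, 5, 2, 0, 3])) (.leaf 0 [0, 1, 0, 1, 1, 1, 1, 1, 1, 1, 1, 1, 1, 1, 1, 1, 15, 1, 1, 1, 1, 1, 1, 1, 1, 1, 1, 5, 16, 5, 2, 0, 3])) (.leaf 1 [1, 0, 0, 1, 1, 1, 1, 1, 1, 1, 1, 1, 1, 1, 1, 1, 1, 1, 1, 3, 1, 1, 1, 1, 3, 1, 1, 1, 1, 1, 1, 5, 1, 5, 2, 0, 3])) (.leaf 1 [1, 0, 0, 1, 1, 1, 1, 1, 1, 1, 1, 1, 1, 1, 1,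 1, 1, 1, 1, 3, 1, 1, 1, 1, 3, 1, 1, 1, 1, 1, 1, 5, 1, 5, 2, 0, 3])) (.leaf 1 [1, 0, 0, 1, 1, 1, 1, 1, 1, 1, 1, 1, 1, 1, 1, 1, 1, 1, 1, 3, 1, 1, 1, 1, 3, 1, 1, 1, 1, 1, 1, 5, 1, 5, 2, 0, 3])) (.leaf 1 [1, 0, 0, 1, 1, 1, 1, 1, 1, 1, 1, 1, 1, 1, 1, 1, 1, 1, 1, 3, 1, 1, 1, 1, 3, 1, 1, 1, 1, 1, 1, 5, 1, 5, 2, 0, 3])) (.leaf 1 [1, 0, 0, 1, 1, 1, 1, 1, 1, 1, 1, 1, 1, 1, 1, 1, 1, 1, 1, 5, 1, 1, 1, 1, 5, 1, 1, 1, 1, 1, 1, 5, 1, 5, 5, 0, 3])) (.leaf 1 [1, 0, 0, 1, 1, 1, 1, 1, 1, 1, 1, 1, 1, 1, 1, 1, 1, 1, 1, 5, 1, 1, 1, 1, 5, 1, 1, 1, 1, 1, 1, 5, 1, 5, 5, 0, 3]))) (.split 0 5 1 194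
(.split 3 5 1 230
(.split 4 5 1 184
(.split 0 2 1 894
(.split 1 2 1 6486
(.split 3 2 1 966
(.split 4 2 1 690
(.split 0 1 21 19
(.split 3 1 21 23
(.leaf 0 [0, 1, 0, 1, 1, 1, 1, 1, 1, 1, 1, 1, 1, 1, 1, 1, 15, 1, 1, 1, 1, 1, 1, 1, 1, 1, 1, 5, 16, 5, 2, 0, 3]) (.split 3 4 1 1
(.leaf 0 [0, 1, 0, 1, 1, 1, 1, 1, 1, 1, 1, 1, 1, 1, 1, 1, 15, 1, 1, 1, 1, 1, 1, 1, 1, 1, 1, 5, 16, 5, 2, 0, 3]) (.leaf 2 [1, 0, 1, 1, 1, 1, 1, 1, 5, 1, 1, 1, 1, 1, 1, 1, 1, 16, 1, 1, 1, 1, 1, 1, 1, 1, 1, 5, 16, 5, 2, 0, 3]))) (.split 0 4 23 19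
(.split 3 4 1 1
(.leaf 0 [0, 1, 0, 1, 1, 1, 1, 1, 1, 1, 1, 1, 1, 1, 1, 1, 15, 1, 1, 1, 1, 1, 1, 1, 1, 1, 1, 5, 16, 5, 2, 0, 3]) (.leaf 2 [1, 0, 1, 1, 1, 1, 1, 1, 5, 1, 1, 1, 1, 1, 1, 1, 1, 16, 1, 1, 1, 1, 1, 1, 1, 1, 1, 5, 16, 5, 2, 0, 3])) (.leaf 2 [1, 0, 1, 1, 1, 1, 1, 1, 5, 1, 1, 1, 1, 1, 1, 1, 1, 16, 1, 1, 1, 1, 1, 1, 1, 1, 1, 5, 16, 5, 2, 0, 3]))) (.leaf 1 [1, 0, 0, 1, 1, 1, 1, 1, 1, 1, 1, 1, 1, 1, 1, 1, 1, 1, 1, 3, 1, 1, 1, 1, 3, 1, 1, 1, 1, 1, 1, 5, 1, 5, 2, 0, 3])) (.leaf 1 [1, 0, 0, 1, 1, 1, 1, 1, 1, 1, 1, 1, 1, 1, 1, 1, 1, 1, 1, 3, 1, 1, 1, 1, 3, 1, 1, 1, 1, 1, 1, 5, 1, 5, 2, 0, 3])) (.leaf 1 [1, 0, 0, 1, 1, 1, 1, 1, 1, 1, 1, 1, 1, 1, 1, 1, 1, 1, 1, 3, 1, 1, 1,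 1, 3, 1, 1, 1, 1, 1, 1, 5, 1, 5, 2, 0, 3])) (.leaf 2 [1, 0, 1, 1, 1, 1, 1, 1, 3, 1, 1, 1, 1, 1, 1, 1, 1, 3, 1, 1, 1, 1, 1, 1, 1, 1, 5, 5, 3, 5, 2, 0, 3])) (.leaf 1 [1, 0, 0, 1, 1, 1, 1, 1, 1, 1, 1, 1, 1, 1, 1, 1, 1, 1, 1, 5, 1, 1, 1, 1, 5, 1, 1, 1, 1, 1, 1, 5, 1, 5, 5, 0, 3])) (.leaf 1 [1, 0, 0, 1, 1, 1, 1, 1, 1, 1, 1, 1, 1, 1, 1, 1, 1, 1, 1, 5, 1, 1, 1, 1, 5, 1, 1, 1, 1, 1, 1, 5, 1, 5, 5, 0, 3])) (.leaf 1 [1, 0, 0, 1, 1, 1, 1, 1, 1, 1, 1, 1, 1, 1, 1, 1, 1, 1, 1, 5, 1, 1, 1, 1, 5, 1, 1, 1, 1, 1, 1, 5, 1, 5, 5, 0, 3]))) (.leaf 2 [1, 0, 1, 1, 1, 1, 1, 1, 5, 1, 1, 1, 1, 1, 1, 1, 1, 2, 1, 1, 1, 1, 4, 1, 1, 1, 5, 5, 2, 5, 2, 0, 3])) (.leaf 2 [5, 0, 1, 1, 1, 1, 1, 5, 5, 1, 5,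 1, 5, 1, 5, 1, 1, 2, 5, 5, 4, 5, 4, 1, 5, 4, 5, 5, 2, 5, 2, 1, 3])) (.leaf 2 [5, 0, 1, 1, 1, 1, 1, 5, 5, 1, 5, 1, 5, 1, 5, 1, 1, 2, 5, 5, 4, 5, 4, 1, 5, 4, 5, 5, 2, 5, 2, 1, 3])) (.leaf 1 [5, 1, 0, 1, 1, 1, 1, 1, 5, 1, 1, 10, 1, 5, 1, 10, 1, 1, 1, 1, 5, 5, 4, 10, 1, 4, 1, 4, 4, 1, 1, 5, 4, 5, 5, 1, 3]))))
  (by decide +kernel)

theorem p7 : Cov 6 fA kA [[0, 36, 156, 855, 855, 930, 1167], [0, 12, 60, 327, 327, 354, 447], [0, 0, 0, 1, 1, 1, 1], [0, 18, 78, 270, 333, 339, 426], [0, 0, 0, 9, 9, 10, 13], [0, 0, 0, 4, 4, 4, 6]] :=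
.of2 (.leaf 2 [5, 0, 1, 1, 1, 1, 1, 5, 5, 1, 10, 5, 5, 1, 10, 5, 1, 2, 5, 5, 4, 10, 4, 5, 5, 4, 5, 5, 2, 5, 2, 1, 3])
  (by decide +kernel)

theorem p8 : Cov 6 fA kA [[0, 426, 1938, 10336, 10336, 10982, 14212], [0, 6, 30, 152, 152, 154, 212], [0, 0, 0, 1, 1, 1, 1], [0, 18, 78, 270, 333, 339, 426], [0, 12, 60, 327, 327, 354, 447], [0, 0, 0, 4, 4, 4, 6]] :=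
.of2 (.split 3 1 4 11
(.split 4 1 8 7
(.split 0 1 1 55
(.split 3 1 4 97
(.split 4 1 1 23
(.leaf 0 [0, 1, 0, 1, 1, 1, 1, 1, 1, 1, 1, 1, 1, 1, 1, 1, 15, 1, 1, 1, 1, 1, 1, 1, 1, 3, 1, 1, 16, 1, 2, 0, 3]) (.split 4 5 1 184
(.leaf 0 [0, 1, 0, 1, 1, 1, 1, 1, 1, 1, 1, 1, 1, 1, 1, 1, 15, 1, 1, 1, 1, 1, 1, 1, 1, 3, 1, 1, 16, 5, 2, 0, 3]) (.leaf 1 [1, 0, 0, 1, 1, 1, 1, 1, 1, 1, 1, 1, 1, 1, 1, 1, 1, 1, 1, 5, 1, 1, 1, 1, 5, 1, 1, 1, 1, 1, 1, 1, 1, 5, 5, 0, 3]))) (.split 3 5 1 194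
(.split 4 5 1 184
(.split 0 2 1 3588
(.split 1 2 1 6486
(.split 3 2 1 894
(.split 4 2 1 690
(.split 0 3 19 126
(.split 1 3 19 21
(.split 4 3 19 23
(.leaf 2 [1, 0, 1, 1, 1, 1, 1, 1, 5, 1, 1, 1, 1, 1, 1, 1, 1, 16, 1, 1, 1, 1, 1, 1, 1, 1, 1, 5, 16, 5, 2, 0, 3]) (.split 4 5 1 69
(.leaf 0 [0, 1, 0, 1, 1, 1, 1, 1, 1, 1, 1, 1, 1, 1, 1, 1, 15, 1, 1, 1, 1, 1, 1, 1, 1, 1, 1, 5, 16, 5, 2, 0, 3]) (.leaf 0 [0, 1, 0, 1, 1, 1, 1, 1, 1, 1, 1, 1, 1, 1, 1, 1, 15, 1, 1, 1, 1, 1, 1, 1, 1, 1, 1, 5, 5, 5, 2, 0, 3]))) (.split 1 5 1 63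
(.split 4 5 1 69
(.leaf 0 [0, 1, 0, 1, 1, 1, 1, 1, 1, 1, 1, 1, 1, 1, 1, 1, 15, 1, 1, 1, 1, 1, 1, 1, 1, 1, 1, 5, 16, 5, 2, 0, 3]) (.leaf 0 [0, 1, 0, 1, 1, 1, 1, 1, 1, 1, 1, 1, 1, 1, 1, 1, 15, 1, 1, 1, 1, 1, 1, 1, 1, 1, 1, 5, 5, 5, 2, 0, 3])) (.leaf 0 [0, 1, 0, 1, 1, 1, 1, 1, 1, 1, 1, 1, 1, 1, 1, 1, 5, 1, 1, 1, 1, 1, 1, 1, 1, 1, 1, 5, 5, 5, 5, 0, 3]))) (.split 0 5 1 378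
(.split 1 5 1 63
(.split 4 5 1 69
(.leaf 0 [0, 1, 0, 1, 1, 1, 1, 1, 1, 1, 1, 1, 1, 1, 1, 1, 15, 1, 1, 1, 1, 1, 1, 1, 1, 1, 1, 5, 16, 5, 2, 0, 3]) (.leaf 0 [0, 1, 0, 1, 1, 1, 1, 1, 1, 1, 1, 1, 1, 1, 1, 1, 15, 1, 1, 1, 1, 1, 1, 1, 1, 1, 1, 5, 5, 5, 2, 0, 3])) (.leaf 0 [0, 1, 0, 1, 1, 1, 1, 1, 1, 1, 1, 1, 1, 1, 1, 1, 15, 1, 1, 1, 1, 1, 1, 1, 1, 1, 1, 5, 5, 5, 5, 0, 3])) (.leaf 0 [0, 1, 0, 1, 1, 1, 1, 1, 1, 1, 1, 1, 1, 1, 1, 1, 15, 1, 1, 1, 1, 1, 1, 1, 1, 1, 1, 5, 5, 5, 5, 0, 3]))) (.leaf 1 [1, 0, 0, 1, 1, 1, 1, 1, 1, 1, 1, 1, 1, 1, 1, 1, 1, 1, 1, 3, 1, 1, 1, 1, 3, 1, 1, 1, 1, 1, 1, 5, 1, 5, 2, 0, 3])) (.leaf 1 [1, 0, 0, 1, 1, 1, 1, 1, 1, 1, 1, 1, 1, 1, 1, 1, 1, 1, 1, 3, 1,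 1, 1, 1, 3, 1, 1, 1, 1, 1, 1, 5, 1, 5, 2, 0, 3])) (.leaf 1 [1, 0, 0, 1, 1, 1, 1, 1, 1, 1, 1, 1, 1, 1, 1, 1, 1, 1, 1, 3, 1, 1, 1, 1, 3, 1, 1, 1, 1, 1, 1, 5, 1, 5, 2, 0, 3])) (.leaf 1 [1, 0, 0, 1, 1, 1, 1, 1, 1, 1, 1, 1, 1, 1, 1, 1, 1, 1, 1, 3, 1, 1, 1, 1, 3, 1, 1, 1, 1, 1, 1, 5, 1, 5, 2, 0, 3])) (.leaf 1 [1, 0, 0, 1, 1, 1, 1, 1, 1, 1, 1, 1, 1, 1, 1, 1, 1, 1, 1, 5, 1, 1, 1, 1, 5, 1, 1, 1, 1, 1, 1, 5, 1, 5, 5, 0, 3])) (.leaf 1 [1, 0, 0, 1, 1, 1, 1, 1, 1, 1, 1, 1, 1, 1, 1, 1, 1, 1, 1, 5, 1, 1, 1, 1, 5, 1, 1, 1, 1, 1, 1, 5, 1, 5, 5, 0, 3]))) (.split 0 5 1 440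
(.split 3 5 1 194
(.split 4 5 1 184
(.split 0 2 1 1938
(.split 1 2 1 3588
(.split 3 2 1 894
(.split 4 2 1 690
(.split 0 3 19 71
(.split 1 3 19 126
(.split 4 3 19 23
(.leaf 2 [1, 0, 1, 1, 1, 1, 1, 1, 5, 1, 1, 1, 1, 1, 1, 1, 1, 16, 1, 1, 1, 1, 1, 1, 1, 1, 1, 5, 2, 5, 2, 0, 3]) (.split 4 5 1 69
(.leaf 0 [0, 1, 0, 1, 1, 1, 1, 1, 1, 1, 1, 1, 1, 1, 1, 1, 2, 1, 1, 1, 1, 1, 1, 1, 1, 1, 1, 5, 16, 5, 2, 0, 3]) (.leaf 0 [0, 1, 0, 1, 1, 1, 1, 1, 1, 1, 1, 1, 1, 1, 1, 1, 2, 1, 1, 1, 1, 1, 1, 1, 1, 1, 1, 5, 5, 5, 2, 0, 3]))) (.split 1 5 1 378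
(.split 4 5 1 69
(.leaf 0 [0, 1, 0, 1, 1, 1, 1, 1, 1, 1, 1, 1, 1, 1, 1, 1, 15, 1, 1, 1, 1, 1, 1, 1, 1, 1, 1, 5, 16, 5, 2, 0, 3]) (.leaf 0 [0, 1, 0, 1, 1, 1, 1, 1, 1, 1, 1, 1, 1, 1, 1, 1, 15, 1, 1, 1, 1, 1, 1, 1, 1, 1, 1, 5, 5, 5, 2, 0, 3])) (.leaf 0 [0, 1, 0, 1, 1, 1, 1, 1, 1, 1, 1, 1, 1, 1, 1, 1, 15, 1, 1, 1, 1, 1, 1, 1, 1, 1, 1, 5, 5, 5, 5, 0, 3]))) (.split 0 5 1 213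
(.split 1 5 1 378
(.split 4 5 1 69
(.leaf 0 [0, 1, 0, 1, 1, 1, 1, 1, 1, 1, 1, 1, 1, 1, 1, 1, 15, 1, 1, 1, 1, 1, 1, 1, 1, 1, 1, 5, 16, 5, 2, 0, 3]) (.leaf 0 [0, 1, 0, 1, 1, 1, 1, 1, 1, 1, 1, 1, 1, 1, 1, 1, 15, 1, 1, 1, 1, 1, 1, 1, 1, 1, 1, 5, 5, 5, 2, 0, 3])) (.leaf 0 [0, 1, 0, 1, 1, 1, 1, 1, 1, 1, 1, 1, 1, 1, 1, 1, 15, 1, 1, 1, 1, 1, 1, 1, 1, 1, 1, 5, 5, 5, 2, 0, 3])) (.leaf 0 [0, 1, 0, 1, 1, 1, 1, 1, 1, 1, 1, 1, 1, 1, 1, 1, 15, 1, 1, 1, 1, 1, 1, 1, 1, 1, 1, 5, 5, 5, 2, 0, 3]))) (.leaf 1 [1, 0, 0, 1, 1, 1, 1, 1, 1, 1, 1, 1, 1, 1, 1, 1, 1, 1, 1, 3, 1, 1, 1, 1, 3, 1, 1, 1, 1, 1, 1, 5, 1, 5, 2, 0, 3])) (.leaf 1 [1, 0, 0, 1, 1, 1, 1, 1, 1, 1, 1, 1, 1, 1, 1, 1, 1, 1, 1, 3, 1,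 1, 1, 1, 3, 1, 1, 1, 1, 1, 1, 5, 1, 5, 2, 0, 3])) (.leaf 1 [1, 0, 0, 1, 1, 1, 1, 1, 1, 1, 1, 1, 1, 1, 1, 1, 1, 1, 1, 3, 1, 1, 1, 1, 3, 1, 1, 1, 1, 1, 1, 5, 1, 5, 2, 0, 3])) (.leaf 2 [1, 0, 1, 1, 1, 1, 1, 1, 3, 1, 1, 1, 1, 1, 1, 1, 1, 3, 1, 1, 1, 1, 1, 1, 1, 1, 5, 5, 3, 5, 2, 0, 3])) (.leaf 1 [1, 0, 0, 1, 1, 1, 1, 1, 1, 1, 1, 1, 1, 1, 1, 1, 1, 1, 1, 5, 1, 1, 1, 1, 5, 1, 1, 1, 1, 1, 1, 5, 1, 5, 5, 0, 3])) (.leaf 1 [1, 0, 0, 1, 1, 1, 1, 1, 1, 1, 1, 1, 1, 1, 1, 1, 1, 1, 1, 5, 1, 1, 1, 1, 5, 1, 1, 1, 1, 1, 1, 5, 1, 5, 5, 0, 3])) (.leaf 1 [1, 0, 0, 1, 1, 1, 1, 1, 1, 1, 1, 1, 1, 1, 1, 1, 1, 1, 1, 5, 1, 1, 1, 1, 5, 1, 1, 1, 1, 1, 1, 5, 1, 5, 5, 0, 3]))) (.leaf 2 [1, 0, 1, 1, 1,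 1, 1, 1, 5, 1, 1, 1, 1, 1, 1, 1, 1, 2, 1, 1, 1, 1, 4, 1, 1, 1, 5, 5, 2, 5, 2, 0, 3])) (.leaf 2 [5, 0, 1, 1, 1, 1, 1, 5, 5, 1, 10, 1, 5, 1, 10, 1, 1, 2, 5, 5, 4, 10, 4, 1, 5, 4, 5, 5, 2, 5, 2, 1, 3]))
  (by decide +kernel)

theorem p9 : Cov 6 fA kA [[0, 36, 156, 855, 855, 930, 1167], [0, 426, 1938, 10336, 10336, 10982, 14212], [0, 0, 0, 1, 1, 1, 1], [0, 18, 78, 270, 333, 339, 426], [0, 12, 60, 327, 327, 354, 447], [0, 0, 0, 4, 4, 4, 6]] :=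
.of2 (.leaf 2 [5, 0, 1, 1, 1, 1, 1, 5, 5, 1, 10, 1, 5, 1, 10, 1, 1, 2, 5, 5, 4, 10, 4, 1, 5, 4, 5, 5, 2, 5, 2, 1, 3])
  (by decide +kernel)

theorem p10 : Cov 6 fA kA [[0, 36, 156, 855, 855, 930, 1167], [0, 3, 15, 30, 30, 31, 37], [0, 0, 0, 1, 1, 1, 1], [0, 18, 78, 270, 333, 339, 426], [0, 12, 60, 327, 327, 354, 447], [0, 6, 30, 152, 152, 154, 212]] :=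
.of2 (.leaf 1 [5, 1, 0, 1, 1, 1, 1, 1, 5, 1, 1, 10, 1, 5, 1, 10, 1, 1, 1, 1, 5, 5, 4, 10, 1, 4, 1, 4, 4, 1, 1, 5, 4, 5, 5, 1, 3])
  (by decide +kernel)

theorem p11 : Cov 6 fA kA [[0, 18, 78, 396, 396, 402, 552], [0, 6, 30, 152, 152, 154, 212], [0, 0, 0, 1, 1, 1, 1], [0, 378, 1638, 7056, 7686, 7812, 10332], [0, 1134, 4914, 26208, 26208, 27846, 36036], [0, 0, 0, 4, 4, 4, 6]] :=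
.of2 (.split 3 0 8 147
(.split 4 0 1 42
(.leaf 0 [0, 1, 0, 1, 1, 1, 1, 1, 1, 1, 1, 1, 1, 1, 1, 1, 15, 1, 1, 1, 1, 1, 1, 1, 1, 3, 1, 1, 16, 1, 2, 0, 3]) (.split 4 1 1 126
(.leaf 0 [0, 1, 0, 1, 1, 1, 1, 1, 1, 1, 1, 1, 1, 1, 1, 1, 15, 1, 1, 1, 1, 1, 1, 1, 1, 3, 1, 1, 16, 1, 2, 0, 3]) (.split 4 5 1 1008
(.leaf 0 [0, 1, 0, 1, 1, 1, 1, 1, 1, 1, 1, 1, 1, 1, 1, 1, 15, 1, 1, 1, 1, 1, 1, 1, 1, 3, 1, 1, 16, 5, 2, 0, 3]) (.leaf 1 [1, 0, 0, 1, 1, 1, 1, 1, 1, 1, 1, 1, 1, 1, 1, 1, 1, 1, 1, 5, 1, 1, 1, 1, 5, 1, 1, 1, 1, 1, 1, 1, 1, 5, 5, 0, 3])))) (.split 3 1 8 441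
(.split 4 1 1 126
(.leaf 0 [0, 1, 0, 1, 1, 1, 1, 1, 1, 1, 1, 1, 1, 1, 1, 1, 15, 1, 1, 1, 1, 1, 1, 1, 1, 3, 1, 1, 16, 1, 2, 0, 3]) (.split 4 5 1 1008
(.leaf 0 [0, 1, 0, 1, 1, 1, 1, 1, 1, 1, 1, 1, 1, 1, 1, 1, 15, 1, 1, 1, 1, 1, 1, 1, 1, 3, 1, 1, 16, 5, 2, 0, 3]) (.leaf 1 [1, 0, 0, 1, 1, 1, 1, 1, 1, 1, 1, 1, 1, 1, 1, 1, 1, 1, 1, 5, 1, 1, 1, 1, 5, 1, 1, 1, 1, 1, 1, 1, 1, 5, 5, 0, 3]))) (.split 3 5 1 441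
(.split 4 5 1 1008
(.split 0 2 1 29610
(.split 1 2 1 31374
(.split 3 2 1 2268
(.split 4 2 1 4914
(.split 0 3 2 5
(.split 1 3 2 5
(.split 4 3 2 9
(.leaf 2 [1, 0, 1, 1, 1, 1, 1, 1, 5, 1, 1, 1, 1, 1, 1, 1, 1, 16, 1, 1, 1, 1, 1, 1, 1, 1, 1, 1, 16, 5, 2, 0, 3]) (.split 4 5 1 567
(.leaf 0 [0, 1, 0, 1, 1, 1, 1, 1, 1, 1, 1, 1, 1, 1, 1, 1, 15, 1, 1, 1, 1, 1, 1, 1, 1, 1, 1, 5, 16, 5, 2, 0, 3]) (.leaf 0 [0, 1, 0, 1, 1, 1, 1, 1, 1, 1, 1, 1, 1, 1, 1, 1, 15, 1, 1, 1, 1, 1, 1, 1, 1, 1, 1, 5, 5, 5, 2, 0, 3]))) (.split 1 5 1 315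
(.split 4 5 1 567
(.leaf 0 [0, 1, 0, 1, 1, 1, 1, 1, 1, 1, 1, 1, 1, 1, 1, 1, 15, 1, 1, 1, 1, 1, 1, 1, 1, 1, 1, 5, 16, 5, 2, 0, 3]) (.leaf 0 [0, 1, 0, 1, 1, 1, 1, 1, 1, 1, 1, 1, 1, 1, 1, 1, 15, 1, 1, 1, 1, 1, 1, 1, 1, 1, 1, 5, 5, 5, 2, 0, 3])) (.leaf 0 [0, 1, 0, 1, 1, 1, 1, 1, 1, 1, 1, 1, 1, 1, 1, 1, 5, 1, 1, 1, 1, 1, 1, 1, 1, 1, 1, 5, 5, 5, 5, 0, 3]))) (.split 0 5 1 315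
(.split 1 5 1 315
(.split 4 5 1 567
(.leaf 0 [0, 1, 0, 1, 1, 1, 1, 1, 1, 1, 1, 1, 1, 1, 1, 1, 15, 1, 1, 1, 1, 1, 1, 1, 1, 1, 1, 5, 16, 5, 2, 0, 3]) (.leaf 0 [0, 1, 0, 1, 1, 1, 1, 1, 1, 1, 1, 1, 1, 1, 1, 1, 15, 1, 1, 1, 1, 1, 1, 1, 1, 1, 1, 5, 5, 5, 2, 0, 3])) (.leaf 0 [0, 1, 0, 1, 1, 1, 1, 1, 1, 1, 1, 1, 1, 1, 1, 1, 5, 1, 1, 1, 1, 1, 1, 1, 1, 1, 1, 5, 5, 5, 5, 0, 3])) (.leaf 0 [0, 1, 0, 1, 1, 1, 1, 1, 1, 1, 1, 1, 1, 1, 1, 1, 5, 1, 1, 1, 1, 1, 1, 1, 1, 1, 1, 5, 5, 5, 5, 0, 3]))) (.leaf 1 [1, 0, 0, 1, 1, 1, 1, 1, 1, 1, 1, 1, 1, 1, 1, 1, 1, 1, 1, 3, 1, 1, 1, 1, 3, 1, 1, 1, 1, 1, 1, 5, 1, 5, 2, 0, 3])) (.leaf 1 [1, 0, 0, 1, 1, 1, 1, 1, 1, 1, 1, 1, 1, 1, 1, 1, 1, 1, 1, 3, 1,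 1, 1, 1, 3, 1, 1, 1, 1, 1, 1, 5, 1, 5, 2, 0, 3])) (.leaf 1 [1, 0, 0, 1, 1, 1, 1, 1, 1, 1, 1, 1, 1, 1, 1, 1, 1, 1, 1, 3, 1, 1, 1, 1, 3, 1, 1, 1, 1, 1, 1, 5, 1, 5, 2, 0, 3])) (.leaf 1 [1, 0, 0, 1, 1, 1, 1, 1, 1, 1, 1, 1, 1, 1, 1, 1, 1, 1, 1, 3, 1, 1, 1, 1, 3, 1, 1, 1, 1, 1, 1, 5, 1, 5, 2, 0, 3])) (.leaf 1 [1, 0, 0, 1, 1, 1, 1, 1, 1, 1, 1, 1, 1, 1, 1, 1, 1, 1, 1, 5, 1, 1, 1, 1, 5, 1, 1, 1, 1, 1, 1, 5, 1, 5, 5, 0, 3])) (.leaf 1 [1, 0, 0, 1, 1, 1, 1, 1, 1, 1, 1, 1, 1, 1, 1, 1, 1, 1, 1, 5, 1, 1, 1, 1, 5, 1, 1, 1, 1, 1, 1, 5, 1, 5, 5, 0, 3]))))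
  (by decide +kernel)

theorem p12 : Cov 6 fA kA [[0, 1890, 8694, 45360, 45360, 47250, 62748], [0, 6, 30, 152, 152, 154, 212], [0, 0, 0, 1, 1, 1, 1], [0, 378, 1638, 7056, 7686, 7812, 10332], [0, 426, 1938, 10336, 10336, 10982, 14212], [0, 0, 0, 4, 4, 4, 6]] :=
.of2 (.split 3 1 8 441
(.split 4 1 1 55
(.leaf 0 [0, 1, 0, 1, 1, 1, 1, 1, 1, 1, 1, 1, 1, 1, 1, 1, 15, 1, 1, 1, 1, 1, 1, 1, 1, 3, 1, 1, 16, 1, 2, 0, 3]) (.split 4 5 1 440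
(.leaf 0 [0, 1, 0, 1, 1, 1, 1, 1, 1, 1, 1, 1, 1, 1, 1, 1, 15, 1, 1, 1, 1, 1, 1, 1, 1, 3, 1, 1, 16, 5, 2, 0, 3]) (.leaf 1 [1, 0, 0, 1, 1, 1, 1, 1, 1, 1, 1, 1, 1, 1, 1, 1, 1, 1, 1, 5, 1, 1, 1, 1, 5, 1, 1, 1, 1, 1, 1, 1, 1, 5, 5, 0, 3]))) (.split 3 5 1 441
(.split 4 5 1 440
(.split 0 2 1 8694
(.split 1 2 1 31374
(.split 3 2 1 2268
(.split 4 2 1 1938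
(.split 0 3 3 5
(.split 1 3 9 5
(.split 0 3 2 35
(.split 1 3 2 35
(.split 4 3 42 71
(.leaf 2 [1, 0, 1, 1, 1, 1, 1, 1, 5, 1, 1, 1, 1, 1, 1, 1, 1, 16, 1, 1, 1, 1, 1, 1, 1, 1, 1, 1, 16, 5, 2, 0, 3]) (.split 4 5 1 213
(.leaf 0 [0, 1, 0, 1, 1, 1, 1, 1, 1, 1, 1, 1, 1, 1, 1, 1, 15, 1, 1, 1, 1, 1, 1, 1, 1, 1, 1, 5, 16, 5, 2, 0, 3]) (.leaf 0 [0, 1, 0, 1, 1, 1, 1, 1, 1, 1, 1, 1, 1, 1, 1, 1, 15, 1, 1, 1, 1, 1, 1, 1, 1, 1, 1, 5, 5, 5, 2, 0, 3]))) (.split 1 5 1 2205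
(.split 4 5 1 213
(.leaf 0 [0, 1, 0, 1, 1, 1, 1, 1, 1, 1, 1, 1, 1, 1, 1, 1, 15, 1, 1, 1, 1, 1, 1, 1, 1, 1, 1, 5, 16, 5, 2, 0, 3]) (.leaf 0 [0, 1, 0, 1, 1, 1, 1, 1, 1, 1, 1, 1, 1, 1, 1, 1, 15, 1, 1, 1, 1, 1, 1, 1, 1, 1, 1, 5, 5, 5, 2, 0, 3])) (.leaf 0 [0, 1, 0, 1, 1, 1, 1, 1, 1, 1, 1, 1, 1, 1, 1, 1, 5, 1, 1, 1, 1, 1, 1, 1, 1, 1, 1, 5, 5, 5, 5, 0, 3]))) (.split 0 5 1 2205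
(.split 1 5 1 2205
(.split 4 5 1 213
(.leaf 0 [0, 1, 0, 1, 1, 1, 1, 1, 1, 1, 1, 1, 1, 1, 1, 1, 15, 1, 1, 1, 1, 1, 1, 1, 1, 1, 1, 5, 16, 5, 2, 0, 3]) (.leaf 0 [0, 1, 0, 1, 1, 1, 1, 1, 1, 1, 1, 1, 1, 1, 1, 1, 15, 1, 1, 1, 1, 1, 1, 1, 1, 1, 1, 5, 5, 5, 2, 0, 3])) (.leaf 0 [0, 1, 0, 1, 1, 1, 1, 1, 1, 1, 1, 1, 1, 1, 1, 1, 15, 1, 1, 1, 1, 1, 1, 1, 1, 1, 1, 5, 5, 5, 5, 0, 3])) (.leaf 0 [0, 1, 0, 1, 1, 1, 1, 1, 1, 1, 1, 1, 1, 1, 1, 1, 15, 1, 1, 1, 1, 1, 1, 1, 1, 1, 1, 5, 5, 5, 5, 0, 3]))) (.split 1 4 227 315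
(.leaf 0 [0, 1, 0, 1, 1, 1, 1, 1, 1, 1, 1, 1, 1, 1, 1, 1, 15, 1, 1, 1, 1, 1, 1, 1, 1, 1, 1, 5, 16, 5, 2, 0, 3]) (.split 1 5 1 315
(.leaf 0 [0, 1, 0, 1, 1, 1, 1, 1, 1, 1, 1, 1, 1, 1, 1, 1, 15, 1, 1, 1, 1, 1, 1, 1, 1, 1, 1, 5, 16, 5, 2, 0, 3]) (.leaf 0 [0, 1, 0, 1, 1, 1, 1, 1, 1, 1, 1, 1, 1, 1, 1, 1, 5, 1, 1, 1, 1, 1, 1, 1, 1, 1, 1, 5, 1, 5, 1, 0, 3])))) (.split 0 4 227 945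
(.split 1 4 227 315
(.leaf 0 [0, 1, 0, 1, 1, 1, 1, 1, 1, 1, 1, 1, 1, 1, 1, 1, 15, 1, 1, 1, 1, 1, 1, 1, 1, 1, 1, 1, 16, 5, 2, 0, 3]) (.split 1 5 1 315
(.leaf 0 [0, 1, 0, 1, 1, 1, 1, 1, 1, 1, 1, 1, 1, 1, 1, 1, 15, 1, 1, 1, 1, 1, 1, 1, 1, 1, 1, 1, 16, 5, 2, 0, 3]) (.leaf 0 [0, 1, 0, 1, 1, 1, 1, 1, 1, 1, 1, 1, 1, 1, 1, 1, 5, 1, 1, 1, 1, 1, 1, 1, 1, 1, 1, 1, 1, 5, 5, 0, 3]))) (.split 0 5 1 945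
(.split 1 5 1 315
(.leaf 0 [0, 1, 0, 1, 1, 1, 1, 1, 1, 1, 1, 1, 1, 1, 1, 1, 15, 1, 1, 1, 1, 1, 1, 1, 1, 1, 1, 1, 16, 5, 2, 0, 3]) (.leaf 0 [0, 1, 0, 1, 1, 1, 1, 1, 1, 1, 1, 1, 1, 1, 1, 1, 15, 1, 1, 1, 1, 1, 1, 1, 1, 1, 1, 1, 1, 5, 5, 0, 3])) (.leaf 0 [0, 1, 0, 1, 1, 1, 1, 1, 1, 1, 1, 1, 1, 1, 1, 1, 15, 1, 1, 1, 1, 1, 1, 1, 1, 1, 1, 1, 1, 5, 5, 0, 3])))) (.leaf 1 [1, 0, 0, 1, 1, 1, 1, 1, 1, 1, 1, 1, 1, 1, 1, 1, 1, 1, 1, 3, 1, 1, 1, 1, 3, 1, 1, 1, 1, 1, 1, 5, 1, 5, 2, 0, 3])) (.leaf 1 [1, 0, 0, 1, 1, 1, 1, 1, 1, 1, 1, 1, 1, 1, 1, 1, 1, 1, 1, 3, 1, 1, 1, 1, 3, 1, 1, 1, 1, 1, 1, 5, 1, 5, 2, 0, 3])) (.leaf 1 [1, 0, 0, 1, 1, 1, 1, 1, 1, 1, 1, 1, 1, 1, 1, 1, 1, 1, 1, 3, 1, 1,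 1, 1, 3, 1, 1, 1, 1, 1, 1, 5, 1, 5, 2, 0, 3])) (.leaf 1 [1, 0, 0, 1, 1, 1, 1, 1, 1, 1, 1, 1, 1, 1, 1, 1, 1, 1, 1, 3, 1, 1, 1, 1, 3, 1, 1, 1, 1, 1, 1, 5, 1, 5, 2, 0, 3])) (.leaf 1 [1, 0, 0, 1, 1, 1, 1, 1, 1, 1, 1, 1, 1, 1, 1, 1, 1, 1, 1, 5, 1, 1, 1, 1, 5, 1, 1, 1, 1, 1, 1, 5, 1, 5, 5, 0, 3])) (.leaf 1 [1, 0, 0, 1, 1, 1, 1, 1, 1, 1, 1, 1, 1, 1, 1, 1, 1, 1, 1, 5, 1, 1, 1, 1, 5, 1, 1, 1, 1, 1, 1, 5, 1, 5, 5, 0, 3])))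
  (by decide +kernel)

theorem p13 : Cov 6 fA kA [[0, 1134, 4914, 26208, 26208, 27846, 36036], [0, 1890, 8694, 45360, 45360, 47250, 62748], [0, 0, 0, 1, 1, 1, 1], [0, 378, 1638, 7056, 7686, 7812, 10332], [0, 426, 1938, 10336, 10336, 10982, 14212], [0, 0, 0, 4, 4, 4, 6]] :=
.of2 (.split 0 5 1 1008
(.split 3 5 1 441
(.split 4 5 1 440
(.split 0 2 1 4914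
(.split 1 2 1 8694
(.split 3 2 1 2268
(.split 4 2 1 1938
(.split 0 1 1 1
(.split 4 1 189 71
(.split 0 3 9 8
(.split 1 3 3 5
(.split 4 3 3 128
(.split 0 3 1 100
(.split 1 3 2 35
(.split 4 3 1 2428
(.leaf 2 [1, 0, 1, 1, 1, 1, 1, 1, 5, 1, 1, 1, 1, 1, 1, 1, 1, 16, 1, 1, 1, 1, 1, 1, 1, 1, 1, 1, 2, 5, 2, 0, 3]) (.split 4 5 1 305928
(.leaf 0 [0, 1, 0, 1, 1, 1, 1, 1, 1, 1, 1, 1, 1, 1, 1, 1, 15, 1, 1, 1, 1, 1, 1, 1, 1, 1, 1, 5, 16, 5, 2, 0, 3]) (.leaf 0 [0, 1, 0, 1, 1, 1, 1, 1, 1, 1, 1, 1, 1, 1, 1, 1, 15, 1, 1, 1, 1, 1, 1, 1, 1, 1, 1, 5, 5, 5, 5, 0, 3]))) (.split 1 5 1 2205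
(.split 4 5 1 305928
(.leaf 0 [0, 1, 0, 1, 1, 1, 1, 1, 1, 1, 1, 1, 1, 1, 1, 1, 15, 1, 1, 1, 1, 1, 1, 1, 1, 1, 1, 5, 16, 5, 2, 0, 3]) (.leaf 0 [0, 1, 0, 1, 1, 1, 1, 1, 1, 1, 1, 1, 1, 1, 1, 1, 15, 1, 1, 1, 1, 1, 1, 1, 1, 1, 1, 5, 5, 5, 5, 0, 3])) (.leaf 0 [0, 1, 0, 1, 1, 1, 1, 1, 1, 1, 1, 1, 1, 1, 1, 1, 15, 1, 1, 1, 1, 1, 1, 1, 1, 1, 1, 5, 5, 5, 5, 0, 3]))) (.split 0 5 1 12600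
(.split 1 5 1 2205
(.split 4 5 1 305928
(.leaf 0 [0, 1, 0, 1, 1, 1, 1, 1, 1, 1, 1, 1, 1, 1, 1, 1, 15, 1, 1, 1, 1, 1, 1, 1, 1, 1, 1, 5, 16, 5, 2, 0, 3]) (.leaf 0 [0, 1, 0, 1, 1, 1, 1, 1, 1, 1, 1, 1, 1, 1, 1, 1, 15, 1, 1, 1, 1, 1, 1, 1, 1, 1, 1, 5, 5, 5, 5, 0, 3])) (.leaf 0 [0, 1, 0, 1, 1, 1, 1, 1, 1, 1, 1, 1, 1, 1, 1, 1, 15, 1, 1, 1, 1, 1, 1, 1, 1, 1, 1, 5, 5, 5, 5, 0, 3])) (.leaf 0 [0, 1, 0, 1, 1, 1, 1, 1, 1, 1, 1, 1, 1, 1, 1, 1, 15, 1, 1, 1, 1, 1, 1, 1, 1, 1, 1, 5, 5, 5, 5, 0, 3]))) (.split 4 5 1 24192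
(.leaf 0 [0, 1, 0, 1, 1, 1, 1, 1, 1, 1, 1, 1, 1, 1, 1, 1, 15, 1, 1, 1, 1, 1, 1, 1, 1, 1, 1, 1, 15, 5, 2, 0, 3]) (.leaf 0 [0, 1, 0, 1, 1, 1, 1, 1, 1, 1, 1, 1, 1, 1, 1, 1, 15, 1, 1, 1, 1, 1, 1, 1, 1, 1, 1, 1, 1, 5, 1, 0, 3]))) (.split 1 5 1 945
(.split 4 5 1 24192
(.leaf 0 [0, 1, 0, 1, 1, 1, 1, 1, 1, 1, 1, 1, 1, 1, 1, 1, 15, 1, 1, 1, 1, 1, 1, 1, 1, 1, 1, 1, 15, 5, 2, 0, 3]) (.leaf 0 [0, 1, 0, 1, 1, 1, 1, 1, 1, 1, 1, 1, 1, 1, 1, 1, 15, 1, 1, 1, 1, 1, 1, 1, 1, 1, 1, 1, 1, 5, 1, 0, 3])) (.leaf 0 [0, 1, 0, 1, 1, 1, 1, 1, 1, 1, 1, 1, 1, 1, 1, 1, 15, 1, 1, 1, 1, 1, 1, 1, 1, 1, 1, 1, 1, 5, 1, 0, 3]))) (.split 0 5 1 504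
(.split 1 5 1 945
(.split 4 5 1 24192
(.leaf 0 [0, 1, 0, 1, 1, 1, 1, 1, 1, 1, 1, 1, 1, 1, 1, 1, 15, 1, 1, 1, 1, 1, 1, 1, 1, 1, 1, 1, 15, 5, 2, 0, 3]) (.leaf 0 [0, 1, 0, 1, 1, 1, 1, 1, 1, 1, 1, 1, 1, 1, 1, 1, 15, 1, 1, 1, 1, 1, 1, 1, 1, 1, 1, 1, 1, 5, 1, 0, 3])) (.leaf 0 [0, 1, 0, 1, 1, 1, 1, 1, 1, 1, 1, 1, 1, 1, 1, 1, 15, 1, 1, 1, 1, 1, 1, 1, 1, 1, 1, 1, 1, 5, 1, 0, 3])) (.leaf 0 [0, 1, 0, 1, 1, 1, 1, 1, 1, 1, 1, 1, 1, 1, 1, 1, 15, 1, 1, 1, 1, 1, 1, 1, 1, 1, 1, 1, 1, 5, 1, 0, 3]))) (.split 4 3 42 71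
(.split 0 3 1 12
(.split 1 3 1 852
(.leaf 2 [1, 0, 1, 1, 1, 1, 1, 1, 5, 1, 1, 1, 1, 1, 1, 1, 1, 16, 1, 1, 1, 1, 1, 1, 1, 1, 1, 1, 2, 5, 2, 0, 3]) (.split 1 5 1 107352
(.leaf 0 [0, 1, 0, 1, 1, 1, 1, 1, 1, 1, 1, 1, 1, 1, 1, 1, 15, 1, 1, 1, 1, 1, 1, 1, 1, 1, 1, 5, 16, 5, 2, 0, 3]) (.leaf 0 [0, 1, 0, 1, 1, 1, 1, 1, 1, 1, 1, 1, 1, 1, 1, 1, 15, 1, 1, 1, 1, 1, 1, 1, 1, 1, 1, 5, 5, 5, 5, 0, 3]))) (.split 0 5 1 1512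
(.split 1 5 1 107352
(.leaf 0 [0, 1, 0, 1, 1, 1, 1, 1, 1, 1, 1, 1, 1, 1, 1, 1, 15, 1, 1, 1, 1, 1, 1, 1, 1, 1, 1, 5, 16, 5, 2, 0, 3]) (.leaf 0 [0, 1, 0, 1, 1, 1, 1, 1, 1, 1, 1, 1, 1, 1, 1, 1, 15, 1, 1, 1, 1, 1, 1, 1, 1, 1, 1, 5, 5, 5, 5, 0, 3])) (.leaf 0 [0, 1, 0, 1, 1, 1, 1, 1, 1, 1, 1, 1, 1, 1, 1, 1, 15, 1, 1, 1, 1, 1, 1, 1, 1, 1, 1, 5, 5, 5, 5, 0, 3]))) (.leaf 0 [0, 1, 0, 1, 1, 1, 1, 1, 1, 1, 1, 1, 1, 1, 1, 1, 15, 1, 1, 1, 1, 1, 1, 1, 1, 1, 1, 5, 2, 5, 2, 0, 3]))) (.split 0 3 2 9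
(.split 4 3 42 71
(.split 1 3 1 12
(.leaf 2 [1, 0, 1, 1, 1, 1, 1, 1, 5, 1, 1, 1, 1, 1, 1, 1, 1, 16, 1, 1, 1, 1, 1, 1, 1, 1, 1, 1, 2, 5, 2, 0, 3]) (.split 1 5 1 1512
(.leaf 0 [0, 1, 0, 1, 1, 1, 1, 1, 1, 1, 1, 1, 1, 1, 1, 1, 15, 1, 1, 1, 1, 1, 1, 1, 1, 1, 1, 5, 16, 5, 2, 0, 3]) (.leaf 0 [0, 1, 0, 1, 1, 1, 1, 1, 1, 1, 1, 1, 1, 1, 1, 1, 15, 1, 1, 1, 1, 1, 1, 1, 1, 1, 1, 5, 5, 5, 5, 0, 3]))) (.leaf 0 [0, 1, 0, 1, 1, 1, 1, 1, 1, 1, 1, 1, 1, 1, 1, 1, 15, 1, 1, 1, 1, 1, 1, 1, 1, 1, 1, 5, 2, 5, 2, 0, 3])) (.leaf 0 [0, 1, 0, 1, 1, 1, 1, 1, 1, 1, 1, 1, 1, 1, 1, 1, 15, 1, 1, 1, 1, 1, 1, 1, 1, 1, 1, 5, 2, 5, 2, 0, 3]))) (.leaf 1 [1, 0, 0, 1, 1, 1, 1, 1, 1, 1, 1, 1, 1, 1, 1, 1, 1, 1,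 1, 3, 1, 1, 1, 1, 3, 1, 1, 1, 1, 1, 1, 5, 1, 5, 2, 0, 3])) (.leaf 1 [1, 0, 0, 1, 1, 1, 1, 1, 1, 1, 1, 1, 1, 1, 1, 1, 1, 1, 1, 3, 1, 1, 1, 1, 3, 1, 1, 1, 1, 1, 1, 5, 1, 5, 2, 0, 3])) (.leaf 1 [1, 0, 0, 1, 1, 1, 1, 1, 1, 1, 1, 1, 1, 1, 1, 1, 1, 1, 1, 3, 1, 1, 1, 1, 3, 1, 1, 1, 1, 1, 1, 5, 1, 5, 2, 0, 3])) (.leaf 2 [1, 0, 1, 1, 1, 1, 1, 1, 3, 1, 1, 1, 1, 1, 1, 1, 1, 3, 1, 1, 1, 1, 1, 1, 1, 1, 5, 1, 3, 5, 2, 0, 3])) (.leaf 1 [1, 0, 0, 1, 1, 1, 1, 1, 1, 1, 1, 1, 1, 1, 1, 1, 1, 1, 1, 5, 1, 1, 1, 1, 5, 1, 1, 1, 1, 1, 1, 5, 1, 5, 5, 0, 3])) (.leaf 1 [1, 0, 0, 1, 1, 1, 1, 1, 1, 1, 1, 1, 1, 1, 1, 1, 1, 1, 1, 5, 1, 1, 1, 1, 5, 1, 1, 1, 1, 1, 1, 5, 1, 5, 5, 0, 3])) (.leaf 1 [1, 0,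 0, 1, 1, 1, 1, 1, 1, 1, 1, 1, 1, 1, 1, 1, 1, 1, 1, 5, 1, 1, 1, 1, 5, 1, 1, 1, 1, 1, 1, 5, 1, 5, 5, 0, 3]))
  (by decide +kernel)

theorem p14 : Cov 6 fA kA [[0, 1134, 4914, 26208, 26208, 27846, 36036], [0, 426, 1938, 10336, 10336, 10982, 14212], [0, 0, 0, 1, 1, 1, 1], [0, 378, 1638, 7056, 7686, 7812, 10332], [0, 36, 156, 855, 855, 930, 1167], [0, 0, 0, 4, 4, 4, 6]] :=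
.of2 (.leaf 2 [1, 0, 1, 1, 1, 1, 1, 1, 5, 1, 1, 1, 1, 1, 1, 1, 1, 2, 1, 1, 1, 1, 4, 1, 1, 1, 5, 5, 2, 5, 2, 0, 3])
  (by decide +kernel)

theorem p15 : Cov 6 fA kA [[0, 378, 1638, 7056, 7686, 7812, 10332], [0, 6, 30, 152, 152, 154, 212], [0, 0, 0, 1, 1, 1, 1], [0, 18, 78, 270, 333, 339, 426], [0, 36, 156, 855, 855, 930, 1167], [0, 0, 0, 4, 4, 4, 6]] :=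
.of2 (.split 3 1 4 11
(.split 4 1 8 23
(.split 4 0 42 71
(.split 0 1 8 441
(.split 3 1 4 97
(.split 4 1 8 49791
(.leaf 0 [0, 1, 0, 1, 1, 1, 1, 1, 1, 1, 1, 1, 1, 1, 1, 1, 15, 1, 1, 1, 1, 1, 1, 1, 1, 3, 1, 1, 16, 1, 2, 0, 3]) (.split 4 5 1 49791
(.leaf 0 [0, 1, 0, 1, 1, 1, 1, 1, 1, 1, 1, 1, 1, 1, 1, 1, 15, 1, 1, 1, 1, 1, 1, 1, 1, 3, 1, 5, 16, 5, 2, 0, 3]) (.leaf 1 [1, 0, 0, 1, 1, 1, 1, 1, 1, 1, 1, 1, 1, 1, 1, 1, 1, 1, 1, 5, 1, 1, 1, 1, 5, 1, 1, 1, 1, 1, 1, 5, 1, 5, 5, 0, 3]))) (.split 3 5 1 194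
(.split 4 5 1 49791
(.split 0 2 1 31374
(.split 1 2 1 6486
(.split 3 2 1 894
(.split 4 2 1 242424
(.split 0 3 19 105
(.split 1 3 19 21
(.leaf 2 [1, 0, 1, 1, 1, 1, 1, 1, 5, 1, 1, 1, 1, 1, 1, 1, 1, 16, 1, 1, 1, 1, 1, 1, 1, 1, 1, 5, 16, 5, 2, 0, 3]) (.split 1 5 1 63
(.leaf 0 [0, 1, 0, 1, 1, 1, 1, 1, 1, 1, 1, 1, 1, 1, 1, 1, 15, 1, 1, 1, 1, 1, 1, 1, 1, 1, 1, 5, 16, 5, 2, 0, 3]) (.leaf 0 [0, 1, 0, 1, 1, 1, 1, 1, 1, 1, 1, 1, 1, 1, 1, 1, 5, 1, 1, 1, 1, 1, 1, 1, 1, 1, 1, 5, 5, 5, 5, 0, 3]))) (.split 0 5 1 315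
(.split 1 5 1 63
(.leaf 0 [0, 1, 0, 1, 1, 1, 1, 1, 1, 1, 1, 1, 1, 1, 1, 1, 15, 1, 1, 1, 1, 1, 1, 1, 1, 1, 1, 5, 16, 5, 2, 0, 3]) (.leaf 0 [0, 1, 0, 1, 1, 1, 1, 1, 1, 1, 1, 1, 1, 1, 1, 1, 5, 1, 1, 1, 1, 1, 1, 1, 1, 1, 1, 5, 5, 5, 5, 0, 3])) (.leaf 0 [0, 1, 0, 1, 1, 1, 1, 1, 1, 1, 1, 1, 1, 1, 1, 1, 5, 1, 1, 1, 1, 1, 1, 1, 1, 1, 1, 5, 5, 5, 5, 0, 3]))) (.leaf 1 [1, 0, 0, 1, 1, 1, 1, 1, 1, 1, 1, 1, 1, 1, 1, 1, 1, 1, 1, 3, 1, 1, 1, 1, 3, 1, 1, 1, 1, 1, 1, 5, 1, 5, 2, 0, 3])) (.leaf 1 [1, 0, 0, 1, 1, 1, 1, 1, 1, 1, 1, 1, 1, 1, 1, 1, 1, 1, 1, 3, 1, 1, 1, 1, 3, 1, 1, 1, 1, 1, 1, 5, 1, 5, 2, 0, 3])) (.leaf 1 [1, 0, 0, 1, 1, 1, 1, 1, 1, 1, 1, 1, 1, 1, 1, 1, 1, 1, 1, 3, 1, 1, 1, 1,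 3, 1, 1, 1, 1, 1, 1, 5, 1, 5, 2, 0, 3])) (.leaf 1 [1, 0, 0, 1, 1, 1, 1, 1, 1, 1, 1, 1, 1, 1, 1, 1, 1, 1, 1, 3, 1, 1, 1, 1, 3, 1, 1, 1, 1, 1, 1, 5, 1, 5, 2, 0, 3])) (.leaf 1 [1, 0, 0, 1, 1, 1, 1, 1, 1, 1, 1, 1, 1, 1, 1, 1, 1, 1, 1, 5, 1, 1, 1, 1, 5, 1, 1, 1, 1, 1, 1, 5, 1, 5, 5, 0, 3])) (.leaf 1 [1, 0, 0, 1, 1, 1, 1, 1, 1, 1, 1, 1, 1, 1, 1, 1, 1, 1, 1, 5, 1, 1, 1, 1, 5, 1, 1, 1, 1, 1, 1, 5, 1, 5, 5, 0, 3]))) (.split 0 5 1 441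
(.split 3 5 1 194
(.split 4 5 1 49791
(.split 0 2 1 2268
(.split 1 2 1 31374
(.split 3 2 1 894
(.split 4 2 1 242424
(.split 1 0 2 5
(.leaf 2 [1, 0, 1, 1, 1, 1, 1, 1, 5, 1, 1, 1, 1, 1, 1, 1, 1, 16, 1, 1, 1, 1, 1, 1, 1, 1, 1, 5, 16, 5, 2, 0, 3]) (.split 1 3 19 105
(.leaf 2 [1, 0, 1, 1, 1, 1, 1, 1, 5, 1, 1, 1, 1, 1, 1, 1, 1, 16, 1, 1, 1, 1, 1, 1, 1, 1, 1, 5, 16, 5, 2, 0, 3]) (.leaf 0 [0, 1, 0, 1, 1, 1, 1, 1, 1, 1, 1, 1, 1, 1, 1, 1, 15, 1, 1, 1, 1, 1, 1, 1, 1, 1, 1, 5, 16, 5, 2, 0, 3]))) (.leaf 1 [1, 0, 0, 1, 1, 1, 1, 1, 1, 1, 1, 1, 1, 1, 1, 1, 1, 1, 1, 3, 1, 1, 1, 1, 3, 1, 1, 1, 1, 1, 1, 5, 1, 5, 2, 0, 3])) (.leaf 1 [1, 0, 0, 1, 1, 1, 1, 1, 1, 1, 1, 1, 1, 1, 1, 1, 1, 1, 1,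 3, 1, 1, 1, 1, 3, 1, 1, 1, 1, 1, 1, 5, 1, 5, 2, 0, 3])) (.leaf 1 [1, 0, 0, 1, 1, 1, 1, 1, 1, 1, 1, 1, 1, 1, 1, 1, 1, 1, 1, 3, 1, 1, 1, 1, 3, 1, 1, 1, 1, 1, 1, 5, 1, 5, 2, 0, 3])) (.leaf 2 [1, 0, 1, 1, 1, 1, 1, 1, 3, 1, 1, 1, 1, 1, 1, 1, 1, 3, 1, 1, 1, 1, 1, 1, 1, 1, 1, 5, 3, 5, 2, 0, 3])) (.leaf 1 [1, 0, 0, 1, 1, 1, 1, 1, 1, 1, 1, 1, 1, 1, 1, 1, 1, 1, 1, 5, 1, 1, 1, 1, 5, 1, 1, 1, 1, 1, 1, 5, 1, 5, 5, 0, 3])) (.leaf 1 [1, 0, 0, 1, 1, 1, 1, 1, 1, 1, 1, 1, 1, 1, 1, 1, 1, 1, 1, 5, 1, 1, 1, 1, 5, 1, 1, 1, 1, 1, 1, 5, 1, 5, 5, 0, 3])) (.leaf 1 [1, 0, 0, 1, 1, 1, 1, 1, 1, 1, 1, 1, 1, 1, 1, 1, 1, 1, 1, 5, 1, 1, 1, 1, 5, 1, 1, 1, 1, 1, 1, 5, 1, 5, 5, 0, 3]))) (.split 4 1 3 71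
(.split 1 3 19 1
(.split 4 3 19 284
(.leaf 2 [1, 0, 1, 1, 1, 1, 1, 1, 5, 1, 1, 1, 1, 1, 1, 1, 1, 16, 1, 1, 1, 1, 1, 1, 1, 1, 1, 5, 16, 5, 2, 0, 3]) (.split 4 5 1 852
(.leaf 0 [0, 1, 0, 1, 1, 1, 1, 1, 1, 1, 1, 1, 1, 1, 1, 1, 15, 1, 1, 1, 1, 1, 1, 1, 1, 3, 1, 5, 16, 5, 2, 0, 3]) (.leaf 0 [0, 1, 0, 1, 1, 1, 1, 1, 1, 1, 1, 1, 1, 1, 1, 1, 15, 1, 1, 1, 1, 1, 1, 1, 1, 3, 1, 5, 1, 5, 1, 0, 3]))) (.split 1 5 1 3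
(.split 4 5 1 852
(.leaf 0 [0, 1, 0, 1, 1, 1, 1, 1, 1, 1, 1, 1, 1, 1, 1, 1, 15, 1, 1, 1, 1, 1, 1, 1, 1, 3, 1, 5, 16, 5, 2, 0, 3]) (.leaf 0 [0, 1, 0, 1, 1, 1, 1, 1, 1, 1, 1, 1, 1, 1, 1, 1, 15, 1, 1, 1, 1, 1, 1, 1, 1, 3, 1, 5, 1, 5, 1, 0, 3])) (.leaf 0 [0, 1, 0, 1, 1, 1, 1, 1, 1, 1, 1, 1, 1, 1, 1, 1, 15, 1, 1, 1, 1, 1, 1, 1, 1, 3, 1, 5, 1, 5, 1, 0, 3]))) (.split 4 3 19 71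
(.split 1 3 19 284
(.leaf 2 [1, 0, 1, 1, 1, 1, 1, 1, 5, 1, 1, 1, 1, 1, 1, 1, 1, 16, 1, 1, 1, 1, 1, 1, 1, 1, 1, 5, 2, 5, 2, 0, 3]) (.split 1 5 1 852
(.leaf 0 [0, 1, 0, 1, 1, 1, 1, 1, 1, 1, 1, 1, 1, 1, 1, 1, 15, 1, 1, 1, 1, 1, 1, 1, 1, 5, 1, 5, 16, 5, 2, 0, 3]) (.leaf 0 [0, 1, 0, 1, 1, 1, 1, 1, 1, 1, 1, 1, 1, 1, 1, 1, 15, 1, 1, 1, 1, 1, 1, 1, 1, 5, 1, 5, 1, 5, 1, 0, 3]))) (.leaf 0 [0, 1, 0, 1, 1, 1, 1, 1, 1, 1, 1, 1, 1, 1, 1, 1, 15, 1, 1, 1, 1, 1, 1, 1, 1, 5, 1, 5, 2, 5, 2, 0, 3])))) (.leaf 2 [1, 0, 1, 1, 1, 1, 1, 1, 5, 1, 1, 1, 1, 1, 1, 1, 1, 2, 1, 1, 1, 1, 4, 1, 1, 1, 5, 5, 2, 5, 2, 0, 3])) (.leaf 2 [5, 0, 1, 1, 1, 1, 1, 5, 5, 1, 10, 1, 5, 1, 10, 1, 1, 2, 5, 5, 4, 10, 4,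 1, 5, 4, 5, 5, 2, 5, 2, 1, 3]))
  (by decide +kernel)

theorem p16 : Cov 6 fA kA [[0, 18, 78, 396, 396, 402, 552], [0, 3, 15, 30, 30, 31, 37], [0, 0, 0, 1, 1, 1, 1], [0, 18, 78, 270, 333, 339, 426], [0, 36, 156, 855, 855, 930, 1167], [0, 6, 30, 152, 152, 154, 212]] :=
.of2 (.leaf 1 [5, 1, 0, 1, 1, 1, 1, 1, 5, 1, 1, 10, 1, 5, 1, 10, 1, 1, 1, 1, 5, 5, 4, 10, 1, 4, 1, 4, 4, 1, 1, 5, 4, 5, 5, 1, 3])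
  (by decide +kernel)

theorem p17 : Cov 6 fA kA [[0, 9, 39, 72, 72, 75, 87], [0, 3, 15, 30, 30, 31, 37], [0, 0, 0, 1, 1, 1, 1], [0, 18, 78, 270, 333, 339, 426], [0, 36, 156, 855, 855, 930, 1167], [0, 18, 78, 396, 396, 402, 552]] :=
.of2 (.leaf 1 [5, 1, 1, 1, 1, 1, 1, 1, 5, 1, 1, 10, 1, 5, 1, 10, 1, 1, 1, 1, 5, 5, 4, 10, 1, 4, 1, 4, 4, 1, 1, 5, 4, 5, 5, 1, 3])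
  (by decide +kernel)

theorem p18 : Cov 6 fA kA [[0, 6, 12, 132, 132, 148, 184], [0, 9, 39, 261, 261, 285, 360], [0, 0, 0, 1, 1, 1, 1], [0, 0, 0, 2, 3, 3, 4], [0, 0, 0, 9, 9, 10, 13], [0, 0, 0, 4, 4, 4, 6]] :=
.of2 (.leaf 2 [5, 0, 1, 1, 1, 1, 1, 5, 5, 1, 10, 5, 5, 1, 10, 5, 1, 2, 5, 5, 4, 10, 4, 5, 5, 4, 5, 5, 2, 5, 2, 4, 3])
  (by decide +kernel)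

theorem p19 : Cov 6 fA kA [[0, 1260, 4620, 24360, 24360, 25620, 33600], [0, 36, 156, 792, 792, 804, 1104], [0, 0, 0, 1, 1, 1, 1], [0, 36, 156, 672, 732, 744, 984], [0, 756, 3276, 17472, 17472, 18564, 24024], [0, 0, 0, 4, 4, 4, 6]] :=
.of2 (.split 3 1 8 7
(.split 4 1 1 14
(.leaf 0 [0, 1, 0, 1, 1, 1, 1, 1, 1, 1, 1, 1, 1, 1, 1, 1, 15, 1, 1, 1, 1, 1, 1, 1, 1, 3, 1, 1, 16, 1, 2, 0, 3]) (.split 4 5 1 672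
(.leaf 0 [0, 1, 0, 1, 1, 1, 1, 1, 1, 1, 1, 1, 1, 1, 1, 1, 15, 1, 1, 1, 1, 1, 1, 1, 1, 3, 1, 1, 16, 5, 2, 0, 3]) (.leaf 1 [1, 0, 0, 1, 1, 1, 1, 1, 1, 1, 1, 1, 1, 1, 1, 1, 1, 1, 1, 5, 1, 1, 1, 1, 5, 1, 1, 1, 1, 1, 1, 1, 1, 5, 5, 0, 3]))) (.split 3 5 1 42
(.split 4 5 1 672
(.split 0 2 1 4620
(.split 1 2 1 2820
(.split 3 2 1 216
(.split 4 2 1 3276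
(.split 0 3 3 35
(.split 1 3 9 5
(.split 0 3 2 245
(.split 1 3 2 35
(.split 4 3 2 63
(.leaf 2 [1, 0, 1, 1, 1, 1, 1, 1, 5, 1, 1, 1, 1, 1, 1, 1, 1, 16, 1, 1, 1, 1, 1, 1, 1, 1, 1, 1, 16, 5, 2, 0, 3]) (.split 4 5 1 378
(.leaf 0 [0, 1, 0, 1, 1, 1, 1, 1, 1, 1, 1, 1, 1, 1, 1, 1, 15, 1, 1, 1, 1, 1, 1, 1, 1, 1, 1, 5, 16, 5, 2, 0, 3]) (.leaf 0 [0, 1, 0, 1, 1, 1, 1, 1, 1, 1, 1, 1, 1, 1, 1, 1, 15, 1, 1, 1, 1, 1, 1, 1, 1, 1, 1, 5, 5, 5, 2, 0, 3]))) (.split 1 5 1 210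
(.split 4 5 1 378
(.leaf 0 [0, 1, 0, 1, 1, 1, 1, 1, 1, 1, 1, 1, 1, 1, 1, 1, 15, 1, 1, 1, 1, 1, 1, 1, 1, 1, 1, 5, 16, 5, 2, 0, 3]) (.leaf 0 [0, 1, 0, 1, 1, 1, 1, 1, 1, 1, 1, 1, 1, 1, 1, 1, 15, 1, 1, 1, 1, 1, 1, 1, 1, 1, 1, 5, 5, 5, 2, 0, 3])) (.leaf 0 [0, 1, 0, 1, 1, 1, 1, 1, 1, 1, 1, 1, 1, 1, 1, 1, 5, 1, 1, 1, 1, 1, 1, 1, 1, 1, 1, 5, 5, 5, 5, 0, 3]))) (.split 0 5 1 1470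
(.split 1 5 1 210
(.split 4 5 1 378
(.leaf 0 [0, 1, 0, 1, 1, 1, 1, 1, 1, 1, 1, 1, 1, 1, 1, 1, 15, 1, 1, 1, 1, 1, 1, 1, 1, 1, 1, 5, 16, 5, 2, 0, 3]) (.leaf 0 [0, 1, 0, 1, 1, 1, 1, 1, 1, 1, 1, 1, 1, 1, 1, 1, 15, 1, 1, 1, 1, 1, 1, 1, 1, 1, 1, 5, 5, 5, 2, 0, 3])) (.leaf 0 [0, 1, 0, 1, 1, 1, 1, 1, 1, 1, 1, 1, 1, 1, 1, 1, 15, 1, 1, 1, 1, 1, 1, 1, 1, 1, 1, 5, 5, 5, 2, 0, 3])) (.leaf 0 [0, 1, 0, 1, 1, 1, 1, 1, 1, 1, 1, 1, 1, 1, 1, 1, 15, 1, 1, 1, 1, 1, 1, 1, 1, 1, 1, 5, 5, 5, 2, 0, 3]))) (.split 1 4 49 5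
(.leaf 0 [0, 1, 0, 1, 1, 1, 1, 1, 1, 1, 1, 1, 1, 1, 1, 1, 15, 1, 1, 1, 1, 1, 1, 1, 1, 1, 1, 5, 16, 5, 2, 0, 3]) (.split 1 5 1 30
(.leaf 0 [0, 1, 0, 1, 1, 1, 1, 1, 1, 1, 1, 1, 1, 1, 1, 1, 15, 1, 1, 1, 1, 1, 1, 1, 1, 1, 1, 5, 16, 5, 2, 0, 3]) (.leaf 0 [0, 1, 0, 1, 1, 1, 1, 1, 1, 1, 1, 1, 1, 1, 1, 1, 5, 1, 1, 1, 1, 1, 1, 1, 1, 1, 1, 5, 1, 5, 5, 0, 3])))) (.split 0 4 7 15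
(.split 1 4 49 5
(.leaf 0 [0, 1, 0, 1, 1, 1, 1, 1, 1, 1, 1, 1, 1, 1, 1, 1, 15, 1, 1, 1, 1, 1, 1, 1, 1, 1, 1, 1, 16, 5, 2, 0, 3]) (.split 1 5 1 30
(.leaf 0 [0, 1, 0, 1, 1, 1, 1, 1, 1, 1, 1, 1, 1, 1, 1, 1, 15, 1, 1, 1, 1, 1, 1, 1, 1, 1, 1, 1, 16, 5, 2, 0, 3]) (.leaf 0 [0, 1, 0, 1, 1, 1, 1, 1, 1, 1, 1, 1, 1, 1, 1, 1, 5, 1, 1, 1, 1, 1, 1, 1, 1, 1, 1, 1, 1, 5, 5, 0, 3]))) (.split 0 5 1 630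
(.split 1 5 1 30
(.leaf 0 [0, 1, 0, 1, 1, 1, 1, 1, 1, 1, 1, 1, 1, 1, 1, 1, 15, 1, 1, 1, 1, 1, 1, 1, 1, 1, 1, 1, 16, 5, 2, 0, 3]) (.leaf 0 [0, 1, 0, 1, 1, 1, 1, 1, 1, 1, 1, 1, 1, 1, 1, 1, 15, 1, 1, 1, 1, 1, 1, 1, 1, 1, 1, 1, 1, 5, 2, 0, 3])) (.leaf 0 [0, 1, 0, 1, 1, 1, 1, 1, 1, 1, 1, 1, 1, 1, 1, 1, 15, 1, 1, 1, 1, 1, 1, 1, 1, 1, 1, 1, 1, 5, 2, 0, 3])))) (.leaf 1 [1, 0, 0, 1, 1, 1, 1, 1, 1, 1, 1, 1, 1, 1, 1, 1, 1, 1, 1, 3, 1, 1, 1, 1, 3, 1, 1, 1, 1, 1, 1, 5, 1, 5, 2, 0, 3])) (.leaf 1 [1, 0, 0, 1, 1, 1, 1, 1, 1, 1, 1, 1, 1, 1, 1, 1, 1, 1, 1, 3, 1, 1, 1, 1, 3, 1, 1, 1, 1, 1, 1, 5, 1, 5, 2, 0, 3])) (.leaf 1 [1, 0, 0, 1, 1, 1, 1, 1, 1, 1, 1, 1, 1, 1, 1, 1, 1, 1, 1, 3, 1, 1, 1,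 1, 3, 1, 1, 1, 1, 1, 1, 5, 1, 5, 2, 0, 3])) (.leaf 1 [1, 0, 0, 1, 1, 1, 1, 1, 1, 1, 1, 1, 1, 1, 1, 1, 1, 1, 1, 3, 1, 1, 1, 1, 3, 1, 1, 1, 1, 1, 1, 5, 1, 5, 2, 0, 3])) (.leaf 1 [1, 0, 0, 1, 1, 1, 1, 1, 1, 1, 1, 1, 1, 1, 1, 1, 1, 1, 1, 5, 1, 1, 1, 1, 5, 1, 1, 1, 1, 1, 1, 5, 1, 5, 5, 0, 3])) (.leaf 1 [1, 0, 0, 1, 1, 1, 1, 1, 1, 1, 1, 1, 1, 1, 1, 1, 1, 1, 1, 5, 1, 1, 1, 1, 5, 1, 1, 1, 1, 1, 1, 5, 1, 5, 5, 0, 3])))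
  (by decide +kernel)

theorem p20 : Cov 6 fA kA [[0, 168, 588, 3136, 3136, 3332, 4312], [0, 1260, 4620, 24360, 24360, 25620, 33600], [0, 0, 0, 1, 1, 1, 1], [0, 36, 156, 672, 732, 744, 984], [0, 756, 3276, 17472, 17472, 18564, 24024], [0, 0, 0, 4, 4, 4, 6]] :=
.of2 (.split 0 5 1 56
(.split 3 5 1 42
(.split 4 5 1 672
(.split 0 2 1 588
(.split 1 2 1 4620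
(.split 3 2 1 216
(.split 4 2 1 3276
(.split 0 3 27 14
(.split 1 3 3 35
(.split 0 3 1 175
(.split 1 3 2 35
(.split 4 3 2 63
(.split 1 3 1 210
(.leaf 2 [1, 0, 1, 1, 1, 1, 1, 1, 5, 1, 1, 1, 1, 1, 1, 1, 1, 16, 1, 1, 1, 1, 1, 1, 1, 1, 1, 1, 2, 5, 2, 0, 3]) (.split 1 5 1 2520
(.leaf 0 [0, 1, 0, 1, 1, 1, 1, 1, 1, 1, 1, 1, 1, 1, 1, 1, 2, 1, 1, 1, 1, 1, 1, 1, 1, 1, 1, 5, 16, 5, 2, 0, 3]) (.leaf 0 [0, 1, 0, 1, 1, 1, 1, 1, 1, 1, 1, 1, 1, 1, 1, 1, 5, 1, 1, 1, 1, 1, 1, 1, 1, 1, 1, 5, 5, 5, 5, 0, 3]))) (.leaf 0 [0, 1, 0, 1, 1, 1, 1, 1, 1, 1, 1, 1, 1, 1, 1, 1, 2, 1, 1, 1, 1, 1, 1, 1, 1, 1, 1, 5, 2, 5, 2, 0, 3])) (.leaf 0 [0, 1, 0, 1, 1, 1, 1, 1, 1, 1, 1, 1, 1, 1, 1, 1, 15, 1, 1, 1, 1,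 1, 1, 1, 1, 1, 1, 5, 2, 5, 2, 0, 3])) (.leaf 0 [0, 1, 0, 1, 1, 1, 1, 1, 1, 1, 1, 1, 1, 1, 1, 1, 15, 1, 1, 1, 1, 1, 1, 1, 1, 1, 1, 5, 2, 5, 2, 0, 3])) (.split 1 4 7 15
(.leaf 0 [0, 1, 0, 1, 1, 1, 1, 1, 1, 1, 1, 1, 1, 1, 1, 1, 15, 1, 1, 1, 1, 1, 1, 1, 1, 1, 1, 1, 2, 5, 2, 0, 3]) (.split 1 5 1 630
(.leaf 0 [0, 1, 0, 1, 1, 1, 1, 1, 1, 1, 1, 1, 1, 1, 1, 1, 15, 1, 1, 1, 1, 1, 1, 1, 1, 1, 1, 1, 2, 5, 2, 0, 3]) (.leaf 0 [0, 1, 0, 1, 1, 1, 1, 1, 1, 1, 1, 1, 1, 1, 1, 1, 15, 1, 1, 1, 1, 1, 1, 1, 1, 1, 1, 1, 1, 5, 2, 0, 3])))) (.split 0 4 21 2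
(.split 1 4 7 15
(.leaf 0 [0, 1, 0, 1, 1, 1, 1, 1, 1, 1, 1, 1, 1, 1, 1, 1, 15, 1, 1, 1, 1, 1, 1, 1, 1, 1, 1, 1, 2, 5, 2, 0, 3]) (.split 1 5 1 630
(.leaf 0 [0, 1, 0, 1, 1, 1, 1, 1, 1, 1, 1, 1, 1, 1, 1, 1, 15, 1, 1, 1, 1, 1, 1, 1, 1, 1, 1, 1, 2, 5, 2, 0, 3]) (.leaf 0 [0, 1, 0, 1, 1, 1, 1, 1, 1, 1, 1, 1, 1, 1, 1, 1, 15, 1, 1, 1, 1, 1, 1, 1, 1, 1, 1, 1, 1, 5, 2, 0, 3]))) (.split 0 5 1 28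
(.split 1 5 1 630
(.leaf 0 [0, 1, 0, 1, 1, 1, 1, 1, 1, 1, 1, 1, 1, 1, 1, 1, 15, 1, 1, 1, 1, 1, 1, 1, 1, 1, 1, 1, 2, 5, 2, 0, 3]) (.leaf 0 [0, 1, 0, 1, 1, 1, 1, 1, 1, 1, 1, 1, 1, 1, 1, 1, 15, 1, 1, 1, 1, 1, 1, 1, 1, 1, 1, 1, 1, 5, 2, 0, 3])) (.leaf 0 [0, 1, 0, 1, 1, 1, 1, 1, 1, 1, 1, 1, 1, 1, 1, 1, 15, 1, 1, 1, 1, 1, 1, 1, 1, 1, 1, 1, 1, 5, 2, 0, 3])))) (.leaf 1 [1, 0, 0, 1, 1, 1, 1, 1, 1, 1, 1, 1, 1, 1, 1, 1, 1, 1, 1, 3, 1, 1, 1, 1, 3, 1, 1, 1, 1, 1, 1, 5, 1, 5, 2, 0, 3])) (.leaf 1 [1, 0, 0, 1, 1, 1, 1, 1, 1, 1, 1, 1, 1, 1, 1, 1, 1, 1, 1, 3, 1, 1, 1, 1, 3, 1, 1, 1, 1, 1, 1, 5, 1, 5, 2, 0, 3])) (.leaf 1 [1, 0, 0, 1, 1, 1, 1, 1, 1, 1, 1, 1, 1, 1, 1, 1, 1, 1, 1, 3, 1, 1, 1,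 1, 3, 1, 1, 1, 1, 1, 1, 5, 1, 5, 2, 0, 3])) (.leaf 1 [1, 0, 0, 1, 1, 1, 1, 1, 1, 1, 1, 1, 1, 1, 1, 1, 1, 1, 1, 3, 1, 1, 1, 1, 3, 1, 1, 1, 1, 1, 1, 5, 1, 5, 2, 0, 3])) (.leaf 1 [1, 0, 0, 1, 1, 1, 1, 1, 1, 1, 1, 1, 1, 1, 1, 1, 1, 1, 1, 5, 1, 1, 1, 1, 5, 1, 1, 1, 1, 1, 1, 5, 1, 5, 5, 0, 3])) (.leaf 1 [1, 0, 0, 1, 1, 1, 1, 1, 1, 1, 1, 1, 1, 1, 1, 1, 1, 1, 1, 5, 1, 1, 1, 1, 5, 1, 1, 1, 1, 1, 1, 5, 1, 5, 5, 0, 3])) (.leaf 1 [1, 0, 0, 1, 1, 1, 1, 1, 1, 1, 1, 1, 1, 1, 1, 1, 1, 1, 1, 5, 1, 1, 1, 1, 5, 1, 1, 1, 1, 1, 1, 5, 1, 5, 5, 0, 3]))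
  (by decide +kernel)

theorem p21 : Cov 6 fA kA [[0, 168, 588, 3136, 3136, 3332, 4312], [0, 36, 156, 792, 792, 804, 1104], [0, 0, 0, 1, 1, 1, 1], [0, 36, 156, 672, 732, 744, 984], [0, 756, 3276, 16380, 16380, 17472, 22386], [0, 756, 3276, 17472, 17472, 18564, 24024]] :=
.of2 (.leaf 1 [1, 0, 0, 1, 1, 1, 1, 1, 1, 1, 1, 1, 1, 1, 1, 1, 1, 1, 1, 1, 1, 1, 1, 1, 1, 1, 1, 1, 1, 1, 1, 5, 1, 5, 1, 0, 3])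
  (by decide +kernel)

theorem p22 : Cov 6 fA kA [[0, 168, 588, 3136, 3136, 3332, 4312], [0, 36, 156, 792, 792, 804, 1104], [0, 0, 0, 1, 1, 1, 1], [0, 36, 156, 660, 720, 732, 966], [0, 756, 3276, 16380, 16380, 17472, 22386], [0, 36, 156, 672, 732, 744, 984]] :=
.of2 (.leaf 1 [1, 0, 0, 1, 1, 1, 1, 1, 1, 1, 1, 1, 1, 1, 1, 1, 1, 1, 1, 1, 1, 1, 1, 1, 1, 1, 1, 1, 1, 1, 1, 5, 1, 5, 1, 0, 3])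
  (by decide +kernel)

theorem p23 : Cov 6 fA kA [[0, 168, 588, 3136, 3136, 3332, 4312], [0, 36, 156, 540, 540, 552, 726], [0, 0, 0, 1, 1, 1, 1], [0, 36, 156, 660, 720, 732, 966], [0, 756, 3276, 16380, 16380, 17472, 22386], [0, 36, 156, 792, 792, 804, 1104]] :=
.of2 (.leaf 1 [1, 0, 0, 1, 1, 1, 1, 1, 1, 1, 1, 1, 1, 1, 1, 1, 1, 1, 1, 1, 1, 1, 1, 1, 1, 1, 1, 1, 1, 1, 1, 5, 1, 5, 1, 0, 3])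
  (by decide +kernel)

theorem p24 : Cov 6 fA kA [[0, 168, 588, 2940, 2940, 3136, 4018], [0, 36, 156, 540, 540, 552, 726], [0, 0, 0, 1, 1, 1, 1], [0, 36, 156, 660, 720, 732, 966], [0, 756, 3276, 16380, 16380, 17472, 22386], [0, 168, 588, 3136, 3136, 3332, 4312]] :=
.of2 (.leaf 1 [1, 0, 0, 1, 1, 1, 1, 1, 1, 1, 1, 1, 1, 1, 1, 1, 1, 1, 1, 1, 1, 1, 1, 1, 1, 1, 1, 1, 1, 1, 1, 5, 1, 5, 1, 0, 3])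
  (by decide +kernel)

theorem p25 : Cov 6 fA kA [[0, 168, 588, 2940, 2940, 3136, 4018], [0, 756, 3276, 16380, 16380, 17472, 22386], [0, 0, 0, 1, 1, 1, 1], [0, 36, 156, 660, 720, 732, 966], [0, 9, 39, 261, 261, 285, 360], [0, 0, 0, 4, 4, 4, 6]] :=
.of2 (.leaf 1 [1, 0, 0, 1, 1, 1, 1, 1, 1, 1, 1, 1, 1, 1, 1, 1, 1, 1, 1, 2, 1, 1, 1, 1, 2, 4, 1, 1, 1, 1, 1, 5, 5, 5, 2, 0, 3])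
  (by decide +kernel)

theorem p26 : Cov 6 fA kA [[0, 168, 588, 2940, 2940, 3136, 4018], [0, 36, 156, 660, 720, 732, 966], [0, 0, 0, 1, 1, 1, 1], [0, 0, 0, 2, 3, 3, 4], [0, 9, 39, 261, 261, 285, 360], [0, 0, 0, 4, 4, 4, 6]] :=
.of2 (.leaf 1 [5, 0, 0, 1, 1, 1, 1, 1, 5, 1, 1, 10, 10, 5, 1, 10, 10, 1, 1, 2, 5, 5, 4, 10, 2, 4, 10, 5, 4, 1, 1, 5, 5, 5, 2, 4, 3])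
  (by decide +kernel)

theorem p27 : Cov 6 fA kA [[0, 6, 12, 132, 132, 148, 184], [0, 168, 588, 2940, 2940, 3136, 4018], [0, 0, 0, 1, 1, 1, 1], [0, 0, 0, 2, 3, 3, 4], [0, 9, 39, 261, 261, 285, 360], [0, 0, 0, 4, 4, 4, 6]] :=
.of2 (.leaf 1 [5, 0, 0, 1, 1, 1, 1, 1, 5, 1, 1, 10, 5, 5, 1, 10, 5, 1, 1, 2, 5, 5, 4, 10, 2, 4, 5, 5, 4, 1, 1, 5, 5, 5, 2, 4, 3])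
  (by decide +kernel)

theorem p28 : Cov 6 fA kA [[0, 6, 12, 132, 132, 148, 184], [0, 9, 39, 72, 72, 75, 87], [0, 0, 0, 1, 1, 1, 1], [0, 0, 0, 2, 3, 3, 4], [0, 9, 39, 261, 261, 285, 360], [0, 36, 156, 540, 540, 552, 726]] :=
.of2 (.leaf 1 [5, 1, 1, 1, 1, 1, 1, 1, 4, 1, 1, 10, 4, 4, 1, 10, 4, 1, 1, 4, 4, 4, 4, 10, 4, 4, 4, 5, 4, 1, 1, 5, 5, 5, 2, 4, 3])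
  (by decide +kernel)

theorem p29 : Cov 6 fA kA [[0, 2, 4, 23, 23, 26, 31], [0, 9, 39, 72, 72, 75, 87], [0, 0, 0, 1, 1, 1, 1], [0, 0, 0, 2, 3, 3, 4], [0, 6, 12, 132, 132, 148, 184], [0, 0, 0, 4, 4, 4, 6]] :=
.of2 (.split 0 5 4 7
(.split 1 5 4 63
(.split 0 1 6 1
(.split 3 1 60 1
(.split 4 1 10 3
(.split 0 5 1 21
(.split 1 5 1 63
(.split 3 5 1 3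
(.split 4 5 1 49
(.split 0 2 1 252
(.split 1 2 1 156
(.split 3 2 1 216
(.split 4 2 1 588
(.split 0 1 1 1
(.split 4 1 1 2
(.split 0 3 1 5
(.split 1 3 2 3
(.split 4 3 1 10
(.leaf 2 [1, 0, 1, 1, 1, 1, 1, 1, 5, 1, 1, 1, 1, 1, 1, 1, 1, 16, 1, 1, 1, 1, 1, 1, 1, 1, 1, 1, 16, 5, 2, 0, 3]) (.split 4 5 1 120
(.leaf 0 [0, 1, 0, 1, 1, 1, 1, 1, 1, 1, 1, 1, 1, 1, 1, 1, 15, 1, 1, 1, 1, 1, 1, 1, 1, 1, 1, 5, 16, 5, 2, 0, 3]) (.leaf 0 [0, 1, 0, 1, 1, 1, 1, 1, 1, 1, 1, 1, 1, 1, 1, 1, 15, 1, 1, 1, 1, 1, 1, 1, 1, 1, 1, 5, 1, 5, 1, 0, 3]))) (.split 1 5 1 18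
(.split 4 5 1 120
(.leaf 0 [0, 1, 0, 1, 1, 1, 1, 1, 1, 1, 1, 1, 1, 1, 1, 1, 15, 1, 1, 1, 1, 1, 1, 1, 1, 1, 1, 5, 16, 5, 2, 0, 3]) (.leaf 0 [0, 1, 0, 1, 1, 1, 1, 1, 1, 1, 1, 1, 1, 1, 1, 1, 15, 1, 1, 1, 1, 1, 1, 1, 1, 1, 1, 5, 1, 5, 1, 0, 3])) (.leaf 0 [0, 1, 0, 1, 1, 1, 1, 1, 1, 1, 1, 1, 1, 1, 1, 1, 15, 1, 1, 1, 1, 1, 1, 1, 1, 1, 1, 5, 1, 5, 1, 0, 3]))) (.split 0 5 1 60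
(.split 1 5 1 18
(.split 4 5 1 120
(.leaf 0 [0, 1, 0, 1, 1, 1, 1, 1, 1, 1, 1, 1, 1, 1, 1, 1, 15, 1, 1, 1, 1, 1, 1, 1, 1, 1, 1, 5, 16, 5, 2, 0, 3]) (.leaf 0 [0, 1, 0, 1, 1, 1, 1, 1, 1, 1, 1, 1, 1, 1, 1, 1, 15, 1, 1, 1, 1, 1, 1, 1, 1, 1, 1, 5, 1, 5, 1, 0, 3])) (.leaf 0 [0, 1, 0, 1, 1, 1, 1, 1, 1, 1, 1, 1, 1, 1, 1, 1, 15, 1, 1, 1, 1, 1, 1, 1, 1, 1, 1, 5, 1, 5, 1, 0, 3])) (.leaf 0 [0, 1, 0, 1, 1, 1, 1, 1, 1, 1, 1, 1, 1, 1, 1, 1, 15, 1, 1, 1, 1, 1, 1, 1, 1, 1, 1, 5, 1, 5, 1, 0, 3]))) (.split 4 3 1 7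
(.split 0 3 1 5
(.split 1 3 1 10
(.leaf 2 [1, 0, 1, 1, 1, 1, 1, 1, 5, 1, 1, 1, 1, 1, 1, 1, 1, 16, 1, 1, 1, 1, 1, 1, 1, 1, 1, 1, 2, 5, 2, 0, 3]) (.split 1 5 1 120
(.leaf 0 [0, 1, 0, 1, 1, 1, 1, 1, 1, 1, 1, 1, 1, 1, 1, 1, 15, 1, 1, 1, 1, 1, 1, 1, 1, 1, 1, 5, 16, 5, 2, 0, 3]) (.leaf 0 [0, 1, 0, 1, 1, 1, 1, 1, 1, 1, 1, 1, 1, 1, 1, 1, 15, 1, 1, 1, 1, 1, 1, 1, 1, 1, 1, 5, 1, 5, 1, 0, 3]))) (.split 0 5 1 60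
(.split 1 5 1 120
(.leaf 0 [0, 1, 0, 1, 1, 1, 1, 1, 1, 1, 1, 1, 1, 1, 1, 1, 15, 1, 1, 1, 1, 1, 1, 1, 1, 1, 1, 5, 16, 5, 2, 0, 3]) (.leaf 0 [0, 1, 0, 1, 1, 1, 1, 1, 1, 1, 1, 1, 1, 1, 1, 1, 15, 1, 1, 1, 1, 1, 1, 1, 1, 1, 1, 5, 1, 5, 1, 0, 3])) (.leaf 0 [0, 1, 0, 1, 1, 1, 1, 1, 1, 1, 1, 1, 1, 1, 1, 1, 15, 1, 1, 1, 1, 1, 1, 1, 1, 1, 1, 5, 1, 5, 1, 0, 3]))) (.leaf 0 [0, 1, 0, 1, 1, 1, 1, 1, 1, 1, 1, 1, 1, 1, 1, 1, 15, 1, 1, 1, 1, 1, 1, 1, 1, 1, 1, 5, 2, 5, 2, 0, 3]))) (.split 0 3 2 7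
(.split 4 3 1 7
(.split 0 5 1 294
(.split 1 5 1 12
(.split 3 5 1 30
(.split 4 5 1 350
(.split 1 3 1 5
(.leaf 2 [1, 0, 1, 1, 1, 1, 1, 1, 5, 1, 1, 1, 1, 1, 1, 1, 1, 16, 1, 1, 1, 1, 1, 1, 1, 1, 1, 1, 2, 5, 2, 0, 3]) (.leaf 0 [0, 1, 0, 1, 1, 1, 1, 1, 1, 1, 1, 1, 1, 1, 1, 1, 15, 1, 1, 1, 1, 1, 1, 1, 1, 1, 1, 5, 16, 5, 2, 0, 3])) (.leaf 0 [0, 1, 0, 1, 1, 1, 1, 1, 1, 1, 1, 1, 1, 1, 1, 1, 15, 1, 1, 1, 1, 1, 1, 1, 1, 1, 1, 5, 5, 5, 5, 0, 3])) (.leaf 0 [0, 1, 0, 1, 1, 1, 1, 1, 1, 1, 1, 1, 1, 1, 1, 1, 15, 1, 1, 1, 1, 1, 1, 1, 1, 1, 1, 5, 5, 5, 5, 0, 3])) (.leaf 0 [0, 1, 0, 1, 1, 1, 1, 1, 1, 1, 1, 1, 1, 1, 1, 1, 15, 1, 1, 1, 1, 1, 1, 1, 1, 1, 1, 5, 5, 5, 5, 0, 3])) (.leaf 0 [0, 1,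 0, 1, 1, 1, 1, 1, 1, 1, 1, 1, 1, 1, 1, 1, 15, 1, 1, 1, 1, 1, 1, 1, 1, 1, 1, 5, 5, 5, 5, 0, 3])) (.leaf 0 [0, 1, 0, 1, 1, 1, 1, 1, 1, 1, 1, 1, 1, 1, 1, 1, 15, 1, 1, 1, 1, 1, 1, 1, 1, 1, 1, 5, 2, 5, 2, 0, 3])) (.leaf 0 [0, 1, 0, 1, 1, 1, 1, 1, 1, 1, 1, 1, 1, 1, 1, 1, 15, 1, 1, 1, 1, 1, 1, 1, 1, 1, 1, 5, 2, 5, 2, 0, 3]))) (.leaf 1 [1, 0, 0, 1, 1, 1, 1, 1, 1, 1, 1, 1, 1, 1, 1, 1, 1, 1, 1, 3, 1, 1, 1, 1, 3, 1, 1, 1, 1, 1, 1, 5, 1, 5, 2, 0, 3])) (.leaf 1 [1, 0, 0, 1, 1, 1, 1, 1, 1, 1, 1, 1, 1, 1, 1, 1, 1, 1, 1, 3, 1, 1, 1, 1, 3, 1, 1, 1, 1, 1, 1, 5, 1, 5, 2, 0, 3])) (.leaf 1 [1, 0, 0, 1, 1, 1, 1, 1, 1, 1, 1, 1, 1, 1, 1, 1, 1, 1, 1, 3, 1, 1, 1, 1, 3, 1, 1, 1, 1, 1, 1, 5, 1, 5,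 2, 0, 3])) (.leaf 1 [1, 0, 0, 1, 1, 1, 1, 1, 1, 1, 1, 1, 1, 1, 1, 1, 1, 1, 1, 3, 1, 1, 1, 1, 3, 1, 1, 1, 1, 1, 1, 5, 1, 5, 2, 0, 3])) (.leaf 1 [1, 0, 0, 1, 1, 1, 1, 1, 1, 1, 1, 1, 1, 1, 1, 1, 1, 1, 1, 1, 1, 1, 1, 1, 1, 1, 1, 1, 1, 1, 1, 5, 1, 5, 1, 0, 3])) (.leaf 1 [1, 0, 0, 1, 1, 1, 1, 1, 1, 1, 1, 1, 1, 1, 1, 1, 1, 1, 1, 1, 1, 1, 1, 1, 1, 1, 1, 1, 1, 1, 1, 5, 1, 5, 1, 0, 3])) (.leaf 1 [1, 0, 0, 1, 1, 1, 1, 1, 1, 1, 1, 1, 1, 1, 1, 1, 1, 1, 1, 1, 1, 1, 1, 1, 1, 1, 1, 1, 1, 1, 1, 5, 1, 5, 1, 0, 3])) (.leaf 1 [1, 0, 0, 1, 1, 1, 1, 1, 1, 1, 1, 1, 1, 1, 1, 1, 1, 1, 1, 1, 1, 1, 1, 1, 1, 1, 1, 1, 1, 1, 1, 5, 1, 5, 1, 0, 3])) (.leaf 1 [1, 0, 0, 1, 1, 1, 1, 1, 1, 1, 1, 1, 5, 1,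 1, 1, 5, 1, 1, 2, 1, 1, 1, 1, 2, 4, 5, 5, 1, 1, 1, 5, 5, 5, 2, 1, 3])) (.leaf 1 [5, 0, 0, 1, 1, 1, 1, 1, 5, 1, 1, 10, 5, 5, 1, 10, 5, 1, 1, 2, 5, 5, 4, 10, 2, 4, 5, 5, 4, 1, 1, 5, 5, 5, 2, 4, 3])) (.leaf 1 [5, 0, 0, 1, 1, 1, 1, 1, 5, 1, 1, 10, 5, 5, 1, 10, 5, 1, 1, 2, 5, 5, 4, 10, 2, 4, 5, 5, 4, 1, 1, 5, 5, 5, 2, 4, 3])) (.leaf 1 [5, 1, 1, 1, 1, 1, 1, 1, 4, 1, 1, 10, 4, 4, 1, 10, 4, 1, 1, 4, 4, 4, 4, 10, 4, 4, 4, 5, 4, 1, 1, 5, 5, 5, 2, 4, 3])) (.leaf 1 [4, 1, 1, 1, 1, 1, 1, 1, 4, 1, 1, 4, 4, 4, 1, 4, 4, 1, 1, 4, 4, 4, 4, 4, 4, 4, 4, 5, 4, 1, 1, 5, 5, 5, 2, 4, 3]))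
  (by decide +kernel)

theorem p30 : Cov 6 fA kA [[0, 2, 4, 23, 23, 26, 31], [0, 1, 5, 7, 7, 7, 8], [0, 0, 0, 4, 4, 4, 6], [0, 0, 0, 2, 3, 3, 4], [0, 0, 0, 9, 9, 10, 13], [0, 0, 0, 1, 1, 1, 3]] :=
.of2 (.split 0 1 11 8
(.split 2 1 11 2
(.split 3 1 11 1
(.split 4 1 11 6
(.split 5 1 11 2
(.split 0 3 10 19
(.split 1 3 10 1
(.split 2 3 5 1
(.split 4 3 30 7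
(.split 5 3 5 1
(.split 0 1 1 31
(.split 2 1 1 9
(.split 3 1 11 29
(.split 4 1 1 43
(.split 5 1 1 24
(.leaf 2 [1, 1, 1, 1, 1, 1, 1, 1, 4, 1, 1, 1, 1, 1, 1, 1, 1, 1, 1, 1, 1, 1, 4, 1, 1, 1, 1, 1, 1, 4, 1, 0, 4]) (.leaf 2 [3, 1, 1, 8, 1, 1, 3, 3, 3, 8, 1, 1, 1, 1, 1, 1, 3, 3, 3, 1, 3, 1, 4, 1, 1, 3, 1, 1, 8, 5, 1, 0, 3])) (.leaf 2 [3, 1, 1, 8, 1, 1, 3, 3, 3, 8, 1, 1, 1, 1, 1, 1, 3, 3, 3, 1, 3, 1, 4, 1, 1, 3, 5, 5, 3, 5, 1, 0, 3])) (.leaf 2 [3, 1, 1, 8, 1, 1, 3, 3, 3, 8, 10, 4, 5, 1, 10, 4, 3, 3, 3, 5, 3, 10, 4, 4, 5, 3, 5, 5, 3, 5, 2, 1, 3])) (.leaf 2 [3, 1, 1, 8, 1, 1, 3, 3, 3, 8, 10, 4, 5, 1, 10, 4, 3, 3, 3, 5, 3, 10, 4, 4, 5, 3, 5, 5, 3, 5, 2, 1, 3])) (.leaf 2 [3, 1, 1,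 8, 1, 1, 3, 3, 3, 8, 10, 4, 5, 1, 10, 4, 3, 3, 3, 5, 3, 10, 4, 4, 5, 3, 5, 5, 3, 5, 2, 1, 3])) (.leaf 1 [3, 1, 0, 1, 8, 1, 1, 8, 3, 1, 8, 1, 1, 1, 1, 1, 1, 8, 1, 3, 3, 1, 3, 1, 3, 4, 1, 1, 3, 1, 1, 1, 1, 5, 1, 0, 3])) (.leaf 1 [3, 1, 0, 1, 8, 1, 1, 8, 3, 1, 8, 1, 1, 1, 1, 1, 1, 8, 1, 3, 3, 1, 3, 1, 3, 4, 1, 1, 1, 1, 1, 1, 1, 5, 1, 0, 3])) (.leaf 1 [3, 1, 0, 1, 8, 1, 1, 8, 3, 1, 8, 1, 1, 1, 1, 1, 1, 8, 1, 3, 3, 1, 3, 1, 3, 4, 1, 1, 1, 1, 1, 1, 1, 5, 1, 0, 3])) (.leaf 4 [3, 3, 1, 1, 1, 8, 1, 1, 8, 3, 1, 8, 1, 1, 1, 1, 1, 1, 8, 1, 3, 1, 3, 8, 4, 1, 1, 1, 1, 5, 3, 5, 1, 3])) (.leaf 4 [3, 3, 1, 1, 1, 8, 1, 1, 8, 3, 1, 8, 1, 1, 1, 1, 1, 1, 8, 1, 3, 1, 3, 8, 4, 1, 1, 1, 1, 5,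 3, 5, 1, 3])) (.leaf 1 [3, 0, 0, 1, 8, 1, 1, 3, 3, 1, 8, 10, 10, 5, 1, 10, 10, 3, 1, 3, 3, 5, 3, 10, 3, 4, 10, 5, 3, 1, 1, 2, 5, 5, 2, 3, 3])) (.leaf 1 [3, 0, 0, 1, 8, 1, 1, 2, 3, 1, 8, 10, 5, 5, 1, 10, 5, 2, 2, 3, 3, 5, 2, 10, 3, 4, 5, 5, 2, 1, 2, 2, 5, 5, 2, 2, 3])) (.leaf 1 [3, 0, 0, 1, 8, 1, 1, 2, 3, 1, 8, 10, 5, 5, 1, 10, 5, 2, 2, 3, 3, 5, 2, 10, 3, 4, 5, 5, 2, 1, 2, 2, 5, 5, 2, 2, 3])) (.leaf 1 [3, 0, 0, 1, 8, 1, 1, 2, 3, 1, 8, 10, 5, 5, 1, 10, 5, 2, 2, 3, 3, 5, 2, 10, 3, 4, 5, 5, 2, 1, 2, 2, 5, 5, 2, 2, 3])) (.leaf 1 [3, 0, 0, 1, 8, 1, 1, 2, 3, 1, 8, 10, 5, 5, 1, 10, 5, 2, 5, 2, 3, 5, 2, 10, 2, 4, 5, 5, 2, 1, 5, 5, 5, 5, 2, 2, 3]))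
  (by decide +kernel)

theorem p31 : Cov 6 fA kA [[0, 2, 4, 23, 23, 26, 31], [0, 1, 5, 7, 7, 7, 8], [0, 0, 0, 9, 9, 10, 13], [0, 0, 0, 2, 3, 3, 4], [0, 0, 0, 1, 1, 2, 5], [0, 0, 0, 1, 1, 1, 3]] :=
.of2 (.split 0 1 11 8
(.split 2 1 11 6
(.split 3 1 11 1
(.split 4 1 11 6
(.split 5 1 11 2
(.split 0 3 10 19
(.split 1 3 10 1
(.split 2 3 30 7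
(.split 4 3 30 7
(.split 5 3 5 1
(.split 0 1 1 31
(.split 2 1 1 43
(.split 3 1 11 29
(.split 4 1 1 283
(.split 5 1 1 24
(.leaf 2 [1, 1, 1, 1, 1, 1, 1, 1, 4, 1, 1, 1, 1, 1, 1, 1, 1, 1, 1, 1, 1, 1, 4, 1, 1, 1, 1, 1, 1, 4, 1, 0, 4]) (.leaf 2 [3, 1, 1, 8, 1, 1, 3, 3, 3, 8, 1, 1, 1, 1, 1, 1, 3, 3, 3, 1, 3, 1, 4, 1, 1, 3, 1, 1, 8, 5, 1, 0, 3])) (.leaf 2 [3, 1, 1, 8, 1, 1, 3, 3, 3, 8, 1, 1, 1, 1, 1, 1, 3, 3, 3, 1, 3, 1, 4, 1, 1, 3, 5, 5, 8, 5, 1, 0, 3])) (.leaf 2 [3, 1, 1, 8, 1, 1, 3, 3, 3, 8, 10, 4, 5, 1, 10, 4, 3, 3, 3, 5, 3, 10, 4, 4, 5, 3, 5, 5, 3, 5, 2, 5, 3])) (.leaf 2 [3, 1, 1, 8, 1, 1, 3, 3, 3, 8, 10, 4, 5, 1, 10, 4, 3, 3, 3, 5, 3, 10, 4, 4, 5, 3, 5, 5, 3, 5, 2, 5, 3]))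 (.leaf 2 [3, 1, 1, 8, 1, 1, 3, 3, 3, 8, 10, 4, 5, 1, 10, 4, 3, 3, 3, 5, 3, 10, 4, 4, 5, 3, 5, 5, 3, 5, 2, 5, 3])) (.leaf 1 [3, 1, 0, 1, 8, 1, 1, 8, 3, 1, 8, 1, 1, 1, 1, 1, 1, 8, 1, 3, 3, 1, 3, 1, 3, 4, 1, 1, 3, 1, 1, 1, 1, 5, 1, 0, 3])) (.leaf 1 [3, 8, 0, 1, 8, 1, 1, 8, 3, 1, 8, 1, 1, 1, 1, 1, 1, 8, 1, 3, 3, 1, 3, 1, 3, 4, 1, 1, 3, 1, 1, 1, 1, 5, 1, 0, 3])) (.leaf 1 [3, 8, 0, 1, 8, 1, 1, 8, 3, 1, 8, 1, 1, 1, 1, 1, 1, 8, 1, 3, 3, 1, 3, 1, 3, 4, 1, 1, 3, 1, 1, 1, 1, 5, 1, 0, 3])) (.leaf 4 [3, 3, 8, 1, 1, 8, 1, 1, 8, 3, 1, 8, 1, 1, 1, 1, 1, 1, 8, 1, 3, 1, 3, 8, 4, 1, 1, 1, 1, 5, 3, 5, 1, 3])) (.leaf 4 [3, 3, 8, 1, 1, 8, 1, 1, 8, 3, 1, 8, 1, 1, 1, 1, 1, 1, 8, 1, 3, 1, 3, 8,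 4, 1, 1, 1, 1, 5, 3, 5, 1, 3])) (.leaf 1 [3, 0, 0, 1, 8, 1, 1, 3, 3, 1, 8, 10, 10, 5, 1, 10, 10, 3, 1, 3, 3, 5, 3, 10, 3, 4, 10, 5, 3, 1, 1, 2, 5, 5, 2, 3, 3])) (.leaf 1 [3, 0, 0, 1, 8, 1, 1, 3, 3, 1, 8, 10, 5, 5, 1, 10, 5, 3, 5, 2, 3, 5, 3, 10, 2, 4, 5, 5, 3, 5, 5, 2, 5, 5, 2, 3, 3])) (.leaf 1 [3, 0, 0, 1, 8, 1, 1, 2, 3, 1, 8, 10, 5, 5, 1, 10, 5, 2, 5, 2, 3, 5, 2, 10, 2, 4, 5, 5, 2, 5, 5, 2, 5, 5, 2, 3, 3])) (.leaf 1 [3, 0, 0, 1, 8, 1, 1, 2, 3, 1, 8, 10, 5, 5, 1, 10, 5, 2, 5, 2, 3, 5, 2, 10, 2, 4, 5, 5, 2, 5, 5, 5, 5, 5, 2, 3, 3])) (.leaf 1 [3, 0, 0, 1, 8, 1, 1, 2, 3, 1, 8, 10, 5, 5, 1, 10, 5, 2, 5, 2, 3, 5, 2, 10, 2, 4, 5, 5, 2, 5, 5, 5, 5, 5, 2, 3, 3]))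
  (by decide +kernel)

theorem p32 : Cov 6 fA kA [[0, 99, 429, 792, 792, 825, 957], [0, 1, 5, 7, 7, 7, 8], [0, 1, 5, 29, 40, 40, 52], [0, 1, 5, 7, 18, 18, 30], [0, 6, 30, 53, 53, 64, 103], [0, 2, 10, 25, 25, 25, 49]] :=
.of2 (.split 4 1 1 27
(.split 2 0 99 10
(.split 3 0 99 10
(.leaf 4 [3, 3, 1, 1, 1, 8, 1, 1, 8, 3, 1, 8, 1, 1, 1, 1, 1, 1, 8, 1, 8, 1, 3, 8, 4, 1, 1, 1, 6, 1, 3, 5, 1, 3]) (.split 3 1 1 10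
(.leaf 4 [3, 3, 1, 1, 1, 8, 1, 1, 8, 3, 1, 8, 1, 1, 1, 1, 1, 1, 8, 1, 8, 1, 3, 8, 4, 1, 1, 1, 6, 1, 3, 5, 1, 3]) (.split 3 4 33 10
(.leaf 1 [3, 1, 0, 1, 8, 1, 1, 8, 3, 1, 8, 1, 1, 1, 1, 1, 1, 8, 1, 8, 3, 1, 3, 1, 8, 4, 1, 1, 1, 1, 1, 6, 1, 5, 1, 0, 3]) (.split 3 5 1 5
(.leaf 1 [3, 1, 0, 1, 8, 1, 1, 8, 3, 1, 8, 1, 1, 1, 1, 1, 1, 8, 1, 8, 3, 1, 3, 1, 8, 4, 1, 1, 3, 1, 1, 6, 1, 5, 1, 0, 3]) (.leaf 2 [3, 5, 1, 8, 8, 8, 3, 3, 6, 8, 10, 4, 5, 8, 10, 4, 3, 3, 3, 5, 3, 10, 4, 4, 5, 3, 10, 5, 3, 5, 2, 3, 3]))))) (.split 2 1 1 10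
(.split 3 1 1 10
(.leaf 4 [3, 3, 1, 1, 1, 8, 1, 1, 8, 3, 1, 8, 1, 1, 1, 1, 1, 1, 8, 1, 8, 1, 3, 8, 4, 1, 1, 1, 6, 1, 3, 5, 1, 3]) (.split 3 4 33 10
(.leaf 1 [3, 1, 0, 1, 8, 1, 1, 8, 3, 1, 8, 1, 1, 1, 1, 1, 1, 8, 1, 8, 3, 1, 3, 1, 8, 4, 1, 1, 1, 1, 1, 6, 1, 5, 1, 0, 3]) (.split 3 5 1 5
(.leaf 1 [3, 1, 0, 1, 8, 1, 1, 8, 3, 1, 8, 1, 1, 1, 1, 1, 1, 8, 1, 8, 3, 1, 3, 1, 8, 4, 1, 1, 3, 1, 1, 6, 1, 5, 1, 0, 3]) (.leaf 2 [3, 5, 1, 8, 8, 8, 3, 3, 6, 8, 10, 4, 5, 8, 10, 4, 3, 3, 3, 5, 3, 10, 4, 4, 5, 3, 10, 5, 3, 5, 2, 3, 3])))) (.split 2 4 33 10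
(.split 3 4 33 10
(.leaf 1 [3, 1, 0, 1, 8, 1, 1, 8, 3, 1, 8, 1, 1, 1, 1, 1, 1, 8, 1, 8, 3, 1, 3, 1, 8, 4, 1, 1, 1, 1, 1, 6, 1, 5, 1, 0, 3]) (.split 3 5 1 5
(.leaf 1 [3, 1, 0, 1, 8, 1, 1, 8, 3, 1, 8, 1, 1, 1, 1, 1, 1, 8, 1, 8, 3, 1, 3, 1, 8, 4, 1, 1, 3, 1, 1, 6, 1, 5, 1, 0, 3]) (.leaf 2 [3, 5, 1, 8, 8, 8, 3, 3, 6, 8, 10, 4, 5, 8, 10, 4, 3, 3, 3, 5, 3, 10, 4, 4, 5, 3, 10, 5, 3, 5, 2, 3, 3]))) (.split 2 5 1 5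
(.split 3 5 1 5
(.leaf 1 [3, 1, 0, 1, 8, 1, 1, 8, 3, 1, 8, 1, 1, 1, 1, 1, 1, 8, 1, 3, 3, 1, 3, 1, 3, 4, 1, 1, 3, 1, 1, 6, 1, 5, 1, 0, 3]) (.leaf 2 [3, 5, 1, 8, 8, 8, 3, 3, 6, 8, 10, 4, 5, 8, 10, 4, 3, 3, 3, 5, 3, 10, 4, 4, 5, 3, 10, 5, 3, 5, 2, 3, 3])) (.leaf 2 [3, 5, 1, 8, 4, 4, 3, 3, 6, 8, 10, 4, 5, 4, 10, 4, 3, 3, 3, 5, 3, 10, 4, 4, 5, 3, 10, 5, 3, 5, 2, 3, 3]))))) (.split 4 2 1 27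
(.split 1 2 1 88
(.split 3 2 1 21
(.split 4 2 1 88
(.split 5 2 1 53
(.split 1 0 9 77
(.split 2 0 99 10
(.split 3 0 9 20
(.split 4 0 9 104
(.split 5 0 3 16
(.leaf 1 [1, 1, 1, 1, 1, 1, 1, 1, 1, 1, 1, 1, 1, 1, 1, 1, 1, 1, 1, 1, 1, 1, 1, 1, 1, 4, 1, 1, 1, 1, 1, 4, 1, 4, 1, 0, 4]) (.leaf 2 [4, 1, 1, 1, 1, 1, 1, 4, 4, 1, 4, 4, 4, 1, 4, 4, 1, 4, 4, 4, 4, 4, 4, 4, 5, 4, 4, 5, 4, 5, 2, 1, 3])) (.leaf 2 [4, 1, 1, 1, 1, 1, 1, 4, 4, 1, 4, 4, 4, 1, 4, 4, 1, 4, 4, 4, 4, 4, 4, 4, 5, 4, 4, 5, 4, 5, 2, 1, 3])) (.leaf 2 [4, 1, 1, 1, 1, 1, 1, 4, 4, 1, 4, 4, 4, 1, 4, 4, 1, 4, 4, 4, 4, 4, 4, 4, 5, 4, 4, 5, 4, 5, 2, 4, 3])) (.leaf 2 [4, 1, 1, 1, 1, 1, 1, 4, 4, 1, 4, 4, 4, 1, 4, 4, 1, 4, 4, 4,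 4, 4, 4, 4, 5, 4, 4, 5, 4, 5, 2, 4, 3])) (.leaf 2 [4, 1, 1, 1, 1, 1, 1, 4, 4, 1, 4, 4, 4, 1, 4, 4, 1, 4, 4, 4, 4, 4, 4, 4, 5, 4, 4, 5, 4, 5, 2, 4, 3])) (.leaf 1 [3, 1, 1, 1, 8, 1, 1, 3, 3, 1, 8, 10, 10, 5, 1, 10, 10, 3, 1, 3, 3, 5, 3, 10, 3, 4, 10, 5, 3, 1, 1, 3, 5, 5, 2, 3, 3])) (.leaf 1 [3, 1, 1, 1, 8, 1, 1, 3, 3, 1, 8, 10, 10, 5, 1, 10, 10, 3, 1, 3, 3, 5, 3, 10, 3, 4, 10, 5, 3, 1, 1, 3, 5, 5, 2, 3, 3])) (.leaf 1 [3, 3, 4, 1, 8, 8, 8, 3, 3, 1, 8, 10, 10, 5, 8, 10, 10, 3, 1, 3, 3, 5, 3, 10, 3, 4, 10, 5, 3, 5, 1, 3, 5, 5, 2, 3, 3])) (.leaf 1 [3, 3, 4, 1, 8, 8, 8, 3, 3, 1, 8, 10, 10, 5, 8, 10, 10, 3, 1, 3, 3, 5, 3, 10, 3, 4, 10, 5, 3, 5, 1, 3, 5, 5, 2, 3, 3])) (.split 4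 3 1 27
(.leaf 1 [3, 3, 4, 1, 8, 8, 8, 3, 3, 1, 8, 10, 10, 5, 8, 10, 10, 3, 1, 3, 3, 5, 3, 10, 3, 4, 10, 5, 3, 5, 1, 3, 5, 5, 2, 3, 3]) (.split 4 5 2 27
(.leaf 1 [3, 3, 4, 1, 8, 8, 8, 3, 3, 1, 8, 10, 1, 5, 8, 10, 1, 3, 1, 3, 3, 5, 3, 10, 3, 4, 1, 5, 3, 5, 1, 3, 5, 5, 2, 3, 3]) (.leaf 1 [3, 3, 4, 1, 8, 8, 8, 3, 3, 1, 8, 10, 1, 5, 8, 10, 1, 3, 1, 3, 3, 5, 3, 10, 3, 4, 1, 5, 3, 5, 1, 5, 4, 5, 5, 3, 3])))))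
  (by decide +kernel)

theorem p33 : Cov 6 fA kA [[0, 30, 84, 309, 309, 342, 405], [0, 99, 429, 792, 792, 825, 957], [0, 1, 5, 29, 40, 40, 52], [0, 1, 5, 7, 18, 18, 30], [0, 6, 30, 53, 53, 64, 103], [0, 2, 10, 25, 25, 25, 49]] :=
.of2 (.split 0 2 1 69
(.split 4 2 1 27
(.split 3 2 1 21
(.split 4 2 1 88
(.split 5 2 1 53
(.split 0 1 3 20
(.split 2 1 99 10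
(.split 3 1 9 20
(.split 4 1 9 104
(.split 5 1 3 16
(.leaf 1 [1, 1, 1, 1, 1, 1, 1, 1, 1, 1, 1, 1, 1, 1, 1, 1, 1, 1, 1, 1, 1, 1, 1, 1, 1, 4, 1, 1, 1, 1, 1, 4, 1, 4, 1, 0, 4]) (.leaf 2 [4, 1, 1, 1, 1, 1, 1, 4, 4, 1, 4, 4, 4, 1, 4, 4, 1, 4, 4, 4, 4, 4, 4, 4, 5, 4, 4, 5, 4, 5, 2, 1, 3])) (.leaf 2 [4, 1, 1, 1, 1, 1, 1, 4, 4, 1, 4, 4, 4, 1, 4, 4, 1, 4, 4, 4, 4, 4, 4, 4, 5, 4, 4, 5, 4, 5, 2, 1, 3])) (.leaf 2 [4, 1, 1, 1, 1, 1, 1, 4, 4, 1, 4, 4, 4, 1, 4, 4, 1, 4, 4, 4, 4, 4, 4, 4, 5, 4, 4, 5, 4, 5, 2, 4, 3])) (.leaf 2 [4, 1, 1, 1, 1, 1, 1, 4, 4, 1, 4, 4, 4, 1, 4, 4, 1, 4, 4, 4, 4, 4, 4, 4, 5, 4, 4, 5, 4, 5, 2, 4, 3])) (.leaf 2 [4, 1, 1, 1, 1, 1, 1, 4, 4, 1, 4, 4, 4, 1, 4, 4, 1,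 4, 4, 4, 4, 4, 4, 4, 5, 4, 4, 5, 4, 5, 2, 4, 3])) (.leaf 1 [3, 1, 1, 1, 8, 1, 1, 3, 3, 1, 8, 10, 10, 5, 1, 10, 10, 3, 1, 3, 3, 5, 3, 10, 3, 4, 10, 5, 3, 1, 1, 3, 5, 5, 2, 3, 3])) (.leaf 1 [3, 1, 1, 1, 8, 1, 1, 3, 3, 1, 8, 10, 10, 5, 1, 10, 10, 3, 1, 3, 3, 5, 3, 10, 3, 4, 10, 5, 3, 1, 1, 3, 5, 5, 2, 3, 3])) (.leaf 1 [3, 3, 4, 1, 8, 8, 8, 3, 3, 1, 8, 10, 10, 5, 8, 10, 10, 3, 1, 3, 3, 5, 3, 10, 3, 4, 10, 5, 3, 5, 1, 3, 5, 5, 2, 3, 3])) (.split 4 3 1 27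
(.leaf 1 [3, 3, 4, 1, 8, 8, 8, 3, 3, 1, 8, 10, 10, 5, 8, 10, 10, 3, 1, 3, 3, 5, 3, 10, 3, 4, 10, 5, 3, 5, 1, 3, 5, 5, 2, 3, 3]) (.split 4 5 2 27
(.leaf 1 [3, 3, 4, 1, 8, 8, 8, 3, 3, 1, 8, 10, 1, 5, 8, 10, 1, 3, 1, 3, 3, 5, 3, 10, 3, 4, 1, 5, 3, 5, 1, 3, 5, 5, 2, 3, 3]) (.leaf 1 [3, 3, 4, 1, 8, 8, 8, 3, 3, 1, 8, 10, 1, 5, 8, 10, 1, 3, 1, 3, 3, 5, 3, 10, 3, 4, 1, 5, 3, 5, 1, 5, 4, 5, 5, 3, 3])))) (.split 0 3 1 69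
(.split 4 3 1 27
(.leaf 1 [3, 3, 4, 1, 8, 8, 8, 3, 3, 1, 8, 10, 10, 5, 8, 10, 10, 3, 1, 3, 3, 5, 3, 10, 3, 4, 10, 5, 3, 5, 1, 3, 5, 5, 2, 3, 3]) (.split 4 5 2 27
(.leaf 1 [3, 3, 4, 1, 8, 8, 8, 3, 3, 1, 8, 10, 1, 5, 8, 10, 1, 3, 1, 3, 3, 5, 3, 10, 3, 4, 1, 5, 3, 5, 1, 3, 5, 5, 2, 3, 3]) (.leaf 1 [3, 3, 4, 1, 8, 8, 8, 3, 3, 1, 8, 10, 1, 5, 8, 10, 1, 3, 1, 3, 3, 5, 3, 10, 3, 4, 1, 5, 3, 5, 1, 5, 4, 5, 5, 3, 3]))) (.split 0 5 2 69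
(.split 4 5 2 27
(.leaf 1 [3, 3, 4, 1, 8, 8, 8, 3, 3, 1, 8, 10, 1, 5, 8, 10, 1, 3, 1, 3, 3, 5, 3, 10, 3, 4, 1, 5, 3, 5, 1, 3, 5, 5, 2, 3, 3]) (.leaf 1 [3, 3, 4, 1, 8, 8, 8, 3, 3, 1, 8, 10, 1, 5, 8, 10, 1, 3, 1, 3, 3, 5, 3, 10, 3, 4, 1, 5, 3, 5, 1, 5, 4, 5, 5, 3, 3])) (.leaf 1 [3, 5, 4, 1, 8, 4, 4, 3, 3, 1, 8, 10, 1, 5, 4, 10, 1, 3, 1, 3, 3, 5, 3, 10, 3, 4, 1, 4, 3, 4, 1, 5, 4, 5, 5, 3, 3]))))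
  (by decide +kernel)

theorem p34 : Cov 6 fA kA [[0, 30, 84, 309, 309, 342, 405], [0, 2, 10, 25, 25, 25, 49], [0, 1, 5, 29, 40, 40, 52], [0, 1, 5, 7, 18, 18, 30], [0, 6, 30, 53, 53, 64, 103], [0, 0, 0, 1, 1, 1, 3]] :=
.of2 (.leaf 1 [3, 0, 0, 1, 8, 8, 8, 3, 3, 1, 8, 10, 10, 5, 8, 10, 10, 3, 1, 3, 3, 5, 3, 10, 3, 4, 10, 5, 3, 5, 1, 2, 5, 5, 2, 3, 3])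
  (by decide +kernel)

theorem p35 : Cov 6 fA kA [[0, 30, 84, 309, 309, 342, 405], [0, 6, 30, 53, 53, 64, 103], [0, 1, 5, 29, 40, 40, 52], [0, 1, 5, 7, 18, 18, 30], [0, 0, 0, 1, 1, 2, 5], [0, 0, 0, 1, 1, 1, 3]] :=
.of2 (.leaf 1 [3, 0, 0, 1, 8, 8, 8, 3, 3, 1, 8, 10, 5, 5, 8, 10, 5, 3, 5, 2, 3, 5, 3, 10, 2, 4, 5, 5, 3, 5, 5, 2, 5, 5, 2, 3, 3])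
  (by decide +kernel)

theorem p36 : Cov 6 fA kA [[0, 30, 84, 309, 309, 342, 405], [0, 1, 5, 7, 18, 18, 30], [0, 1, 5, 29, 40, 40, 52], [0, 0, 0, 0, 1, 1, 2], [0, 0, 0, 1, 1, 2, 5], [0, 0, 0, 1, 1, 1, 3]] :=
.of2 (.leaf 1 [3, 0, 0, 1, 8, 8, 8, 2, 3, 1, 8, 10, 5, 5, 8, 10, 5, 2, 5, 2, 3, 5, 3, 10, 2, 4, 5, 5, 3, 5, 5, 2, 5, 5, 2, 3, 3])
  (by decide +kernel)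

theorem p37 : Cov 6 fA kA [[0, 30, 84, 309, 309, 342, 405], [0, 1, 5, 29, 40, 40, 52], [0, 0, 0, 2, 3, 3, 4], [0, 0, 0, 0, 1, 1, 2], [0, 0, 0, 1, 1, 2, 5], [0, 0, 0, 1, 1, 1, 3]] :=
.of2 (.leaf 1 [3, 0, 0, 1, 8, 8, 8, 2, 3, 1, 8, 10, 5, 5, 8, 10, 5, 2, 5, 2, 3, 5, 2, 10, 2, 4, 5, 5, 2, 5, 5, 2, 5, 5, 2, 3, 3])
  (by decide +kernel)

theorem p38 : Cov 6 fA kA [[0, 2, 4, 23, 23, 26, 31], [0, 30, 84, 309, 309, 342, 405], [0, 0, 0, 2, 3, 3, 4], [0, 0, 0, 0, 1, 1, 2], [0, 0, 0, 1, 1, 2, 5], [0, 0, 0, 1, 1, 1, 3]] :=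
.of2 (.leaf 1 [3, 0, 0, 1, 8, 8, 8, 2, 3, 1, 8, 10, 5, 5, 8, 10, 5, 2, 5, 2, 3, 5, 2, 10, 2, 4, 5, 5, 2, 5, 5, 5, 5, 5, 2, 3, 3])
  (by decide +kernel)

theorem p39 : Cov 6 fA kA [[0, 2, 4, 23, 23, 26, 31], [0, 1, 5, 6, 6, 6, 7], [0, 1, 5, 7, 7, 7, 8], [0, 0, 0, 0, 1, 1, 2], [0, 10, 20, 136, 136, 172, 260], [0, 0, 0, 1, 1, 1, 3]] :=
.of2 (.split 5 0 21 2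
(.split 0 3 1 10
(.split 1 3 1 2
(.split 2 3 1 2
(.split 4 3 1 50
(.leaf 2 [3, 4, 0, 8, 0, 0, 5, 3, 5, 8, 0, 5, 5, 0, 0, 5, 5, 3, 3, 5, 3, 0, 4, 5, 5, 3, 5, 5, 2, 5, 2, 3, 3]) (.split 4 5 11 25
(.leaf 2 [3, 4, 0, 8, 0, 0, 5, 3, 5, 8, 0, 5, 5, 0, 0, 5, 5, 3, 3, 5, 3, 0, 4, 5, 5, 3, 5, 5, 2, 5, 2, 3, 3]) (.leaf 2 [3, 4, 0, 0, 0, 0, 4, 3, 5, 0, 0, 5, 4, 0, 0, 5, 4, 3, 3, 4, 3, 0, 4, 5, 5, 3, 5, 5, 2, 5, 2, 3, 3]))) (.split 2 5 11 1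
(.split 4 5 11 25
(.leaf 2 [3, 4, 0, 8, 0, 0, 5, 3, 3, 8, 10, 5, 5, 0, 10, 5, 5, 3, 3, 5, 3, 10, 4, 5, 5, 3, 3, 5, 3, 5, 2, 5, 3]) (.leaf 2 [3, 4, 0, 8, 0, 0, 4, 3, 3, 8, 10, 5, 4, 0, 10, 5, 4, 3, 3, 4, 3, 10, 4, 5, 5, 3, 3, 5, 3, 5, 2, 5, 3])) (.leaf 4 [3, 3, 4, 1, 1, 8, 1, 1, 4, 3, 1, 8, 10, 4, 4, 1, 10, 4, 4, 4, 5, 10, 3, 4, 4, 5, 1, 4, 4, 5, 3, 5, 2, 3]))) (.split 1 5 11 1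
(.split 2 5 11 1
(.split 4 5 11 25
(.leaf 2 [3, 4, 0, 8, 0, 0, 3, 3, 3, 8, 10, 5, 5, 0, 10, 5, 3, 3, 3, 5, 3, 10, 4, 5, 5, 3, 3, 5, 3, 5, 2, 5, 3]) (.leaf 2 [3, 4, 0, 8, 0, 0, 3, 3, 3, 8, 10, 5, 4, 0, 10, 5, 3, 3, 3, 4, 3, 10, 4, 5, 5, 3, 3, 5, 3, 5, 2, 5, 3])) (.leaf 4 [3, 3, 4, 1, 1, 8, 1, 1, 17, 3, 1, 8, 10, 4, 4, 1, 10, 4, 17, 4, 5, 10, 3, 17, 4, 5, 1, 4, 4, 5, 3, 5, 2, 3])) (.leaf 4 [3, 3, 4, 1, 1, 8, 1, 1, 17, 3, 1, 8, 10, 4, 4, 1, 10, 4, 17, 4, 5, 10, 3, 17, 4, 5, 1, 4, 4, 5, 3, 5, 2, 3]))) (.split 0 5 11 5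
(.split 1 5 11 1
(.split 2 5 11 1
(.split 4 5 11 25
(.leaf 3 [0, 3, 0, 1, 0, 3, 3, 3, 1, 10, 5, 5, 10, 3, 1, 3, 3, 10, 4, 3, 3, 1, 5, 2, 5, 3]) (.leaf 3 [0, 3, 0, 1, 0, 3, 3, 3, 1, 10, 5, 4, 10, 3, 4, 3, 3, 10, 4, 3, 3, 4, 5, 2, 5, 3])) (.leaf 4 [3, 3, 1, 1, 1, 1, 1, 1, 17, 3, 1, 1, 10, 5, 4, 1, 10, 5, 17, 4, 3, 10, 3, 17, 4, 5, 1, 4, 4, 5, 3, 5, 2, 3])) (.leaf 4 [3, 3, 1, 1, 1, 1, 1, 1, 17, 3, 1, 1, 10, 5, 4, 1, 10, 5, 17, 4, 3, 10, 3, 17, 4, 5, 1, 4, 4, 5, 3, 5, 2, 3])) (.leaf 1 [3, 1, 1, 1, 1, 1, 1, 4, 3, 1, 1, 4, 5, 4, 1, 4, 5, 4, 4, 3, 3, 4, 4, 4, 3, 4, 5, 5, 5, 4, 4, 4, 5, 5, 2, 4, 3]))) (.split 5 1 1 2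
(.split 0 2 1 59
(.split 4 2 1 116
(.split 5 2 1 3
(.split 3 2 1 1
(.leaf 1 [1, 1, 1, 1, 1, 1, 1, 1, 1, 1, 1, 1, 0, 1, 1, 1, 0, 1, 1, 0, 1, 1, 4, 1, 0, 4, 0, 0, 1, 1, 1, 1, 0, 1, 0, 0, 4]) (.leaf 4 [3, 3, 4, 4, 1, 4, 4, 4, 4, 3, 1, 4, 4, 0, 4, 4, 4, 0, 4, 1, 0, 4, 3, 4, 4, 0, 4, 1, 3, 0, 3, 5, 2, 3])) (.leaf 4 [3, 3, 9, 4, 1, 8, 4, 4, 17, 3, 1, 8, 4, 0, 4, 4, 4, 0, 17, 1, 0, 4, 3, 17, 4, 0, 4, 1, 3, 0, 3, 5, 2, 3])) (.leaf 4 [3, 3, 9, 4, 1, 8, 4, 4, 17, 3, 1, 8, 4, 4, 4, 4, 4, 4, 17, 4, 5, 4, 3, 17, 4, 5, 4, 4, 3, 5, 3, 5, 2, 3])) (.leaf 4 [3, 3, 9, 4, 1, 8, 4, 4, 17, 3, 1, 8, 8, 5, 5, 4, 8, 5, 17, 3, 3, 8, 3, 17, 4, 5, 4, 3, 3, 5, 3, 5, 2, 3])) (.split 5 2 3 2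
(.split 0 2 1 59
(.split 1 2 1 3
(.split 4 2 1 116
(.split 5 2 1 7
(.split 3 2 1 1
(.leaf 1 [1, 1, 1, 1, 1, 1, 1, 1, 1, 1, 1, 1, 0, 1, 1, 1, 0, 1, 1, 0, 1, 1, 4, 1, 0, 4, 0, 0, 1, 1, 1, 1, 0, 1, 0, 0, 4]) (.leaf 4 [3, 3, 4, 4, 1, 4, 4, 4, 4, 3, 1, 4, 4, 0, 4, 4, 4, 0, 4, 1, 0, 4, 3, 4, 4, 0, 4, 1, 3, 0, 3, 5, 2, 3])) (.leaf 4 [3, 3, 9, 4, 1, 8, 4, 4, 17, 3, 1, 8, 8, 0, 4, 4, 8, 0, 17, 1, 0, 8, 3, 17, 4, 0, 4, 1, 3, 0, 3, 5, 2, 3])) (.leaf 4 [3, 3, 9, 4, 1, 8, 4, 4, 17, 3, 1, 8, 8, 4, 4, 4, 8, 4, 17, 3, 5, 8, 3, 17, 4, 5, 4, 3, 3, 5, 3, 5, 2, 3])) (.leaf 4 [3, 3, 9, 4, 1, 8, 4, 4, 17, 3, 1, 8, 8, 4, 4, 4, 8, 4, 17, 3, 5, 8, 3, 17, 4, 5, 4, 3, 3, 5, 3, 5, 2, 3])) (.leaf 1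 [3, 3, 4, 1, 8, 4, 4, 3, 3, 1, 8, 8, 5, 5, 4, 8, 5, 3, 3, 3, 3, 5, 3, 8, 3, 4, 5, 5, 3, 4, 3, 3, 5, 5, 2, 3, 3])) (.leaf 1 [3, 3, 0, 1, 8, 0, 0, 3, 3, 1, 8, 8, 5, 0, 0, 8, 5, 3, 0, 3, 3, 0, 3, 8, 3, 4, 5, 5, 3, 0, 0, 0, 5, 5, 2, 3, 3]))))
  (by decide +kernel)

theorem p40 : Cov 6 fA kA [[0, 10, 20, 136, 136, 172, 260], [0, 1, 5, 6, 6, 6, 7], [0, 1, 5, 7, 7, 7, 8], [0, 0, 0, 0, 1, 1, 2], [0, 0, 0, 1, 1, 2, 5], [0, 0, 0, 1, 1, 1, 3]] :=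
.of2 (.split 4 1 1 5
(.split 5 1 1 2
(.split 0 2 1 116
(.split 4 2 1 6
(.split 5 2 1 3
(.split 3 2 1 1
(.leaf 1 [1, 1, 1, 1, 1, 1, 1, 1, 1, 1, 1, 1, 0, 1, 1, 1, 0, 1, 1, 0, 1, 1, 4, 1, 0, 4, 0, 0, 1, 1, 1, 1, 0, 1, 0, 0, 4]) (.leaf 4 [3, 3, 4, 4, 1, 4, 4, 4, 4, 3, 1, 4, 4, 0, 4, 4, 4, 0, 4, 1, 0, 4, 3, 4, 4, 0, 4, 1, 3, 0, 3, 5, 2, 3])) (.leaf 4 [3, 3, 9, 4, 1, 8, 4, 4, 17, 3, 1, 8, 4, 0, 4, 4, 4, 0, 17, 1, 0, 4, 3, 17, 4, 0, 4, 1, 3, 0, 3, 5, 2, 3])) (.leaf 4 [3, 3, 9, 4, 1, 8, 4, 4, 17, 3, 1, 8, 4, 0, 4, 4, 4, 0, 17, 1, 0, 4, 3, 17, 4, 0, 4, 1, 3, 0, 3, 5, 2, 3])) (.leaf 4 [3, 3, 9, 4, 1, 8, 4, 4, 17, 3, 1, 8, 4, 4, 4, 4, 4, 4, 17, 4, 5, 4, 3, 17, 4, 5, 4, 4, 3, 5, 3,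 5, 2, 3])) (.split 5 2 3 2
(.split 0 2 1 116
(.split 1 2 1 3
(.split 4 2 1 6
(.split 5 2 1 7
(.split 3 2 1 1
(.leaf 1 [1, 1, 1, 1, 1, 1, 1, 1, 1, 1, 1, 1, 0, 1, 1, 1, 0, 1, 1, 0, 1, 1, 4, 1, 0, 4, 0, 0, 1, 1, 1, 1, 0, 1, 0, 0, 4]) (.leaf 4 [3, 3, 4, 4, 1, 4, 4, 4, 4, 3, 1, 4, 4, 0, 4, 4, 4, 0, 4, 1, 0, 4, 3, 4, 4, 0, 4, 1, 3, 0, 3, 5, 2, 3])) (.leaf 4 [3, 3, 9, 4, 1, 8, 4, 4, 17, 3, 1, 8, 8, 0, 4, 4, 8, 0, 17, 1, 0, 8, 3, 17, 4, 0, 4, 1, 3, 0, 3, 5, 2, 3])) (.leaf 4 [3, 3, 9, 4, 1, 8, 4, 4, 17, 3, 1, 8, 8, 0, 4, 4, 8, 0, 17, 1, 0, 8, 3, 17, 4, 0, 4, 1, 3, 0, 3, 5, 2, 3])) (.leaf 4 [3, 3, 9, 4, 1, 8, 4, 4, 17, 3, 1, 8, 8, 0, 4, 4, 8, 0, 17, 1, 0, 8, 3, 17, 4, 0, 4, 1, 3,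 0, 3, 5, 2, 3])) (.leaf 4 [3, 3, 3, 0, 1, 8, 4, 4, 3, 3, 1, 8, 8, 4, 4, 4, 8, 4, 3, 3, 5, 8, 3, 3, 4, 5, 4, 3, 3, 5, 3, 5, 2, 3])) (.leaf 4 [3, 3, 3, 0, 1, 8, 0, 0, 3, 3, 1, 8, 8, 5, 0, 0, 8, 5, 3, 0, 3, 8, 3, 3, 4, 5, 0, 0, 0, 5, 3, 5, 2, 3]))) (.split 4 2 3 5
(.split 5 2 3 2
(.split 0 2 1 116
(.split 1 2 1 6
(.split 4 2 1 13
(.split 5 2 1 7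
(.split 3 2 1 1
(.leaf 1 [1, 1, 1, 1, 1, 1, 1, 1, 1, 1, 1, 1, 0, 1, 1, 1, 0, 1, 1, 0, 1, 1, 4, 1, 0, 4, 0, 0, 1, 1, 1, 1, 0, 1, 0, 0, 4]) (.leaf 4 [3, 3, 4, 4, 1, 4, 4, 4, 4, 3, 1, 4, 4, 0, 4, 4, 4, 0, 4, 1, 0, 4, 3, 4, 4, 0, 4, 1, 3, 0, 3, 5, 2, 3])) (.leaf 4 [3, 3, 9, 4, 1, 8, 4, 4, 17, 3, 1, 8, 8, 0, 4, 4, 8, 0, 17, 1, 0, 8, 3, 17, 4, 0, 4, 1, 3, 0, 3, 5, 2, 3])) (.leaf 4 [3, 3, 9, 4, 1, 8, 4, 4, 17, 3, 1, 8, 8, 0, 4, 4, 8, 0, 17, 1, 0, 8, 3, 17, 4, 0, 4, 1, 3, 0, 3, 5, 2, 3])) (.leaf 4 [3, 3, 9, 4, 1, 8, 4, 4, 17, 3, 1, 8, 8, 0, 4, 4, 8, 0, 17, 1, 0, 8, 3, 17, 4, 0, 4, 1, 3, 0, 3, 5, 2, 3])) (.leaf 4 [3, 3, 3, 0, 1, 8, 4, 4, 3, 3, 1, 8, 8, 4, 4, 4, 8, 4, 3, 3, 5, 8,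 3, 3, 4, 5, 4, 3, 3, 5, 3, 5, 2, 3])) (.leaf 4 [3, 3, 3, 0, 1, 8, 0, 0, 3, 3, 1, 8, 8, 5, 0, 0, 8, 5, 3, 0, 3, 8, 3, 3, 4, 5, 0, 0, 0, 5, 3, 5, 2, 3])) (.leaf 4 [3, 3, 3, 0, 1, 8, 0, 0, 3, 3, 1, 8, 8, 5, 0, 0, 8, 5, 3, 0, 3, 8, 3, 3, 4, 5, 0, 0, 0, 5, 3, 5, 2, 3])))
  (by decide +kernel)

end Pool.Agent.P.MP_754fe6_co.D6
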