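import Mathlib
import Pool.Agent.P.MP_754fe6_co.D6c0

set_option maxRecDepth 100000

namespace Pool.Agent.P.MP_754fe6_co.D6

open Rup

theorem p41 : Cov 6 fA kA [[0, 2, 4, 6, 6, 9, 14], [0, 1, 5, 6, 6, 6, 7], [0, 2, 4, 23, 23, 26, 31], [0, 0, 0, 0, 1, 1, 2], [0, 0, 0, 1, 1, 2, 5], [0, 0, 0, 1, 1, 1, 3]] :=
.of2 (.leaf 4 [3, 3, 9, 4, 1, 8, 8, 8, 17, 3, 1, 8, 10, 5, 5, 8, 10, 5, 17, 3, 3, 10, 3, 17, 4, 5, 8, 3, 3, 5, 3, 5, 2, 3])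
  (by decide +kernel)

theorem p42 : Cov 6 fA kA [[0, 2, 4, 6, 6, 9, 14], [0, 1, 5, 6, 6, 6, 7], [0, 0, 0, 1, 1, 1, 1], [0, 0, 0, 0, 1, 1, 2], [0, 0, 0, 0, 0, 1, 2], [0, 0, 0, 1, 1, 2, 5]] :=
.of2 (.split 0 1 1 13
(.split 4 1 1 3
(.split 5 1 1 5
(.split 3 0 21 2
(.leaf 4 [4, 4, 9, 1, 1, 8, 1, 1, 1, 4, 1, 8, 1, 1, 1, 1, 1, 1, 1, 1, 1, 1, 1, 1, 4, 1, 1, 1, 1, 1, 3, 1, 1, 3]) (.split 3 1 1 2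
(.leaf 4 [4, 4, 9, 1, 1, 8, 1, 1, 1, 4, 1, 8, 1, 1, 1, 1, 1, 1, 1, 1, 1, 1, 1, 1, 4, 1, 1, 1, 1, 1, 3, 1, 1, 3]) (.split 3 4 5 2
(.leaf 4 [4, 4, 9, 1, 1, 8, 1, 1, 4, 4, 1, 8, 1, 1, 1, 1, 1, 1, 4, 1, 1, 1, 1, 4, 4, 1, 1, 1, 1, 1, 3, 1, 1, 3]) (.split 3 5 9 2
(.leaf 4 [3, 3, 9, 0, 1, 8, 1, 1, 4, 3, 1, 8, 1, 1, 1, 1, 1, 1, 4, 1, 1, 1, 1, 4, 4, 1, 1, 1, 1, 1, 3, 1, 1, 3]) (.leaf 5 [3, 3, 9, 0, 1, 4, 4, 4, 4, 3, 4, 4, 4, 4, 4, 4, 4, 4, 4, 1, 4, 4, 5, 4, 4, 4, 5, 4, 4, 3, 5, 2, 3]))))) (.split 5 2 2 5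
(.split 3 0 15 1
(.leaf 4 [3, 3, 9, 1, 1, 8, 1, 1, 4, 3, 1, 8, 1, 5, 1, 1, 1, 5, 4, 4, 5, 1, 5, 4, 4, 5, 1, 4, 4, 5, 3, 5, 2, 3]) (.split 3 1 5 1
(.leaf 4 [3, 3, 9, 1, 1, 8, 1, 1, 4, 3, 1, 8, 1, 5, 1, 1, 1, 5, 4, 4, 5, 1, 5, 4, 4, 5, 1, 4, 4, 5, 3, 5, 2, 3]) (.split 3 4 3 1
(.leaf 4 [3, 3, 9, 1, 1, 4, 1, 1, 4, 3, 1, 4, 1, 5, 1, 1, 1, 5, 4, 4, 5, 1, 5, 4, 4, 5, 1, 4, 4, 5, 3, 5, 2, 3]) (.leaf 2 [3, 3, 1, 4, 4, 4, 4, 3, 4, 4, 4, 5, 4, 4, 4, 5, 4, 5, 3, 4, 3, 4, 4, 5, 5, 3, 5, 5, 5, 5, 2, 3, 3])))) (.leaf 4 [3, 3, 9, 4, 1, 8, 0, 0, 3, 3, 1, 8, 4, 5, 0, 0, 4, 5, 3, 0, 5, 4, 5, 3, 4, 5, 0, 0, 0, 5, 3, 5, 2, 3]))) (.split 4 2 2 3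
(.split 5 2 2 5
(.split 3 0 15 1
(.leaf 4 [3, 3, 4, 1, 1, 4, 1, 1, 4, 3, 1, 4, 1, 5, 1, 1, 1, 5, 4, 4, 5, 1, 5, 4, 4, 5, 4, 4, 4, 5, 3, 5, 2, 3]) (.split 3 1 3 1
(.leaf 4 [3, 3, 4, 1, 1, 4, 1, 1, 4, 3, 1, 4, 1, 5, 1, 1, 1, 5, 4, 4, 5, 1, 5, 4, 4, 5, 4, 4, 4, 5, 3, 5, 2, 3]) (.leaf 2 [3, 4, 1, 4, 4, 4, 4, 3, 4, 4, 4, 5, 4, 4, 4, 5, 4, 5, 3, 4, 3, 4, 4, 5, 5, 3, 5, 5, 5, 5, 2, 3, 3]))) (.leaf 4 [3, 3, 9, 4, 1, 8, 0, 0, 3, 3, 1, 8, 4, 5, 0, 0, 4, 5, 3, 0, 5, 4, 5, 3, 4, 5, 0, 0, 0, 5, 3, 5, 2, 3])) (.leaf 4 [3, 3, 9, 4, 4, 8, 0, 0, 3, 3, 1, 8, 4, 5, 0, 0, 4, 5, 3, 0, 5, 4, 5, 3, 4, 5, 0, 0, 0, 5, 3, 5, 2, 3]))) (.split 0 2 2 13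
(.split 4 2 2 3
(.split 5 2 2 5
(.split 3 0 4 1
(.leaf 1 [3, 1, 1, 1, 4, 1, 1, 4, 3, 1, 4, 1, 5, 1, 1, 1, 5, 4, 4, 5, 3, 1, 4, 1, 5, 4, 5, 5, 3, 4, 4, 4, 5, 5, 2, 5, 3]) (.split 3 1 15 1
(.leaf 4 [3, 3, 4, 1, 1, 4, 1, 1, 4, 3, 1, 4, 1, 5, 1, 1, 1, 5, 4, 4, 5, 1, 5, 4, 4, 5, 4, 4, 4, 5, 3, 5, 2, 3]) (.leaf 2 [3, 4, 1, 4, 4, 4, 4, 3, 4, 4, 4, 5, 4, 4, 4, 5, 4, 5, 3, 4, 3, 4, 4, 5, 5, 3, 5, 5, 5, 5, 2, 3, 3]))) (.leaf 4 [3, 3, 9, 4, 1, 8, 0, 0, 3, 3, 1, 8, 4, 5, 0, 0, 4, 5, 3, 0, 5, 4, 5, 3, 4, 5, 0, 0, 0, 5, 3, 5, 2, 3])) (.leaf 4 [3, 3, 9, 4, 4, 8, 0, 0, 3, 3, 1, 8, 4, 5, 0, 0, 4, 5, 3, 0, 5, 4, 5, 3, 4, 5, 0, 0, 0, 5, 3, 5, 2, 3])) (.leaf 4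 [3, 3, 9, 4, 4, 8, 0, 0, 3, 3, 1, 8, 4, 5, 0, 0, 4, 5, 3, 0, 5, 4, 5, 3, 4, 5, 0, 0, 0, 5, 3, 5, 2, 3])))
  (by decide +kernel)

theorem p43 : Cov 6 fA kA [[0, 1, 5, 6, 6, 6, 7], [0, 0, 2, 3, 3, 3, 5], [0, 0, 0, 1, 1, 1, 1], [0, 0, 0, 0, 1, 1, 2], [0, 3, 15, 19, 19, 20, 26], [0, 0, 0, 1, 1, 1, 3]] :=
.of2 (.split 3 0 1 1
(.split 0 5 1 2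
(.split 3 5 2 1
(.split 4 5 1 4
(.split 0 3 2 1
(.split 4 3 2 3
(.split 5 3 1 1
(.leaf 1 [3, 3, 0, 1, 8, 1, 1, 8, 3, 1, 8, 1, 1, 1, 1, 1, 1, 8, 1, 1, 3, 1, 3, 1, 1, 1, 1, 1, 1, 1, 1, 1, 1, 1, 1, 0, 3]) (.leaf 0 [0, 3, 8, 1, 8, 1, 1, 8, 3, 1, 1, 1, 1, 1, 1, 1, 15, 3, 1, 1, 8, 1, 1, 1, 1, 3, 1, 1, 16, 1, 2, 0, 3])) (.leaf 0 [0, 3, 8, 1, 8, 1, 1, 8, 3, 1, 1, 1, 1, 1, 1, 1, 15, 3, 1, 1, 8, 1, 1, 1, 1, 3, 1, 1, 15, 1, 2, 0, 3])) (.leaf 0 [0, 3, 0, 1, 8, 1, 1, 8, 3, 1, 1, 1, 1, 1, 1, 1, 15, 3, 1, 1, 8, 1, 1, 1, 1, 3, 1, 1, 15, 1, 2, 0, 3])) (.leaf 1 [3, 3, 0, 1, 8, 1, 1, 8, 3, 1, 8, 1, 1, 1, 1, 1, 1, 8, 1, 1, 3, 1, 3, 1, 1, 1, 1, 1, 1, 1, 1, 1, 1,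 1, 1, 0, 3])) (.leaf 1 [3, 3, 0, 1, 8, 1, 1, 8, 3, 1, 8, 1, 1, 1, 1, 1, 1, 8, 1, 1, 3, 1, 3, 1, 1, 4, 1, 1, 1, 1, 1, 1, 1, 1, 1, 0, 3])) (.leaf 4 [3, 3, 9, 1, 1, 8, 1, 1, 8, 3, 1, 8, 1, 1, 1, 1, 1, 1, 8, 1, 1, 1, 1, 8, 4, 1, 1, 1, 1, 1, 3, 1, 1, 3])) (.split 3 4 3 1
(.split 5 0 1 1
(.leaf 1 [3, 3, 0, 1, 8, 1, 1, 8, 3, 1, 8, 1, 1, 1, 1, 1, 1, 8, 1, 1, 3, 1, 3, 1, 1, 4, 1, 1, 8, 1, 1, 6, 1, 5, 1, 0, 3]) (.split 5 3 1 1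
(.leaf 1 [3, 3, 0, 1, 8, 1, 1, 8, 3, 1, 8, 1, 1, 1, 1, 1, 1, 8, 1, 1, 3, 1, 3, 1, 1, 4, 1, 1, 8, 1, 1, 6, 1, 5, 1, 0, 3]) (.split 5 4 5 2
(.leaf 1 [3, 3, 0, 1, 8, 1, 1, 8, 3, 1, 8, 1, 1, 1, 1, 1, 1, 8, 1, 1, 3, 1, 3, 1, 1, 4, 1, 1, 8, 1, 1, 6, 1, 5, 1, 0, 3]) (.leaf 0 [0, 3, 3, 1, 8, 1, 1, 8, 3, 1, 1, 1, 1, 1, 1, 1, 15, 3, 1, 1, 8, 4, 1, 1, 1, 3, 1, 6, 16, 5, 2, 0, 3])))) (.split 0 2 1 3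
(.split 1 2 1 3
(.split 3 2 1 2
(.split 4 2 1 17
(.split 5 2 1 3
(.split 0 3 2 7
(.split 1 3 1 1
(.split 4 3 2 17
(.leaf 2 [5, 0, 1, 1, 1, 1, 1, 5, 10, 1, 10, 10, 5, 1, 10, 10, 1, 2, 5, 5, 4, 10, 4, 10, 5, 4, 10, 5, 2, 5, 2, 4, 3]) (.split 4 5 2 17
(.leaf 2 [5, 0, 1, 1, 1, 1, 1, 5, 5, 1, 10, 1, 5, 1, 10, 1, 1, 16, 5, 5, 4, 10, 4, 1, 5, 4, 10, 5, 16, 5, 2, 1, 3]) (.leaf 2 [5, 1, 1, 1, 1, 1, 1, 5, 5, 1, 10, 1, 5, 1, 10, 1, 1, 1, 5, 5, 4, 10, 4, 1, 4, 4, 10, 5, 1, 5, 5, 1, 3]))) (.split 1 5 1 1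
(.split 4 5 2 17
(.leaf 2 [5, 0, 1, 1, 1, 1, 1, 5, 5, 1, 10, 1, 5, 1, 10, 1, 1, 16, 5, 5, 4, 10, 4, 1, 5, 4, 10, 5, 16, 5, 2, 1, 3]) (.leaf 2 [5, 1, 1, 1, 1, 1, 1, 5, 5, 1, 10, 1, 5, 1, 10, 1, 1, 1, 5, 5, 4, 10, 4, 1, 4, 4, 10, 5, 1, 5, 5, 1, 3])) (.leaf 2 [5, 1, 1, 1, 1, 1, 1, 5, 5, 1, 10, 1, 5, 1, 10, 1, 1, 1, 5, 5, 4, 10, 4, 1, 4, 4, 10, 5, 1, 5, 5, 1, 3]))) (.split 0 5 2 7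
(.split 1 5 1 1
(.split 4 5 2 17
(.leaf 2 [5, 0, 1, 1, 1, 1, 1, 5, 6, 1, 10, 1, 5, 1, 10, 1, 1, 16, 5, 5, 4, 10, 4, 1, 5, 4, 10, 5, 16, 5, 2, 1, 3]) (.leaf 2 [5, 1, 1, 1, 1, 1, 1, 5, 6, 1, 10, 1, 5, 1, 10, 1, 1, 1, 5, 5, 4, 10, 4, 1, 4, 4, 10, 5, 1, 5, 5, 1, 3])) (.leaf 2 [5, 1, 1, 1, 1, 1, 1, 5, 6, 1, 10, 1, 5, 1, 10, 1, 1, 1, 5, 5, 4, 10, 4, 1, 4, 4, 10, 5, 1, 5, 5, 1, 3])) (.leaf 2 [5, 1, 1, 1, 1, 1, 1, 5, 6, 1, 10, 1, 5, 1, 10, 1, 1, 1, 5, 5, 4, 10, 4, 1, 4, 4, 10, 5, 1, 5, 5, 1, 3]))) (.leaf 2 [3, 1, 1, 8, 1, 1, 3, 3, 6, 8, 10, 10, 5, 1, 10, 10, 3, 3, 3, 5, 3, 10, 4, 10, 5, 3, 10, 5, 3, 5, 2, 2, 3])) (.leaf 2 [3, 3, 1, 8, 1, 1, 3, 3, 6,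 8, 10, 10, 5, 1, 10, 10, 3, 3, 3, 5, 3, 10, 4, 10, 5, 3, 10, 5, 3, 5, 2, 3, 3])) (.leaf 2 [3, 3, 1, 8, 8, 8, 3, 3, 6, 8, 10, 10, 5, 8, 10, 10, 3, 3, 3, 5, 3, 10, 4, 10, 5, 3, 10, 5, 3, 5, 2, 3, 3])) (.leaf 2 [3, 3, 1, 8, 8, 8, 3, 3, 6, 8, 10, 8, 5, 8, 10, 8, 3, 3, 3, 5, 3, 10, 4, 8, 5, 3, 10, 5, 3, 5, 2, 3, 3])) (.leaf 2 [3, 3, 1, 8, 8, 8, 3, 3, 6, 8, 10, 0, 5, 8, 10, 0, 3, 0, 3, 5, 3, 10, 4, 0, 0, 3, 10, 5, 0, 5, 2, 3, 3]))))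
  (by decide +kernel)

theorem p44 : Cov 6 fA kA [[0, 3, 15, 30, 30, 31, 37], [0, 0, 2, 6, 6, 6, 8], [0, 0, 0, 1, 1, 1, 1], [0, 3, 15, 42, 48, 49, 61], [0, 0, 0, 9, 9, 10, 13], [0, 0, 0, 4, 4, 4, 6]] :=
.of2 (.split 4 0 4 1
(.split 0 5 2 23
(.split 1 5 1 1
(.split 3 5 2 11
(.split 4 5 2 7
(.split 0 3 1 1
(.split 4 3 1 1
(.leaf 2 [1, 0, 1, 1, 1, 1, 1, 1, 5, 1, 1, 1, 1, 1, 1, 1, 1, 16, 1, 1, 1, 1, 1, 1, 1, 1, 1, 5, 16, 5, 2, 0, 3]) (.leaf 0 [0, 1, 0, 1, 1, 1, 1, 1, 1, 1, 1, 1, 1, 1, 1, 1, 15, 1, 1, 1, 1, 1, 1, 1, 1, 3, 1, 5, 16, 5, 2, 0, 3])) (.leaf 0 [0, 1, 0, 1, 1, 1, 1, 1, 1, 1, 1, 1, 1, 1, 1, 1, 15, 1, 1, 1, 1, 1, 1, 1, 1, 3, 1, 5, 16, 5,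 2, 0, 3])) (.leaf 1 [1, 0, 0, 1, 1, 1, 1, 1, 1, 1, 1, 1, 1, 1, 1, 1, 1, 1, 1, 1, 1, 1, 1, 1, 1, 4, 1, 1, 1, 1, 1, 5, 1, 5, 1, 0, 3])) (.leaf 1 [1, 0, 0, 1, 1, 1, 1, 1, 1, 1, 1, 1, 1, 1, 1, 1, 1, 1, 1, 1, 1, 1, 1, 1, 1, 4, 1, 1, 1, 1, 1, 5, 1, 5, 1, 0, 3])) (.leaf 1 [1, 0, 0, 1, 1, 1, 1, 1, 1, 1, 1, 1, 1, 1, 1, 1, 1, 1, 1, 1, 1, 1, 1, 1, 1, 4, 1, 1, 1, 1, 1, 5, 1, 5, 1, 0, 3])) (.leaf 1 [1, 1, 0, 1, 1, 1, 1, 1, 1, 1, 1, 1, 1, 1, 1, 1, 1, 1, 1, 1, 1, 1, 1, 1, 1, 4, 1, 1, 1, 1, 1, 5, 1, 5, 1, 0, 3])) (.split 4 1 2 3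
(.split 0 4 2 7
(.split 1 4 1 1
(.split 3 4 2 11
(.split 0 5 1 36
(.split 1 5 1 4
(.split 3 5 1 54
(.split 4 5 1 3
(.split 0 3 1 1
(.leaf 2 [1, 0, 1, 1, 1, 1, 1, 1, 5, 1, 1, 1, 1, 1, 1, 1, 1, 16, 1, 1, 1, 1, 1, 1, 1, 1, 5, 5, 16, 5, 2, 0, 3]) (.leaf 0 [0, 1, 0, 1, 1, 1, 1, 1, 1, 1, 1, 1, 1, 1, 1, 5, 15, 1, 1, 1, 1, 1, 1, 1, 1, 5, 5, 5, 16, 5, 2, 0, 3])) (.leaf 2 [1, 0, 1, 1, 1, 1, 1, 1, 5, 1, 1, 1, 1, 1, 1, 1, 1, 5, 1, 1, 1, 1, 1, 1, 1, 1, 5, 5, 5, 5, 5, 0, 3])) (.leaf 2 [1, 0, 1, 1, 1, 1, 1, 1, 5, 1, 1, 1, 1, 1, 1, 1, 1, 5, 1, 1, 1, 1, 1, 1, 1, 1, 5, 5, 5, 5, 5, 0, 3])) (.leaf 2 [1, 0, 1, 1, 1, 1, 1, 1, 5, 1, 1, 1, 1, 1, 1, 1, 1, 5, 1, 1,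 1, 1, 1, 1, 1, 1, 5, 5, 5, 5, 5, 0, 3])) (.leaf 2 [1, 0, 1, 1, 1, 1, 1, 1, 5, 1, 1, 1, 1, 1, 1, 1, 1, 5, 1, 1, 1, 1, 1, 1, 1, 1, 5, 5, 5, 5, 5, 0, 3])) (.split 3 5 2 11
(.split 0 5 1 36
(.split 1 5 1 4
(.split 3 5 1 10
(.split 4 5 1 54
(.split 3 0 1 1
(.split 4 0 1 1
(.leaf 0 [0, 1, 0, 1, 1, 1, 1, 1, 1, 1, 1, 1, 1, 1, 1, 5, 15, 1, 1, 1, 1, 1, 1, 1, 1, 5, 5, 5, 16, 5, 2, 0, 3]) (.leaf 2 [1, 0, 1, 1, 1, 1, 1, 1, 5, 1, 1, 1, 1, 1, 1, 1, 1, 16, 1, 1, 1, 1, 1, 1, 1, 1, 5, 5, 16, 5, 2, 0, 3])) (.leaf 2 [1, 0, 1, 1, 1, 1, 1, 1, 5, 1, 1, 1, 1, 1, 1, 1, 1, 16, 1, 1, 1, 1, 1, 1, 1, 1, 5, 5, 16, 5, 2, 0, 3])) (.leaf 2 [1, 0, 1, 1, 1, 1, 1, 1, 5, 1, 1,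 1, 1, 1, 1, 1, 1, 5, 1, 1, 1, 1, 1, 1, 1, 1, 5, 5, 5, 5, 5, 0, 3])) (.leaf 2 [1, 0, 1, 1, 1, 1, 1, 1, 5, 1, 1, 1, 1, 1, 1, 1, 1, 5, 1, 1, 1, 1, 1, 1, 1, 1, 5, 5, 5, 5, 5, 0, 3])) (.leaf 2 [1, 0, 1, 1, 1, 1, 1, 1, 5, 1, 1, 1, 1, 1, 1, 1, 1, 5, 1, 1, 1, 1, 1, 1, 1, 1, 5, 5, 5, 5, 5, 0, 3])) (.leaf 2 [1, 0, 1, 1, 1, 1, 1, 1, 5, 1, 1, 1, 1, 1, 1, 1, 1, 5, 1, 1, 1, 1, 1, 1, 1, 1, 5, 5, 5, 5, 5, 0, 3])) (.leaf 2 [1, 0, 1, 1, 1, 1, 1, 1, 5, 1, 1, 1, 1, 1, 1, 1, 1, 1, 1, 1, 1, 1, 4, 1, 1, 1, 5, 5, 1, 5, 1, 0, 3]))) (.split 1 5 1 1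
(.split 3 5 2 11
(.split 0 5 1 36
(.split 3 5 1 10
(.split 4 5 1 4
(.split 3 0 1 1
(.leaf 0 [0, 1, 0, 1, 1, 1, 1, 1, 1, 1, 1, 1, 1, 1, 1, 5, 15, 1, 1, 1, 1, 1, 1, 1, 1, 5, 5, 5, 16, 5, 2, 0, 3]) (.leaf 2 [1, 0, 1, 1, 1, 1, 1, 1, 5, 1, 1, 1, 1, 1, 1, 1, 1, 16, 1, 1, 1, 1, 1, 1, 1, 1, 5, 5, 16, 5, 2, 0, 3])) (.leaf 2 [1, 0, 1, 1, 1, 1, 1, 1, 5, 1, 1, 1, 1, 1, 1, 1, 1, 5, 1, 1, 1, 1, 1, 1, 1, 1, 5, 5, 5, 5, 5, 0, 3])) (.leaf 2 [1, 0, 1, 1, 1, 1, 1, 1, 5, 1, 1, 1, 1, 1, 1, 1, 1, 5, 1, 1, 1, 1, 1, 1, 1, 1, 5, 5, 5, 5, 5, 0, 3])) (.leaf 2 [1, 0, 1, 1, 1, 1, 1, 1, 5, 1, 1, 1, 1, 1, 1, 1, 1, 5, 1, 1, 1, 1, 1, 1, 1, 1, 5, 5, 5, 5, 5, 0, 3])) (.leaf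 2 [1, 0, 1, 1, 1, 1, 1, 1, 5, 1, 1, 1, 1, 1, 1, 1, 1, 1, 1, 1, 1, 1, 4, 1, 1, 1, 5, 5, 1, 5, 1, 0, 3])) (.leaf 2 [1, 0, 1, 1, 1, 1, 1, 1, 5, 1, 1, 1, 1, 1, 1, 1, 1, 1, 1, 1, 1, 1, 4, 1, 1, 1, 5, 5, 1, 5, 1, 0, 3]))) (.split 0 5 2 7
(.split 1 5 1 1
(.split 3 5 2 11
(.split 0 5 1 8
(.split 3 5 1 10
(.split 4 5 1 36
(.split 0 3 1 1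
(.split 4 3 1 1
(.leaf 2 [1, 0, 1, 1, 1, 1, 1, 1, 5, 1, 1, 1, 1, 1, 1, 1, 1, 16, 1, 1, 1, 1, 1, 1, 1, 1, 5, 5, 16, 5, 2, 0, 3]) (.leaf 0 [0, 1, 0, 1, 1, 1, 1, 1, 1, 1, 1, 1, 1, 1, 1, 5, 15, 1, 1, 1, 1, 1, 1, 1, 1, 5, 5, 5, 16, 5, 2, 0, 3])) (.leaf 0 [0, 1, 0, 1, 1, 1, 1, 1, 1, 1, 1, 1, 1, 1, 1, 5, 15, 1, 1, 1, 1, 1, 1, 1, 1, 5, 5, 5, 16, 5, 2, 0, 3])) (.leaf 2 [1, 0, 1, 1, 1, 1, 1, 1, 5, 1, 1, 1, 1, 1, 1, 1, 1, 5, 1, 1, 1, 1, 1, 1, 1, 1, 5, 5, 5, 5, 5, 0, 3])) (.leaf 2 [1, 0, 1, 1, 1, 1, 1, 1, 5, 1, 1, 1, 1, 1, 1, 1, 1, 5, 1, 1, 1, 1, 1, 1, 1, 1, 5, 5, 5, 5, 5, 0, 3])) (.leaf 2 [1, 0, 1, 1, 1, 1, 1, 1, 5, 1, 1, 1, 1, 1, 1, 1, 1, 5, 1, 1, 1,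 1, 1, 1, 1, 1, 5, 5, 5, 5, 5, 0, 3])) (.leaf 2 [1, 0, 1, 1, 1, 1, 1, 1, 5, 1, 1, 1, 1, 1, 1, 1, 1, 1, 1, 1, 1, 1, 4, 1, 1, 1, 5, 5, 1, 5, 1, 0, 3])) (.leaf 2 [1, 0, 1, 1, 1, 1, 1, 1, 5, 1, 1, 1, 1, 1, 1, 1, 1, 1, 1, 1, 1, 1, 4, 1, 1, 1, 5, 5, 1, 5, 1, 0, 3])) (.leaf 2 [1, 0, 1, 1, 1, 1, 1, 1, 5, 1, 1, 1, 1, 1, 1, 1, 1, 1, 1, 1, 1, 1, 4, 1, 1, 1, 5, 5, 1, 5, 1, 0, 3]))) (.leaf 2 [1, 0, 1, 1, 1, 1, 1, 1, 5, 1, 1, 5, 1, 1, 1, 5, 1, 2, 1, 1, 1, 1, 4, 5, 5, 1, 5, 5, 2, 5, 2, 1, 3])))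
  (by decide +kernel)

theorem p45 : Cov 6 fA kA [[0, 3, 15, 42, 48, 49, 61], [0, 0, 2, 6, 6, 6, 8], [0, 0, 0, 1, 1, 1, 1], [0, 0, 0, 2, 3, 3, 4], [0, 0, 0, 9, 9, 10, 13], [0, 0, 0, 4, 4, 4, 6]] :=
.of2 (.split 3 1 1 1
(.split 4 1 2 3
(.leaf 2 [1, 0, 1, 1, 1, 1, 1, 1, 5, 1, 10, 1, 1, 1, 10, 1, 1, 16, 1, 1, 1, 10, 4, 1, 1, 1, 5, 5, 16, 5, 2, 0, 3]) (.leaf 2 [1, 0, 1, 1, 1, 1, 1, 1, 5, 1, 10, 5, 1, 1, 10, 5, 1, 2, 1, 1, 1, 10, 4, 5, 5, 1, 5, 5, 2, 5, 2, 1, 3])) (.leaf 2 [5, 0, 1, 1, 1, 1, 1, 5, 5, 1, 10, 5, 5, 1, 10, 5, 1, 2, 5, 5, 4, 10, 4, 5, 5, 4, 5, 5, 2, 5, 2, 4, 3]))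
  (by decide +kernel)

theorem p46 : Cov 6 fA kA [[0, 3, 15, 30, 30, 31, 37], [0, 0, 2, 6, 6, 6, 8], [0, 0, 0, 4, 4, 4, 6], [0, 0, 0, 2, 3, 3, 4], [0, 0, 0, 9, 9, 10, 13], [0, 0, 0, 1, 1, 1, 3]] :=
.of2 (.leaf 1 [3, 1, 0, 1, 8, 1, 1, 3, 3, 1, 8, 10, 5, 5, 1, 10, 5, 3, 5, 3, 3, 5, 3, 10, 3, 4, 5, 5, 3, 1, 5, 5, 5, 5, 2, 2, 3])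
  (by decide +kernel)

theorem p47 : Cov 6 fA kA [[0, 3, 15, 30, 30, 31, 37], [0, 0, 2, 6, 6, 6, 8], [0, 0, 0, 9, 9, 10, 13], [0, 0, 0, 2, 3, 3, 4], [0, 0, 0, 1, 1, 2, 5], [0, 0, 0, 1, 1, 1, 3]] :=
.of2 (.leaf 1 [3, 8, 0, 1, 8, 1, 1, 3, 3, 1, 8, 10, 5, 5, 1, 10, 5, 3, 5, 3, 3, 5, 3, 10, 3, 4, 5, 5, 3, 5, 5, 5, 5, 5, 2, 3, 3])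
  (by decide +kernel)

theorem p48 : Cov 6 fA kA [[0, 3, 15, 30, 30, 31, 37], [0, 0, 2, 6, 6, 6, 8], [0, 0, 0, 2, 3, 3, 4], [0, 0, 0, 0, 1, 1, 2], [0, 0, 0, 1, 1, 2, 5], [0, 0, 0, 1, 1, 1, 3]] :=
.of2 (.leaf 1 [3, 5, 0, 1, 8, 8, 8, 3, 3, 1, 8, 10, 5, 5, 8, 10, 5, 3, 5, 3, 3, 5, 3, 10, 3, 4, 5, 5, 3, 5, 5, 5, 5, 5, 2, 3, 3])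
  (by decide +kernel)

theorem p49 : Cov 6 fA kA [[0, 3, 15, 30, 30, 31, 37], [0, 0, 2, 3, 3, 3, 5], [0, 0, 2, 6, 6, 6, 8], [0, 0, 0, 0, 1, 1, 2], [0, 0, 0, 1, 1, 2, 5], [0, 0, 0, 1, 1, 1, 3]] :=
.of2 (.leaf 1 [3, 5, 0, 1, 8, 8, 8, 3, 3, 1, 8, 10, 8, 5, 8, 10, 8, 3, 5, 3, 3, 5, 3, 10, 3, 4, 8, 5, 3, 5, 5, 5, 5, 5, 2, 3, 3])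
  (by decide +kernel)

theorem p50 : Cov 6 fA kA [[0, 3, 15, 19, 19, 20, 26], [0, 0, 2, 3, 3, 3, 5], [0, 3, 15, 30, 30, 31, 37], [0, 0, 0, 0, 1, 1, 2], [0, 0, 0, 1, 1, 2, 5], [0, 0, 0, 1, 1, 1, 3]] :=
.of2 (.leaf 1 [3, 3, 0, 1, 8, 8, 8, 3, 3, 1, 8, 10, 0, 5, 8, 10, 0, 3, 5, 3, 3, 5, 3, 10, 3, 4, 0, 0, 3, 5, 5, 5, 0, 5, 2, 3, 3])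
  (by decide +kernel)

theorem p51 : Cov 6 fA kA [[0, 1, 5, 6, 6, 6, 7], [0, 0, 2, 3, 3, 3, 5], [0, 0, 0, 1, 1, 1, 1], [0, 0, 0, 0, 1, 1, 2], [0, 0, 0, 0, 0, 1, 2], [0, 0, 0, 1, 1, 2, 5]] :=
.of2 (.split 4 0 1 3
(.split 5 0 1 5
(.split 3 0 1 1
(.leaf 4 [3, 8, 9, 1, 1, 8, 1, 1, 8, 8, 1, 8, 1, 1, 1, 1, 1, 1, 8, 1, 1, 1, 1, 8, 4, 1, 1, 1, 1, 1, 3, 1, 1, 3]) (.split 3 4 3 1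
(.leaf 4 [3, 3, 9, 1, 1, 8, 1, 1, 8, 3, 1, 8, 1, 1, 1, 1, 1, 1, 8, 1, 1, 1, 1, 8, 4, 1, 1, 1, 6, 1, 3, 5, 1, 3]) (.split 3 5 5 1
(.leaf 4 [3, 3, 3, 0, 1, 8, 1, 1, 8, 3, 1, 8, 1, 1, 1, 1, 1, 1, 8, 1, 1, 1, 1, 8, 4, 1, 1, 1, 6, 1, 3, 5, 1, 3]) (.leaf 2 [3, 3, 1, 8, 8, 8, 3, 3, 6, 8, 10, 4, 4, 8, 10, 4, 3, 4, 3, 4, 3, 10, 4, 4, 5, 3, 10, 5, 4, 5, 2, 3, 3])))) (.split 5 2 2 5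
(.split 5 0 1 3
(.split 3 0 5 1
(.leaf 4 [3, 3, 9, 1, 1, 8, 1, 1, 8, 3, 1, 8, 1, 1, 1, 1, 1, 1, 8, 1, 1, 1, 1, 8, 4, 1, 1, 1, 6, 1, 3, 1, 1, 3]) (.split 3 4 3 1
(.leaf 4 [3, 3, 9, 1, 1, 8, 1, 1, 8, 3, 1, 8, 1, 1, 1, 1, 1, 1, 8, 1, 1, 1, 1, 8, 4, 1, 1, 1, 6, 1, 3, 5, 1, 3]) (.split 3 5 15 1
(.leaf 1 [3, 3, 0, 1, 8, 1, 1, 8, 3, 1, 8, 1, 1, 1, 1, 1, 1, 8, 1, 1, 3, 1, 3, 1, 1, 4, 1, 1, 8, 1, 1, 6, 1, 5, 1, 0, 3]) (.leaf 2 [3, 3, 1, 8, 8, 8, 3, 3, 6, 8, 10, 4, 4, 8, 10, 4, 3, 4, 3, 4, 3, 10, 4, 4, 5, 3, 10, 5, 4, 5, 2, 3, 3])))) (.leaf 4 [3, 3, 9, 4, 1, 8, 8, 8, 3, 3, 1, 8, 10, 5, 4, 8, 10, 5, 3, 5, 5, 10, 5, 3, 4, 5, 8, 5, 5, 5, 3, 5, 2, 3])) (.leaf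 4 [3, 3, 9, 4, 1, 8, 0, 0, 3, 3, 1, 8, 8, 5, 0, 0, 8, 5, 3, 0, 5, 8, 5, 3, 4, 5, 0, 0, 0, 5, 3, 5, 2, 3]))) (.split 4 2 2 3
(.split 5 2 2 5
(.leaf 4 [3, 3, 9, 4, 1, 8, 8, 8, 3, 3, 1, 8, 10, 5, 4, 8, 10, 5, 3, 5, 5, 10, 5, 3, 4, 5, 8, 5, 5, 5, 3, 5, 2, 3]) (.leaf 4 [3, 3, 9, 4, 1, 8, 0, 0, 3, 3, 1, 8, 8, 5, 0, 0, 8, 5, 3, 0, 5, 8, 5, 3, 4, 5, 0, 0, 0, 5, 3, 5, 2, 3])) (.leaf 4 [3, 3, 9, 4, 8, 8, 0, 0, 3, 3, 1, 8, 8, 5, 0, 0, 8, 5, 3, 0, 5, 8, 5, 3, 4, 5, 0, 0, 0, 5, 3, 5, 2, 3])))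
  (by decide +kernel)

theorem p52 : Cov 6 fA kA [[0, 1, 5, 6, 6, 6, 7], [0, 0, 1, 1, 1, 1, 1], [0, 0, 0, 1, 1, 1, 1], [0, 0, 0, 0, 1, 1, 2], [0, 0, 0, 0, 0, 1, 2], [0, 0, 2, 3, 3, 3, 5]] :=
.of2 (.split 0 3 1 2
(.split 4 3 1 2
(.leaf 5 [3, 3, 9, 4, 8, 8, 8, 8, 17, 3, 10, 8, 10, 4, 4, 8, 10, 4, 17, 10, 4, 10, 5, 17, 4, 4, 5, 5, 5, 3, 5, 2, 3]) (.split 4 5 1 1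
(.leaf 5 [3, 3, 9, 4, 8, 8, 8, 8, 17, 3, 5, 8, 10, 4, 4, 8, 10, 4, 17, 5, 4, 10, 5, 17, 4, 4, 5, 5, 5, 3, 5, 2, 3]) (.leaf 5 [3, 3, 9, 4, 4, 8, 4, 4, 5, 3, 4, 8, 4, 4, 4, 4, 4, 4, 5, 4, 4, 4, 5, 5, 4, 4, 5, 5, 4, 3, 5, 2, 3]))) (.split 0 5 1 1
(.split 4 5 1 1
(.split 3 0 1 1
(.leaf 4 [3, 3, 9, 1, 1, 8, 1, 1, 8, 3, 1, 8, 1, 1, 1, 1, 1, 1, 8, 6, 1, 1, 5, 8, 4, 1, 8, 6, 6, 5, 3, 5, 4, 3]) (.leaf 5 [3, 3, 9, 1, 1, 8, 1, 1, 17, 3, 6, 8, 1, 1, 1, 1, 1, 1, 17, 5, 1, 1, 5, 17, 4, 1, 1, 8, 5, 3, 5, 4, 3])) (.leaf 4 [3, 3, 9, 4, 4, 8, 4, 4, 17, 3, 1, 8, 1, 4, 1, 4, 1, 4, 17, 4, 4, 1, 5, 17, 4, 4, 4, 4, 4, 5, 3, 5, 2, 3])) (.leaf 4 [3, 3, 9, 4, 4, 8,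 4, 4, 17, 3, 1, 8, 1, 4, 1, 4, 1, 4, 17, 4, 4, 1, 4, 17, 4, 4, 4, 4, 4, 5, 3, 5, 2, 3])))
  (by decide +kernel)

theorem p53 : Cov 6 fA kA [[0, 1, 1, 2, 2, 2, 3], [0, 0, 1, 1, 1, 1, 1], [0, 0, 0, 1, 1, 1, 3], [0, 0, 0, 0, 1, 1, 2], [0, 0, 0, 0, 0, 1, 2], [0, 0, 0, 0, 0, 0, 1]] :=
.of2 (.split 2 1 1 2
(.split 3 1 1 3
(.split 4 1 1 3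
(.split 5 1 1 2
(.split 3 0 1 1
(.split 4 0 1 1
(.split 5 0 1 1
(.leaf 4 [3, 3, 9, 1, 1, 8, 1, 1, 8, 3, 1, 8, 1, 0, 0, 1, 1, 0, 8, 1, 0, 1, 0, 8, 4, 0, 1, 1, 1, 0, 3, 1, 0, 3]) (.leaf 5 [3, 3, 9, 1, 1, 8, 1, 1, 8, 3, 8, 8, 1, 0, 0, 1, 1, 0, 8, 1, 0, 1, 0, 8, 4, 0, 0, 1, 1, 3, 1, 0, 3])) (.leaf 5 [3, 3, 9, 8, 8, 8, 8, 8, 8, 3, 8, 8, 1, 0, 0, 8, 1, 0, 8, 8, 0, 1, 0, 8, 4, 0, 0, 5, 8, 3, 5, 0, 3])) (.leaf 5 [3, 3, 9, 8, 8, 8, 8, 8, 17, 3, 8, 8, 8, 0, 0, 8, 8, 0, 17, 8, 0, 8, 0, 17, 4, 0, 0, 5, 8, 3, 5, 0, 3])) (.leaf 5 [3, 3, 3, 8, 0, 8, 8, 8, 3, 3, 0, 8, 8, 0, 0, 8, 8, 0, 3, 0, 0, 8, 0, 3, 4, 0, 0, 5, 8, 3, 5, 0, 3])) (.leaf 5 [3, 3, 3, 8, 0,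 8, 8, 8, 3, 3, 0, 8, 8, 0, 0, 8, 8, 0, 3, 0, 0, 8, 0, 3, 4, 0, 0, 5, 8, 3, 5, 2, 3])) (.leaf 5 [3, 3, 3, 8, 0, 8, 8, 8, 3, 3, 0, 8, 8, 0, 0, 8, 8, 0, 3, 0, 0, 8, 0, 3, 4, 0, 0, 5, 8, 3, 5, 2, 3])) (.leaf 3 [0, 3, 0, 8, 0, 3, 3, 3, 0, 0, 0, 0, 0, 0, 0, 0, 3, 0, 0, 0, 3, 0, 0, 2, 3, 3]))
  (by decide +kernel)

theorem p54 : Cov 6 fA kA [[0, 1, 1, 1, 1, 1, 2], [0, 0, 1, 1, 1, 1, 1], [0, 1, 1, 2, 2, 2, 3], [0, 0, 0, 0, 1, 1, 2], [0, 0, 0, 0, 0, 1, 2], [0, 0, 0, 0, 0, 0, 1]] :=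
.of2 (.leaf 6 [3, 3, 11, 11, 11, 11, 11, 17, 3, 1, 11, 0, 0, 11, 11, 17, 17, 11, 3, 9, 4, 0, 11, 3, 5, 2, 3, 3])
  (by decide +kernel)

theorem p55 : Cov 6 fA kA [[0, 1, 1, 3, 4, 4, 6], [0, 0, 2, 3, 7, 7, 11], [0, 0, 0, 1, 1, 1, 1], [0, 0, 0, 0, 1, 1, 2], [0, 0, 0, 0, 0, 1, 1], [0, 0, 0, 1, 1, 2, 3]] :=
.of2 (.split 4 3 1 2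
(.split 5 3 1 1
(.leaf 2 [3, 0, 4, 4, 4, 4, 4, 3, 4, 4, 4, 4, 4, 4, 4, 4, 4, 4, 3, 4, 3, 4, 4, 4, 2, 3, 4, 2, 4, 5, 2, 3, 3]) (.leaf 2 [3, 0, 4, 4, 4, 4, 4, 3, 4, 4, 4, 4, 4, 4, 4, 4, 4, 4, 3, 4, 3, 4, 4, 4, 2, 3, 4, 2, 4, 5, 2, 3, 3])) (.leaf 2 [3, 0, 4, 4, 4, 4, 4, 3, 4, 4, 4, 4, 4, 4, 4, 4, 4, 4, 3, 4, 3, 4, 4, 4, 2, 3, 4, 2, 4, 5, 2, 3, 3]))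
  (by decide +kernel)

theorem p56 : Cov 6 fA kA [[0, 1, 1, 3, 4, 4, 6], [0, 1, 7, 12, 13, 13, 15], [0, 0, 0, 1, 1, 1, 1], [0, 0, 2, 3, 7, 7, 11], [0, 0, 0, 0, 0, 1, 1], [0, 0, 0, 1, 1, 2, 3]] :=
.of2 (.split 4 0 6 1
(.split 1 5 1 12
(.leaf 2 [3, 0, 4, 4, 4, 4, 4, 3, 4, 4, 4, 4, 4, 4, 4, 4, 4, 4, 3, 4, 3, 4, 4, 4, 2, 3, 4, 2, 4, 5, 2, 3, 3]) (.split 1 0 1 2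
(.split 4 0 1 8
(.split 5 0 1 8
(.split 0 3 2 1
(.split 1 3 2 9
(.split 4 3 2 9
(.split 5 3 2 3
(.leaf 2 [3, 0, 1, 4, 4, 4, 4, 3, 4, 4, 4, 4, 4, 4, 4, 4, 4, 4, 3, 4, 3, 4, 4, 4, 4, 3, 4, 5, 4, 5, 2, 3, 3]) (.leaf 2 [3, 0, 1, 4, 4, 4, 4, 3, 4, 4, 4, 4, 4, 4, 4, 4, 4, 4, 3, 4, 3, 4, 4, 4, 4, 3, 4, 4, 4, 5, 2, 3, 3])) (.leaf 2 [3, 0, 1, 4, 4, 4, 4, 3, 4, 4, 4, 4, 4, 4, 4, 4, 4, 4, 3, 4, 3, 4, 4, 4, 4, 3, 4, 4, 4, 5, 2, 3, 3])) (.leaf 2 [3, 0, 1, 4, 4, 4, 4, 3, 4, 4, 4, 4, 4, 4, 4, 4, 4, 4, 3, 4, 3, 4, 4, 4, 4, 3, 4, 4, 4, 5, 2, 3, 3])) (.leaf 2 [3, 0, 1, 4, 1, 1, 4, 3, 4, 4, 4, 4, 4, 1, 4, 4, 4, 4, 3, 4, 3, 4, 4, 4, 4, 3, 4, 4, 4, 4, 2, 3, 3]))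 (.split 5 3 1 8
(.split 0 2 1 39
(.split 1 2 1 3
(.split 3 2 1 7
(.split 4 2 1 24
(.split 5 2 1 79
(.split 0 3 2 3
(.split 1 3 2 9
(.split 4 3 2 9
(.leaf 2 [4, 0, 1, 1, 1, 1, 1, 4, 4, 1, 4, 4, 4, 1, 4, 4, 1, 4, 4, 4, 4, 4, 4, 4, 4, 4, 4, 5, 4, 5, 2, 1, 3]) (.split 4 5 7 3
(.leaf 2 [4, 0, 1, 1, 1, 1, 1, 4, 4, 1, 4, 4, 4, 1, 4, 4, 1, 4, 4, 4, 4, 4, 4, 4, 4, 4, 4, 5, 4, 5, 2, 1, 3]) (.leaf 2 [4, 0, 1, 1, 1, 1, 1, 4, 4, 1, 4, 4, 4, 1, 4, 4, 1, 4, 4, 4, 4, 4, 4, 4, 4, 4, 4, 4, 4, 5, 2, 1, 3]))) (.split 1 5 7 3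
(.split 4 5 7 3
(.leaf 2 [4, 0, 1, 1, 1, 1, 1, 4, 4, 1, 4, 4, 4, 1, 4, 4, 1, 4, 4, 4, 4, 4, 4, 4, 4, 4, 4, 5, 4, 5, 2, 1, 3]) (.leaf 2 [4, 0, 1, 1, 1, 1, 1, 4, 4, 1, 4, 4, 4, 1, 4, 4, 1, 4, 4, 4, 4, 4, 4, 4, 4, 4, 4, 4, 4, 5, 2, 1, 3])) (.leaf 2 [4, 0, 1, 1, 1, 1, 1, 4, 4, 1, 4, 4, 4, 1, 4, 4, 1, 4, 4, 4, 4, 4, 4, 4, 4, 4, 4, 4, 4, 5, 2, 1, 3]))) (.split 0 5 7 1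
(.split 1 5 7 3
(.split 4 5 7 3
(.leaf 2 [4, 0, 1, 1, 1, 1, 1, 4, 4, 1, 4, 4, 4, 1, 4, 4, 1, 4, 4, 4, 4, 4, 4, 4, 4, 4, 4, 5, 4, 5, 2, 1, 3]) (.leaf 2 [4, 0, 1, 1, 1, 1, 1, 4, 4, 1, 4, 4, 4, 1, 4, 4, 1, 4, 4, 4, 4, 4, 4, 4, 4, 4, 4, 4, 4, 5, 2, 1, 3])) (.leaf 2 [4, 0, 1, 1, 1, 1, 1, 4, 4, 1, 4, 4, 4, 1, 4, 4, 1, 4, 4, 4, 4, 4, 4, 4, 4, 4, 4, 4, 4, 5, 2, 1, 3])) (.leaf 2 [4, 0, 1, 1, 1, 1, 1, 4, 4, 1, 1, 4, 4, 1, 1, 4, 1, 4, 4, 4, 1, 1, 4, 4, 4, 4, 4, 4, 4, 4, 2, 1, 3]))) (.leaf 3 [0, 3, 0, 4, 4, 5, 4, 3, 1, 4, 4, 4, 4, 4, 4, 4, 3, 4, 4, 3, 3, 4, 5, 2, 5, 3])) (.leaf 3 [0, 3, 0, 4, 4, 3, 4, 3, 1, 4, 4, 4, 4, 4, 4, 4, 3, 4, 4, 3, 3, 4, 5, 2,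 3, 3])) (.leaf 3 [0, 3, 0, 4, 4, 3, 4, 3, 1, 4, 4, 4, 4, 4, 4, 4, 3, 4, 4, 3, 3, 4, 5, 2, 3, 3])) (.leaf 3 [0, 3, 0, 4, 0, 3, 4, 3, 1, 4, 4, 4, 4, 4, 4, 4, 3, 4, 4, 3, 3, 4, 5, 2, 3, 3])) (.leaf 3 [0, 3, 0, 4, 0, 3, 4, 3, 1, 4, 4, 4, 4, 4, 4, 4, 3, 4, 4, 3, 3, 4, 5, 2, 3, 3])) (.leaf 5 [3, 3, 0, 0, 1, 4, 4, 4, 4, 3, 4, 4, 4, 4, 4, 4, 4, 4, 4, 4, 4, 4, 4, 4, 4, 4, 4, 4, 4, 3, 5, 2, 3]))) (.split 4 3 1 8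
(.split 5 3 1 8
(.split 0 1 1 3
(.split 4 1 3 1
(.split 5 1 3 1
(.leaf 2 [3, 0, 1, 4, 4, 4, 4, 3, 4, 4, 4, 4, 4, 4, 4, 4, 4, 4, 3, 4, 3, 4, 4, 4, 4, 3, 4, 5, 4, 5, 5, 3, 3]) (.leaf 2 [3, 0, 1, 4, 4, 4, 4, 3, 4, 4, 4, 4, 4, 4, 4, 4, 4, 4, 3, 4, 3, 4, 4, 4, 4, 3, 4, 5, 4, 5, 5, 3, 3])) (.leaf 2 [3, 0, 1, 4, 4, 4, 4, 3, 4, 4, 4, 4, 4, 4, 4, 4, 4, 4, 3, 4, 3, 4, 4, 4, 4, 3, 4, 5, 4, 5, 5, 3, 3])) (.leaf 2 [3, 0, 1, 4, 4, 4, 4, 3, 4, 4, 4, 4, 4, 4, 4, 4, 4, 4, 3, 4, 3, 4, 4, 4, 4, 3, 4, 2, 4, 5, 2, 3, 3])) (.leaf 5 [3, 3, 0, 0, 1, 4, 4, 4, 4, 3, 4, 4, 4, 4, 4, 4, 4, 4, 4, 4, 4, 4, 4, 4, 4, 4, 4, 4, 4, 3, 5, 2, 3])) (.leaf 5 [3, 3, 0, 0, 4, 4, 4,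 4, 4, 3, 4, 4, 4, 4, 4, 4, 4, 4, 4, 4, 4, 4, 4, 4, 4, 4, 4, 4, 4, 3, 5, 2, 3]))) (.split 1 3 1 2
(.split 4 3 1 8
(.split 5 3 1 8
(.leaf 2 [3, 0, 1, 4, 4, 4, 4, 3, 4, 4, 4, 4, 4, 4, 4, 4, 4, 4, 3, 4, 3, 4, 4, 4, 4, 3, 4, 5, 4, 5, 5, 3, 3]) (.leaf 2 [3, 0, 1, 4, 4, 4, 4, 3, 4, 4, 4, 4, 4, 4, 4, 4, 4, 4, 3, 4, 3, 4, 4, 4, 4, 3, 4, 5, 4, 5, 5, 3, 3])) (.leaf 5 [3, 3, 0, 0, 4, 4, 4, 4, 4, 3, 4, 4, 4, 4, 4, 4, 4, 4, 4, 4, 4, 4, 4, 4, 4, 4, 4, 4, 4, 3, 5, 2, 3])) (.leaf 5 [3, 3, 4, 4, 4, 4, 4, 4, 4, 3, 4, 4, 4, 4, 4, 4, 4, 4, 4, 4, 4, 4, 4, 4, 4, 4, 4, 4, 4, 3, 5, 2, 3])))) (.split 4 3 2 1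
(.split 1 5 1 12
(.leaf 3 [0, 3, 0, 4, 4, 5, 4, 3, 1, 4, 4, 4, 4, 4, 4, 4, 3, 4, 4, 5, 3, 4, 5, 2, 3, 3]) (.leaf 5 [3, 3, 4, 4, 4, 4, 4, 4, 4, 3, 4, 4, 4, 4, 4, 4, 4, 4, 4, 4, 4, 4, 5, 4, 4, 4, 4, 4, 4, 3, 5, 2, 3])) (.split 4 5 1 1
(.leaf 7 [0, 5, 11, 4, 4, 4, 4, 4, 5, 1, 4, 4, 4, 4, 4, 4, 4, 4, 4, 4, 5, 4, 4, 4, 4, 3, 5, 2, 3]) (.leaf 6 [4, 5, 11, 4, 4, 4, 4, 4, 5, 1, 4, 4, 4, 4, 4, 4, 4, 4, 5, 4, 4, 4, 4, 5, 5, 2, 3, 3]))))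
  (by decide +kernel)

theorem p57 : Cov 6 fA kA [[0, 1, 7, 12, 13, 13, 15], [0, 0, 2, 3, 3, 3, 3], [0, 0, 0, 1, 1, 1, 1], [0, 0, 2, 3, 7, 7, 11], [0, 0, 0, 0, 0, 1, 1], [0, 0, 0, 1, 1, 2, 3]] :=
.of2 (.split 1 3 1 1
(.split 4 3 2 1
(.leaf 2 [3, 4, 4, 4, 4, 4, 4, 3, 4, 4, 4, 4, 4, 4, 4, 4, 4, 4, 3, 4, 5, 4, 4, 4, 5, 3, 4, 5, 4, 5, 2, 3, 3]) (.split 4 5 1 1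
(.leaf 2 [5, 4, 4, 4, 4, 4, 4, 5, 4, 4, 4, 4, 4, 4, 4, 4, 4, 4, 5, 4, 5, 4, 4, 4, 5, 3, 4, 5, 4, 5, 2, 3, 3]) (.leaf 2 [5, 4, 4, 4, 4, 4, 4, 5, 4, 4, 4, 4, 4, 4, 4, 4, 4, 4, 5, 4, 5, 4, 4, 4, 5, 3, 4, 5, 4, 5, 2, 3, 3]))) (.split 1 5 1 2
(.split 4 5 1 1
(.leaf 2 [5, 4, 4, 4, 4, 4, 4, 5, 4, 4, 4, 4, 4, 4, 4, 4, 4, 4, 5, 4, 5, 4, 4, 4, 5, 5, 4, 5, 4, 5, 2, 5, 3]) (.leaf 2 [5, 4, 4, 4, 4, 4, 4, 5, 4, 4, 4, 4, 4, 4, 4, 4, 4, 4, 5, 4, 5, 4, 4, 4, 5, 5, 4, 5, 4, 5, 2, 5, 3])) (.leaf 2 [5, 4, 4, 4, 4, 4, 4, 5, 4, 4, 4, 4, 4, 4, 4, 4, 4, 4, 5, 4, 5, 4, 4, 4, 4, 5, 4, 4, 4, 5, 4, 4, 3])))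
  (by decide +kernel)

theorem p58 : Cov 6 fA kA [[0, 1, 1, 3, 3, 3, 4], [0, 0, 2, 3, 3, 3, 3], [0, 0, 0, 1, 1, 1, 1], [0, 1, 1, 3, 4, 4, 6], [0, 0, 0, 0, 0, 1, 1], [0, 0, 0, 1, 1, 2, 3]] :=
.of2 (.split 0 5 1 2
(.split 1 5 1 4
(.split 3 5 1 1
(.leaf 3 [0, 2, 0, 4, 4, 4, 4, 2, 1, 1, 4, 4, 1, 4, 4, 4, 2, 1, 4, 2, 3, 4, 5, 2, 2, 3]) (.leaf 2 [3, 0, 4, 4, 4, 4, 4, 3, 4, 4, 1, 4, 4, 4, 1, 4, 4, 4, 3, 4, 4, 1, 4, 4, 2, 2, 4, 2, 4, 5, 2, 2, 3])) (.leaf 1 [3, 4, 4, 4, 4, 4, 4, 4, 3, 1, 4, 1, 4, 4, 4, 1, 4, 4, 4, 4, 3, 4, 4, 1, 4, 4, 4, 4, 3, 4, 4, 4, 4, 5, 2, 4, 3])) (.leaf 1 [3, 4, 4, 4, 4, 4, 4, 4, 3, 1, 4, 1, 4, 4, 4, 1, 4, 4, 4, 4, 3, 4, 4, 1,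 4, 4, 4, 4, 3, 4, 4, 4, 4, 4, 2, 4, 3]))
  (by decide +kernel)

theorem p59 : Cov 6 fA kA [[0, 1, 1, 3, 3, 3, 4], [0, 0, 2, 3, 3, 3, 3], [0, 0, 0, 1, 1, 2, 3], [0, 0, 0, 0, 1, 1, 2], [0, 0, 0, 0, 0, 1, 1], [0, 0, 0, 0, 0, 1, 2]] :=
.of2 (.split 2 0 1 1
(.split 3 0 1 1
(.split 4 0 1 1
(.split 5 0 1 2
(.leaf 1 [3, 1, 11, 1, 1, 1, 1, 1, 3, 1, 1, 1, 0, 4, 1, 1, 0, 1, 1, 4, 3, 4, 4, 1, 4, 4, 0, 0, 3, 1, 1, 1, 4, 1, 2, 0, 3]) (.split 5 1 1 2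
(.leaf 2 [3, 1, 1, 1, 1, 1, 1, 3, 4, 1, 1, 0, 4, 1, 1, 0, 1, 4, 3, 4, 4, 1, 4, 0, 4, 3, 4, 4, 0, 5, 2, 0, 3]) (.leaf 2 [3, 4, 4, 4, 4, 4, 4, 3, 4, 4, 1, 0, 0, 4, 1, 0, 4, 4, 3, 0, 4, 1, 4, 0, 3, 3, 4, 3, 0, 5, 2, 3, 3]))) (.split 4 1 1 1
(.split 5 1 1 2
(.leaf 2 [3, 1, 1, 1, 1, 1, 1, 3, 4, 1, 1, 0, 4, 1, 1, 0, 1, 4, 3, 4, 4, 1, 4, 0, 4, 3, 4, 4, 0, 5, 2, 0, 3]) (.leaf 1 [3, 4, 4, 4, 4, 4, 4, 4, 3, 1, 4, 1, 0, 0, 4, 1, 0, 4, 4, 4, 3, 0, 4, 1, 4, 4, 0, 0, 3, 4, 4, 4, 3, 5, 2, 3, 3])) (.leaf 1 [3, 4, 4, 4, 4, 4, 4, 4, 3, 1, 4, 1, 0, 0, 4, 1, 0, 4, 4, 4, 3, 0, 4, 1, 4, 4, 0, 0, 3, 4, 4, 4, 3, 5, 2, 3, 3]))) (.split 3 1 1 1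
(.split 4 1 1 1
(.split 5 1 1 2
(.leaf 2 [3, 1, 1, 1, 1, 1, 4, 3, 4, 1, 4, 0, 4, 1, 4, 0, 4, 4, 3, 4, 4, 4, 4, 0, 4, 3, 4, 4, 0, 5, 2, 0, 3]) (.leaf 5 [3, 3, 4, 4, 4, 4, 4, 4, 4, 3, 4, 4, 4, 0, 4, 4, 4, 0, 4, 4, 4, 4, 3, 4, 4, 0, 3, 4, 4, 3, 5, 2, 3])) (.leaf 5 [3, 3, 4, 4, 4, 4, 4, 4, 4, 3, 4, 4, 4, 0, 4, 4, 4, 0, 4, 4, 4, 4, 3, 4, 4, 0, 3, 4, 4, 3, 5, 2, 3])) (.leaf 2 [3, 4, 0, 4, 4, 4, 4, 3, 4, 4, 4, 0, 4, 4, 4, 0, 4, 4, 3, 4, 3, 4, 4, 0, 3, 3, 4, 3, 0, 5, 2, 3, 3]))) (.split 2 1 1 1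
(.split 3 1 1 1
(.split 4 1 1 1
(.split 5 1 1 2
(.leaf 2 [3, 1, 1, 1, 1, 1, 4, 3, 4, 1, 4, 0, 1, 1, 4, 0, 4, 4, 3, 1, 4, 4, 4, 0, 4, 4, 4, 4, 0, 5, 2, 0, 3]) (.leaf 1 [3, 4, 4, 4, 4, 4, 4, 4, 3, 1, 4, 4, 0, 1, 4, 4, 0, 4, 4, 4, 3, 1, 4, 4, 4, 4, 0, 0, 3, 4, 4, 5, 3, 5, 2, 3, 3])) (.leaf 1 [3, 4, 4, 4, 4, 4, 4, 4, 3, 1, 4, 4, 0, 1, 4, 4, 0, 4, 4, 4, 3, 1, 4, 4, 4, 4, 0, 0, 3, 4, 4, 5, 3, 5, 2, 3, 3])) (.leaf 2 [3, 4, 4, 4, 4, 4, 4, 3, 4, 4, 4, 0, 4, 4, 4, 0, 4, 4, 3, 4, 5, 4, 4, 0, 3, 3, 4, 3, 0, 5, 2, 3, 3])) (.leaf 3 [0, 3, 0, 4, 4, 3, 4, 3, 1, 4, 0, 0, 4, 4, 4, 4, 3, 4, 4, 3, 3, 4, 5, 2, 3, 3])))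
  (by decide +kernel)

theorem p60 : Cov 6 fA kA [[0, 1, 1, 3, 3, 3, 4], [0, 1, 3, 5, 5, 5, 6], [0, 1, 3, 6, 6, 6, 7], [0, 0, 0, 0, 1, 1, 2], [0, 0, 0, 0, 0, 1, 1], [0, 0, 0, 0, 0, 1, 2]] :=
.of2 (.split 4 0 2 1
(.leaf 1 [3, 4, 0, 4, 4, 11, 11, 4, 3, 1, 4, 4, 0, 4, 11, 4, 0, 4, 4, 4, 3, 4, 3, 4, 4, 4, 0, 0, 3, 0, 4, 3, 3, 5, 2, 3, 3]) (.split 4 3 2 1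
(.leaf 1 [3, 4, 0, 4, 4, 11, 11, 4, 3, 1, 4, 4, 0, 4, 11, 4, 0, 4, 4, 4, 3, 4, 3, 4, 4, 4, 0, 0, 3, 4, 4, 3, 3, 5, 2, 3, 3]) (.split 4 5 2 1
(.leaf 1 [3, 4, 0, 4, 4, 11, 11, 4, 3, 1, 4, 4, 0, 4, 11, 4, 0, 4, 4, 4, 3, 4, 4, 4, 4, 4, 0, 0, 3, 4, 4, 4, 3, 5, 2, 3, 3]) (.leaf 3 [0, 4, 11, 4, 11, 4, 4, 4, 1, 4, 0, 4, 4, 4, 4, 4, 4, 4, 4, 4, 4, 4, 5, 2, 3, 3]))))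
  (by decide +kernel)

theorem p61 : Cov 6 fA kA [[0, 1, 3, 6, 6, 6, 7], [0, 1, 3, 5, 5, 5, 6], [0, 0, 2, 3, 4, 4, 5], [0, 0, 0, 0, 1, 1, 2], [0, 18, 54, 108, 111, 117, 138], [0, 1, 3, 6, 6, 7, 9]] :=
.of2 (.split 5 0 1 2
(.split 2 0 1 1
(.split 3 0 1 1
(.leaf 1 [4, 1, 0, 1, 1, 1, 1, 1, 1, 1, 1, 1, 0, 1, 1, 1, 0, 1, 1, 1, 1, 1, 1, 1, 1, 4, 0, 0, 1, 1, 1, 1, 0, 1, 0, 0, 3]) (.split 3 1 1 1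
(.leaf 1 [3, 1, 0, 1, 1, 1, 1, 1, 4, 1, 1, 1, 0, 1, 1, 1, 0, 1, 1, 1, 4, 1, 4, 1, 1, 4, 0, 0, 1, 1, 1, 1, 0, 1, 0, 0, 3]) (.split 3 4 15 1
(.leaf 1 [3, 1, 0, 1, 1, 1, 1, 1, 4, 1, 1, 1, 0, 1, 1, 1, 0, 1, 1, 1, 4, 1, 4, 1, 1, 4, 0, 0, 4, 1, 1, 4, 0, 4, 0, 0, 3]) (.split 3 5 3 1
(.leaf 1 [3, 1, 0, 1, 1, 1, 1, 1, 4, 1, 1, 1, 0, 1, 1, 1, 0, 1, 1, 1, 4, 1, 4, 1, 1, 4, 0, 0, 4, 1, 1, 4, 0, 4, 0, 0, 3]) (.leaf 2 [3, 4, 1, 4, 4, 4, 4, 3, 4, 4, 4, 0, 4, 4, 4, 0, 4, 0, 3, 4, 3, 4, 4, 0, 5, 3, 4, 5, 0, 5, 2, 3, 3]))))) (.split 2 1 1 1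
(.split 3 1 1 1
(.leaf 1 [3, 1, 0, 1, 1, 1, 1, 1, 4, 1, 1, 1, 0, 1, 1, 1, 0, 1, 1, 1, 4, 1, 4, 1, 1, 4, 0, 0, 1, 1, 1, 1, 0, 1, 0, 0, 3]) (.split 3 4 15 1
(.leaf 1 [3, 1, 0, 1, 1, 1, 1, 1, 4, 1, 1, 1, 0, 1, 1, 1, 0, 1, 1, 1, 4, 1, 4, 1, 1, 4, 0, 0, 4, 1, 1, 4, 0, 4, 0, 0, 3]) (.split 3 5 3 1
(.leaf 1 [3, 1, 0, 1, 1, 1, 1, 1, 4, 1, 1, 1, 0, 1, 1, 1, 0, 1, 1, 1, 4, 1, 4, 1, 1, 4, 0, 0, 4, 1, 1, 4, 0, 4, 0, 0, 3]) (.leaf 2 [3, 4, 1, 4, 4, 4, 4, 3, 4, 4, 4, 0, 4, 4, 4, 0, 4, 0, 3, 4, 3, 4, 4, 0, 5, 3, 4, 5, 0, 5, 2, 3, 3])))) (.split 2 4 15 1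
(.split 3 4 15 1
(.leaf 1 [4, 1, 0, 1, 1, 1, 1, 1, 4, 1, 1, 1, 0, 1, 1, 1, 0, 1, 1, 1, 4, 1, 4, 1, 1, 4, 0, 0, 4, 1, 1, 4, 0, 4, 0, 0, 3]) (.split 3 5 3 1
(.leaf 1 [3, 1, 0, 1, 1, 1, 1, 1, 4, 1, 1, 1, 0, 1, 1, 1, 0, 1, 1, 1, 4, 1, 4, 1, 1, 4, 0, 0, 4, 1, 1, 4, 0, 4, 0, 0, 3]) (.leaf 2 [3, 4, 1, 4, 4, 4, 4, 3, 4, 4, 4, 0, 4, 4, 4, 0, 4, 0, 3, 4, 3, 4, 4, 0, 5, 3, 4, 5, 0, 5, 2, 3, 3]))) (.split 2 5 3 1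
(.split 3 5 3 1
(.leaf 1 [3, 1, 0, 1, 1, 1, 1, 1, 4, 1, 1, 1, 0, 1, 1, 1, 0, 1, 1, 1, 4, 1, 4, 1, 1, 4, 0, 0, 4, 1, 1, 4, 0, 4, 0, 0, 3]) (.leaf 2 [3, 4, 1, 4, 4, 4, 4, 3, 4, 4, 4, 0, 4, 4, 4, 0, 4, 0, 3, 4, 3, 4, 4, 0, 5, 3, 4, 5, 0, 5, 2, 3, 3])) (.leaf 2 [3, 4, 1, 4, 4, 4, 4, 3, 4, 4, 4, 0, 4, 4, 4, 0, 4, 0, 3, 4, 3, 4, 4, 0, 5, 3, 4, 5, 0, 5, 2, 3, 3]))))) (.split 5 1 1 2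
(.split 2 0 3 1
(.split 3 0 3 1
(.leaf 1 [3, 1, 0, 1, 1, 1, 1, 1, 4, 1, 1, 1, 0, 1, 1, 1, 0, 1, 1, 1, 4, 1, 4, 1, 1, 4, 0, 0, 4, 1, 1, 4, 0, 4, 0, 0, 3]) (.split 3 1 1 1
(.leaf 1 [3, 1, 0, 1, 1, 1, 1, 1, 4, 1, 1, 1, 0, 1, 1, 1, 0, 1, 1, 1, 4, 1, 4, 1, 1, 4, 0, 0, 4, 1, 1, 4, 0, 4, 0, 0, 3]) (.split 3 4 15 1
(.leaf 1 [3, 1, 0, 1, 1, 1, 1, 1, 4, 1, 1, 1, 0, 1, 1, 1, 0, 1, 1, 1, 4, 1, 4, 1, 1, 4, 0, 0, 4, 1, 1, 4, 0, 4, 0, 0, 3]) (.split 3 5 3 1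
(.leaf 1 [3, 1, 0, 1, 1, 1, 1, 1, 3, 1, 1, 1, 0, 1, 1, 1, 0, 1, 1, 0, 3, 1, 4, 1, 0, 4, 0, 0, 4, 1, 1, 4, 0, 4, 0, 0, 3]) (.leaf 2 [3, 4, 1, 4, 4, 4, 4, 3, 4, 4, 4, 0, 4, 4, 4, 0, 4, 0, 3, 4, 3, 4, 4, 0, 5, 3, 4, 5, 0, 5, 2, 3, 3]))))) (.split 2 1 1 1
(.split 3 1 1 1
(.leaf 1 [3, 1, 0, 1, 1, 1, 1, 1, 4, 1, 1, 1, 0, 1, 1, 1, 0, 1, 1, 1, 4, 1, 4, 1, 1, 4, 0, 0, 1, 1, 1, 4, 0, 4, 0, 0, 3]) (.split 3 4 15 1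
(.leaf 1 [3, 1, 0, 1, 1, 1, 1, 1, 4, 1, 1, 1, 0, 1, 1, 1, 0, 1, 1, 1, 4, 1, 4, 1, 1, 4, 0, 0, 4, 1, 1, 4, 0, 4, 0, 0, 3]) (.split 3 5 3 1
(.leaf 1 [3, 1, 0, 1, 1, 1, 1, 1, 3, 1, 1, 1, 0, 1, 1, 1, 0, 1, 1, 0, 3, 1, 4, 1, 0, 4, 0, 0, 4, 1, 1, 4, 0, 4, 0, 0, 3]) (.leaf 2 [3, 4, 1, 4, 4, 4, 4, 3, 4, 4, 4, 0, 4, 4, 4, 0, 4, 0, 3, 4, 3, 4, 4, 0, 5, 3, 4, 5, 0, 5, 2, 3, 3])))) (.split 2 4 15 1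
(.split 3 4 15 1
(.leaf 1 [4, 1, 0, 1, 1, 1, 1, 1, 4, 1, 1, 1, 0, 1, 1, 1, 0, 1, 1, 1, 4, 1, 4, 1, 1, 4, 0, 0, 4, 1, 1, 4, 0, 4, 0, 0, 3]) (.split 3 5 3 1
(.leaf 1 [3, 1, 0, 1, 1, 1, 1, 1, 3, 1, 1, 1, 0, 1, 1, 1, 0, 1, 1, 0, 3, 1, 4, 1, 0, 4, 0, 0, 4, 1, 1, 4, 0, 4, 0, 0, 3]) (.leaf 2 [3, 4, 1, 4, 4, 4, 4, 3, 4, 4, 4, 0, 4, 4, 4, 0, 4, 0, 3, 4, 3, 4, 4, 0, 5, 3, 4, 5, 0, 5, 2, 3, 3]))) (.split 2 5 3 1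
(.split 3 5 3 1
(.leaf 1 [3, 1, 0, 1, 1, 1, 1, 1, 3, 1, 1, 1, 0, 1, 1, 1, 0, 1, 1, 0, 3, 1, 4, 1, 0, 4, 0, 0, 4, 1, 1, 4, 0, 4, 0, 0, 3]) (.leaf 2 [3, 4, 1, 4, 4, 4, 4, 3, 4, 4, 4, 0, 4, 4, 4, 0, 4, 0, 3, 4, 3, 4, 4, 0, 5, 3, 4, 5, 0, 5, 2, 3, 3])) (.leaf 2 [3, 4, 1, 4, 4, 4, 4, 3, 4, 4, 4, 0, 4, 4, 4, 0, 4, 0, 3, 4, 3, 4, 4, 0, 5, 3, 4, 5, 0, 5, 2, 3, 3]))))) (.leaf 1 [3, 4, 0, 1, 4, 4, 4, 4, 3, 1, 4, 4, 0, 4, 4, 4, 0, 4, 1, 4, 3, 4, 3, 4, 4, 4, 0, 0, 3, 4, 1, 5, 0, 5, 2, 3, 3])))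
  (by decide +kernel)

theorem p62 : Cov 6 fA kA [[0, 18, 54, 108, 111, 117, 138], [0, 1, 3, 5, 5, 5, 6], [0, 0, 2, 3, 4, 4, 5], [0, 0, 0, 0, 1, 1, 2], [0, 2, 6, 12, 15, 21, 26], [0, 1, 3, 6, 6, 7, 9]] :=
.of2 (.split 4 1 1 16
(.split 5 1 1 2
(.split 2 0 15 1
(.split 3 0 15 1
(.leaf 1 [4, 1, 0, 1, 1, 1, 1, 1, 4, 1, 1, 1, 0, 1, 1, 1, 0, 1, 1, 1, 4, 1, 4, 1, 1, 4, 0, 0, 4, 1, 1, 4, 0, 4, 0, 0, 3]) (.split 3 1 1 1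
(.leaf 1 [3, 1, 0, 1, 1, 1, 1, 1, 4, 1, 1, 1, 0, 1, 1, 1, 0, 1, 1, 0, 4, 1, 4, 1, 0, 4, 0, 0, 4, 1, 1, 4, 0, 4, 0, 0, 3]) (.split 3 4 15 1
(.leaf 1 [3, 1, 0, 1, 1, 1, 1, 1, 4, 1, 1, 1, 0, 1, 1, 1, 0, 1, 1, 0, 4, 1, 4, 1, 0, 4, 0, 0, 4, 1, 1, 4, 0, 4, 0, 0, 3]) (.split 3 5 3 1
(.leaf 1 [3, 1, 0, 1, 1, 1, 1, 1, 3, 1, 1, 1, 0, 1, 1, 1, 0, 1, 1, 0, 3, 1, 4, 1, 0, 4, 0, 0, 4, 1, 1, 4, 0, 4, 0, 0, 3]) (.leaf 2 [3, 4, 1, 4, 4, 4, 4, 3, 4, 4, 4, 0, 4, 4, 4, 0, 4, 0, 3, 4, 3, 4, 4, 0, 5, 3, 4, 5, 0, 5, 2, 3, 3]))))) (.split 2 1 1 1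
(.split 3 1 1 1
(.leaf 1 [3, 1, 0, 1, 1, 1, 1, 1, 4, 1, 1, 1, 0, 1, 1, 1, 0, 1, 1, 0, 4, 1, 4, 1, 0, 4, 0, 0, 1, 1, 1, 4, 0, 4, 0, 0, 3]) (.split 3 4 15 1
(.leaf 1 [3, 1, 0, 1, 1, 1, 1, 1, 4, 1, 1, 1, 0, 1, 1, 1, 0, 1, 1, 0, 4, 1, 4, 1, 0, 4, 0, 0, 4, 1, 1, 4, 0, 4, 0, 0, 3]) (.split 3 5 3 1
(.leaf 1 [3, 1, 0, 1, 1, 1, 1, 1, 3, 1, 1, 1, 0, 1, 1, 1, 0, 1, 1, 0, 3, 1, 4, 1, 0, 4, 0, 0, 4, 1, 1, 4, 0, 4, 0, 0, 3]) (.leaf 2 [3, 4, 1, 4, 4, 4, 4, 3, 4, 4, 4, 0, 4, 4, 4, 0, 4, 0, 3, 4, 3, 4, 4, 0, 5, 3, 4, 5, 0, 5, 2, 3, 3])))) (.split 2 4 15 1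
(.split 3 4 15 1
(.leaf 1 [3, 1, 0, 1, 1, 1, 1, 1, 4, 1, 1, 1, 0, 1, 1, 1, 0, 1, 1, 0, 4, 1, 4, 1, 0, 4, 0, 0, 4, 1, 1, 4, 0, 4, 0, 0, 3]) (.split 3 5 3 1
(.leaf 1 [3, 1, 0, 1, 1, 1, 1, 1, 3, 1, 1, 1, 0, 1, 1, 1, 0, 1, 1, 0, 3, 1, 4, 1, 0, 4, 0, 0, 4, 1, 1, 4, 0, 4, 0, 0, 3]) (.leaf 2 [3, 4, 1, 4, 4, 4, 4, 3, 4, 4, 4, 0, 4, 4, 4, 0, 4, 0, 3, 4, 3, 4, 4, 0, 5, 3, 4, 5, 0, 5, 2, 3, 3]))) (.split 2 5 3 1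
(.split 3 5 3 1
(.leaf 1 [3, 1, 0, 1, 1, 1, 1, 1, 3, 1, 1, 1, 0, 1, 1, 1, 0, 1, 1, 0, 3, 1, 4, 1, 0, 4, 0, 0, 4, 1, 1, 4, 0, 4, 0, 0, 3]) (.leaf 2 [3, 4, 1, 4, 4, 4, 4, 3, 4, 4, 4, 0, 4, 4, 4, 0, 4, 0, 3, 4, 3, 4, 4, 0, 5, 3, 4, 5, 0, 5, 2, 3, 3])) (.leaf 2 [3, 4, 1, 4, 4, 4, 4, 3, 4, 4, 4, 0, 4, 4, 4, 0, 4, 0, 3, 4, 3, 4, 4, 0, 5, 3, 4, 5, 0, 5, 2, 3, 3]))))) (.leaf 1 [3, 4, 0, 1, 4, 4, 4, 4, 3, 1, 4, 4, 0, 4, 4, 4, 0, 4, 1, 4, 3, 4, 3, 4, 4, 4, 0, 0, 3, 4, 1, 5, 0, 5, 2, 3, 3])) (.leaf 2 [3, 4, 1, 4, 4, 4, 4, 3, 4, 4, 4, 0, 4, 4, 4, 0, 4, 4, 3, 4, 3, 4, 4, 0, 5, 3, 4, 5, 0, 5, 2, 3, 3]))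
  (by decide +kernel)

theorem p63 : Cov 6 fA kA [[0, 1, 3, 6, 6, 7, 9], [0, 1, 3, 5, 5, 5, 6], [0, 0, 2, 3, 4, 4, 5], [0, 0, 0, 0, 1, 1, 2], [0, 2, 6, 12, 15, 21, 26], [0, 0, 0, 0, 0, 1, 2]] :=
.of2 (.split 5 1 1 3
(.split 0 1 1 2
(.split 4 1 1 16
(.split 3 0 2 1
(.split 0 2 3 8
(.split 1 2 1 1
(.split 3 2 3 2
(.split 4 2 1 13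
(.split 5 2 3 8
(.leaf 2 [3, 1, 11, 1, 1, 1, 4, 4, 4, 1, 4, 0, 1, 1, 4, 0, 4, 0, 4, 1, 4, 4, 4, 0, 0, 4, 4, 4, 0, 5, 0, 0, 3]) (.leaf 2 [3, 1, 11, 1, 11, 11, 1, 4, 3, 1, 1, 0, 1, 11, 1, 0, 1, 0, 4, 1, 4, 1, 4, 0, 0, 4, 1, 1, 0, 1, 0, 0, 3])) (.leaf 1 [3, 1, 0, 11, 1, 11, 11, 1, 4, 1, 1, 1, 0, 1, 11, 1, 0, 1, 1, 0, 4, 1, 4, 1, 0, 4, 0, 0, 4, 1, 1, 1, 0, 1, 0, 0, 3])) (.leaf 1 [3, 1, 0, 11, 1, 11, 11, 1, 4, 1, 1, 1, 0, 1, 11, 1, 0, 1, 1, 0, 4, 1, 4, 1, 0, 4, 0, 0, 4, 1, 1, 1, 0, 1, 0, 0, 3])) (.leaf 1 [3, 1, 0, 11, 1, 11, 11, 1, 4, 1, 1, 1, 0, 1, 11, 1, 0, 1, 1, 0, 4, 1, 4, 1, 0, 4, 0, 0, 1, 1, 1, 1, 0, 1, 0, 0, 3])) (.leaf 1 [3, 1, 0, 11, 1,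 11, 11, 1, 4, 1, 1, 1, 0, 1, 11, 1, 0, 1, 1, 0, 4, 1, 4, 1, 0, 4, 0, 0, 1, 1, 1, 1, 0, 1, 0, 0, 3])) (.split 3 1 1 1
(.split 0 2 3 2
(.split 1 2 1 1
(.split 4 2 1 13
(.split 5 2 3 8
(.leaf 2 [3, 1, 11, 1, 1, 1, 4, 4, 4, 1, 4, 0, 1, 1, 4, 0, 4, 0, 4, 1, 4, 4, 4, 0, 0, 4, 4, 4, 0, 5, 0, 0, 3]) (.leaf 2 [3, 1, 11, 1, 11, 11, 1, 4, 3, 1, 1, 0, 1, 11, 1, 0, 1, 0, 4, 1, 4, 1, 4, 0, 0, 4, 1, 1, 0, 1, 0, 0, 3])) (.leaf 1 [3, 1, 0, 11, 1, 11, 11, 1, 4, 1, 1, 1, 0, 1, 11, 1, 0, 1, 1, 0, 4, 1, 4, 1, 0, 4, 0, 0, 4, 1, 1, 1, 0, 1, 0, 0, 3])) (.leaf 1 [3, 1, 0, 11, 1, 11, 11, 1, 4, 1, 1, 1, 0, 1, 11, 1, 0, 1, 1, 0, 4, 1, 4, 1, 0, 4, 0, 0, 4, 11, 1, 1, 0,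 1, 0, 0, 3])) (.leaf 1 [3, 1, 0, 11, 1, 0, 0, 1, 4, 1, 1, 1, 0, 1, 0, 1, 0, 1, 1, 0, 4, 1, 4, 1, 0, 4, 0, 0, 4, 0, 1, 1, 0, 1, 0, 0, 3])) (.split 3 4 11 1
(.split 0 2 3 2
(.split 3 2 1 2
(.split 4 2 1 13
(.split 5 2 3 8
(.leaf 2 [3, 1, 11, 1, 1, 1, 4, 4, 4, 1, 4, 0, 1, 1, 4, 0, 4, 0, 4, 1, 4, 4, 4, 0, 0, 4, 4, 4, 0, 5, 0, 0, 3]) (.leaf 2 [3, 1, 11, 1, 11, 11, 1, 4, 3, 1, 1, 0, 1, 11, 1, 0, 1, 0, 4, 1, 4, 1, 4, 0, 0, 4, 1, 1, 0, 1, 0, 0, 3])) (.leaf 1 [3, 1, 0, 11, 1, 11, 11, 1, 4, 1, 1, 1, 0, 1, 11, 1, 0, 1, 1, 0, 4, 1, 4, 1, 0, 4, 0, 0, 4, 1, 1, 1, 0, 1, 0, 0, 3])) (.leaf 1 [3, 1, 0, 11, 1, 0, 0, 1, 4, 1, 1, 1, 0, 1, 0, 1, 0, 1, 1, 0, 4, 1,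 4, 1, 0, 4, 0, 0, 4, 0, 1, 1, 0, 1, 0, 0, 3])) (.leaf 1 [3, 1, 0, 11, 1, 0, 0, 1, 4, 1, 1, 1, 0, 1, 0, 1, 0, 1, 1, 0, 4, 1, 4, 1, 0, 4, 0, 0, 4, 0, 1, 1, 0, 1, 0, 0, 3])) (.split 3 5 1 1
(.leaf 2 [3, 1, 0, 1, 1, 1, 4, 4, 3, 1, 4, 0, 1, 1, 4, 0, 4, 0, 4, 1, 4, 4, 4, 0, 0, 4, 4, 4, 0, 5, 0, 0, 3]) (.leaf 2 [3, 4, 0, 4, 4, 4, 4, 3, 4, 4, 4, 0, 4, 4, 4, 0, 4, 0, 3, 4, 3, 4, 4, 0, 0, 3, 4, 5, 0, 5, 2, 3, 3]))))) (.leaf 1 [3, 4, 0, 11, 4, 4, 4, 4, 3, 1, 4, 4, 0, 4, 4, 4, 0, 4, 1, 0, 3, 4, 3, 4, 0, 4, 0, 0, 3, 4, 1, 5, 5, 5, 2, 3, 3])) (.leaf 1 [3, 4, 0, 11, 4, 4, 4, 4, 3, 1, 4, 4, 0, 4, 4, 4, 0, 4, 1, 0, 3, 4, 3, 4, 0, 4, 0, 0, 3, 4, 1, 5, 5, 5,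 2, 3, 3])) (.split 5 2 4 3
(.leaf 2 [3, 4, 0, 4, 4, 4, 4, 3, 3, 4, 4, 0, 4, 4, 4, 0, 4, 0, 3, 4, 3, 4, 4, 0, 5, 3, 4, 5, 0, 5, 2, 3, 3]) (.leaf 2 [3, 4, 0, 4, 0, 0, 4, 3, 3, 4, 4, 0, 0, 0, 4, 0, 4, 0, 3, 0, 3, 4, 4, 0, 5, 3, 4, 5, 0, 5, 2, 3, 3])))
  (by decide +kernel)

theorem p64 : Cov 6 fA kA [[0, 2, 6, 12, 15, 21, 26], [0, 1, 3, 5, 5, 5, 6], [0, 0, 2, 3, 4, 4, 5], [0, 0, 0, 0, 1, 1, 2], [0, 0, 0, 0, 1, 3, 4], [0, 0, 0, 0, 0, 1, 2]] :=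
.of2 (.split 4 1 1 2
(.split 5 1 1 3
(.split 0 1 1 16
(.split 4 1 1 4
(.split 3 0 11 1
(.split 0 2 1 13
(.split 1 2 1 1
(.split 3 2 1 2
(.split 4 2 3 13
(.split 5 2 3 8
(.leaf 2 [4, 1, 11, 1, 1, 1, 4, 4, 4, 1, 4, 0, 1, 1, 4, 0, 4, 0, 4, 1, 4, 4, 4, 0, 0, 4, 4, 4, 0, 5, 0, 0, 3]) (.leaf 2 [4, 1, 11, 1, 11, 11, 1, 4, 3, 1, 1, 0, 1, 11, 1, 0, 1, 0, 4, 1, 4, 1, 4, 0, 0, 4, 1, 1, 0, 1, 0, 0, 3])) (.leaf 1 [4, 1, 0, 11, 1, 11, 11, 1, 4, 1, 1, 1, 0, 1, 11, 1, 0, 1, 1, 0, 4, 1, 4, 1, 0, 4, 0, 0, 4, 1, 1, 1, 0, 1, 0, 0, 3])) (.leaf 1 [3, 1, 0, 11, 1, 11, 11, 1, 4, 1, 1, 1, 0, 1, 11, 1, 0, 1, 1, 0, 4, 1, 4, 1, 0, 4, 0, 0, 4, 1, 1, 1, 0, 1, 0, 0, 3]))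 (.leaf 1 [3, 1, 0, 11, 1, 11, 11, 1, 4, 1, 1, 1, 0, 1, 11, 1, 0, 1, 1, 0, 4, 1, 4, 1, 0, 4, 0, 0, 4, 1, 1, 1, 0, 1, 0, 0, 3])) (.leaf 1 [3, 1, 0, 11, 1, 11, 11, 1, 4, 1, 1, 1, 0, 1, 11, 1, 0, 1, 1, 0, 4, 1, 4, 1, 0, 4, 0, 0, 4, 1, 1, 1, 0, 1, 0, 0, 3])) (.split 3 1 1 1
(.split 0 2 1 2
(.split 1 2 1 1
(.split 4 2 3 13
(.split 5 2 3 8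
(.leaf 2 [3, 1, 11, 1, 1, 1, 4, 4, 4, 1, 4, 0, 1, 1, 4, 0, 4, 0, 4, 1, 4, 4, 4, 0, 0, 4, 4, 4, 0, 5, 0, 0, 3]) (.leaf 2 [3, 1, 11, 1, 11, 11, 1, 4, 3, 1, 1, 0, 1, 11, 1, 0, 1, 0, 4, 1, 4, 1, 4, 0, 0, 4, 1, 1, 0, 1, 0, 0, 3])) (.leaf 1 [3, 1, 0, 11, 1, 11, 11, 1, 4, 1, 1, 1, 0, 1, 11, 1, 0, 1, 1, 0, 4, 1, 4, 1, 0, 4, 0, 0, 4, 1, 1, 1, 0, 1, 0, 0, 3])) (.leaf 1 [3, 1, 0, 11, 1, 11, 11, 1, 4, 1, 1, 1, 0, 1, 11, 1, 0, 1, 1, 0, 4, 1, 4, 1, 0, 4, 0, 0, 4, 11, 1, 1, 0, 1, 0, 0, 3])) (.leaf 1 [3, 1, 0, 11, 1, 0, 0, 1, 4, 1, 1, 1, 0, 1, 0, 1, 0, 1, 11, 0, 4, 1, 4, 1, 0, 4, 0, 0, 4, 0, 11, 1, 0, 1, 0, 0, 3])) (.split 3 4 3 1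
(.split 0 2 1 2
(.split 3 2 3 4
(.split 4 2 3 13
(.split 5 2 3 8
(.leaf 2 [3, 1, 11, 1, 1, 1, 4, 4, 4, 1, 4, 0, 1, 1, 4, 0, 4, 0, 4, 1, 4, 4, 4, 0, 0, 4, 4, 4, 0, 5, 0, 0, 3]) (.leaf 2 [3, 1, 11, 1, 11, 11, 1, 4, 3, 1, 1, 0, 1, 11, 1, 0, 1, 0, 4, 1, 4, 1, 4, 0, 0, 4, 1, 1, 0, 1, 0, 0, 3])) (.leaf 1 [3, 1, 0, 11, 1, 11, 11, 1, 4, 1, 1, 1, 0, 1, 11, 1, 0, 1, 1, 0, 4, 1, 4, 1, 0, 4, 0, 0, 4, 1, 1, 1, 0, 1, 0, 0, 3])) (.leaf 1 [3, 1, 0, 11, 1, 0, 0, 1, 4, 1, 1, 1, 0, 1, 0, 1, 0, 1, 11, 0, 4, 1, 4, 1, 0, 4, 0, 0, 4, 0, 11, 1, 0, 1, 0, 0, 3])) (.leaf 1 [3, 1, 0, 11, 1, 0, 0, 1, 4, 1, 1, 1, 0, 1, 0, 1, 0, 1, 11, 0, 4, 1, 4, 1, 0, 4, 0, 0, 4, 0, 11,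 1, 0, 1, 0, 0, 3])) (.split 3 5 1 1
(.leaf 2 [3, 1, 0, 1, 1, 1, 4, 4, 3, 1, 4, 0, 1, 1, 4, 0, 4, 0, 4, 1, 4, 4, 4, 0, 0, 4, 4, 4, 0, 5, 0, 0, 3]) (.leaf 2 [3, 4, 0, 4, 4, 4, 4, 3, 4, 4, 4, 0, 4, 4, 4, 0, 4, 0, 3, 4, 3, 4, 4, 0, 0, 3, 4, 5, 0, 5, 2, 3, 3]))))) (.leaf 1 [3, 4, 0, 11, 4, 4, 4, 4, 3, 1, 4, 4, 0, 4, 4, 4, 0, 4, 1, 0, 3, 4, 3, 4, 0, 4, 0, 0, 3, 4, 1, 5, 0, 5, 2, 3, 3])) (.leaf 1 [3, 4, 0, 11, 4, 4, 4, 4, 3, 1, 4, 4, 0, 4, 4, 4, 0, 4, 1, 0, 3, 4, 3, 4, 0, 4, 0, 0, 3, 4, 1, 5, 5, 5, 2, 3, 3])) (.split 5 2 4 3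
(.leaf 2 [3, 4, 0, 4, 4, 4, 4, 3, 3, 4, 4, 0, 4, 4, 4, 0, 4, 0, 3, 4, 3, 4, 4, 0, 5, 3, 4, 5, 0, 5, 2, 3, 3]) (.leaf 2 [3, 4, 0, 4, 0, 0, 4, 3, 3, 4, 4, 0, 0, 0, 4, 0, 4, 0, 3, 0, 3, 4, 4, 0, 5, 3, 4, 5, 0, 5, 2, 3, 3]))) (.split 4 2 2 1
(.split 5 2 4 3
(.leaf 2 [3, 4, 0, 4, 4, 4, 4, 3, 4, 4, 4, 0, 4, 4, 4, 0, 4, 0, 3, 4, 5, 4, 4, 0, 5, 3, 4, 5, 0, 5, 2, 3, 3]) (.leaf 3 [0, 3, 0, 0, 0, 3, 0, 3, 1, 0, 0, 0, 0, 4, 0, 0, 3, 0, 4, 3, 3, 0, 5, 2, 3, 3])) (.leaf 3 [0, 3, 0, 0, 0, 3, 0, 3, 1, 0, 0, 0, 0, 4, 0, 0, 3, 0, 4, 3, 3, 0, 5, 2, 3, 3])))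
  (by decide +kernel)

theorem p65 : Cov 6 fA kA [[0, 1, 3, 6, 6, 6, 7], [0, 1, 3, 5, 5, 5, 6], [0, 0, 2, 3, 4, 4, 5], [0, 0, 0, 0, 1, 3, 4], [0, 0, 0, 0, 0, 1, 1], [0, 0, 0, 0, 0, 1, 2]] :=
.of2 (.split 4 5 2 1
(.split 3 0 2 3
(.split 4 0 1 2
(.split 5 0 1 1
(.split 0 2 1 1
(.split 3 2 1 3
(.split 4 2 1 2
(.split 1 2 1 1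
(.split 5 2 1 1
(.leaf 2 [4, 1, 1, 1, 1, 1, 4, 4, 4, 1, 4, 0, 1, 1, 4, 0, 4, 0, 4, 1, 4, 4, 4, 0, 4, 4, 4, 4, 0, 5, 1, 0, 3]) (.split 5 3 2 1
(.leaf 2 [4, 1, 1, 1, 1, 1, 1, 4, 4, 1, 1, 0, 1, 1, 1, 0, 1, 0, 4, 1, 4, 1, 4, 0, 4, 4, 4, 4, 0, 4, 1, 0, 3]) (.leaf 2 [4, 1, 1, 1, 1, 1, 1, 4, 4, 1, 1, 0, 1, 1, 1, 0, 1, 0, 4, 1, 4, 1, 4, 0, 1, 4, 4, 4, 0, 4, 0, 0, 3]))) (.split 1 3 2 1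
(.split 5 3 2 1
(.leaf 2 [4, 1, 1, 1, 1, 1, 1, 4, 4, 1, 1, 0, 1, 1, 1, 0, 1, 0, 4, 1, 4, 1, 4, 0, 4, 4, 4, 4, 0, 4, 1, 0, 3]) (.leaf 2 [4, 1, 1, 1, 1, 1, 1, 4, 4, 1, 1, 0, 1, 1, 1, 0, 1, 0, 4, 1, 4, 1, 4, 0, 1, 4, 4, 4, 0, 4, 0, 0, 3])) (.leaf 1 [4, 1, 0, 1, 1, 1, 1, 1, 4, 1, 1, 1, 0, 1, 1, 1, 0, 1, 1, 0, 4, 1, 4, 1, 0, 4, 0, 0, 4, 1, 1, 4, 1, 4, 0, 0, 3]))) (.split 4 5 1 2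
(.leaf 1 [4, 1, 0, 1, 1, 1, 1, 1, 4, 1, 1, 1, 0, 1, 1, 1, 0, 1, 1, 0, 4, 1, 4, 1, 0, 4, 0, 0, 4, 4, 1, 4, 1, 4, 1, 0, 3]) (.leaf 3 [0, 4, 11, 1, 1, 4, 1, 4, 1, 1, 0, 1, 1, 4, 1, 0, 4, 1, 4, 4, 4, 1, 4, 1, 0, 3]))) (.split 3 5 1 3
(.split 4 5 1 2
(.leaf 1 [4, 1, 0, 1, 1, 1, 1, 1, 4, 1, 1, 1, 0, 1, 1, 1, 0, 1, 1, 0, 4, 1, 4, 1, 0, 4, 0, 0, 4, 4, 1, 4, 1, 4, 1, 0, 3]) (.leaf 3 [0, 4, 11, 1, 1, 4, 1, 4, 1, 1, 0, 1, 1, 4, 1, 0, 4, 1, 4, 4, 4, 1, 4, 1, 0, 3])) (.leaf 3 [0, 4, 11, 1, 1, 4, 1, 4, 1, 1, 0, 1, 1, 4, 1, 0, 4, 1, 4, 4, 4, 1, 4, 1, 0, 3]))) (.split 0 5 1 1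
(.split 3 5 1 3
(.split 4 5 1 2
(.leaf 1 [4, 1, 0, 1, 1, 1, 1, 1, 4, 1, 1, 1, 0, 1, 1, 1, 0, 1, 1, 0, 4, 1, 1, 1, 0, 4, 0, 0, 4, 1, 1, 1, 1, 4, 1, 0, 3]) (.leaf 3 [0, 4, 11, 1, 1, 4, 1, 4, 1, 1, 0, 1, 1, 4, 1, 0, 4, 1, 4, 4, 4, 1, 4, 1, 0, 3])) (.leaf 3 [0, 4, 11, 1, 1, 4, 1, 4, 1, 1, 0, 1, 1, 4, 1, 0, 4, 1, 4, 4, 4, 1, 4, 1, 0, 3])) (.leaf 3 [0, 4, 11, 1, 1, 4, 1, 4, 1, 1, 0, 1, 1, 4, 1, 11, 4, 1, 4, 4, 4, 1, 4, 1, 0, 4]))) (.split 5 1 1 2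
(.split 0 1 1 1
(.split 2 1 1 2
(.split 3 1 1 13
(.split 4 1 1 6
(.leaf 1 [4, 1, 0, 1, 1, 11, 11, 1, 1, 1, 1, 1, 0, 1, 11, 1, 0, 1, 1, 0, 1, 1, 1, 1, 0, 4, 0, 0, 1, 0, 1, 1, 0, 1, 0, 0, 3]) (.leaf 2 [4, 1, 1, 1, 11, 11, 1, 4, 4, 1, 1, 0, 1, 11, 1, 0, 1, 0, 4, 1, 1, 1, 4, 0, 1, 4, 1, 4, 0, 4, 1, 0, 3])) (.leaf 2 [4, 1, 1, 1, 11, 11, 1, 4, 4, 1, 1, 0, 1, 11, 1, 0, 1, 0, 4, 1, 4, 1, 4, 0, 4, 4, 4, 4, 0, 4, 1, 0, 3])) (.leaf 2 [4, 1, 1, 1, 1, 1, 4, 4, 4, 1, 4, 0, 1, 1, 4, 0, 4, 0, 4, 1, 4, 4, 4, 0, 4, 4, 4, 4, 0, 5, 1, 0, 3])) (.leaf 2 [4, 1, 0, 1, 1, 1, 4, 4, 4, 1, 4, 0, 1, 1, 4, 0, 4, 0, 4, 1, 4, 4, 4, 0, 4, 4, 4, 4, 0, 5, 1, 0, 3])) (.leaf 2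 [3, 4, 0, 4, 4, 4, 4, 3, 4, 4, 4, 0, 1, 4, 4, 0, 4, 0, 3, 1, 4, 4, 4, 0, 5, 3, 4, 5, 0, 5, 2, 3, 3]))) (.split 4 1 1 4
(.split 5 1 1 2
(.split 0 1 1 6
(.split 2 1 1 2
(.split 3 1 1 13
(.split 4 1 1 4
(.leaf 1 [4, 1, 0, 1, 1, 11, 11, 1, 1, 1, 1, 1, 0, 1, 11, 1, 0, 1, 1, 0, 1, 1, 1, 1, 0, 4, 0, 0, 1, 0, 1, 1, 0, 1, 0, 0, 3]) (.leaf 2 [4, 1, 1, 1, 11, 11, 1, 1, 4, 1, 1, 0, 1, 11, 1, 0, 1, 0, 1, 1, 1, 1, 4, 0, 0, 1, 1, 0, 0, 1, 0, 0, 3])) (.leaf 2 [4, 1, 1, 1, 11, 11, 1, 4, 4, 1, 1, 0, 1, 11, 1, 0, 1, 0, 4, 1, 4, 1, 4, 0, 4, 4, 4, 4, 0, 4, 1, 0, 3])) (.leaf 2 [4, 1, 1, 1, 1, 1, 4, 4, 4, 1, 4, 0, 1, 1, 4, 0, 4, 0, 4, 1, 4, 4, 4, 0, 4, 4, 4, 4, 0,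 5, 1, 0, 3])) (.leaf 2 [4, 1, 1, 1, 1, 1, 4, 4, 4, 1, 4, 0, 1, 1, 4, 0, 4, 0, 4, 1, 4, 4, 4, 0, 4, 4, 4, 4, 0, 5, 1, 0, 3])) (.leaf 2 [3, 4, 0, 4, 4, 4, 4, 3, 4, 4, 4, 0, 1, 4, 4, 0, 4, 0, 3, 1, 4, 4, 4, 0, 5, 3, 4, 5, 0, 5, 2, 3, 3])) (.leaf 2 [3, 4, 0, 4, 4, 4, 4, 3, 4, 4, 4, 0, 1, 4, 4, 0, 4, 0, 3, 1, 4, 4, 4, 0, 5, 3, 4, 5, 0, 5, 2, 3, 3]))) (.split 3 1 1 3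
(.split 4 1 1 4
(.split 5 1 1 2
(.split 0 1 1 13
(.split 2 1 1 2
(.split 3 1 1 5
(.split 4 1 1 4
(.leaf 1 [4, 1, 0, 1, 1, 11, 11, 1, 1, 1, 1, 1, 0, 1, 11, 1, 0, 1, 1, 0, 1, 1, 1, 1, 0, 4, 0, 0, 1, 0, 1, 1, 0, 1, 0, 0, 3]) (.leaf 2 [4, 1, 1, 1, 11, 11, 1, 1, 4, 1, 1, 0, 1, 11, 1, 0, 1, 0, 1, 1, 1, 1, 4, 0, 0, 1, 1, 0, 0, 1, 0, 0, 3])) (.leaf 2 [4, 1, 1, 1, 11, 11, 1, 4, 4, 1, 1, 0, 1, 11, 1, 0, 1, 0, 4, 1, 1, 1, 4, 0, 0, 1, 1, 1, 0, 1, 0, 0, 3])) (.leaf 2 [4, 1, 1, 1, 1, 1, 4, 4, 4, 1, 4, 0, 1, 1, 4, 0, 4, 0, 4, 1, 4, 4, 4, 0, 0, 4, 4, 4, 0, 5, 0, 0, 3])) (.leaf 2 [4, 1, 1, 1, 1, 1, 4, 4, 4, 1, 4, 0, 1, 1, 4, 0, 4, 0, 4, 1, 4, 4, 4, 0, 4, 4,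 4, 4, 0, 5, 1, 0, 3])) (.leaf 2 [3, 4, 0, 4, 4, 4, 4, 3, 4, 4, 4, 0, 1, 4, 4, 0, 4, 0, 3, 1, 4, 4, 4, 0, 5, 3, 4, 5, 0, 5, 2, 3, 3])) (.leaf 2 [3, 4, 0, 4, 4, 4, 4, 3, 4, 4, 4, 0, 1, 4, 4, 0, 4, 0, 3, 1, 4, 4, 4, 0, 5, 3, 4, 5, 0, 5, 2, 3, 3])) (.leaf 2 [3, 4, 0, 4, 4, 4, 4, 3, 4, 4, 4, 0, 4, 4, 4, 0, 4, 0, 3, 4, 4, 4, 4, 0, 5, 3, 4, 5, 0, 5, 2, 3, 3]))) (.leaf 6 [4, 4, 11, 4, 4, 4, 4, 4, 4, 1, 4, 0, 4, 4, 4, 4, 4, 4, 4, 4, 4, 0, 4, 4, 5, 2, 3, 3]))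
  (by decide +kernel)

theorem p66 : Cov 6 fA kA [[0, 1, 3, 6, 6, 6, 7], [0, 1, 3, 5, 5, 5, 6], [0, 0, 2, 3, 3, 3, 3], [0, 0, 2, 3, 4, 4, 5], [0, 0, 0, 0, 0, 1, 1], [0, 0, 0, 0, 0, 1, 2]] :=
.of2 (.split 2 5 1 1
(.split 4 5 2 1
(.split 2 0 2 1
(.split 4 0 1 2
(.split 5 0 1 1
(.split 0 3 1 1
(.split 1 3 1 1
(.split 2 3 3 1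
(.split 4 3 1 1
(.split 5 3 3 2
(.leaf 2 [4, 1, 1, 1, 1, 1, 4, 4, 4, 1, 4, 0, 1, 1, 4, 0, 4, 0, 4, 1, 4, 4, 4, 0, 1, 4, 4, 4, 0, 5, 0, 0, 3]) (.leaf 2 [4, 1, 1, 1, 1, 1, 1, 4, 4, 1, 1, 0, 1, 1, 1, 0, 1, 0, 4, 1, 4, 1, 4, 0, 1, 4, 4, 4, 0, 4, 0, 0, 3])) (.leaf 2 [4, 1, 1, 1, 1, 1, 1, 4, 4, 1, 1, 0, 1, 1, 1, 0, 1, 0, 4, 1, 1, 1, 4, 0, 1, 4, 4, 4, 0, 4, 1, 0, 3])) (.leaf 2 [4, 1, 1, 1, 1, 1, 1, 4, 4, 1, 1, 0, 1, 1, 1, 0, 1, 0, 4, 1, 1, 1, 4, 0, 1, 4, 4, 4, 0, 4, 1, 0, 3])) (.leaf 1 [4, 1, 0, 1, 1, 1, 1, 1, 4, 1, 1, 1, 0, 1, 1, 1, 0, 1, 1, 0, 4, 1, 1, 1, 0, 4, 0, 0, 4, 1, 1, 1, 1, 4, 1, 0, 3])) (.leaf 1 [4, 1, 0, 1, 1, 1, 1, 1, 4, 1, 1, 1, 0, 1,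 1, 1, 0, 1, 1, 11, 4, 1, 1, 1, 11, 4, 0, 0, 4, 1, 1, 1, 1, 4, 1, 0, 3])) (.split 5 1 1 2
(.split 0 1 1 1
(.split 2 1 1 3
(.split 3 1 1 2
(.split 4 1 1 6
(.leaf 1 [4, 1, 0, 1, 1, 11, 11, 1, 1, 1, 1, 1, 0, 1, 11, 1, 0, 1, 1, 0, 1, 1, 1, 1, 0, 4, 0, 0, 1, 11, 1, 1, 0, 1, 0, 0, 3]) (.leaf 2 [4, 1, 1, 1, 11, 11, 1, 4, 4, 1, 1, 0, 1, 11, 1, 0, 1, 0, 4, 1, 1, 1, 4, 0, 1, 4, 1, 4, 0, 4, 1, 0, 3])) (.leaf 2 [4, 1, 1, 1, 1, 1, 4, 4, 4, 1, 4, 0, 1, 1, 4, 0, 4, 0, 4, 1, 4, 4, 4, 0, 1, 4, 4, 4, 0, 5, 1, 0, 3])) (.leaf 2 [4, 1, 1, 1, 1, 1, 4, 4, 4, 1, 4, 0, 1, 1, 4, 0, 4, 0, 4, 1, 4, 4, 4, 0, 1, 4, 4, 4, 0, 5, 1, 0, 3])) (.leaf 2 [4, 1, 1, 1, 1, 1, 4, 4,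 4, 1, 4, 0, 1, 1, 4, 0, 4, 0, 4, 1, 4, 4, 4, 0, 1, 4, 4, 4, 0, 5, 1, 0, 3])) (.leaf 2 [3, 4, 4, 4, 4, 4, 4, 3, 4, 4, 4, 0, 1, 4, 4, 0, 4, 0, 3, 1, 4, 4, 4, 0, 5, 3, 4, 5, 0, 5, 2, 3, 3]))) (.split 4 1 1 4
(.split 5 1 1 2
(.split 0 1 1 6
(.split 2 1 1 3
(.split 3 1 1 2
(.split 4 1 1 4
(.leaf 1 [4, 1, 0, 1, 1, 11, 11, 1, 1, 1, 1, 1, 0, 1, 11, 1, 0, 1, 1, 0, 1, 1, 1, 1, 0, 4, 0, 0, 1, 11, 1, 1, 0, 1, 0, 0, 3]) (.leaf 2 [4, 1, 1, 1, 11, 11, 1, 1, 4, 1, 1, 0, 1, 11, 1, 0, 1, 0, 1, 1, 1, 1, 4, 0, 0, 1, 1, 11, 0, 1, 0, 0, 3])) (.leaf 2 [4, 1, 1, 1, 1, 1, 4, 4, 4, 1, 4, 0, 1, 1, 4, 0, 4, 0, 4, 1, 4, 4, 4, 0, 0, 4, 4, 4, 0, 5, 0, 0, 3])) (.leaf 2 [4,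 1, 1, 1, 1, 1, 4, 4, 4, 1, 4, 0, 1, 1, 4, 0, 4, 0, 4, 1, 4, 4, 4, 0, 0, 4, 4, 4, 0, 5, 0, 0, 3])) (.leaf 2 [4, 1, 1, 1, 1, 1, 4, 4, 4, 1, 4, 0, 1, 1, 4, 0, 4, 0, 4, 1, 4, 4, 4, 0, 1, 4, 4, 4, 0, 5, 1, 0, 3])) (.leaf 2 [3, 4, 4, 4, 4, 4, 4, 3, 4, 4, 4, 0, 1, 4, 4, 0, 4, 0, 3, 1, 4, 4, 4, 0, 5, 3, 4, 5, 0, 5, 2, 3, 3])) (.leaf 2 [3, 4, 4, 4, 4, 4, 4, 3, 4, 4, 4, 0, 1, 4, 4, 0, 4, 0, 3, 1, 4, 4, 4, 0, 5, 3, 4, 5, 0, 5, 2, 3, 3]))) (.split 2 1 1 1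
(.split 4 1 1 4
(.split 5 1 1 2
(.split 0 1 1 3
(.split 2 1 1 1
(.split 3 1 1 2
(.split 4 1 1 4
(.leaf 1 [4, 1, 0, 1, 1, 11, 11, 1, 1, 1, 1, 1, 0, 1, 11, 1, 0, 1, 1, 0, 1, 1, 1, 1, 0, 4, 0, 0, 1, 11, 1, 1, 0, 1, 0, 0, 3]) (.leaf 2 [4, 1, 1, 1, 11, 11, 1, 1, 4, 1, 1, 0, 1, 11, 1, 0, 1, 0, 1, 1, 1, 1, 4, 0, 0, 1, 1, 11, 0, 1, 0, 0, 3])) (.leaf 2 [4, 1, 1, 1, 1, 1, 4, 4, 4, 1, 4, 0, 1, 1, 4, 0, 4, 0, 4, 1, 4, 4, 4, 0, 0, 4, 4, 4, 0, 5, 0, 0, 3])) (.leaf 2 [4, 1, 1, 1, 1, 1, 4, 4, 4, 1, 4, 0, 1, 1, 4, 0, 4, 0, 4, 1, 4, 4, 4, 0, 0, 4, 4, 4, 0, 5, 0, 0, 3])) (.leaf 2 [4, 1, 1, 1, 1, 1, 4, 4, 4, 1, 4, 0, 1, 1, 4, 0, 4, 0, 4, 1, 4, 4, 4, 0, 0, 4, 4,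 4, 0, 5, 0, 0, 3])) (.leaf 2 [3, 4, 4, 4, 4, 4, 4, 3, 4, 4, 4, 0, 1, 4, 4, 0, 4, 0, 3, 1, 4, 4, 4, 0, 0, 3, 4, 5, 0, 5, 2, 3, 3])) (.leaf 2 [3, 4, 4, 4, 4, 4, 4, 3, 4, 4, 4, 0, 1, 4, 4, 0, 4, 0, 3, 1, 4, 4, 4, 0, 5, 3, 4, 5, 0, 5, 2, 3, 3])) (.leaf 2 [3, 4, 4, 4, 4, 4, 4, 3, 4, 4, 4, 0, 1, 4, 4, 0, 4, 0, 3, 1, 4, 4, 4, 0, 5, 3, 4, 5, 0, 5, 2, 3, 3]))) (.leaf 6 [4, 4, 11, 4, 4, 4, 4, 4, 4, 1, 4, 0, 1, 4, 4, 4, 4, 4, 4, 4, 4, 0, 4, 4, 5, 2, 3, 3])) (.leaf 6 [4, 4, 11, 4, 4, 4, 4, 4, 4, 1, 4, 0, 1, 4, 4, 4, 4, 4, 4, 4, 4, 0, 4, 4, 5, 4, 4, 3]))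
  (by decide +kernel)

theorem p67 : Cov 6 fA kA [[0, 1, 3, 5, 5, 5, 6], [0, 0, 1, 1, 1, 1, 1], [0, 0, 2, 3, 3, 3, 3], [0, 0, 0, 0, 1, 1, 2], [0, 0, 0, 0, 0, 1, 1], [0, 0, 0, 0, 0, 1, 2]] :=
.of2 (.split 1 3 2 1
(.split 2 3 1 1
(.split 4 3 2 1
(.split 1 0 1 1
(.split 3 0 1 1
(.split 4 0 1 3
(.split 5 0 1 2
(.split 0 2 1 1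
(.split 4 2 3 4
(.split 5 2 3 5
(.leaf 2 [3, 1, 11, 1, 1, 1, 4, 4, 4, 1, 4, 0, 1, 1, 4, 0, 4, 0, 4, 1, 4, 4, 4, 0, 0, 4, 4, 4, 0, 5, 0, 0, 3]) (.leaf 2 [3, 1, 11, 1, 11, 11, 1, 4, 4, 1, 1, 0, 1, 11, 1, 0, 1, 0, 4, 1, 4, 1, 4, 0, 0, 4, 1, 1, 0, 4, 0, 0, 3])) (.leaf 2 [3, 1, 11, 1, 11, 11, 1, 4, 4, 1, 1, 0, 1, 11, 1, 0, 1, 0, 4, 1, 4, 1, 4, 0, 0, 4, 1, 1, 0, 4, 0, 0, 3])) (.leaf 1 [3, 1, 0, 11, 1, 11, 11, 1, 4, 1, 1, 1, 0, 1, 11, 1, 0, 1, 1, 0, 4, 1, 4, 1, 0, 4, 0, 0, 1, 11, 1, 1, 0, 1, 0, 0, 3])) (.leaf 2 [3, 4, 0, 4, 4, 4, 4, 3, 4, 4, 4, 0, 1, 4, 4, 0, 4, 0, 3, 1, 4, 4, 4, 0, 0, 3, 4, 5, 0, 5, 2, 3, 3])) (.leaf 2 [3, 4, 0, 4, 4, 4, 4, 3, 4,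 4, 4, 0, 4, 4, 4, 0, 4, 0, 3, 4, 4, 4, 4, 0, 5, 3, 4, 5, 0, 5, 2, 3, 3])) (.leaf 2 [3, 4, 0, 4, 4, 4, 4, 3, 4, 4, 4, 0, 4, 4, 4, 0, 4, 0, 3, 4, 3, 4, 4, 0, 5, 3, 4, 5, 0, 5, 2, 3, 3])) (.leaf 2 [3, 4, 0, 4, 4, 4, 4, 3, 4, 4, 4, 0, 4, 4, 4, 0, 4, 0, 3, 4, 3, 4, 4, 0, 5, 3, 4, 5, 0, 5, 2, 3, 3])) (.split 4 5 2 1
(.split 1 0 1 1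
(.split 3 0 1 3
(.split 4 0 1 4
(.split 5 0 1 2
(.split 1 0 1 1
(.split 2 0 1 2
(.split 3 0 1 5
(.split 4 0 1 4
(.leaf 1 [4, 1, 0, 11, 1, 11, 11, 1, 1, 1, 1, 1, 0, 1, 11, 1, 0, 1, 1, 0, 1, 1, 1, 1, 0, 4, 0, 0, 1, 0, 1, 1, 0, 1, 0, 0, 3]) (.leaf 2 [4, 1, 11, 1, 11, 11, 1, 1, 4, 1, 1, 0, 1, 11, 1, 0, 1, 0, 1, 1, 1, 1, 4, 0, 0, 1, 1, 0, 0, 1, 0, 0, 3])) (.leaf 2 [4, 1, 11, 1, 11, 11, 1, 4, 4, 1, 1, 0, 1, 11, 1, 0, 1, 0, 4, 1, 1, 1, 4, 0, 0, 1, 1, 1, 0, 1, 0, 0, 3])) (.leaf 2 [4, 1, 11, 1, 1, 1, 4, 4, 4, 1, 4, 0, 1, 1, 4, 0, 4, 0, 4, 1, 4, 4, 4, 0, 0, 4, 4, 4, 0, 5, 0, 0, 3])) (.leaf 2 [4, 1, 11, 1, 1, 1, 4, 4, 4, 1, 4, 0, 1, 1, 4, 0, 4, 0, 4,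 1, 4, 4, 4, 0, 0, 4, 4, 4, 0, 5, 0, 0, 3])) (.leaf 2 [3, 4, 0, 4, 4, 4, 4, 3, 4, 4, 4, 0, 1, 4, 4, 0, 4, 0, 3, 1, 4, 4, 4, 0, 0, 3, 4, 5, 0, 5, 2, 3, 3])) (.leaf 2 [3, 4, 0, 4, 4, 4, 4, 3, 4, 4, 4, 0, 1, 4, 4, 0, 4, 0, 3, 1, 4, 4, 4, 0, 5, 3, 4, 5, 0, 5, 2, 3, 3])) (.leaf 2 [3, 4, 0, 4, 4, 4, 4, 3, 4, 4, 4, 0, 4, 4, 4, 0, 4, 0, 3, 4, 4, 4, 4, 0, 5, 3, 4, 5, 0, 5, 2, 3, 3])) (.leaf 2 [3, 4, 0, 4, 4, 4, 4, 3, 4, 4, 4, 0, 4, 4, 4, 0, 4, 0, 3, 4, 3, 4, 4, 0, 5, 3, 4, 5, 0, 5, 2, 3, 3])) (.leaf 6 [4, 4, 11, 11, 4, 4, 4, 4, 4, 1, 4, 0, 4, 4, 4, 4, 4, 4, 4, 4, 4, 0, 4, 4, 5, 2, 3, 3]))) (.split 2 5 1 1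
(.split 4 5 2 1
(.split 1 0 1 1
(.split 2 0 1 1
(.split 4 0 1 4
(.split 5 0 1 2
(.split 1 0 1 1
(.split 2 0 1 1
(.split 3 0 1 2
(.split 4 0 1 4
(.leaf 1 [4, 1, 0, 11, 1, 11, 11, 1, 1, 1, 1, 1, 0, 1, 11, 1, 0, 1, 1, 0, 1, 1, 1, 1, 0, 4, 0, 0, 1, 0, 1, 1, 0, 1, 0, 0, 3]) (.leaf 2 [4, 1, 11, 1, 11, 11, 1, 1, 4, 1, 1, 0, 1, 11, 1, 0, 1, 0, 1, 1, 1, 1, 4, 0, 0, 1, 1, 0, 0, 1, 0, 0, 3])) (.leaf 2 [4, 1, 11, 1, 1, 1, 4, 4, 4, 1, 4, 0, 1, 1, 4, 0, 4, 0, 4, 1, 4, 4, 4, 0, 0, 4, 4, 4, 0, 5, 0, 0, 3])) (.leaf 2 [4, 1, 11, 1, 1, 1, 4, 4, 4, 1, 4, 0, 1, 1, 4, 0, 4, 0, 4, 1, 4, 4, 4, 0, 0, 4, 4, 4, 0, 5, 0, 0, 3])) (.leaf 2 [4, 1, 11, 1, 1, 1, 4, 4, 4, 1,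 4, 0, 1, 1, 4, 0, 4, 0, 4, 1, 4, 4, 4, 0, 0, 4, 4, 4, 0, 5, 0, 0, 3])) (.leaf 2 [3, 4, 11, 4, 4, 4, 4, 3, 4, 4, 4, 0, 1, 4, 4, 0, 4, 0, 3, 1, 4, 4, 4, 0, 0, 3, 4, 5, 0, 5, 2, 3, 3])) (.leaf 2 [3, 4, 11, 4, 4, 4, 4, 3, 4, 4, 4, 0, 1, 4, 4, 0, 4, 0, 3, 1, 4, 4, 4, 0, 5, 3, 4, 5, 0, 5, 2, 3, 3])) (.leaf 2 [3, 4, 11, 4, 4, 4, 4, 3, 4, 4, 4, 0, 1, 4, 4, 0, 4, 0, 3, 1, 4, 4, 4, 0, 5, 3, 4, 5, 0, 5, 2, 3, 3])) (.leaf 2 [3, 4, 0, 4, 4, 4, 4, 3, 4, 4, 4, 0, 1, 4, 4, 0, 4, 0, 3, 1, 3, 4, 4, 0, 5, 3, 4, 5, 0, 5, 2, 3, 3])) (.leaf 6 [4, 4, 11, 11, 4, 4, 4, 4, 4, 1, 4, 0, 1, 4, 4, 4, 4, 4, 4, 4, 4, 0, 4, 4, 5, 2, 3, 3])) (.leaf 6 [4, 4, 11, 4, 4, 4, 4,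 4, 4, 1, 4, 0, 1, 4, 4, 4, 4, 4, 4, 4, 4, 0, 4, 4, 5, 4, 4, 3]))) (.split 1 5 2 1
(.split 2 5 1 1
(.split 4 5 2 1
(.leaf 1 [3, 4, 0, 11, 4, 0, 0, 4, 3, 1, 4, 4, 0, 11, 0, 4, 0, 4, 4, 0, 3, 11, 3, 4, 0, 4, 0, 0, 3, 4, 4, 3, 5, 5, 2, 3, 3]) (.leaf 1 [4, 4, 0, 11, 4, 0, 0, 4, 4, 1, 4, 4, 0, 11, 0, 4, 0, 4, 4, 0, 4, 11, 3, 4, 0, 4, 0, 0, 3, 4, 4, 3, 5, 5, 2, 3, 3])) (.leaf 6 [4, 4, 11, 4, 4, 4, 4, 4, 4, 1, 4, 0, 11, 4, 4, 4, 4, 4, 4, 4, 4, 0, 4, 4, 5, 4, 4, 3])) (.leaf 6 [4, 4, 11, 4, 4, 4, 4, 4, 4, 1, 4, 0, 11, 4, 4, 4, 4, 4, 4, 4, 4, 0, 4, 4, 5, 4, 4, 3])))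
  (by decide +kernel)

theorem p68 : Cov 6 fA kA [[0, 1, 1, 1, 1, 1, 2], [0, 0, 1, 1, 1, 1, 1], [0, 1, 1, 3, 3, 3, 4], [0, 0, 0, 0, 1, 1, 2], [0, 0, 0, 0, 0, 1, 1], [0, 0, 0, 0, 0, 1, 2]] :=
.of2 (.split 0 2 1 1
(.split 3 2 1 1
(.split 4 2 1 1
(.split 5 2 1 2
(.leaf 1 [3, 1, 11, 11, 1, 11, 11, 1, 3, 1, 1, 1, 0, 4, 11, 1, 0, 1, 11, 4, 3, 4, 4, 1, 4, 4, 0, 0, 3, 11, 11, 1, 4, 1, 2, 0, 3]) (.leaf 1 [3, 4, 11, 11, 4, 11, 11, 4, 3, 1, 4, 1, 0, 0, 11, 1, 0, 4, 11, 0, 3, 0, 4, 1, 0, 4, 0, 0, 3, 4, 11, 4, 3, 5, 2, 3, 3])) (.leaf 1 [3, 4, 4, 11, 4, 11, 11, 4, 3, 1, 4, 1, 0, 0, 11, 1, 0, 4, 11, 0, 3, 0, 4, 1, 0, 4, 0, 0, 3, 4, 11, 4, 3, 5, 2, 3, 3]))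 (.leaf 6 [3, 3, 11, 11, 4, 11, 4, 4, 3, 1, 4, 0, 0, 11, 4, 4, 4, 11, 3, 4, 4, 0, 11, 3, 5, 2, 3, 3])) (.leaf 6 [3, 3, 11, 11, 11, 11, 4, 4, 3, 1, 11, 0, 0, 11, 11, 4, 4, 11, 3, 4, 4, 0, 11, 3, 5, 2, 3, 3]))
  (by decide +kernel)

theorem p69 : Cov 6 fA kA [[0, 2, 2, 2, 2, 3, 5], [0, 0, 1, 1, 1, 1, 1], [0, 0, 0, 1, 1, 1, 1], [0, 0, 0, 0, 1, 1, 1], [0, 0, 0, 0, 0, 1, 1], [0, 0, 0, 0, 1, 1, 2]] :=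
.of2 (.split 1 4 1 1
(.split 1 0 1 2
(.split 3 0 1 1
(.split 4 0 1 1
(.leaf 1 [3, 0, 0, 1, 4, 4, 4, 4, 3, 1, 4, 4, 4, 4, 4, 4, 4, 4, 1, 4, 3, 4, 3, 4, 4, 4, 4, 2, 3, 4, 1, 5, 2, 5, 2, 3, 3]) (.split 4 5 1 1
(.leaf 1 [3, 0, 0, 4, 4, 4, 4, 4, 3, 1, 4, 4, 4, 4, 4, 4, 4, 4, 4, 4, 3, 4, 3, 4, 4, 4, 4, 2, 3, 4, 4, 5, 2, 5, 2, 3, 3]) (.leaf 3 [0, 3, 0, 4, 4, 3, 4, 3, 1, 4, 4, 4, 4, 4, 4, 4, 3, 4, 4, 4, 3, 4, 5, 2, 3, 3]))) (.split 3 5 1 1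
(.split 4 5 1 1
(.leaf 1 [3, 0, 0, 4, 4, 4, 4, 4, 3, 1, 4, 4, 4, 4, 4, 4, 4, 4, 4, 4, 3, 4, 3, 4, 4, 4, 4, 2, 3, 4, 4, 5, 2, 5, 2, 12, 3]) (.leaf 3 [0, 3, 0, 4, 4, 3, 4, 3, 1, 4, 4, 4, 4, 4, 4, 4, 3, 4, 4, 4, 3, 4, 5, 2, 12, 3])) (.leaf 3 [0, 3, 0, 4, 4, 3, 4, 3, 1, 4, 4, 4, 4, 4, 4, 4, 3, 4, 4, 4, 3, 4, 5, 2, 12, 3]))) (.split 1 5 1 2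
(.split 3 5 1 1
(.split 4 5 1 1
(.leaf 1 [3, 0, 0, 4, 4, 4, 4, 4, 3, 1, 4, 4, 4, 4, 4, 4, 4, 4, 4, 4, 3, 4, 3, 4, 4, 4, 4, 5, 3, 4, 4, 5, 2, 5, 2, 12, 3]) (.leaf 3 [0, 3, 0, 4, 4, 3, 4, 3, 1, 4, 4, 4, 4, 4, 4, 4, 3, 4, 4, 4, 3, 4, 5, 2, 12, 3])) (.leaf 3 [0, 3, 0, 4, 4, 3, 4, 3, 1, 4, 4, 4, 4, 4, 4, 4, 3, 4, 4, 4, 3, 4, 5, 2, 12, 3])) (.leaf 3 [0, 3, 0, 4, 4, 3, 4, 3, 1, 4, 4, 4, 4, 4, 4, 4, 3, 4, 4, 4, 3, 4, 5, 2, 12, 3]))) (.split 1 5 1 2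
(.split 0 2 1 3
(.split 1 2 1 2
(.split 4 2 1 1
(.split 5 2 1 1
(.split 0 5 1 2
(.split 4 5 1 2
(.leaf 2 [3, 0, 1, 1, 4, 4, 4, 2, 4, 1, 4, 4, 4, 4, 4, 4, 4, 4, 2, 4, 4, 4, 4, 4, 2, 2, 4, 2, 4, 5, 2, 2, 3]) (.leaf 0 [0, 2, 4, 1, 1, 4, 4, 4, 2, 1, 4, 4, 4, 4, 4, 4, 4, 2, 4, 4, 4, 4, 4, 4, 4, 3, 4, 5, 4, 5, 2, 4, 3])) (.leaf 0 [0, 3, 4, 1, 1, 4, 4, 4, 3, 1, 4, 4, 4, 4, 4, 4, 4, 3, 4, 4, 4, 4, 4, 4, 4, 3, 4, 5, 4, 5, 2, 4, 3])) (.leaf 3 [0, 3, 0, 4, 4, 3, 4, 3, 1, 4, 4, 4, 4, 4, 4, 0, 3, 4, 4, 3, 3, 4, 5, 2, 12, 3])) (.leaf 3 [0, 3, 0, 4, 4, 3, 4, 3, 1, 4, 4, 4, 4, 4, 4, 0, 3, 4, 4, 3, 3, 4, 5, 2, 12, 3])) (.leaf 3 [0, 3, 0, 0, 0, 3, 4, 3, 0, 4,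 0, 4, 4, 4, 0, 0, 3, 4, 4, 3, 3, 0, 5, 2, 12, 3])) (.leaf 3 [0, 3, 0, 0, 0, 3, 0, 3, 0, 0, 0, 4, 0, 4, 0, 0, 3, 0, 4, 3, 3, 0, 5, 2, 12, 3])) (.split 1 0 3 1
(.split 3 0 3 1
(.split 4 0 3 2
(.leaf 1 [3, 0, 0, 4, 4, 4, 4, 4, 3, 1, 4, 4, 4, 4, 4, 4, 4, 4, 1, 4, 3, 4, 3, 4, 4, 4, 4, 4, 3, 4, 1, 5, 4, 5, 2, 12, 3]) (.split 4 5 3 2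
(.leaf 1 [3, 0, 0, 4, 4, 4, 4, 4, 3, 1, 4, 4, 4, 4, 4, 4, 4, 4, 4, 4, 3, 4, 3, 4, 4, 4, 4, 4, 3, 4, 4, 5, 4, 5, 2, 12, 3]) (.leaf 3 [0, 4, 0, 4, 4, 3, 4, 4, 1, 4, 4, 4, 4, 4, 4, 1, 4, 4, 4, 4, 3, 4, 5, 4, 12, 3]))) (.split 3 5 3 1
(.split 4 5 3 2
(.leaf 0 [0, 3, 3, 4, 4, 4, 4, 4, 3, 1, 4, 4, 4, 4, 4, 4, 1, 3, 4, 4, 4, 4, 3, 4, 4, 3, 4, 5, 4, 5, 2, 12, 3]) (.leaf 3 [0, 4, 0, 4, 4, 3, 4, 4, 1, 4, 4, 4, 4, 4, 4, 1, 4, 4, 4, 4, 3, 4, 5, 2, 12, 3])) (.leaf 3 [0, 4, 0, 4, 4, 3, 4, 4, 1, 4, 4, 4, 4, 4, 4, 1, 4, 4, 4, 4, 3, 4, 5, 2, 12, 3]))) (.split 1 5 3 1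
(.split 3 5 3 1
(.split 4 5 3 2
(.split 3 1 2 1
(.split 4 1 1 1
(.split 5 1 2 1
(.leaf 2 [3, 3, 4, 4, 4, 4, 4, 3, 4, 4, 4, 1, 4, 4, 4, 1, 4, 4, 3, 4, 3, 4, 4, 1, 4, 3, 4, 4, 4, 5, 4, 12, 3]) (.leaf 2 [3, 0, 4, 4, 4, 4, 4, 3, 4, 4, 4, 1, 4, 4, 4, 1, 4, 4, 3, 4, 3, 4, 4, 1, 4, 3, 4, 5, 4, 5, 5, 12, 3])) (.leaf 2 [3, 0, 4, 4, 4, 4, 4, 3, 4, 4, 4, 1, 4, 4, 4, 1, 4, 4, 3, 4, 3, 4, 4, 1, 4, 3, 4, 5, 4, 5, 5, 12, 3])) (.leaf 0 [0, 3, 3, 4, 4, 4, 4, 4, 3, 1, 4, 4, 4, 4, 4, 4, 1, 3, 4, 4, 4, 4, 3, 4, 4, 3, 4, 5, 4, 5, 5, 12, 3])) (.leaf 6 [3, 4, 0, 4, 4, 4, 4, 4, 4, 1, 4, 4, 4, 4, 4, 4, 4, 4, 4, 4, 4, 4, 4, 4, 5, 5, 12, 3])) (.leaf 6 [3, 4, 0, 4, 4,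 4, 4, 4, 4, 1, 4, 4, 4, 4, 4, 4, 4, 4, 4, 4, 4, 4, 4, 4, 5, 5, 12, 3])) (.leaf 6 [3, 4, 11, 4, 4, 4, 4, 4, 4, 1, 4, 4, 4, 4, 4, 4, 4, 4, 4, 4, 4, 4, 4, 4, 5, 4, 4, 3])))))
  (by decide +kernel)

theorem p70 : Cov 6 fA kA [[0, 1, 1, 1, 2, 2, 4], [0, 0, 1, 1, 3, 3, 5], [0, 0, 0, 1, 1, 1, 1], [0, 0, 0, 0, 1, 1, 1], [0, 2, 2, 2, 2, 3, 5], [0, 0, 0, 0, 1, 1, 2]] :=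
.of2 (.split 3 0 1 1
(.split 5 0 1 1
(.leaf 2 [3, 0, 1, 4, 4, 4, 4, 3, 4, 4, 4, 1, 4, 4, 4, 1, 4, 4, 3, 4, 3, 4, 4, 1, 2, 3, 4, 2, 4, 5, 2, 12, 3]) (.split 5 4 3 1
(.leaf 2 [3, 0, 1, 4, 4, 4, 4, 3, 4, 4, 4, 4, 4, 4, 4, 4, 4, 4, 3, 4, 3, 4, 4, 4, 2, 3, 4, 2, 4, 5, 2, 12, 3]) (.leaf 3 [0, 3, 0, 4, 4, 3, 4, 3, 1, 4, 4, 4, 4, 4, 1, 4, 3, 4, 4, 2, 3, 1, 5, 2, 12, 3]))) (.split 3 4 3 1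
(.split 5 4 3 1
(.leaf 2 [3, 0, 1, 4, 4, 4, 4, 3, 4, 4, 4, 4, 4, 4, 4, 4, 4, 4, 3, 4, 3, 4, 4, 4, 2, 3, 4, 2, 4, 5, 2, 12, 3]) (.leaf 3 [0, 3, 0, 4, 4, 3, 4, 3, 1, 4, 4, 4, 4, 4, 1, 4, 3, 4, 4, 2, 3, 1, 5, 2, 12, 3])) (.leaf 3 [0, 3, 0, 4, 4, 3, 4, 3, 1, 4, 4, 4, 4, 4, 1, 4, 3, 4, 4, 2, 3, 1, 5, 2, 12, 3])))
  (by decide +kernel)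

theorem p71 : Cov 6 fA kA [[0, 12, 36, 60, 84, 84, 108], [0, 4, 16, 24, 32, 32, 40], [0, 0, 0, 1, 1, 1, 1], [0, 6, 18, 30, 48, 48, 60], [0, 8, 8, 21, 31, 34, 44], [0, 0, 1, 3, 5, 5, 7]] :=
.of2 (.split 4 1 4 13
(.split 5 1 4 1
(.leaf 2 [4, 4, 1, 1, 1, 1, 4, 4, 4, 1, 4, 1, 4, 1, 4, 1, 4, 1, 4, 4, 4, 4, 4, 1, 4, 4, 4, 4, 1, 4, 4, 4, 3]) (.leaf 2 [3, 0, 1, 1, 1, 1, 4, 3, 4, 1, 4, 1, 4, 1, 4, 1, 4, 4, 3, 4, 4, 4, 4, 1, 4, 3, 4, 5, 4, 5, 5, 4, 3])) (.split 0 5 1 36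
(.split 1 5 1 216
(.split 3 5 1 18
(.split 4 5 1 2
(.split 0 4 19 24
(.split 1 4 19 132
(.split 3 4 19 18
(.split 5 4 19 1
(.split 0 4 1 128
(.split 1 4 1 780
(.split 3 4 1 58
(.split 5 4 6 13
(.leaf 2 [3, 0, 1, 1, 1, 1, 4, 3, 4, 1, 4, 1, 4, 1, 4, 1, 4, 4, 3, 4, 4, 4, 4, 1, 4, 3, 4, 4, 4, 4, 2, 4, 3]) (.leaf 2 [3, 0, 1, 1, 1, 1, 4, 3, 4, 1, 4, 1, 4, 1, 4, 1, 4, 4, 3, 4, 4, 4, 4, 1, 4, 3, 4, 5, 4, 5, 2, 4, 3])) (.leaf 2 [3, 0, 1, 1, 1, 1, 4, 3, 4, 1, 4, 1, 4, 1, 4, 1, 4, 4, 3, 4, 4, 4, 4, 1, 4, 3, 4, 5, 4, 5, 2, 4, 3])) (.leaf 2 [3, 0, 1, 1, 1, 1, 4, 3, 4, 1, 4, 1, 4, 1, 4, 1, 4, 4, 3, 4, 4, 4, 4, 1, 4, 3, 4, 5, 4, 5, 2, 4, 3])) (.leaf 2 [3,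 0, 1, 1, 1, 1, 4, 3, 4, 1, 4, 1, 4, 1, 4, 1, 4, 4, 3, 4, 4, 4, 4, 1, 4, 3, 4, 5, 4, 5, 2, 4, 3])) (.leaf 3 [0, 5, 0, 1, 1, 4, 4, 5, 1, 4, 1, 4, 4, 4, 1, 1, 5, 4, 4, 5, 3, 1, 5, 5, 4, 3])) (.leaf 3 [0, 5, 0, 1, 1, 4, 4, 5, 1, 4, 1, 4, 4, 4, 1, 1, 5, 4, 4, 5, 3, 1, 5, 5, 4, 3])) (.leaf 3 [0, 5, 0, 1, 1, 4, 4, 5, 1, 4, 1, 4, 4, 4, 1, 1, 5, 4, 4, 5, 3, 1, 5, 5, 4, 3])) (.leaf 3 [0, 5, 0, 1, 1, 4, 4, 5, 1, 4, 1, 4, 4, 4, 1, 1, 5, 4, 4, 5, 3, 1, 5, 5, 4, 3])) (.leaf 2 [3, 0, 1, 1, 1, 1, 4, 3, 4, 1, 4, 1, 4, 1, 4, 1, 4, 4, 3, 4, 4, 4, 4, 1, 4, 3, 4, 4, 4, 5, 4, 4, 3])) (.leaf 2 [3, 0, 1, 1, 1, 1, 4, 3, 4, 1, 4, 1, 4, 1, 4, 1, 4, 4, 3, 4, 4, 4, 4,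 1, 4, 3, 4, 4, 4, 5, 4, 4, 3])) (.leaf 2 [3, 0, 1, 1, 1, 1, 4, 3, 4, 1, 4, 1, 4, 1, 4, 1, 4, 4, 3, 4, 4, 4, 4, 1, 4, 3, 4, 4, 4, 5, 4, 4, 3])) (.leaf 2 [3, 0, 1, 1, 1, 1, 4, 3, 4, 1, 4, 1, 4, 1, 4, 1, 4, 4, 3, 4, 4, 4, 4, 1, 4, 3, 4, 4, 4, 5, 4, 4, 3])))
  (by decide +kernel)

theorem p72 : Cov 6 fA kA [[0, 12, 36, 60, 84, 84, 108], [0, 6, 18, 30, 48, 48, 60], [0, 0, 0, 1, 1, 1, 1], [0, 1, 1, 3, 8, 8, 10], [0, 8, 8, 21, 31, 34, 44], [0, 0, 1, 3, 5, 5, 7]] :=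
.of2 (.split 0 5 1 6
(.split 1 5 1 3
(.split 3 5 2 1
(.split 4 5 2 11
(.split 0 2 1 30
(.split 1 2 1 9
(.split 3 2 1 3
(.split 4 2 1 75
(.split 5 2 1 1
(.split 0 4 3 2
(.split 1 4 1 1
(.split 3 4 3 1
(.split 0 5 1 24
(.split 1 5 1 12
(.split 3 5 1 12
(.split 4 5 1 12
(.leaf 2 [4, 0, 1, 1, 1, 1, 4, 4, 4, 1, 4, 4, 4, 1, 4, 4, 4, 4, 4, 4, 4, 4, 4, 4, 4, 4, 4, 5, 4, 5, 2, 4, 3]) (.leaf 2 [4, 0, 1, 1, 1, 1, 1, 4, 4, 1, 4, 4, 4, 1, 4, 4, 1, 4, 4, 4, 4, 4, 4, 4, 4, 4, 4, 4, 4, 5, 2, 4, 4])) (.leaf 2 [4, 0, 1, 1, 1, 1, 1, 4, 4, 1, 4, 4, 4, 1, 4, 4, 1, 4, 4, 4, 4, 4, 4, 4, 4, 4, 4, 4, 4, 4, 2, 4, 4])) (.leaf 2 [4, 0, 1, 1, 1, 1, 1, 4, 4, 1, 4, 4, 4,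 1, 4, 4, 1, 4, 4, 4, 4, 4, 4, 4, 4, 4, 4, 4, 4, 4, 2, 4, 4])) (.leaf 2 [4, 0, 1, 1, 1, 1, 1, 4, 4, 1, 4, 4, 4, 1, 4, 4, 1, 4, 4, 4, 4, 4, 4, 4, 4, 4, 4, 4, 4, 4, 2, 4, 4])) (.split 3 5 1 3
(.split 0 4 2 11
(.split 1 4 2 1
(.split 3 4 4 1
(.split 5 4 8 1
(.leaf 2 [4, 0, 1, 1, 1, 1, 1, 4, 4, 1, 4, 4, 4, 1, 4, 4, 1, 4, 4, 4, 4, 4, 4, 4, 4, 4, 4, 4, 4, 4, 2, 4, 4]) (.leaf 2 [4, 0, 1, 1, 1, 1, 4, 4, 4, 1, 4, 4, 4, 1, 4, 4, 4, 4, 4, 4, 4, 4, 4, 4, 4, 4, 4, 5, 4, 5, 2, 4, 3])) (.leaf 2 [4, 0, 1, 1, 1, 1, 4, 4, 4, 1, 4, 4, 4, 1, 4, 4, 4, 4, 4, 4, 4, 4, 4, 4, 4, 4, 4, 5, 4, 5, 2, 4, 3])) (.leaf 2 [4, 0, 1, 1, 1, 1, 4, 4, 4, 1, 4, 4, 4, 1, 4, 4, 4, 4,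 4, 4, 4, 4, 4, 4, 4, 4, 4, 5, 4, 5, 2, 4, 3])) (.leaf 2 [4, 0, 1, 1, 1, 1, 4, 4, 4, 1, 4, 4, 4, 1, 4, 4, 4, 4, 4, 4, 4, 4, 4, 4, 4, 4, 4, 5, 4, 5, 2, 4, 3])) (.leaf 3 [0, 4, 0, 1, 1, 4, 4, 4, 1, 4, 4, 4, 4, 4, 1, 1, 4, 4, 4, 4, 4, 1, 5, 2, 4, 3]))) (.split 1 5 1 9
(.split 3 5 1 3
(.leaf 2 [4, 0, 1, 1, 1, 1, 4, 4, 4, 1, 4, 4, 4, 1, 4, 4, 4, 4, 4, 4, 4, 4, 4, 4, 4, 4, 4, 5, 4, 5, 2, 4, 3]) (.leaf 3 [0, 4, 0, 1, 1, 4, 4, 4, 1, 4, 4, 4, 4, 4, 1, 1, 4, 4, 4, 4, 5, 1, 5, 2, 4, 3])) (.leaf 3 [0, 4, 0, 1, 1, 4, 4, 4, 1, 4, 4, 4, 4, 4, 1, 1, 4, 4, 4, 4, 3, 1, 5, 2, 4, 3]))) (.split 0 5 1 6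
(.split 1 5 1 9
(.split 3 5 1 3
(.leaf 2 [4, 0, 1, 1, 1, 1, 4, 4, 4, 1, 4, 4, 4, 1, 4, 4, 4, 4, 4, 4, 4, 4, 4, 4, 4, 4, 4, 5, 4, 5, 2, 4, 3]) (.leaf 3 [0, 4, 0, 1, 1, 4, 4, 4, 1, 4, 4, 4, 4, 4, 1, 1, 4, 4, 4, 4, 5, 1, 5, 2, 4, 3])) (.leaf 3 [0, 4, 0, 1, 1, 4, 4, 4, 1, 4, 4, 4, 4, 4, 1, 1, 4, 4, 4, 4, 3, 1, 5, 2, 4, 3])) (.leaf 3 [0, 4, 0, 1, 1, 4, 4, 4, 1, 4, 4, 4, 4, 4, 1, 1, 4, 4, 4, 4, 4, 1, 4, 2, 4, 3]))) (.leaf 1 [5, 0, 0, 0, 1, 1, 1, 4, 5, 1, 1, 4, 4, 4, 1, 4, 4, 4, 1, 4, 5, 4, 4, 4, 4, 4, 4, 4, 3, 4, 1, 3, 4, 5, 2, 4, 3])) (.leaf 1 [3, 0, 0, 0, 1, 1, 1, 4, 3, 1, 1, 4, 4, 4, 1, 4, 4, 4, 1, 4, 3, 4, 4, 4, 4, 4, 4, 4, 3, 4, 1, 3, 4, 5,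 2, 4, 3])) (.leaf 3 [0, 3, 0, 1, 0, 4, 4, 3, 1, 4, 4, 4, 4, 4, 1, 1, 3, 4, 4, 3, 3, 1, 5, 2, 4, 3])) (.leaf 3 [0, 3, 0, 1, 0, 4, 4, 3, 1, 4, 4, 4, 4, 4, 1, 1, 3, 4, 4, 3, 3, 1, 5, 2, 4, 3])) (.leaf 3 [0, 3, 0, 1, 0, 4, 4, 3, 1, 4, 4, 4, 4, 4, 1, 1, 3, 4, 4, 3, 3, 1, 5, 2, 4, 3])) (.leaf 2 [3, 0, 1, 1, 4, 4, 4, 3, 4, 1, 4, 4, 4, 4, 4, 4, 4, 4, 3, 4, 4, 4, 4, 4, 4, 3, 4, 4, 4, 4, 2, 4, 3])) (.leaf 3 [0, 4, 0, 1, 4, 4, 4, 4, 1, 4, 4, 4, 4, 4, 1, 1, 4, 4, 4, 4, 3, 1, 4, 2, 4, 3])) (.leaf 3 [0, 4, 0, 1, 4, 4, 4, 4, 1, 4, 4, 4, 4, 4, 1, 1, 4, 4, 4, 4, 3, 1, 4, 2, 4, 3])) (.leaf 3 [0, 4, 0, 1, 4, 4, 4, 4, 1, 4, 4, 4, 4, 4, 1, 1, 4, 4, 4, 4, 3, 1,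 4, 2, 4, 3]))
  (by decide +kernel)

theorem p73 : Cov 6 fA kA [[0, 4, 4, 12, 20, 20, 28], [0, 12, 36, 60, 84, 84, 108], [0, 0, 0, 1, 1, 1, 1], [0, 1, 1, 3, 8, 8, 10], [0, 8, 8, 21, 31, 34, 44], [0, 0, 1, 3, 5, 5, 7]] :=
.of2 (.split 0 5 1 2
(.split 1 5 1 6
(.split 3 5 2 1
(.split 4 5 2 11
(.split 0 2 1 12
(.split 1 2 1 36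
(.split 3 2 1 6
(.split 4 2 1 42
(.split 5 2 1 2
(.split 0 4 7 2
(.split 1 4 7 30
(.split 3 4 7 1
(.leaf 2 [4, 0, 1, 1, 1, 1, 1, 4, 4, 1, 4, 4, 4, 1, 4, 4, 1, 4, 4, 4, 4, 4, 4, 4, 4, 4, 4, 2, 4, 5, 2, 4, 3]) (.split 3 5 1 1
(.leaf 2 [4, 0, 1, 1, 1, 1, 4, 4, 4, 1, 4, 4, 4, 1, 4, 4, 4, 4, 4, 4, 4, 4, 4, 4, 4, 4, 4, 2, 4, 5, 2, 4, 3]) (.leaf 2 [4, 0, 1, 1, 1, 1, 4, 4, 4, 1, 4, 4, 4, 1, 4, 4, 4, 4, 4, 4, 4, 4, 4, 4, 4, 4, 4, 4, 4, 4, 2, 4, 3]))) (.split 1 5 1 30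
(.split 3 5 1 1
(.split 1 0 1 2
(.split 5 0 24 1
(.leaf 2 [4, 0, 1, 1, 1, 1, 4, 4, 4, 1, 4, 4, 4, 1, 4, 4, 4, 4, 4, 4, 4, 4, 4, 4, 4, 4, 4, 4, 4, 4, 2, 4, 3]) (.split 5 4 24 1
(.leaf 2 [4, 0, 1, 1, 1, 1, 4, 4, 4, 1, 4, 4, 4, 1, 4, 4, 4, 4, 4, 4, 4, 4, 4, 4, 4, 4, 4, 4, 4, 4, 2, 4, 3]) (.leaf 2 [4, 0, 1, 1, 1, 1, 4, 4, 4, 1, 4, 4, 4, 1, 4, 4, 4, 4, 4, 4, 4, 4, 4, 4, 4, 4, 4, 5, 4, 5, 2, 4, 3]))) (.split 1 4 1 2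
(.split 5 4 24 1
(.leaf 2 [4, 0, 1, 1, 1, 1, 4, 4, 4, 1, 4, 4, 4, 1, 4, 4, 4, 4, 4, 4, 4, 4, 4, 4, 4, 4, 4, 4, 4, 4, 2, 4, 3]) (.leaf 2 [4, 0, 1, 1, 1, 1, 4, 4, 4, 1, 4, 4, 4, 1, 4, 4, 4, 4, 4, 4, 4, 4, 4, 4, 4, 4, 4, 5, 4, 5, 2, 4, 3])) (.leaf 2 [4, 0, 1, 1, 1, 1, 4, 4, 4, 1, 4, 4, 4, 1, 4, 4, 4, 4, 4, 4, 4, 4, 4, 4, 4, 4, 4, 5, 4, 5, 2, 4, 3]))) (.leaf 2 [4, 0, 1, 1, 1, 1, 4, 4, 4, 1, 4, 4, 4, 1, 4, 4, 4, 4, 4, 4, 4, 4, 4, 4, 4, 4, 4, 4, 4, 5, 2, 4, 3])) (.leaf 2 [4, 0, 1, 1, 1, 1, 4, 4, 4, 1, 4, 4, 4, 1, 4, 4, 4, 4, 4, 4, 4, 4, 4, 4, 4, 4, 4, 4, 4, 5, 2, 4, 3]))) (.split 0 5 1 2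
(.split 1 5 1 30
(.split 3 5 1 1
(.split 1 4 1 2
(.split 5 4 24 1
(.leaf 2 [4, 0, 1, 1, 1, 1, 4, 4, 4, 1, 4, 4, 4, 1, 4, 4, 4, 4, 4, 4, 4, 4, 4, 4, 4, 4, 4, 4, 4, 4, 2, 4, 3]) (.leaf 2 [4, 0, 1, 1, 1, 1, 4, 4, 4, 1, 4, 4, 4, 1, 4, 4, 4, 4, 4, 4, 4, 4, 4, 4, 4, 4, 4, 5, 4, 5, 2, 4, 3])) (.leaf 2 [4, 0, 1, 1, 1, 1, 4, 4, 4, 1, 4, 4, 4, 1, 4, 4, 4, 4, 4, 4, 4, 4, 4, 4, 4, 4, 4, 5, 4, 5, 2, 4, 3])) (.leaf 2 [4, 0, 1, 1, 1, 1, 4, 4, 4, 1, 4, 4, 4, 1, 4, 4, 4, 4, 4, 4, 4, 4, 4, 4, 4, 4, 4, 4, 4, 5, 2, 4, 3])) (.leaf 2 [4, 0, 1, 1, 1, 1, 4, 4, 4, 1, 4, 4, 4, 1, 4, 4, 4, 4, 4, 4, 4, 4, 4, 4, 4, 4, 4, 4, 4, 5, 2, 4, 3])) (.leaf 2 [4, 0, 1, 1, 1, 1,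 4, 4, 4, 1, 4, 4, 4, 1, 4, 4, 4, 4, 4, 4, 4, 4, 4, 4, 4, 4, 4, 4, 4, 4, 2, 4, 3]))) (.leaf 3 [0, 5, 0, 1, 1, 4, 4, 5, 1, 4, 4, 4, 4, 4, 1, 1, 5, 4, 4, 3, 5, 1, 5, 2, 4, 3])) (.leaf 3 [0, 3, 0, 1, 1, 4, 4, 3, 1, 4, 4, 4, 4, 4, 1, 1, 3, 4, 4, 3, 3, 1, 5, 2, 4, 3])) (.leaf 3 [0, 3, 0, 1, 4, 4, 4, 3, 1, 4, 4, 4, 4, 4, 1, 1, 3, 4, 4, 3, 3, 1, 5, 2, 4, 3])) (.leaf 3 [0, 3, 0, 1, 4, 4, 4, 3, 1, 4, 4, 4, 4, 4, 1, 1, 3, 4, 4, 3, 3, 1, 5, 2, 4, 3])) (.leaf 3 [0, 3, 0, 0, 0, 4, 4, 3, 1, 4, 4, 4, 4, 4, 1, 1, 3, 4, 4, 3, 3, 1, 5, 2, 4, 3])) (.leaf 2 [3, 0, 1, 1, 4, 4, 4, 3, 4, 1, 4, 4, 4, 4, 4, 4, 4, 4, 3, 4, 4, 4, 4, 4, 4, 3, 4, 4, 4, 4, 2, 4, 3])) (.leaf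 0 [0, 3, 0, 1, 1, 4, 4, 4, 3, 1, 4, 4, 4, 4, 4, 1, 1, 3, 4, 4, 4, 4, 4, 4, 4, 3, 1, 4, 4, 4, 2, 4, 3])) (.leaf 0 [0, 3, 0, 1, 1, 4, 4, 4, 3, 1, 4, 4, 4, 4, 4, 1, 1, 3, 4, 4, 4, 4, 4, 4, 4, 3, 1, 4, 4, 4, 2, 4, 3])) (.leaf 0 [0, 3, 0, 1, 1, 4, 4, 4, 3, 1, 4, 4, 4, 4, 4, 1, 1, 3, 4, 4, 4, 4, 4, 4, 4, 3, 1, 4, 4, 4, 2, 4, 3]))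
  (by decide +kernel)

theorem p74 : Cov 6 fA kA [[0, 4, 4, 12, 20, 20, 28], [0, 4, 16, 24, 32, 32, 40], [0, 0, 0, 1, 1, 1, 1], [0, 8, 8, 21, 31, 34, 44], [0, 2, 2, 5, 5, 6, 8], [0, 0, 1, 3, 5, 5, 7]] :=
.of2 (.split 0 5 1 4
(.split 1 5 1 16
(.split 3 5 1 2
(.split 3 5 1 12
(.split 4 5 1 4
(.leaf 2 [3, 0, 1, 1, 1, 1, 4, 3, 4, 1, 4, 1, 4, 1, 4, 1, 4, 4, 3, 4, 4, 4, 4, 1, 4, 3, 4, 5, 4, 5, 2, 4, 3]) (.leaf 2 [3, 0, 1, 1, 1, 1, 4, 3, 4, 1, 4, 1, 4, 1, 4, 1, 4, 4, 3, 4, 4, 4, 4, 1, 4, 3, 4, 4, 4, 5, 2, 4, 3])) (.leaf 2 [3, 0, 1, 1, 1, 1, 4, 3, 4, 1, 4, 1, 4, 1, 4, 1, 4, 4, 3, 4, 4, 4, 4, 1, 4, 3, 4, 4, 4, 5, 2, 4, 3])) (.leaf 2 [3, 0, 1, 1, 1,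 1, 4, 3, 4, 1, 4, 1, 4, 1, 4, 1, 4, 4, 3, 4, 4, 4, 4, 1, 4, 3, 4, 4, 4, 5, 2, 4, 3])) (.leaf 2 [3, 1, 1, 1, 1, 1, 4, 3, 4, 1, 4, 1, 4, 1, 4, 1, 4, 4, 3, 4, 4, 4, 4, 1, 4, 3, 4, 4, 4, 5, 2, 4, 3])) (.leaf 2 [3, 1, 1, 1, 1, 1, 4, 3, 4, 1, 4, 1, 4, 1, 4, 1, 4, 4, 3, 4, 4, 4, 4, 1, 4, 3, 4, 4, 4, 4, 2, 4, 3]))
  (by decide +kernel)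

theorem p75 : Cov 6 fA kA [[0, 4, 4, 12, 20, 20, 28], [0, 1, 5, 7, 8, 8, 10], [0, 0, 0, 1, 1, 1, 1], [0, 4, 16, 24, 32, 32, 40], [0, 2, 2, 5, 5, 6, 8], [0, 0, 1, 3, 5, 5, 7]] :=
.of2 (.split 0 5 1 4
(.split 1 5 1 5
(.split 3 5 1 16
(.split 1 4 1 4
(.split 3 4 1 12
(.split 5 4 2 1
(.leaf 2 [3, 0, 1, 1, 1, 1, 4, 3, 4, 1, 4, 1, 4, 1, 4, 1, 4, 4, 3, 4, 4, 4, 4, 1, 4, 3, 4, 4, 4, 4, 2, 4, 3]) (.leaf 2 [3, 0, 1, 1, 1, 1, 4, 3, 4, 1, 4, 1, 4, 1, 4, 1, 4, 4, 3, 4, 4, 4, 4, 1, 4, 3, 4, 5, 4, 5, 2, 4, 3])) (.leaf 2 [3, 0, 1, 1, 1, 1, 4, 3, 4, 1, 4, 1, 4, 1, 4, 1, 4, 4, 3, 4, 4, 4, 4, 1, 4, 3, 4, 5, 4, 5, 2, 4, 3])) (.leaf 2 [3, 0, 1, 1, 1, 1, 4, 3,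 4, 1, 4, 1, 4, 1, 4, 1, 4, 4, 3, 4, 4, 4, 4, 1, 4, 3, 4, 5, 4, 5, 2, 4, 3])) (.leaf 2 [3, 1, 1, 1, 1, 1, 4, 3, 4, 1, 4, 1, 4, 1, 4, 1, 4, 4, 3, 4, 4, 4, 4, 1, 4, 3, 4, 4, 4, 5, 2, 4, 3])) (.leaf 2 [3, 1, 1, 1, 1, 1, 4, 3, 4, 1, 4, 1, 4, 1, 4, 1, 4, 4, 3, 4, 4, 4, 4, 1, 4, 3, 4, 4, 4, 5, 2, 4, 3])) (.leaf 2 [3, 1, 1, 1, 1, 1, 4, 3, 4, 1, 4, 1, 4, 1, 4, 1, 4, 4, 3, 4, 4, 4, 4, 1, 4, 3, 4, 4, 4, 4, 2, 4, 3]))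
  (by decide +kernel)

theorem p76 : Cov 6 fA kA [[0, 1, 1, 3, 4, 4, 6], [0, 1, 5, 7, 8, 8, 10], [0, 0, 0, 1, 1, 1, 1], [0, 4, 4, 12, 20, 20, 28], [0, 2, 2, 5, 5, 6, 8], [0, 0, 1, 3, 5, 5, 7]] :=
.of2 (.split 0 5 1 1
(.split 1 5 1 5
(.split 3 5 1 4
(.split 1 4 1 4
(.split 5 4 2 1
(.leaf 2 [3, 0, 1, 1, 1, 1, 4, 3, 4, 1, 4, 1, 4, 1, 4, 1, 4, 4, 3, 4, 4, 4, 4, 1, 4, 3, 4, 4, 4, 4, 2, 4, 3]) (.leaf 2 [3, 0, 1, 1, 1, 1, 4, 3, 4, 1, 4, 1, 4, 1, 4, 1, 4, 4, 3, 4, 4, 4, 4, 1, 4, 3, 4, 5, 4, 5, 2, 4, 3])) (.leaf 2 [3, 0, 1, 1, 1, 1, 4, 3, 4, 1, 4, 1, 4, 1, 4, 1, 4, 4, 3, 4, 4, 4, 4, 1, 4, 3, 4, 5, 4, 5, 2, 4, 3])) (.leaf 2 [3, 0, 1, 1, 1, 1, 4, 3, 4,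 1, 4, 1, 4, 1, 4, 1, 4, 4, 3, 4, 4, 4, 4, 1, 4, 3, 4, 4, 4, 5, 2, 4, 3])) (.leaf 2 [3, 1, 1, 1, 1, 1, 4, 3, 4, 1, 4, 1, 4, 1, 4, 1, 4, 4, 3, 4, 4, 4, 4, 1, 4, 3, 4, 4, 4, 5, 2, 4, 3])) (.leaf 2 [3, 1, 1, 1, 1, 1, 4, 3, 4, 1, 4, 1, 4, 1, 4, 1, 4, 4, 3, 4, 4, 4, 4, 1, 4, 3, 1, 4, 4, 4, 2, 4, 3]))
  (by decide +kernel)

theorem p77 : Cov 6 fA kA [[0, 1, 2, 6, 13, 13, 17], [0, 1, 5, 7, 8, 8, 10], [0, 0, 0, 1, 1, 1, 1], [0, 2, 2, 5, 12, 13, 15], [0, 2, 2, 5, 5, 6, 8], [0, 0, 1, 3, 5, 5, 7]] :=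
.of2 (.split 1 5 1 5
(.split 0 1 3 1
(.split 3 1 1 2
(.split 4 0 4 1
(.leaf 2 [3, 0, 1, 1, 1, 1, 4, 3, 4, 1, 4, 1, 4, 1, 4, 1, 4, 4, 3, 4, 4, 4, 4, 1, 4, 3, 4, 5, 4, 5, 2, 4, 3]) (.split 4 1 1 1
(.leaf 2 [3, 0, 1, 1, 1, 1, 4, 3, 4, 1, 4, 1, 4, 1, 4, 1, 4, 4, 3, 4, 4, 4, 4, 1, 4, 3, 4, 5, 4, 5, 2, 4, 3]) (.split 4 3 1 1
(.leaf 2 [3, 0, 1, 1, 1, 1, 4, 3, 4, 1, 4, 1, 4, 1, 4, 1, 4, 4, 3, 4, 4, 4, 4, 1, 4, 3, 4, 5, 4, 5, 2, 4, 3]) (.leaf 1 [3, 0, 0, 1, 1, 1, 1, 4, 3, 1, 1, 4, 1, 4, 1, 4, 1, 4, 1, 4, 3, 4, 4, 4, 4, 4, 1, 4, 3, 4, 1, 5, 4, 5, 2, 4, 3])))) (.split 3 4 1 6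
(.split 1 5 1 4
(.split 3 5 1 28
(.split 4 5 1 4
(.leaf 2 [3, 0, 1, 1, 1, 1, 4, 3, 4, 1, 4, 1, 4, 1, 4, 1, 4, 4, 3, 4, 4, 4, 4, 1, 4, 3, 4, 5, 4, 5, 5, 4, 3]) (.leaf 2 [3, 0, 1, 1, 1, 1, 4, 3, 4, 1, 4, 1, 4, 1, 4, 1, 4, 4, 3, 4, 4, 4, 4, 1, 4, 3, 4, 4, 4, 5, 2, 4, 3])) (.leaf 2 [3, 0, 1, 1, 1, 1, 4, 3, 4, 1, 4, 1, 4, 1, 4, 1, 4, 4, 3, 4, 4, 4, 4, 1, 4, 3, 4, 4, 4, 5, 2, 4, 3])) (.leaf 2 [3, 0, 1, 1, 1, 1, 4, 3, 4, 1, 4, 1, 4, 1, 4, 1, 4, 4, 3, 4, 4, 4, 4, 1, 4, 3, 4, 4, 4, 5, 4, 4, 3])) (.split 3 5 1 6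
(.split 0 4 7 4
(.split 1 4 1 1
(.split 3 4 7 2
(.split 5 4 14 1
(.leaf 2 [3, 0, 1, 1, 1, 1, 4, 3, 4, 1, 4, 4, 4, 1, 4, 4, 4, 4, 3, 4, 4, 4, 4, 4, 4, 3, 4, 4, 4, 4, 4, 4, 3]) (.leaf 2 [3, 0, 1, 1, 1, 1, 4, 3, 4, 1, 4, 4, 4, 1, 4, 4, 4, 4, 3, 4, 4, 4, 4, 4, 4, 3, 4, 5, 4, 5, 2, 4, 3])) (.leaf 2 [3, 0, 1, 1, 4, 4, 4, 3, 4, 1, 4, 4, 4, 4, 4, 4, 4, 4, 3, 4, 4, 4, 4, 4, 4, 3, 4, 5, 4, 5, 2, 4, 3])) (.leaf 2 [3, 0, 1, 1, 4, 4, 4, 3, 4, 1, 4, 4, 4, 4, 4, 4, 4, 4, 3, 4, 4, 4, 4, 4, 4, 3, 4, 5, 4, 5, 2, 4, 3])) (.leaf 2 [3, 0, 1, 1, 4, 4, 4, 3, 4, 1, 4, 4, 4, 4, 4, 4, 4, 4, 3, 4, 4, 4, 4, 4, 4, 3, 4, 5, 4, 5, 2, 4, 3])) (.leaf 3 [0, 4, 0, 1, 4, 4, 4,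 4, 1, 4, 4, 4, 4, 4, 1, 1, 4, 4, 4, 4, 3, 1, 5, 2, 4, 3])))) (.split 0 4 1 1
(.split 3 4 1 6
(.leaf 2 [3, 0, 1, 1, 1, 1, 4, 3, 4, 1, 4, 4, 4, 1, 4, 4, 4, 4, 3, 4, 4, 4, 4, 4, 4, 3, 4, 2, 4, 5, 2, 4, 3]) (.split 3 5 1 6
(.leaf 2 [3, 0, 1, 1, 4, 4, 4, 3, 4, 1, 4, 4, 4, 4, 4, 4, 4, 4, 3, 4, 4, 4, 4, 4, 4, 3, 4, 2, 4, 5, 2, 4, 3]) (.leaf 3 [0, 4, 0, 1, 4, 4, 4, 4, 1, 4, 4, 4, 4, 4, 1, 1, 4, 4, 4, 4, 3, 1, 5, 2, 4, 3]))) (.split 0 5 1 1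
(.split 3 5 1 6
(.leaf 3 [0, 2, 0, 1, 4, 4, 4, 2, 1, 4, 4, 4, 4, 4, 1, 1, 2, 4, 4, 2, 3, 1, 5, 2, 4, 3]) (.leaf 3 [0, 4, 0, 1, 4, 4, 4, 4, 1, 4, 4, 4, 4, 4, 1, 1, 4, 4, 4, 4, 3, 1, 5, 2, 4, 3])) (.leaf 3 [0, 4, 0, 1, 4, 4, 4, 4, 1, 4, 4, 4, 4, 4, 1, 1, 4, 4, 4, 4, 3, 1, 5, 2, 4, 3])))) (.split 1 0 2 3
(.split 2 0 2 1
(.leaf 3 [0, 3, 0, 0, 0, 4, 4, 3, 0, 4, 4, 4, 4, 4, 0, 0, 3, 4, 4, 3, 3, 0, 5, 2, 4, 3]) (.split 2 3 3 1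
(.leaf 0 [0, 3, 0, 0, 0, 0, 0, 4, 3, 0, 4, 4, 4, 4, 4, 0, 0, 3, 4, 4, 4, 4, 4, 4, 4, 3, 0, 3, 4, 5, 2, 4, 3]) (.split 2 4 3 1
(.leaf 0 [0, 3, 0, 0, 1, 0, 0, 4, 3, 1, 4, 4, 4, 4, 4, 1, 1, 3, 4, 4, 4, 4, 4, 4, 4, 3, 1, 3, 4, 5, 2, 4, 3]) (.split 2 5 2 1
(.leaf 0 [0, 3, 0, 0, 1, 0, 0, 4, 3, 1, 4, 4, 4, 4, 4, 1, 1, 3, 4, 4, 4, 4, 4, 4, 4, 3, 1, 3, 4, 5, 2, 4, 3]) (.leaf 2 [3, 0, 1, 1, 1, 1, 4, 3, 4, 1, 4, 4, 4, 1, 4, 4, 4, 4, 3, 4, 4, 4, 4, 4, 4, 4, 4, 4, 4, 5, 2, 4, 3]))))) (.split 1 3 1 1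
(.split 2 3 3 1
(.leaf 0 [0, 3, 0, 0, 0, 0, 0, 4, 3, 0, 4, 4, 4, 4, 4, 0, 0, 3, 4, 4, 4, 4, 4, 4, 4, 3, 0, 3, 4, 5, 4, 4, 3]) (.split 2 4 3 1
(.leaf 0 [0, 3, 0, 0, 1, 0, 0, 4, 3, 1, 4, 4, 4, 4, 4, 1, 1, 3, 4, 4, 4, 4, 4, 4, 4, 3, 1, 3, 4, 5, 4, 4, 3]) (.split 2 5 2 1
(.leaf 0 [0, 3, 0, 0, 1, 0, 0, 4, 3, 1, 4, 4, 4, 4, 4, 1, 1, 3, 4, 4, 4, 4, 4, 4, 4, 3, 1, 3, 4, 5, 4, 4, 3]) (.leaf 2 [3, 0, 1, 1, 1, 1, 4, 3, 4, 1, 4, 4, 4, 1, 4, 4, 4, 4, 3, 4, 4, 4, 4, 4, 4, 4, 4, 4, 4, 5, 4, 4, 3])))) (.split 1 4 1 1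
(.split 2 4 3 1
(.leaf 2 [3, 0, 0, 1, 0, 0, 4, 3, 4, 1, 4, 1, 4, 0, 4, 1, 4, 4, 3, 4, 4, 4, 4, 1, 4, 3, 4, 4, 4, 5, 4, 4, 3]) (.split 2 5 2 1
(.leaf 2 [3, 0, 0, 1, 0, 0, 4, 3, 4, 1, 4, 1, 4, 0, 4, 1, 4, 4, 3, 4, 4, 4, 4, 1, 4, 3, 4, 4, 4, 5, 4, 4, 3]) (.leaf 2 [3, 0, 1, 1, 1, 1, 4, 3, 4, 1, 4, 1, 4, 1, 4, 1, 4, 4, 3, 4, 4, 4, 4, 1, 4, 4, 4, 4, 4, 5, 4, 4, 3]))) (.split 1 5 2 3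
(.split 2 5 2 1
(.leaf 3 [0, 3, 0, 0, 0, 4, 4, 3, 1, 4, 0, 4, 4, 4, 0, 0, 3, 4, 4, 3, 3, 0, 5, 4, 4, 3]) (.leaf 2 [3, 0, 1, 1, 1, 1, 4, 3, 4, 1, 4, 1, 4, 1, 4, 1, 4, 4, 3, 4, 4, 4, 4, 1, 4, 4, 4, 4, 4, 5, 4, 4, 3])) (.leaf 2 [3, 4, 1, 1, 1, 1, 4, 3, 4, 1, 4, 1, 4, 1, 4, 1, 4, 4, 3, 4, 4, 4, 4, 1, 4, 4, 4, 4, 4, 5, 4, 4, 3]))))))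
  (by decide +kernel)

end Pool.Agent.P.MP_754fe6_co.D6
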