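import Mathlib
import Pool.Agent.P.MP_754fe6_co.D6c1

set_option maxRecDepth 100000

namespace Pool.Agent.P.MP_754fe6_co.D6

open Rup

theorem p78 : Cov 6 fA kA [[0, 1, 1, 3, 8, 8, 10], [0, 1, 5, 7, 8, 8, 10], [0, 0, 0, 1, 1, 1, 1], [0, 2, 2, 5, 12, 13, 15], [0, 2, 2, 5, 5, 6, 8], [0, 1, 2, 6, 13, 13, 17]] :=
.of2 (.split 1 0 1 3
(.split 2 0 1 1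
(.leaf 3 [0, 4, 0, 0, 0, 4, 0, 4, 0, 0, 0, 4, 0, 4, 0, 0, 4, 0, 4, 3, 4, 0, 4, 2, 4, 3]) (.split 2 3 3 1
(.leaf 0 [0, 4, 0, 0, 0, 0, 0, 0, 4, 0, 4, 4, 4, 4, 4, 0, 0, 4, 4, 4, 0, 4, 4, 4, 4, 4, 0, 3, 4, 4, 2, 4, 3]) (.split 2 4 3 1
(.leaf 0 [0, 4, 0, 0, 1, 0, 0, 0, 4, 1, 4, 4, 4, 4, 4, 1, 1, 4, 4, 4, 0, 4, 4, 4, 4, 4, 1, 3, 4, 4, 2, 4, 3]) (.split 2 5 2 1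
(.leaf 0 [0, 4, 0, 0, 1, 0, 0, 4, 4, 1, 4, 4, 4, 4, 4, 1, 1, 4, 4, 4, 4, 4, 4, 4, 4, 4, 1, 3, 4, 4, 2, 4, 3]) (.leaf 2 [4, 0, 1, 1, 1, 1, 4, 4, 4, 1, 4, 4, 4, 1, 4, 4, 4, 4, 4, 4, 4, 4, 4, 4, 4, 4, 4, 4, 4, 4, 2, 4, 3]))))) (.split 1 3 1 1
(.split 2 3 3 1
(.leaf 0 [0, 4, 0, 0, 0, 0, 0, 0, 4, 0, 4, 4, 4, 4, 4, 0, 0, 4, 4, 4, 0, 4, 4, 4, 4, 4, 0, 3, 4, 4, 2, 4, 3]) (.split 2 4 3 1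
(.leaf 0 [0, 4, 0, 0, 1, 0, 0, 0, 4, 1, 4, 4, 4, 4, 4, 1, 1, 4, 4, 4, 0, 4, 4, 4, 4, 4, 1, 3, 4, 4, 2, 4, 3]) (.split 2 5 2 1
(.leaf 0 [0, 4, 0, 0, 1, 0, 0, 4, 4, 1, 4, 4, 4, 4, 4, 1, 1, 4, 4, 4, 4, 4, 4, 4, 4, 4, 1, 3, 4, 4, 2, 4, 3]) (.leaf 2 [4, 0, 1, 1, 1, 1, 4, 4, 4, 1, 4, 4, 4, 1, 4, 4, 4, 4, 4, 4, 4, 4, 4, 4, 4, 4, 4, 4, 4, 4, 2, 4, 3])))) (.split 1 4 1 1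
(.split 2 4 3 1
(.leaf 2 [3, 0, 0, 1, 0, 0, 0, 4, 4, 1, 4, 4, 4, 0, 4, 4, 0, 4, 4, 4, 4, 4, 4, 4, 4, 3, 4, 4, 4, 4, 2, 4, 3]) (.split 2 5 2 1
(.leaf 2 [3, 0, 0, 1, 0, 0, 4, 4, 4, 1, 4, 4, 4, 0, 4, 4, 4, 4, 4, 4, 4, 4, 4, 4, 4, 3, 4, 4, 4, 4, 2, 4, 3]) (.leaf 2 [3, 0, 1, 1, 1, 1, 4, 4, 4, 1, 4, 4, 4, 1, 4, 4, 4, 4, 4, 4, 4, 4, 4, 4, 4, 4, 4, 4, 4, 4, 2, 4, 3]))) (.split 1 5 2 3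
(.split 2 5 2 1
(.leaf 3 [0, 4, 0, 0, 0, 4, 4, 4, 1, 4, 4, 4, 4, 4, 0, 0, 4, 4, 4, 4, 3, 0, 4, 2, 4, 3]) (.leaf 3 [0, 4, 0, 1, 1, 4, 4, 4, 1, 4, 4, 4, 4, 4, 1, 1, 4, 4, 4, 4, 3, 1, 4, 2, 4, 3])) (.leaf 2 [3, 4, 1, 1, 1, 1, 4, 4, 4, 1, 4, 1, 4, 1, 4, 1, 4, 4, 4, 4, 4, 4, 4, 1, 4, 4, 4, 4, 4, 4, 4, 4, 3])))))
  (by decide +kernel)

theorem p79 : Cov 6 fA kA [[0, 1, 1, 3, 8, 8, 10], [0, 1, 5, 7, 8, 8, 10], [0, 0, 0, 1, 1, 1, 1], [0, 0, 0, 0, 1, 1, 1], [0, 2, 2, 5, 12, 13, 15], [0, 0, 1, 3, 5, 5, 7]] :=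
.of2 (.split 3 5 3 1
(.split 0 1 1 1
(.split 2 1 2 1
(.split 3 1 2 1
(.split 4 1 2 3
(.leaf 2 [3, 4, 1, 1, 4, 4, 4, 5, 4, 1, 4, 0, 4, 4, 4, 0, 4, 4, 5, 4, 4, 4, 4, 0, 4, 3, 4, 5, 4, 5, 5, 4, 3]) (.split 4 5 2 3
(.leaf 2 [3, 4, 1, 1, 4, 4, 4, 5, 4, 1, 4, 0, 4, 4, 4, 0, 4, 4, 5, 4, 4, 4, 4, 0, 4, 3, 4, 3, 4, 5, 2, 4, 3]) (.leaf 3 [0, 4, 11, 1, 4, 4, 4, 4, 1, 4, 0, 4, 4, 4, 1, 0, 4, 4, 4, 4, 4, 1, 5, 4, 4, 3]))) (.split 3 5 2 1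
(.split 4 5 2 3
(.leaf 2 [3, 4, 1, 1, 4, 4, 4, 5, 4, 1, 4, 0, 4, 4, 4, 0, 4, 4, 5, 4, 4, 4, 4, 0, 4, 3, 4, 3, 4, 5, 2, 4, 3]) (.leaf 3 [0, 4, 11, 1, 4, 4, 4, 4, 1, 4, 0, 4, 4, 4, 1, 0, 4, 4, 4, 4, 4, 1, 5, 2, 4, 3])) (.leaf 3 [0, 4, 11, 1, 4, 4, 4, 4, 1, 4, 0, 4, 4, 4, 1, 0, 4, 4, 4, 4, 4, 1, 5, 2, 4, 3]))) (.split 2 5 2 1
(.split 3 5 2 1
(.split 4 5 2 3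
(.leaf 2 [3, 4, 1, 1, 4, 4, 4, 5, 4, 1, 4, 4, 4, 4, 4, 4, 4, 4, 5, 4, 4, 4, 4, 4, 4, 3, 4, 3, 4, 5, 2, 4, 3]) (.leaf 3 [0, 4, 11, 1, 4, 4, 4, 4, 1, 4, 4, 4, 4, 4, 1, 1, 4, 4, 4, 5, 4, 1, 5, 2, 4, 3])) (.leaf 3 [0, 4, 11, 1, 4, 4, 4, 4, 1, 4, 4, 4, 4, 4, 1, 1, 4, 4, 4, 5, 4, 1, 5, 2, 4, 3])) (.leaf 3 [0, 4, 11, 1, 4, 4, 4, 4, 1, 4, 4, 4, 4, 4, 1, 1, 4, 4, 4, 5, 4, 1, 5, 2, 4, 3]))) (.split 0 5 1 1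
(.split 2 5 2 1
(.split 3 5 2 1
(.split 4 5 2 3
(.leaf 3 [0, 5, 0, 1, 4, 4, 4, 5, 1, 4, 4, 4, 4, 4, 1, 1, 5, 4, 4, 5, 3, 1, 5, 2, 4, 3]) (.leaf 3 [0, 4, 0, 1, 4, 4, 4, 4, 1, 4, 4, 4, 4, 4, 1, 1, 4, 4, 4, 5, 4, 1, 5, 2, 4, 3])) (.leaf 3 [0, 4, 0, 1, 4, 4, 4, 4, 1, 4, 4, 4, 4, 4, 1, 1, 4, 4, 4, 5, 4, 1, 5, 2, 4, 3])) (.leaf 3 [0, 4, 0, 1, 4, 4, 4, 4, 1, 4, 4, 4, 4, 4, 1, 1, 4, 4, 4, 5, 4, 1, 5, 2, 4, 3])) (.leaf 3 [0, 4, 0, 1, 4, 4, 4, 4, 1, 4, 4, 4, 4, 4, 1, 1, 4, 4, 4, 4, 4, 1, 5, 2, 4, 3]))) (.leaf 6 [4, 4, 11, 1, 1, 4, 4, 4, 4, 1, 1, 4, 4, 4, 4, 4, 4, 1, 4, 4, 4, 4, 1, 4, 5, 2, 4, 4]))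
  (by decide +kernel)

theorem p80 : Cov 6 fA kA [[0, 1, 5, 7, 8, 8, 10], [0, 2, 9, 12, 12, 13, 15], [0, 0, 0, 1, 1, 1, 1], [0, 2, 2, 5, 12, 13, 15], [0, 2, 2, 5, 5, 6, 8], [0, 0, 1, 3, 5, 5, 7]] :=
.of2 (.split 2 0 2 1
(.split 3 0 2 7
(.leaf 2 [3, 4, 1, 1, 1, 1, 4, 3, 4, 1, 4, 0, 4, 1, 4, 0, 4, 4, 3, 4, 4, 4, 4, 0, 4, 3, 4, 3, 4, 5, 2, 4, 3]) (.split 3 5 2 7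
(.leaf 2 [3, 4, 1, 1, 4, 4, 4, 3, 4, 1, 4, 0, 4, 4, 4, 0, 4, 4, 3, 4, 4, 4, 4, 0, 4, 3, 4, 3, 4, 5, 2, 4, 3]) (.leaf 3 [0, 4, 11, 1, 4, 4, 4, 4, 1, 4, 0, 4, 4, 4, 1, 0, 4, 4, 4, 3, 4, 1, 5, 2, 4, 3]))) (.split 2 5 2 1
(.split 3 5 2 7
(.leaf 2 [3, 4, 1, 1, 4, 4, 4, 3, 4, 1, 4, 4, 4, 4, 4, 4, 4, 4, 3, 4, 4, 4, 4, 4, 4, 3, 4, 3, 4, 5, 2, 4, 3]) (.leaf 3 [0, 4, 11, 1, 4, 4, 4, 4, 1, 4, 4, 4, 4, 4, 1, 1, 4, 4, 4, 3, 4, 1, 5, 2, 4, 3])) (.split 0 5 1 5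
(.split 1 5 1 7
(.split 3 0 1 2
(.split 0 4 1 4
(.split 1 4 1 6
(.split 3 4 1 7
(.split 5 4 2 1
(.leaf 2 [3, 0, 1, 1, 1, 1, 1, 4, 4, 1, 1, 1, 4, 1, 1, 1, 1, 4, 4, 4, 4, 1, 4, 1, 4, 4, 1, 4, 4, 4, 4, 1, 3]) (.leaf 2 [4, 0, 1, 1, 1, 1, 1, 4, 4, 1, 4, 1, 4, 1, 4, 1, 1, 4, 4, 4, 4, 4, 4, 1, 4, 4, 4, 5, 4, 5, 2, 1, 3])) (.leaf 2 [4, 0, 1, 1, 1, 1, 1, 4, 4, 1, 4, 1, 4, 1, 4, 1, 1, 4, 4, 4, 4, 4, 4, 1, 4, 4, 4, 5, 4, 5, 2, 1, 3])) (.leaf 2 [4, 0, 1, 1, 1, 1, 1, 4, 4, 1, 4, 1, 4, 1, 4, 1, 1, 4, 4, 4, 4, 4, 4, 1, 4, 4, 4, 5, 4, 5, 2, 1, 3])) (.leaf 2 [4, 0, 1, 1, 1, 1, 1, 4, 4, 1, 4, 1, 4, 1, 4, 1, 1, 4, 4, 4, 4, 4, 4, 1, 4, 4, 4, 5, 4, 5, 2, 1, 3])) (.split 3 1 1 6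
(.split 1 0 1 1
(.split 3 0 1 7
(.split 4 0 1 1
(.leaf 3 [0, 4, 0, 1, 1, 4, 1, 4, 1, 4, 1, 4, 4, 4, 1, 1, 4, 4, 4, 5, 4, 1, 5, 5, 1, 3]) (.leaf 1 [3, 0, 0, 1, 1, 1, 1, 1, 4, 1, 1, 4, 1, 4, 1, 4, 1, 1, 1, 4, 4, 4, 4, 4, 4, 4, 1, 4, 4, 1, 1, 5, 4, 5, 2, 1, 3])) (.leaf 1 [3, 0, 0, 1, 1, 1, 1, 1, 4, 1, 1, 4, 1, 4, 1, 4, 1, 1, 1, 4, 4, 4, 4, 4, 4, 4, 1, 4, 4, 1, 1, 5, 4, 5, 2, 1, 3])) (.leaf 1 [3, 0, 0, 1, 1, 1, 1, 1, 4, 1, 1, 4, 1, 4, 1, 4, 1, 1, 1, 4, 4, 4, 4, 4, 4, 4, 1, 4, 4, 1, 1, 5, 4, 5, 2, 1, 3])) (.split 3 4 1 6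
(.split 0 5 1 4
(.split 1 5 1 28
(.split 3 5 1 28
(.split 4 5 1 4
(.leaf 2 [4, 0, 1, 1, 1, 1, 1, 4, 4, 1, 4, 1, 4, 1, 4, 1, 1, 4, 4, 4, 4, 4, 4, 1, 4, 4, 4, 5, 4, 5, 5, 4, 3]) (.leaf 2 [3, 0, 1, 1, 1, 1, 1, 4, 4, 1, 4, 1, 4, 1, 4, 1, 1, 4, 4, 4, 4, 4, 4, 1, 4, 4, 4, 4, 4, 5, 2, 4, 3])) (.leaf 2 [3, 0, 1, 1, 1, 1, 1, 4, 4, 1, 4, 1, 4, 1, 4, 1, 1, 4, 4, 4, 4, 4, 4, 1, 4, 4, 4, 4, 4, 5, 2, 4, 3])) (.leaf 2 [3, 0, 1, 1, 1, 1, 1, 4, 4, 1, 4, 1, 4, 1, 4, 1, 1, 4, 4, 4, 4, 4, 4, 1, 4, 4, 4, 4, 4, 5, 4, 4, 3])) (.leaf 2 [3, 0, 1, 1, 1, 1, 1, 4, 4, 1, 4, 1, 4, 1, 4, 1, 1, 4, 4, 4, 4, 4, 4, 1, 4, 4, 4, 4, 4, 5, 4, 4, 3])) (.split 3 5 1 6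
(.split 1 0 1 7
(.split 3 0 1 1
(.split 4 0 1 7
(.leaf 3 [0, 4, 0, 1, 1, 4, 1, 4, 1, 4, 1, 4, 4, 4, 1, 1, 4, 4, 4, 5, 4, 1, 5, 5, 4, 5]) (.leaf 1 [3, 0, 0, 1, 1, 1, 1, 1, 4, 1, 1, 4, 1, 4, 1, 4, 1, 1, 1, 4, 4, 4, 4, 4, 4, 4, 1, 4, 4, 4, 1, 5, 4, 5, 2, 4, 3])) (.leaf 1 [3, 0, 0, 1, 1, 1, 1, 4, 4, 1, 1, 4, 4, 4, 1, 4, 4, 4, 1, 4, 4, 4, 4, 4, 4, 4, 4, 4, 4, 4, 1, 5, 4, 5, 2, 4, 3])) (.leaf 1 [3, 0, 0, 1, 1, 1, 1, 4, 4, 1, 1, 4, 4, 4, 1, 4, 4, 4, 1, 4, 4, 4, 4, 4, 4, 4, 4, 4, 4, 4, 1, 5, 4, 5, 2, 4, 3])) (.leaf 3 [0, 4, 0, 1, 4, 4, 4, 4, 1, 4, 4, 4, 4, 4, 1, 1, 4, 4, 4, 4, 4, 1, 5, 2, 4, 3]))))) (.leaf 2 [3, 4, 1, 1, 4, 4, 4, 4, 4, 1, 4, 4, 4, 4, 4, 4, 4, 4, 4, 4, 4, 4, 4, 4, 4, 4,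 4, 4, 4, 5, 4, 4, 3])) (.leaf 2 [3, 4, 1, 1, 4, 4, 4, 4, 4, 1, 4, 4, 4, 4, 4, 4, 4, 4, 4, 4, 4, 4, 4, 4, 4, 4, 4, 4, 4, 5, 4, 4, 3]))))
  (by decide +kernel)

theorem p81 : Cov 6 fA kA [[0, 1, 5, 7, 8, 8, 10], [0, 2, 9, 12, 12, 13, 15], [0, 0, 0, 1, 1, 1, 1], [0, 0, 0, 0, 1, 1, 1], [0, 2, 2, 5, 12, 13, 15], [0, 0, 1, 3, 5, 5, 7]] :=
.of2 (.split 3 5 3 1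
(.split 1 5 3 4
(.split 4 5 3 4
(.split 2 0 2 1
(.split 3 0 2 1
(.split 4 0 2 1
(.leaf 2 [3, 4, 1, 1, 4, 4, 4, 5, 4, 1, 4, 0, 4, 4, 4, 0, 4, 4, 5, 4, 4, 4, 4, 0, 4, 3, 4, 3, 4, 5, 2, 4, 3]) (.split 4 1 20 1
(.leaf 2 [5, 4, 1, 1, 4, 4, 4, 5, 4, 1, 4, 0, 4, 4, 4, 0, 4, 4, 5, 4, 4, 4, 4, 0, 4, 3, 4, 3, 4, 5, 2, 4, 3]) (.split 4 5 2 1
(.leaf 2 [5, 4, 1, 1, 4, 4, 4, 5, 4, 1, 4, 0, 4, 4, 4, 0, 4, 4, 5, 4, 4, 4, 4, 0, 4, 3, 4, 3, 4, 5, 2, 4, 3]) (.leaf 3 [0, 4, 11, 1, 4, 4, 4, 4, 1, 4, 0, 4, 4, 4, 1, 0, 4, 4, 4, 4, 4, 1, 5, 4, 4, 3])))) (.split 3 1 20 1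
(.split 4 1 20 1
(.leaf 2 [5, 4, 1, 1, 4, 4, 4, 5, 4, 1, 4, 0, 4, 4, 4, 0, 4, 4, 5, 4, 4, 4, 4, 0, 4, 3, 4, 3, 4, 5, 2, 4, 3]) (.split 4 5 2 1
(.leaf 2 [5, 4, 1, 1, 4, 4, 4, 5, 4, 1, 4, 0, 4, 4, 4, 0, 4, 4, 5, 4, 4, 4, 4, 0, 4, 3, 4, 3, 4, 5, 2, 4, 3]) (.leaf 3 [0, 4, 11, 1, 4, 4, 4, 4, 1, 4, 0, 4, 4, 4, 1, 0, 4, 4, 4, 4, 4, 1, 5, 4, 4, 3]))) (.split 3 5 2 1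
(.split 4 5 2 1
(.leaf 2 [5, 4, 1, 1, 4, 4, 4, 5, 4, 1, 4, 0, 4, 4, 4, 0, 4, 4, 5, 4, 4, 4, 4, 0, 4, 3, 4, 3, 4, 5, 2, 4, 3]) (.leaf 3 [0, 4, 11, 1, 4, 4, 4, 4, 1, 4, 0, 4, 4, 4, 1, 0, 4, 4, 4, 4, 4, 1, 5, 2, 4, 3])) (.leaf 3 [0, 4, 11, 1, 4, 4, 4, 4, 1, 4, 0, 4, 4, 4, 1, 0, 4, 4, 4, 4, 4, 1, 5, 2, 4, 3])))) (.split 2 1 20 1
(.split 3 1 20 1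
(.split 4 1 20 1
(.leaf 2 [5, 4, 1, 1, 4, 4, 4, 5, 4, 1, 4, 4, 4, 4, 4, 4, 4, 4, 5, 4, 4, 4, 4, 4, 4, 3, 4, 3, 4, 5, 2, 4, 3]) (.split 4 5 2 1
(.leaf 2 [5, 4, 1, 1, 4, 4, 4, 5, 4, 1, 4, 4, 4, 4, 4, 4, 4, 4, 5, 4, 4, 4, 4, 4, 4, 3, 4, 3, 4, 5, 2, 4, 3]) (.leaf 3 [0, 4, 11, 1, 4, 4, 4, 4, 1, 4, 4, 4, 4, 4, 1, 1, 4, 4, 4, 4, 4, 1, 5, 4, 4, 3]))) (.split 3 5 2 1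
(.split 4 5 2 1
(.leaf 2 [5, 4, 1, 1, 4, 4, 4, 5, 4, 1, 4, 4, 4, 4, 4, 4, 4, 4, 5, 4, 4, 4, 4, 4, 4, 3, 4, 3, 4, 5, 2, 4, 3]) (.leaf 3 [0, 4, 11, 1, 4, 4, 4, 4, 1, 4, 4, 4, 4, 4, 1, 1, 4, 4, 4, 4, 4, 1, 5, 2, 4, 3])) (.leaf 3 [0, 4, 11, 1, 4, 4, 4, 4, 1, 4, 4, 4, 4, 4, 1, 1, 4, 4, 4, 4, 4, 1, 5, 2, 4, 3]))) (.split 2 5 2 1
(.split 3 5 2 1
(.split 4 5 2 1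
(.leaf 2 [5, 4, 1, 1, 4, 4, 4, 5, 4, 1, 4, 4, 4, 4, 4, 4, 4, 4, 5, 4, 4, 4, 4, 4, 4, 3, 4, 3, 4, 5, 2, 4, 3]) (.leaf 3 [0, 4, 11, 1, 4, 4, 4, 4, 1, 4, 4, 4, 4, 4, 1, 1, 4, 4, 4, 5, 4, 1, 5, 2, 4, 3])) (.leaf 3 [0, 4, 11, 1, 4, 4, 4, 4, 1, 4, 4, 4, 4, 4, 1, 1, 4, 4, 4, 5, 4, 1, 5, 2, 4, 3])) (.leaf 3 [0, 4, 11, 1, 4, 4, 4, 4, 1, 4, 4, 4, 4, 4, 1, 1, 4, 4, 4, 5, 4, 1, 5, 2, 4, 3])))) (.leaf 6 [4, 4, 11, 1, 1, 4, 4, 4, 4, 1, 1, 4, 4, 4, 4, 4, 4, 1, 4, 4, 4, 4, 1, 4, 5, 2, 4, 4])) (.leaf 6 [4, 4, 11, 1, 1, 4, 4, 4, 4, 1, 1, 4, 4, 4, 4, 4, 4, 1, 4, 4, 4, 4, 1, 4, 5, 2, 4, 4])) (.leaf 6 [4, 4, 11, 1, 1, 4, 4, 4, 4, 1, 1, 4, 4, 4, 4, 4, 4, 1, 4, 4, 4, 4, 1, 4, 5, 2, 4, 4]))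
  (by decide +kernel)

theorem p82 : Cov 6 fA kA [[0, 1, 5, 7, 8, 8, 10], [0, 0, 1, 1, 1, 1, 1], [0, 0, 0, 1, 1, 1, 1], [0, 0, 0, 0, 1, 1, 1], [0, 2, 9, 12, 12, 13, 15], [0, 0, 1, 3, 5, 5, 7]] :=
.of2 (.split 1 5 3 1
(.split 3 5 3 1
(.leaf 2 [3, 4, 1, 1, 4, 4, 4, 5, 4, 1, 4, 4, 4, 4, 4, 4, 4, 4, 5, 4, 4, 4, 4, 4, 4, 5, 4, 5, 4, 5, 5, 4, 3]) (.leaf 2 [4, 4, 1, 1, 4, 4, 4, 4, 4, 1, 4, 4, 4, 4, 4, 4, 4, 4, 4, 4, 4, 4, 4, 4, 4, 5, 4, 5, 4, 5, 5, 4, 4])) (.leaf 2 [4, 4, 1, 1, 4, 4, 4, 4, 4, 1, 4, 4, 4, 4, 4, 4, 4, 4, 4, 4, 4, 4, 4, 4, 4, 4, 4, 4, 4, 5, 4, 4, 4]))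
  (by decide +kernel)

theorem p83 : Cov 6 fA kA [[0, 1, 1, 3, 4, 4, 6], [0, 0, 1, 1, 1, 1, 1], [0, 0, 1, 3, 5, 5, 7], [0, 0, 0, 0, 1, 1, 1], [0, 2, 2, 5, 5, 6, 8], [0, 0, 1, 1, 3, 3, 5]] :=
.of2 (.leaf 6 [3, 3, 11, 11, 4, 4, 4, 4, 3, 1, 4, 0, 4, 4, 4, 4, 4, 1, 3, 4, 4, 4, 1, 3, 5, 2, 12, 3])
  (by decide +kernel)

theorem p84 : Cov 6 fA kA [[0, 1, 1, 3, 4, 4, 6], [0, 0, 1, 1, 1, 1, 1], [0, 2, 2, 5, 5, 6, 8], [0, 0, 0, 0, 1, 1, 1], [0, 2, 2, 2, 2, 3, 5], [0, 0, 1, 1, 3, 3, 5]] :=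
.of2 (.leaf 6 [3, 3, 11, 11, 4, 4, 4, 4, 3, 1, 4, 0, 4, 4, 4, 4, 4, 11, 3, 4, 4, 4, 11, 3, 5, 2, 12, 3])
  (by decide +kernel)

theorem p85 : Cov 6 fA kA [[0, 1, 1, 1, 2, 2, 4], [0, 0, 1, 1, 1, 1, 1], [0, 1, 1, 3, 4, 4, 6], [0, 0, 0, 0, 1, 1, 1], [0, 2, 2, 2, 2, 3, 5], [0, 0, 1, 1, 3, 3, 5]] :=
.of2 (.leaf 6 [3, 3, 11, 11, 4, 4, 4, 4, 3, 1, 4, 0, 4, 4, 4, 4, 4, 11, 3, 4, 4, 4, 11, 3, 5, 2, 12, 3])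
  (by decide +kernel)

theorem p86 : Cov 6 fA kA [[0, 1, 1, 1, 1, 1, 2], [0, 0, 1, 1, 1, 1, 1], [0, 0, 0, 1, 1, 1, 1], [0, 0, 0, 0, 1, 1, 1], [0, 2, 2, 2, 2, 3, 5], [0, 1, 1, 1, 2, 2, 4]] :=
.of2 (.split 0 2 1 1
(.split 4 2 1 3
(.split 5 2 1 2
(.split 1 4 3 1
(.split 2 4 3 1
(.leaf 0 [0, 3, 4, 0, 1, 0, 0, 0, 3, 1, 4, 4, 4, 4, 4, 1, 1, 3, 4, 4, 0, 4, 4, 4, 4, 3, 1, 4, 4, 4, 2, 4, 3]) (.split 2 5 1 1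
(.leaf 0 [0, 3, 4, 0, 1, 0, 0, 0, 3, 1, 4, 4, 4, 4, 4, 1, 1, 3, 4, 4, 0, 4, 4, 4, 4, 3, 1, 4, 4, 4, 2, 4, 3]) (.leaf 1 [3, 0, 0, 1, 1, 4, 4, 4, 3, 1, 1, 4, 4, 4, 4, 4, 4, 4, 1, 4, 3, 4, 4, 4, 4, 4, 4, 4, 4, 4, 1, 4, 4, 4, 2, 4, 3]))) (.split 1 5 1 1
(.split 2 5 1 1
(.leaf 3 [0, 3, 0, 1, 0, 4, 0, 3, 1, 0, 0, 4, 0, 4, 0, 1, 3, 0, 4, 3, 3, 0, 4, 2, 4, 3]) (.leaf 1 [3, 0, 0, 1, 1, 4, 4, 4, 3, 1, 1, 4, 4, 4, 4, 4, 4, 4, 1, 4, 3, 4, 4, 4, 4, 4, 4, 4, 4, 4, 1, 4, 4, 4, 2, 4, 3])) (.leaf 1 [3, 4, 4, 1, 1, 4, 4, 4, 3, 1, 1, 4, 4, 4, 4, 4, 4, 4, 1, 4, 3, 4, 4, 4, 4, 4, 4, 4, 4, 4, 1, 4, 4, 4, 4, 4, 3]))) (.leaf 6 [3, 3, 11, 11, 4, 4, 4, 4, 3, 1, 4, 0, 4, 4, 4, 4, 4, 11, 3, 4, 4, 4, 11,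 3, 4, 2, 12, 3])) (.leaf 6 [3, 3, 11, 11, 4, 4, 4, 4, 3, 1, 4, 0, 4, 4, 4, 4, 4, 11, 3, 4, 4, 4, 11, 3, 4, 2, 12, 3])) (.leaf 6 [3, 3, 11, 11, 11, 4, 4, 4, 3, 1, 11, 0, 4, 4, 4, 4, 4, 11, 3, 4, 4, 4, 11, 3, 4, 2, 12, 3]))
  (by decide +kernel)

theorem p87 : Cov 6 fA kA [[0, 1, 1, 1, 1, 1, 1], [0, 0, 1, 1, 1, 1, 1], [0, 0, 0, 1, 1, 2, 2], [0, 0, 0, 0, 1, 1, 1], [0, 0, 0, 0, 0, 1, 1], [0, 1, 1, 1, 1, 1, 2]] :=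
.of2 (.split 3 4 1 1
(.split 1 5 3 1
(.split 2 5 1 1
(.split 3 5 3 4
(.split 4 5 3 2
(.split 2 0 1 2
(.split 3 0 1 9
(.split 4 0 1 6
(.leaf 7 [0, 0, 11, 0, 11, 0, 0, 0, 0, 11, 0, 0, 0, 0, 0, 0, 11, 0, 0, 0, 0, 4, 0, 0, 0, 0, 0, 0, 3]) (.leaf 6 [3, 3, 11, 0, 11, 0, 0, 0, 3, 11, 11, 0, 0, 0, 0, 0, 0, 0, 3, 0, 4, 0, 0, 3, 0, 0, 12, 3])) (.leaf 6 [3, 3, 11, 0, 11, 0, 0, 0, 3, 11, 11, 0, 0, 0, 0, 0, 0, 0, 3, 0, 4, 0, 0, 3, 0, 0, 12, 3])) (.leaf 6 [3, 3, 11, 0, 11, 0, 0, 0, 3, 11, 11, 0, 0, 0, 0, 0, 0, 0, 3, 0, 4, 0, 0, 3, 0, 0, 12, 3])) (.leaf 6 [4, 3, 11, 0, 11, 0, 0, 0, 3, 11, 11, 0, 0, 0, 0, 0, 0, 0, 3, 0, 4, 0, 0, 3, 4, 4, 12, 3])) (.leaf 6 [4, 3, 11, 0, 11, 0, 0, 0, 3, 11, 11,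 0, 0, 0, 0, 0, 0, 0, 3, 0, 4, 4, 0, 3, 4, 4, 12, 3])) (.leaf 6 [4, 4, 11, 0, 8, 0, 4, 0, 4, 1, 8, 4, 0, 0, 0, 4, 0, 4, 4, 4, 4, 4, 4, 3, 4, 4, 4, 3])) (.leaf 6 [4, 4, 11, 4, 8, 4, 4, 4, 4, 1, 8, 4, 0, 4, 4, 4, 4, 4, 4, 4, 4, 4, 4, 4, 4, 4, 4, 4])) (.split 3 5 1 1
(.split 1 3 1 1
(.split 2 3 1 3
(.split 4 3 1 4
(.leaf 3 [0, 3, 0, 0, 0, 0, 0, 3, 0, 0, 0, 0, 0, 0, 0, 0, 3, 0, 4, 0, 3, 0, 0, 0, 12, 3]) (.split 4 5 3 4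
(.leaf 3 [0, 3, 0, 0, 0, 0, 0, 3, 0, 0, 0, 0, 0, 0, 0, 0, 3, 0, 4, 0, 3, 0, 0, 0, 12, 3]) (.leaf 3 [0, 3, 0, 0, 0, 4, 0, 3, 0, 0, 0, 0, 0, 4, 0, 0, 3, 0, 4, 4, 3, 0, 4, 4, 12, 3]))) (.split 2 5 1 1
(.split 4 5 3 4
(.leaf 3 [0, 3, 0, 0, 0, 0, 0, 3, 0, 0, 0, 0, 0, 0, 0, 0, 3, 0, 4, 3, 3, 0, 0, 0, 12, 3]) (.leaf 3 [0, 3, 0, 0, 0, 4, 0, 3, 0, 0, 0, 0, 0, 4, 0, 0, 3, 0, 4, 4, 3, 0, 4, 4, 12, 3])) (.leaf 3 [0, 3, 0, 0, 0, 4, 0, 3, 0, 0, 4, 0, 0, 4, 4, 4, 3, 0, 4, 4, 3, 4, 4, 4, 12, 3]))) (.split 1 5 3 1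
(.split 2 5 1 1
(.split 4 5 3 4
(.split 2 0 1 2
(.split 3 0 1 1
(.split 4 0 1 9
(.leaf 7 [0, 0, 11, 0, 11, 0, 0, 0, 0, 11, 0, 0, 0, 0, 0, 0, 11, 0, 0, 0, 0, 4, 0, 0, 0, 0, 0, 0, 3]) (.leaf 6 [3, 3, 11, 0, 11, 0, 0, 0, 3, 11, 11, 0, 0, 0, 0, 0, 0, 0, 3, 0, 4, 0, 0, 3, 0, 0, 12, 3])) (.leaf 6 [3, 3, 11, 0, 11, 0, 0, 0, 3, 11, 11, 0, 0, 0, 0, 0, 0, 0, 3, 0, 4, 0, 0, 3, 0, 0, 12, 3])) (.leaf 6 [3, 3, 11, 0, 11, 0, 0, 0, 3, 11, 11, 0, 0, 0, 0, 0, 0, 0, 3, 0, 4, 0, 0, 3, 0, 0, 12, 3])) (.leaf 6 [4, 3, 11, 0, 11, 0, 0, 0, 3, 11, 11, 0, 0, 0, 0, 0, 0, 0, 3, 0, 4, 4, 0, 3, 4, 4, 12, 3])) (.leaf 6 [4, 4, 11, 0, 8, 0, 4, 0, 4, 1, 8, 4, 0, 0, 0, 4, 0, 4, 4, 4, 4, 4, 4, 3, 4, 4, 4, 3])) (.leaf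 6 [4, 4, 11, 4, 8, 4, 4, 4, 4, 1, 8, 4, 0, 4, 4, 4, 4, 4, 4, 4, 4, 4, 4, 4, 4, 4, 4, 3]))) (.split 0 5 2 1
(.split 1 5 2 1
(.split 2 5 2 1
(.split 1 0 1 1
(.split 3 0 1 2
(.leaf 3 [0, 3, 0, 0, 0, 4, 0, 3, 0, 0, 0, 0, 0, 4, 0, 0, 3, 0, 4, 4, 3, 0, 4, 4, 12, 3]) (.split 3 2 3 2
(.leaf 3 [0, 3, 0, 0, 0, 4, 0, 3, 0, 0, 0, 0, 0, 4, 0, 0, 3, 0, 4, 4, 3, 0, 4, 4, 12, 3]) (.split 3 5 1 2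
(.leaf 3 [0, 3, 0, 0, 0, 4, 0, 3, 0, 0, 0, 0, 0, 4, 0, 0, 3, 0, 4, 4, 3, 0, 4, 4, 12, 3]) (.leaf 3 [0, 3, 0, 0, 0, 4, 0, 3, 0, 0, 0, 4, 0, 4, 0, 0, 3, 0, 4, 4, 3, 0, 4, 4, 12, 3])))) (.split 1 2 3 1
(.split 3 2 3 2
(.leaf 3 [0, 3, 0, 0, 0, 4, 0, 3, 0, 0, 0, 0, 0, 4, 0, 0, 3, 0, 4, 4, 3, 0, 4, 4, 12, 3]) (.split 3 5 1 2
(.leaf 3 [0, 3, 0, 0, 0, 4, 0, 3, 0, 0, 0, 0, 0, 4, 0, 0, 3, 0, 4, 4, 3, 0, 4, 4, 12, 3]) (.leaf 3 [0, 3, 0, 0, 0, 4, 0, 3, 0, 0, 0, 4, 0, 4, 0, 0, 3, 0, 4, 4, 3, 0, 4, 4, 12, 3]))) (.split 1 5 1 1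
(.split 3 5 1 2
(.leaf 3 [0, 3, 0, 0, 0, 4, 0, 3, 0, 0, 0, 0, 0, 4, 0, 0, 3, 0, 4, 4, 3, 0, 4, 4, 12, 3]) (.leaf 3 [0, 3, 0, 0, 0, 4, 0, 3, 0, 0, 0, 4, 0, 4, 0, 0, 3, 0, 4, 4, 3, 0, 4, 4, 12, 3])) (.leaf 6 [4, 4, 0, 0, 0, 0, 0, 0, 4, 0, 0, 0, 4, 0, 0, 4, 0, 0, 4, 0, 4, 4, 0, 4, 4, 4, 4, 3])))) (.leaf 7 [0, 4, 0, 0, 0, 0, 0, 0, 4, 0, 0, 4, 4, 0, 0, 4, 4, 4, 0, 0, 4, 4, 4, 4, 4, 4, 4, 4, 4])) (.leaf 7 [0, 4, 11, 4, 4, 4, 4, 4, 4, 1, 4, 4, 4, 4, 4, 4, 4, 4, 4, 4, 4, 4, 4, 4, 4, 4, 4, 4, 4])) (.leaf 3 [0, 4, 11, 4, 4, 4, 4, 4, 1, 4, 4, 4, 4, 4, 4, 4, 4, 4, 4, 4, 4, 4, 4, 4, 4, 4]))))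
  (by decide +kernel)

theorem p88 : Cov 6 fA kA [[0, 1, 1, 1, 1, 1, 1], [0, 0, 1, 1, 1, 1, 1], [0, 1, 1, 2, 2, 2, 3], [0, 1, 1, 1, 2, 2, 3], [0, 0, 0, 1, 1, 2, 2], [0, 1, 1, 1, 1, 1, 2]] :=
.of2 (.split 3 0 1 1
(.split 4 0 1 2
(.split 0 1 1 1
(.split 3 1 1 2
(.split 4 1 1 1
(.split 5 1 1 1
(.split 0 2 1 1
(.split 4 2 1 5
(.split 1 0 1 1
(.leaf 7 [0, 0, 11, 0, 0, 0, 0, 0, 0, 1, 0, 0, 0, 0, 0, 0, 13, 0, 0, 0, 3, 4, 0, 0, 0, 3, 0, 0, 3]) (.split 1 2 1 1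
(.leaf 7 [0, 0, 11, 0, 0, 0, 0, 0, 0, 1, 0, 0, 0, 0, 0, 0, 13, 0, 0, 0, 3, 4, 0, 0, 0, 3, 0, 0, 3]) (.split 1 4 6 1
(.leaf 7 [0, 0, 11, 0, 0, 0, 0, 0, 0, 1, 0, 0, 0, 0, 0, 0, 13, 0, 0, 0, 3, 4, 0, 0, 0, 3, 0, 0, 3]) (.leaf 6 [13, 0, 11, 11, 11, 11, 11, 11, 0, 1, 11, 0, 0, 11, 11, 11, 11, 11, 0, 11, 4, 0, 11, 1, 11, 0, 0, 3])))) (.split 4 5 2 5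
(.split 1 0 1 1
(.leaf 7 [0, 0, 11, 0, 0, 0, 0, 0, 0, 1, 0, 0, 0, 0, 0, 0, 13, 0, 0, 0, 3, 4, 0, 0, 0, 3, 0, 0, 3]) (.split 1 2 6 1
(.leaf 7 [0, 0, 11, 0, 0, 0, 0, 0, 0, 1, 0, 0, 0, 0, 0, 0, 13, 0, 0, 0, 3, 4, 0, 0, 0, 3, 0, 0, 3]) (.split 1 4 2 1
(.leaf 7 [0, 0, 11, 0, 0, 0, 0, 0, 0, 1, 0, 0, 0, 0, 0, 0, 13, 0, 0, 0, 1, 4, 0, 0, 0, 11, 0, 0, 3]) (.leaf 6 [13, 0, 11, 11, 11, 11, 11, 11, 0, 1, 11, 0, 0, 11, 11, 11, 11, 11, 0, 11, 4, 0, 11, 1, 11, 0, 0, 3])))) (.leaf 7 [0, 0, 11, 11, 11, 11, 11, 11, 0, 1, 11, 0, 0, 11, 11, 0, 4, 11, 11, 11, 3, 4, 0, 11, 11, 3, 11, 0, 3]))) (.leaf 7 [0, 0, 11, 11, 11, 11, 11, 11, 0, 1, 11, 0, 0, 11, 11, 0, 11, 11, 11, 11, 0, 4, 0, 11, 11, 3, 11,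 0, 3])) (.leaf 7 [0, 0, 11, 0, 0, 0, 0, 0, 0, 1, 0, 0, 0, 0, 0, 0, 0, 0, 0, 0, 3, 4, 0, 0, 0, 3, 0, 0, 3])) (.leaf 7 [0, 0, 11, 0, 0, 0, 0, 0, 0, 1, 0, 0, 0, 0, 0, 0, 0, 0, 0, 0, 3, 4, 0, 0, 0, 3, 0, 0, 3])) (.leaf 7 [0, 0, 11, 0, 0, 0, 0, 0, 0, 1, 0, 0, 0, 0, 0, 0, 0, 0, 0, 0, 3, 4, 0, 0, 0, 3, 0, 0, 3])) (.leaf 3 [0, 0, 11, 0, 0, 0, 0, 0, 1, 0, 0, 0, 0, 4, 0, 0, 0, 0, 4, 3, 0, 0, 0, 0, 0, 3])) (.leaf 6 [3, 3, 11, 1, 1, 1, 4, 1, 3, 1, 1, 4, 0, 1, 1, 4, 1, 4, 3, 4, 4, 4, 4, 3, 4, 4, 12, 3])) (.leaf 6 [3, 3, 11, 1, 1, 1, 4, 1, 3, 1, 1, 4, 0, 1, 1, 4, 1, 4, 3, 4, 4, 4, 4, 3, 4, 4, 12, 3]))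
  (by decide +kernel)

theorem p89 : Cov 6 fA kA [[0, 2, 2, 3, 3, 3, 4], [0, 0, 1, 1, 1, 1, 1], [0, 1, 1, 2, 2, 2, 3], [0, 1, 1, 2, 3, 3, 4], [0, 0, 0, 1, 1, 2, 2], [0, 1, 1, 1, 2, 2, 3]] :=
.of2 (.split 4 0 1 1
(.split 3 0 1 1
(.split 4 0 1 1
(.split 5 0 1 1
(.split 0 1 1 1
(.split 2 1 1 1
(.split 3 1 1 2
(.split 4 1 1 3
(.split 5 1 1 2
(.split 1 3 2 1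
(.split 0 1 1 1
(.split 3 1 1 1
(.split 4 1 1 1
(.split 5 1 1 1
(.leaf 6 [13, 0, 11, 0, 0, 0, 0, 0, 0, 1, 0, 0, 0, 0, 0, 0, 0, 0, 0, 0, 4, 0, 0, 1, 0, 0, 0, 3]) (.leaf 7 [0, 0, 11, 0, 0, 0, 0, 0, 0, 1, 0, 0, 0, 0, 0, 0, 13, 0, 0, 0, 3, 4, 0, 0, 0, 4, 0, 0, 3])) (.leaf 7 [0, 0, 11, 0, 0, 0, 0, 0, 0, 1, 0, 0, 0, 0, 0, 0, 13, 0, 0, 0, 3, 4, 0, 0, 0, 4, 0, 0, 3])) (.leaf 7 [0, 0, 11, 0, 0, 0, 0, 0, 0, 1, 0, 0, 0, 0, 0, 0, 13, 0, 0, 0, 3, 4, 0, 0, 0, 4, 0, 0, 3])) (.leaf 7 [0, 0, 11, 0, 0, 0, 0, 0, 0, 1, 0, 0, 0, 0, 0, 0, 13, 0, 0, 0, 3, 4, 0, 0, 0, 4, 0, 0, 3])) (.split 1 5 3 1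
(.split 0 1 2 1
(.split 4 1 2 1
(.split 5 1 2 1
(.leaf 6 [13, 0, 11, 0, 0, 0, 0, 0, 0, 1, 0, 0, 0, 0, 0, 0, 0, 0, 0, 0, 4, 0, 0, 1, 0, 0, 0, 3]) (.split 5 3 1 1
(.leaf 6 [13, 0, 11, 0, 0, 0, 0, 0, 0, 1, 0, 0, 0, 0, 0, 0, 0, 0, 0, 0, 4, 0, 0, 1, 0, 0, 0, 3]) (.leaf 7 [0, 0, 11, 0, 0, 0, 0, 0, 0, 1, 0, 0, 0, 0, 0, 0, 13, 0, 0, 0, 3, 4, 0, 0, 0, 4, 0, 0, 3]))) (.split 4 3 1 1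
(.split 5 3 1 1
(.leaf 6 [13, 0, 11, 0, 0, 0, 0, 0, 0, 1, 0, 0, 0, 0, 0, 0, 0, 0, 0, 0, 4, 0, 0, 1, 0, 0, 0, 3]) (.leaf 7 [0, 0, 11, 0, 0, 0, 0, 0, 0, 1, 0, 0, 0, 0, 0, 0, 13, 0, 0, 0, 3, 4, 0, 0, 0, 4, 0, 0, 3])) (.leaf 7 [0, 0, 11, 0, 0, 0, 0, 0, 0, 1, 0, 0, 0, 0, 0, 0, 13, 0, 0, 0, 3, 4, 0, 0, 0, 4, 0, 0, 3]))) (.split 0 3 1 1
(.split 4 3 1 1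
(.split 5 3 1 1
(.leaf 6 [13, 0, 11, 0, 0, 0, 0, 0, 0, 1, 0, 0, 0, 0, 0, 0, 0, 0, 0, 0, 4, 0, 0, 1, 0, 0, 0, 3]) (.leaf 7 [0, 0, 11, 0, 0, 0, 0, 0, 0, 1, 0, 0, 0, 0, 0, 0, 13, 0, 0, 0, 3, 4, 0, 0, 0, 4, 0, 0, 3])) (.leaf 7 [0, 0, 11, 0, 0, 0, 0, 0, 0, 1, 0, 0, 0, 0, 0, 0, 13, 0, 0, 0, 3, 4, 0, 0, 0, 4, 0, 0, 3])) (.leaf 7 [0, 0, 11, 0, 0, 0, 0, 0, 0, 1, 0, 0, 0, 0, 0, 0, 13, 0, 0, 0, 3, 4, 0, 0, 0, 4, 0, 0, 3]))) (.leaf 4 [1, 0, 4, 11, 11, 11, 11, 11, 11, 0, 1, 11, 11, 0, 0, 11, 11, 0, 11, 11, 0, 11, 0, 11, 4, 0, 11, 11, 11, 0, 1, 11, 0, 1]))) (.leaf 3 [0, 0, 0, 0, 0, 1, 0, 0, 1, 0, 0, 0, 0, 1, 0, 0, 0, 0, 4, 4, 3, 0, 0, 0, 0, 3])) (.leaf 3 [0, 0, 0, 0, 0, 1, 0, 0, 1, 0, 0, 0,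 0, 1, 0, 0, 0, 0, 4, 4, 3, 0, 0, 0, 0, 3])) (.leaf 3 [0, 0, 0, 0, 0, 0, 0, 0, 1, 0, 0, 0, 0, 0, 0, 0, 0, 0, 4, 4, 3, 0, 0, 0, 0, 3])) (.leaf 3 [0, 0, 0, 0, 0, 0, 0, 0, 1, 0, 0, 0, 0, 0, 0, 0, 0, 0, 4, 3, 3, 0, 0, 0, 0, 3])) (.leaf 3 [0, 0, 0, 0, 0, 0, 0, 0, 1, 0, 0, 0, 0, 0, 0, 0, 0, 0, 4, 3, 0, 0, 0, 0, 0, 3])) (.leaf 6 [3, 0, 11, 11, 11, 11, 11, 11, 0, 1, 11, 0, 0, 11, 11, 11, 11, 11, 0, 11, 4, 0, 11, 3, 11, 0, 0, 3])) (.leaf 6 [3, 3, 11, 11, 11, 11, 11, 11, 3, 1, 11, 0, 0, 11, 11, 11, 11, 11, 3, 11, 4, 0, 11, 3, 11, 0, 0, 3])) (.leaf 6 [3, 3, 11, 11, 11, 11, 11, 11, 3, 1, 11, 0, 0, 11, 11, 1, 11, 11, 3, 1, 4, 0, 11, 3, 11, 0, 0, 3])) (.leaf 1 [3, 4, 4, 1, 1, 1, 1, 1, 3, 1,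 1, 1, 4, 0, 1, 1, 4, 1, 4, 4, 3, 0, 4, 1, 4, 4, 4, 4, 3, 4, 4, 4, 4, 4, 4, 12, 3]))
  (by decide +kernel)

theorem p90 : Cov 6 fA kA [[0, 2, 2, 3, 3, 3, 4], [0, 0, 1, 1, 1, 1, 1], [0, 1, 1, 2, 3, 3, 4], [0, 0, 0, 0, 1, 1, 1], [0, 0, 0, 1, 1, 2, 2], [0, 1, 1, 1, 2, 2, 3]] :=
.of2 (.split 3 4 2 1
(.split 3 5 1 4
(.split 4 5 1 2
(.split 0 3 2 1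
(.leaf 6 [3, 3, 11, 11, 11, 11, 11, 11, 3, 1, 11, 0, 0, 11, 11, 4, 11, 11, 3, 4, 4, 0, 11, 3, 4, 0, 12, 3]) (.leaf 7 [0, 3, 11, 11, 11, 11, 11, 11, 3, 1, 11, 0, 0, 11, 11, 0, 4, 11, 11, 11, 3, 4, 0, 4, 4, 3, 4, 0, 3])) (.leaf 3 [0, 4, 11, 1, 1, 4, 4, 4, 1, 1, 4, 0, 1, 4, 4, 4, 4, 1, 4, 4, 4, 4, 4, 4, 12, 3])) (.leaf 3 [0, 4, 11, 1, 4, 4, 4, 4, 1, 4, 4, 4, 4, 4, 4, 4, 4, 4, 4, 4, 4, 4, 4, 4, 12, 3])) (.split 3 5 1 1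
(.split 4 5 1 4
(.split 0 1 1 1
(.split 2 1 1 1
(.split 3 1 1 1
(.split 4 1 1 5
(.split 5 1 1 1
(.split 1 0 1 1
(.split 4 0 1 1
(.split 2 0 1 1
(.split 3 0 1 2
(.split 4 0 1 3
(.leaf 7 [0, 0, 11, 0, 0, 0, 0, 0, 0, 1, 0, 0, 0, 0, 0, 0, 4, 0, 0, 0, 4, 4, 0, 0, 0, 3, 0, 0, 3]) (.leaf 6 [4, 4, 11, 0, 0, 0, 0, 0, 4, 1, 0, 0, 0, 0, 0, 0, 0, 0, 4, 0, 4, 0, 0, 4, 0, 0, 0, 3])) (.leaf 6 [4, 4, 11, 0, 0, 0, 0, 0, 4, 1, 0, 0, 0, 0, 0, 0, 0, 0, 4, 0, 4, 0, 0, 4, 0, 0, 4, 3])) (.leaf 6 [4, 4, 11, 0, 0, 0, 0, 0, 4, 1, 0, 0, 0, 0, 0, 0, 0, 0, 4, 0, 4, 0, 0, 4, 0, 0, 4, 3])) (.leaf 6 [4, 4, 11, 0, 0, 0, 0, 0, 4, 1, 0, 0, 0, 0, 0, 0, 0, 0, 4, 0, 4, 0, 0, 4, 0, 0, 4, 3])) (.leaf 6 [4, 4, 11, 11,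 11, 11, 11, 11, 4, 1, 11, 0, 0, 11, 11, 4, 11, 11, 4, 4, 4, 0, 11, 4, 4, 0, 4, 3])) (.leaf 3 [0, 3, 0, 0, 0, 4, 0, 3, 1, 0, 0, 0, 0, 4, 0, 0, 3, 0, 4, 4, 3, 0, 0, 0, 12, 3])) (.leaf 3 [0, 3, 0, 0, 0, 4, 0, 3, 1, 0, 0, 0, 0, 4, 0, 0, 3, 0, 4, 4, 3, 0, 0, 0, 12, 3])) (.leaf 3 [0, 3, 0, 0, 0, 4, 0, 3, 1, 0, 0, 0, 0, 4, 0, 0, 3, 0, 4, 4, 3, 0, 0, 0, 12, 3])) (.leaf 3 [0, 3, 0, 0, 0, 4, 0, 3, 1, 0, 0, 0, 0, 4, 0, 0, 3, 0, 4, 4, 3, 0, 0, 0, 12, 3])) (.leaf 3 [0, 3, 0, 0, 0, 0, 0, 3, 1, 0, 0, 0, 0, 0, 0, 0, 3, 0, 4, 4, 3, 0, 0, 0, 12, 3])) (.leaf 3 [0, 4, 11, 1, 4, 4, 4, 4, 1, 4, 4, 4, 4, 4, 4, 0, 4, 4, 4, 4, 4, 4, 4, 4, 12, 3])) (.leaf 3 [0, 4, 11, 1, 4, 4, 4, 4, 1, 4, 4, 4, 4, 4, 4,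 0, 4, 4, 4, 4, 4, 4, 4, 4, 12, 3])))
  (by decide +kernel)

theorem p91 : Cov 6 fA kA [[0, 1, 1, 1, 1, 1, 1], [0, 0, 1, 1, 1, 1, 1], [0, 2, 2, 3, 3, 3, 4], [0, 0, 0, 0, 1, 1, 1], [0, 0, 0, 1, 1, 2, 2], [0, 1, 1, 1, 2, 2, 3]] :=
.of2 (.split 0 4 2 1
(.split 3 4 2 1
(.split 0 5 1 4
(.split 3 5 1 4
(.split 4 5 1 2
(.split 2 3 2 1
(.leaf 6 [3, 3, 11, 11, 11, 11, 11, 11, 3, 11, 11, 0, 0, 11, 11, 4, 11, 11, 3, 11, 4, 0, 11, 3, 4, 0, 12, 3]) (.leaf 7 [0, 3, 11, 11, 11, 11, 11, 11, 3, 1, 11, 0, 0, 11, 11, 0, 4, 11, 11, 11, 3, 4, 0, 4, 4, 3, 4, 0, 3])) (.leaf 3 [0, 4, 11, 1, 1, 4, 4, 4, 1, 1, 4, 0, 1, 4, 4, 4, 4, 1, 4, 4, 4, 4, 4, 4, 12, 3])) (.leaf 3 [0, 4, 11, 1, 4, 4, 4, 4, 1, 4, 4,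 4, 4, 4, 4, 4, 4, 4, 4, 4, 4, 4, 4, 4, 12, 3])) (.leaf 3 [0, 4, 11, 1, 4, 4, 4, 4, 1, 4, 4, 4, 4, 4, 4, 4, 4, 4, 4, 4, 4, 4, 4, 4, 4, 3])) (.split 3 5 1 1
(.split 0 5 1 4
(.split 4 5 1 4
(.split 0 1 1 5
(.split 2 1 1 1
(.split 3 1 1 1
(.split 4 1 1 5
(.split 5 1 1 1
(.split 1 0 5 1
(.split 1 2 1 5
(.split 3 2 1 2
(.split 4 2 1 4
(.leaf 7 [0, 0, 11, 0, 0, 0, 0, 0, 0, 1, 0, 0, 0, 0, 0, 0, 4, 0, 0, 0, 4, 4, 0, 0, 0, 3, 0, 0, 3]) (.leaf 6 [4, 4, 11, 0, 0, 0, 0, 0, 4, 1, 0, 0, 0, 0, 0, 0, 0, 0, 4, 0, 4, 0, 0, 4, 0, 0, 4, 3])) (.leaf 6 [4, 4, 11, 0, 0, 0, 0, 0, 4, 1, 0, 0, 0, 0, 0, 0, 0, 0, 4, 0, 4, 0, 0, 4, 0, 0, 4, 3])) (.leaf 6 [4, 4, 11, 0, 0, 0, 0, 0, 4, 1, 0, 0, 0, 0, 0, 0, 0,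 0, 4, 0, 4, 0, 0, 4, 0, 0, 4, 3])) (.split 1 2 1 1
(.split 0 2 1 4
(.split 4 2 1 1
(.split 0 2 1 1
(.split 3 2 1 2
(.split 4 2 1 3
(.leaf 7 [0, 0, 11, 0, 0, 0, 0, 0, 0, 1, 0, 0, 0, 0, 0, 0, 4, 0, 0, 0, 4, 4, 0, 0, 0, 3, 0, 0, 3]) (.leaf 6 [4, 4, 11, 0, 0, 0, 0, 0, 4, 1, 0, 0, 0, 0, 0, 0, 0, 0, 4, 0, 4, 0, 0, 4, 0, 0, 0, 3])) (.leaf 6 [4, 4, 11, 0, 0, 0, 0, 0, 4, 1, 0, 0, 0, 0, 0, 0, 0, 0, 4, 0, 4, 0, 0, 4, 0, 0, 4, 3])) (.leaf 6 [4, 4, 11, 0, 0, 0, 0, 0, 4, 1, 0, 0, 0, 0, 0, 0, 0, 0, 4, 0, 4, 0, 0, 4, 0, 0, 4, 3])) (.leaf 6 [4, 4, 11, 0, 0, 0, 0, 0, 4, 1, 0, 0, 0, 0, 0, 0, 0, 0, 4, 0, 4, 0, 0, 4, 0, 0, 4, 3])) (.leaf 6 [4, 4, 11, 0, 0, 0, 0, 0, 4, 1, 0, 0, 0, 0, 0, 0, 0, 0, 4,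 0, 4, 0, 0, 4, 0, 0, 4, 3])) (.split 1 4 3 1
(.leaf 6 [4, 4, 11, 0, 0, 0, 0, 0, 4, 1, 0, 0, 0, 0, 0, 0, 0, 0, 4, 0, 4, 0, 0, 4, 0, 0, 4, 3]) (.split 1 5 1 1
(.leaf 6 [4, 4, 11, 0, 0, 0, 0, 0, 4, 1, 0, 0, 0, 0, 0, 0, 0, 0, 4, 0, 4, 0, 0, 4, 0, 0, 4, 3]) (.leaf 1 [4, 4, 4, 11, 11, 11, 11, 11, 4, 1, 11, 11, 0, 0, 11, 11, 0, 11, 11, 0, 4, 0, 4, 11, 0, 4, 0, 0, 4, 11, 11, 4, 0, 4, 0, 4, 4]))))) (.leaf 3 [0, 3, 0, 0, 0, 4, 0, 3, 1, 0, 0, 0, 0, 4, 0, 0, 3, 0, 4, 4, 3, 0, 0, 0, 12, 3])) (.leaf 3 [0, 3, 0, 0, 0, 4, 0, 3, 1, 0, 0, 0, 0, 4, 0, 0, 3, 0, 4, 4, 3, 0, 0, 0, 12, 3])) (.leaf 3 [0, 3, 0, 0, 0, 4, 0, 3, 1, 0, 0, 0, 0, 0, 0, 0, 3, 0, 4, 4, 3, 0, 0, 0, 12, 3])) (.leaf 3 [0, 3, 0,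 0, 0, 4, 0, 3, 1, 0, 0, 0, 0, 0, 0, 0, 3, 0, 4, 4, 3, 0, 0, 0, 12, 3])) (.leaf 3 [0, 3, 0, 0, 0, 4, 0, 3, 0, 0, 0, 0, 0, 0, 0, 0, 3, 0, 4, 4, 3, 0, 0, 0, 12, 3])) (.leaf 3 [0, 4, 11, 1, 4, 4, 4, 4, 1, 4, 4, 4, 4, 4, 4, 0, 4, 4, 4, 4, 4, 4, 4, 4, 12, 3])) (.leaf 3 [0, 4, 11, 1, 4, 4, 4, 4, 1, 4, 4, 4, 4, 4, 4, 0, 4, 4, 4, 4, 4, 4, 4, 4, 12, 3])) (.leaf 3 [0, 4, 11, 1, 4, 4, 4, 4, 1, 4, 4, 4, 4, 4, 4, 0, 4, 4, 4, 4, 4, 4, 4, 4, 12, 3]))) (.split 0 5 1 1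
(.split 3 5 1 1
(.split 4 5 1 4
(.split 2 3 1 1
(.leaf 6 [3, 3, 11, 11, 11, 11, 11, 11, 3, 11, 11, 0, 0, 11, 11, 4, 11, 11, 3, 11, 4, 0, 11, 3, 4, 0, 12, 3]) (.leaf 7 [0, 0, 11, 11, 11, 11, 11, 11, 0, 1, 11, 0, 0, 11, 11, 0, 4, 11, 11, 11, 3, 4, 0, 11, 11, 3, 11, 0, 3])) (.leaf 3 [0, 4, 11, 11, 11, 4, 11, 4, 1, 11, 0, 0, 11, 4, 11, 0, 4, 11, 4, 4, 4, 11, 4, 0, 12, 3])) (.leaf 3 [0, 4, 11, 11, 4, 4, 4, 4, 1, 4, 0, 4, 4, 4, 11, 0, 4, 4, 4, 4, 4, 11, 4, 4, 12, 3])) (.leaf 3 [0, 4, 11, 11, 4, 4, 4, 4, 1, 4, 0, 4, 4, 4, 11, 0, 4, 4, 4, 4, 4, 11, 4, 4, 4, 3])))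
  (by decide +kernel)

theorem p92 : Cov 6 fA kA [[0, 1, 1, 1, 1, 1, 1], [0, 0, 2, 3, 3, 4, 4], [0, 0, 0, 1, 1, 1, 1], [0, 0, 0, 0, 1, 1, 1], [0, 0, 0, 1, 1, 2, 2], [0, 1, 1, 2, 2, 2, 3]] :=
.of2 (.split 2 4 2 1
(.split 3 4 2 1
(.split 1 5 1 2
(.split 2 5 1 2
(.split 3 5 1 2
(.split 4 5 1 1
(.leaf 3 [0, 3, 0, 0, 0, 4, 0, 3, 1, 0, 1, 4, 0, 4, 0, 1, 3, 0, 4, 3, 3, 0, 0, 4, 4, 3]) (.leaf 3 [0, 4, 0, 0, 0, 4, 0, 4, 1, 0, 4, 4, 0, 4, 4, 4, 4, 0, 4, 3, 4, 4, 4, 4, 4, 3])) (.leaf 3 [0, 4, 0, 0, 0, 4, 0, 4, 1, 0, 4, 4, 0, 4, 4, 4, 4, 0, 4, 3, 4, 4, 4, 4, 4, 3])) (.leaf 2 [4, 0, 1, 1, 4, 4, 4, 4, 4, 1, 4, 4, 4, 4, 4, 4, 4, 4, 4, 4, 4, 4, 4, 4, 4, 4, 4, 4, 4, 4, 4, 4, 3])) (.leaf 3 [0,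 4, 11, 1, 4, 4, 4, 4, 1, 4, 4, 4, 4, 4, 4, 4, 4, 4, 4, 4, 4, 4, 4, 4, 4, 3])) (.split 3 5 2 1
(.split 1 5 1 2
(.split 2 5 1 2
(.split 4 5 1 2
(.leaf 3 [0, 3, 0, 0, 0, 4, 0, 3, 1, 0, 1, 4, 0, 4, 0, 1, 3, 0, 4, 3, 3, 0, 0, 4, 4, 3]) (.leaf 3 [0, 4, 0, 0, 0, 4, 0, 4, 1, 0, 4, 4, 0, 4, 0, 4, 4, 0, 4, 3, 4, 0, 4, 4, 4, 3])) (.leaf 2 [4, 0, 1, 1, 4, 4, 4, 4, 4, 1, 4, 4, 4, 4, 4, 4, 4, 4, 4, 4, 4, 4, 4, 4, 4, 4, 4, 4, 4, 4, 4, 4, 3])) (.leaf 3 [0, 4, 11, 1, 4, 4, 4, 4, 1, 4, 4, 4, 4, 4, 4, 4, 4, 4, 4, 4, 4, 4, 4, 4, 4, 3])) (.leaf 3 [0, 4, 11, 1, 4, 4, 4, 4, 1, 4, 4, 4, 4, 4, 4, 4, 4, 4, 4, 4, 4, 4, 4, 4, 4, 4]))) (.split 2 5 2 1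
(.split 3 5 2 1
(.split 1 5 1 2
(.split 4 5 1 2
(.leaf 0 [0, 3, 0, 0, 1, 0, 0, 0, 3, 1, 1, 1, 4, 1, 1, 1, 1, 3, 4, 1, 0, 4, 4, 1, 4, 3, 1, 4, 4, 0, 4, 4, 3]) (.leaf 1 [4, 0, 0, 1, 1, 1, 1, 1, 4, 1, 1, 1, 4, 4, 1, 1, 4, 1, 4, 4, 4, 4, 4, 1, 4, 4, 4, 4, 4, 1, 4, 4, 4, 4, 4, 4, 3])) (.leaf 1 [4, 4, 1, 1, 1, 1, 1, 1, 4, 1, 1, 1, 4, 4, 1, 1, 4, 1, 4, 4, 4, 4, 4, 1, 4, 4, 4, 4, 4, 4, 4, 4, 4, 4, 4, 4, 3])) (.leaf 1 [4, 4, 4, 1, 1, 4, 4, 4, 4, 1, 1, 4, 4, 4, 4, 4, 4, 4, 4, 4, 4, 4, 4, 4, 4, 4, 4, 4, 4, 4, 4, 4, 4, 4, 4, 4, 4])) (.leaf 1 [4, 4, 4, 1, 1, 4, 4, 4, 4, 1, 1, 4, 4, 4, 4, 4, 4, 4, 4, 4, 4, 4, 4, 4, 4, 4, 4, 4, 4, 4, 4, 4, 4, 4, 4, 4, 4])))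
  (by decide +kernel)

theorem p93 : Cov 6 fA kA [[0, 10, 20, 26, 28, 28, 34], [0, 1, 3, 4, 4, 4, 5], [0, 6, 12, 22, 24, 24, 30], [0, 1, 1, 2, 4, 4, 5], [0, 2, 4, 7, 7, 8, 10], [0, 1, 1, 2, 2, 2, 3]] :=
.of2 (.split 3 1 1 1
(.split 4 0 2 1
(.split 5 0 4 1
(.split 1 5 4 1
(.split 0 2 1 1
(.split 1 2 1 1
(.split 4 2 2 1
(.leaf 8 [0, 4, 0, 0, 0, 0, 1, 4, 1, 1, 1, 0, 1, 0, 1, 0, 0, 0, 4, 1, 1, 14, 4, 0, 0, 0, 0, 4, 0, 0, 0, 3]) (.leaf 7 [0, 4, 0, 0, 0, 0, 0, 0, 4, 1, 0, 0, 0, 0, 0, 0, 3, 0, 0, 0, 14, 4, 0, 1, 0, 4, 0, 0, 3])) (.leaf 7 [0, 4, 11, 0, 0, 0, 0, 0, 4, 1, 0, 0, 0, 0, 0, 0, 13, 0, 0, 0, 14, 4, 0, 1, 0, 4, 0, 0, 3])) (.leaf 7 [0, 4, 11, 0, 0, 0, 0, 0, 4, 1, 0, 0, 0, 0, 0,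 0, 13, 0, 0, 0, 14, 4, 0, 1, 0, 4, 0, 0, 3])) (.split 0 2 1 1
(.split 4 2 2 1
(.split 5 2 1 1
(.leaf 4 [14, 4, 1, 0, 0, 1, 0, 0, 0, 4, 1, 1, 1, 0, 1, 0, 1, 0, 0, 0, 0, 1, 4, 0, 4, 0, 0, 0, 0, 0, 4, 0, 0, 3]) (.leaf 9 [13, 4, 11, 0, 0, 0, 1, 4, 1, 11, 0, 0, 0, 0, 0, 0, 0, 0, 4, 0, 0, 0, 14, 4, 0, 0, 0, 0, 4, 0, 0, 3])) (.leaf 9 [13, 4, 11, 0, 0, 0, 1, 4, 1, 11, 0, 0, 0, 0, 0, 0, 0, 0, 4, 0, 0, 0, 14, 4, 0, 0, 0, 0, 4, 0, 0, 3])) (.leaf 9 [13, 4, 11, 0, 0, 0, 1, 4, 1, 11, 0, 0, 0, 0, 0, 0, 0, 0, 4, 0, 0, 0, 14, 4, 0, 0, 0, 0, 4, 0, 0, 3]))) (.split 5 1 1 1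
(.split 1 0 4 1
(.split 2 1 1 1
(.leaf 7 [0, 4, 11, 0, 0, 0, 0, 0, 4, 1, 0, 0, 0, 0, 0, 0, 13, 0, 0, 0, 14, 4, 0, 1, 0, 4, 0, 0, 3]) (.split 2 4 1 2
(.leaf 7 [0, 4, 0, 0, 0, 0, 0, 0, 4, 1, 0, 0, 0, 0, 0, 0, 3, 0, 0, 0, 14, 4, 0, 1, 0, 4, 0, 0, 3]) (.leaf 8 [0, 4, 0, 0, 0, 0, 1, 4, 1, 1, 1, 0, 1, 0, 1, 0, 0, 0, 4, 1, 1, 14, 4, 0, 0, 0, 0, 4, 0, 0, 0, 3]))) (.split 2 0 1 1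
(.leaf 9 [13, 4, 11, 0, 0, 0, 1, 4, 1, 11, 0, 0, 0, 0, 0, 0, 0, 0, 4, 0, 0, 0, 14, 4, 0, 0, 0, 0, 4, 0, 0, 3]) (.split 2 4 1 2
(.leaf 9 [3, 4, 11, 0, 0, 0, 1, 4, 1, 11, 0, 0, 0, 0, 0, 0, 0, 0, 4, 0, 0, 0, 14, 4, 0, 0, 0, 0, 4, 0, 0, 3]) (.leaf 4 [14, 4, 1, 0, 0, 1, 0, 0, 0, 4, 1, 1, 1, 0, 1, 0, 1, 0, 0, 0, 0, 1, 4, 0, 4, 0, 0, 0, 0, 0, 4, 0, 0, 3])))) (.leaf 8 [0, 3, 0, 0, 0, 0, 1, 3, 1, 1, 1, 0, 1, 0, 1, 0, 0, 0, 3, 1, 1, 3, 4, 0, 0, 0, 0, 3, 0, 0, 0, 3]))) (.leaf 4 [3, 3, 1, 0, 0, 1, 0, 0, 0, 3, 1, 1, 1, 0, 1, 0, 1, 0, 0, 0, 0, 1, 3, 0, 4, 0, 0, 0, 0, 0, 3, 0, 0, 3])) (.split 3 4 4 1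
(.split 3 0 4 1
(.split 4 0 4 1
(.split 3 0 1 4
(.split 5 0 4 1
(.split 2 0 1 1
(.leaf 7 [0, 4, 11, 0, 0, 0, 0, 0, 4, 1, 0, 0, 0, 0, 0, 0, 13, 0, 0, 0, 14, 4, 0, 1, 0, 4, 0, 0, 3]) (.leaf 8 [0, 4, 0, 0, 0, 0, 1, 4, 1, 1, 1, 0, 1, 0, 1, 0, 0, 0, 4, 1, 1, 14, 4, 0, 0, 0, 0, 4, 0, 0, 0, 3])) (.leaf 3 [0, 3, 0, 1, 0, 4, 0, 3, 1, 1, 0, 1, 1, 4, 0, 0, 3, 1, 4, 3, 3, 0, 0, 0, 0, 3])) (.leaf 3 [0, 3, 0, 1, 0, 4, 0, 3, 1, 1, 0, 4, 1, 4, 0, 0, 3, 1, 4, 3, 3, 0, 0, 0, 0, 3])) (.leaf 3 [0, 3, 0, 1, 0, 4, 0, 3, 1, 1, 0, 4, 1, 4, 0, 0, 3, 1, 4, 3, 3, 0, 0, 0, 0, 3])) (.leaf 3 [0, 3, 0, 1, 0, 4, 0, 3, 1, 1, 0, 4, 1, 4, 0, 0, 3, 1, 4, 3, 3, 0, 0, 4, 4, 3])) (.split 3 5 1 1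
(.split 3 0 2 1
(.split 4 0 4 5
(.split 5 0 4 1
(.split 2 0 1 1
(.leaf 7 [0, 4, 11, 0, 0, 0, 0, 0, 4, 1, 0, 0, 0, 0, 0, 0, 13, 0, 0, 0, 14, 4, 0, 1, 0, 4, 0, 0, 3]) (.leaf 8 [0, 4, 0, 0, 0, 0, 1, 4, 1, 1, 1, 0, 1, 0, 1, 0, 0, 0, 4, 1, 1, 14, 4, 0, 0, 0, 0, 4, 0, 0, 0, 3])) (.leaf 3 [0, 3, 0, 1, 0, 4, 0, 3, 1, 1, 0, 1, 1, 4, 0, 0, 3, 1, 4, 3, 3, 0, 0, 0, 0, 3])) (.leaf 3 [0, 3, 0, 1, 0, 4, 0, 3, 1, 1, 0, 4, 1, 4, 0, 0, 3, 1, 4, 3, 3, 0, 0, 4, 4, 3])) (.leaf 3 [0, 3, 0, 1, 0, 4, 0, 3, 1, 1, 0, 4, 1, 4, 0, 0, 3, 1, 4, 3, 3, 0, 0, 4, 4, 3])) (.leaf 3 [0, 4, 11, 1, 0, 4, 0, 4, 1, 1, 0, 4, 1, 4, 0, 0, 4, 1, 4, 4, 4, 0, 0, 4, 4, 3]))))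
  (by decide +kernel)

theorem p94 : Cov 6 fA kA [[0, 10, 20, 26, 28, 28, 34], [0, 6, 12, 22, 24, 24, 30], [0, 3, 3, 10, 12, 12, 15], [0, 1, 1, 2, 4, 4, 5], [0, 2, 4, 7, 7, 8, 10], [0, 1, 1, 2, 2, 2, 3]] :=
.of2 (.split 2 4 4 3
(.split 3 4 4 1
(.split 2 0 4 3
(.split 3 0 4 1
(.split 4 0 4 1
(.split 2 0 1 12
(.split 3 0 1 4
(.split 5 0 4 1
(.split 2 5 1 12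
(.split 3 5 1 4
(.split 1 0 1 1
(.split 2 0 1 16
(.leaf 7 [0, 1, 11, 0, 0, 0, 0, 0, 1, 1, 0, 0, 0, 0, 0, 0, 13, 0, 0, 0, 14, 4, 0, 1, 0, 4, 0, 0, 3]) (.leaf 8 [0, 1, 0, 0, 0, 0, 1, 1, 1, 0, 0, 0, 0, 0, 0, 0, 0, 0, 1, 0, 0, 14, 4, 0, 0, 0, 0, 4, 0, 0, 0, 3])) (.leaf 8 [0, 1, 0, 0, 0, 0, 1, 1, 1, 1, 1, 0, 1, 0, 1, 0, 0, 0, 1, 1, 1, 14, 4, 0, 0, 0, 0, 4, 0, 0, 0, 3])) (.leaf 3 [0, 4, 11, 1, 0, 4, 0, 4, 1, 1, 0, 1, 1, 4, 0, 0, 4, 1, 4, 4, 4, 0, 0, 0, 0, 4])) (.leaf 3 [0, 4, 11, 1, 0, 4, 0, 4, 1, 1, 0, 1, 1, 4, 0, 0, 4, 1, 4, 4, 4, 0, 0, 0, 0, 4])) (.leaf 3 [0, 3, 0, 1, 0, 4, 0, 3, 1, 1, 0, 1, 1, 4, 0, 0, 3, 1, 4, 3, 3, 0, 0, 0, 0, 3])) (.leaf 3 [0, 3, 0, 1, 0, 4, 0, 3, 1, 1, 0, 4,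 1, 4, 0, 0, 3, 1, 4, 3, 3, 0, 0, 0, 0, 3])) (.leaf 3 [0, 3, 0, 1, 0, 4, 0, 3, 1, 1, 0, 4, 1, 4, 0, 0, 3, 1, 4, 3, 3, 0, 0, 0, 0, 3])) (.leaf 3 [0, 3, 0, 1, 0, 4, 0, 3, 1, 1, 0, 4, 1, 4, 0, 0, 3, 1, 4, 3, 3, 0, 0, 0, 0, 3])) (.leaf 3 [0, 3, 0, 1, 0, 4, 0, 3, 1, 1, 0, 4, 1, 4, 0, 0, 3, 1, 4, 3, 3, 0, 0, 4, 4, 3])) (.leaf 3 [0, 3, 0, 1, 0, 4, 0, 3, 1, 1, 0, 4, 1, 4, 0, 1, 3, 1, 4, 3, 3, 0, 0, 4, 4, 3])) (.split 3 5 1 1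
(.split 2 0 4 15
(.split 3 0 2 1
(.split 4 0 4 5
(.split 5 0 4 1
(.split 2 5 1 12
(.split 4 5 1 4
(.split 1 0 1 1
(.split 2 0 1 16
(.leaf 7 [0, 1, 11, 0, 0, 0, 0, 0, 1, 1, 0, 0, 0, 0, 0, 0, 13, 0, 0, 0, 14, 4, 0, 1, 0, 4, 0, 0, 3]) (.leaf 8 [0, 1, 0, 0, 0, 0, 1, 1, 1, 0, 0, 0, 0, 0, 0, 0, 0, 0, 1, 0, 0, 14, 4, 0, 0, 0, 0, 4, 0, 0, 0, 3])) (.leaf 8 [0, 1, 0, 0, 0, 0, 1, 1, 1, 1, 1, 0, 1, 0, 1, 0, 0, 0, 1, 1, 1, 14, 4, 0, 0, 0, 0, 4, 0, 0, 0, 3])) (.leaf 3 [0, 4, 11, 1, 0, 4, 0, 4, 1, 1, 0, 1, 1, 4, 0, 0, 4, 1, 4, 4, 4, 0, 0, 0, 0, 4])) (.leaf 3 [0, 4, 11, 1, 0, 4, 0, 4, 1, 1, 0, 1, 1, 4, 0, 0, 4, 1, 4, 4, 4, 0, 0, 0, 0, 4])) (.leaf 3 [0, 3, 0, 1, 0, 4, 0, 3, 1, 1, 0, 1, 1, 4, 0,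 0, 3, 1, 4, 3, 3, 0, 0, 0, 0, 3])) (.leaf 3 [0, 3, 0, 1, 0, 4, 0, 3, 1, 1, 0, 4, 1, 4, 0, 0, 3, 1, 4, 3, 3, 0, 0, 4, 4, 3])) (.leaf 3 [0, 3, 0, 1, 0, 4, 0, 3, 1, 1, 0, 4, 1, 4, 0, 0, 3, 1, 4, 3, 3, 0, 0, 4, 4, 3])) (.leaf 3 [0, 3, 0, 1, 0, 4, 0, 3, 1, 1, 0, 4, 1, 4, 0, 1, 3, 1, 4, 3, 3, 0, 0, 4, 4, 3])) (.leaf 3 [0, 4, 11, 1, 0, 4, 0, 4, 1, 1, 0, 4, 1, 4, 0, 1, 4, 1, 4, 3, 4, 0, 0, 4, 4, 3]))) (.split 2 5 1 3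
(.split 3 5 1 1
(.split 2 0 2 3
(.split 3 0 2 1
(.split 4 0 4 15
(.split 5 0 4 1
(.split 4 5 1 12
(.split 1 0 1 1
(.split 2 0 1 2
(.split 4 0 1 16
(.leaf 7 [0, 1, 11, 0, 0, 0, 0, 0, 1, 1, 0, 0, 0, 0, 0, 0, 13, 0, 0, 0, 14, 4, 0, 1, 0, 4, 0, 0, 3]) (.leaf 8 [0, 1, 0, 0, 0, 0, 1, 1, 1, 0, 0, 0, 0, 0, 0, 0, 0, 0, 1, 0, 0, 14, 4, 0, 0, 0, 0, 4, 0, 0, 0, 3])) (.leaf 8 [0, 1, 0, 0, 0, 0, 1, 1, 1, 0, 0, 0, 0, 0, 0, 0, 0, 0, 1, 0, 0, 14, 4, 0, 0, 0, 0, 4, 0, 0, 0, 3])) (.leaf 8 [0, 1, 0, 0, 0, 0, 1, 1, 1, 1, 1, 0, 1, 0, 1, 0, 0, 0, 1, 1, 1, 14, 4, 0, 0, 0, 0, 4, 0, 0, 0, 3])) (.leaf 3 [0, 1, 11, 1, 0, 1, 0, 1, 1, 1, 0, 1, 1, 1, 0, 0, 1, 1, 4, 1, 4, 0, 0, 0, 0, 4])) (.leaf 3 [0, 1, 0,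 1, 0, 1, 0, 1, 1, 1, 0, 1, 1, 1, 0, 0, 1, 1, 4, 1, 3, 0, 0, 0, 0, 3])) (.leaf 3 [0, 1, 0, 1, 0, 1, 0, 1, 1, 1, 0, 1, 1, 4, 0, 1, 1, 1, 4, 3, 3, 0, 0, 1, 0, 3])) (.leaf 3 [0, 3, 0, 1, 0, 4, 0, 3, 1, 1, 0, 4, 1, 4, 0, 1, 3, 1, 4, 3, 3, 0, 0, 4, 0, 3])) (.leaf 3 [0, 3, 0, 1, 0, 4, 0, 3, 1, 1, 0, 4, 1, 4, 0, 1, 3, 1, 4, 3, 3, 0, 0, 4, 0, 3])) (.leaf 3 [0, 4, 11, 1, 0, 4, 0, 4, 1, 1, 0, 4, 1, 4, 0, 1, 4, 1, 4, 3, 4, 0, 0, 4, 4, 3])) (.leaf 0 [0, 4, 4, 0, 1, 0, 0, 0, 4, 1, 1, 1, 4, 1, 1, 0, 1, 4, 4, 1, 0, 4, 4, 1, 4, 4, 0, 4, 4, 0, 4, 4, 3])))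
  (by decide +kernel)

theorem p95 : Cov 6 fA kA [[0, 30, 40, 59, 67, 72, 86], [0, 10, 20, 26, 28, 28, 34], [0, 18, 24, 61, 69, 72, 90], [0, 1, 1, 2, 4, 4, 5], [0, 2, 4, 7, 7, 8, 10], [0, 1, 1, 2, 2, 2, 3]] :=
.of2 (.split 3 4 4 1
(.split 0 5 1 20
(.split 2 5 1 12
(.split 3 5 1 4
(.split 0 2 13 5
(.split 3 2 13 1
(.split 4 2 13 1
(.split 0 1 1 128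
(.split 2 1 4 27
(.split 3 1 1 36
(.split 4 1 1 10
(.split 5 1 4 1
(.split 0 1 1 20
(.split 2 1 1 16
(.split 3 1 1 4
(.split 4 1 1 4
(.leaf 7 [0, 1, 11, 0, 0, 0, 0, 0, 1, 1, 0, 0, 0, 0, 0, 0, 13, 0, 0, 0, 14, 4, 0, 0, 0, 4, 0, 0, 3]) (.leaf 8 [0, 1, 0, 0, 0, 0, 1, 1, 1, 0, 0, 0, 0, 0, 0, 0, 0, 0, 1, 0, 0, 14, 4, 0, 0, 0, 0, 1, 0, 0, 0, 3])) (.leaf 8 [0, 1, 0, 0, 0, 0, 1, 1, 1, 0, 0, 0, 0, 0, 0, 0, 0, 0, 1, 0, 0, 14, 4, 0, 0, 0, 0, 4, 0, 0, 0, 3])) (.leaf 8 [0, 1, 0, 0, 0, 0, 1, 1, 1, 0, 0, 0, 0, 0, 0, 0, 0, 0, 1, 0, 0, 14, 4, 0, 0, 0, 0, 4, 0, 0, 0, 3])) (.leaf 8 [0, 1, 0, 0, 0, 0, 1, 1, 1, 0, 0, 0, 0, 0, 0, 0, 0, 0, 1, 0, 0, 3, 4, 0, 0, 0, 0, 4, 0, 0, 0, 3])) (.leaf 3 [0, 1,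 0, 0, 0, 1, 0, 1, 1, 0, 0, 0, 0, 1, 0, 0, 1, 0, 4, 1, 3, 0, 0, 0, 0, 3])) (.leaf 3 [0, 1, 0, 0, 0, 1, 0, 1, 1, 0, 0, 0, 0, 4, 0, 0, 1, 0, 4, 3, 3, 0, 0, 0, 0, 3])) (.leaf 3 [0, 3, 0, 0, 0, 4, 0, 3, 1, 0, 0, 0, 0, 4, 0, 0, 3, 0, 4, 3, 3, 0, 0, 0, 0, 3])) (.leaf 3 [0, 3, 0, 0, 0, 4, 0, 3, 1, 0, 0, 4, 0, 4, 0, 0, 3, 0, 4, 3, 3, 0, 0, 0, 0, 3])) (.leaf 3 [0, 3, 0, 0, 0, 4, 0, 3, 1, 0, 0, 4, 0, 4, 0, 0, 3, 0, 4, 3, 3, 0, 0, 0, 0, 3])) (.leaf 7 [0, 3, 11, 0, 0, 0, 0, 0, 3, 1, 0, 0, 0, 0, 0, 0, 13, 0, 0, 0, 3, 4, 0, 1, 0, 3, 0, 0, 3])) (.leaf 7 [0, 3, 11, 0, 0, 0, 0, 0, 3, 1, 0, 0, 0, 0, 0, 0, 13, 0, 0, 0, 3, 4, 0, 1, 0, 3, 0, 0, 3])) (.leaf 7 [0, 3, 11, 0, 0, 0, 0, 0, 3, 1, 0, 0, 0,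 0, 0, 0, 13, 0, 0, 0, 3, 4, 0, 1, 0, 3, 0, 0, 3])) (.leaf 3 [0, 4, 11, 0, 0, 4, 0, 4, 1, 0, 0, 4, 0, 4, 0, 0, 4, 0, 4, 3, 4, 0, 0, 4, 4, 3])) (.leaf 3 [0, 4, 11, 0, 0, 4, 0, 4, 1, 1, 0, 4, 1, 4, 0, 1, 4, 1, 4, 3, 4, 0, 0, 4, 4, 3])) (.leaf 3 [0, 4, 11, 0, 0, 4, 0, 4, 1, 1, 0, 4, 1, 4, 0, 1, 4, 1, 4, 3, 4, 0, 0, 4, 4, 3])) (.split 3 5 1 1
(.split 0 5 1 20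
(.split 2 5 1 12
(.split 4 5 1 4
(.split 0 1 4 29
(.split 2 1 4 27
(.split 3 1 2 1
(.split 4 1 4 9
(.split 5 1 4 1
(.split 1 2 16 1
(.leaf 8 [0, 1, 0, 0, 0, 0, 0, 1, 1, 0, 0, 0, 0, 0, 0, 0, 0, 0, 1, 0, 0, 14, 4, 0, 0, 0, 0, 4, 0, 0, 0, 3]) (.leaf 7 [0, 1, 11, 0, 0, 0, 0, 0, 1, 1, 0, 0, 0, 0, 0, 0, 13, 0, 0, 0, 14, 4, 0, 0, 0, 4, 0, 0, 3])) (.leaf 3 [0, 1, 0, 0, 0, 1, 0, 1, 1, 0, 0, 0, 0, 1, 0, 0, 1, 0, 4, 1, 3, 0, 0, 0, 0, 3])) (.leaf 3 [0, 3, 0, 0, 0, 4, 0, 3, 1, 0, 0, 0, 0, 4, 0, 0, 3, 0, 4, 3, 3, 0, 0, 0, 0, 3])) (.leaf 3 [0, 3, 0, 0, 0, 4, 0, 3, 1, 0, 0, 0, 0, 4, 0, 0, 3, 0, 4, 3, 3, 0, 0, 0, 0, 3])) (.leaf 3 [0, 3, 0, 0, 0, 4, 0, 3, 1, 0, 0, 4, 0, 4, 0, 0, 3, 0, 4, 3, 3,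 0, 0, 0, 0, 3])) (.leaf 3 [0, 3, 0, 0, 0, 4, 0, 3, 1, 0, 0, 4, 0, 4, 0, 0, 3, 0, 4, 3, 3, 0, 0, 0, 0, 3])) (.leaf 3 [0, 4, 11, 0, 0, 4, 0, 4, 1, 0, 0, 4, 0, 4, 0, 0, 4, 0, 4, 3, 4, 0, 0, 4, 4, 3])) (.leaf 3 [0, 4, 11, 0, 0, 4, 0, 4, 1, 1, 0, 4, 1, 4, 0, 1, 4, 1, 4, 3, 4, 0, 0, 4, 4, 3])) (.leaf 3 [0, 4, 11, 0, 0, 4, 0, 4, 1, 1, 0, 4, 1, 4, 0, 1, 4, 1, 4, 3, 4, 0, 0, 4, 4, 3])) (.leaf 3 [0, 4, 11, 0, 0, 4, 0, 4, 1, 1, 0, 4, 1, 4, 0, 1, 4, 1, 4, 3, 4, 0, 0, 4, 4, 3])))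
  (by decide +kernel)

theorem p96 : Cov 6 fA kA [[0, 30, 40, 59, 67, 72, 86], [0, 10, 20, 26, 28, 28, 34], [0, 3, 3, 10, 12, 12, 15], [0, 1, 1, 2, 4, 4, 5], [0, 18, 24, 61, 69, 72, 90], [0, 1, 1, 2, 2, 2, 3]] :=
.of2 (.split 2 5 1 3
(.split 3 5 1 1
(.split 0 5 1 20
(.split 4 5 1 12
(.split 0 1 4 29
(.split 2 1 2 3
(.split 3 1 2 1
(.split 4 1 4 27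
(.split 5 1 4 1
(.split 2 1 1 2
(.split 4 1 1 16
(.leaf 7 [0, 1, 11, 0, 0, 0, 0, 0, 1, 1, 0, 0, 0, 0, 0, 0, 13, 0, 0, 0, 14, 4, 0, 0, 0, 4, 0, 0, 3]) (.leaf 8 [0, 1, 0, 0, 0, 0, 0, 1, 1, 0, 0, 0, 0, 0, 0, 0, 0, 0, 1, 0, 0, 14, 4, 0, 0, 0, 0, 4, 0, 0, 0, 3])) (.leaf 8 [0, 1, 0, 0, 0, 0, 0, 1, 1, 0, 0, 0, 0, 0, 0, 0, 0, 0, 1, 0, 0, 14, 4, 0, 0, 0, 0, 4, 0, 0, 0, 3])) (.leaf 3 [0, 1, 0, 0, 0, 1, 0, 1, 1, 0, 0, 0, 0, 1, 0, 0, 1, 0, 4, 1, 3, 0, 0, 0, 0, 3])) (.leaf 3 [0, 1, 0, 0, 0, 1, 0, 1, 1, 0, 0, 1, 0, 1, 0, 0, 1, 0, 4, 3, 3, 0, 0, 0, 0, 3])) (.leaf 3 [0, 3, 0, 0, 0, 4, 0, 3, 1, 0, 0, 4, 0, 4, 0, 0, 3, 0, 4, 3, 3, 0, 0, 0, 0, 3])) (.leaf 3 [0, 3, 0, 0, 0, 4, 0, 3, 1, 0, 0, 4, 0,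 4, 0, 0, 3, 0, 4, 3, 3, 0, 0, 0, 0, 3])) (.leaf 3 [0, 3, 0, 0, 0, 4, 0, 3, 1, 0, 0, 4, 0, 4, 0, 0, 3, 0, 4, 3, 3, 0, 0, 0, 0, 3])) (.leaf 3 [0, 4, 11, 0, 0, 4, 0, 4, 1, 1, 0, 4, 1, 4, 0, 1, 4, 1, 4, 3, 4, 0, 0, 4, 0, 3])) (.leaf 3 [0, 4, 11, 0, 0, 4, 0, 4, 1, 1, 0, 4, 1, 4, 0, 1, 4, 1, 4, 3, 4, 0, 0, 4, 0, 3])) (.leaf 3 [0, 4, 11, 0, 0, 4, 0, 4, 1, 1, 0, 4, 1, 4, 0, 1, 4, 1, 4, 3, 4, 0, 0, 4, 4, 3])) (.leaf 0 [0, 4, 4, 0, 0, 0, 0, 0, 4, 1, 1, 1, 4, 1, 1, 0, 1, 4, 4, 1, 0, 4, 4, 1, 4, 4, 0, 4, 4, 0, 4, 4, 3]))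
  (by decide +kernel)

theorem p97 : Cov 6 fA kA [[0, 5, 5, 6, 8, 8, 9], [0, 10, 20, 26, 28, 28, 34], [0, 3, 3, 10, 12, 12, 15], [0, 1, 1, 2, 4, 4, 5], [0, 30, 40, 59, 67, 72, 86], [0, 1, 1, 2, 2, 2, 3]] :=
.of2 (.split 0 5 1 5
(.split 2 5 1 3
(.split 3 5 1 1
(.split 0 1 2 3
(.split 2 1 2 3
(.split 3 1 2 1
(.split 4 1 4 9
(.split 5 1 4 1
(.split 4 5 1 20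
(.split 1 2 2 1
(.leaf 8 [0, 1, 0, 0, 0, 0, 0, 1, 1, 0, 0, 0, 0, 0, 0, 0, 0, 0, 1, 0, 0, 14, 4, 0, 0, 0, 0, 4, 0, 0, 0, 3]) (.leaf 7 [0, 1, 11, 0, 0, 0, 0, 0, 1, 1, 0, 0, 0, 0, 0, 0, 13, 0, 0, 0, 14, 4, 0, 0, 0, 4, 0, 0, 3])) (.leaf 3 [0, 1, 11, 0, 0, 1, 0, 1, 1, 0, 0, 0, 0, 1, 0, 0, 1, 0, 4, 1, 4, 0, 0, 0, 0, 4])) (.leaf 3 [0, 1, 0, 0, 0, 1, 0, 1, 1, 0, 0, 0, 0, 1, 0, 0, 1, 0, 4, 1, 3, 0, 0, 0, 0, 3])) (.leaf 3 [0, 1, 0, 0, 0, 1, 0, 1, 1, 0, 0, 0, 0, 4, 0, 0, 1, 0, 4, 3, 3, 0, 0, 0, 0, 3])) (.leaf 3 [0, 3, 0, 0, 0, 4, 0, 3, 1, 0, 0, 0, 0, 4, 0, 0, 3, 0, 4, 3, 3, 0, 0, 0, 0, 3])) (.leaf 3 [0, 3, 0, 0, 0, 4, 0, 3, 1, 0, 0, 4, 0, 4, 0, 0, 3, 0, 4, 3, 3, 0, 0, 0, 0, 3])) (.leaf 3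 [0, 3, 0, 0, 0, 0, 0, 3, 1, 0, 0, 4, 0, 4, 0, 0, 3, 0, 4, 3, 3, 0, 0, 0, 0, 3])) (.leaf 3 [0, 4, 11, 0, 0, 4, 0, 4, 1, 0, 0, 4, 0, 4, 0, 0, 4, 0, 4, 3, 4, 0, 0, 4, 4, 3])) (.leaf 0 [0, 4, 4, 0, 0, 0, 0, 0, 4, 1, 1, 1, 4, 1, 1, 0, 1, 4, 4, 1, 0, 4, 4, 1, 4, 4, 0, 4, 4, 0, 4, 4, 3])) (.leaf 0 [0, 4, 4, 0, 0, 0, 0, 0, 4, 1, 1, 1, 4, 1, 1, 0, 1, 4, 4, 1, 0, 4, 4, 1, 4, 4, 0, 4, 4, 0, 4, 4, 3]))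
  (by decide +kernel)

theorem p98 : Cov 6 fA kA [[0, 10, 20, 26, 28, 28, 34], [0, 1, 3, 4, 4, 4, 5], [0, 26, 52, 86, 88, 92, 114], [0, 6, 12, 22, 24, 24, 30], [0, 18, 36, 54, 56, 60, 74], [0, 14, 24, 34, 36, 36, 46]] :=
.of2 (.split 1 4 8 1
(.split 5 1 2 1
(.split 2 0 1 2
(.split 3 0 1 1
(.leaf 9 [13, 1, 11, 0, 0, 0, 1, 1, 1, 11, 0, 0, 0, 0, 0, 0, 0, 0, 1, 0, 0, 0, 14, 4, 0, 0, 0, 0, 1, 0, 0, 3]) (.split 3 5 2 1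
(.leaf 9 [3, 1, 11, 0, 0, 0, 1, 1, 1, 11, 0, 0, 0, 0, 0, 0, 0, 0, 1, 0, 0, 0, 14, 4, 0, 0, 0, 0, 1, 0, 0, 3]) (.leaf 4 [14, 1, 1, 0, 0, 1, 0, 0, 0, 1, 1, 1, 1, 0, 1, 0, 1, 0, 0, 0, 0, 1, 1, 0, 4, 0, 0, 0, 0, 0, 1, 0, 0, 3]))) (.split 2 5 1 1
(.split 3 5 2 1
(.leaf 9 [3, 1, 11, 0, 0, 0, 1, 1, 1, 11, 0, 0, 0, 0, 0, 0, 0, 0, 1, 0, 0, 0, 14, 4, 0, 0, 0, 0, 1, 0, 0, 3]) (.leaf 4 [14, 1, 1, 0, 0, 1, 0, 0, 0, 1, 1, 1, 1, 0, 1, 0, 1, 0, 0, 0, 0, 1, 1, 0, 4, 0, 0, 0, 0, 0, 1, 0, 0, 3])) (.leaf 4 [14, 1, 1, 0, 0, 1, 0, 0, 0, 1, 1, 1, 1, 0, 1, 0, 1, 0, 0, 0, 0, 1, 1, 0, 4, 0, 0, 0, 0, 0, 1, 0, 0, 3]))) (.split 2 0 1 2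
(.split 3 0 1 1
(.leaf 7 [0, 1, 11, 0, 11, 0, 0, 0, 1, 1, 0, 0, 0, 0, 0, 0, 13, 0, 0, 0, 14, 4, 0, 1, 0, 1, 0, 0, 3]) (.split 3 1 2 1
(.leaf 7 [0, 1, 11, 0, 11, 0, 0, 0, 1, 1, 0, 0, 0, 0, 0, 0, 3, 0, 0, 0, 14, 4, 0, 1, 0, 1, 0, 0, 3]) (.leaf 8 [0, 1, 11, 0, 0, 0, 1, 1, 1, 1, 1, 0, 1, 0, 1, 0, 0, 0, 1, 1, 1, 14, 4, 0, 0, 0, 0, 1, 0, 0, 0, 3]))) (.split 2 1 1 1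
(.split 3 1 2 1
(.leaf 7 [0, 1, 11, 0, 11, 0, 0, 0, 1, 1, 0, 0, 0, 0, 0, 0, 3, 0, 0, 0, 14, 4, 0, 1, 0, 1, 0, 0, 3]) (.leaf 8 [0, 1, 11, 0, 0, 0, 1, 1, 1, 1, 1, 0, 1, 0, 1, 0, 0, 0, 1, 1, 1, 14, 4, 0, 0, 0, 0, 1, 0, 0, 0, 3])) (.leaf 8 [0, 1, 11, 0, 0, 0, 1, 1, 1, 1, 1, 0, 1, 0, 1, 0, 0, 0, 1, 1, 1, 14, 4, 0, 0, 0, 0, 1, 0, 0, 0, 3])))) (.split 1 5 4 1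
(.split 2 4 1 1
(.split 2 5 1 2
(.split 4 5 1 2
(.split 0 3 1 1
(.split 1 3 1 1
(.split 4 3 1 1
(.split 3 4 1 1
(.leaf 7 [0, 1, 0, 0, 0, 0, 0, 0, 1, 1, 0, 0, 0, 0, 0, 0, 1, 0, 0, 0, 14, 1, 0, 1, 0, 1, 0, 0, 1]) (.leaf 8 [0, 1, 0, 0, 0, 0, 1, 1, 1, 1, 1, 0, 1, 0, 1, 0, 0, 0, 1, 1, 1, 14, 1, 0, 0, 0, 0, 1, 0, 0, 0, 1])) (.leaf 7 [0, 1, 11, 0, 0, 0, 0, 0, 1, 1, 0, 0, 0, 0, 0, 0, 1, 0, 0, 0, 1, 1, 0, 1, 0, 1, 0, 0, 1])) (.leaf 7 [0, 1, 11, 0, 0, 0, 0, 0, 1, 1, 0, 0, 0, 0, 0, 0, 1, 0, 0, 0, 1, 1, 0, 1, 0, 1, 0, 0, 1])) (.leaf 7 [0, 1, 11, 0, 0, 0, 0, 0, 1, 1, 0, 0, 0, 0, 0, 0, 1, 0, 0, 0, 1, 1, 0, 1, 0, 1, 0, 0, 1])) (.split 4 5 1 1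
(.split 0 2 2 1
(.split 1 2 2 1
(.split 3 0 2 1
(.leaf 9 [1, 1, 11, 0, 0, 0, 1, 1, 1, 0, 0, 0, 0, 0, 0, 0, 0, 0, 1, 0, 0, 0, 1, 1, 0, 0, 0, 0, 1, 0, 0, 1]) (.split 3 1 2 1
(.leaf 9 [1, 1, 11, 0, 0, 0, 1, 1, 1, 0, 0, 0, 0, 0, 0, 0, 0, 0, 1, 0, 0, 0, 1, 1, 0, 0, 0, 0, 1, 0, 0, 1]) (.split 3 4 2 1
(.leaf 9 [1, 1, 11, 0, 0, 0, 1, 1, 1, 11, 0, 0, 0, 0, 0, 0, 0, 0, 1, 0, 0, 0, 1, 1, 0, 0, 0, 0, 1, 0, 0, 1]) (.split 3 5 2 1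
(.leaf 9 [1, 1, 11, 0, 0, 0, 1, 1, 1, 11, 0, 0, 0, 0, 0, 0, 0, 0, 1, 0, 0, 0, 14, 1, 0, 0, 0, 0, 1, 0, 0, 1]) (.leaf 4 [14, 1, 1, 0, 0, 1, 0, 0, 0, 1, 1, 1, 1, 0, 1, 0, 1, 0, 0, 0, 0, 1, 1, 0, 1, 0, 0, 0, 0, 0, 1, 0, 0, 1]))))) (.split 1 3 1 1
(.split 3 0 2 1
(.leaf 9 [1, 1, 11, 0, 0, 0, 1, 1, 1, 0, 0, 0, 0, 0, 0, 0, 0, 0, 1, 0, 0, 0, 1, 1, 0, 0, 0, 0, 1, 0, 0, 1]) (.split 3 2 2 1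
(.leaf 9 [1, 1, 11, 0, 0, 0, 1, 1, 1, 0, 0, 0, 0, 0, 0, 0, 0, 0, 1, 0, 0, 0, 1, 1, 0, 0, 0, 0, 1, 0, 0, 1]) (.split 3 4 2 1
(.leaf 9 [1, 1, 11, 0, 0, 0, 1, 1, 1, 11, 0, 0, 0, 0, 0, 0, 0, 0, 1, 0, 0, 0, 1, 1, 0, 0, 0, 0, 1, 0, 0, 1]) (.split 3 5 2 1
(.leaf 9 [1, 1, 11, 0, 0, 0, 1, 1, 1, 11, 0, 0, 0, 0, 0, 0, 0, 0, 1, 0, 0, 0, 14, 1, 0, 0, 0, 0, 1, 0, 0, 1]) (.leaf 4 [14, 1, 1, 0, 0, 1, 0, 0, 0, 1, 1, 1, 1, 0, 1, 0, 1, 0, 0, 0, 0, 1, 1, 0, 1, 0, 0, 0, 0, 0, 1, 0, 0, 1]))))) (.leaf 6 [1, 1, 11, 0, 0, 0, 0, 0, 1, 1, 0, 0, 0, 0, 0, 0, 0, 0, 1, 1, 1, 0, 0, 1, 0, 0, 0, 1]))) (.split 0 3 1 1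
(.split 1 3 1 1
(.split 3 2 2 1
(.leaf 9 [1, 1, 11, 0, 0, 0, 1, 1, 1, 0, 0, 0, 0, 0, 0, 0, 0, 0, 1, 0, 0, 0, 1, 1, 0, 0, 0, 0, 1, 0, 0, 1]) (.split 3 4 2 1
(.leaf 9 [1, 1, 11, 0, 0, 0, 1, 1, 1, 11, 0, 0, 0, 0, 0, 0, 0, 0, 1, 0, 0, 0, 1, 1, 0, 0, 0, 0, 1, 0, 0, 1]) (.split 3 5 2 1
(.leaf 9 [1, 1, 11, 0, 0, 0, 1, 1, 1, 11, 0, 0, 0, 0, 0, 0, 0, 0, 1, 0, 0, 0, 14, 1, 0, 0, 0, 0, 1, 0, 0, 1]) (.leaf 4 [14, 1, 1, 0, 0, 1, 0, 0, 0, 1, 1, 1, 1, 0, 1, 0, 1, 0, 0, 0, 0, 1, 1, 0, 1, 0, 0, 0, 0, 0, 1, 0, 0, 1])))) (.leaf 6 [1, 1, 11, 0, 0, 0, 0, 0, 1, 1, 0, 0, 0, 0, 0, 0, 0, 0, 1, 1, 1, 0, 0, 1, 0, 0, 0, 1])) (.leaf 6 [1, 1, 11, 0, 0, 0, 0, 0, 1, 1, 0, 0, 0, 0, 0, 0, 0, 0, 1, 1, 1, 0, 0,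 1, 0, 0, 0, 1]))) (.leaf 4 [1, 1, 1, 0, 0, 1, 0, 0, 0, 1, 1, 1, 1, 0, 1, 0, 1, 0, 0, 0, 0, 1, 1, 0, 1, 0, 0, 0, 0, 0, 1, 0, 0, 1]))) (.leaf 4 [1, 1, 1, 0, 0, 1, 0, 0, 0, 1, 1, 1, 1, 0, 1, 0, 1, 0, 0, 0, 0, 1, 1, 0, 1, 0, 0, 0, 0, 0, 1, 0, 0, 1])) (.leaf 8 [0, 1, 11, 0, 0, 0, 1, 1, 1, 1, 1, 0, 1, 0, 1, 0, 0, 0, 1, 1, 1, 1, 1, 0, 0, 0, 0, 1, 0, 0, 0, 1])) (.leaf 1 [1, 1, 0, 0, 1, 0, 0, 0, 1, 1, 1, 1, 0, 1, 0, 1, 0, 0, 0, 0, 1, 1, 1, 1, 0, 1, 0, 0, 1, 0, 0, 0, 0, 0, 0, 0, 1])))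
  (by decide +kernel)

theorem p99 : Cov 6 fA kA [[0, 14, 24, 34, 36, 36, 46], [0, 1, 3, 4, 4, 4, 5], [0, 26, 52, 86, 88, 92, 114], [0, 6, 12, 22, 24, 24, 30], [0, 18, 36, 54, 56, 60, 74], [0, 1, 1, 2, 2, 2, 3]] :=
.of2 (.split 5 1 1 1
(.split 1 0 4 1
(.split 2 1 1 2
(.split 3 1 1 1
(.leaf 7 [0, 1, 11, 0, 11, 0, 0, 0, 1, 1, 0, 0, 0, 0, 0, 0, 13, 0, 0, 0, 14, 4, 0, 1, 0, 1, 0, 0, 3]) (.leaf 8 [0, 1, 11, 0, 0, 0, 1, 1, 1, 1, 1, 0, 1, 0, 1, 0, 0, 0, 1, 1, 1, 14, 4, 0, 0, 0, 0, 1, 0, 0, 0, 3])) (.leaf 8 [0, 1, 11, 0, 0, 0, 1, 1, 1, 1, 1, 0, 1, 0, 1, 0, 0, 0, 1, 1, 1, 14, 4, 0, 0, 0, 0, 1, 0, 0, 0, 3])) (.split 1 4 8 1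
(.split 2 0 1 2
(.split 3 0 1 1
(.leaf 9 [13, 1, 11, 0, 0, 0, 1, 1, 1, 11, 0, 0, 0, 0, 0, 0, 0, 0, 1, 0, 0, 0, 14, 4, 0, 0, 0, 0, 1, 0, 0, 3]) (.leaf 4 [14, 1, 1, 0, 0, 1, 0, 0, 0, 1, 1, 1, 1, 0, 1, 0, 1, 0, 0, 0, 0, 1, 1, 0, 4, 0, 0, 0, 0, 0, 1, 0, 0, 3])) (.leaf 4 [14, 1, 1, 0, 0, 1, 0, 0, 0, 1, 1, 1, 1, 0, 1, 0, 1, 0, 0, 0, 0, 1, 1, 0, 4, 0, 0, 0, 0, 0, 1, 0, 0, 3])) (.leaf 1 [1, 1, 0, 0, 1, 0, 0, 0, 1, 1, 1, 1, 0, 1, 0, 1, 0, 0, 0, 0, 1, 1, 1, 1, 0, 1, 0, 0, 1, 0, 0, 0, 0, 0, 0, 0, 1]))) (.leaf 3 [0, 1, 0, 1, 0, 1, 0, 1, 1, 1, 0, 1, 1, 1, 0, 0, 1, 1, 4, 1, 3, 0, 0, 0, 0, 3]))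
  (by decide +kernel)

theorem p100 : Cov 6 fA kA [[0, 18, 36, 54, 56, 60, 74], [0, 1, 3, 4, 4, 4, 5], [0, 26, 52, 86, 88, 92, 114], [0, 6, 12, 22, 24, 24, 30], [0, 2, 4, 7, 7, 8, 10], [0, 1, 1, 2, 2, 2, 3]] :=
.of2 (.leaf 1 [3, 1, 0, 0, 1, 0, 0, 0, 1, 1, 1, 1, 0, 1, 0, 1, 0, 0, 0, 0, 1, 1, 1, 1, 0, 4, 0, 0, 1, 0, 0, 0, 0, 0, 0, 0, 3])
  (by decide +kernel)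

theorem p101 : Cov 6 fA kA [[0, 26, 52, 86, 88, 92, 114], [0, 1, 3, 4, 4, 4, 5], [0, 4, 8, 15, 15, 16, 20], [0, 6, 12, 22, 24, 24, 30], [0, 2, 4, 7, 7, 8, 10], [0, 1, 1, 2, 2, 2, 3]] :=
.of2 (.leaf 1 [3, 1, 0, 0, 1, 0, 0, 0, 1, 1, 1, 1, 0, 1, 0, 1, 0, 0, 0, 0, 1, 1, 1, 1, 0, 4, 0, 0, 1, 0, 0, 0, 0, 0, 0, 0, 3])
  (by decide +kernel)

theorem p102 : Cov 6 fA kA [[0, 10, 20, 26, 28, 28, 34], [0, 6, 12, 22, 24, 24, 30], [0, 4, 8, 15, 15, 16, 20], [0, 3, 3, 10, 12, 12, 15], [0, 2, 4, 7, 7, 8, 10], [0, 1, 1, 2, 2, 2, 3]] :=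
.of2 (.split 3 5 1 3
(.split 2 0 4 1
(.split 4 0 4 1
(.split 3 0 2 3
(.split 5 0 4 1
(.split 1 0 1 1
(.split 2 0 1 2
(.split 3 0 1 2
(.leaf 7 [0, 1, 11, 0, 11, 0, 0, 0, 1, 1, 0, 0, 0, 0, 0, 0, 13, 0, 0, 0, 14, 4, 0, 1, 0, 1, 0, 0, 3]) (.leaf 8 [0, 1, 11, 0, 0, 0, 1, 1, 1, 11, 0, 0, 0, 0, 0, 0, 0, 0, 1, 0, 0, 14, 4, 0, 0, 0, 0, 1, 0, 0, 0, 3])) (.leaf 8 [0, 1, 11, 0, 0, 0, 1, 1, 1, 1, 0, 0, 0, 0, 0, 0, 0, 0, 1, 0, 0, 14, 4, 0, 0, 0, 0, 1, 0, 0, 0, 3])) (.leaf 8 [0, 1, 0, 0, 0, 0, 1, 1, 1, 1, 1, 0, 1, 0, 1, 0, 0, 0, 1, 1, 1, 14, 4, 0, 0, 0, 0, 1, 0, 0, 0, 3])) (.leaf 3 [0, 1, 0, 1, 0, 1, 0, 1, 1, 1, 0, 1, 1, 1, 0, 0, 1, 1, 4, 1, 3, 0, 0, 0, 0, 3])) (.leaf 3 [0, 1, 0, 1, 0, 1, 0,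 1, 1, 1, 0, 1, 1, 1, 0, 0, 1, 1, 4, 3, 3, 0, 0, 0, 0, 3])) (.leaf 3 [0, 1, 0, 1, 0, 1, 0, 1, 1, 1, 0, 1, 1, 4, 0, 0, 1, 1, 4, 3, 3, 0, 0, 0, 0, 3])) (.leaf 3 [0, 1, 0, 1, 0, 1, 0, 1, 1, 1, 0, 1, 1, 4, 0, 0, 1, 1, 4, 3, 3, 0, 0, 0, 0, 3])) (.leaf 0 [0, 1, 1, 0, 1, 0, 0, 0, 1, 1, 1, 1, 4, 1, 1, 0, 1, 1, 4, 1, 0, 4, 1, 1, 1, 4, 0, 1, 1, 0, 1, 0, 3]))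
  (by decide +kernel)

theorem p103 : Cov 6 fA kA [[0, 10, 20, 26, 28, 28, 34], [0, 4, 8, 15, 15, 16, 20], [0, 3, 5, 11, 11, 12, 15], [0, 3, 3, 10, 12, 12, 15], [0, 2, 4, 7, 7, 8, 10], [0, 1, 1, 2, 2, 2, 3]] :=
.of2 (.split 2 5 1 1
(.split 3 5 1 3
(.split 1 0 4 1
(.split 2 0 4 1
(.split 4 0 4 1
(.split 2 0 1 2
(.split 3 0 2 3
(.split 5 0 4 1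
(.split 1 0 1 2
(.split 2 0 1 2
(.split 3 0 1 2
(.leaf 7 [0, 1, 11, 0, 11, 0, 0, 0, 1, 1, 0, 0, 0, 0, 0, 0, 13, 0, 0, 0, 14, 4, 0, 1, 0, 1, 0, 0, 3]) (.leaf 8 [0, 1, 11, 0, 0, 0, 1, 1, 1, 11, 0, 0, 0, 0, 0, 0, 0, 0, 1, 0, 0, 14, 4, 0, 0, 0, 0, 1, 0, 0, 0, 3])) (.leaf 8 [0, 1, 11, 0, 0, 0, 1, 1, 1, 11, 0, 0, 0, 0, 0, 0, 0, 0, 1, 0, 0, 14, 4, 0, 0, 0, 0, 1, 0, 0, 0, 3])) (.leaf 8 [0, 1, 11, 0, 0, 0, 1, 1, 1, 1, 0, 0, 0, 0, 0, 0, 0, 0, 1, 0, 0, 14, 4, 0, 0, 0, 0, 1, 0, 0, 0, 3])) (.leaf 3 [0, 1, 0, 1, 0, 1, 0, 1, 1, 0, 0, 0, 0, 1, 0, 0, 1, 0, 4, 1, 3, 0, 0, 0, 0, 3])) (.leaf 3 [0, 1, 0, 1, 0, 1, 0, 1, 1, 0, 0, 1, 0, 1, 0, 0, 1, 0, 4, 3, 3, 0, 0, 0, 0, 3])) (.leaf 3 [0, 1, 0, 1, 0,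 1, 0, 1, 1, 0, 0, 1, 0, 1, 0, 0, 1, 0, 4, 3, 3, 0, 0, 0, 0, 3])) (.leaf 3 [0, 1, 0, 1, 0, 1, 0, 1, 1, 0, 0, 1, 0, 4, 0, 0, 1, 0, 4, 3, 3, 0, 0, 0, 0, 3])) (.leaf 3 [0, 1, 0, 1, 0, 1, 0, 1, 1, 0, 0, 1, 0, 4, 0, 0, 1, 0, 4, 3, 3, 0, 0, 0, 0, 3])) (.leaf 3 [0, 1, 0, 1, 0, 1, 0, 1, 1, 0, 0, 1, 0, 4, 0, 0, 1, 0, 4, 3, 3, 0, 0, 0, 0, 3])) (.leaf 0 [0, 1, 1, 0, 1, 0, 0, 0, 1, 1, 1, 1, 4, 1, 1, 0, 1, 1, 4, 1, 0, 4, 1, 1, 1, 4, 0, 1, 1, 0, 1, 0, 3])) (.leaf 0 [0, 1, 1, 0, 1, 0, 0, 0, 1, 1, 1, 1, 4, 1, 1, 0, 1, 1, 4, 1, 0, 4, 1, 1, 1, 4, 0, 1, 1, 0, 1, 0, 3]))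
  (by decide +kernel)

theorem p104 : Cov 6 fA kA [[0, 10, 10, 16, 18, 18, 24], [0, 10, 20, 26, 28, 28, 34], [0, 18, 22, 42, 44, 46, 60], [0, 6, 6, 16, 18, 18, 24], [0, 2, 4, 7, 7, 8, 10], [0, 1, 1, 2, 2, 2, 3]] :=
.of2 (.split 4 0 2 1
(.split 0 1 2 3
(.split 2 1 1 3
(.split 3 1 2 3
(.split 4 1 1 2
(.split 5 1 4 1
(.split 1 2 1 1
(.leaf 8 [0, 1, 0, 0, 0, 0, 0, 1, 1, 0, 0, 0, 0, 0, 0, 0, 0, 0, 1, 0, 0, 14, 4, 0, 0, 0, 0, 1, 0, 0, 0, 3]) (.split 1 3 2 1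
(.leaf 8 [0, 1, 0, 0, 0, 0, 0, 1, 1, 0, 0, 0, 0, 0, 0, 0, 0, 0, 1, 0, 0, 14, 4, 0, 0, 0, 0, 1, 0, 0, 0, 3]) (.leaf 7 [0, 1, 11, 0, 0, 0, 0, 0, 1, 1, 0, 0, 0, 0, 0, 0, 1, 0, 0, 0, 14, 4, 0, 0, 0, 1, 0, 0, 3]))) (.leaf 3 [0, 1, 0, 0, 0, 1, 0, 1, 1, 0, 0, 0, 0, 1, 0, 0, 1, 0, 4, 1, 3, 0, 0, 0, 0, 3])) (.leaf 3 [0, 1, 0, 0, 0, 1, 0, 1, 1, 0, 0, 0, 0, 1, 0, 0, 1, 0, 4, 3, 3, 0, 0, 0, 0, 3])) (.leaf 3 [0, 1, 0, 0, 0, 1, 0, 1, 1, 0, 0, 1, 0, 1, 0, 0, 1, 0, 4, 3, 3, 0, 0, 0, 0, 3])) (.leaf 3 [0, 1, 0, 0, 0, 1, 0, 1, 1, 0, 0, 1, 0, 1, 0, 0, 1, 0, 4, 3, 3, 0, 0, 0, 0, 3])) (.leaf 3 [0, 1, 0, 0, 0, 0, 0, 1, 1, 0, 0, 1, 0, 1, 0, 0, 1, 0, 4, 3, 3, 0, 0, 0, 0, 3])) (.split 4 1 2 1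
(.split 0 1 1 2
(.split 2 1 1 3
(.split 3 1 2 3
(.split 5 1 4 1
(.split 1 2 1 1
(.split 4 2 2 1
(.leaf 8 [0, 1, 0, 0, 0, 0, 0, 1, 1, 0, 0, 0, 0, 0, 0, 0, 0, 0, 1, 0, 0, 14, 4, 0, 0, 0, 0, 1, 0, 0, 0, 3]) (.split 4 3 4 1
(.leaf 8 [0, 1, 0, 0, 0, 0, 1, 1, 1, 0, 0, 0, 0, 0, 0, 0, 0, 0, 1, 0, 0, 14, 4, 0, 0, 0, 0, 1, 0, 0, 0, 3]) (.leaf 7 [0, 1, 0, 0, 0, 0, 0, 0, 1, 1, 0, 0, 0, 0, 0, 0, 1, 0, 0, 0, 14, 4, 0, 0, 0, 1, 0, 0, 3]))) (.split 1 3 2 1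
(.split 4 3 4 1
(.leaf 8 [0, 1, 0, 0, 0, 0, 1, 1, 1, 0, 0, 0, 0, 0, 0, 0, 0, 0, 1, 0, 0, 14, 4, 0, 0, 0, 0, 1, 0, 0, 0, 3]) (.leaf 7 [0, 1, 0, 0, 0, 0, 0, 0, 1, 1, 0, 0, 0, 0, 0, 0, 1, 0, 0, 0, 14, 4, 0, 0, 0, 1, 0, 0, 3])) (.leaf 7 [0, 1, 11, 0, 0, 0, 0, 0, 1, 1, 0, 0, 0, 0, 0, 0, 1, 0, 0, 0, 14, 4, 0, 0, 0, 1, 0, 0, 3]))) (.split 5 4 2 1
(.leaf 8 [0, 1, 0, 0, 0, 0, 1, 1, 1, 0, 0, 0, 0, 0, 0, 0, 0, 0, 1, 0, 0, 3, 4, 0, 0, 0, 0, 1, 0, 0, 0, 3]) (.leaf 3 [0, 1, 0, 0, 0, 1, 0, 1, 1, 0, 0, 0, 0, 1, 0, 0, 1, 0, 4, 1, 3, 0, 0, 0, 0, 3]))) (.split 3 4 1 3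
(.split 5 4 2 1
(.leaf 8 [0, 1, 0, 0, 0, 0, 1, 1, 1, 0, 0, 0, 0, 0, 0, 0, 0, 0, 1, 0, 0, 4, 4, 0, 0, 0, 0, 1, 0, 0, 0, 3]) (.leaf 3 [0, 1, 0, 0, 0, 1, 0, 1, 1, 0, 0, 0, 0, 1, 0, 0, 1, 0, 4, 1, 3, 0, 0, 0, 0, 3])) (.leaf 3 [0, 1, 0, 0, 0, 1, 0, 1, 1, 0, 0, 1, 0, 1, 0, 0, 1, 0, 4, 3, 3, 0, 0, 0, 0, 3]))) (.split 2 4 1 6
(.split 3 4 1 3
(.split 5 4 2 1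
(.leaf 8 [0, 1, 0, 0, 0, 0, 1, 1, 1, 0, 0, 0, 0, 0, 0, 0, 0, 0, 1, 0, 0, 4, 4, 0, 0, 0, 0, 1, 0, 0, 0, 3]) (.leaf 3 [0, 1, 0, 0, 0, 1, 0, 1, 1, 0, 0, 0, 0, 1, 0, 0, 1, 0, 4, 1, 3, 0, 0, 0, 0, 3])) (.leaf 3 [0, 1, 0, 0, 0, 1, 0, 1, 1, 0, 0, 1, 0, 1, 0, 0, 1, 0, 4, 3, 3, 0, 0, 0, 0, 3])) (.leaf 3 [0, 1, 0, 0, 0, 1, 0, 1, 1, 0, 0, 1, 0, 1, 0, 0, 1, 0, 4, 3, 3, 0, 0, 0, 0, 3]))) (.split 0 4 1 4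
(.split 2 4 1 6
(.split 3 4 1 3
(.split 5 4 2 1
(.leaf 7 [0, 1, 0, 0, 0, 0, 0, 0, 1, 1, 0, 0, 0, 0, 0, 0, 1, 0, 0, 0, 4, 4, 0, 1, 0, 1, 0, 0, 3]) (.leaf 3 [0, 1, 0, 0, 0, 1, 0, 1, 1, 0, 0, 0, 0, 1, 0, 0, 1, 0, 4, 1, 3, 0, 0, 0, 0, 3])) (.leaf 3 [0, 1, 0, 0, 0, 1, 0, 1, 1, 0, 0, 1, 0, 1, 0, 0, 1, 0, 4, 3, 3, 0, 0, 0, 0, 3])) (.leaf 3 [0, 1, 0, 0, 0, 1, 0, 1, 1, 0, 0, 1, 0, 1, 0, 0, 1, 0, 4, 3, 3, 0, 0, 0, 0, 3])) (.leaf 3 [0, 1, 0, 0, 0, 1, 0, 1, 1, 0, 0, 1, 0, 1, 0, 0, 1, 0, 4, 3, 3, 0, 0, 0, 0, 3]))) (.leaf 5 [3, 1, 1, 0, 0, 0, 0, 0, 0, 1, 3, 0, 0, 0, 1, 0, 0, 0, 0, 0, 0, 0, 3, 0, 4, 0, 0, 0, 0, 3, 0, 0, 3])))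
  (by decide +kernel)

theorem p105 : Cov 6 fA kA [[0, 18, 22, 42, 44, 46, 60], [0, 10, 20, 26, 28, 28, 34], [0, 4, 6, 13, 13, 14, 18], [0, 6, 6, 16, 18, 18, 24], [0, 2, 4, 7, 7, 8, 10], [0, 1, 1, 2, 2, 2, 3]] :=
.of2 (.split 2 1 2 1
(.split 4 1 2 1
(.split 0 1 1 3
(.split 2 1 2 1
(.split 3 1 2 3
(.split 5 1 4 1
(.split 0 4 1 1
(.split 2 4 1 2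
(.split 0 5 1 1
(.split 2 5 1 2
(.split 4 5 2 1
(.split 1 0 1 2
(.split 4 0 1 2
(.leaf 8 [0, 1, 0, 0, 0, 0, 0, 1, 1, 0, 0, 0, 0, 0, 0, 0, 0, 0, 1, 0, 0, 3, 4, 0, 0, 0, 0, 1, 0, 0, 0, 3]) (.split 4 2 1 1
(.leaf 8 [0, 1, 0, 0, 0, 0, 0, 1, 1, 0, 0, 0, 0, 0, 0, 0, 0, 0, 1, 0, 0, 3, 4, 0, 0, 0, 0, 1, 0, 0, 0, 3]) (.split 4 3 2 1
(.leaf 8 [0, 1, 0, 0, 0, 0, 0, 1, 1, 0, 0, 0, 0, 0, 0, 0, 0, 0, 1, 0, 0, 3, 4, 0, 0, 0, 0, 1, 0, 0, 0, 3]) (.leaf 7 [0, 1, 0, 0, 0, 0, 0, 0, 1, 1, 0, 0, 0, 0, 0, 0, 1, 0, 0, 0, 3, 4, 0, 0, 0, 1, 0, 0, 3])))) (.split 1 2 1 1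
(.split 4 2 1 1
(.leaf 8 [0, 1, 0, 0, 0, 0, 0, 1, 1, 0, 0, 0, 0, 0, 0, 0, 0, 0, 1, 0, 0, 3, 4, 0, 0, 0, 0, 1, 0, 0, 0, 3]) (.split 4 3 2 1
(.leaf 8 [0, 1, 0, 0, 0, 0, 0, 1, 1, 0, 0, 0, 0, 0, 0, 0, 0, 0, 1, 0, 0, 3, 4, 0, 0, 0, 0, 1, 0, 0, 0, 3]) (.leaf 7 [0, 1, 0, 0, 0, 0, 0, 0, 1, 1, 0, 0, 0, 0, 0, 0, 1, 0, 0, 0, 3, 4, 0, 0, 0, 1, 0, 0, 3]))) (.split 1 3 2 1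
(.split 4 3 2 1
(.leaf 8 [0, 1, 0, 0, 0, 0, 0, 1, 1, 0, 0, 0, 0, 0, 0, 0, 0, 0, 1, 0, 0, 14, 4, 0, 0, 0, 0, 1, 0, 0, 0, 3]) (.leaf 7 [0, 1, 0, 0, 0, 0, 0, 0, 1, 1, 0, 0, 0, 0, 0, 0, 1, 0, 0, 0, 14, 4, 0, 0, 0, 1, 0, 0, 3])) (.leaf 7 [0, 1, 11, 0, 0, 0, 0, 0, 1, 1, 0, 0, 0, 0, 0, 0, 1, 0, 0, 0, 1, 4, 0, 0, 0, 1, 0, 0, 3])))) (.leaf 8 [0, 1, 11, 0, 0, 0, 1, 1, 1, 0, 0, 0, 0, 0, 0, 0, 0, 0, 1, 0, 0, 4, 4, 0, 0, 0, 0, 1, 0, 0, 0, 3])) (.leaf 8 [0, 1, 11, 0, 0, 0, 1, 1, 1, 0, 0, 0, 0, 0, 0, 0, 0, 0, 1, 0, 0, 4, 4, 0, 0, 0, 0, 1, 0, 0, 0, 3])) (.leaf 8 [0, 1, 11, 0, 0, 0, 1, 1, 1, 0, 0, 0, 0, 0, 0, 0, 0, 0, 1, 0, 0, 4, 4, 0, 0, 0, 0, 1, 0, 0, 0, 3])) (.leaf 8 [0, 1, 11, 0, 0, 0, 1,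 1, 1, 0, 0, 0, 0, 0, 0, 0, 0, 0, 1, 0, 0, 1, 4, 0, 0, 0, 0, 1, 0, 0, 0, 3])) (.leaf 8 [0, 1, 11, 0, 0, 0, 1, 1, 1, 0, 0, 0, 0, 0, 0, 0, 0, 0, 1, 0, 0, 1, 4, 0, 0, 0, 0, 1, 0, 0, 0, 3])) (.split 5 4 2 1
(.leaf 8 [0, 1, 0, 0, 0, 0, 1, 1, 1, 0, 0, 0, 0, 0, 0, 0, 0, 0, 1, 0, 0, 3, 4, 0, 0, 0, 0, 1, 0, 0, 0, 3]) (.leaf 3 [0, 1, 0, 0, 0, 1, 0, 1, 1, 0, 0, 0, 0, 1, 0, 0, 1, 0, 4, 1, 3, 0, 0, 0, 0, 3]))) (.split 3 4 1 3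
(.split 5 4 2 1
(.leaf 8 [0, 1, 0, 0, 0, 0, 1, 1, 1, 0, 0, 0, 0, 0, 0, 0, 0, 0, 1, 0, 0, 4, 4, 0, 0, 0, 0, 1, 0, 0, 0, 3]) (.leaf 3 [0, 1, 0, 0, 0, 1, 0, 1, 1, 0, 0, 0, 0, 1, 0, 0, 1, 0, 4, 1, 3, 0, 0, 0, 0, 3])) (.leaf 3 [0, 1, 0, 0, 0, 1, 0, 1, 1, 0, 0, 1, 0, 1, 0, 0, 1, 0, 4, 3, 3, 0, 0, 0, 0, 3]))) (.split 2 4 1 1
(.split 3 4 1 3
(.split 5 4 2 1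
(.leaf 8 [0, 1, 0, 0, 0, 0, 1, 1, 1, 0, 0, 0, 0, 0, 0, 0, 0, 0, 1, 0, 0, 4, 4, 0, 0, 0, 0, 1, 0, 0, 0, 3]) (.leaf 3 [0, 1, 0, 0, 0, 1, 0, 1, 1, 0, 0, 0, 0, 1, 0, 0, 1, 0, 4, 1, 3, 0, 0, 0, 0, 3])) (.leaf 3 [0, 1, 0, 0, 0, 1, 0, 1, 1, 0, 0, 1, 0, 1, 0, 0, 1, 0, 4, 3, 3, 0, 0, 0, 0, 3])) (.leaf 3 [0, 1, 0, 0, 0, 1, 0, 1, 1, 0, 0, 1, 0, 1, 0, 0, 1, 0, 4, 3, 3, 0, 0, 0, 0, 3]))) (.split 0 4 1 6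
(.split 2 4 1 1
(.split 3 4 1 3
(.split 5 4 2 1
(.leaf 8 [0, 1, 0, 0, 0, 0, 1, 1, 1, 0, 0, 0, 0, 0, 0, 0, 0, 0, 1, 0, 0, 4, 4, 0, 0, 0, 0, 1, 0, 0, 0, 3]) (.leaf 3 [0, 1, 0, 0, 0, 1, 0, 1, 1, 0, 0, 0, 0, 1, 0, 0, 1, 0, 4, 1, 3, 0, 0, 0, 0, 3])) (.leaf 3 [0, 1, 0, 0, 0, 1, 0, 1, 1, 0, 0, 1, 0, 1, 0, 0, 1, 0, 4, 3, 3, 0, 0, 0, 0, 3])) (.leaf 3 [0, 1, 0, 0, 0, 1, 0, 1, 1, 0, 0, 1, 0, 1, 0, 0, 1, 0, 4, 3, 3, 0, 0, 0, 0, 3])) (.leaf 3 [0, 1, 0, 0, 0, 1, 0, 1, 1, 0, 0, 1, 0, 1, 0, 0, 1, 0, 4, 3, 3, 0, 0, 0, 0, 3]))) (.leaf 5 [3, 1, 1, 0, 0, 0, 0, 0, 0, 1, 3, 0, 0, 0, 1, 0, 0, 0, 0, 0, 0, 0, 3, 0, 4, 0, 0, 0, 0, 3, 0, 0, 3])) (.leaf 3 [0, 1, 0, 0, 0, 1, 0, 1, 1, 0, 0, 1, 0, 4, 0, 0,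 1, 0, 4, 3, 3, 0, 0, 0, 0, 3]))
  (by decide +kernel)

theorem p106 : Cov 6 fA kA [[0, 10, 10, 16, 18, 18, 24], [0, 10, 20, 26, 28, 28, 34], [0, 4, 6, 13, 13, 14, 18], [0, 3, 3, 10, 12, 12, 15], [0, 2, 4, 7, 7, 8, 10], [0, 6, 6, 16, 18, 18, 24]] :=
.of2 (.leaf 0 [0, 1, 1, 0, 0, 0, 0, 0, 1, 1, 1, 1, 4, 1, 1, 0, 1, 1, 4, 1, 0, 4, 1, 1, 1, 4, 0, 1, 1, 0, 1, 0, 3])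
  (by decide +kernel)

theorem p107 : Cov 6 fA kA [[0, 10, 10, 16, 18, 18, 24], [0, 10, 20, 26, 28, 28, 34], [0, 3, 5, 11, 11, 12, 15], [0, 3, 3, 10, 12, 12, 15], [0, 2, 4, 7, 7, 8, 10], [0, 4, 6, 13, 13, 14, 18]] :=
.of2 (.leaf 0 [0, 1, 1, 0, 1, 0, 0, 0, 1, 1, 1, 1, 4, 1, 1, 0, 1, 1, 4, 1, 0, 4, 1, 1, 1, 4, 0, 1, 1, 0, 1, 0, 3])
  (by decide +kernel)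

theorem p108 : Cov 6 fA kA [[0, 5, 5, 6, 8, 8, 9], [0, 10, 20, 26, 28, 28, 34], [0, 3, 5, 11, 11, 12, 15], [0, 3, 3, 10, 12, 12, 15], [0, 2, 4, 7, 7, 8, 10], [0, 10, 10, 16, 18, 18, 24]] :=
.of2 (.leaf 0 [0, 1, 4, 0, 1, 0, 0, 0, 1, 1, 1, 1, 4, 1, 1, 0, 1, 1, 4, 1, 0, 4, 1, 1, 1, 4, 0, 1, 1, 0, 1, 0, 3])
  (by decide +kernel)

theorem p109 : Cov 6 fA kA [[0, 5, 5, 6, 8, 8, 9], [0, 1, 3, 4, 4, 4, 5], [0, 1, 1, 4, 4, 4, 5], [0, 3, 3, 10, 12, 12, 15], [0, 3, 5, 11, 11, 12, 15], [0, 1, 1, 2, 2, 2, 3]] :=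
.of2 (.leaf 0 [0, 1, 4, 0, 1, 0, 0, 0, 1, 1, 1, 1, 4, 1, 1, 1, 1, 1, 4, 1, 0, 4, 1, 1, 1, 1, 1, 1, 1, 0, 1, 0, 3])
  (by decide +kernel)

theorem p110 : Cov 6 fA kA [[0, 1, 1, 1, 1, 1, 1], [0, 1, 3, 4, 4, 4, 5], [0, 1, 1, 4, 4, 4, 5], [0, 5, 5, 6, 8, 8, 9], [0, 2, 4, 7, 7, 8, 10], [0, 1, 1, 2, 2, 2, 3]] :=
.of2 (.split 0 4 2 1
(.split 2 4 1 1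
(.split 0 1 1 2
(.split 2 1 1 1
(.split 3 1 1 5
(.split 2 3 2 1
(.split 4 3 2 1
(.split 0 4 2 1
(.split 2 4 1 1
(.leaf 7 [0, 1, 11, 0, 11, 0, 0, 0, 1, 1, 0, 0, 0, 0, 0, 0, 1, 0, 0, 0, 3, 4, 0, 1, 0, 1, 0, 0, 3]) (.leaf 8 [0, 1, 11, 0, 0, 0, 1, 1, 1, 1, 0, 0, 0, 0, 0, 0, 0, 0, 1, 0, 0, 1, 4, 0, 0, 0, 0, 1, 0, 0, 0, 3])) (.leaf 8 [0, 1, 11, 0, 0, 0, 1, 1, 1, 1, 0, 0, 0, 0, 0, 0, 0, 0, 1, 0, 0, 1, 4, 0, 0, 0, 0, 1, 0, 0, 0, 3])) (.leaf 4 [3, 1, 1, 0, 0, 1, 0, 0, 0, 1, 1, 1, 0, 0, 0, 0, 0, 0, 0, 0, 0, 0, 1, 0, 4, 0, 0, 0, 0, 0, 3, 0, 0, 3])) (.leaf 4 [3, 1, 1, 0, 0, 1, 0, 0, 0, 1, 1, 1, 0, 0, 0, 0, 0, 0, 0, 0, 0, 0, 1, 0, 4, 0, 0, 0, 0, 0, 3, 0, 0, 3])) (.split 3 5 1 5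
(.split 0 2 1 1
(.split 4 2 1 1
(.leaf 8 [0, 1, 11, 0, 0, 0, 1, 1, 1, 1, 0, 0, 0, 0, 0, 0, 0, 0, 1, 0, 0, 1, 4, 0, 0, 0, 0, 3, 0, 0, 0, 3]) (.leaf 7 [0, 1, 11, 0, 1, 0, 0, 0, 1, 1, 0, 0, 0, 0, 0, 0, 13, 0, 0, 0, 3, 4, 0, 1, 0, 3, 0, 0, 3])) (.leaf 7 [0, 1, 11, 0, 1, 0, 0, 0, 1, 1, 0, 0, 0, 0, 0, 0, 13, 0, 0, 0, 3, 4, 0, 1, 0, 3, 0, 0, 3])) (.leaf 3 [0, 1, 11, 1, 0, 1, 0, 1, 1, 0, 0, 0, 0, 4, 0, 0, 1, 0, 4, 4, 4, 0, 0, 0, 0, 3]))) (.split 2 5 1 1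
(.split 3 5 1 5
(.leaf 8 [0, 1, 11, 0, 0, 0, 1, 1, 1, 1, 0, 0, 0, 0, 0, 0, 0, 0, 1, 0, 0, 3, 4, 0, 0, 0, 0, 3, 0, 0, 0, 3]) (.leaf 3 [0, 1, 11, 1, 0, 1, 0, 1, 1, 0, 0, 0, 0, 4, 0, 0, 1, 0, 4, 3, 4, 0, 0, 0, 0, 3])) (.leaf 3 [0, 1, 11, 1, 0, 1, 0, 1, 1, 0, 0, 1, 0, 4, 0, 0, 1, 0, 4, 3, 4, 0, 0, 0, 0, 3]))) (.split 0 5 1 2
(.split 2 5 1 1
(.split 3 5 1 5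
(.leaf 8 [0, 1, 11, 0, 0, 0, 1, 1, 1, 0, 0, 0, 0, 0, 0, 0, 0, 0, 1, 0, 0, 3, 4, 0, 0, 0, 0, 3, 0, 0, 0, 3]) (.leaf 3 [0, 1, 11, 0, 0, 1, 0, 1, 1, 0, 0, 0, 0, 4, 0, 0, 1, 0, 4, 3, 4, 0, 0, 0, 0, 3])) (.leaf 3 [0, 1, 11, 1, 0, 1, 0, 1, 1, 0, 0, 1, 0, 4, 0, 0, 1, 0, 4, 3, 4, 0, 0, 0, 0, 3])) (.leaf 3 [0, 1, 11, 1, 0, 1, 0, 1, 1, 0, 0, 1, 0, 4, 0, 0, 1, 0, 4, 4, 4, 0, 0, 0, 0, 3]))) (.leaf 0 [0, 1, 4, 0, 1, 0, 0, 0, 1, 1, 1, 1, 1, 1, 1, 1, 1, 1, 1, 1, 0, 4, 0, 1, 1, 1, 1, 1, 1, 0, 1, 0, 3])) (.leaf 3 [0, 1, 11, 1, 0, 1, 0, 1, 1, 1, 1, 1, 1, 1, 1, 1, 1, 1, 4, 1, 1, 1, 0, 1, 0, 3]))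
  (by decide +kernel)

theorem p111 : Cov 6 fA kA [[0, 1, 1, 1, 1, 1, 1], [0, 1, 3, 4, 4, 4, 5], [0, 1, 1, 4, 4, 4, 5], [0, 1, 1, 2, 4, 4, 5], [0, 0, 2, 3, 3, 4, 4], [0, 2, 4, 7, 7, 8, 10]] :=
.of2 (.leaf 1 [4, 4, 1, 1, 1, 1, 1, 1, 4, 1, 1, 1, 1, 4, 1, 1, 1, 1, 4, 4, 4, 4, 4, 1, 4, 4, 1, 4, 4, 4, 4, 4, 4, 4, 4, 4, 3])
  (by decide +kernel)

theorem p112 : Cov 6 fA kA [[0, 1, 1, 1, 1, 1, 1], [0, 1, 3, 4, 4, 4, 5], [0, 1, 1, 4, 4, 4, 5], [0, 0, 0, 0, 1, 1, 1], [0, 0, 2, 3, 3, 4, 4], [0, 1, 1, 2, 4, 4, 5]] :=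
.of2 (.leaf 1 [4, 4, 4, 1, 1, 4, 4, 4, 4, 1, 1, 4, 4, 4, 4, 4, 4, 4, 4, 4, 4, 4, 4, 4, 4, 4, 4, 4, 4, 4, 4, 4, 4, 4, 4, 4, 4])
  (by decide +kernel)

theorem p113 : Cov 6 fA kA [[0, 1, 1, 1, 1, 1, 1], [0, 1, 3, 4, 4, 4, 5], [0, 0, 0, 1, 1, 1, 1], [0, 0, 0, 0, 1, 1, 1], [0, 0, 2, 3, 3, 4, 4], [0, 1, 1, 4, 4, 4, 5]] :=
.of2 (.leaf 1 [4, 4, 4, 1, 1, 4, 4, 4, 4, 1, 1, 4, 4, 4, 4, 4, 4, 4, 4, 4, 4, 4, 4, 4, 4, 4, 4, 4, 4, 4, 4, 4, 4, 4, 4, 4, 4])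
  (by decide +kernel)

theorem p114 : Cov 6 fA kA [[0, 1, 1, 1, 1, 1, 1], [0, 0, 1, 1, 1, 1, 1], [0, 0, 0, 1, 1, 1, 1], [0, 0, 0, 0, 1, 1, 1], [0, 0, 2, 3, 3, 4, 4], [0, 1, 3, 4, 4, 4, 5]] :=
.of2 (.leaf 1 [4, 4, 4, 1, 1, 4, 4, 4, 4, 1, 1, 4, 4, 4, 4, 4, 4, 4, 4, 4, 4, 4, 4, 4, 4, 4, 4, 4, 4, 4, 4, 4, 4, 4, 4, 4, 4])
  (by decide +kernel)

theorem q0 : Cov 6 fA kA [[0, 1, 2, 3, 4, 4, 6], [0, 1, 5, 6, 6, 6, 7], [0, 0, 0, 1, 1, 1, 1], [0, 0, 0, 0, 1, 1, 2], [0, 2, 4, 6, 6, 9, 14], [0, 0, 0, 1, 1, 1, 3]] :=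
  .split 1 3 1 1 p1 p2 (by decide +kernel)

theorem q1 : Cov 6 fA kA [[0, 1, 2, 3, 3, 3, 4], [0, 1, 5, 6, 6, 6, 7], [0, 0, 0, 1, 1, 1, 1], [0, 0, 0, 0, 1, 1, 2], [0, 2, 4, 6, 6, 9, 14], [0, 0, 0, 1, 1, 1, 3]] :=
  .split 0 3 1 1 q0 p3 (by decide +kernel)

theorem q2 : Cov 6 fA kA [[0, 9, 39, 72, 72, 75, 87], [0, 1, 5, 7, 7, 7, 8], [0, 0, 0, 1, 1, 1, 1], [0, 0, 0, 2, 3, 3, 4], [0, 3, 15, 30, 30, 31, 37], [0, 0, 0, 4, 4, 4, 6]] :=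
  .split 0 3 1 8 p4 p5 (by decide +kernel)

theorem q3 : Cov 6 fA kA [[0, 36, 156, 855, 855, 930, 1167], [0, 6, 30, 152, 152, 154, 212], [0, 0, 0, 1, 1, 1, 1], [0, 18, 78, 270, 333, 339, 426], [0, 12, 60, 327, 327, 354, 447], [0, 0, 0, 4, 4, 4, 6]] :=
  .split 0 1 8 23 p8 p9 (by decide +kernel)

theorem q4 : Cov 6 fA kA [[0, 36, 156, 855, 855, 930, 1167], [0, 3, 15, 30, 30, 31, 37], [0, 0, 0, 1, 1, 1, 1], [0, 18, 78, 270, 333, 339, 426], [0, 12, 60, 327, 327, 354, 447], [0, 0, 0, 4, 4, 4, 6]] :=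
  .split 1 5 2 23 q3 p10 (by decide +kernel)

theorem q5 : Cov 6 fA kA [[0, 36, 156, 855, 855, 930, 1167], [0, 3, 15, 30, 30, 31, 37], [0, 0, 0, 1, 1, 1, 1], [0, 18, 78, 270, 333, 339, 426], [0, 0, 0, 9, 9, 10, 13], [0, 0, 0, 4, 4, 4, 6]] :=
  .split 1 4 4 23 p7 q4 (by decide +kernel)

theorem q6 : Cov 6 fA kA [[0, 1134, 4914, 26208, 26208, 27846, 36036], [0, 6, 30, 152, 152, 154, 212], [0, 0, 0, 1, 1, 1, 1], [0, 378, 1638, 7056, 7686, 7812, 10332], [0, 426, 1938, 10336, 10336, 10982, 14212], [0, 0, 0, 4, 4, 4, 6]] :=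
  .split 0 1 1 126 p12 p13 (by decide +kernel)

theorem q7 : Cov 6 fA kA [[0, 1134, 4914, 26208, 26208, 27846, 36036], [0, 6, 30, 152, 152, 154, 212], [0, 0, 0, 1, 1, 1, 1], [0, 378, 1638, 7056, 7686, 7812, 10332], [0, 36, 156, 855, 855, 930, 1167], [0, 0, 0, 4, 4, 4, 6]] :=
  .split 4 1 8 23 q6 p14 (by decide +kernel)

theorem q8 : Cov 6 fA kA [[0, 18, 78, 396, 396, 402, 552], [0, 6, 30, 152, 152, 154, 212], [0, 0, 0, 1, 1, 1, 1], [0, 378, 1638, 7056, 7686, 7812, 10332], [0, 36, 156, 855, 855, 930, 1167], [0, 0, 0, 4, 4, 4, 6]] :=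
  .split 4 0 20 23 p11 q7 (by decide +kernel)

theorem q9 : Cov 6 fA kA [[0, 18, 78, 396, 396, 402, 552], [0, 6, 30, 152, 152, 154, 212], [0, 0, 0, 1, 1, 1, 1], [0, 18, 78, 270, 333, 339, 426], [0, 36, 156, 855, 855, 930, 1167], [0, 0, 0, 4, 4, 4, 6]] :=
  .split 3 0 10 11 q8 p15 (by decide +kernel)

theorem q10 : Cov 6 fA kA [[0, 18, 78, 396, 396, 402, 552], [0, 3, 15, 30, 30, 31, 37], [0, 0, 0, 1, 1, 1, 1], [0, 18, 78, 270, 333, 339, 426], [0, 36, 156, 855, 855, 930, 1167], [0, 0, 0, 4, 4, 4, 6]] :=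
  .split 1 5 2 23 q9 p16 (by decide +kernel)

theorem q11 : Cov 6 fA kA [[0, 9, 39, 72, 72, 75, 87], [0, 3, 15, 30, 30, 31, 37], [0, 0, 0, 1, 1, 1, 1], [0, 18, 78, 270, 333, 339, 426], [0, 36, 156, 855, 855, 930, 1167], [0, 0, 0, 4, 4, 4, 6]] :=
  .split 0 5 2 63 q10 p17 (by decide +kernel)

theorem q12 : Cov 6 fA kA [[0, 9, 39, 72, 72, 75, 87], [0, 3, 15, 30, 30, 31, 37], [0, 0, 0, 1, 1, 1, 1], [0, 18, 78, 270, 333, 339, 426], [0, 0, 0, 9, 9, 10, 13], [0, 0, 0, 4, 4, 4, 6]] :=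
  .split 0 4 4 63 q5 q11 (by decide +kernel)

theorem q13 : Cov 6 fA kA [[0, 9, 39, 72, 72, 75, 87], [0, 3, 15, 30, 30, 31, 37], [0, 0, 0, 1, 1, 1, 1], [0, 0, 0, 2, 3, 3, 4], [0, 0, 0, 9, 9, 10, 13], [0, 0, 0, 4, 4, 4, 6]] :=
  .split 0 3 2 63 p6 q12 (by decide +kernel)

theorem q14 : Cov 6 fA kA [[0, 9, 39, 72, 72, 75, 87], [0, 1, 5, 7, 7, 7, 8], [0, 0, 0, 1, 1, 1, 1], [0, 0, 0, 2, 3, 3, 4], [0, 0, 0, 9, 9, 10, 13], [0, 0, 0, 4, 4, 4, 6]] :=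
  .split 4 1 1 3 q2 q13 (by decide +kernel)

theorem q15 : Cov 6 fA kA [[0, 168, 588, 3136, 3136, 3332, 4312], [0, 36, 156, 792, 792, 804, 1104], [0, 0, 0, 1, 1, 1, 1], [0, 36, 156, 672, 732, 744, 984], [0, 756, 3276, 17472, 17472, 18564, 24024], [0, 0, 0, 4, 4, 4, 6]] :=
  .split 0 1 6 7 p19 p20 (by decide +kernel)

theorem q16 : Cov 6 fA kA [[0, 168, 588, 3136, 3136, 3332, 4312], [0, 36, 156, 792, 792, 804, 1104], [0, 0, 0, 1, 1, 1, 1], [0, 36, 156, 672, 732, 744, 984], [0, 756, 3276, 16380, 16380, 17472, 22386], [0, 0, 0, 4, 4, 4, 6]] :=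
  .split 4 5 1 273 q15 p21 (by decide +kernel)

theorem q17 : Cov 6 fA kA [[0, 168, 588, 3136, 3136, 3332, 4312], [0, 36, 156, 792, 792, 804, 1104], [0, 0, 0, 1, 1, 1, 1], [0, 36, 156, 660, 720, 732, 966], [0, 756, 3276, 16380, 16380, 17472, 22386], [0, 0, 0, 4, 4, 4, 6]] :=
  .split 3 5 1 3 q16 p22 (by decide +kernel)

theorem q18 : Cov 6 fA kA [[0, 168, 588, 3136, 3136, 3332, 4312], [0, 36, 156, 540, 540, 552, 726], [0, 0, 0, 1, 1, 1, 1], [0, 36, 156, 660, 720, 732, 966], [0, 756, 3276, 16380, 16380, 17472, 22386], [0, 0, 0, 4, 4, 4, 6]] :=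
  .split 1 5 1 63 q17 p23 (by decide +kernel)

theorem q19 : Cov 6 fA kA [[0, 168, 588, 2940, 2940, 3136, 4018], [0, 36, 156, 540, 540, 552, 726], [0, 0, 0, 1, 1, 1, 1], [0, 36, 156, 660, 720, 732, 966], [0, 756, 3276, 16380, 16380, 17472, 22386], [0, 0, 0, 4, 4, 4, 6]] :=
  .split 0 5 1 49 q18 p24 (by decide +kernel)

theorem q20 : Cov 6 fA kA [[0, 168, 588, 2940, 2940, 3136, 4018], [0, 36, 156, 540, 540, 552, 726], [0, 0, 0, 1, 1, 1, 1], [0, 36, 156, 660, 720, 732, 966], [0, 9, 39, 261, 261, 285, 360], [0, 0, 0, 4, 4, 4, 6]] :=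
  .split 4 1 40 11 q19 p25 (by decide +kernel)

theorem q21 : Cov 6 fA kA [[0, 168, 588, 2940, 2940, 3136, 4018], [0, 36, 156, 540, 540, 552, 726], [0, 0, 0, 1, 1, 1, 1], [0, 0, 0, 2, 3, 3, 4], [0, 9, 39, 261, 261, 285, 360], [0, 0, 0, 4, 4, 4, 6]] :=
  .split 3 1 60 1 q20 p26 (by decide +kernel)

theorem q22 : Cov 6 fA kA [[0, 6, 12, 132, 132, 148, 184], [0, 36, 156, 540, 540, 552, 726], [0, 0, 0, 1, 1, 1, 1], [0, 0, 0, 2, 3, 3, 4], [0, 9, 39, 261, 261, 285, 360], [0, 0, 0, 4, 4, 4, 6]] :=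
  .split 0 1 10 3 q21 p27 (by decide +kernel)

theorem q23 : Cov 6 fA kA [[0, 6, 12, 132, 132, 148, 184], [0, 9, 39, 72, 72, 75, 87], [0, 0, 0, 1, 1, 1, 1], [0, 0, 0, 2, 3, 3, 4], [0, 9, 39, 261, 261, 285, 360], [0, 0, 0, 4, 4, 4, 6]] :=
  .split 1 5 4 63 q22 p28 (by decide +kernel)

theorem q24 : Cov 6 fA kA [[0, 6, 12, 132, 132, 148, 184], [0, 9, 39, 72, 72, 75, 87], [0, 0, 0, 1, 1, 1, 1], [0, 0, 0, 2, 3, 3, 4], [0, 0, 0, 9, 9, 10, 13], [0, 0, 0, 4, 4, 4, 6]] :=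
  .split 1 4 1 21 p18 q23 (by decide +kernel)

theorem q25 : Cov 6 fA kA [[0, 2, 4, 23, 23, 26, 31], [0, 9, 39, 72, 72, 75, 87], [0, 0, 0, 1, 1, 1, 1], [0, 0, 0, 2, 3, 3, 4], [0, 0, 0, 9, 9, 10, 13], [0, 0, 0, 4, 4, 4, 6]] :=
  .split 0 4 3 7 q24 p29 (by decide +kernel)

theorem q26 : Cov 6 fA kA [[0, 2, 4, 23, 23, 26, 31], [0, 1, 5, 7, 7, 7, 8], [0, 0, 0, 1, 1, 1, 1], [0, 0, 0, 2, 3, 3, 4], [0, 0, 0, 9, 9, 10, 13], [0, 0, 0, 4, 4, 4, 6]] :=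
  .split 0 1 1 7 q14 q25 (by decide +kernel)

theorem q27 : Cov 6 fA kA [[0, 2, 4, 23, 23, 26, 31], [0, 1, 5, 7, 7, 7, 8], [0, 0, 0, 1, 1, 1, 1], [0, 0, 0, 2, 3, 3, 4], [0, 0, 0, 9, 9, 10, 13], [0, 0, 0, 1, 1, 1, 3]] :=
  .split 5 2 1 3 q26 p30 (by decide +kernel)

theorem q28 : Cov 6 fA kA [[0, 2, 4, 23, 23, 26, 31], [0, 1, 5, 7, 7, 7, 8], [0, 0, 0, 1, 1, 1, 1], [0, 0, 0, 2, 3, 3, 4], [0, 0, 0, 1, 1, 2, 5], [0, 0, 0, 1, 1, 1, 3]] :=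
  .split 4 2 1 8 q27 p31 (by decide +kernel)

theorem q29 : Cov 6 fA kA [[0, 30, 84, 309, 309, 342, 405], [0, 1, 5, 7, 7, 7, 8], [0, 1, 5, 29, 40, 40, 52], [0, 1, 5, 7, 18, 18, 30], [0, 6, 30, 53, 53, 64, 103], [0, 2, 10, 25, 25, 25, 49]] :=
  .split 0 1 1 69 p32 p33 (by decide +kernel)

theorem q30 : Cov 6 fA kA [[0, 30, 84, 309, 309, 342, 405], [0, 1, 5, 7, 7, 7, 8], [0, 1, 5, 29, 40, 40, 52], [0, 1, 5, 7, 18, 18, 30], [0, 6, 30, 53, 53, 64, 103], [0, 0, 0, 1, 1, 1, 3]] :=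
  .split 5 1 11 2 q29 p34 (by decide +kernel)

theorem q31 : Cov 6 fA kA [[0, 30, 84, 309, 309, 342, 405], [0, 1, 5, 7, 7, 7, 8], [0, 1, 5, 29, 40, 40, 52], [0, 1, 5, 7, 18, 18, 30], [0, 0, 0, 1, 1, 2, 5], [0, 0, 0, 1, 1, 1, 3]] :=
  .split 4 1 11 6 q30 p35 (by decide +kernel)

theorem q32 : Cov 6 fA kA [[0, 30, 84, 309, 309, 342, 405], [0, 1, 5, 7, 7, 7, 8], [0, 1, 5, 29, 40, 40, 52], [0, 0, 0, 0, 1, 1, 2], [0, 0, 0, 1, 1, 2, 5], [0, 0, 0, 1, 1, 1, 3]] :=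
  .split 3 1 11 1 q31 p36 (by decide +kernel)

theorem q33 : Cov 6 fA kA [[0, 30, 84, 309, 309, 342, 405], [0, 1, 5, 7, 7, 7, 8], [0, 0, 0, 2, 3, 3, 4], [0, 0, 0, 0, 1, 1, 2], [0, 0, 0, 1, 1, 2, 5], [0, 0, 0, 1, 1, 1, 3]] :=
  .split 2 1 11 1 q32 p37 (by decide +kernel)

theorem q34 : Cov 6 fA kA [[0, 2, 4, 23, 23, 26, 31], [0, 1, 5, 7, 7, 7, 8], [0, 0, 0, 2, 3, 3, 4], [0, 0, 0, 0, 1, 1, 2], [0, 0, 0, 1, 1, 2, 5], [0, 0, 0, 1, 1, 1, 3]] :=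
  .split 0 1 11 8 q33 p38 (by decide +kernel)

theorem q35 : Cov 6 fA kA [[0, 2, 4, 23, 23, 26, 31], [0, 1, 5, 7, 7, 7, 8], [0, 0, 0, 1, 1, 1, 1], [0, 0, 0, 0, 1, 1, 2], [0, 0, 0, 1, 1, 2, 5], [0, 0, 0, 1, 1, 1, 3]] :=
  .split 3 2 1 2 q28 q34 (by decide +kernel)

theorem q36 : Cov 6 fA kA [[0, 2, 4, 23, 23, 26, 31], [0, 1, 5, 6, 6, 6, 7], [0, 1, 5, 7, 7, 7, 8], [0, 0, 0, 0, 1, 1, 2], [0, 0, 0, 1, 1, 2, 5], [0, 0, 0, 1, 1, 1, 3]] :=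
  .split 4 0 21 5 p39 p40 (by decide +kernel)

theorem q37 : Cov 6 fA kA [[0, 2, 4, 23, 23, 26, 31], [0, 1, 5, 6, 6, 6, 7], [0, 0, 0, 1, 1, 1, 1], [0, 0, 0, 0, 1, 1, 2], [0, 0, 0, 1, 1, 2, 5], [0, 0, 0, 1, 1, 1, 3]] :=
  .split 1 2 1 1 q35 q36 (by decide +kernel)

theorem q38 : Cov 6 fA kA [[0, 2, 4, 6, 6, 9, 14], [0, 1, 5, 6, 6, 6, 7], [0, 0, 0, 1, 1, 1, 1], [0, 0, 0, 0, 1, 1, 2], [0, 0, 0, 1, 1, 2, 5], [0, 0, 0, 1, 1, 1, 3]] :=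
  .split 0 2 1 17 q37 p41 (by decide +kernel)

theorem q39 : Cov 6 fA kA [[0, 2, 4, 6, 6, 9, 14], [0, 1, 5, 6, 6, 6, 7], [0, 0, 0, 1, 1, 1, 1], [0, 0, 0, 0, 1, 1, 2], [0, 0, 0, 0, 0, 1, 2], [0, 0, 0, 1, 1, 1, 3]] :=
  .split 4 5 1 1 q38 p42 (by decide +kernel)

theorem q40 : Cov 6 fA kA [[0, 1, 2, 3, 3, 3, 4], [0, 1, 5, 6, 6, 6, 7], [0, 0, 0, 1, 1, 1, 1], [0, 0, 0, 0, 1, 1, 2], [0, 0, 0, 0, 0, 1, 2], [0, 0, 0, 1, 1, 1, 3]] :=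
  .split 4 0 3 2 q1 q39 (by decide +kernel)

theorem q41 : Cov 6 fA kA [[0, 3, 15, 30, 30, 31, 37], [0, 0, 2, 6, 6, 6, 8], [0, 0, 0, 1, 1, 1, 1], [0, 0, 0, 2, 3, 3, 4], [0, 0, 0, 9, 9, 10, 13], [0, 0, 0, 4, 4, 4, 6]] :=
  .split 3 0 6 1 p44 p45 (by decide +kernel)

theorem q42 : Cov 6 fA kA [[0, 3, 15, 30, 30, 31, 37], [0, 0, 2, 6, 6, 6, 8], [0, 0, 0, 1, 1, 1, 1], [0, 0, 0, 2, 3, 3, 4], [0, 0, 0, 9, 9, 10, 13], [0, 0, 0, 1, 1, 1, 3]] :=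
  .split 5 2 1 3 q41 p46 (by decide +kernel)

theorem q43 : Cov 6 fA kA [[0, 3, 15, 30, 30, 31, 37], [0, 0, 2, 6, 6, 6, 8], [0, 0, 0, 1, 1, 1, 1], [0, 0, 0, 2, 3, 3, 4], [0, 0, 0, 1, 1, 2, 5], [0, 0, 0, 1, 1, 1, 3]] :=
  .split 4 2 1 8 q42 p47 (by decide +kernel)

theorem q44 : Cov 6 fA kA [[0, 3, 15, 30, 30, 31, 37], [0, 0, 2, 6, 6, 6, 8], [0, 0, 0, 1, 1, 1, 1], [0, 0, 0, 0, 1, 1, 2], [0, 0, 0, 1, 1, 2, 5], [0, 0, 0, 1, 1, 1, 3]] :=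
  .split 3 2 1 2 q43 p48 (by decide +kernel)

theorem q45 : Cov 6 fA kA [[0, 3, 15, 30, 30, 31, 37], [0, 0, 2, 3, 3, 3, 5], [0, 0, 0, 1, 1, 1, 1], [0, 0, 0, 0, 1, 1, 2], [0, 0, 0, 1, 1, 2, 5], [0, 0, 0, 1, 1, 1, 3]] :=
  .split 1 2 1 3 q44 p49 (by decide +kernel)

theorem q46 : Cov 6 fA kA [[0, 3, 15, 19, 19, 20, 26], [0, 0, 2, 3, 3, 3, 5], [0, 0, 0, 1, 1, 1, 1], [0, 0, 0, 0, 1, 1, 2], [0, 0, 0, 1, 1, 2, 5], [0, 0, 0, 1, 1, 1, 3]] :=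
  .split 0 2 1 11 q45 p50 (by decide +kernel)

theorem q47 : Cov 6 fA kA [[0, 1, 5, 6, 6, 6, 7], [0, 0, 2, 3, 3, 3, 5], [0, 0, 0, 1, 1, 1, 1], [0, 0, 0, 0, 1, 1, 2], [0, 0, 0, 1, 1, 2, 5], [0, 0, 0, 1, 1, 1, 3]] :=
  .split 4 0 1 3 p43 q46 (by decide +kernel)

theorem q48 : Cov 6 fA kA [[0, 1, 5, 6, 6, 6, 7], [0, 0, 2, 3, 3, 3, 5], [0, 0, 0, 1, 1, 1, 1], [0, 0, 0, 0, 1, 1, 2], [0, 0, 0, 0, 0, 1, 2], [0, 0, 0, 1, 1, 1, 3]] :=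
  .split 4 5 1 1 q47 p51 (by decide +kernel)

theorem q49 : Cov 6 fA kA [[0, 1, 5, 6, 6, 6, 7], [0, 0, 1, 1, 1, 1, 1], [0, 0, 0, 1, 1, 1, 1], [0, 0, 0, 0, 1, 1, 2], [0, 0, 0, 0, 0, 1, 2], [0, 0, 0, 1, 1, 1, 3]] :=
  .split 1 5 2 1 q48 p52 (by decide +kernel)

theorem q50 : Cov 6 fA kA [[0, 1, 2, 3, 3, 3, 4], [0, 0, 1, 1, 1, 1, 1], [0, 0, 0, 1, 1, 1, 1], [0, 0, 0, 0, 1, 1, 2], [0, 0, 0, 0, 0, 1, 2], [0, 0, 0, 1, 1, 1, 3]] :=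
  .split 1 0 3 1 q40 q49 (by decide +kernel)

theorem q51 : Cov 6 fA kA [[0, 1, 1, 2, 2, 2, 3], [0, 0, 1, 1, 1, 1, 1], [0, 0, 0, 1, 1, 1, 1], [0, 0, 0, 0, 1, 1, 2], [0, 0, 0, 0, 0, 1, 2], [0, 0, 0, 1, 1, 1, 3]] :=
  .split 1 0 1 1 p0 q50 (by decide +kernel)

theorem q52 : Cov 6 fA kA [[0, 1, 1, 2, 2, 2, 3], [0, 0, 1, 1, 1, 1, 1], [0, 0, 0, 1, 1, 1, 1], [0, 0, 0, 0, 1, 1, 2], [0, 0, 0, 0, 0, 1, 2], [0, 0, 0, 0, 0, 0, 1]] :=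
  .split 5 2 2 1 q51 p53 (by decide +kernel)

theorem q53 : Cov 6 fA kA [[0, 1, 1, 1, 1, 1, 2], [0, 0, 1, 1, 1, 1, 1], [0, 0, 0, 1, 1, 1, 1], [0, 0, 0, 0, 1, 1, 2], [0, 0, 0, 0, 0, 1, 2], [0, 0, 0, 0, 0, 0, 1]] :=
  .split 0 2 1 1 q52 p54 (by decide +kernel)

theorem q54 : Cov 6 fA kA [[0, 1, 1, 3, 4, 4, 6], [0, 0, 2, 3, 3, 3, 3], [0, 0, 0, 1, 1, 1, 1], [0, 0, 2, 3, 7, 7, 11], [0, 0, 0, 0, 0, 1, 1], [0, 0, 0, 1, 1, 2, 3]] :=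
  .split 1 0 3 1 p56 p57 (by decide +kernel)

theorem q55 : Cov 6 fA kA [[0, 1, 1, 3, 4, 4, 6], [0, 0, 2, 3, 3, 3, 3], [0, 0, 0, 1, 1, 1, 1], [0, 0, 0, 0, 1, 1, 2], [0, 0, 0, 0, 0, 1, 1], [0, 0, 0, 1, 1, 2, 3]] :=
  .split 1 3 1 4 p55 q54 (by decide +kernel)

theorem q56 : Cov 6 fA kA [[0, 1, 1, 3, 3, 3, 4], [0, 0, 2, 3, 3, 3, 3], [0, 0, 0, 1, 1, 1, 1], [0, 0, 0, 0, 1, 1, 2], [0, 0, 0, 0, 0, 1, 1], [0, 0, 0, 1, 1, 2, 3]] :=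
  .split 0 3 1 1 q55 p58 (by decide +kernel)

theorem q57 : Cov 6 fA kA [[0, 1, 1, 3, 3, 3, 4], [0, 0, 2, 3, 3, 3, 3], [0, 0, 0, 1, 1, 1, 1], [0, 0, 0, 0, 1, 1, 2], [0, 0, 0, 0, 0, 1, 1], [0, 0, 0, 0, 0, 1, 2]] :=
  .split 5 2 1 1 q56 p59 (by decide +kernel)

theorem q58 : Cov 6 fA kA [[0, 1, 3, 6, 6, 6, 7], [0, 1, 3, 5, 5, 5, 6], [0, 0, 2, 3, 4, 4, 5], [0, 0, 0, 0, 1, 1, 2], [0, 2, 6, 12, 15, 21, 26], [0, 1, 3, 6, 6, 7, 9]] :=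
  .split 4 0 1 16 p61 p62 (by decide +kernel)

theorem q59 : Cov 6 fA kA [[0, 1, 3, 6, 6, 6, 7], [0, 1, 3, 5, 5, 5, 6], [0, 0, 2, 3, 4, 4, 5], [0, 0, 0, 0, 1, 1, 2], [0, 2, 6, 12, 15, 21, 26], [0, 0, 0, 0, 0, 1, 2]] :=
  .split 5 0 1 1 q58 p63 (by decide +kernel)

theorem q60 : Cov 6 fA kA [[0, 1, 3, 6, 6, 6, 7], [0, 1, 3, 5, 5, 5, 6], [0, 0, 2, 3, 4, 4, 5], [0, 0, 0, 0, 1, 1, 2], [0, 0, 0, 0, 1, 3, 4], [0, 0, 0, 0, 0, 1, 2]] :=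
  .split 4 0 3 2 q59 p64 (by decide +kernel)

theorem q61 : Cov 6 fA kA [[0, 1, 3, 6, 6, 6, 7], [0, 1, 3, 5, 5, 5, 6], [0, 0, 2, 3, 4, 4, 5], [0, 0, 0, 0, 1, 1, 2], [0, 0, 0, 0, 0, 1, 1], [0, 0, 0, 0, 0, 1, 2]] :=
  .split 4 3 2 1 q60 p65 (by decide +kernel)

theorem q62 : Cov 6 fA kA [[0, 1, 3, 6, 6, 6, 7], [0, 1, 3, 5, 5, 5, 6], [0, 0, 2, 3, 3, 3, 3], [0, 0, 0, 0, 1, 1, 2], [0, 0, 0, 0, 0, 1, 1], [0, 0, 0, 0, 0, 1, 2]] :=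
  .split 2 3 1 1 q61 p66 (by decide +kernel)

theorem q63 : Cov 6 fA kA [[0, 1, 1, 3, 3, 3, 4], [0, 1, 3, 5, 5, 5, 6], [0, 0, 2, 3, 3, 3, 3], [0, 0, 0, 0, 1, 1, 2], [0, 0, 0, 0, 0, 1, 1], [0, 0, 0, 0, 0, 1, 2]] :=
  .split 2 0 1 1 p60 q62 (by decide +kernel)

theorem q64 : Cov 6 fA kA [[0, 1, 1, 3, 3, 3, 4], [0, 0, 1, 1, 1, 1, 1], [0, 0, 2, 3, 3, 3, 3], [0, 0, 0, 0, 1, 1, 2], [0, 0, 0, 0, 0, 1, 1], [0, 0, 0, 0, 0, 1, 2]] :=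
  .split 1 0 2 1 q63 p67 (by decide +kernel)

theorem q65 : Cov 6 fA kA [[0, 1, 1, 3, 3, 3, 4], [0, 0, 1, 1, 1, 1, 1], [0, 0, 0, 1, 1, 1, 1], [0, 0, 0, 0, 1, 1, 2], [0, 0, 0, 0, 0, 1, 1], [0, 0, 0, 0, 0, 1, 2]] :=
  .split 1 2 2 1 q57 q64 (by decide +kernel)

theorem q66 : Cov 6 fA kA [[0, 1, 1, 1, 1, 1, 2], [0, 0, 1, 1, 1, 1, 1], [0, 0, 0, 1, 1, 1, 1], [0, 0, 0, 0, 1, 1, 2], [0, 0, 0, 0, 0, 1, 1], [0, 0, 0, 0, 0, 1, 2]] :=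
  .split 0 2 1 2 q65 p68 (by decide +kernel)

theorem q67 : Cov 6 fA kA [[0, 1, 1, 1, 1, 1, 2], [0, 0, 1, 1, 1, 1, 1], [0, 0, 0, 1, 1, 1, 1], [0, 0, 0, 0, 1, 1, 2], [0, 0, 0, 0, 0, 1, 1], [0, 0, 0, 0, 0, 0, 1]] :=
  .split 4 5 1 1 q53 q66 (by decide +kernel)

theorem q68 : Cov 6 fA kA [[0, 12, 36, 60, 84, 84, 108], [0, 4, 16, 24, 32, 32, 40], [0, 0, 0, 1, 1, 1, 1], [0, 1, 1, 3, 8, 8, 10], [0, 8, 8, 21, 31, 34, 44], [0, 0, 1, 3, 5, 5, 7]] :=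
  .split 3 1 2 1 p71 p72 (by decide +kernel)

theorem q69 : Cov 6 fA kA [[0, 4, 4, 12, 20, 20, 28], [0, 4, 16, 24, 32, 32, 40], [0, 0, 0, 1, 1, 1, 1], [0, 1, 1, 3, 8, 8, 10], [0, 8, 8, 21, 31, 34, 44], [0, 0, 1, 3, 5, 5, 7]] :=
  .split 0 1 1 2 q68 p73 (by decide +kernel)

theorem q70 : Cov 6 fA kA [[0, 4, 4, 12, 20, 20, 28], [0, 4, 16, 24, 32, 32, 40], [0, 0, 0, 1, 1, 1, 1], [0, 1, 1, 3, 8, 8, 10], [0, 2, 2, 5, 5, 6, 8], [0, 0, 1, 3, 5, 5, 7]] :=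
  .split 4 3 3 2 q69 p74 (by decide +kernel)

theorem q71 : Cov 6 fA kA [[0, 4, 4, 12, 20, 20, 28], [0, 1, 5, 7, 8, 8, 10], [0, 0, 0, 1, 1, 1, 1], [0, 1, 1, 3, 8, 8, 10], [0, 2, 2, 5, 5, 6, 8], [0, 0, 1, 3, 5, 5, 7]] :=
  .split 1 3 3 1 q70 p75 (by decide +kernel)

theorem q72 : Cov 6 fA kA [[0, 1, 1, 3, 4, 4, 6], [0, 1, 5, 7, 8, 8, 10], [0, 0, 0, 1, 1, 1, 1], [0, 1, 1, 3, 8, 8, 10], [0, 2, 2, 5, 5, 6, 8], [0, 0, 1, 3, 5, 5, 7]] :=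
  .split 0 3 3 1 q71 p76 (by decide +kernel)

theorem q73 : Cov 6 fA kA [[0, 1, 1, 3, 8, 8, 10], [0, 1, 5, 7, 8, 8, 10], [0, 0, 0, 1, 1, 1, 1], [0, 2, 2, 5, 12, 13, 15], [0, 2, 2, 5, 5, 6, 8], [0, 0, 1, 3, 5, 5, 7]] :=
  .split 0 5 1 1 p77 p78 (by decide +kernel)

theorem q74 : Cov 6 fA kA [[0, 1, 1, 3, 8, 8, 10], [0, 1, 5, 7, 8, 8, 10], [0, 0, 0, 1, 1, 1, 1], [0, 0, 0, 0, 1, 1, 1], [0, 2, 2, 5, 5, 6, 8], [0, 0, 1, 3, 5, 5, 7]] :=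
  .split 3 4 7 1 q73 p79 (by decide +kernel)

theorem q75 : Cov 6 fA kA [[0, 1, 1, 3, 4, 4, 6], [0, 1, 5, 7, 8, 8, 10], [0, 0, 0, 1, 1, 1, 1], [0, 0, 0, 0, 1, 1, 1], [0, 2, 2, 5, 5, 6, 8], [0, 0, 1, 3, 5, 5, 7]] :=
  .split 3 0 4 1 q72 q74 (by decide +kernel)

theorem q76 : Cov 6 fA kA [[0, 1, 5, 7, 8, 8, 10], [0, 2, 9, 12, 12, 13, 15], [0, 0, 0, 1, 1, 1, 1], [0, 0, 0, 0, 1, 1, 1], [0, 2, 2, 5, 5, 6, 8], [0, 0, 1, 3, 5, 5, 7]] :=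
  .split 3 4 7 1 p80 p81 (by decide +kernel)

theorem q77 : Cov 6 fA kA [[0, 1, 5, 7, 8, 8, 10], [0, 0, 1, 1, 1, 1, 1], [0, 0, 0, 1, 1, 1, 1], [0, 0, 0, 0, 1, 1, 1], [0, 2, 2, 5, 5, 6, 8], [0, 0, 1, 3, 5, 5, 7]] :=
  .split 1 4 7 1 q76 p82 (by decide +kernel)

theorem q78 : Cov 6 fA kA [[0, 1, 1, 3, 4, 4, 6], [0, 0, 1, 1, 1, 1, 1], [0, 0, 0, 1, 1, 1, 1], [0, 0, 0, 0, 1, 1, 1], [0, 2, 2, 5, 5, 6, 8], [0, 0, 1, 3, 5, 5, 7]] :=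
  .split 1 0 4 1 q75 q77 (by decide +kernel)

theorem q79 : Cov 6 fA kA [[0, 1, 1, 3, 4, 4, 6], [0, 0, 1, 1, 1, 1, 1], [0, 0, 0, 1, 1, 1, 1], [0, 0, 0, 0, 1, 1, 1], [0, 2, 2, 5, 5, 6, 8], [0, 0, 1, 1, 3, 3, 5]] :=
  .split 5 2 1 2 q78 p83 (by decide +kernel)

theorem q80 : Cov 6 fA kA [[0, 1, 1, 3, 4, 4, 6], [0, 0, 1, 1, 1, 1, 1], [0, 0, 0, 1, 1, 1, 1], [0, 0, 0, 0, 1, 1, 1], [0, 2, 2, 2, 2, 3, 5], [0, 0, 1, 1, 3, 3, 5]] :=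
  .split 4 2 1 3 q79 p84 (by decide +kernel)

theorem q81 : Cov 6 fA kA [[0, 1, 1, 1, 2, 2, 4], [0, 0, 1, 1, 1, 1, 1], [0, 0, 0, 1, 1, 1, 1], [0, 0, 0, 0, 1, 1, 1], [0, 2, 2, 2, 2, 3, 5], [0, 0, 1, 1, 3, 3, 5]] :=
  .split 0 2 1 2 q80 p85 (by decide +kernel)

theorem q82 : Cov 6 fA kA [[0, 1, 1, 1, 2, 2, 4], [0, 0, 1, 1, 1, 1, 1], [0, 0, 0, 1, 1, 1, 1], [0, 0, 0, 0, 1, 1, 1], [0, 2, 2, 2, 2, 3, 5], [0, 0, 0, 0, 1, 1, 2]] :=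
  .split 1 5 1 2 p70 q81 (by decide +kernel)

theorem q83 : Cov 6 fA kA [[0, 1, 1, 1, 1, 1, 2], [0, 0, 1, 1, 1, 1, 1], [0, 0, 0, 1, 1, 1, 1], [0, 0, 0, 0, 1, 1, 1], [0, 2, 2, 2, 2, 3, 5], [0, 0, 0, 0, 1, 1, 2]] :=
  .split 0 5 1 1 q82 p86 (by decide +kernel)

theorem q84 : Cov 6 fA kA [[0, 1, 1, 1, 1, 1, 2], [0, 0, 1, 1, 1, 1, 1], [0, 0, 0, 1, 1, 1, 1], [0, 0, 0, 0, 1, 1, 1], [0, 0, 0, 0, 0, 1, 1], [0, 0, 0, 0, 1, 1, 2]] :=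
  .split 0 4 2 1 p69 q83 (by decide +kernel)

theorem q85 : Cov 6 fA kA [[0, 1, 1, 1, 1, 1, 2], [0, 0, 1, 1, 1, 1, 1], [0, 0, 0, 1, 1, 1, 1], [0, 0, 0, 0, 1, 1, 1], [0, 0, 0, 0, 0, 1, 1], [0, 0, 0, 0, 0, 0, 1]] :=
  .split 3 5 1 1 q67 q84 (by decide +kernel)

theorem q86 : Cov 6 fA kA [[0, 2, 2, 3, 3, 3, 4], [0, 0, 1, 1, 1, 1, 1], [0, 1, 1, 2, 2, 2, 3], [0, 0, 0, 0, 1, 1, 1], [0, 0, 0, 1, 1, 2, 2], [0, 1, 1, 1, 2, 2, 3]] :=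
  .split 3 2 1 1 p89 p90 (by decide +kernel)

theorem q87 : Cov 6 fA kA [[0, 1, 1, 1, 1, 1, 1], [0, 0, 1, 1, 1, 1, 1], [0, 1, 1, 2, 2, 2, 3], [0, 0, 0, 0, 1, 1, 1], [0, 0, 0, 1, 1, 2, 2], [0, 1, 1, 1, 2, 2, 3]] :=
  .split 0 2 1 1 q86 p91 (by decide +kernel)

theorem q88 : Cov 6 fA kA [[0, 1, 1, 1, 1, 1, 1], [0, 0, 1, 1, 1, 1, 1], [0, 1, 1, 2, 2, 2, 3], [0, 0, 0, 0, 1, 1, 1], [0, 0, 0, 1, 1, 2, 2], [0, 1, 1, 1, 1, 1, 2]] :=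
  .split 3 5 1 1 p88 q87 (by decide +kernel)

theorem q89 : Cov 6 fA kA [[0, 10, 20, 26, 28, 28, 34], [0, 1, 3, 4, 4, 4, 5], [0, 3, 3, 10, 12, 12, 15], [0, 1, 1, 2, 4, 4, 5], [0, 2, 4, 7, 7, 8, 10], [0, 1, 1, 2, 2, 2, 3]] :=
  .split 2 1 1 3 p93 p94 (by decide +kernel)

theorem q90 : Cov 6 fA kA [[0, 30, 40, 59, 67, 72, 86], [0, 10, 20, 26, 28, 28, 34], [0, 3, 3, 10, 12, 12, 15], [0, 1, 1, 2, 4, 4, 5], [0, 2, 4, 7, 7, 8, 10], [0, 1, 1, 2, 2, 2, 3]] :=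
  .split 2 4 4 3 p95 p96 (by decide +kernel)

theorem q91 : Cov 6 fA kA [[0, 5, 5, 6, 8, 8, 9], [0, 10, 20, 26, 28, 28, 34], [0, 3, 3, 10, 12, 12, 15], [0, 1, 1, 2, 4, 4, 5], [0, 2, 4, 7, 7, 8, 10], [0, 1, 1, 2, 2, 2, 3]] :=
  .split 0 4 4 5 q90 p97 (by decide +kernel)

theorem q92 : Cov 6 fA kA [[0, 5, 5, 6, 8, 8, 9], [0, 1, 3, 4, 4, 4, 5], [0, 3, 3, 10, 12, 12, 15], [0, 1, 1, 2, 4, 4, 5], [0, 2, 4, 7, 7, 8, 10], [0, 1, 1, 2, 2, 2, 3]] :=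
  .split 0 1 1 5 q89 q91 (by decide +kernel)

theorem q93 : Cov 6 fA kA [[0, 10, 20, 26, 28, 28, 34], [0, 1, 3, 4, 4, 4, 5], [0, 26, 52, 86, 88, 92, 114], [0, 6, 12, 22, 24, 24, 30], [0, 18, 36, 54, 56, 60, 74], [0, 1, 1, 2, 2, 2, 3]] :=
  .split 5 0 4 1 p98 p99 (by decide +kernel)

theorem q94 : Cov 6 fA kA [[0, 10, 20, 26, 28, 28, 34], [0, 1, 3, 4, 4, 4, 5], [0, 26, 52, 86, 88, 92, 114], [0, 6, 12, 22, 24, 24, 30], [0, 2, 4, 7, 7, 8, 10], [0, 1, 1, 2, 2, 2, 3]] :=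
  .split 4 0 4 1 q93 p100 (by decide +kernel)

theorem q95 : Cov 6 fA kA [[0, 10, 20, 26, 28, 28, 34], [0, 1, 3, 4, 4, 4, 5], [0, 4, 8, 15, 15, 16, 20], [0, 6, 12, 22, 24, 24, 30], [0, 2, 4, 7, 7, 8, 10], [0, 1, 1, 2, 2, 2, 3]] :=
  .split 2 0 4 1 q94 p101 (by decide +kernel)

theorem q96 : Cov 6 fA kA [[0, 10, 20, 26, 28, 28, 34], [0, 1, 3, 4, 4, 4, 5], [0, 4, 8, 15, 15, 16, 20], [0, 3, 3, 10, 12, 12, 15], [0, 2, 4, 7, 7, 8, 10], [0, 1, 1, 2, 2, 2, 3]] :=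
  .split 3 1 1 3 q95 p102 (by decide +kernel)

theorem q97 : Cov 6 fA kA [[0, 10, 20, 26, 28, 28, 34], [0, 1, 3, 4, 4, 4, 5], [0, 3, 5, 11, 11, 12, 15], [0, 3, 3, 10, 12, 12, 15], [0, 2, 4, 7, 7, 8, 10], [0, 1, 1, 2, 2, 2, 3]] :=
  .split 2 1 1 1 q96 p103 (by decide +kernel)

theorem q98 : Cov 6 fA kA [[0, 10, 10, 16, 18, 18, 24], [0, 10, 20, 26, 28, 28, 34], [0, 4, 6, 13, 13, 14, 18], [0, 6, 6, 16, 18, 18, 24], [0, 2, 4, 7, 7, 8, 10], [0, 1, 1, 2, 2, 2, 3]] :=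
  .split 2 0 2 1 p104 p105 (by decide +kernel)

theorem q99 : Cov 6 fA kA [[0, 10, 10, 16, 18, 18, 24], [0, 10, 20, 26, 28, 28, 34], [0, 4, 6, 13, 13, 14, 18], [0, 3, 3, 10, 12, 12, 15], [0, 2, 4, 7, 7, 8, 10], [0, 1, 1, 2, 2, 2, 3]] :=
  .split 3 5 1 3 q98 p106 (by decide +kernel)

theorem q100 : Cov 6 fA kA [[0, 10, 10, 16, 18, 18, 24], [0, 10, 20, 26, 28, 28, 34], [0, 3, 5, 11, 11, 12, 15], [0, 3, 3, 10, 12, 12, 15], [0, 2, 4, 7, 7, 8, 10], [0, 1, 1, 2, 2, 2, 3]] :=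
  .split 2 5 1 1 q99 p107 (by decide +kernel)

theorem q101 : Cov 6 fA kA [[0, 5, 5, 6, 8, 8, 9], [0, 10, 20, 26, 28, 28, 34], [0, 3, 5, 11, 11, 12, 15], [0, 3, 3, 10, 12, 12, 15], [0, 2, 4, 7, 7, 8, 10], [0, 1, 1, 2, 2, 2, 3]] :=
  .split 0 5 1 5 q100 p108 (by decide +kernel)

theorem q102 : Cov 6 fA kA [[0, 5, 5, 6, 8, 8, 9], [0, 1, 3, 4, 4, 4, 5], [0, 3, 5, 11, 11, 12, 15], [0, 3, 3, 10, 12, 12, 15], [0, 2, 4, 7, 7, 8, 10], [0, 1, 1, 2, 2, 2, 3]] :=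
  .split 0 1 1 5 q97 q101 (by decide +kernel)

theorem q103 : Cov 6 fA kA [[0, 5, 5, 6, 8, 8, 9], [0, 1, 3, 4, 4, 4, 5], [0, 1, 1, 4, 4, 4, 5], [0, 3, 3, 10, 12, 12, 15], [0, 2, 4, 7, 7, 8, 10], [0, 1, 1, 2, 2, 2, 3]] :=
  .split 2 4 1 1 q102 p109 (by decide +kernel)

theorem q104 : Cov 6 fA kA [[0, 5, 5, 6, 8, 8, 9], [0, 1, 3, 4, 4, 4, 5], [0, 1, 1, 4, 4, 4, 5], [0, 1, 1, 2, 4, 4, 5], [0, 2, 4, 7, 7, 8, 10], [0, 1, 1, 2, 2, 2, 3]] :=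
  .split 2 3 2 1 q92 q103 (by decide +kernel)

theorem q105 : Cov 6 fA kA [[0, 1, 1, 1, 1, 1, 1], [0, 1, 3, 4, 4, 4, 5], [0, 1, 1, 4, 4, 4, 5], [0, 1, 1, 2, 4, 4, 5], [0, 2, 4, 7, 7, 8, 10], [0, 1, 1, 2, 2, 2, 3]] :=
  .split 0 3 4 1 q104 p110 (by decide +kernel)

theorem q106 : Cov 6 fA kA [[0, 1, 1, 1, 1, 1, 1], [0, 1, 3, 4, 4, 4, 5], [0, 1, 1, 4, 4, 4, 5], [0, 1, 1, 2, 4, 4, 5], [0, 0, 2, 3, 3, 4, 4], [0, 1, 1, 2, 2, 2, 3]] :=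
  .split 4 5 1 2 q105 p111 (by decide +kernel)

theorem q107 : Cov 6 fA kA [[0, 1, 1, 1, 1, 1, 1], [0, 1, 3, 4, 4, 4, 5], [0, 1, 1, 4, 4, 4, 5], [0, 0, 0, 0, 1, 1, 1], [0, 0, 2, 3, 3, 4, 4], [0, 1, 1, 2, 2, 2, 3]] :=
  .split 3 5 2 1 q106 p112 (by decide +kernel)

theorem q108 : Cov 6 fA kA [[0, 1, 1, 1, 1, 1, 1], [0, 1, 3, 4, 4, 4, 5], [0, 0, 0, 1, 1, 1, 1], [0, 0, 0, 0, 1, 1, 1], [0, 0, 2, 3, 3, 4, 4], [0, 1, 1, 2, 2, 2, 3]] :=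
  .split 2 5 2 1 q107 p113 (by decide +kernel)

theorem q109 : Cov 6 fA kA [[0, 1, 1, 1, 1, 1, 1], [0, 0, 1, 1, 1, 1, 1], [0, 0, 0, 1, 1, 1, 1], [0, 0, 0, 0, 1, 1, 1], [0, 0, 2, 3, 3, 4, 4], [0, 1, 1, 2, 2, 2, 3]] :=
  .split 1 5 2 1 q108 p114 (by decide +kernel)

theorem q110 : Cov 6 fA kA [[0, 1, 1, 1, 1, 1, 1], [0, 0, 1, 1, 1, 1, 1], [0, 0, 0, 1, 1, 1, 1], [0, 0, 0, 0, 1, 1, 1], [0, 0, 0, 1, 1, 2, 2], [0, 1, 1, 2, 2, 2, 3]] :=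
  .split 1 4 2 1 p92 q109 (by decide +kernel)

theorem q111 : Cov 6 fA kA [[0, 1, 1, 1, 1, 1, 1], [0, 0, 1, 1, 1, 1, 1], [0, 0, 0, 1, 1, 1, 1], [0, 0, 0, 0, 1, 1, 1], [0, 0, 0, 1, 1, 2, 2], [0, 1, 1, 1, 1, 1, 2]] :=
  .split 2 5 1 1 q88 q110 (by decide +kernel)

theorem q112 : Cov 6 fA kA [[0, 1, 1, 1, 1, 1, 1], [0, 0, 1, 1, 1, 1, 1], [0, 0, 0, 1, 1, 1, 1], [0, 0, 0, 0, 1, 1, 1], [0, 0, 0, 0, 0, 1, 1], [0, 1, 1, 1, 1, 1, 2]] :=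
  .split 2 4 1 1 p87 q111 (by decide +kernel)

theorem q113 : Cov 6 fA kA (rays0 6 62) :=
  .split 0 5 1 1 q85 q112 (by decide +kernel)

end Pool.Agent.P.MP_754fe6_co.D6
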