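import Mathlib
import Pool.Agent.P.MP_754fe6_co.Defs3

namespace Pool.Agent.P.MP_754fe6_co

/-- the maximum of the four additional terms that occur for `r = 6` -/
def extraSix (n : ℕ) (d : ℕ → ℕ) : ℕ :=
  max
    (max (if 2 ≤ min (d 2) (d 3) then n ^ 4 * min (d 2) (d 3) ^ 2 else 0)
      (if 2 ≤ d 3 then n ^ 3 * (d 1 * d 2 * d 3) * d 3 ^ 2 else 0))
    (max (if 2 ≤ d 2 then n ^ 3 * (d 1 * d 2 * d 3 * d 4) * (d 2 * d 3) * d 2 else 0)
      (if 2 ≤ d 3 then n ^ 3 * min (d 1 * d 2 * d 3) (d 2 * d 3 * d 4) *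
        min (d 1 * d 2 * d 3) (d 3 * d 4) * d 3 else 0))

end Pool.Agent.P.MP_754fe6_co
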