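import Mathlib
import Pool.Agent.P.MP_754fe6_co.Triv

namespace Pool.Agent.P.MP_754fe6_co

open Finset

/-- a product of codes, one for each layer -/
theorem lower_layers {m n L : ℕ} {d : ℕ → ℕ} (hd : ∀ t, 1 ≤ d t) (ρ q Q : Fin L → ℕ)
    (val : (l : Fin L) → (Fin (ρ l) → Fin (q l)) → Fin (m + 1) → Fin (Q l))
    (inj : ∀ l, Function.Injective (val l))
    (cl : Fin L → Finset (Fin (m + 1)) → Fin (m + 1) → Prop)
    (det : ∀ l S y, cl l S y → ∀ a a', (∀ s ∈ S, val l a s = val l a' s) → val l a y = val l a' y)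
    (hn : (m + 1) * ∏ l, Q l ≤ n)
    (hB : ∀ f : ℕ → Fin (m + 1), Set.InjOn f (range (m + 1) : Finset ℕ) →
      ∃ j i, ∃ A : Finset (Fin L), 1 ≤ j ∧ j ≤ i ∧ i ≤ m ∧ 2 ≤ win d j i ∧
        (∀ l, l ∉ A → cl l ((range j).image f) (f i)) ∧
        (∏ l ∈ A, Q l ≤ 1 ∨ (∏ l ∈ A, Q l) * (m + 1) ^ 3 < win d j i)) :
    ∏ l, q l ^ ρ l ≤ exStar n (degs m d) := by
  classical
  let E : ((l : Fin L) → Fin (ρ l) → Fin (q l)) → Fin (m + 1) →
      Fin (m + 1) × ((l : Fin L) → Fin (Q l)) := fun a x => (x, fun l => val l (a l) x)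
  have Einj : Function.Injective E := by
    intro a a' h
    funext l
    refine inj l (funext fun x => ?_)
    exact congrFun (congrArg Prod.snd (congrFun h x)) l
  have hc : ∀ (S : Finset (Fin (m + 1))) (y : Fin (m + 1)) (A : Finset (Fin L)),
      (∀ l, l ∉ A → cl l S y) → cost (univ.image E) S y ≤ ∏ l ∈ A, Q l := by
    intro S y A hA
    refine cost_le_of fun e he => ?_
    obtain ⟨a, -, rfl⟩ := mem_image.1 he
    have := card_le_card_of_injOn (s := fib (univ.image E) S y (E a))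
      (t := (univ : Finset ((l : A) → Fin (Q l)))) (fun v l => v.2 l) (fun _ _ => by simp) (by
        intro v hv v' hv' h
        obtain ⟨e1, h1, h2, rfl⟩ := mem_fib.1 (mem_coe.1 hv)
        obtain ⟨e2, h3, h4, rfl⟩ := mem_fib.1 (mem_coe.1 hv')
        obtain ⟨a1, -, rfl⟩ := mem_image.1 h1
        obtain ⟨a2, -, rfl⟩ := mem_image.1 h3
        refine Prod.ext rfl (funext fun l => ?_)
        by_cases hl : l ∈ A
        · exact congrFun h ⟨l, hl⟩
        · refine det l S y (hA l hl) _ _ fun s hs => ?_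
          exact congrFun (congrArg Prod.snd ((h2 s hs).trans (h4 s hs).symm)) l)
    rw [card_univ, Fintype.card_pi] at this
    simp only [Fintype.card_fin] at this
    rwa [prod_coe_sort A Q] at this
  have main := lower_reduction (V := Fin (m + 1) × ((l : Fin L) → Fin (Q l))) (κ := Fin (m + 1))
    (m := m) (n := n) (d := d) (by simpa [Fintype.card_pi] using hn) (by simp) hd Prod.fst
    (univ.image E) (by
      intro e he x
      obtain ⟨a, -, rfl⟩ := mem_image.1 he
      rfl) (by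
      intro f hf
      obtain ⟨j, i, A, a1, a2, a3, a4, a5, a6⟩ := hB f hf
      refine ⟨j, i, a1, a2, a3, a4, ?_⟩
      have := hc _ _ A a5
      have := Nat.mul_le_mul_right ((m + 1) ^ 3) this
      omega)
  rw [card_image_of_injective _ Einj] at main
  simpa [Fintype.card_pi] using main

/-- the product of the alphabet sizes of the first `k` layers -/
def layP (K c : ℕ) (T : ℕ → ℕ) : ℕ → ℕ
  | 0 => 1
  | k + 1 => layP K c T k * ((max 1 ((T k - 1) / (K * c * layP K c T k)) - 1) * c + 1)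

def layq (K c : ℕ) (T : ℕ → ℕ) (k : ℕ) : ℕ := max 1 ((T k - 1) / (K * c * layP K c T k))

theorem layP_pos (K c : ℕ) (T : ℕ → ℕ) : ∀ k, 1 ≤ layP K c T k
  | 0 => le_rfl
  | k + 1 => Nat.mul_pos (layP_pos K c T k) (by omega)

theorem layP_succ (K c : ℕ) (T : ℕ → ℕ) (k : ℕ) :
    layP K c T (k + 1) = layP K c T k * ((layq K c T k - 1) * c + 1) := rfl

theorem layP_prod (K c : ℕ) (T : ℕ → ℕ) :
    ∀ k, layP K c T k = ∏ l ∈ range k, ((layq K c T l - 1) * c + 1)
  | 0 => rfl
  | k + 1 => by rw [prod_range_succ, ← layP_prod K c T k, layP_succ]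

theorem layQ_le {c q : ℕ} (hc : 1 ≤ c) (hq : 1 ≤ q) : (q - 1) * c + 1 ≤ q * c := by
  obtain ⟨q, rfl⟩ : ∃ q', q = q' + 1 := ⟨q - 1, by omega⟩
  rw [add_mul]
  simp only [add_tsub_cancel_right]
  omega

theorem layP_lt {K c : ℕ} (hK : 1 ≤ K) (hc : 1 ≤ c) {T : ℕ → ℕ} : ∀ k,
    (∀ l, l < k → T l ≤ T (l + 1)) →
    layP K c T (k + 1) ≤ 1 ∨ layP K c T (k + 1) * K < T k := by
  intro k
  induction k using Nat.strong_induction_on with
  | _ k ih =>
    intro hT
    have p := layP_pos K c T k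
    rcases (aux_max (a := T k) (K := K * c * layP K c T k) (Nat.mul_pos (Nat.mul_pos hK hc) p)).2 with h | h
    · have e : layP K c T (k + 1) = layP K c T k := by
        rw [layP_succ, show layq K c T k - 1 = 0 by unfold layq; omega]
        simp
      rw [e]
      cases k with
      | zero => exact Or.inl le_rfl
      | succ k =>
        have := ih k (by omega) fun l hl => hT l (by omega)
        have := hT k (by omega)
        omega
    · right
      refine lt_of_le_of_lt ?_ h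
      have := layQ_le (q := layq K c T k) hc (le_max_left _ _)
      rw [layP_succ]
      calc layP K c T k * ((layq K c T k - 1) * c + 1) * K
          ≤ layP K c T k * (layq K c T k * c) * K := by gcongr
        _ = _ := by unfold layq; ring

theorem layP_le {K c : ℕ} (hc : 1 ≤ c) (T : ℕ → ℕ) :
    ∀ k, layP K c T k ≤ c ^ k * ∏ l ∈ range k, layq K c T l
  | 0 => by simp [layP]
  | k + 1 => by
    have h1 := layP_le (K := K) hc T k
    have h2 := layQ_le (q := layq K c T k) hc (le_max_left _ _)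
    rw [layP_succ, prod_range_succ]
    calc _ ≤ (c ^ k * ∏ l ∈ range k, layq K c T l) * (layq K c T k * c) := by gcongr
      _ = _ := by ring

theorem le_layq {K c : ℕ} (hK : 1 ≤ K) (hc : 1 ≤ c) (T : ℕ → ℕ) {k L : ℕ} (hk : k < L) :
    T k ≤ 2 * K * c ^ L * ∏ l ∈ range (k + 1), layq K c T l := by
  have p := layP_pos K c T k
  have h := (aux_max (a := T k) (K := K * c * layP K c T k) (Nat.mul_pos (Nat.mul_pos hK hc) p)).1
  have h1 := layP_le (K := K) hc T k
  have h2 : c ^ (k + 1) ≤ c ^ L := Nat.pow_le_pow_right hc hk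
  rw [prod_range_succ]
  calc T k ≤ 2 * (K * c * layP K c T k) * layq K c T k := h
    _ ≤ 2 * (K * c * (c ^ k * ∏ l ∈ range k, layq K c T l)) * layq K c T k := by gcongr
    _ = 2 * K * c ^ (k + 1) * ((∏ l ∈ range k, layq K c T l) * layq K c T k) := by ring
    _ ≤ _ := by gcongr

theorem tele (q ρ : ℕ → ℕ) : ∀ L, (∀ k, k < L → ρ (k + 1) ≤ ρ k) →
    (∏ k ∈ range L, (∏ l ∈ range (k + 1), q l) ^ (ρ k - ρ (k + 1))) *
      (∏ l ∈ range L, q l) ^ ρ L = ∏ k ∈ range L, q k ^ ρ k
  | 0, _ => by simp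
  | L + 1, h => by
    rw [prod_range_succ _ L, mul_assoc, ← pow_add, Nat.sub_add_cancel (h L (by omega)),
      prod_range_succ _ L, mul_pow, ← mul_assoc, tele q ρ L fun k hk => h k (by omega),
      prod_range_succ]

theorem tele_sum (ρ : ℕ → ℕ) : ∀ L, (∀ k, k < L → ρ (k + 1) ≤ ρ k) →
    ∑ k ∈ range L, (ρ k - ρ (k + 1)) + ρ L = ρ 0
  | 0, _ => by simp
  | L + 1, h => by
    have := tele_sum ρ L fun k hk => h k (by omega)
    have := h L (by omega)
    rw [sum_range_succ]
    omega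

/-- layers given by integer matrices `M k`, with thresholds `T k` -/
theorem lower_sigma {m n L c : ℕ} {d : ℕ → ℕ} (hd : ∀ t, 1 ≤ d t) (hmn : m + 1 ≤ n) (hc : 1 ≤ c)
    (ρ T : ℕ → ℕ) (M : ℕ → ℕ → ℕ → ℕ) (hρ : ∀ k, k < L + 1 → ρ (k + 1) ≤ ρ k) (hL : ρ (L + 1) = 0)
    (hT : ∀ l, l < L → T l ≤ T (l + 1)) (hTn : T L ≤ n) (hT2 : 2 ≤ T 0)
    (hM : ∀ k, k < L + 1 → ∀ x, x < m + 1 → ∑ t ∈ range (ρ k), M k x t ≤ c)
    (inj : ∀ k, k < L + 1 → ∀ a : ℕ → ℤ, (∀ x, x < m + 1 →
      ∑ t ∈ range (ρ k), (M k x t : ℤ) * a t = 0) → ∀ t, t < ρ k → a t = 0)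
    (hB : ∀ f : ℕ → ℕ, (∀ t, t < m + 1 → f t < m + 1) →
      (∀ i, i < m + 1 → ∀ t, t < i → f t ≠ f i) →
      ∃ j i k, 1 ≤ j ∧ j ≤ i ∧ i ≤ m ∧ k < L + 1 ∧ T k ≤ win d j i ∧
        ∀ l, k < l → l < L + 1 → ∀ a : ℕ → ℤ, (∀ s, s < j →
          ∑ t ∈ range (ρ l), (M l (f s) t : ℤ) * a t = 0) →
          ∑ t ∈ range (ρ l), (M l (f i) t : ℤ) * a t = 0) :
    ∏ k ∈ range (L + 1), T k ^ (ρ k - ρ (k + 1)) ≤
      (2 * (m + 1) ^ 3 * c ^ (L + 1)) ^ ρ 0 * exStar n (degs m d) := by
  classical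
  set K := (m + 1) ^ 3 with hK
  have K1 : m + 1 ≤ K := Nat.le_self_pow (by omega) _
  have T0 : ∀ k, k < L + 1 → T 0 ≤ T k := by
    intro k
    induction k with
    | zero => exact fun _ => le_rfl
    | succ k ih => exact fun h => (ih (by omega)).trans (hT k (by omega))
  have bd : ∀ (l : Fin (L + 1)) (a : Fin (ρ l) → Fin (layq K c T l)) (x : Fin (m + 1)),
      ∑ t : Fin (ρ l), M l x t * a t < (layq K c T l - 1) * c + 1 := by
    intro l a x
    have h1 : ∑ t : Fin (ρ l), M l x t * a t ≤ ∑ t : Fin (ρ l), M l x t * (layq K c T l - 1) :=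
      sum_le_sum fun t _ => Nat.mul_le_mul_left _ (by have := (a t).2; omega)
    rw [← sum_mul, Fin.sum_univ_eq_sum_range (fun t => M l x t)] at h1
    have := Nat.mul_le_mul_right (layq K c T l - 1) (hM l l.2 x x.2)
    rw [mul_comm c] at this
    omega
  let df : ∀ l : Fin (L + 1), (Fin (ρ l) → Fin (layq K c T l)) →
      (Fin (ρ l) → Fin (layq K c T l)) → ℕ → ℤ := fun l a a' t =>
    if h : t < ρ l then ((a ⟨t, h⟩ : ℕ) : ℤ) - ((a' ⟨t, h⟩ : ℕ) : ℤ) else 0
  have key : ∀ (l : Fin (L + 1)) (a a' : Fin (ρ l) → Fin (layq K c T l)) (x : ℕ),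
      ∑ t ∈ range (ρ l), (M l x t : ℤ) * df l a a' t = 0 ↔
        ∑ t : Fin (ρ l), M l x t * a t = ∑ t : Fin (ρ l), M l x t * a' t := by
    intro l a a' x
    rw [← Fin.sum_univ_eq_sum_range (fun t => (M l x t : ℤ) * df l a a' t), ← Nat.cast_inj (R := ℤ)]
    push_cast
    rw [← sub_eq_zero (a := ∑ t : Fin (ρ l), (M l x t : ℤ) * ((a t : ℕ) : ℤ)), ← sum_sub_distrib]
    simp only [df, Fin.is_lt, dite_true, mul_sub]
  have main := lower_layers (m := m) (n := n) (L := L + 1) hd (fun l => ρ l)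
    (fun l => layq K c T l) (fun l => (layq K c T l - 1) * c + 1)
    (fun l a x => ⟨∑ t : Fin (ρ l), M l x t * a t, bd l a x⟩)
    (fun l a a' h => by
      funext t
      have := inj l l.2 (df l a a') (fun x hx => (key l a a' x).2
        (congrArg Fin.val (congrFun h ⟨x, hx⟩))) t t.2
      simp only [df, Fin.is_lt, dite_true, sub_eq_zero, Nat.cast_inj] at this
      exact Fin.ext this)
    (fun l S y => ∀ a : ℕ → ℤ, (∀ s ∈ S, ∑ t ∈ range (ρ l), (M l s t : ℤ) * a t = 0) →
      ∑ t ∈ range (ρ l), (M l y t : ℤ) * a t = 0)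
    (fun l S y h a a' h2 => Fin.ext ((key l a a' y).1 (h _ fun s hs =>
      (key l a a' s).2 (congrArg Fin.val (h2 s hs)))))
    (by
      rw [Fin.prod_univ_eq_prod_range (fun l => (layq K c T l - 1) * c + 1), ← layP_prod]
      rcases layP_lt (K := K) (by omega) hc L hT with h | h
      · exact (Nat.mul_le_mul_left _ h).trans (by omega)
      · have := Nat.mul_le_mul_left (layP K c T (L + 1)) K1
        rw [mul_comm]
        omega)
    (by
      intro f hf
      obtain ⟨j, i, k, a1, a2, a3, a4, a5, a6⟩ := hB (fun t => f t) (fun t _ => (f t).2)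
        fun i hi t ht h => by
          have := hf (show t ∈ (range (m + 1) : Finset ℕ) by simp; omega)
            (show i ∈ (range (m + 1) : Finset ℕ) by simp; omega) (Fin.ext h)
          omega
      refine ⟨j, i, univ.filter fun l : Fin (L + 1) => (l : ℕ) < k + 1, a1, a2, a3,
        hT2.trans ((T0 k a4).trans a5), fun l hl a ha => ?_, ?_⟩
      · refine a6 l (by simpa using hl) l.2 a fun s hs => ha _ ?_
        exact mem_image_of_mem _ (mem_range.2 hs)
      · have e : ∏ l ∈ (univ : Finset (Fin (L + 1))).filter (fun l : Fin (L + 1) => (l : ℕ) < k + 1),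
            ((layq K c T l - 1) * c + 1) = layP K c T (k + 1) := by
          rw [layP_prod, prod_filter,
            Fin.prod_univ_eq_prod_range (fun l => if l < k + 1 then (layq K c T l - 1) * c + 1 else 1),
            ← prod_filter]
          congr 1
          ext l
          simp only [mem_filter, mem_range]
          omega
        rw [e, ← hK]
        have := layP_lt (K := K) (by omega) hc k fun l hl => hT l (by omega)
        omega)
  rw [Fin.prod_univ_eq_prod_range (fun l => layq K c T l ^ ρ l), ← tele _ ρ _ hρ, hL, pow_zero,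
    mul_one] at main
  refine le_trans ?_ (Nat.mul_le_mul_left _ main)
  rw [← tele_sum ρ _ hρ, hL, add_zero, ← prod_pow_eq_pow_sum, ← prod_mul_distrib]
  refine prod_le_prod' fun k hk => ?_
  rw [← mul_pow]
  exact Nat.pow_le_pow_left (le_layq (by omega) hc T (mem_range.1 hk)) _

end Pool.Agent.P.MP_754fe6_co
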