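import Mathlib
import Pool.Agent.P.MP_754fe6_co.Layer

namespace Pool.Agent.P.MP_754fe6_co

open Finset

/-- all sequences of distinct elements below `r` that extend `P` by `n` elements pass `k` -/
def allSeq (r : ℕ) (k : List ℕ → Bool) : ℕ → List ℕ → Bool
  | 0, P => k P
  | n + 1, P => (List.range r).all fun x => P.contains x || allSeq r k n (P ++ [x])

theorem allSeq_ok {r : ℕ} {k : List ℕ → Bool} {f : ℕ → ℕ} (h1 : ∀ t, t < r → f t < r)
    (h2 : ∀ i, i < r → ∀ t, t < i → f t ≠ f i) : ∀ n t, t + n = r →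
    allSeq r k n ((List.range t).map f) = true → k ((List.range r).map f) = true
  | 0, t, e, h => by
    obtain rfl : t = r := by omega
    exact h
  | n + 1, t, e, h => by
    simp only [allSeq, List.all_eq_true, List.mem_range, Bool.or_eq_true] at h
    rcases h (f t) (h1 t (by omega)) with h | h
    · simp only [List.contains_iff_mem, List.mem_map, List.mem_range] at h
      obtain ⟨s, hs, e2⟩ := h
      exact absurd e2 (h2 t (by omega) s hs)
    · refine allSeq_ok h1 h2 n (t + 1) (by omega) ?_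
      rwa [List.range_succ, List.map_append]

/-- one layer: rank, vectors, linear relations, left inverses -/
structure Lay where
  rk : ℕ
  vec : List (List ℕ)
  rel : List (List ℤ)
  inv : List (List ℤ)

def Lay.M (l : Lay) (x t : ℕ) : ℕ := (l.vec.getD x []).getD t 0

def Lay.dot (l : Lay) (r : ℕ) (u : List ℤ) (t : ℕ) : ℤ :=
  ((List.range r).map fun x => u.getD x 0 * (l.M x t : ℤ)).sum

theorem Lay.dot_eq (l : Lay) (r : ℕ) (u : List ℤ) (t : ℕ) :
    l.dot r u t = ∑ x ∈ range r, u.getD x 0 * (l.M x t : ℤ) := by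
  rw [Lay.dot, ← List.sum_toFinset _ List.nodup_range, List.toFinset_range]

theorem Lay.swap (l : Lay) (r : ℕ) (u : List ℤ) (a : ℕ → ℤ) :
    ∑ x ∈ range r, u.getD x 0 * ∑ t ∈ range l.rk, (l.M x t : ℤ) * a t =
      ∑ t ∈ range l.rk, l.dot r u t * a t := by
  simp only [Lay.dot_eq, mul_sum, sum_mul, mul_assoc]
  exact sum_comm

def Lay.ok (l : Lay) (r c : ℕ) : Bool :=
  ((List.range r).all fun x => decide (((List.range l.rk).map (l.M x)).sum ≤ c)) &&
  (l.rel.all fun u => (List.range l.rk).all fun t => decide (l.dot r u t = 0)) &&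
  (List.range l.rk).all fun s => (List.range l.rk).all fun t =>
    decide (l.dot r (l.inv.getD s []) t = 0 ↔ t ≠ s)

def Lay.cl (l : Lay) (r : ℕ) (P : List ℕ) (y : ℕ) : Bool :=
  l.rel.any fun u => decide (u.getD y 0 ≠ 0) &&
    (List.range r).all fun x => decide (x = y) || decide (u.getD x 0 = 0) || P.contains x

theorem Lay.ok_bd {l : Lay} {r c : ℕ} (h : l.ok r c = true) (x : ℕ) (hx : x < r) :
    ∑ t ∈ range l.rk, l.M x t ≤ c := by
  simp only [Lay.ok, Bool.and_eq_true, List.all_eq_true, List.mem_range, decide_eq_true_eq] at h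
  have := h.1.1 x hx
  rwa [← List.sum_toFinset _ List.nodup_range, List.toFinset_range] at this

theorem Lay.ok_inj {l : Lay} {r c : ℕ} (h : l.ok r c = true) (a : ℕ → ℤ)
    (ha : ∀ x, x < r → ∑ t ∈ range l.rk, (l.M x t : ℤ) * a t = 0) (s : ℕ) (hs : s < l.rk) :
    a s = 0 := by
  simp only [Lay.ok, Bool.and_eq_true, List.all_eq_true, List.mem_range, decide_eq_true_eq] at h
  have e := l.swap r (l.inv.getD s []) a
  rw [sum_eq_zero fun x hx => by rw [ha x (mem_range.1 hx), mul_zero],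
    sum_eq_single s (fun t ht hts => by rw [(h.2 s hs t (mem_range.1 ht)).2 hts, zero_mul])
      (fun hh => absurd (mem_range.2 hs) hh)] at e
  exact (mul_eq_zero.1 e.symm).resolve_left fun hh => (h.2 s hs s hs).1 hh rfl

theorem Lay.ok_cl {l : Lay} {r c : ℕ} (h : l.ok r c = true) {P : List ℕ} {y : ℕ} (hy : y < r)
    (h2 : l.cl r P y = true) (a : ℕ → ℤ)
    (ha : ∀ x ∈ P, ∑ t ∈ range l.rk, (l.M x t : ℤ) * a t = 0) :
    ∑ t ∈ range l.rk, (l.M y t : ℤ) * a t = 0 := by
  simp only [Lay.ok, Bool.and_eq_true, List.all_eq_true, List.mem_range, decide_eq_true_eq] at h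
  simp only [Lay.cl, List.any_eq_true, Bool.and_eq_true, List.all_eq_true, List.mem_range,
    decide_eq_true_eq, Bool.or_eq_true, List.contains_iff_mem] at h2
  obtain ⟨u, hu, u1, u2⟩ := h2
  have e := l.swap r u a
  rw [sum_eq_zero (s := range l.rk) fun t ht => by rw [h.1.2 u hu t (mem_range.1 ht), zero_mul],
    sum_eq_single y (fun x hx hxy => by
      rcases u2 x (mem_range.1 hx) with (h3 | h3) | h3
      · exact absurd h3 hxy
      · rw [h3, zero_mul]
      · rw [ha x h3, mul_zero]) (fun hh => absurd (mem_range.2 hy) hh)] at e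
  exact (mul_eq_zero.1 e).resolve_left u1

def lay0 : Lay := ⟨0, [], [], []⟩

/-- the check of a layered construction; `B` lists the triples (level, `j`, `i`) -/
def famOK (m c : ℕ) (ls : List Lay) (B : List (ℕ × ℕ × ℕ)) : Bool :=
  ((List.range ls.length).all fun k => (ls.getD k lay0).ok (m + 1) c &&
    decide ((ls.getD (k + 1) lay0).rk ≤ (ls.getD k lay0).rk)) &&
  (B.all fun b => decide (b.1 < ls.length) && decide (1 ≤ b.2.1) && decide (b.2.1 ≤ b.2.2)) &&
  allSeq (m + 1) (fun P => B.any fun b => (List.range (m + 1)).any fun i => decide (b.2.2 ≤ i) &&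
    (List.range ls.length).all fun l => decide (l ≤ b.1) ||
      (ls.getD l lay0).cl (m + 1) (P.take b.2.1) (P.getD i 0)) (m + 1) []

theorem lower_chk {m n L c : ℕ} {d : ℕ → ℕ} (hd : ∀ t, 1 ≤ d t) (hmn : m + 1 ≤ n) (hc : 1 ≤ c)
    {ls : List Lay} {B : List (ℕ × ℕ × ℕ)} (hl : ls.length = L + 1) (h : famOK m c ls B = true)
    (T : ℕ → ℕ) (hT : ∀ l, l < L → T l ≤ T (l + 1)) (hTn : T L ≤ n) (hT2 : 2 ≤ T 0)
    (hB : ∀ b ∈ B, T b.1 ≤ win d b.2.1 b.2.2) :
    ∏ k ∈ range (L + 1), T k ^ ((ls.getD k lay0).rk - (ls.getD (k + 1) lay0).rk) ≤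
      (2 * (m + 1) ^ 3 * c ^ (L + 1)) ^ (ls.getD 0 lay0).rk * exStar n (degs m d) := by
  simp only [famOK, Bool.and_eq_true, List.all_eq_true, List.mem_range, decide_eq_true_eq, hl] at h
  obtain ⟨⟨h1, h2⟩, h3⟩ := h
  refine lower_sigma hd hmn hc (fun k => (ls.getD k lay0).rk) T (fun k => (ls.getD k lay0).M)
    (fun k hk => (h1 k hk).2) (by rw [List.getD_eq_default _ _ hl.le]; rfl) hT hTn hT2
    (fun k hk => Lay.ok_bd (h1 k hk).1) (fun k hk => Lay.ok_inj (h1 k hk).1) fun f f1 f2 => ?_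
  have := allSeq_ok f1 f2 (m + 1) 0 (by omega) h3
  simp only [List.any_eq_true, Bool.and_eq_true, List.all_eq_true, List.mem_range,
    decide_eq_true_eq, Bool.or_eq_true] at this
  obtain ⟨b, hb, i, hi, a1, a2⟩ := this
  obtain ⟨⟨b1, b2⟩, b3⟩ := h2 b hb
  refine ⟨b.2.1, i, b.1, b2, by omega, by omega, b1, (hB b hb).trans (win_mono hd le_rfl a1),
    fun l l1 l2 a ha => ?_⟩
  have e : ((List.range (m + 1)).map f).getD i 0 = f i := by
    simp [List.getD_eq_getElem?_getD, hi]
  refine Lay.ok_cl (h1 l l2).1 (f1 i hi) (e ▸ (a2 l l2).resolve_left (by omega)) a fun x hx => ?_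
  rw [← List.map_take, List.take_range] at hx
  obtain ⟨s, hs, rfl⟩ := List.mem_map.1 hx
  exact ha s (by have := List.mem_range.1 hs; omega)

end Pool.Agent.P.MP_754fe6_co
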