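import Mathlib
import Pool.Agent.P.MP_754fe6_co.LayerChk
import Pool.Agent.P.MP_754fe6_co.Bridge
import Pool.Agent.P.MP_754fe6_co.Defs5

namespace Pool.Agent.P.MP_754fe6_co

open Finset Rup

def lFree : Lay := ⟨6, [[1,0,0,0,0,0],[0,1,0,0,0,0],[0,0,1,0,0,0],[0,0,0,1,0,0],[0,0,0,0,1,0],
  [0,0,0,0,0,1]], [], [[1,0,0,0,0,0],[0,1,0,0,0,0],[0,0,1,0,0,0],[0,0,0,1,0,0],[0,0,0,0,1,0],
  [0,0,0,0,0,1]]⟩

/-- two triangles -/
def lA : Lay := ⟨4, [[1,0,0,0],[0,1,0,0],[1,1,0,0],[0,0,1,0],[0,0,0,1],[0,0,1,1]],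
  [[1,1,-1,0,0,0],[0,0,0,1,1,-1]], [[1,0,0,0,0,0],[0,1,0,0,0,0],[0,0,0,1,0,0],[0,0,0,0,1,0]]⟩

/-- three pairs with equal sums -/
def lB : Lay := ⟨4, [[1,0,0,0],[0,1,1,1],[0,1,0,0],[1,0,1,1],[0,0,1,0],[1,1,0,1]],
  [[1,1,-1,-1,0,0],[1,1,0,0,-1,-1],[0,0,1,1,-1,-1]],
  [[1,0,0,0,0,0],[0,0,1,0,0,0],[0,0,0,0,1,0],[0,1,-1,0,-1,0]]⟩

/-- three parallel pairs -/
def lC : Lay := ⟨3, [[1,0,0],[1,0,0],[0,1,0],[0,1,0],[0,0,1],[0,0,1]],
  [[1,-1,0,0,0,0],[0,0,1,-1,0,0],[0,0,0,0,1,-1]], [[1,0,0,0,0,0],[0,0,1,0,0,0],[0,0,0,0,1,0]]⟩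

/-- one triangle -/
def lD : Lay := ⟨5, [[1,0,0,0,0],[0,1,0,0,0],[1,1,0,0,0],[0,0,1,0,0],[0,0,0,1,0],[0,0,0,0,1]],
  [[1,1,-1,0,0,0]], [[1,0,0,0,0,0],[0,1,0,0,0,0],[0,0,0,1,0,0],[0,0,0,0,1,0],[0,0,0,0,0,1]]⟩

/-- three parallel points -/
def lE : Lay := ⟨4, [[1,0,0,0],[1,0,0,0],[1,0,0,0],[0,1,0,0],[0,0,1,0],[0,0,0,1]],
  [[1,-1,0,0,0,0],[1,0,-1,0,0,0],[0,1,-1,0,0,0]],
  [[1,0,0,0,0,0],[0,0,0,1,0,0],[0,0,0,0,1,0],[0,0,0,0,0,1]]⟩

/-- three loops -/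
def lF : Lay := ⟨3, [[0,0,0],[0,0,0],[0,0,0],[1,0,0],[0,1,0],[0,0,1]],
  [[1,0,0,0,0,0],[0,1,0,0,0,0],[0,0,1,0,0,0]], [[0,0,0,1,0,0],[0,0,0,0,1,0],[0,0,0,0,0,1]]⟩

/-- one parallel pair -/
def lG : Lay := ⟨5, [[1,0,0,0,0],[1,0,0,0,0],[0,1,0,0,0],[0,0,1,0,0],[0,0,0,1,0],[0,0,0,0,1]],
  [[1,-1,0,0,0,0]], [[1,0,0,0,0,0],[0,0,1,0,0,0],[0,0,0,1,0,0],[0,0,0,0,1,0],[0,0,0,0,0,1]]⟩

/-- two loops -/
def lH : Lay := ⟨4, [[0,0,0,0],[0,0,0,0],[1,0,0,0],[0,1,0,0],[0,0,1,0],[0,0,0,1]],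
  [[1,0,0,0,0,0],[0,1,0,0,0,0]], [[0,0,1,0,0,0],[0,0,0,1,0,0],[0,0,0,0,1,0],[0,0,0,0,0,1]]⟩

/-- four parallel points -/
def lI : Lay := ⟨3, [[1,0,0],[1,0,0],[1,0,0],[1,0,0],[0,1,0],[0,0,1]],
  [[1,-1,0,0,0,0],[1,0,-1,0,0,0],[1,0,0,-1,0,0],[0,1,-1,0,0,0],[0,1,0,-1,0,0],[0,0,1,-1,0,0]],
  [[1,0,0,0,0,0],[0,0,0,0,1,0],[0,0,0,0,0,1]]⟩

theorem ok1 : famOK 5 3 [lFree, lA] [(0,2,2),(0,3,3)] = true := by decide +kernel
theorem ok2 : famOK 5 3 [lFree, lB, lC] [(0,3,3),(1,1,3)] = true := by decide +kernel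
theorem ok3 : famOK 5 3 [lFree, lD, lE, lF] [(0,2,2),(1,2,3),(2,1,4)] = true := by decide +kernel
theorem ok4 : famOK 5 3 [lFree, lG, lH, lI] [(0,3,3),(1,3,4),(2,1,3),(2,2,4)] = true := by
  decide +kernel

theorem w13 (d : ℕ → ℕ) : win d 1 3 = d 1 * d 2 * d 3 := by
  simp [win, prod_Icc_succ_top]
theorem w14 (d : ℕ → ℕ) : win d 1 4 = d 1 * d 2 * d 3 * d 4 := by
  simp [win, prod_Icc_succ_top]
theorem w23 (d : ℕ → ℕ) : win d 2 3 = d 2 * d 3 := by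
  simp [win, prod_Icc_succ_top]
theorem w24 (d : ℕ → ℕ) : win d 2 4 = d 2 * d 3 * d 4 := by
  simp [win, prod_Icc_succ_top]
theorem w34 (d : ℕ → ℕ) : win d 3 4 = d 3 * d 4 := by
  simp [win, prod_Icc_succ_top]
theorem wjj (d : ℕ → ℕ) (j : ℕ) : win d j j = d j := by simp [win]

theorem extraSix_le {n : ℕ} {d : ℕ → ℕ} (hd : ∀ t, 1 ≤ d t) (hn : win d 1 5 ≤ n) (h6 : 5 + 1 ≤ n) :
    extraSix n d ≤ CL (5 + 1) * exStar n (degs 5 d) := by
  have c : ∀ k, k ≤ 4 → (2 * (5 + 1) ^ 3 * 3 ^ k) ^ 6 * exStar n (degs 5 d) ≤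
      CL (5 + 1) * exStar n (degs 5 d) := fun k hk => Nat.mul_le_mul_right _ (by
    unfold CL
    refine Nat.pow_le_pow_left (Nat.mul_le_mul_left _ ?_) _
    exact (Nat.pow_le_pow_right (by omega) hk).trans (by norm_num))
  have wn : ∀ j i, 1 ≤ j → i ≤ 5 → win d j i ≤ n := fun j i h1 h2 => (win_mono hd h1 h2).trans hn
  have wm : ∀ j i j' i', j' ≤ j → i ≤ i' → win d j i ≤ win d j' i' := fun _ _ _ _ => win_mono hd
  unfold extraSix
  rw [← w14, ← w13, ← w24, ← w23, ← w34, ← wjj d 2, ← wjj d 3]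
  refine max_le (max_le ?_ ?_) (max_le ?_ ?_) <;> split_ifs with h <;> try exact Nat.zero_le _
  · refine le_trans (le_of_eq ?_) ((lower_chk (L := 1) hd h6 (by omega) rfl ok1
      (fun k => [min (win d 2 2) (win d 3 3), n].getD k 0) ?_ le_rfl h ?_).trans (c 2 (by omega)))
    · simp [prod_range_succ, lFree, lA, lay0, mul_comm]
    · intro l hl
      interval_cases l
      exact (min_le_left _ _).trans (wn _ _ (by omega) (by omega))
    · simp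
  · refine le_trans (le_of_eq ?_) ((lower_chk (L := 2) hd h6 (by omega) rfl ok2
      (fun k => [win d 3 3, win d 1 3, n].getD k 0) ?_ le_rfl h ?_).trans (c 3 (by omega)))
    · simp [prod_range_succ, lFree, lB, lC, lay0]
      ring
    · intro l hl
      interval_cases l
      exacts [wm _ _ _ _ (by omega) (by omega), wn _ _ (by omega) (by omega)]
    · simp
  · refine le_trans (le_of_eq ?_) ((lower_chk (L := 3) hd h6 (by omega) rfl ok3
      (fun k => [win d 2 2, win d 2 3, win d 1 4, n].getD k 0) ?_ le_rfl h ?_).trans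
        (c 4 (by omega)))
    · simp [prod_range_succ, lFree, lD, lE, lF, lay0]
      ring
    · intro l hl
      interval_cases l
      exacts [wm _ _ _ _ (by omega) (by omega), wm _ _ _ _ (by omega) (by omega),
        wn _ _ (by omega) (by omega)]
    · simp
  · refine le_trans (le_of_eq ?_) ((lower_chk (L := 3) hd h6 (by omega) rfl ok4
      (fun k => [win d 3 3, min (win d 1 3) (win d 3 4), min (win d 1 3) (win d 2 4), n].getD k 0)
        ?_ le_rfl h ?_).trans (c 4 (by omega)))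
    · simp [prod_range_succ, lFree, lG, lH, lI, lay0]
      ring
    · intro l hl
      interval_cases l
      exacts [le_min (wm _ _ _ _ (by omega) (by omega)) (wm _ _ _ _ (by omega) (by omega)),
        min_le_min le_rfl (wm _ _ _ _ (by omega) (by omega)),
        (min_le_left _ _).trans (wn _ _ (by omega) (by omega))]
    · simp

theorem piece_log {m n : ℕ} {d : ℕ → ℕ} (hd : ∀ t, 1 ≤ d t) {c : ℕ → ℝ}
    (c3 : ∀ u, u ≤ m → c u = Real.log (win d 1 u)) (c4 : c (m + 1) = Real.log n) :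
    ∀ A : List ℕ, (∀ w ∈ A, 1 ≤ w / 8 ∧ w / 8 ≤ w % 8 ∧ w % 8 ≤ m) →
      (A.map fun w => sL (m + 1) w c).sum =
        A.length * Real.log n - Real.log ((A.map fun w => win d (w / 8) (w % 8)).prod : ℕ)
  | [], _ => by simp
  | w :: A, h => by
    obtain ⟨a1, a2, a3⟩ := h w (by simp)
    have p1 := win_pos hd 1 (w / 8 - 1)
    have p2 := win_pos hd (w / 8) (w % 8)
    have p3 : 1 ≤ (A.map fun w => win d (w / 8) (w % 8)).prod :=
      List.one_le_prod_of_one_le fun x hx => by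
        obtain ⟨w, -, rfl⟩ := List.mem_map.1 hx
        exact win_pos hd _ _
    rw [List.map_cons, List.sum_cons, piece_log hd c3 c4 A fun w hw => h w (by simp [hw]),
      List.map_cons, List.prod_cons, sL, c4, c3 _ (by omega), c3 _ a3,
      win_split d (j := 1) (i := w / 8 - 1) (k := w % 8) (by omega) (by omega),
      show w / 8 - 1 + 1 = w / 8 by omega, List.length_cons]
    generalize (A.map fun w => win d (w / 8) (w % 8)).prod = Z at *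
    push_cast
    rw [Real.log_mul (by positivity) (by positivity), Real.log_mul (by positivity) (by positivity)]
    ring

theorem piece_lt {m n g : ℕ} {d : ℕ → ℕ} (hd : ∀ t, 1 ≤ d t) (n1 : 1 ≤ n) {c : ℕ → ℝ}
    (c3 : ∀ u, u ≤ m → c u = Real.log (win d 1 u)) (c4 : c (m + 1) = Real.log n) (A : List ℕ)
    (h : ∀ w ∈ A, 1 ≤ w / 8 ∧ w / 8 ≤ w % 8 ∧ w % 8 ≤ m) (k : ℕ) (hk : k + A.length = m + 1)
    (lt : n ^ k * (A.map fun w => win d (w / 8) (w % 8)).prod < g) :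
    (m + 1) * Real.log n - Real.log g < (A.map fun w => sL (m + 1) w c).sum := by
  rw [piece_log hd c3 c4 A h]
  have p3 : 1 ≤ (A.map fun w => win d (w / 8) (w % 8)).prod :=
    List.one_le_prod_of_one_le fun x hx => by
      obtain ⟨w, -, rfl⟩ := List.mem_map.1 hx
      exact win_pos hd _ _
  generalize (A.map fun w => win d (w / 8) (w % 8)).prod = Z at *
  have lt2 := Real.log_lt_log (by positivity) (show ((n ^ k * Z : ℕ) : ℝ) < g by exact_mod_cast lt)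
  push_cast at lt2
  rw [Real.log_mul (by positivity) (by positivity), Real.log_pow] at lt2
  have e : (k : ℝ) + A.length = m + 1 := by exact_mod_cast hk
  rw [← e]
  linarith

def xp (k : ℕ) : List (List ℕ) :=
  if k = 0 then [[18, 18], [27, 27]] else if k = 1 then [[11, 27, 27]] else
  if k = 2 then [[12, 19, 18]] else [[11, 11, 27], [11, 28, 27], [20, 11, 27], [20, 28, 27]]

def xv (fm k : ℕ) : Bool :=
  if k = 0 then fm.testBit 2 && fm.testBit 3 else if k = 2 then fm.testBit 2 else fm.testBit 3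

theorem extra_piece {n : ℕ} {d : ℕ → ℕ} (hd : ∀ t, 1 ≤ d t) (n1 : 1 ≤ n) {fm : ℕ}
    (hfm : ∀ t, 1 ≤ t → t ≤ 5 → (fm.testBit t = true ↔ 2 ≤ d t)) {c : ℕ → ℝ}
    (c3 : ∀ u, u ≤ 5 → c u = Real.log (win d 1 u)) (c4 : c (5 + 1) = Real.log n) {g : ℕ}
    (hg : extraSix n d < g) {k : ℕ} (hk : xv fm k = true) :
    ∃ A ∈ xp k, ((5 : ℕ) + 1) * Real.log n - Real.log g < (A.map fun w => sL (5 + 1) w c).sum := by
  have f2 := hfm 2 (by omega) (by omega)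
  have f3 := hfm 3 (by omega) (by omega)
  unfold extraSix at hg
  rw [← w14, ← w13, ← w24, ← w23, ← w34] at hg
  simp only [max_lt_iff] at hg
  obtain ⟨⟨g1, g2⟩, g3, g4⟩ := hg
  unfold xv at hk
  unfold xp
  obtain rfl | rfl | rfl | k3 : k = 0 ∨ k = 2 ∨ k = 1 ∨ (k ≠ 0 ∧ k ≠ 1 ∧ k ≠ 2) := by omega
  · rw [if_pos rfl, Bool.and_eq_true, f2, f3] at hk
    rw [if_pos (le_min hk.1 hk.2)] at g1
    rcases le_total (d 2) (d 3) with h | h
    · rw [min_eq_left h] at g1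
      exact ⟨[18, 18], by simp, piece_lt hd n1 c3 c4 _ (by simp) 4 rfl (by simpa [wjj, sq] using g1)⟩
    · rw [min_eq_right h] at g1
      exact ⟨[27, 27], by simp, piece_lt hd n1 c3 c4 _ (by simp) 4 rfl (by simpa [wjj, sq] using g1)⟩
  · rw [if_neg (by omega), if_pos rfl] at hk
    rw [if_pos (f2.1 hk)] at g3
    exact ⟨[12, 19, 18], by simp, piece_lt hd n1 c3 c4 _ (by simp) 3 rfl
      (by simpa [wjj, mul_assoc] using g3)⟩
  · rw [if_neg (by omega), if_neg (by omega)] at hk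
    rw [if_pos (f3.1 hk)] at g2
    exact ⟨[11, 27, 27], by simp, piece_lt hd n1 c3 c4 _ (by simp) 3 rfl
      (by simpa [wjj, sq, mul_assoc] using g2)⟩
  · rw [if_neg k3.1, if_neg k3.2.2] at hk
    rw [if_neg k3.1, if_neg k3.2.1, if_neg k3.2.2]
    rw [if_pos (f3.1 hk)] at g4
    rcases le_total (win d 1 3) (win d 2 4) with h | h <;>
      rcases le_total (win d 1 3) (win d 3 4) with h' | h'
    · rw [min_eq_left h, min_eq_left h'] at g4
      exact ⟨[11, 11, 27], by simp, piece_lt hd n1 c3 c4 _ (by simp) 3 rfl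
        (by simpa [wjj, mul_assoc] using g4)⟩
    · rw [min_eq_left h, min_eq_right h'] at g4
      exact ⟨[11, 28, 27], by simp, piece_lt hd n1 c3 c4 _ (by simp) 3 rfl
        (by simpa [wjj, mul_assoc] using g4)⟩
    · rw [min_eq_right h, min_eq_left h'] at g4
      exact ⟨[20, 11, 27], by simp, piece_lt hd n1 c3 c4 _ (by simp) 3 rfl
        (by simpa [wjj, mul_assoc] using g4)⟩
    · rw [min_eq_right h, min_eq_right h'] at g4
      exact ⟨[20, 28, 27], by simp, piece_lt hd n1 c3 c4 _ (by simp) 3 rfl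
        (by simpa [wjj, mul_assoc] using g4)⟩

/-- a verified case of the parameter space for `r = 6` -/
def CaseSix (fm : ℕ) : Prop :=
  ∃ (codes xs : List ℕ) (Ks : List (List ℕ × List (List ℕ))) (t : CT),
  (∀ K ∈ Ks, KOK 6 fm K) ∧ (codes.all (valid 6 fm) && xs.all (xv fm) &&
    Rup.cover 6 (codes.map pieces ++ xs.map xp) Ks t (rays0 6 fm)) = true

theorem upper_six {n : ℕ} {d : ℕ → ℕ} (hd : ∀ t, 1 ≤ d t) (hn : win d 1 5 ≤ n)
    (h : ∀ g, g < 2 ^ 5 → CaseSix (2 * g)) :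
    exStar n (degs 5 d) ≤ CU (5 + 1) * max (famMax (5 + 1) n d) (extraSix n d) := by
  refine upper_reduction 5 n d _ fun G hG hB => ?_
  by_contra hc
  obtain ⟨g, g1, hfm⟩ := exists_fm 5 d
  obtain ⟨codes, xs, Ks, t, k1, k2⟩ := h g g1
  obtain ⟨X, c, c1, c2, c0, c3, c4⟩ := exists_msys hd hn (by omega) G hG hB hfm
  rw [Bool.and_eq_true, Bool.and_eq_true, List.all_eq_true, List.all_eq_true] at k2
  rw [not_le, max_lt_iff] at hc
  refine cover_ok k1 X c2 (fun φ hφ => ?_) t _ k2.2 c1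
  rw [c0]
  rcases List.mem_append.1 hφ with hφ | hφ <;> obtain ⟨f, hf, rfl⟩ := List.mem_map.1 hφ
  · exact fam_piece hd hn (by omega) hfm c3 c4 hc.1 (k2.1.1 f hf)
  · exact extra_piece hd ((win_pos hd _ _).trans hn) hfm c3 c4 hc.2 (k2.1.2 f hf)

end Pool.Agent.P.MP_754fe6_co
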