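import Mathlib
import Pool.Agent.P.MP_754fe6_co.Six
import Pool.Agent.P.MP_754fe6_co.D6c2
import Pool.Agent.P.MP_754fe6_co.D6k11
import Pool.Agent.P.MP_754fe6_co.D6k12

set_option maxRecDepth 100000

namespace Pool.Agent.P.MP_754fe6_co.D6

open Rup

theorem c0 : CaseSix 0 := ⟨[], [],
[([], [])],
(.leaf 0 []),
List.forall_mem_cons.2 ⟨k0x0, List.forall_mem_nil _⟩,
by decide +kernel⟩

theorem c32 : CaseSix 32 := ⟨[397], [],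
[([], [[45]])],
(.leaf 0 [0]),
List.forall_mem_cons.2 ⟨k32x0, List.forall_mem_nil _⟩,
by decide +kernel⟩

theorem c16 : CaseSix 16 := ⟨[404], [],
[([4772], [[36, 36]])],
(.leaf 0 [0]),
List.forall_mem_cons.2 ⟨k16x0, List.forall_mem_nil _⟩,
by decide +kernel⟩

theorem c48 : CaseSix 48 := ⟨[404, 397], [],
[([4645], [[37, 37], [45]])],
(.leaf 0 [0, 1]),
List.forall_mem_cons.2 ⟨k48x0, List.forall_mem_nil _⟩,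
by decide +kernel⟩

theorem c8 : CaseSix 8 := ⟨[411], [],
[([3611, 3739], [[27, 27, 27]])],
(.leaf 0 [0]),
List.forall_mem_cons.2 ⟨k8x0, List.forall_mem_nil _⟩,
by decide +kernel⟩

theorem c40 : CaseSix 40 := ⟨[411, 397], [],
[([3485, 3613], [[29, 29, 29], [45]])],
(.leaf 0 [0, 1]),
List.forall_mem_cons.2 ⟨k40x0, List.forall_mem_nil _⟩,
by decide +kernel⟩

theorem c24 : CaseSix 24 := ⟨[411, 404], [],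
[([3484, 3485, 3740, 4636, 4645, 4764, 4772], [[28, 28, 28], [36, 36]])],
(.leaf 0 [0, 1]),
List.forall_mem_cons.2 ⟨k24x0, List.forall_mem_nil _⟩,
by decide +kernel⟩

theorem c56 : CaseSix 56 := ⟨[397, 411, 404], [],
[([3485, 3613, 4637, 4645, 4765], [[27, 37], [29, 29, 29], [37, 37], [45]])],
(.leaf 0 [0, 1, 2, 0]),
List.forall_mem_cons.2 ⟨k56x0, List.forall_mem_nil _⟩,
by decide +kernel⟩

theorem c4 : CaseSix 4 := ⟨[209], [],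
[([2450, 2453, 2578, 2581, 2706], [[18, 18, 18]])],
(.leaf 0 [0]),
List.forall_mem_cons.2 ⟨k4x0, List.forall_mem_nil _⟩,
by decide +kernel⟩

theorem c36 : CaseSix 36 := ⟨[209, 418, 397], [],
[([2325, 2450, 2452, 2453, 2578, 2579, 2581], [[18, 18, 18], [21, 21, 21, 21], [45]])],
(.leaf 0 [0, 1, 2]),
List.forall_mem_cons.2 ⟨k36x0, List.forall_mem_nil _⟩,
by decide +kernel⟩

theorem c20 : CaseSix 20 := ⟨[418, 404], [2],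
[([2323, 2324, 2325, 2450, 2452, 2453, 2708, 4628, 4645, 4756, 4772], [[18, 18, 20], [20, 20, 20, 20], [36, 36]])],
(.leaf 0 [2, 0, 1]),
List.forall_mem_cons.2 ⟨k20x0, List.forall_mem_nil _⟩,
by decide +kernel⟩

theorem c52 : CaseSix 52 := ⟨[397, 418, 404], [2],
[([2323, 2324, 2325, 2450, 2452, 2453, 2581, 4629, 4645, 4757], [[18, 18, 20], [18, 37], [21, 21, 21, 21], [37, 37], [45]])],
(.leaf 0 [3, 0, 1, 2, 0]),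
List.forall_mem_cons.2 ⟨k52x0, List.forall_mem_nil _⟩,
by decide +kernel⟩

theorem c12 : CaseSix 12 := ⟨[202, 281], [0, 1],
[([2323, 2324, 2452, 2453, 2579, 2581, 2707, 2708, 3475, 3484, 3485, 3603, 3613, 3731], [[18, 19, 19], [19, 19, 19, 19], [29, 29]]),
([2323, 2324, 2325, 2452, 2453, 2579, 2581, 2707, 2708, 3475, 3476, 3484, 3485, 3603, 3611, 3613, 3731, 3732, 3739], [[18, 18], [18, 19, 19], [19, 19, 19, 19], [19, 27, 27]])],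
(.split 1 0 1 1
(.leaf 0 [0, 1, 2]) (.leaf 1 [2, 0, 1, 3])),
List.forall_mem_cons.2 ⟨k12x0, List.forall_mem_cons.2 ⟨k12x1, List.forall_mem_nil _⟩⟩,
by decide +kernel⟩

theorem c44 : CaseSix 44 := ⟨[202, 397, 418, 411], [1],
[([2323, 2325, 2452, 2453, 2579, 2581, 3475, 3477, 3484, 3485, 3603, 3605, 3611, 3613, 3733], [[18, 19, 19], [18, 29], [19, 27, 27], [21, 21, 21, 21], [29, 29, 29], [45]])],
(.leaf 0 [0, 1, 4, 2, 3, 1]),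
List.forall_mem_cons.2 ⟨k44x0, List.forall_mem_nil _⟩,
by decide +kernel⟩

theorem c28 : CaseSix 28 := ⟨[404, 418, 266, 411], [2, 0, 3],
[([2323, 2324, 2325, 2452, 2453, 2581, 2708, 3475, 3476, 3477, 3484, 3485, 3604, 3605, 3613, 3732, 3733, 3740, 4628, 4629, 4636, 4645, 4756, 4757, 4764, 4772], [[18, 19, 20], [18, 20, 28], [19, 20, 36], [20, 20, 20, 20], [21, 21, 27], [27, 27], [28, 28, 28], [36, 36]]),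
([2323, 2324, 2325, 2452, 2453, 2581, 2708, 3475, 3476, 3477, 3484, 3485, 3604, 3605, 3613, 3732, 3733, 3740, 4628, 4636, 4645, 4756, 4757, 4764, 4765, 4772], [[18, 18], [18, 19, 20], [18, 20, 28], [18, 21, 21], [19, 20, 36], [19, 27, 29], [20, 20, 20, 20], [21, 27, 27], [28, 28, 28], [36, 36]])],
(.split 0 3 1 1
(.split 2 3 1 1
(.split 2 0 1 1
(.split 1 0 1 1
(.leaf 0 [4, 4, 4, 4, 4, 5, 4, 0]) (.split 1 2 1 1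
(.leaf 0 [4, 4, 4, 1, 5, 5, 0, 0]) (.leaf 1 [5, 4, 4, 2, 4, 6, 1, 6, 3, 0]))) (.split 1 0 1 1
(.leaf 0 [0, 0, 0, 1, 0, 0, 3, 0]) (.leaf 1 [0, 3, 3, 2, 3, 3, 1, 3, 3, 0]))) (.leaf 0 [4, 1, 1, 1, 1, 1, 3, 0])) (.leaf 0 [4, 1, 1, 1, 1, 1, 1, 1])),
List.forall_mem_cons.2 ⟨k28x0, List.forall_mem_cons.2 ⟨k28x1, List.forall_mem_nil _⟩⟩,
by decide +kernel⟩

theorem c60 : CaseSix 60 := ⟨[425, 418, 411, 397, 404], [3, 2],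
[([2323, 2324, 2325, 2452, 2453, 2581, 3475, 3476, 3477, 3484, 3485, 3604, 3605, 3613, 3733, 4637, 4645, 4765], [[18, 20, 20], [18, 29], [19, 27, 28], [19, 37], [20, 27, 27], [21, 21, 21, 21], [21, 21, 37], [29, 29, 29], [37, 37], [45]]),
([2323, 2324, 2325, 2452, 2453, 2581, 3475, 3476, 3477, 3484, 3485, 3604, 3605, 3613, 3733, 4629, 4637, 4645, 4757, 4765], [[18, 19, 20], [18, 29], [19, 27, 27], [19, 37], [21, 21, 21, 21], [21, 21, 29], [29, 29, 29], [37, 37], [45]])],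
(.split 4 1 1 2
(.split 0 4 2 1
(.split 0 3 1 2
(.split 2 3 1 2
(.leaf 0 [0, 1, 2, 1, 2, 1, 0, 2, 0, 3]) (.split 2 4 1 1
(.leaf 0 [0, 1, 2, 1, 2, 1, 0, 2, 0, 3]) (.leaf 0 [0, 0, 0, 0, 0, 1, 0, 2, 0, 1]))) (.split 0 4 1 1
(.split 2 4 1 1
(.split 3 4 1 4
(.split 2 0 1 1
(.split 3 0 1 2
(.leaf 0 [0, 1, 5, 1, 5, 1, 0, 2, 0, 3]) (.leaf 0 [0, 1, 2, 1, 2, 1, 0, 2, 0, 3])) (.leaf 0 [0, 1, 2, 1, 2, 1, 0, 2, 0, 3])) (.leaf 0 [0, 1, 0, 1, 0, 1, 0, 2, 0, 3])) (.leaf 0 [0, 0, 0, 0, 0, 1, 0, 2, 0, 1])) (.leaf 0 [0, 0, 0, 0, 0, 1, 0, 0, 0, 1]))) (.leaf 0 [0, 0, 0, 0, 0, 1, 0, 0, 0, 0])) (.split 4 2 1 2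
(.split 0 4 2 1
(.split 0 4 1 1
(.split 1 4 1 1
(.leaf 0 [0, 1, 0, 1, 0, 1, 4, 2, 4, 3]) (.leaf 0 [0, 1, 2, 1, 2, 1, 1, 2, 1, 3])) (.leaf 0 [0, 1, 2, 1, 2, 1, 1, 2, 1, 3])) (.leaf 0 [0, 1, 3, 1, 3, 1, 0, 2, 0, 3])) (.leaf 1 [6, 3, 3, 3, 1, 3, 2, 4, 3]))),
List.forall_mem_cons.2 ⟨k60x0, List.forall_mem_cons.2 ⟨k60x1, List.forall_mem_nil _⟩⟩,
by decide +kernel⟩

theorem c2 : CaseSix 2 := ⟨[137], [],
[([1289, 1417, 1545, 1673], [[9, 9]])],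
(.leaf 0 [0]),
List.forall_mem_cons.2 ⟨k2x0, List.forall_mem_nil _⟩,
by decide +kernel⟩

theorem c34 : CaseSix 34 := ⟨[137, 425, 397], [],
[([1289, 1292, 1417, 1421, 1545, 1547], [[9, 9], [13, 13, 13, 13, 13], [45]])],
(.leaf 0 [0, 1, 2]),
List.forall_mem_cons.2 ⟨k34x0, List.forall_mem_nil _⟩,
by decide +kernel⟩

theorem c18 : CaseSix 18 := ⟨[137, 353, 404], [],
[([1164, 1289, 1292, 1417, 1420, 1676, 4620, 4645, 4748, 4772], [[9, 9], [12, 12, 12, 12, 12], [36, 36]])],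
(.leaf 0 [0, 1, 2]),
List.forall_mem_cons.2 ⟨k18x0, List.forall_mem_nil _⟩,
by decide +kernel⟩

theorem c50 : CaseSix 50 := ⟨[137, 397, 425, 404], [],
[([1165, 1289, 1293, 1417, 1549, 4621, 4645, 4749], [[9, 9], [9, 37], [13, 13, 13, 13, 13], [37, 37], [45]])],
(.leaf 0 [0, 1, 2, 3, 1]),
List.forall_mem_cons.2 ⟨k50x0, List.forall_mem_nil _⟩,
by decide +kernel⟩

theorem c10 : CaseSix 10 := ⟨[137, 281], [1],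
[([1162, 1163, 1289, 1291, 1292, 1420, 1547, 1549, 1675, 1676, 3467, 3485, 3595, 3611, 3613, 3723, 3739], [[9, 9], [11, 11, 11, 11], [11, 27, 27]])],
(.leaf 0 [0, 1, 2]),
List.forall_mem_cons.2 ⟨k10x0, List.forall_mem_nil _⟩,
by decide +kernel⟩

theorem c42 : CaseSix 42 := ⟨[137, 397, 281, 338, 425, 411], [1],
[([1162, 1163, 1165, 1289, 1291, 1293, 1420, 1421, 1547, 1549, 3467, 3469, 3484, 3485, 3595, 3596, 3597, 3611, 3613, 3725], [[9, 9], [9, 29], [11, 11, 11, 11], [11, 11, 29, 29], [11, 13, 27, 29], [11, 27, 27], [13, 13, 13, 13, 13], [13, 13, 27, 27], [29, 29, 29], [45]])],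
(.leaf 0 [0, 1, 2, 3, 3, 6, 4, 3, 5, 1]),
List.forall_mem_cons.2 ⟨k42x0, List.forall_mem_nil _⟩,
by decide +kernel⟩

theorem c26 : CaseSix 26 := ⟨[137, 404, 281, 267, 353, 411], [1],
[([1162, 1163, 1164, 1165, 1289, 1291, 1292, 1420, 1421, 1549, 1676, 3467, 3468, 3484, 3485, 3596, 3613, 3724, 3740, 4620, 4636, 4645, 4748, 4764, 4772], [[9, 9], [9, 11, 36], [9, 28, 36], [11, 11, 11, 12], [11, 12, 12, 28], [11, 27, 27], [12, 12, 12, 12, 12], [12, 12, 12, 27], [28, 28, 28], [36, 36]])],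
(.leaf 0 [0, 0, 1, 2, 3, 6, 4, 3, 5, 1]),
List.forall_mem_cons.2 ⟨k26x0, List.forall_mem_nil _⟩,
by decide +kernel⟩

theorem c58 : CaseSix 58 := ⟨[137, 397, 281, 411, 425, 267, 404], [1],
[([1162, 1163, 1164, 1165, 1289, 1291, 1292, 1293, 1420, 1421, 1549, 3467, 3468, 3469, 3484, 3485, 3596, 3597, 3613, 3725, 4621, 4645, 4749, 4765], [[9, 9], [9, 29], [11, 11, 11, 12], [11, 11, 13, 28], [11, 11, 29, 29], [11, 12, 12, 28], [11, 13, 27, 29], [11, 27, 27], [11, 37], [12, 12, 12, 27], [13, 13, 13, 13, 13], [13, 13, 13, 36], [13, 13, 27, 28], [29, 29, 29], [37, 37], [45]])],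
(.split 0 1 2 1
(.split 3 1 2 1
(.split 4 1 1 1
(.split 0 4 1 2
(.split 2 4 1 2
(.split 3 4 1 6
(.leaf 0 [0, 1, 2, 7, 7, 7, 7, 7, 1, 7, 7, 1, 7, 3, 3, 1]) (.leaf 0 [0, 1, 2, 7, 3, 7, 3, 7, 1, 7, 4, 4, 3, 3, 3, 1])) (.leaf 0 [0, 1, 2, 4, 4, 5, 4, 7, 1, 5, 4, 4, 3, 3, 3, 1])) (.leaf 0 [0, 1, 2, 4, 4, 4, 4, 4, 1, 4, 4, 4, 4, 4, 4, 1])) (.split 0 4 1 3
(.split 3 4 1 3
(.leaf 0 [0, 1, 0, 0, 0, 5, 0, 1, 1, 5, 4, 3, 3, 3, 6, 1]) (.leaf 0 [0, 1, 0, 0, 3, 5, 3, 1, 1, 5, 4, 4, 3, 3, 6, 1])) (.leaf 0 [0, 1, 2, 0, 1, 5, 1, 1, 1, 5, 4, 4, 1, 3, 6, 1]))) (.split 0 4 1 3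
(.split 1 4 1 3
(.split 3 4 1 1
(.leaf 0 [0, 1, 0, 0, 0, 5, 0, 0, 1, 5, 4, 3, 3, 3, 6, 1]) (.leaf 0 [0, 1, 0, 0, 0, 5, 0, 0, 1, 5, 4, 4, 4, 3, 6, 1])) (.leaf 0 [0, 1, 0, 0, 4, 5, 4, 0, 1, 5, 4, 4, 4, 3, 6, 1])) (.leaf 0 [0, 1, 2, 0, 4, 5, 4, 0, 1, 5, 4, 4, 4, 4, 6, 1]))) (.split 0 4 1 1
(.split 1 4 1 3
(.split 3 4 1 1
(.leaf 0 [0, 1, 0, 0, 0, 5, 0, 0, 1, 5, 4, 6, 3, 3, 6, 1]) (.leaf 0 [0, 1, 0, 0, 0, 5, 0, 0, 1, 5, 4, 4, 4, 3, 6, 1])) (.leaf 0 [0, 1, 2, 0, 0, 5, 0, 0, 1, 5, 4, 4, 4, 4, 6, 1])) (.leaf 0 [0, 1, 2, 0, 0, 4, 0, 0, 1, 4, 4, 4, 4, 4, 6, 1]))),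
List.forall_mem_cons.2 ⟨k58x0, List.forall_mem_nil _⟩,
by decide +kernel⟩

theorem c6 : CaseSix 6 := ⟨[137, 209], [],
[([1162, 1292, 1418, 1420, 1421, 1546, 1549, 1674, 2314, 2324, 2442, 2452, 2570, 2698, 2701], [[9, 10], [10, 10, 10]])],
(.leaf 0 [0, 1]),
List.forall_mem_cons.2 ⟨k6x0, List.forall_mem_nil _⟩,
by decide +kernel⟩

theorem c38 : CaseSix 38 := ⟨[137, 425, 418, 397, 209], [],
[([1162, 1163, 1165, 1291, 1292, 1293, 1418, 1420, 1421, 1546, 1547, 1549, 2314, 2315, 2316, 2317, 2323, 2324, 2325, 2442, 2443, 2444, 2445, 2450, 2452, 2453, 2570, 2571, 2572, 2573, 2578, 2579, 2581, 2701], [[9, 10], [9, 21], [10, 10, 10], [13, 13, 13, 13, 13], [13, 20, 20, 21], [21, 21, 21, 21], [45]])],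
(.split 0 1 1 3
(.split 3 1 1 2
(.split 0 2 1 3
(.split 3 2 1 1
(.leaf 0 [0, 1, 1, 1, 1, 2, 3]) (.leaf 0 [0, 2, 4, 1, 4, 2, 3])) (.leaf 0 [0, 2, 4, 1, 4, 2, 3])) (.leaf 0 [0, 3, 4, 1, 0, 2, 3])) (.leaf 0 [0, 3, 4, 1, 0, 2, 3])),
List.forall_mem_cons.2 ⟨k38x0, List.forall_mem_nil _⟩,
by decide +kernel⟩

theorem c22 : CaseSix 22 := ⟨[137, 353, 418, 404, 209], [2],
[([1162, 1163, 1164, 1165, 1291, 1292, 1293, 1418, 1420, 1421, 1549, 1676, 2314, 2316, 2317, 2323, 2324, 2325, 2442, 2443, 2444, 2445, 2450, 2452, 2453, 2572, 2573, 2581, 2700, 2701, 2708, 4620, 4628, 4629, 4645, 4748, 4756, 4757, 4772], [[9, 10], [9, 13, 21, 21], [9, 20, 36], [10, 10, 10], [10, 10, 20, 20], [10, 10, 36], [10, 18, 20], [12, 12, 12, 12, 12], [12, 18, 18], [13, 19, 37], [20, 20, 20, 20], [36, 36]])],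
(.split 0 2 1 2
(.split 3 2 1 2
(.leaf 0 [0, 1, 1, 1, 1, 0, 1, 1, 1, 1, 2, 3]) (.split 3 2 1 1
(.leaf 0 [0, 0, 2, 1, 1, 0, 1, 1, 1, 2, 2, 3]) (.leaf 0 [0, 0, 0, 4, 4, 0, 5, 1, 5, 0, 2, 3]))) (.leaf 0 [0, 0, 0, 4, 4, 0, 4, 1, 4, 0, 2, 3])),
List.forall_mem_cons.2 ⟨k22x0, List.forall_mem_nil _⟩,
by decide +kernel⟩

theorem c54 : CaseSix 54 := ⟨[137, 209, 418, 397, 425, 404], [2],
[([1162, 1163, 1164, 1165, 1291, 1292, 1293, 1418, 1420, 1421, 1549, 2314, 2315, 2316, 2317, 2323, 2324, 2325, 2442, 2443, 2444, 2445, 2450, 2452, 2453, 2572, 2573, 2581, 2701, 4621, 4629, 4645, 4749, 4757], [[9, 10], [9, 21], [10, 10, 10], [10, 10, 20, 21], [10, 12, 18, 21], [10, 18, 20], [10, 37], [12, 18, 18], [13, 13, 13, 13, 13], [13, 19, 19, 21], [21, 21, 21, 21], [37, 37], [45]])],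
(.split 0 1 1 3
(.split 4 1 1 2
(.split 0 4 1 3
(.split 2 4 1 2
(.split 3 4 1 2
(.leaf 0 [0, 1, 1, 1, 1, 6, 1, 6, 1, 1, 2, 0, 3]) (.leaf 0 [0, 2, 1, 1, 1, 6, 2, 6, 4, 4, 2, 4, 3])) (.leaf 0 [0, 2, 1, 6, 6, 6, 2, 6, 4, 4, 2, 4, 3])) (.leaf 0 [0, 4, 1, 6, 6, 6, 4, 6, 4, 4, 4, 4, 3])) (.leaf 0 [0, 3, 1, 6, 6, 6, 3, 6, 4, 0, 2, 5, 3])) (.leaf 0 [0, 3, 1, 6, 6, 6, 3, 6, 4, 0, 2, 5, 3])),
List.forall_mem_cons.2 ⟨k54x0, List.forall_mem_nil _⟩,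
by decide +kernel⟩

theorem c14 : CaseSix 14 := ⟨[137, 201, 209, 202, 281], [1],
[([1162, 1163, 1164, 1165, 1291, 1292, 1293, 1420, 1421, 1547, 1549, 1675, 1676, 2314, 2315, 2443, 2445, 2452, 2453, 2571, 2579, 2581, 2699, 2701, 2707, 2708, 3467, 3475, 3484, 3485, 3595, 3603, 3611, 3613, 3723, 3725, 3731, 3739, 3740], [[9, 10], [9, 19], [10, 10, 11], [10, 11, 19], [10, 27], [11, 11, 11, 11], [11, 11, 18], [11, 27, 27], [13, 18]]),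
([1163, 1291, 1292, 1293, 1420, 1421, 1547, 1549, 1675, 1676, 2314, 2315, 2317, 2323, 2443, 2445, 2452, 2453, 2571, 2573, 2579, 2581, 2699, 2701, 2707, 2708, 3467, 3484, 3485, 3595, 3604, 3611, 3613, 3723, 3725, 3731, 3739, 3740], [[9, 13], [10, 10, 11], [10, 11, 19], [10, 27], [11, 11, 11, 11], [11, 11, 18], [11, 27, 27]])],
(.split 1 0 1 1
(.leaf 0 [0, 1, 2, 3, 1, 4, 3, 5, 1]) (.leaf 1 [1, 2, 3, 1, 4, 3, 5])),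
List.forall_mem_cons.2 ⟨k14x0, List.forall_mem_cons.2 ⟨k14x1, List.forall_mem_nil _⟩⟩,
by decide +kernel⟩

theorem c46 : CaseSix 46 := ⟨[209, 397, 202, 281, 425, 418, 345, 201, 411, 137, 338], [1],
[([1162, 1163, 1164, 1165, 1291, 1292, 1293, 1420, 1421, 1547, 1549, 2314, 2315, 2316, 2317, 2323, 2324, 2325, 2443, 2444, 2445, 2452, 2453, 2571, 2572, 2573, 2579, 2581, 2701, 3467, 3468, 3469, 3475, 3476, 3477, 3484, 3485, 3595, 3596, 3597, 3603, 3604, 3605, 3611, 3613, 3725, 3733], [[9, 12], [9, 21], [10, 10, 11], [10, 10, 13, 21], [10, 11, 11, 21], [10, 11, 19], [10, 29], [11, 11, 11, 11], [11, 11, 18], [11, 11, 29, 29], [11, 13, 27, 29], [11, 19, 19, 21], [11, 27, 27], [13, 13, 13, 13, 13], [13, 13, 27, 27], [13, 18, 20, 21], [13, 19, 19, 19], [20, 29, 29], [21, 21, 21, 21], [29, 29, 29], [45]]),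
([1162, 1163, 1164, 1165, 1291, 1292, 1293, 1420, 1421, 1547, 1549, 2314, 2315, 2316, 2317, 2323, 2324, 2325, 2443, 2444, 2445, 2452, 2453, 2571, 2572, 2573, 2579, 2581, 2701, 3467, 3468, 3469, 3475, 3476, 3477, 3484, 3485, 3595, 3596, 3597, 3603, 3604, 3605, 3611, 3613, 3725, 3733], [[9, 10], [9, 21], [10, 10, 11], [10, 10, 21], [10, 11, 11, 21], [10, 11, 19], [10, 29], [11, 11, 11, 11], [11, 11, 18], [11, 11, 29, 29], [11, 13, 27, 29], [11, 19, 19, 21], [11, 27, 27], [12, 18], [13, 13, 13, 13, 13], [13, 13, 27, 27], [13, 19, 19, 19], [13, 20, 20, 29], [21, 21, 21, 21], [29, 29, 29], [45]])],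
(.split 0 1 1 1
(.split 4 1 1 1
(.split 2 1 1 1
(.split 4 1 1 1
(.split 0 4 2 1
(.split 2 4 1 1
(.split 3 4 1 1
(.leaf 0 [0, 1, 0, 0, 0, 2, 1, 3, 2, 0, 0, 2, 0, 4, 0, 0, 2, 0, 5, 0, 1]) (.leaf 0 [4, 4, 0, 4, 0, 2, 4, 3, 2, 4, 4, 2, 0, 4, 4, 4, 2, 4, 5, 4, 1])) (.leaf 0 [4, 4, 0, 4, 4, 2, 4, 3, 2, 4, 4, 6, 0, 4, 4, 4, 6, 4, 5, 4, 4])) (.leaf 0 [4, 4, 0, 4, 4, 4, 4, 3, 4, 4, 4, 4, 0, 4, 4, 4, 4, 4, 4, 4, 4])) (.split 0 2 1 1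
(.split 4 2 2 1
(.leaf 0 [7, 5, 0, 7, 2, 2, 5, 3, 2, 4, 4, 6, 0, 4, 4, 5, 6, 4, 5, 4, 1]) (.leaf 0 [7, 1, 0, 7, 0, 2, 1, 3, 2, 4, 4, 0, 0, 4, 4, 5, 0, 4, 5, 4, 1])) (.leaf 0 [7, 1, 0, 7, 0, 0, 1, 3, 0, 4, 4, 0, 0, 4, 4, 1, 0, 4, 5, 4, 1]))) (.split 0 1 1 2
(.split 4 1 1 1
(.leaf 0 [4, 4, 0, 4, 4, 2, 4, 3, 2, 4, 4, 6, 4, 4, 4, 4, 6, 4, 5, 4, 5]) (.leaf 0 [7, 1, 0, 5, 2, 2, 1, 3, 2, 4, 4, 6, 4, 4, 4, 5, 6, 4, 5, 4, 1])) (.leaf 0 [7, 1, 0, 7, 2, 2, 1, 3, 2, 4, 4, 6, 4, 4, 4, 7, 6, 4, 5, 4, 1]))) (.split 3 0 1 2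
(.split 4 0 1 1
(.leaf 0 [7, 2, 0, 0, 3, 2, 2, 3, 2, 3, 3, 3, 3, 4, 3, 3, 3, 3, 3, 3, 1]) (.leaf 0 [1, 1, 0, 0, 3, 2, 1, 3, 2, 3, 3, 3, 11, 4, 3, 3, 3, 11, 3, 11, 1])) (.leaf 1 [1, 1, 0, 1, 2, 2, 1, 3, 2, 5, 5, 5, 11, 1, 4, 5, 5, 5, 5, 8, 1]))) (.leaf 1 [9, 1, 0, 9, 2, 2, 1, 3, 2, 10, 10, 6, 11, 7, 4, 10, 6, 10, 5, 8, 1])),
List.forall_mem_cons.2 ⟨k46x0, List.forall_mem_cons.2 ⟨k46x1, List.forall_mem_nil _⟩⟩,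
by decide +kernel⟩

theorem c30 : CaseSix 30 := ⟨[137, 265, 209, 281, 267, 201, 353, 418, 411, 404, 266, 274, 273, 202], [2, 1, 3],
[([1162, 1163, 1164, 1165, 1291, 1292, 1293, 1420, 1421, 1549, 1676, 2314, 2315, 2316, 2323, 2324, 2325, 2443, 2444, 2445, 2452, 2453, 2572, 2573, 2581, 2700, 2701, 2708, 3469, 3475, 3484, 3596, 3597, 3604, 3605, 3613, 3724, 3725, 3732, 3733, 3740, 4620, 4628, 4636, 4637, 4645, 4748, 4749, 4756, 4764, 4765, 4772], [[9, 10], [9, 20], [10, 10, 11], [10, 11, 19], [10, 19, 20], [10, 28], [11, 11, 11, 12], [11, 11, 20, 20], [11, 12, 12, 28], [11, 12, 19, 20], [11, 18], [11, 36], [12, 12, 12, 12, 12], [12, 12, 12, 27], [12, 12, 19, 19], [12, 18, 19], [13, 19, 19], [13, 27], [20, 20, 20, 20], [28, 28, 28], [36, 36]]),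
([1162, 1163, 1164, 1165, 1291, 1292, 1293, 1420, 1421, 1549, 1676, 2315, 2316, 2323, 2325, 2443, 2444, 2445, 2452, 2453, 2572, 2573, 2581, 2700, 2701, 2708, 3467, 3468, 3469, 3475, 3476, 3477, 3484, 3485, 3596, 3597, 3604, 3605, 3613, 3724, 3725, 3732, 3733, 3740, 4620, 4621, 4628, 4629, 4636, 4637, 4645, 4748, 4749, 4756, 4757, 4764, 4765, 4772], [[9, 10], [9, 20], [10, 10, 13], [10, 11, 19], [10, 19, 20], [10, 28], [11, 11, 11, 12], [11, 11, 18], [11, 11, 20, 20], [11, 12, 12, 28], [11, 12, 19, 20], [11, 27, 27], [11, 36], [12, 12, 12, 12, 12], [12, 12, 12, 27], [12, 12, 19, 19], [12, 18, 19], [13, 18], [20, 20, 20, 20], [21, 27, 29], [28, 28, 28], [36, 36]]),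
([1162, 1163, 1164, 1165, 1291, 1292, 1293, 1420, 1421, 1549, 1676, 2314, 2315, 2316, 2323, 2324, 2325, 2443, 2444, 2445, 2452, 2453, 2572, 2573, 2581, 2700, 2701, 2708, 3468, 3484, 3596, 3597, 3604, 3605, 3613, 3724, 3725, 3732, 3733, 3740, 4620, 4628, 4636, 4645, 4748, 4749, 4756, 4764, 4772], [[9, 11], [9, 20], [10, 10, 11], [10, 11, 19], [10, 19, 20], [10, 28], [11, 11, 11, 12], [11, 11, 18], [11, 11, 20, 20], [11, 12, 12, 28], [11, 12, 19, 20], [11, 18, 20], [11, 36], [12, 12, 12, 12, 12], [12, 12, 19, 19], [12, 18, 19], [13, 19, 19], [13, 27], [20, 20, 20, 20], [28, 28, 28], [36, 36]]),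
([1162, 1163, 1165, 1291, 1292, 1293, 1420, 1421, 1549, 1676, 2314, 2315, 2316, 2317, 2323, 2324, 2325, 2443, 2444, 2445, 2452, 2453, 2572, 2573, 2581, 2700, 2701, 2708, 3467, 3468, 3469, 3475, 3476, 3484, 3485, 3596, 3597, 3604, 3613, 3724, 3725, 3732, 3740, 4620, 4621, 4628, 4636, 4645, 4748, 4749, 4756, 4764, 4772], [[9, 13], [10, 10, 13], [10, 11, 19], [10, 19, 20], [10, 28], [11, 11, 11, 12], [11, 11, 18], [11, 11, 20, 20], [11, 12, 12, 28], [11, 12, 19, 20], [11, 18, 20], [11, 27, 27], [11, 36], [12, 12, 12, 12, 12], [12, 12, 12, 27], [12, 12, 19, 19], [12, 18, 19], [13, 13, 27], [20, 20, 20, 20], [28, 28, 28], [36, 36]]),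
([1162, 1163, 1165, 1291, 1292, 1293, 1420, 1421, 1549, 1676, 2314, 2315, 2316, 2317, 2323, 2325, 2443, 2444, 2445, 2452, 2453, 2572, 2573, 2581, 2700, 2701, 2708, 3467, 3468, 3469, 3475, 3476, 3477, 3484, 3485, 3596, 3597, 3604, 3605, 3613, 3724, 3725, 3732, 3733, 3740, 4620, 4621, 4628, 4636, 4637, 4645, 4748, 4749, 4756, 4764, 4765, 4772], [[9, 13], [10, 10, 13], [10, 11, 19], [10, 19, 20], [10, 28], [11, 11, 11, 12], [11, 11, 18], [11, 11, 20, 20], [11, 12, 12, 28], [11, 12, 19, 20], [11, 18, 20], [11, 27, 27], [11, 36], [12, 12, 12, 12, 12], [12, 12, 12, 27], [12, 12, 19, 19], [12, 18, 19], [13, 13, 18], [20, 20, 20, 20], [21, 27, 29], [28, 28, 28], [36, 36]]),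
([1162, 1163, 1164, 1165, 1291, 1292, 1293, 1420, 1421, 1549, 1676, 2314, 2315, 2316, 2323, 2324, 2325, 2443, 2444, 2445, 2452, 2453, 2572, 2573, 2581, 2700, 2701, 2708, 3467, 3468, 3469, 3475, 3476, 3477, 3484, 3485, 3596, 3597, 3604, 3605, 3613, 3724, 3725, 3732, 3733, 3740, 4620, 4621, 4628, 4629, 4636, 4645, 4748, 4749, 4756, 4757, 4764, 4772], [[9, 13], [10, 10, 13], [10, 11, 19], [10, 19, 20], [10, 28], [11, 11, 11, 12], [11, 11, 18], [11, 11, 20, 20], [11, 12, 12, 28], [11, 12, 19, 20], [11, 18, 20], [11, 27, 29], [11, 36], [12, 12, 12, 12, 12], [12, 12, 12, 27], [12, 12, 19, 19], [12, 18, 19], [13, 13, 18], [13, 27, 27], [20, 20, 20, 20], [28, 28, 28], [36, 36]])],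
(.split 2 0 1 1
(.split 0 1 1 1
(.split 1 2 1 1
(.split 0 4 3 2
(.split 1 4 3 2
(.split 2 4 3 1
(.split 3 4 3 1
(.split 2 0 1 1
(.leaf 0 [0, 1, 2, 2, 0, 1, 3, 0, 4, 0, 5, 1, 6, 4, 0, 0, 5, 1, 7, 8, 9]) (.leaf 1 [0, 1, 5, 2, 0, 1, 3, 2, 0, 4, 0, 0, 1, 6, 4, 0, 0, 1, 7, 10, 8, 9])) (.leaf 0 [0, 6, 2, 2, 0, 6, 3, 0, 6, 0, 5, 6, 6, 6, 0, 0, 6, 6, 7, 8, 9])) (.leaf 0 [0, 6, 2, 2, 0, 6, 3, 0, 6, 0, 5, 6, 6, 6, 0, 0, 6, 6, 6, 6, 6])) (.leaf 0 [0, 6, 2, 2, 0, 6, 3, 6, 6, 6, 5, 6, 6, 6, 6, 0, 6, 6, 6, 6, 6])) (.leaf 0 [0, 6, 2, 2, 0, 6, 3, 6, 6, 6, 5, 6, 6, 6, 6, 0, 6, 6, 6, 6, 6])) (.leaf 2 [5, 1, 2, 2, 14, 1, 3, 2, 11, 4, 11, 14, 1, 6, 11, 14, 12, 1, 7, 8, 9])) (.split 0 4 3 1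
(.split 1 4 3 2
(.split 2 4 3 1
(.split 3 4 3 1
(.split 0 3 1 1
(.split 2 1 1 1
(.leaf 0 [0, 1, 2, 0, 0, 1, 3, 0, 4, 0, 0, 1, 6, 4, 0, 0, 0, 1, 7, 8, 9]) (.leaf 1 [0, 1, 0, 0, 0, 1, 3, 0, 0, 4, 0, 0, 1, 6, 4, 0, 0, 1, 7, 10, 8, 9])) (.split 0 2 1 1
(.split 1 2 1 1
(.leaf 1 [0, 0, 0, 0, 0, 0, 3, 0, 0, 4, 0, 0, 0, 6, 4, 0, 0, 0, 0, 0, 0, 0]) (.leaf 0 [0, 0, 2, 0, 0, 0, 3, 0, 0, 0, 0, 0, 0, 0, 0, 0, 0, 0, 0, 0, 0])) (.leaf 0 [0, 0, 2, 0, 0, 0, 3, 0, 0, 0, 0, 0, 0, 0, 0, 0, 0, 0, 0, 0, 0]))) (.leaf 0 [0, 6, 2, 0, 0, 6, 3, 0, 6, 0, 0, 6, 6, 6, 0, 0, 0, 6, 7, 8, 9])) (.leaf 0 [0, 6, 2, 0, 0, 6, 3, 0, 6, 0, 0, 6, 6, 6, 0, 0, 0, 6, 6, 6, 6])) (.leaf 0 [0, 6, 2, 0, 0, 6, 3, 0, 6, 0, 0, 6, 6, 6, 0, 0, 0, 6, 6, 6, 6])) (.leaf 0 [0, 6, 2, 0, 0, 6, 3, 0, 6, 0, 0, 6, 6, 6, 0, 0, 0, 6, 6, 6, 6]))) (.split 1 0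 1 1
(.split 0 3 2 3
(.split 1 3 2 5
(.leaf 1 [0, 1, 8, 8, 8, 1, 3, 8, 11, 4, 11, 8, 1, 6, 4, 11, 8, 1, 7, 8, 8, 9]) (.split 1 4 1 5
(.split 0 1 1 3
(.split 3 1 1 3
(.leaf 1 [0, 5, 0, 13, 13, 5, 3, 13, 3, 3, 3, 15, 5, 3, 3, 3, 13, 1, 3, 16, 8, 0]) (.leaf 1 [0, 1, 9, 13, 14, 1, 3, 13, 11, 4, 11, 8, 1, 6, 4, 11, 14, 1, 7, 8, 8, 9])) (.leaf 1 [0, 1, 9, 13, 14, 1, 3, 13, 11, 4, 11, 8, 1, 6, 4, 11, 14, 1, 7, 8, 8, 9])) (.leaf 1 [0, 1, 5, 13, 14, 1, 3, 13, 11, 4, 11, 15, 1, 6, 4, 11, 14, 1, 7, 3, 8, 9]))) (.split 0 4 1 3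
(.split 1 4 1 5
(.split 0 2 1 2
(.split 1 2 2 7
(.split 4 2 2 1
(.split 3 1 2 3
(.leaf 1 [0, 5, 0, 13, 13, 5, 3, 13, 3, 3, 3, 15, 5, 3, 3, 3, 13, 1, 3, 16, 8, 0]) (.leaf 1 [0, 1, 0, 13, 8, 1, 3, 13, 3, 4, 3, 15, 1, 6, 4, 3, 8, 1, 7, 8, 8, 8])) (.split 4 3 1 1
(.leaf 1 [0, 1, 0, 0, 0, 1, 3, 0, 0, 4, 0, 15, 1, 6, 4, 0, 0, 1, 7, 1, 8, 8]) (.leaf 1 [0, 1, 0, 0, 0, 1, 0, 0, 0, 4, 0, 15, 1, 6, 4, 0, 0, 1, 0, 0, 8, 9]))) (.split 1 3 1 7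
(.split 4 3 1 1
(.leaf 1 [0, 1, 0, 0, 0, 1, 3, 0, 0, 4, 0, 15, 1, 6, 4, 0, 0, 1, 7, 1, 8, 4]) (.leaf 1 [0, 1, 0, 0, 0, 1, 0, 0, 0, 4, 0, 15, 1, 6, 4, 0, 0, 1, 7, 0, 8, 9])) (.leaf 1 [0, 1, 0, 0, 0, 1, 0, 0, 0, 4, 0, 15, 1, 6, 4, 0, 0, 1, 7, 0, 8, 9]))) (.split 0 3 1 4
(.split 1 3 1 7
(.split 4 3 1 1
(.leaf 1 [0, 1, 0, 0, 0, 1, 3, 0, 0, 4, 0, 15, 1, 6, 4, 0, 0, 1, 6, 8, 8, 4]) (.leaf 1 [0, 1, 0, 0, 0, 1, 0, 0, 0, 4, 0, 15, 1, 6, 4, 0, 0, 1, 7, 0, 8, 9])) (.leaf 1 [0, 1, 0, 0, 0, 1, 0, 0, 0, 4, 0, 15, 1, 6, 4, 0, 0, 1, 7, 0, 8, 9])) (.leaf 1 [0, 1, 0, 0, 0, 1, 0, 0, 0, 4, 0, 15, 1, 6, 4, 0, 0, 1, 0, 0, 8, 9]))) (.leaf 1 [0, 1, 5, 13, 14, 1, 3, 13, 3, 4, 3, 15, 1, 6, 4, 3, 14, 1, 7, 3, 8, 9])) (.leaf 1 [0, 1, 5, 13, 3, 1, 3, 13, 3, 4, 3, 15, 1, 6, 4, 3, 3, 1, 6, 3, 8, 9]))) (.split 0 4 1 1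
(.split 1 4 2 1
(.split 3 4 2 1
(.split 2 1 2 1
(.leaf 3 [1, 12, 13, 14, 1, 3, 13, 11, 4, 11, 14, 2, 1, 6, 4, 11, 14, 10, 7, 8, 9]) (.split 0 2 1 3
(.split 1 2 1 2
(.split 3 0 1 2
(.leaf 4 [1, 13, 13, 13, 5, 3, 13, 3, 3, 3, 13, 15, 5, 6, 3, 3, 13, 10, 3, 16, 8, 0]) (.split 3 1 1 2
(.leaf 5 [1, 13, 13, 14, 1, 3, 13, 11, 3, 11, 14, 16, 1, 6, 3, 11, 14, 10, 16, 7, 8, 0]) (.leaf 5 [1, 8, 13, 8, 1, 3, 13, 11, 4, 11, 8, 8, 1, 6, 4, 11, 8, 10, 8, 7, 8, 9]))) (.leaf 4 [1, 14, 13, 14, 1, 3, 13, 11, 4, 11, 14, 15, 1, 6, 4, 11, 14, 10, 7, 10, 8, 9])) (.leaf 5 [1, 5, 13, 14, 1, 3, 13, 11, 4, 11, 14, 5, 1, 6, 4, 11, 14, 10, 5, 7, 8, 9]))) (.leaf 3 [1, 12, 13, 14, 1, 3, 13, 11, 6, 11, 14, 6, 1, 6, 6, 11, 14, 6, 7, 8, 9])) (.leaf 3 [1, 12, 13, 14, 1, 3, 13, 11, 6, 11, 14, 3, 1, 6, 6, 11, 14, 6, 7, 6, 6])) (.leaf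 5 [1, 6, 3, 6, 6, 3, 3, 6, 6, 6, 6, 6, 6, 6, 6, 6, 6, 6, 6, 6, 6, 6])))),
List.forall_mem_cons.2 ⟨k30x0, List.forall_mem_cons.2 ⟨k30x1, List.forall_mem_cons.2 ⟨k30x2, List.forall_mem_cons.2 ⟨k30x3, List.forall_mem_cons.2 ⟨k30x4, List.forall_mem_cons.2 ⟨k30x5, List.forall_mem_nil _⟩⟩⟩⟩⟩⟩,
by decide +kernel⟩

theorem c62 : CaseSix 62 := by
  obtain ⟨t, ht⟩ := q113
  have e : List.map pieces [137, 281, 411, 397, 425, 418, 345, 267, 202, 273, 274, 209, 404, 201, 265] ++ List.map xp [1, 3, 2] = fA := by decide +kernel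
  refine ⟨[137, 281, 411, 397, 425, 418, 345, 267, 202, 273, 274, 209, 404, 201, 265], [1, 3, 2], kA, t,
List.forall_mem_cons.2 ⟨k62x0, List.forall_mem_cons.2 ⟨k62x1, List.forall_mem_cons.2 ⟨k62x2, List.forall_mem_cons.2 ⟨k62x3, List.forall_mem_cons.2 ⟨k62x4, List.forall_mem_cons.2 ⟨k62x5, List.forall_mem_cons.2 ⟨k62x6, List.forall_mem_cons.2 ⟨k62x7, List.forall_mem_cons.2 ⟨k62x8, List.forall_mem_cons.2 ⟨k62x9, List.forall_mem_nil _⟩⟩⟩⟩⟩⟩⟩⟩⟩⟩, ?_⟩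
  rw [e, ht, Bool.and_true]
  decide +kernel

theorem all (g : ℕ) (hg : g < 2 ^ 5) : CaseSix (2 * g) := by
  interval_cases g
  exacts [c0, c2, c4, c6, c8, c10, c12, c14, c16, c18, c20, c22, c24, c26, c28, c30, c32, c34, c36, c38, c40, c42, c44, c46, c48, c50, c52, c54, c56, c58, c60, c62]

end Pool.Agent.P.MP_754fe6_co.D6
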