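import Mathlib
import Pool.Agent.P.MP_754fe6_co.Ax

namespace Pool.Agent.P.MP_754fe6_co.Rup

/-! A faster form of the checker: clauses are turned into masks once. -/

variable {P : ℕ → Prop}

/-- truth of a position: three positions per variable, the first one unused -/
def TrB (P : ℕ → Prop) (p : ℕ) : Prop := (p % 3 = 1 ∧ P (p / 3)) ∨ (p % 3 = 2 ∧ ¬ P (p / 3))

theorem trB_pos (l : ℕ) : TrB P (l + l / 2 + 1) ↔ Tr P l := by
  unfold TrB
  rcases Nat.even_or_odd' l with ⟨v, rfl | rfl⟩
  · rw [Tr_even, show (2 * v + 2 * v / 2 + 1) % 3 = 1 by omega,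
      show (2 * v + 2 * v / 2 + 1) / 3 = v by omega]
    simp
  · rw [Tr_odd, show (2 * v + 1 + (2 * v + 1) / 2 + 1) % 3 = 2 by omega,
      show (2 * v + 1 + (2 * v + 1) / 2 + 1) / 3 = v by omega]
    simp

/-- some position of the mask is true -/
def SatM (P : ℕ → Prop) (M : ℕ) : Prop := ∃ p, M.testBit p = true ∧ TrB P p

/-- all positions of the mask are false -/
def InvB (P : ℕ → Prop) (F : ℕ) : Prop := ∀ p, F.testBit p = true → ¬ TrB P p

theorem satM_taut : SatM P 48 := by
  by_cases h : P 1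
  · exact ⟨4, by decide, Or.inl ⟨rfl, h⟩⟩
  · exact ⟨5, by decide, Or.inr ⟨rfl, h⟩⟩

theorem bit_lor (F l k : ℕ) :
    (Nat.lor F (Nat.shiftLeft 1 l)).testBit k = (F.testBit k || decide (l = k)) := by
  have : Nat.lor F (Nat.shiftLeft 1 l) = F ||| (1 <<< l) := rfl
  rw [this, Nat.testBit_or, Nat.one_shiftLeft, Nat.testBit_two_pow]

noncomputable section

def pos (l : ℕ) : ℕ := Nat.succ (Nat.add l (Nat.div l 2))

def mk3 (d fuel : ℕ) : ℕ → ℕ → ℕ := Nat.rec (motive := fun _ => ℕ → ℕ → ℕ) (fun _ _ => d)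
  (fun _ ih c acc => Nat.rec acc (fun m _ => ih (Nat.div (Nat.succ m) 65536)
    (Nat.lor acc (Nat.shiftLeft 1 (pos (Nat.mod (Nat.succ m) 65536))))) c) fuel

theorem mk3_sat (fuel : ℕ) : ∀ c acc, (SatC P c ∨ SatM P acc) → SatM P (mk3 48 fuel c acc) := by
  induction fuel with
  | zero => exact fun _ _ _ => satM_taut
  | succ f ih =>
    intro c acc h
    cases c with
    | zero => exact h.resolve_left fun h => h.ne rfl
    | succ m =>
      refine ih ((m + 1) / 65536) (Nat.lor acc (Nat.shiftLeft 1 (pos ((m + 1) % 65536)))) ?_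
      rcases h with h | ⟨l, h1, h2⟩
      · rcases h.inv with h | h
        · exact Or.inr ⟨pos ((m + 1) % 65536), by rw [bit_lor]; simp, (trB_pos _).2 h⟩
        · exact Or.inl h
      · exact Or.inr ⟨l, by rw [bit_lor, h1]; rfl, h2⟩

theorem mk3_inv (fuel : ℕ) : ∀ c acc, ¬ SatC P c → InvB P acc → InvB P (mk3 0 fuel c acc) := by
  induction fuel with
  | zero => exact fun _ _ _ _ p hp => absurd hp (by simp [mk3])
  | succ f ih =>
    intro c acc hc h
    cases c with
    | zero => exact h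
    | succ m =>
      refine ih ((m + 1) / 65536) (Nat.lor acc (Nat.shiftLeft 1 (pos ((m + 1) % 65536))))
        (fun hh => hc (.there _ hh)) fun p hp => ?_
      rw [bit_lor, Bool.or_eq_true] at hp
      rcases hp with hp | hp
      · exact h p hp
      · rw [← of_decide_eq_true hp]
        exact fun hh => hc (.here _ (by omega) ((trB_pos _).1 hh))

def msk (t : T) (k : ℕ) : ℕ := mk3 48 1000 (get t k) 0

def prp (R F : ℕ) (k : ℕ → Bool) : Bool :=
  Bool.rec (Bool.rec false (k (Nat.lor F (Nat.shiftRight (Nat.mul R 5) 1)))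
    (Nat.beq (Nat.land R (Nat.sub R 1)) 0)) true (Nat.beq R 0)

theorem five_bits {j : ℕ} (h : (5 : ℕ).testBit j = true) : j = 0 ∨ j = 2 := by
  match j with
  | 0 => exact Or.inl rfl
  | 1 => exact absurd h (by decide)
  | 2 => exact Or.inr rfl
  | j + 3 =>
    rw [Nat.testBit_lt_two_pow (by have := Nat.one_le_two_pow (n := j); rw [pow_add]; omega)] at h
    exact absurd h (by simp)

theorem prp_ok {R F : ℕ} {k : ℕ → Bool} (hR : SatM P R) (hF : InvB P F)
    (hk : ∀ F', InvB P F' → k F' = false) : prp R F k = false := by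
  obtain ⟨p, h1, h2⟩ := hR
  have h0 : R ≠ 0 := by
    rintro rfl
    simp at h1
  unfold prp
  cases hz : Nat.beq R 0 with
  | true => exact absurd (Nat.eq_of_beq_eq_true hz) h0
  | false =>
  cases hb : Nat.beq (Nat.land R (Nat.sub R 1)) 0 with
  | false => rfl
  | true =>
    obtain ⟨s, rfl⟩ := (Nat.and_sub_one_eq_zero_iff_isPowerOfTwo h0).1 (Nat.eq_of_beq_eq_true hb)
    rw [Nat.testBit_two_pow] at h1
    obtain rfl : s = p := of_decide_eq_true h1
    obtain ⟨u, rfl⟩ : ∃ u, s = u + 1 := ⟨s - 1, by rcases h2 with h | h <;> omega⟩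
    refine hk _ fun q hq => ?_
    have e : Nat.lor F (Nat.shiftRight (Nat.mul (2 ^ (u + 1)) 5) 1) = F ||| 5 * 2 ^ u := by
      change F ||| (2 ^ (u + 1) * 5) >>> 1 = _
      rw [Nat.shiftRight_one, pow_succ]
      congr 1
      omega
    rw [e, Nat.testBit_or, Bool.or_eq_true, Nat.testBit_mul_two_pow, Bool.and_eq_true] at hq
    rcases hq with hq | ⟨q1, q2⟩
    · exact hF q hq
    · have q1 := of_decide_eq_true q1
      have q2 := five_bits q2
      rintro (⟨a, b⟩ | ⟨a, b⟩) <;> rcases h2 with ⟨c, d⟩ | ⟨c, d⟩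
      · omega
      · exact d ((show q / 3 = (u + 1) / 3 by omega) ▸ b)
      · exact b ((show (u + 1) / 3 = q / 3 by omega) ▸ d)
      · omega

theorem SatM.rem {M F : ℕ} (h : SatM P M) (hF : InvB P F) :
    SatM P (Nat.xor M (Nat.land M F)) := by
  obtain ⟨l, h1, h2⟩ := h
  refine ⟨l, ?_, h2⟩
  have : Nat.xor M (Nat.land M F) = M ^^^ (M &&& F) := rfl
  rw [this, Nat.testBit_xor, Nat.testBit_and, h1]
  cases e : F.testBit l with
  | false => rfl
  | true => exact absurd h2 (hF l e)

def rup2 (t : T) (id fuel : ℕ) : ℕ → ℕ → Bool := Nat.rec (motive := fun _ => ℕ → ℕ → Bool)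
  (fun _ _ => false)
  (fun _ ih h F => force (Nat.mod h 65536) fun k => Bool.rec false
    (prp (Nat.xor (msk t k) (Nat.land (msk t k) F)) F (ih (Nat.div h 65536)))
    (Nat.ble (Nat.succ k) id)) fuel

theorem rup2_ok {t : T} {id : ℕ} (ht : ∀ k, k < id → SatC P (get t k)) (fuel : ℕ) :
    ∀ h F, InvB P F → rup2 t id fuel h F = false := by
  induction fuel with
  | zero => exact fun _ _ _ => rfl
  | succ f ih =>
    intro h F hF
    have e : rup2 t id (f + 1) h F = force (Nat.mod h 65536) fun k => Bool.rec false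
        (prp (Nat.xor (msk t k) (Nat.land (msk t k) F)) F (rup2 t id f (Nat.div h 65536)))
        (Nat.ble (Nat.succ k) id) := rfl
    rw [e, force_eq]
    cases hb : Nat.ble (Nat.succ (Nat.mod h 65536)) id with
    | false => rfl
    | true =>
      exact prp_ok ((mk3_sat _ _ _ (Or.inl (ht _ (Nat.le_of_ble_eq_true hb)))).rem hF) hF (ih _)

def step2 (ax : ℕ → ℕ → Bool) (t : T) (id a b : ℕ) : Bool :=
  Bool.rec (force id fun id => rup2 t id 100000 (Nat.div b 2) (mk3 0 1000 a 0))
    (ax a (Nat.div b 2)) (Nat.beq (Nat.mod b 2) 1)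

theorem step2_ok {ax : ℕ → ℕ → Bool} (hax : ∀ a b, ax a b = true → SatC P a) {t : T} {id a b : ℕ}
    (ht : ∀ k, k < id → SatC P (get t k)) (h : step2 ax t id a b = true) : SatC P a := by
  unfold step2 at h
  cases hb : Nat.beq (Nat.mod b 2) 1 with
  | true =>
    rw [hb] at h
    exact hax _ _ h
  | false =>
    rw [hb] at h
    by_contra hc
    simp only [force_eq] at h
    rw [rup2_ok ht _ _ _ (mk3_inv _ _ _ hc fun l hl => by simp at hl)] at h
    exact absurd h (by simp)

theorem refute2_ok {ax : ℕ → ℕ → Bool} (hax : ∀ a b, ax a b = true → SatC P a) {t : T} {last : ℕ}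
    (h0 : Nat.beq (get t last) 0 = true) (h : all (step2 ax t) t 0 1 = true) : False := by
  have key : ∀ n, SatC P (get t n) := by
    intro n
    induction n using Nat.strong_induction_on with
    | _ n ih =>
      rcases all_ok t 0 1 h n with e | ⟨b, e⟩
      · rw [e]
        exact taut
      · rw [zero_add, one_mul] at e
        exact step2_ok hax ih e
  exact (key last).ne (Nat.eq_of_beq_eq_true h0)

theorem ax_ok {r fm tab : ℕ} (hr : r ≤ 6) {ord : List ℕ} {bad : List (List ℕ)} {X : MSys r fm}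
    (h1 : ∀ p ∈ ord, X.s (p % 128) ≤ X.s (p / 128)) (h2 : ∀ W ∈ bad, X.Φ < (W.map X.s).sum)
    (a b : ℕ) (hab : ax r fm tab ord bad a b = true) : SatC (X.P tab) a := by
  unfold ax at hab
  split_ifs at hab
  · exact two_ok (kMono_ok h1 _) hab
  · unfold axChain at hab
    by_contra hc
    cases e : bad[b / 4]? with
    | none => rw [e] at hab; exact absurd hab (by simp)
    | some W =>
      rw [e] at hab
      have := chain_ok _ _ _ _ hab hc
      have := h2 W (List.mem_of_getElem? e)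
      have := X.Fnn (cd tab a / 8 % 64)
      linarith
  · exact axBlk_ok hr hab
  · exact two_ok kSym_ok hab

theorem kok2 {r fm : ℕ} (hr : r ≤ 6) {ord : List ℕ} {bad : List (List ℕ)} (tab : ℕ) (t : T)
    (last : ℕ) (h0 : Nat.beq (get t last) 0 = true)
    (h : all (step2 (ax r fm tab ord bad) t) t 0 1 = true) : KOK r fm (ord, bad) :=
  fun _ h1 h2 => refute2_ok (ax_ok hr h1 h2) h0 h

end

end Pool.Agent.P.MP_754fe6_co.Rup
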