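import Mathlib
import Pool.Agent.P.MP_754fe6_co.Rup2

set_option maxRecDepth 100000

namespace Pool.Agent.P.MP_754fe6_co.D6

open Rup

abbrev n := T.node
abbrev z := T.nil

end Pool.Agent.P.MP_754fe6_co.D6
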