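import Mathlib

namespace Pool.Agent.P.MP_754fe6_co

/-- the simplex of exponent vectors `x 0, ..., x (m - 1) ≥ 0` with sum at most one -/
def expSimplex (m : ℕ) : Set (Fin m → ℝ) := {x | (∀ i, 0 ≤ x i) ∧ ∑ i, x i ≤ 1}

end Pool.Agent.P.MP_754fe6_co
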