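import Mathlib
import Pool.Agent.P.MP_754fe6_co.Sched
import Pool.Agent.Lib.Ramsey.Basic

namespace Pool.Agent.P.MP_754fe6_co.Ends

open Finset

/-- Ramsey theorem for all subsets of size at most `q` at once -/
theorem hom (C : Type) [Finite C] [Nonempty C] (q : ℕ) : ∀ M : ℕ, ∃ N : ℕ,
    ∀ (ι : Type) [LinearOrder ι] (A : Finset ι), N ≤ A.card → ∀ χ : Finset ι → C,
      ∃ B ⊆ A, B.card = M ∧ ∃ col : ℕ → C, ∀ Q ⊆ B, Q.card ≤ q → χ Q = col Q.card := by
  classical
  induction q with
  | zero =>
    intro M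
    refine ⟨M, fun ι _ A hA χ => ?_⟩
    obtain ⟨B, h1, h2⟩ := exists_subset_card_eq hA
    refine ⟨B, h1, h2, fun _ => χ ∅, fun Q _ hQ => ?_⟩
    rw [card_eq_zero.1 (Nat.le_zero.1 hQ)]
  | succ q ih =>
    intro M
    obtain ⟨N1, h1⟩ := ih M
    obtain ⟨N, hN⟩ := Pool.Agent.Lib.Ramsey.ramsey C (q + 1) N1
    refine ⟨N, fun ι _ A hA χ => ?_⟩
    obtain ⟨B1, b1, b2, c, hc⟩ := hN ι A hA fun f => χ (univ.image f)
    obtain ⟨B, b3, b4, col, hcol⟩ := h1 ι B1 b2.ge χ
    refine ⟨B, b3.trans b1, b4, fun w => if w = q + 1 then c else col w, fun Q hQ hq => ?_⟩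
    beta_reduce
    by_cases e : Q.card = q + 1
    · rw [if_pos e, ← hc (Q.orderEmbOfFin e) (Q.orderEmbOfFin e).strictMono
        fun j => b3 (hQ (Q.orderEmbOfFin_mem e j))]
      congr 1
      apply coe_injective
      rw [coe_image, coe_univ, Set.image_univ, range_orderEmbOfFin]
    · rw [if_neg e]
      exact hcol Q hQ (by omega)

/-- a large set contains `q` elements that can be placed last in any order -/
theorem tail (q : ℕ) : ∃ R : ℕ, ∀ (κ : Type) [Fintype κ] [DecidableEq κ] [LinearOrder κ]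
    (X : Sys κ) (a : ℕ → ℝ),
    (∀ z, 1 ≤ z → z ≤ q → X.Φ < z * a z) → ∀ A : Finset κ, R ≤ A.card →
      ∃ Z ⊆ A, Z.card = q ∧ ∀ Q ⊆ Z, ∀ x ∈ Q, X.δ (univ \ Q) x < a Q.card := by
  obtain ⟨R, hR⟩ := hom (Fin (q + 1) → Prop) q q
  refine ⟨R, fun κ _ _ _ X a ha A hA => ?_⟩
  obtain ⟨Z, z1, z2, col, hcol⟩ := hR κ A hA fun Q z => ∃ x ∈ Q, a z ≤ X.δ (univ \ Q) x
  refine ⟨Z, z1, z2, fun Q hQ x hx => ?_⟩
  by_contra hc
  push Not at hc
  have wq : Q.card ≤ q := z2 ▸ card_le_card hQ
  have w1 : 1 ≤ Q.card := card_pos.2 ⟨x, hx⟩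
  have all : ∀ P ⊆ Q, P.Nonempty → ∃ y ∈ P, a Q.card ≤ X.δ (univ \ P) y := by
    intro P hP hne
    obtain ⟨P', p1, p2, p3⟩ := exists_subsuperset_card_eq (s := {x}) (t := Q) (n := P.card)
      (singleton_subset_iff.2 hx) (by rw [card_singleton]; exact hne.card_pos) (card_le_card hP)
    have e1 := congrFun (hcol P (hP.trans hQ) ((card_le_card hP).trans wq)) ⟨Q.card, by omega⟩
    have e2 := congrFun (hcol P' (p2.trans hQ) ((card_le_card p2).trans wq)) ⟨Q.card, by omega⟩
    rw [p3, ← e1] at e2
    exact e2 ▸ ⟨x, p1 (mem_singleton_self x),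
      hc.trans (X.δmono _ _ _ (sdiff_subset_sdiff subset_rfl p2))⟩
  have bound : ∀ k, ∀ P ⊆ Q, P.card = k → X.F (univ \ P) + k * a Q.card ≤ X.F univ := by
    intro k
    induction k with
    | zero =>
      intro P _ hP
      rw [card_eq_zero.1 hP]
      simp
    | succ k ih =>
      intro P hP hk
      obtain ⟨y, y1, y2⟩ := all P hP (card_pos.1 (by omega))
      have := ih (P.erase y) ((erase_subset _ _).trans hP) (by rw [card_erase_of_mem y1]; omega)
      have st := X.Fstep (univ \ P) y (by simp [y1])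
      have e : insert y (univ \ P) = univ \ P.erase y := by
        ext t
        by_cases h : t = y <;> simp [h]
      rw [e] at st
      push_cast
      linarith
  have := bound _ Q subset_rfl rfl
  have := X.F0 (univ \ Q)
  have := X.Fle
  have := ha _ w1 wq
  linarith

/-- move the set `Z` to the end of an ordering -/
theorem move {κ : Type} [Fintype κ] [DecidableEq κ] (f : ℕ → κ)
    (hf : Set.InjOn f (range (Fintype.card κ) : Finset ℕ)) (Z : Finset κ) (h : ℕ)
    (hh : h + Z.card ≤ Fintype.card κ) (hZ : ∀ t, t < h → f t ∉ Z) :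
    ∃ g : ℕ → κ, Set.InjOn g (range (Fintype.card κ) : Finset ℕ) ∧ (∀ t, t < h → g t = f t) ∧
      (∀ t, t < Fintype.card κ → g t ∈ Z ∨ ∃ u, t ≤ u ∧ u < Fintype.card κ ∧ g t = f u) ∧
      ∀ t, Fintype.card κ ≤ t + Z.card → t < Fintype.card κ → g t ∈ Z := by
  classical
  set r := Fintype.card κ with hr
  let p : ℕ → Prop := fun t => r ≤ t ∨ f t ∉ Z
  have inf : {t | p t}.Infinite :=
    (Set.Ici_infinite r).mono fun t ht => Or.inl ht
  have surj : (range r).image f = univ :=
    eq_univ_of_card _ (by rw [card_image_of_injOn hf, card_range])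
  have cnt : Nat.count p r + Z.card = r := by
    rw [Nat.count_eq_card_filter_range]
    have e : Z.card = ((range r).filter fun t => ¬ p t).card := by
      symm
      refine card_bij (fun t _ => f t) ?_ ?_ ?_
      · intro t ht
        have := (mem_filter.1 ht).2
        simp only [p, not_or, not_not] at this
        exact this.2
      · intro a ha b hb e
        exact hf (mem_coe.2 (mem_filter.1 ha).1) (mem_coe.2 (mem_filter.1 hb).1) e
      · intro z hz
        obtain ⟨t, t1, t2⟩ := mem_image.1 (surj ▸ mem_univ z)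
        refine ⟨t, mem_filter.2 ⟨t1, ?_⟩, t2⟩
        have := mem_range.1 t1
        simp only [p, not_or, not_not]
        exact ⟨by omega, t2 ▸ hz⟩
    rw [e, card_filter_add_card_filter_not, card_range]
  have lt : ∀ t, t + Z.card < r → Nat.nth p t < r := fun t ht =>
    Nat.nth_lt_of_lt_count (by omega)
  have nz : ∀ t, t + Z.card < r → f (Nat.nth p t) ∉ Z := fun t ht =>
    (Nat.nth_mem_of_infinite inf t).resolve_left (not_le.2 (lt t ht))
  let e := Z.equivFin.symm
  let g : ℕ → κ := fun t => if t + Z.card < r then f (Nat.nth p t) else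
    if ht : t + Z.card - r < Z.card then (e ⟨_, ht⟩ : κ) else f t
  have g1 : ∀ t, t + Z.card < r → g t = f (Nat.nth p t) := fun t ht => if_pos ht
  have g2 : ∀ t, r ≤ t + Z.card → ∀ ht : t + Z.card - r < Z.card, g t = (e ⟨_, ht⟩ : κ) :=
    fun t h1 ht => (if_neg (by omega)).trans (dif_pos ht)
  have gZ : ∀ t, r ≤ t + Z.card → t < r → g t ∈ Z := fun t h1 h2 => by
    rw [g2 t h1 (by omega)]
    exact (e _).2
  refine ⟨g, ?_, ?_, ?_, gZ⟩
  · intro a ha b hb hab
    have ha' : a < r := by simpa using ha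
    have hb' : b < r := by simpa using hb
    by_cases h1 : a + Z.card < r <;> by_cases h2 : b + Z.card < r
    · rw [g1 a h1, g1 b h2] at hab
      exact Nat.nth_injective inf (hf (by simpa using lt a h1) (by simpa using lt b h2) hab)
    · exact absurd (hab ▸ gZ b (by omega) hb') (g1 a h1 ▸ nz a h1)
    · exact absurd (hab ▸ gZ a (by omega) ha') (g1 b h2 ▸ nz b h2)
    · rw [g2 a (by omega) (by omega), g2 b (by omega) (by omega)] at hab
      have := congrArg Fin.val (e.injective (Subtype.ext hab))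
      simp only at this
      omega
  · intro t ht
    rw [g1 t (by omega)]
    congr 1
    have c : Nat.count p t = t :=
      Nat.count_of_forall fun u hu => Or.inr (hZ u (by omega))
    have := Nat.nth_count (p := p) (n := t) (Or.inr (hZ t ht))
    rwa [c] at this
  · intro t ht
    by_cases h1 : t + Z.card < r
    · exact Or.inr ⟨_, (Nat.nth_strictMono inf).le_apply, lt t h1, g1 t h1⟩
    · exact Or.inl (gZ t (by omega) ht)

/-- the last `q` places are filled with free elements -/
theorem finish (q : ℕ) : ∃ R : ℕ, ∀ (κ : Type) [Fintype κ] [DecidableEq κ]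
    [LinearOrder κ] (X : Sys κ) (s : ℕ → ℕ → ℝ) (a : ℕ → ℝ) (f : ℕ → κ) (A : Finset κ),
    2 * q ≤ Fintype.card κ → (∀ z, 1 ≤ z → z ≤ q → X.Φ < z * a z) →
    Set.InjOn f (range (Fintype.card κ) : Finset ℕ) →
    (∀ j i u, 1 ≤ j → j ≤ q → j ≤ i → i ≤ u → i + q < Fintype.card κ → u < Fintype.card κ →
      X.δ ((range j).image f) (f u) < s j i) →
    (∀ x ∈ A, x ∉ (range q).image f ∧ ∀ j i, 1 ≤ j → j ≤ q → j ≤ i → i < Fintype.card κ →
      X.δ ((range j).image f) x < s j i) → R ≤ A.card →
    ∃ g : ℕ → κ, Set.InjOn g (range (Fintype.card κ) : Finset ℕ) ∧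
      (∀ j i, 1 ≤ j → j ≤ q → j ≤ i → i < Fintype.card κ →
        X.δ ((range j).image g) (g i) < s j i) ∧
      ∀ j i, Fintype.card κ ≤ j + q → j ≤ i → i < Fintype.card κ →
        X.δ ((range j).image g) (g i) < a (Fintype.card κ - j) := by
  classical
  obtain ⟨R, hR⟩ := tail q
  refine ⟨R, fun κ _ _ _ X s a f A hr ha f1 f2 mA hA => ?_⟩
  set r := Fintype.card κ with hrr
  obtain ⟨Z, z1, z2, z3⟩ := hR κ X a ha A hA
  obtain ⟨g, g1, g2, g3, g4⟩ := move f f1 Z q (by omega) fun t ht hz =>
    (mA _ (z1 hz)).1 (mem_image_of_mem _ (mem_range.2 ht))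
  refine ⟨g, g1, fun j i j1 j2 j3 j4 => ?_, fun j i j1 j2 j3 => ?_⟩
  · have e : (range j).image g = (range j).image f :=
      image_congr fun t ht => g2 t (by have : t < j := by simpa using ht
                                       omega)
    rw [e]
    by_cases h : g i ∈ Z
    · exact (mA _ (z1 h)).2 j i j1 j2 j3 j4
    · obtain ⟨u, u1, u2, u3⟩ := (g3 i j4).resolve_left h
      rw [u3]
      exact f2 j i u j1 j2 j3 u1 (by by_contra hh; exact h (g4 i (by omega) j4)) u2
  · have c : ((Ico j r).image g).card = r - j := by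
      rw [card_image_of_injOn (g1.mono fun t ht => by
        have := mem_Ico.1 (mem_coe.1 ht)
        simpa using this.2), Nat.card_Ico]
    have e : (range j).image g = univ \ (Ico j r).image g := by
      refine eq_of_subset_of_card_le (fun x hx => ?_) ?_
      · obtain ⟨t, t1, rfl⟩ := mem_image.1 hx
        have t2 := mem_range.1 t1
        refine mem_sdiff.2 ⟨mem_univ _, fun h => ?_⟩
        obtain ⟨u, u1, u2⟩ := mem_image.1 h
        have u3 := mem_Ico.1 u1
        have := g1 (by simpa using u3.2) (by simp; omega) u2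
        omega
      · rw [card_sdiff_of_subset (subset_univ _), c, card_univ, card_image_of_injOn
          (g1.mono fun t ht => by
            have : t < j := by simpa using ht
            simp; omega), card_range]
        omega
    rw [e, ← c]
    refine z3 _ (fun x hx => ?_) _ (mem_image_of_mem _ (mem_Ico.2 ⟨j2, j3⟩))
    obtain ⟨u, u1, rfl⟩ := mem_image.1 hx
    have u3 := mem_Ico.1 u1
    exact g4 u (by omega) u3.2

/-- the scheduling lemma for a short head and a short tail -/
theorem sched (q : ℕ) (hq : 1 ≤ q) : ∃ r0 : ℕ, ∀ (κ : Type) [Fintype κ] [DecidableEq κ]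
    [LinearOrder κ] [Inhabited κ] (X : Sys κ) (s : ℕ → ℕ → ℝ) (a : ℕ → ℝ),
    r0 ≤ Fintype.card κ → X.Slack s → (∀ z, 1 ≤ z → z ≤ q → X.Φ < z * a z) →
    (∀ z, 1 ≤ z → z ≤ q → a q ≤ a z) →
    ∃ g : ℕ → κ, Set.InjOn g (range (Fintype.card κ) : Finset ℕ) ∧
      (∀ j i, 1 ≤ j → j ≤ q → j ≤ i → i < Fintype.card κ →
        X.δ ((range j).image g) (g i) < s j i) ∧
      ∀ j i, Fintype.card κ ≤ j + q → j ≤ i → i < Fintype.card κ →
        X.δ ((range j).image g) (g i) < a (Fintype.card κ - j) := by
  classical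
  obtain ⟨R, hR⟩ := finish q
  refine ⟨2 * q + R + q * (2 * q + R) + 2, fun κ _ _ _ _ X s a hr hs ha ha2 => ?_⟩
  obtain ⟨f, f1, f2⟩ := hs.sched
  set r := Fintype.card κ with hrr
  obtain ⟨A, mA⟩ : ∃ A : Finset κ, ∀ x, x ∈ A ↔ x ∉ (range q).image f ∧
      ∀ j, 1 ≤ j → j ≤ q → X.δ ((range j).image f) x < s j (r - 1) :=
    ⟨univ.filter fun x => x ∉ (range q).image f ∧
      ∀ j, 1 ≤ j → j ≤ q → X.δ ((range j).image f) x < s j (r - 1), fun x => by simp⟩
  rcases le_or_gt R A.card with hA | hA
  · exact hR κ X s a f A (by omega) ha f1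
      (fun j i u j1 _ j3 j4 _ j6 =>
        (f2 j u j1 (by omega) j6).trans_le (hs.anti j j i u j1 le_rfl j4))
      (fun x hx => ⟨((mA x).1 hx).1, fun j i j1 j2 _ j4 => (((mA x).1 hx).2 j j1 j2).trans_le
        (hs.anti j j i (r - 1) j1 le_rfl (by omega))⟩) hA
  · refine ⟨f, f1, fun j i j1 _ j3 j4 => f2 j i j1 j3 j4, fun j i j1 j2 j3 => ?_⟩
    have nin : ∀ t u, t ≤ u → u < r → f u ∉ (range t).image f := by
      intro t u h1 h2 h
      obtain ⟨v, v1, v2⟩ := mem_image.1 h
      have v3 := mem_range.1 v1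
      have := f1 (by simp; omega) (by simpa using h2) v2
      omega
    set σ := s 1 (r - 1) with hσ
    have σ0 : 0 ≤ σ := hs.nn _ _
    have low : ∀ t, q + t ≤ r → σ * (((Ico q (q + t)).filter fun u => f u ∉ A).card : ℝ) ≤
        X.F ((range (q + t)).image f) := by
      intro t
      induction t with
      | zero => intro _; simpa using X.F0 _
      | succ t ih =>
        intro ht
        have i1 := ih (by omega)
        have st := X.Fstep _ _ (nin (q + t) (q + t) le_rfl (by omega))
        rw [← add_assoc, range_add_one, image_insert, Nat.Ico_succ_right_eq_insert_Ico (by omega),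
          filter_insert]
        by_cases h : f (q + t) ∉ A
        · rw [if_pos h, card_insert_of_notMem (by simp)]
          have : σ ≤ X.δ ((range (q + t)).image f) (f (q + t)) := by
            simp only [mA, not_and, not_forall, not_lt] at h
            obtain ⟨k, k1, k2, k3⟩ := h (nin q _ (by omega) (by omega))
            exact (hs.anti k 1 _ _ le_rfl k1 le_rfl).trans (k3.trans
              (X.δmono _ _ _ (image_subset_image (range_subset_range.2 (by omega)))))
          push_cast
          linarith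
        · have := X.δnn ((range (q + t)).image f) (f (q + t))
          rw [if_neg h]
          linarith
    obtain ⟨T, hT⟩ : ∃ T, r = q + T + q := ⟨r - 2 * q, by omega⟩
    have l1 := low T (by omega)
    set N := ((Ico q (q + T)).filter fun u => f u ∉ A).card with hN
    have c1 : N + ((Ico q (q + T)).filter fun u => ¬ f u ∉ A).card = T := by
      rw [hN, card_filter_add_card_filter_not, Nat.card_Ico]
      omega
    have c2 : ((Ico q (q + T)).filter fun u => ¬ f u ∉ A).card ≤ A.card := by
      refine card_le_card_of_injOn f (fun u hu => not_not.1 (mem_filter.1 (mem_coe.1 hu)).2)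
        (f1.mono fun u hu => ?_)
      have := mem_Ico.1 (mem_filter.1 (mem_coe.1 hu)).1
      simp; omega
    have big := hs.big 1 (r - 1) le_rfl (by omega) (by omega)
    have top := hs.top
    rw [show r - 1 + 1 = r by omega, ← hσ] at big
    have n1 : ((r - 1 : ℕ) : ℝ) ≤ N + (2 * q + R : ℕ) := by exact_mod_cast (by omega)
    have n2 : (q : ℝ) * (2 * q + R : ℕ) ≤ N := by exact_mod_cast (by omega)
    have a1 := ha q hq le_rfl
    have a2 := ha2 (r - j) (by omega) (by omega)
    have m1 : X.F ((range (q + T)).image f) ≤ X.F ((range j).image f) :=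
      X.Fmono (image_subset_image (range_subset_range.2 (by omega)))
    have st := X.Fstep _ _ (nin j i j2 j3)
    have m2 := X.FΦ (insert (f i) ((range j).image f))
    have m3 := X.FΦ ((range (q + T)).image f)
    have q0 : (0 : ℝ) < q := by exact_mod_cast hq
    have b1 : X.δ ((range j).image f) (f i) < σ * (2 * q + R : ℕ) := by nlinarith
    have b2 : (q : ℝ) * (σ * (2 * q + R : ℕ)) < q * a q := by nlinarith
    have := lt_of_mul_lt_mul_left b2 q0.le
    linarith

/-- there is a set `W` of `q` harmless elements -/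
theorem fill {κ : Type} [Fintype κ] [DecidableEq κ] (X : Sys κ) {q : ℕ} {σ : ℝ}
    (hσ : X.Φ < (q + 1) * σ) (hr : 2 * q * (q + 1) ≤ Fintype.card κ) :
    ∃ W : Finset κ, W.card = q ∧ (X.cl σ W).card ≤ 2 * q ∧
      ∀ w ∈ W, X.δ ((X.cl σ W).erase w) w < σ := by
  have Φ0 : 0 ≤ X.Φ := (X.F0 ∅).trans (X.FΦ ∅)
  have σ0 : 0 ≤ σ := by
    by_contra h
    have : (0 : ℝ) ≤ q := Nat.cast_nonneg q
    nlinarith
  have small : ∀ W : Finset κ, W.card = q → (X.cl σ W).card ≤ 2 * q := by
    intro W hW
    by_contra h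
    have := X.F_cl' σ0 (S := W) (A := W) subset_rfl (m := q + 1)
      (by rw [union_eq_right.2 (X.sub_cl _ _)]; omega)
    have := X.F0 W
    have := X.FΦ (W ∪ X.cl σ W)
    push_cast at *
    linarith
  by_contra hc
  push Not at hc
  have key : ∀ t, t ≤ q + 1 → ∃ A : Finset κ, A.card ≤ 2 * q * t ∧ t * σ ≤ X.F A := by
    intro t
    induction t with
    | zero => intro _; exact ⟨∅, by simp, by simpa using X.F0 _⟩
    | succ t ih =>
      intro ht
      obtain ⟨A, a1, a2⟩ := ih (by omega)
      have : 2 * q * t ≤ 2 * q * q := Nat.mul_le_mul_left _ (by omega)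
      obtain ⟨W, w1, w2⟩ := exists_subset_card_eq (s := univ \ A) (n := q) (by
        rw [card_sdiff_of_subset (subset_univ _), card_univ, mul_add] at *
        omega)
      obtain ⟨w, w3, w4⟩ := hc W w2 (small W w2)
      have wA : w ∉ A := (mem_sdiff.1 (w1 w3)).2
      refine ⟨insert w (A ∪ (X.cl σ W).erase w), ?_, ?_⟩
      · have e1 := card_insert_le w (A ∪ (X.cl σ W).erase w)
        have e2 := card_union_le A ((X.cl σ W).erase w)
        have e3 := card_erase_add_one (X.sub_cl σ W w3)
        have e4 := small W w2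
        rw [mul_add]
        omega
      · have e1 := X.Fstep (A ∪ (X.cl σ W).erase w) w (by simp [wA])
        have e2 := X.δmono _ _ w (subset_union_right (s₁ := A) (s₂ := (X.cl σ W).erase w))
        have e3 := X.Fmono (subset_union_left (s₁ := A) (s₂ := (X.cl σ W).erase w))
        push_cast
        linarith
  obtain ⟨A, -, a2⟩ := key (q + 1) le_rfl
  have := X.FΦ A
  push_cast at a2
  linarith

/-- the greedy ordering: the elements that cannot wait come first -/
theorem headUp {κ : Type} [Fintype κ] [DecidableEq κ] [Inhabited κ] (X : Sys κ) {q : ℕ} {σ : ℝ}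
    (hσ : X.Φ < (q + 1) * σ) (hr : 2 * q * (q + 1) ≤ Fintype.card κ) :
    ∃ f : ℕ → κ, Set.InjOn f (range (Fintype.card κ) : Finset ℕ) ∧
      ∀ j i, j ≤ q → j ≤ i → i < Fintype.card κ → X.δ ((range j).image f) (f i) < σ ∨
        (i < q ∧ j * σ + (i + 1 - j : ℕ) * X.δ ((range j).image f) (f i) ≤ X.Φ) := by
  classical
  obtain ⟨W, w1, w2, w3⟩ := fill X hσ hr
  set C := X.cl σ W with hC
  have WC : W ⊆ C := X.sub_cl _ _
  set L := C \ W with hL
  have Lc : L.card + q = C.card := by rw [hL, ← w1]; exact card_sdiff_add_card_eq_card WC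
  have pk : ∀ S : Finset κ, ∃ y, (S.card < Fintype.card κ → y ∉ S) ∧ (¬ C ⊆ S → y ∈ C) ∧
      (¬ L ⊆ S → y ∈ L ∧ σ ≤ X.δ (W ∪ S) y ∧ ∀ x ∈ L, x ∉ S → X.δ (W ∪ S) x ≤ X.δ (W ∪ S) y) := by
    intro S
    by_cases h1 : L ⊆ S
    · by_cases h2 : C ⊆ S
      · by_cases h3 : S.card < Fintype.card κ
        · obtain ⟨y, hy⟩ := Sys.exists_notMem_of_card_lt h3
          exact ⟨y, fun _ => hy, fun h => absurd h2 h, fun h => absurd h1 h⟩
        · exact ⟨default, fun h => absurd h h3, fun h => absurd h2 h, fun h => absurd h1 h⟩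
      · obtain ⟨y, y1, y2⟩ := not_subset.1 h2
        exact ⟨y, fun _ => y2, fun _ => y1, fun h => absurd h1 h⟩
    · obtain ⟨y, y1, y2⟩ := exists_max_image (L \ S) (X.δ (W ∪ S))
        (sdiff_nonempty.2 h1)
      have y3 := mem_sdiff.1 y1
      refine ⟨y, fun _ => y3.2, fun _ => (mem_sdiff.1 y3.1).1, fun _ => ⟨y3.1, ?_,
        fun x x1 x2 => y2 x (mem_sdiff.2 ⟨x1, x2⟩)⟩⟩
      obtain ⟨x, x1, x2, x3⟩ := X.cl_step' (t := σ) (S := W) (A := W ∪ S) subset_union_left
        fun hh => h1 fun u hu => (mem_union.1 (hh (mem_sdiff.1 hu).1)).resolve_left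
          (mem_sdiff.1 hu).2
      rw [mem_union, not_or] at x2
      exact x3.trans (y2 x (mem_sdiff.2 ⟨mem_sdiff.2 ⟨x1, x2.1⟩, x2.2⟩))
  choose pick p1 p2 p3 using pk
  let S : ℕ → Finset κ := fun t => Nat.rec ∅ (fun _ S => insert (pick S) S) t
  let f : ℕ → κ := fun t => pick (S t)
  have Ss : ∀ t, S (t + 1) = insert (f t) (S t) := fun t => rfl
  have Si : ∀ t, (range t).image f = S t := by
    intro t
    induction t with
    | zero => rfl
    | succ t ih => rw [range_add_one, image_insert, ih, Ss]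
  have Sc : ∀ t, t ≤ Fintype.card κ → (S t).card = t := by
    intro t
    induction t with
    | zero => intro _; rfl
    | succ t ih =>
      intro ht
      have := ih (by omega)
      rw [Ss, card_insert_of_notMem (p1 _ (by omega)), this]
  have Sm : ∀ t u, t ≤ u → S t ⊆ S u := fun t u h => by
    rw [← Si, ← Si]
    exact image_subset_image (range_subset_range.2 h)
  have nin : ∀ t u, t ≤ u → u < Fintype.card κ → f u ∉ S t := fun t u h1 h2 h =>
    p1 (S u) (by rw [Sc u h2.le]; exact h2) (Sm t u h1 h)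
  have Cr : C.card ≤ Fintype.card κ := card_le_univ _
  have sub : ∀ (B : Finset κ), (∀ T, ¬ B ⊆ T → pick T ∈ B) → ∀ t, t ≤ B.card → S t ⊆ B := by
    intro B hB t
    have Br : B.card ≤ Fintype.card κ := card_le_univ _
    induction t with
    | zero => intro _; exact empty_subset _
    | succ t ih =>
      intro ht
      rw [Ss]
      refine insert_subset (hB _ fun h => ?_) (ih (by omega))
      have := card_le_card h
      rw [Sc t (by omega)] at this
      omega
  have SC := sub C p2
  have SL := sub L fun T h => (p3 T h).1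
  have nL : ∀ t, t < L.card → ¬ L ⊆ S t := fun t ht h => by
    have := card_le_card h
    rw [Sc t (by omega)] at this
    omega
  refine ⟨f, ?_, fun j i j1 j2 j3 => ?_⟩
  · rw [← card_image_iff, Si, Sc _ le_rfl, card_range]
  rw [Si]
  by_cases hi : i < L.card
  · refine Or.inr ⟨by omega, ?_⟩
    have a1 : ∀ t, t ≤ j → t * σ ≤ X.F (W ∪ S t) := by
      intro t
      induction t with
      | zero => intro _; simpa using X.F0 _
      | succ t ih =>
        intro ht
        obtain ⟨b1, b2, -⟩ := p3 (S t) (nL t (by omega))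
        have := X.Fstep (W ∪ S t) (f t) (by
          rw [mem_union, not_or]
          exact ⟨(mem_sdiff.1 b1).2, nin t t le_rfl (by omega)⟩)
        have := ih (by omega)
        rw [Ss, union_insert]
        push_cast
        linarith
    have a2 : ∀ t, j + t ≤ i + 1 → j * σ + t * X.δ (S j) (f i) ≤ X.F (W ∪ S (j + t)) := by
      intro t
      induction t with
      | zero => intro _; simpa using a1 j le_rfl
      | succ t ih =>
        intro ht
        obtain ⟨b1, -, b3⟩ := p3 (S (j + t)) (nL _ (by omega))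
        have := X.Fstep (W ∪ S (j + t)) (f (j + t)) (by
          rw [mem_union, not_or]
          exact ⟨(mem_sdiff.1 b1).2, nin _ _ le_rfl (by omega)⟩)
        have := ih (by omega)
        have := b3 (f i) (p3 (S i) (nL i hi)).1 (nin _ _ (by omega) j3)
        have := X.δmono (S j) (W ∪ S (j + t)) (f i)
          ((Sm _ _ (by omega)).trans subset_union_right)
        rw [← add_assoc, Ss, union_insert]
        push_cast
        linarith
    exact (a2 (i + 1 - j) (by omega)).trans (X.FΦ _)
  · left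
    have b1 : S j ⊆ C := SC j (by omega)
    by_cases hC2 : f i ∈ C
    · have e : S L.card = L := eq_of_subset_of_card_le (SL _ le_rfl) (by rw [Sc _ (by omega)])
      have hW : f i ∈ W := by
        by_contra hh
        exact nin L.card i (by omega) j3 (e.symm ▸ mem_sdiff.2 ⟨hC2, hh⟩)
      exact (X.δmono _ _ _ (subset_erase.2 ⟨b1, nin j i j2 j3⟩)).trans_lt (w3 _ hW)
    · refine (X.δmono _ _ _ b1).trans_lt ?_
      by_contra hh
      exact hC2 (X.cl_closed σ W _ (not_lt.1 hh))

end Pool.Agent.P.MP_754fe6_co.Ends
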