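import Mathlib
import Pool.Agent.P.MP_754fe6_co.Ends1
import Pool.Agent.P.MP_754fe6_co.Bridge

namespace Pool.Agent.P.MP_754fe6_co.Ends

open Finset

theorem famlog {r n g : ℕ} {d : ℕ → ℕ} (hd : ∀ t, 1 ≤ d t) (hn : 1 ≤ n) (hg : famMax r n d < g)
    {ρ z I t0 : ℕ} (h1 : 1 ≤ ρ) (h2 : 1 ≤ z) (h3 : ρ + z ≤ I) (h4 : I ≤ r) (h5 : 2 ≤ t0)
    (h6 : ∀ j, ρ ≤ j → j + z ≤ I → t0 ≤ win d j (j + z - 1)) :
    r * Real.log n - Real.log g <
      ρ * (Real.log n - Real.log (topWin r n d I)) + z * (Real.log n - Real.log t0) := by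
  obtain ⟨j, j1, j2, j3⟩ := minWin_spec d h3
  have a : t0 ≤ minWin d ρ z I := j3 ▸ h6 j j1 j2
  have b := le_famMax (r := r) (n := n) h1 h2 h3 h4 (h5.trans a)
  have t1 : 1 ≤ topWin r n d I := by
    unfold topWin
    split_ifs
    · exact hn
    · exact win_pos hd _ _
  have c : n ^ (r - ρ - z) * topWin r n d I ^ ρ * t0 ^ z < g :=
    lt_of_le_of_lt (le_trans (by gcongr) b) hg
  have lt2 := Real.log_lt_log (by positivity)
    (show ((n ^ (r - ρ - z) * topWin r n d I ^ ρ * t0 ^ z : ℕ) : ℝ) < g by exact_mod_cast c)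
  push_cast at lt2
  rw [Real.log_mul (by positivity) (by positivity), Real.log_mul (by positivity)
    (by positivity), Real.log_pow, Real.log_pow, Real.log_pow] at lt2
  have e : (r : ℝ) = ((r - ρ - z : ℕ) : ℝ) + ρ + z := by exact_mod_cast (by omega)
  rw [e]
  linarith

theorem win_anti {d : ℕ → ℕ} {i : ℕ} (h : ∀ a b, 1 ≤ a → a ≤ b → b ≤ i → d b ≤ d a) {j j' : ℕ}
    (h1 : 1 ≤ j') (h2 : j' ≤ j) : ∀ y, j + y ≤ i → win d j (j + y) ≤ win d j' (j' + y) := by
  intro y
  induction y with
  | zero => intro hy; simpa [win] using h j' j h1 h2 hy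
  | succ y ih =>
    intro hy
    rw [← add_assoc, ← add_assoc, win, win, prod_Icc_succ_top (by omega),
      prod_Icc_succ_top (by omega)]
    exact Nat.mul_le_mul (ih (by omega)) (h _ _ (by omega) (by omega) (by omega))

theorem card_le (q : ℕ) (hq : 1 ≤ q) : ∃ r0 : ℕ, ∀ (m n : ℕ) (d : ℕ → ℕ), r0 ≤ m + 1 →
    (∀ t, 1 ≤ d t) → win d 1 m ≤ n → (∀ a b, 1 ≤ a → a ≤ b → b ≤ q → d b ≤ d a) →
    (∀ t, q < t → t + q ≤ m → d t = 1) →
    ∀ G : Finset (Fin (m + 1) → Fin n), G.Nonempty → Blocked d G →
      G.card ≤ famMax (m + 1) n d := by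
  obtain ⟨r0, hr0⟩ := sched q hq
  refine ⟨r0 + 5 * q, fun m n d hm hd hn hmono hone G hG hB => ?_⟩
  by_contra hc
  push Not at hc
  have n1 : 1 ≤ n := (win_pos hd _ _).trans hn
  set L := Real.log n with hL
  have L0 : 0 ≤ L := Real.log_natCast_nonneg n
  set M := (m + 2) * L + 1 with hM
  have m0 : (0 : ℝ) ≤ m := Nat.cast_nonneg m
  have LM : L ≤ M := by nlinarith
  have hΦ : (sysOf G hG).Φ = (m + 1) * L - Real.log G.card := by
    simp [sysOf, hL]
  have G0 := Real.log_natCast_nonneg G.card
  let lw : ℕ → ℕ → ℝ := fun j i => Real.log (win d j i)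
  have lmono : ∀ j j' i i', j' ≤ j → i ≤ i' → lw j i ≤ lw j' i' := fun j j' i i' h1 h2 =>
    Real.log_le_log (by have := win_pos hd j i; positivity) (by exact_mod_cast win_mono hd h1 h2)
  have lL : ∀ j i, 1 ≤ j → i ≤ m → lw j i ≤ L := fun j i h1 h2 =>
    Real.log_le_log (by have := win_pos hd j i; positivity)
      (by exact_mod_cast (win_mono hd h1 h2).trans hn)
  have l0 : ∀ j i, 0 ≤ lw j i := fun j i => Real.log_natCast_nonneg _
  have lsplit : ∀ j i k, j ≤ i + 1 → i ≤ k → lw j k = lw j i + lw (i + 1) k := by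
    intro j i k h1 h2
    have a := win_pos hd j i
    have b := win_pos hd (i + 1) k
    simp only [lw]
    rw [win_split d h1 h2, Nat.cast_mul, Real.log_mul (by positivity) (by positivity)]
  have mono2 : ∀ a b, 1 ≤ a → a ≤ b → b + q ≤ m → d b ≤ d a := by
    intro a b h1 h2 h3
    by_cases h : b ≤ q
    · exact hmono a b h1 h2 h
    · rw [hone b (by omega) h3]
      exact hd a
  let c : ℕ → ℝ := fun j => if j ≤ q ∧ 2 ≤ d j then L else M
  have cL : ∀ j, L ≤ c j := fun j => by
    simp only [c]
    split_ifs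
    · exact le_rfl
    · exact LM
  have cmono : ∀ j j', 1 ≤ j' → j' ≤ j → c j' ≤ c j := by
    intro j j' h1 h2
    by_cases h : j ≤ q ∧ 2 ≤ d j
    · exact le_trans (le_of_eq (if_pos ⟨by omega, h.2.trans (hmono j' j h1 h2 h.1)⟩)) (cL j)
    · have : c j = M := if_neg h
      rw [this]
      simp only [c]
      split_ifs
      · exact LM
      · exact le_rfl
  let s : ℕ → ℕ → ℝ := fun j i => if j = 0 ∨ m + 1 ≤ i then 0 else c j - lw j i
  have hs : ∀ j i, 1 ≤ j → i ≤ m → s j i = c j - lw j i := fun j i h1 h2 => if_neg (by omega)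
  have snn : ∀ j i, 0 ≤ s j i := by
    intro j i
    by_cases h : j = 0 ∨ m + 1 ≤ i
    · exact le_of_eq (if_pos h).symm
    · rw [hs j i (by omega) (by omega)]
      have := cL j
      have := lL j i (by omega) (by omega)
      linarith
  let a : ℕ → ℝ := fun z => gg L M (win d (m + 1 - z) m)
  have fl := fun {ρ z I t0 : ℕ} => famlog (ρ := ρ) (z := z) (I := I) (t0 := t0) hd n1 hc
  have ha : ∀ z, 1 ≤ z → z ≤ q → (sysOf G hG).Φ < z * a z := by
    intro z z1 z2
    have z3 : (1 : ℝ) ≤ z := by exact_mod_cast z1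
    rw [hΦ]
    simp only [a, gg]
    split_ifs with h
    · have := fl (ρ := m + 1 - z) (z := z) (I := m + 1) (by omega) z1 (by omega) le_rfl h
        fun j j1 j2 => by
          obtain rfl : j = m + 1 - z := by omega
          rw [show m + 1 - z + z - 1 = m by omega]
      rw [topWin, if_pos rfl, ← hL] at this
      push_cast at this
      linarith
    · nlinarith
  have key : (sysOf G hG).Slack s := by
    refine ⟨snn, ?_, ?_, ?_, ?_⟩
    · intro j j' D D' h1 h2 h3
      by_cases h : m + 1 ≤ D'
      · exact le_trans (le_of_eq (if_pos (Or.inr h))) (snn _ _)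
      · rw [hs j' D' h1 (by omega), hs j D (by omega) (by omega)]
        have := cmono j j' h1 h2
        have := lmono j j' D D' h2 h3
        linarith
    · intro j i D h1 h2 h3 h4
      rw [Fintype.card_fin] at h4
      rw [hs _ _ h1 (by omega), hs _ _ le_rfl (by omega), hs _ _ h1 (by omega),
        hs _ _ le_rfl (by omega), lsplit j i D (by omega) h3, lsplit 1 i D (by omega) h3]
      linarith
    · rw [Fintype.card_fin]
      exact le_of_eq (if_pos (Or.inr le_rfl))
    · intro j i h1 h2 h3
      rw [Fintype.card_fin] at h3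
      rw [hΦ, hs j i h1 (by omega)]
      have z1 : (1 : ℝ) ≤ ((i + 1 - j : ℕ) : ℝ) := by exact_mod_cast (by omega : 1 ≤ i + 1 - j)
      have s0 := snn 1 (i + 1)
      have li := lL j i h1 (by omega)
      by_cases h : j ≤ q ∧ 2 ≤ d j
      swap
      · have : c j = M := if_neg h
        rw [this]
        nlinarith
      have cj : c j = L := if_pos h
      have d1 : 2 ≤ d 1 := h.2.trans (hmono 1 j le_rfl h1 h.1)
      have c1 : c 1 = L := if_pos ⟨hq, d1⟩
      have e : s 1 (i + 1) = L - Real.log (topWin (m + 1) n d (i + 1)) := by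
        unfold topWin
        split_ifs with h4
        · rw [← hL, sub_self]
          exact if_pos (Or.inr (by omega))
        · rw [hs _ _ le_rfl (by omega), c1]
      rw [cj]
      by_cases hv : ∀ a b, 1 ≤ a → a ≤ b → b ≤ i → d b ≤ d a
      · have := fl (ρ := 1) (z := i + 1 - j) (I := i + 1) (t0 := win d j i) le_rfl (by omega)
          (by omega) (by omega) (h.2.trans (le_win hd le_rfl h2)) fun j' j1 j2 => by
            have := win_anti hv j1 (show j' ≤ j by omega) (i - j) (by omega)
            rwa [show j + (i - j) = i by omega,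
              show j' + (i - j) = j' + (i + 1 - j) - 1 by omega] at this
        rw [← hL, ← e] at this
        push_cast at this
        simp only [lw]
        linarith
      push Not at hv
      obtain ⟨a', b, v1, v2, v3, v4⟩ := hv
      have b1 : m < b + q := by
        by_contra hh
        exact absurd (mono2 a' b v1 v2 (by omega)) (by omega)
      have hT : 2 ≤ win d (m + 1 - q) m :=
        le_trans (by have := hd a'; omega) (le_win hd (t := b) (by omega) (by omega))
      have a1 := ha q hq le_rfl
      simp only [a, gg] at a1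
      rw [if_pos hT, hΦ] at a1
      have w1 := fl (ρ := 1) (z := i) (I := i + 1) (t0 := win d 1 i) le_rfl (by omega)
        (by omega) (by omega) (d1.trans (le_win hd le_rfl (by omega))) fun j' j1 j2 => by
          obtain rfl : j' = 1 := by omega
          rw [show 1 + i - 1 = i by omega]
      rw [← hL, ← e] at w1
      push_cast at w1
      set x := Real.log (d j) with hx
      have x0 : 0 ≤ x := Real.log_natCast_nonneg _
      have dl : ∀ a b, 1 ≤ a → a ≤ b → b + q ≤ m → Real.log (d b) ≤ Real.log (d a) :=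
        fun a b u1 u2 u3 => Real.log_le_log (by have := hd b; positivity)
          (by exact_mod_cast mono2 a b u1 u2 u3)
      have e1 : ((j - 1 : ℕ) : ℝ) * x ≤ lw 1 (j - 1) := by
        have := card_nsmul_le_sum (Icc 1 (j - 1)) (fun t => Real.log (d t)) x fun t ht =>
          dl t j (mem_Icc.1 ht).1 (by have := (mem_Icc.1 ht).2; omega) (by omega)
        simp only [lw]
        rw [log_win hd]
        simpa using this
      have e2 : lw j q ≤ q * x := by
        have := sum_le_card_nsmul (Icc j q) (fun t => Real.log (d t)) x fun t ht =>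
          dl j t h1 (mem_Icc.1 ht).1 (by have := (mem_Icc.1 ht).2; omega)
        simp only [lw]
        rw [log_win hd]
        refine this.trans ?_
        rw [nsmul_eq_mul]
        refine mul_le_mul_of_nonneg_right ?_ x0
        exact_mod_cast (by rw [Nat.card_Icc]; omega)
      have e3 : lw (q + 1) (m - q) = 0 := by
        simp only [lw]
        rw [log_win hd]
        refine sum_eq_zero fun t ht => ?_
        have := mem_Icc.1 ht
        rw [hone t (by omega) (by omega)]
        simp
      have e4 := lsplit 1 (j - 1) i (by omega) (by omega)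
      have e5 := lsplit j q m (by omega) (by omega)
      have e6 := lsplit (q + 1) (m - q) m (by omega) (by omega)
      rw [show j - 1 + 1 = j by omega] at e4
      rw [show m - q + 1 = m + 1 - q by omega] at e6
      have e7 := lmono j j i m le_rfl (by omega)
      change (m + 1) * L - Real.log G.card < q * (L - lw (m + 1 - q) m) at a1
      change (m + 1) * L - Real.log G.card < 1 * s 1 (i + 1) + i * (L - lw 1 i) at w1
      set u := L - lw j i with hu
      have u0 : 0 ≤ u := by linarith
      have ci : (i : ℝ) = ((i + 1 - j : ℕ) : ℝ) + ((j - 1 : ℕ) : ℝ) := by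
        exact_mod_cast (by omega)
      have j0 : (0 : ℝ) ≤ ((j - 1 : ℕ) : ℝ) := Nat.cast_nonneg _
      have qi : (q : ℝ) ≤ i := by exact_mod_cast (by omega)
      have q0 : (0 : ℝ) ≤ q := Nat.cast_nonneg _
      have z2 : 2 * (q : ℝ) ≤ ((i + 1 - j : ℕ) : ℝ) := by exact_mod_cast (by omega)
      rcases le_or_gt u (i * x) with hh | hh
      · have k1 : ((j - 1 : ℕ) : ℝ) * u ≤ i * lw 1 (j - 1) := by nlinarith
        have k2 : (i : ℝ) * (L - lw 1 i) = i * u - i * lw 1 (j - 1) := by rw [e4, hu]; ring
        have k3 : (i : ℝ) * u = ((i + 1 - j : ℕ) : ℝ) * u + ((j - 1 : ℕ) : ℝ) * u := by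
          rw [← add_mul, ← ci]
        linarith
      · have k1 : (q : ℝ) * x ≤ i * x := mul_le_mul_of_nonneg_right qi x0
        have k2 : L - lw (m + 1 - q) m ≤ 2 * u := by linarith
        have k3 := mul_le_mul_of_nonneg_left k2 q0
        have k4 := mul_le_mul_of_nonneg_right z2 u0
        linarith
  obtain ⟨f, f1, f2, f3⟩ := hr0 (Fin (m + 1)) (sysOf G hG) s a (by simp; omega) key ha
    fun z z1 z2 => gg_anti LM (win_mono hd (by omega) le_rfl) (win_pos hd _ _)
  rw [Fintype.card_fin] at f1 f2 f3
  obtain ⟨j, i, a1, a2, a3, a4, a5⟩ := hB f f1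
  have c1 := cost_pos hG ((range j).image f) (f i)
  have c2 := Real.log_le_log (show (0 : ℝ) < cost G ((range j).image f) (f i) by positivity)
    (show (cost G ((range j).image f) (f i) : ℝ) ≤ win d j i by exact_mod_cast a5)
  by_cases h : j ≤ q
  · have := f2 j i a1 h a2 (by omega)
    have cj : c j = L := if_pos ⟨h, a4⟩
    rw [hs j i a1 a3, cj] at this
    simp only [sysOf, Fintype.card_fin, lw] at this
    linarith
  · have h2 : m < j + q := by
      by_contra hh
      have := hone j (by omega) (by omega)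
      omega
    have := f3 j i (by omega) a2 (by omega)
    simp only [a, gg] at this
    rw [show m + 1 - (m + 1 - j) = j by omega,
      if_pos (a4.trans (le_win hd le_rfl (by omega)))] at this
    simp only [sysOf, Fintype.card_fin] at this
    have := lmono j j i m le_rfl a3
    simp only [lw] at this
    linarith

end Pool.Agent.P.MP_754fe6_co.Ends
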