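import Mathlib
import Pool.Agent.P.MP_754fe6_co.Ends2

namespace Pool.Agent.P.MP_754fe6_co.Ends

open Finset

theorem F_card {κ : Type} [Fintype κ] [DecidableEq κ] (X : Sys κ) (S : Finset κ) (σ : ℝ)
    (B : Finset κ) : (∀ x ∈ B, x ∉ S ∧ σ ≤ X.δ S x) → B.card * σ ≤ X.F (S ∪ B) := by
  induction B using Finset.induction_on with
  | empty => intro _; simpa using X.F0 _
  | insert x B hx ih =>
    intro h
    have i1 := ih fun y hy => h y (mem_insert_of_mem hy)
    obtain ⟨x1, x2⟩ := h x (mem_insert_self _ _)
    have := X.Fstep (S ∪ B) x (by simp [x1, hx])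
    have := X.δmono S (S ∪ B) x subset_union_left
    rw [union_insert, card_insert_of_notMem hx]
    push_cast
    linarith

theorem win_up {d : ℕ → ℕ} {q : ℕ} (h : ∀ a b, 1 ≤ a → a ≤ b → b ≤ q → d a ≤ d b) {j j' : ℕ}
    (h1 : 1 ≤ j) (h2 : j ≤ j') : ∀ y, j' + y ≤ q → win d j (j + y) ≤ win d j' (j' + y) := by
  intro y
  induction y with
  | zero => intro hy; simpa [win] using h j j' h1 h2 hy
  | succ y ih =>
    intro hy
    rw [← add_assoc, ← add_assoc, win, win, prod_Icc_succ_top (by omega),
      prod_Icc_succ_top (by omega)]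
    exact Nat.mul_le_mul (ih (by omega)) (h _ _ (by omega) (by omega) (by omega))

theorem card_le_up (q : ℕ) (hq : 1 ≤ q) : ∃ r0 : ℕ, ∀ (m n : ℕ) (d : ℕ → ℕ), r0 ≤ m + 1 →
    (∀ t, 1 ≤ d t) → win d 1 m ≤ n → (∀ a b, 1 ≤ a → a ≤ b → b ≤ q → d a ≤ d b) → 2 ≤ d q →
    (∀ t, q < t → t + q ≤ m → d t = 1) →
    min (win d 1 q) (win d (m + 1 - q) m) ^ (2 * q + 2) * win d 1 m ^ (m + 1) ≤ n ^ (m + 1) →
    ∀ G : Finset (Fin (m + 1) → Fin n), G.Nonempty → Blocked d G →
      G.card ≤ famMax (m + 1) n d := by
  classical
  obtain ⟨R, hR⟩ := finish q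
  refine ⟨2 * q * (q + 1) + 4 * q + 2 * R + 2, fun m n d hm hd hn hmono dq hone hw G hG hB => ?_⟩
  by_contra hc
  push Not at hc
  have n1 : 1 ≤ n := (win_pos hd _ _).trans hn
  set L := Real.log n with hL
  have L0 : 0 ≤ L := Real.log_natCast_nonneg n
  set M := (m + 2) * L + 1 with hM
  have m0 : (0 : ℝ) ≤ m := Nat.cast_nonneg m
  have LM : L < M := by nlinarith
  have hΦ : (sysOf G hG).Φ = (m + 1) * L - Real.log G.card := by
    simp [sysOf, hL]
  have δL : ∀ S x, (sysOf G hG).δ S x ≤ L := fun S x => by
    have := Real.log_natCast_nonneg (cost G S x)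
    simp only [sysOf, Fintype.card_fin]
    linarith
  have G0 := Real.log_natCast_nonneg G.card
  let lw : ℕ → ℕ → ℝ := fun j i => Real.log (win d j i)
  have lmono : ∀ j j' i i', j' ≤ j → i ≤ i' → lw j i ≤ lw j' i' := fun j j' i i' h1 h2 =>
    Real.log_le_log (by have := win_pos hd j i; positivity) (by exact_mod_cast win_mono hd h1 h2)
  have lL : ∀ j i, 1 ≤ j → i ≤ m → lw j i ≤ L := fun j i h1 h2 =>
    Real.log_le_log (by have := win_pos hd j i; positivity)
      (by exact_mod_cast (win_mono hd h1 h2).trans hn)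
  have l0 : ∀ j i, 0 ≤ lw j i := fun j i => Real.log_natCast_nonneg _
  have lsplit : ∀ j i k, j ≤ i + 1 → i ≤ k → lw j k = lw j i + lw (i + 1) k := by
    intro j i k h1 h2
    have a := win_pos hd j i
    have b := win_pos hd (i + 1) k
    simp only [lw]
    rw [win_split d h1 h2, Nat.cast_mul, Real.log_mul (by positivity) (by positivity)]
  have e3 : lw (q + 1) (m - q) = 0 := by
    simp only [lw]
    rw [log_win hd]
    refine sum_eq_zero fun t ht => ?_
    have := mem_Icc.1 ht
    rw [hone t (by omega) (by omega)]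
    simp
  have e4 := lsplit 1 q (m - q) (by omega) (by omega)
  have e5 := lsplit 1 (m - q) m (by omega) (by omega)
  rw [show m - q + 1 = m + 1 - q by omega] at e5
  let s : ℕ → ℕ → ℝ := fun j i => if 2 ≤ d j then L - lw j i else M
  let a : ℕ → ℝ := fun z => gg L M (win d (m + 1 - z) m)
  have fl := fun {ρ z I t0 : ℕ} => famlog (ρ := ρ) (z := z) (I := I) (t0 := t0) hd n1 hc
  have ha : ∀ z, 1 ≤ z → z ≤ q → (sysOf G hG).Φ < z * a z := by
    intro z z1 z2
    have z3 : (1 : ℝ) ≤ z := by exact_mod_cast z1
    rw [hΦ]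
    simp only [a, gg]
    split_ifs with h
    · have := fl (ρ := m + 1 - z) (z := z) (I := m + 1) (by omega) z1 (by omega) le_rfl h
        fun j j1 j2 => by
          obtain rfl : j = m + 1 - z := by omega
          rw [show m + 1 - z + z - 1 = m by omega]
      rw [topWin, if_pos rfl, ← hL] at this
      push_cast at this
      linarith
    · nlinarith
  have q0 : (0 : ℝ) ≤ q := Nat.cast_nonneg _
  have hσ : (sysOf G hG).Φ < (q + 1) * (L - lw 1 q) := by
    have := fl (ρ := 1) (z := q) (I := q + 1) (t0 := win d 1 q) le_rfl hq (by omega) (by omega)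
      (dq.trans (le_win hd hq le_rfl)) fun j j1 j2 => by
        obtain rfl : j = 1 := by omega
        rw [show 1 + q - 1 = q by omega]
    rw [topWin, if_neg (by omega), ← hL] at this
    have e := lmono 1 1 (q + 1) (m - q) le_rfl (by omega)
    have e' := lmono 1 1 q (q + 1) le_rfl (by omega)
    rw [hΦ]
    push_cast at this
    change _ < 1 * (L - lw 1 (q + 1)) + q * (L - lw 1 q) at this
    linarith
  obtain ⟨f, f1, f2⟩ := headUp (sysOf G hG) hσ (by simp; omega)
  set σ := L - lw 1 m with hσ'
  have σ0 : 0 ≤ σ := by have := lL 1 m le_rfl le_rfl; linarith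
  let A : Finset (Fin (m + 1)) :=
    (univ \ (range q).image f).filter fun x => (sysOf G hG).δ ((range q).image f) x < σ
  have hA : R ≤ A.card := by
    by_contra hA
    let B : Finset (Fin (m + 1)) :=
      (univ \ (range q).image f).filter fun x => ¬ (sysOf G hG).δ ((range q).image f) x < σ
    have c1 : A.card + B.card = (univ \ (range q).image f).card :=
      card_filter_add_card_filter_not _
    have c2 : ((range q).image f).card ≤ q := card_image_le.trans (card_range q).le
    rw [card_sdiff_of_subset (subset_univ _), card_univ, Fintype.card_fin] at c1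
    have c3 := F_card (sysOf G hG) ((range q).image f) σ B fun x hx =>
      ⟨(mem_sdiff.1 (mem_filter.1 hx).1).2, not_lt.1 (mem_filter.1 hx).2⟩
    have c4 := (sysOf G hG).FΦ ((range q).image f ∪ B)
    have c5 : (m + 1 : ℝ) + 2 * (q + 1) ≤ 2 * B.card := by exact_mod_cast (by omega)
    obtain ⟨μ, μ1, μ2⟩ : ∃ μ : ℝ, (2 * q + 2) * μ + (m + 1) * lw 1 m ≤ (m + 1) * L ∧
        (μ = lw 1 q ∨ μ = lw (m + 1 - q) m) := by
      refine ⟨Real.log (min (win d 1 q) (win d (m + 1 - q) m) : ℕ), ?_, ?_⟩
      · have p1 : 1 ≤ min (win d 1 q) (win d (m + 1 - q) m) :=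
          le_min (win_pos hd _ _) (win_pos hd _ _)
        have p2 := win_pos hd 1 m
        have := Real.log_le_log (by positivity) (show
          (((min (win d 1 q) (win d (m + 1 - q) m) : ℕ) : ℝ) ^ (2 * q + 2) *
            (win d 1 m : ℝ) ^ (m + 1)) ≤ (n : ℝ) ^ (m + 1) by exact_mod_cast hw)
        rw [Real.log_mul (by positivity) (by positivity), Real.log_pow, Real.log_pow,
          Real.log_pow] at this
        push_cast at this ⊢
        exact this
      · rcases min_choice (win d 1 q) (win d (m + 1 - q) m) with h | h <;> rw [h]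
        exacts [Or.inl rfl, Or.inr rfl]
    have k1 : (sysOf G hG).Φ < (q + 1) * (σ + μ) := by
      rcases μ2 with h | h
      · have x0 := l0 1 q
        by_cases hT : 2 ≤ win d (m + 1 - q) m
        · have a1 := ha q hq le_rfl
          simp only [a, gg] at a1
          rw [if_pos hT] at a1
          change _ < q * (L - lw (m + 1 - q) m) at a1
          have : L - lw (m + 1 - q) m = σ + μ := by linarith
          rw [this] at a1
          linarith
        · have : lw (m + 1 - q) m = 0 := by
            have := win_pos hd (m + 1 - q) m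
            simp only [lw]
            rw [show win d (m + 1 - q) m = 1 by omega]
            simp
          have : L - lw 1 q = σ := by linarith
          rw [this] at hσ
          nlinarith
      · have : L - lw 1 q = σ + μ := by linarith
        rwa [this] at hσ
    have k2 : (2 * q + 2) * μ ≤ (m + 1) * σ := by rw [hσ']; linarith
    nlinarith
  have sσ : ∀ j i, 1 ≤ j → i ≤ m → σ ≤ s j i := by
    intro j i j1 j2
    simp only [s]
    split_ifs
    · have := lmono j 1 i m j1 j2
      linarith
    · have := l0 1 m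
      linarith
  obtain ⟨g, g1, g2, g3⟩ := hR (Fin (m + 1)) (sysOf G hG) s a f A (by simp; omega) ha f1
    (fun j i u j1 j2 j3 j4 j5 j6 => by
      rw [Fintype.card_fin] at j5
      simp only [s]
      split_ifs with h
      swap
      · exact (δL _ _).trans_lt LM
      rcases f2 j u j2 (by omega) j6 with h1 | ⟨h1, h2⟩
      · have := lmono j 1 i (m - q) j1 (by omega)
        linarith
      · have := fl (ρ := j) (z := u + 1 - j) (I := q) (t0 := win d j u) j1 (by omega) (by omega)
          (by omega) (h.trans (le_win hd le_rfl (by omega))) fun j' k1 k2 => by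
            have := win_up hmono j1 k1 (u - j) (by omega)
            rwa [show j + (u - j) = u by omega,
              show j' + (u - j) = j' + (u + 1 - j) - 1 by omega] at this
        rw [topWin, if_neg (by omega), ← hL] at this
        rw [hΦ] at h2
        push_cast at this
        change _ < j * (L - lw 1 q) + ((u + 1 - j : ℕ) : ℝ) * (L - lw j u) at this
        have z1 : (0 : ℝ) < ((u + 1 - j : ℕ) : ℝ) := by exact_mod_cast (by omega)
        have := lt_of_mul_lt_mul_left (show ((u + 1 - j : ℕ) : ℝ) *
          (sysOf G hG).δ ((range j).image f) (f u) < ((u + 1 - j : ℕ) : ℝ) * (L - lw j u) by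
            linarith) z1.le
        have := lmono j j i u le_rfl j4
        linarith)
    (fun x hx => ⟨(mem_sdiff.1 (mem_filter.1 hx).1).2, fun j i j1 j2 _ j4 =>
      (((sysOf G hG).δmono _ _ _ (image_subset_image (range_subset_range.2 j2))).trans_lt
        (mem_filter.1 hx).2).trans_le (sσ j i j1 (by rw [Fintype.card_fin] at j4; omega))⟩) hA
  rw [Fintype.card_fin] at g1 g2 g3
  obtain ⟨j, i, a1, a2, a3, a4, a5⟩ := hB g g1
  have c1 := cost_pos hG ((range j).image g) (g i)
  have c2 := Real.log_le_log (show (0 : ℝ) < cost G ((range j).image g) (g i) by positivity)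
    (show (cost G ((range j).image g) (g i) : ℝ) ≤ win d j i by exact_mod_cast a5)
  by_cases h : j ≤ q
  · have := g2 j i a1 h a2 (by omega)
    simp only [s] at this
    rw [if_pos a4] at this
    simp only [sysOf, Fintype.card_fin, lw] at this
    linarith
  · have h2 : m < j + q := by
      by_contra hh
      have := hone j (by omega) (by omega)
      omega
    have := g3 j i (by omega) a2 (by omega)
    simp only [a, gg] at this
    rw [show m + 1 - (m + 1 - j) = j by omega,
      if_pos (a4.trans (le_win hd le_rfl (by omega)))] at this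
    simp only [sysOf, Fintype.card_fin] at this
    have := lmono j j i m le_rfl a3
    simp only [lw] at this
    linarith

end Pool.Agent.P.MP_754fe6_co.Ends
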