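import Mathlib
import Pool.Agent.P.MP_754fe6_co.Sched

namespace Pool.Agent.P.MP_754fe6_co

open Finset

namespace Sys

variable {κ : Type} [Fintype κ] [DecidableEq κ] (X : Sys κ)

/-- the first `j` values of `f` are distinct and form the set `A` -/
def Pre (f : ℕ → κ) (j : ℕ) (A : Finset κ) : Prop :=
  Set.InjOn f (range j : Finset ℕ) ∧ (range j).image f = A

omit [Fintype κ] in
theorem Pre.card {f : ℕ → κ} {j : ℕ} {A : Finset κ} (h : Pre f j A) : A.card = j := by
  rw [← h.2, card_image_of_injOn h.1, card_range]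

omit [Fintype κ] in
theorem image_agree {f g : ℕ → κ} {j k : ℕ} (h : ∀ t, t < j → g t = f t) (hk : k ≤ j) :
    (range k).image g = (range k).image f :=
  image_congr fun t ht => h t (by have : t < k := by simpa using ht
                                  omega)

omit [Fintype κ] in
theorem Pre.one {f : ℕ → κ} {j : ℕ} {A : Finset κ} (h : Pre f j A) {w : κ} (hw : w ∉ A) :
    ∃ g, Pre g (j + 1) (insert w A) ∧ g j = w ∧ ∀ t, t < j → g t = f t := by
  have e0 : ∀ t, t < j → Function.update f j w t = f t := fun t ht =>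
    Function.update_of_ne (by omega) _ _
  have e2 : (range (j + 1)).image (Function.update f j w) = insert w A := by
    rw [range_add_one, image_insert, image_agree e0 le_rfl, Function.update_self, h.2]
  refine ⟨Function.update f j w, ⟨?_, e2⟩, Function.update_self _ _ _, e0⟩
  rw [← card_image_iff, e2, card_insert_of_notMem hw, h.card, card_range]

omit [Fintype κ] in
theorem Pre.ext {f : ℕ → κ} {j : ℕ} {A : Finset κ} (h : Pre f j A) {B : Finset κ} (hB : A ⊆ B) :
    ∃ g, Pre g B.card B ∧ ∀ t, t < j → g t = f t := by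
  obtain ⟨C, rfl⟩ : ∃ C, B = A ∪ C := ⟨B, (union_eq_right.2 hB).symm⟩
  clear hB
  induction C using Finset.induction_on with
  | empty => exact ⟨f, by simpa [h.card] using h, fun _ _ => rfl⟩
  | insert x C hx ih =>
    obtain ⟨g, g1, g2⟩ := ih
    rw [union_insert]
    by_cases hxa : x ∈ A ∪ C
    · rw [insert_eq_of_mem hxa]
      exact ⟨g, g1, g2⟩
    · obtain ⟨g', a1, -, a3⟩ := g1.one hxa
      have : j ≤ (A ∪ C).card := h.card ▸ card_le_card subset_union_left
      exact ⟨g', by rwa [card_insert_of_notMem hxa], fun t ht => (a3 t (by omega)).trans (g2 t ht)⟩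

theorem δ_le {A B : Finset κ} {x : κ} (hx : x ∉ A) (hB : insert x A ⊆ B) : X.δ A x ≤ X.F B := by
  have := X.Fstep A x hx
  have := X.F0 A
  have := X.Fmono hB
  linarith

theorem F_add {t : ℝ} {A : Finset κ} (B : Finset κ) (hd : Disjoint A B)
    (h : ∀ v ∈ B, t ≤ X.δ A v) : X.F A + t * B.card ≤ X.F (A ∪ B) := by
  induction B using Finset.induction_on with
  | empty => simp
  | insert x B hx ih =>
    have h1 := ih (hd.mono_right (subset_insert _ _)) fun v hv => h v (mem_insert_of_mem hv)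
    have h2 : x ∉ A ∪ B := fun hh => (mem_union.1 hh).elim
      (fun a => disjoint_left.1 hd a (mem_insert_self _ _)) hx
    have h3 := X.Fstep _ _ h2
    have h4 := (h x (mem_insert_self _ _)).trans (X.δmono _ (A ∪ B) x subset_union_left)
    rw [union_insert, card_insert_of_notMem hx]
    push_cast
    linarith

/-- the greedy continuation of an initial segment -/
theorem greedy_run {f : ℕ → κ} {j0 : ℕ} {A : Finset κ} (h : Pre f j0 A) (k : ℕ)
    (hk : j0 + k ≤ Fintype.card κ) :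
    ∃ g B, Pre g (j0 + k) B ∧ (∀ t, t < j0 → g t = f t) ∧
      ∀ t, j0 ≤ t → t < j0 + k → ∀ v, v ∉ (range t).image g →
        X.δ ((range t).image g) v ≤ X.δ ((range t).image g) (g t) := by
  induction k with
  | zero => exact ⟨f, A, h, fun _ _ => rfl, by omega⟩
  | succ k ih =>
    obtain ⟨g, B, g1, g2, g3⟩ := ih (by omega)
    obtain ⟨w0, hw0⟩ := exists_notMem_of_card_lt (A := B) (by rw [g1.card]; omega)
    obtain ⟨w, w1, w2⟩ := exists_max_image Bᶜ (X.δ B) ⟨w0, mem_compl.2 hw0⟩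
    obtain ⟨g', a1, a2, a3⟩ := g1.one (mem_compl.1 w1)
    refine ⟨g', _, a1, fun t ht => (a3 t (by omega)).trans (g2 t ht), fun t h1 h2 v hv => ?_⟩
    rw [image_agree a3 (by omega)] at hv ⊢
    rcases (by omega : t < j0 + k ∨ t = j0 + k) with h3 | rfl
    · rw [a3 t h3]
      exact g3 t h1 h3 v hv
    · rw [g1.2] at hv ⊢
      rw [a2]
      exact w2 v (mem_compl.2 hv)

omit [Fintype κ] in
theorem Pre.notMem {f : ℕ → κ} {r : ℕ} {A : Finset κ} (h : Pre f r A) {j i : ℕ} (hj : j ≤ i)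
    (hi : i < r) : f i ∉ (range j).image f := by
  intro hh
  obtain ⟨t, t1, t2⟩ := mem_image.1 hh
  have t3 : t < j := by simpa using t1
  have := h.1 (by simp; omega) (by simpa using hi) t2
  omega

theorem greedy_ext {f : ℕ → κ} {j0 : ℕ} {A : Finset κ} (h : Pre f j0 A) :
    ∃ g B, Pre g (Fintype.card κ) B ∧ (∀ t, t < j0 → g t = f t) ∧
      ∀ j i, j0 ≤ j → j ≤ i → i < Fintype.card κ →
        ((i + 1 - j : ℕ) : ℝ) * X.δ ((range j).image g) (g i) ≤ X.Φ := by
  have hj : j0 ≤ Fintype.card κ := h.card ▸ card_le_univ _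
  obtain ⟨g, B, g1, g2, g3⟩ := X.greedy_run h (Fintype.card κ - j0) (by omega)
  rw [show j0 + (Fintype.card κ - j0) = Fintype.card κ by omega] at g1 g3
  refine ⟨g, B, g1, g2, fun j i h1 h2 h3 => ?_⟩
  have key : ∀ k, j + k ≤ i + 1 →
      (k : ℝ) * X.δ ((range j).image g) (g i) ≤ X.F ((range (j + k)).image g) := by
    intro k
    induction k with
    | zero => intro _; simpa using X.F0 _
    | succ k ih =>
      intro hk
      have a1 := ih (by omega)
      have a2 := X.Fstep _ _ (g1.notMem (le_refl (j + k)) (by omega))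
      have a3 := g3 (j + k) (by omega) (by omega) (g i) (g1.notMem (by omega) h3)
      have a4 := X.δmono ((range j).image g) ((range (j + k)).image g) (g i)
        (image_subset_image (range_subset_range.2 (by omega)))
      rw [← add_assoc, range_add_one, image_insert]
      push_cast
      linarith
  exact (key _ (by omega)).trans (X.FΦ _)

/-- numerical hypotheses in the typical case -/
structure Typ (s : ℕ → ℕ → ℝ) (a p : ℕ) (l σ : ℝ) : Prop where
  long : ∀ j i, 1 ≤ j → j < i → i < Fintype.card κ → X.Φ < ((i + 1 - j : ℕ) : ℝ) * s j i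
  diag : ∀ q, 1 ≤ q → q < Fintype.card κ → l ≤ s q q
  light : ∀ j i, 1 ≤ j → j ≤ i → i < Fintype.card κ → (a < j ∨ i + a < Fintype.card κ) →
    X.Φ - l < s j i
  low : ∀ j i, 1 ≤ j → j ≤ i → i < Fintype.card κ → σ ≤ s j i
  σ0 : 0 ≤ σ
  few : X.Φ - l < a * σ
  p1 : 4 * a + 2 ≤ p
  p2 : p + 1 + a ≤ Fintype.card κ
  good : X.Φ < s p p
  last : X.Φ < s (Fintype.card κ - 1) (Fintype.card κ - 1)

variable {X} {s : ℕ → ℕ → ℝ} {a p : ℕ} {l σ : ℝ}

theorem Typ.tail (h : X.Typ s a p l σ) {f : ℕ → κ} {j0 : ℕ} {A : Finset κ} (hf : Pre f j0 A)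
    (hH : ∀ x, l ≤ X.δ (univ.erase x) x → x ∈ A) :
    ∃ g B, Pre g (Fintype.card κ) B ∧ (∀ t, t < j0 → g t = f t) ∧
      ∀ j i, 1 ≤ j → j0 ≤ j → j ≤ i → i < Fintype.card κ →
        X.δ ((range j).image g) (g i) < s j i := by
  obtain ⟨g, B, g1, g2, g3⟩ := X.greedy_ext hf
  refine ⟨g, B, g1, g2, fun j i h0 h1 h2 h3 => ?_⟩
  rcases Nat.eq_or_lt_of_le h2 with rfl | h4
  · by_contra hc
    have a1 := (h.diag j h0 h3).trans (not_lt.1 hc)
    have a2 := hH (g j) (a1.trans (X.δmono _ _ _ fun y hy => mem_erase.2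
      ⟨fun e => g1.notMem le_rfl h3 (e ▸ hy), mem_univ _⟩))
    rw [← hf.2, ← image_agree g2 le_rfl] at a2
    exact g1.notMem h1 h3 a2
  · exact lt_of_mul_lt_mul_left ((g3 j i h1 h2 h3).trans_lt (h.long j i h0 h4 h3))
      (Nat.cast_nonneg _)

theorem F_erase {x : κ} (hx : l ≤ X.δ (univ.erase x) x) : X.F (univ.erase x) ≤ X.Φ - l := by
  have := X.Fstep _ x (notMem_erase x univ)
  have := X.FΦ (insert x (univ.erase x))
  linarith

theorem Typ.pair (h : X.Typ s a p l σ) {f : ℕ → κ} {P c : ℕ} {A : Finset κ} (hf : Pre f P A)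
    {x y : κ} (hxy : x ≠ y) (hx : l ≤ X.δ (univ.erase x) x) (hy : l ≤ X.δ (univ.erase y) y)
    (hxA : x ∉ A) (hyA : y ∉ A) (hH : ∀ v, l ≤ X.δ (univ.erase v) v → v ∈ insert x (insert y A))
    (hP : X.Φ < s (P + 1) (P + 1)) (ha : a ≤ P) (hc : c + a ≤ Fintype.card κ)
    (hU : ∀ v, σ ≤ X.δ ((range a).image f) v →
      (c ≤ P ∧ v ∈ (range c).image f) ∨ (c = P + 2 ∧ v ∈ insert x (insert y A))) :
    ∃ g : ℕ → κ, Set.InjOn g (range (Fintype.card κ) : Finset ℕ) ∧
      ∀ j i, 1 ≤ j → j ≤ i → i < Fintype.card κ → X.δ ((range j).image g) (g i) < s j i := by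
  obtain ⟨f1, b1, b2, b3⟩ := hf.one hyA
  obtain ⟨f2, c1, c2, c3⟩ := b1.one (w := x) (by simp [hxy, hxA])
  obtain ⟨g, B, g1, g2, g3⟩ := h.tail c1 hH
  have gf : ∀ t, t < P → g t = f t := fun t ht =>
    ((g2 t (by omega)).trans (c3 t (by omega))).trans (b3 t ht)
  have gy : g P = y := ((g2 P (by omega)).trans (c3 P (by omega))).trans b2
  have gx : g (P + 1) = x := (g2 _ (by omega)).trans c2
  have hPc : P + 2 ≤ Fintype.card κ := c1.card ▸ card_le_univ _
  refine ⟨g, g1.1, fun j i h1 h2 h3 => ?_⟩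
  have nm := g1.notMem h2 h3
  by_cases h4 : P + 2 ≤ j
  · exact g3 j i h1 h4 h2 h3
  by_cases h5 : j = P + 1 ∧ i = P + 1
  · obtain ⟨rfl, rfl⟩ := h5
    exact ((X.δ_le nm subset_rfl).trans (X.FΦ _)).trans_lt hP
  have lt : X.δ ((range j).image g) (g i) ≤ X.Φ - l := by
    obtain ⟨q, q1, q2, q3, q4⟩ : ∃ q, j ≤ q ∧ q ≠ i ∧ q < Fintype.card κ ∧
        l ≤ X.δ (univ.erase (g q)) (g q) := by
      by_cases h6 : i = P + 1
      · exact ⟨P, by omega, by omega, by omega, gy ▸ hy⟩
      · exact ⟨P + 1, by omega, by omega, by omega, gx ▸ hx⟩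
    refine (X.δ_le nm fun v hv => mem_erase.2 ⟨?_, mem_univ _⟩).trans (F_erase q4)
    rintro rfl
    rcases mem_insert.1 hv with e | e
    · exact q2 (g1.1 (by simpa using q3) (by simpa using h3) e)
    · exact g1.notMem q1 q3 e
  by_cases h6 : a < j ∨ i + a < Fintype.card κ
  · exact lt.trans_lt (h.light j i h1 h2 h3 h6)
  refine lt_of_lt_of_le ?_ (h.low j i h1 h2 h3)
  by_contra hcon
  have m1 := (not_lt.1 hcon).trans (X.δmono _ ((range a).image g) _
    (image_subset_image (range_subset_range.2 (by omega))))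
  rw [image_agree gf ha] at m1
  refine g1.notMem (j := c) (by omega) h3 ?_
  rcases hU _ m1 with ⟨u1, u2⟩ | ⟨u1, u2⟩
  · rwa [image_agree gf u1]
  · rwa [u1, image_agree g2 le_rfl, c1.2]

theorem Typ.urg (h : X.Typ s a p l σ) {x : κ} (hx : l ≤ X.δ (univ.erase x) x) {A : Finset κ}
    (hA : x ∉ A) (hc : A.card = a) :
    (A ∪ univ.filter fun v => σ ≤ X.δ A v).card ≤ 2 * a := by
  set U := ((univ.filter fun v => σ ≤ X.δ A v) \ A).erase x with hU
  have h1 := X.F_add (t := σ) (A := A) U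
    (disjoint_left.2 fun v a b => (mem_sdiff.1 (mem_erase.1 b).2).2 a)
    fun v hv => (mem_filter.1 (mem_sdiff.1 (mem_erase.1 hv).2).1).2
  have h2 := X.Fmono (A := A ∪ U) (B := univ.erase x) fun v hv => mem_erase.2 ⟨by
    rintro rfl
    exact (mem_union.1 hv).elim hA (notMem_erase _ _), mem_univ _⟩
  have h3 := F_erase hx
  have h4 := X.F0 A
  have h5 := h.few
  have h6 : (U.card : ℝ) < a := lt_of_mul_lt_mul_left (a := σ) (by linarith) h.σ0
  have h7 : U.card < a := by exact_mod_cast h6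
  have h8 := pred_card_le_card_erase (s := (univ.filter fun v => σ ≤ X.δ A v) \ A) (a := x)
  rw [← union_sdiff_self_eq_union]
  have := card_union_le A ((univ.filter fun v => σ ≤ X.δ A v) \ A)
  rw [← hU] at h8
  omega

/-- the scheduling lemma in the typical case -/
theorem Typ.sched (h : X.Typ s a p l σ) [Inhabited κ] :
    ∃ g : ℕ → κ, Set.InjOn g (range (Fintype.card κ) : Finset ℕ) ∧
      ∀ j i, 1 ≤ j → j ≤ i → i < Fintype.card κ → X.δ ((range j).image g) (g i) < s j i := by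
  set H := univ.filter fun x => l ≤ X.δ (univ.erase x) x with hH
  have mH : ∀ x, x ∈ H ↔ l ≤ X.δ (univ.erase x) x := fun x => by simp [hH]
  have p0 : Pre (fun _ => (default : κ)) 0 ∅ := ⟨by simp, by simp⟩
  have p1 := h.p1
  have p2 := h.p2
  by_cases h1 : H.card ≤ 1
  · obtain ⟨x, hx⟩ := card_le_one_iff_subset_singleton.1 h1
    obtain ⟨f, f1, -⟩ := p0.ext (empty_subset {x})
    obtain ⟨g, B, g1, -, g3⟩ := h.tail f1 fun v hv => hx ((mH v).2 hv)
    exact ⟨g, g1.1, fun j i a1 a2 a3 => g3 j i a1 (by simpa using a1) a2 a3⟩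
  by_cases h2 : H.card ≤ 2 * a + 1
  · obtain ⟨x, hx, y, hy, hxy⟩ := one_lt_card.1 (not_le.1 h1)
    have cc : ((univ.erase x).erase y).card + 2 = Fintype.card κ := by
      rw [card_erase_of_mem (mem_erase.2 ⟨hxy.symm, mem_univ _⟩), card_erase_of_mem (mem_univ _),
        card_univ]
      omega
    obtain ⟨A1, a1, a2⟩ := exists_subset_card_eq (s := (univ.erase x).erase y) (n := a) (by omega)
    have xA : x ∉ A1 := fun hh => notMem_erase _ _ (mem_of_mem_erase (a1 hh))
    have u := h.urg ((mH x).1 hx) xA a2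
    set U := A1 ∪ univ.filter fun v => σ ≤ X.δ A1 v with hU
    obtain ⟨A3, b1, b2, b3⟩ := exists_subsuperset_card_eq (s := ((U ∪ H).erase x).erase y)
      (t := (univ.erase x).erase y) (n := p - 1)
      (erase_subset_erase _ (erase_subset_erase _ (subset_univ _)))
      (by
        have := card_union_le U H
        have := card_erase_le (s := U ∪ H) (a := x)
        have := card_erase_le (s := (U ∪ H).erase x) (a := y)
        omega) (by omega)
    have sub : ∀ v ∈ U ∪ H, v ∈ insert x (insert y A3) := by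
      intro v hv
      by_cases e1 : v = x
      · simp [e1]
      by_cases e2 : v = y
      · simp [e2]
      exact mem_insert_of_mem (mem_insert_of_mem (b1 (mem_erase.2 ⟨e2, mem_erase.2 ⟨e1, hv⟩⟩)))
    obtain ⟨f1, c1, -⟩ := p0.ext (empty_subset A1)
    obtain ⟨f3, d1, d2⟩ := c1.ext (B := A3) fun v hv => b1 (mem_erase.2
      ⟨(mem_erase.1 (a1 hv)).1, mem_erase.2 ⟨(mem_erase.1 (mem_erase.1 (a1 hv)).2).1,
        mem_union_left _ (mem_union_left _ hv)⟩⟩)
    rw [b3] at d1
    rw [a2] at d2 c1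
    refine h.pair (c := p + 1) d1 hxy ((mH x).1 hx) ((mH y).1 hy)
      (fun hh => notMem_erase _ _ (mem_of_mem_erase (b2 hh))) (fun hh => notMem_erase _ _ (b2 hh))
      (fun v hv => sub v (mem_union_right _ ((mH v).2 hv))) ?_ (by omega) p2 fun v hv => ?_
    · rw [show p - 1 + 1 = p by omega]
      exact h.good
    · rw [image_agree d2 le_rfl, c1.2] at hv
      exact Or.inr ⟨by omega, sub v (mem_union_left _
        (mem_union_right _ (mem_filter.2 ⟨mem_univ _, hv⟩)))⟩
  · obtain ⟨x0, hx0⟩ : H.Nonempty := card_pos.1 (by omega)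
    obtain ⟨A1, a1, a2⟩ := exists_subset_card_eq (s := univ.erase x0) (n := a) (by
      rw [card_erase_of_mem (mem_univ _), card_univ]
      omega)
    have u := h.urg ((mH x0).1 hx0) (fun hh => notMem_erase _ _ (a1 hh)) a2
    set U := A1 ∪ univ.filter fun v => σ ≤ X.δ A1 v with hU
    obtain ⟨x, hx, y, hy, hxy⟩ := one_lt_card.1 (show 1 < (H \ U).card by
      have := le_card_sdiff U H
      omega)
    obtain ⟨x1, x2⟩ := mem_sdiff.1 hx
    obtain ⟨y1, y2⟩ := mem_sdiff.1 hy
    have cc : ((univ.erase x).erase y).card + 2 = Fintype.card κ := by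
      rw [card_erase_of_mem (mem_erase.2 ⟨hxy.symm, mem_univ _⟩), card_erase_of_mem (mem_univ _),
        card_univ]
      omega
    obtain ⟨f1, c1, -⟩ := p0.ext (empty_subset A1)
    obtain ⟨f2, d1, d2⟩ := c1.ext (B := U) subset_union_left
    obtain ⟨f3, e1, e2⟩ := d1.ext (B := (univ.erase x).erase y) fun v hv => mem_erase.2
      ⟨fun e => y2 (e ▸ hv), mem_erase.2 ⟨fun e => x2 (e ▸ hv), mem_univ _⟩⟩
    have aU : a ≤ U.card := a2 ▸ card_le_card subset_union_left
    rw [a2] at d2 c1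
    refine h.pair (c := U.card) e1 hxy ((mH x).1 x1) ((mH y).1 y1)
      (fun hh => notMem_erase _ _ (mem_of_mem_erase hh)) (notMem_erase _ _)
      (fun v _ => ?_) ?_ (by omega) (by omega) fun v hv => ?_
    · by_cases e1 : v = x
      · simp [e1]
      by_cases e2 : v = y
      · simp [e2]
      simp [e1, e2]
    · rw [show ((univ.erase x).erase y).card + 1 = Fintype.card κ - 1 by omega]
      exact h.last
    · rw [image_agree e2 aU, image_agree d2 le_rfl, c1.2] at hv
      refine Or.inl ⟨by omega, ?_⟩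
      rw [image_agree e2 le_rfl, d1.2]
      exact mem_union_right _ (mem_filter.2 ⟨mem_univ _, hv⟩)

end Sys

end Pool.Agent.P.MP_754fe6_co
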