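import Mathlib
import Pool.Agent.P.MP_754fe6_co.TypSched

namespace Pool.Agent.P.MP_754fe6_co

open Finset

namespace Sys

variable {κ : Type} [Fintype κ] [DecidableEq κ] (X : Sys κ)

/-- numerical hypotheses of the refined scheduling lemma -/
structure Ref (s : ℕ → ℕ → ℝ) (a b k p : ℕ) (l σ : ℝ) : Prop where
  long : ∀ j i, 1 ≤ j → j < i → i < Fintype.card κ → X.Φ < ((i + 1 - j : ℕ) : ℝ) * s j i
  diag : ∀ q, 1 ≤ q → q < Fintype.card κ → l ≤ s q q
  light : ∀ j i, 1 ≤ j → j ≤ i → i < Fintype.card κ → (a < j ∨ i + b < Fintype.card κ) →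
    X.Φ - l < s j i
  low : ∀ j i, 1 ≤ j → j ≤ i → i < Fintype.card κ → σ ≤ s j i
  σ0 : 0 ≤ σ
  few : X.Φ - l < (k + 1) * σ
  p0 : a + 1 ≤ p
  p1 : a + k ≤ p
  p2 : p + b < Fintype.card κ
  good : X.Φ - σ < s p p
  last : X.Φ < s (Fintype.card κ - 1) (Fintype.card κ - 1)

variable {X} {s : ℕ → ℕ → ℝ} {a b k p : ℕ} {l σ : ℝ}

theorem Ref.tail (h : X.Ref s a b k p l σ) {f : ℕ → κ} {j0 : ℕ} {A : Finset κ} (hf : Pre f j0 A)
    (hH : ∀ x, l ≤ X.δ (univ.erase x) x → x ∈ A) :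
    ∃ g B, Pre g (Fintype.card κ) B ∧ (∀ t, t < j0 → g t = f t) ∧
      ∀ j i, 1 ≤ j → j0 ≤ j → j ≤ i → i < Fintype.card κ →
        X.δ ((range j).image g) (g i) < s j i := by
  obtain ⟨g, B, g1, g2, g3⟩ := X.greedy_ext hf
  refine ⟨g, B, g1, g2, fun j i h0 h1 h2 h3 => ?_⟩
  rcases Nat.eq_or_lt_of_le h2 with rfl | h4
  · by_contra hc
    have a1 := (h.diag j h0 h3).trans (not_lt.1 hc)
    have a2 := hH (g j) (a1.trans (X.δmono _ _ _ fun y hy => mem_erase.2
      ⟨fun e => g1.notMem le_rfl h3 (e ▸ hy), mem_univ _⟩))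
    rw [← hf.2, ← image_agree g2 le_rfl] at a2
    exact g1.notMem h1 h3 a2
  · exact lt_of_mul_lt_mul_left ((g3 j i h1 h2 h3).trans_lt (h.long j i h0 h4 h3))
      (Nat.cast_nonneg _)

theorem Ref.pair (h : X.Ref s a b k p l σ) {f : ℕ → κ} {P c : ℕ} {A : Finset κ} (hf : Pre f P A)
    {x y : κ} (hxy : x ≠ y) (hx : l ≤ X.δ (univ.erase x) x) (hy : l ≤ X.δ (univ.erase y) y)
    (hxA : x ∉ A) (hyA : y ∉ A) (hH : ∀ v, l ≤ X.δ (univ.erase v) v → v ∈ insert x (insert y A))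
    (hP : X.δ (univ.erase x) x < s (P + 1) (P + 1)) (ha : a ≤ P) (hc : c + b ≤ Fintype.card κ)
    (hU : ∀ v, σ ≤ X.δ ((range a).image f) v →
      (c ≤ P ∧ v ∈ (range c).image f) ∨ (c = P + 2 ∧ v ∈ insert x (insert y A))) :
    ∃ g : ℕ → κ, Set.InjOn g (range (Fintype.card κ) : Finset ℕ) ∧
      ∀ j i, 1 ≤ j → j ≤ i → i < Fintype.card κ → X.δ ((range j).image g) (g i) < s j i := by
  obtain ⟨f1, b1, b2, b3⟩ := hf.one hyA
  obtain ⟨f2, c1, c2, c3⟩ := b1.one (w := x) (by simp [hxy, hxA])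
  obtain ⟨g, B, g1, g2, g3⟩ := h.tail c1 hH
  have gf : ∀ t, t < P → g t = f t := fun t ht =>
    ((g2 t (by omega)).trans (c3 t (by omega))).trans (b3 t ht)
  have gy : g P = y := ((g2 P (by omega)).trans (c3 P (by omega))).trans b2
  have gx : g (P + 1) = x := (g2 _ (by omega)).trans c2
  have hPc : P + 2 ≤ Fintype.card κ := c1.card ▸ card_le_univ _
  refine ⟨g, g1.1, fun j i h1 h2 h3 => ?_⟩
  have nm := g1.notMem h2 h3
  by_cases h4 : P + 2 ≤ j
  · exact g3 j i h1 h4 h2 h3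
  by_cases h5 : j = P + 1 ∧ i = P + 1
  · obtain ⟨rfl, rfl⟩ := h5
    rw [gx] at nm ⊢
    exact (X.δmono _ _ _ fun v hv => mem_erase.2
      ⟨fun e => nm (by rwa [e] at hv), mem_univ _⟩).trans_lt hP
  have lt : X.δ ((range j).image g) (g i) ≤ X.Φ - l := by
    obtain ⟨q, q1, q2, q3, q4⟩ : ∃ q, j ≤ q ∧ q ≠ i ∧ q < Fintype.card κ ∧
        l ≤ X.δ (univ.erase (g q)) (g q) := by
      by_cases h6 : i = P + 1
      · exact ⟨P, by omega, by omega, by omega, gy ▸ hy⟩
      · exact ⟨P + 1, by omega, by omega, by omega, gx ▸ hx⟩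
    refine (X.δ_le nm fun v hv => mem_erase.2 ⟨?_, mem_univ _⟩).trans (F_erase q4)
    rintro rfl
    rcases mem_insert.1 hv with e | e
    · exact q2 (g1.1 (by simpa using q3) (by simpa using h3) e)
    · exact g1.notMem q1 q3 e
  by_cases h6 : a < j ∨ i + b < Fintype.card κ
  · exact lt.trans_lt (h.light j i h1 h2 h3 h6)
  refine lt_of_lt_of_le ?_ (h.low j i h1 h2 h3)
  by_contra hcon
  have m1 := (not_lt.1 hcon).trans (X.δmono _ ((range a).image g) _
    (image_subset_image (range_subset_range.2 (by omega))))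
  rw [image_agree gf ha] at m1
  refine g1.notMem (j := c) (by omega) h3 ?_
  rcases hU _ m1 with ⟨u1, u2⟩ | ⟨u1, u2⟩
  · rwa [image_agree gf u1]
  · rwa [u1, image_agree g2 le_rfl, c1.2]

theorem Ref.urg (h : X.Ref s a b k p l σ) {x : κ} (hx : l ≤ X.δ (univ.erase x) x)
    {A U : Finset κ} (hA : x ∉ A) (hU : x ∉ U) (hd : Disjoint A U) (hs : ∀ v ∈ U, σ ≤ X.δ A v) :
    U.card ≤ k := by
  have h1 := X.F_add (t := σ) (A := A) U hd hs
  have h2 := X.Fmono (A := A ∪ U) (B := univ.erase x) fun v hv => mem_erase.2 ⟨by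
    rintro rfl
    exact (mem_union.1 hv).elim hA hU, mem_univ _⟩
  have h3 := F_erase hx
  have h4 := X.F0 A
  have h5 := h.few
  have h6 : (U.card : ℝ) < k + 1 := lt_of_mul_lt_mul_left (a := σ) (by linarith) h.σ0
  have h7 : U.card < k + 1 := by exact_mod_cast h6
  omega

/-- the refined scheduling lemma -/
theorem Ref.sched (h : X.Ref s a b k p l σ) [Inhabited κ] :
    ∃ g : ℕ → κ, Set.InjOn g (range (Fintype.card κ) : Finset ℕ) ∧
      ∀ j i, 1 ≤ j → j ≤ i → i < Fintype.card κ → X.δ ((range j).image g) (g i) < s j i := by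
  set H := univ.filter fun x => l ≤ X.δ (univ.erase x) x with hH
  have mH : ∀ x, x ∈ H ↔ l ≤ X.δ (univ.erase x) x := fun x => by simp [hH]
  have e0 : Pre (fun _ => (default : κ)) 0 ∅ := ⟨by simp, by simp⟩
  have p0 := h.p0
  have p1 := h.p1
  have p2 := h.p2
  by_cases h1 : H.card ≤ 1
  · obtain ⟨x, hx⟩ := card_le_one_iff_subset_singleton.1 h1
    obtain ⟨f, f1, -⟩ := e0.ext (empty_subset {x})
    obtain ⟨g, B, g1, -, g3⟩ := h.tail f1 fun v hv => hx ((mH v).2 hv)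
    exact ⟨g, g1.1, fun j i a1 a2 a3 => g3 j i a1 (by simpa using a1) a2 a3⟩
  have cc : ∀ x y : κ, x ≠ y → ((univ.erase x).erase y).card + 2 = Fintype.card κ := by
    intro x y hxy
    rw [card_erase_of_mem (mem_erase.2 ⟨hxy.symm, mem_univ _⟩), card_erase_of_mem (mem_univ _),
      card_univ]
    omega
  obtain ⟨x0, hx0, hmin⟩ := exists_min_image H (fun v => X.δ (univ.erase v) v)
    (card_pos.1 (by omega))
  obtain ⟨y0, hy0, hxy0⟩ := exists_mem_ne (not_le.1 h1) x0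
  have c0 := cc x0 y0 hxy0.symm
  obtain ⟨A1, a1, a2⟩ := exists_subset_card_eq (s := (univ.erase x0).erase y0) (n := a) (by omega)
  have xA : x0 ∉ A1 := fun hh => notMem_erase _ _ (mem_of_mem_erase (a1 hh))
  have yA : y0 ∉ A1 := fun hh => notMem_erase _ _ (a1 hh)
  set U := (univ.filter fun v => σ ≤ X.δ A1 v) \ A1 with hU
  have mU : ∀ v, v ∈ U ↔ σ ≤ X.δ A1 v ∧ v ∉ A1 := fun v => by simp [hU]
  have dU : Disjoint A1 U := disjoint_left.2 fun v a b => ((mU v).1 b).2 a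
  have sU : ∀ v, σ ≤ X.δ A1 v → v ∈ A1 ∪ U := fun v hv => by
    by_cases e : v ∈ A1
    · exact mem_union_left _ e
    · exact mem_union_right _ ((mU v).2 ⟨hv, e⟩)
  obtain ⟨f1, c1, -⟩ := e0.ext (empty_subset A1)
  rw [a2] at c1
  by_cases h2 : 1 < (H \ (A1 ∪ U)).card
  · obtain ⟨x, hx, y, hy, hxy⟩ := one_lt_card.1 h2
    obtain ⟨x1, x2⟩ := mem_sdiff.1 hx
    obtain ⟨y1, y2⟩ := mem_sdiff.1 hy
    have c2 := cc x y hxy
    have u := h.urg ((mH x).1 x1) (fun hh => x2 (mem_union_left _ hh))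
      (fun hh => x2 (mem_union_right _ hh)) dU fun v hv => ((mU v).1 hv).1
    have u2 := card_union_le A1 U
    have sub : A1 ∪ U ⊆ (univ.erase x).erase y := fun v hv => mem_erase.2
      ⟨fun e => y2 (e ▸ hv), mem_erase.2 ⟨fun e => x2 (e ▸ hv), mem_univ _⟩⟩
    have u3 := card_le_card sub
    obtain ⟨f2, d1, d2⟩ := c1.ext (B := A1 ∪ U) subset_union_left
    obtain ⟨f3, e1, e2⟩ := d1.ext sub
    have aU : a ≤ (A1 ∪ U).card := a2 ▸ card_le_card subset_union_left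
    refine h.pair (c := (A1 ∪ U).card) e1 hxy ((mH x).1 x1) ((mH y).1 y1)
      (fun hh => notMem_erase _ _ (mem_of_mem_erase hh)) (notMem_erase _ _)
      (fun v _ => ?_) ?_ (by omega) (by omega) fun v hv => ?_
    · by_cases e1 : v = x
      · simp [e1]
      by_cases e2 : v = y
      · simp [e2]
      simp [e1, e2]
    · rw [show ((univ.erase x).erase y).card + 1 = Fintype.card κ - 1 by omega]
      exact ((X.δ_le (notMem_erase _ _) subset_rfl).trans (X.FΦ _)).trans_lt h.last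
    · rw [image_agree e2 aU, image_agree d2 le_rfl, c1.2] at hv
      refine Or.inl ⟨by omega, ?_⟩
      rw [image_agree e2 le_rfl, d1.2]
      exact sU v hv
  have key : ∀ u ∈ U, ∀ v ∈ H, v ∉ A1 → u ≠ v → X.δ (univ.erase x0) x0 < s p p := by
    intro u hu v hv hvA huv
    have b1 := X.δ_le (B := univ.erase v) ((mU u).1 hu).2 fun w hw => mem_erase.2 ⟨by
      rintro rfl
      exact (mem_insert.1 hw).elim (fun e => huv e.symm) hvA, mem_univ _⟩
    have b2 := F_erase (X := X) (x := v) le_rfl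
    have b3 := hmin v hv
    have b4 := ((mU u).1 hu).1
    have b5 := h.good
    linarith
  have hgood : X.δ (univ.erase x0) x0 < s p p := by
    by_cases e1 : x0 ∈ U
    · exact key x0 e1 y0 hy0 yA hxy0.symm
    by_cases e2 : y0 ∈ U
    · exact key y0 e2 x0 hx0 xA hxy0
    exact absurd (one_lt_card.2 ⟨x0, mem_sdiff.2 ⟨hx0, fun hh => (mem_union.1 hh).elim xA e1⟩,
      y0, mem_sdiff.2 ⟨hy0, fun hh => (mem_union.1 hh).elim yA e2⟩, hxy0.symm⟩) h2
  have hB : (A1 ∪ U ∪ H).card ≤ a + k + 1 := by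
    have u2 := card_union_le A1 U
    have u3 : (A1 ∪ U ∪ H).card = (A1 ∪ U).card + (H \ (A1 ∪ U)).card :=
      (congrArg card union_sdiff_self_eq_union).symm.trans (card_union_of_disjoint disjoint_sdiff)
    rcases (H \ (A1 ∪ U)).eq_empty_or_nonempty with e | ⟨w, hw⟩
    · have := h.urg ((mH x0).1 hx0) xA (notMem_erase x0 U) (dU.mono_right (erase_subset _ _))
        fun v hv => ((mU v).1 (mem_of_mem_erase hv)).1
      have := pred_card_le_card_erase (s := U) (a := x0)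
      rw [e, card_empty] at u3
      omega
    · obtain ⟨w1, w2⟩ := mem_sdiff.1 hw
      have := h.urg ((mH w).1 w1) (fun hh => w2 (mem_union_left _ hh))
        (fun hh => w2 (mem_union_right _ hh)) dU fun v hv => ((mU v).1 hv).1
      omega
  obtain ⟨A3, b1, b2, b3⟩ := exists_subsuperset_card_eq (s := ((A1 ∪ U ∪ H).erase x0).erase y0)
    (t := (univ.erase x0).erase y0) (n := p - 1)
    (erase_subset_erase _ (erase_subset_erase _ (subset_univ _)))
    (by
      rw [card_erase_of_mem (mem_erase.2 ⟨hxy0, mem_union_right _ hy0⟩),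
        card_erase_of_mem (mem_union_right _ hx0)]
      omega) (by omega)
  have sub : ∀ v ∈ A1 ∪ U ∪ H, v ∈ insert x0 (insert y0 A3) := by
    intro v hv
    by_cases e1 : v = x0
    · simp [e1]
    by_cases e2 : v = y0
    · simp [e2]
    exact mem_insert_of_mem (mem_insert_of_mem (b1 (mem_erase.2 ⟨e2, mem_erase.2 ⟨e1, hv⟩⟩)))
  obtain ⟨f3, d1, d2⟩ := c1.ext (B := A3) fun v hv => b1 (mem_erase.2
    ⟨(mem_erase.1 (a1 hv)).1, mem_erase.2 ⟨(mem_erase.1 (mem_erase.1 (a1 hv)).2).1,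
      mem_union_left _ (mem_union_left _ hv)⟩⟩)
  rw [b3] at d1
  refine h.pair (c := p + 1) d1 hxy0.symm ((mH x0).1 hx0) ((mH y0).1 hy0)
    (fun hh => notMem_erase _ _ (mem_of_mem_erase (b2 hh))) (fun hh => notMem_erase _ _ (b2 hh))
    (fun v hv => sub v (mem_union_right _ ((mH v).2 hv))) ?_ (by omega) (by omega) fun v hv => ?_
  · rwa [show p - 1 + 1 = p by omega]
  · rw [image_agree d2 le_rfl, c1.2] at hv
    exact Or.inr ⟨by omega, sub v (mem_union_left _ (sU v hv))⟩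

end Sys

end Pool.Agent.P.MP_754fe6_co
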