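import Mathlib
import Pool.Agent.P.MP_754fe6_co.Triv

namespace Pool.Agent.P.MP_754fe6_co

open Finset

theorem win_self (d : ℕ → ℕ) (j : ℕ) : win d j j = d j := by simp [win]

theorem win_shift (d : ℕ → ℕ) (k y : ℕ) :
    win d k (k + y) * d (k + y + 1) = d k * win d (k + 1) (k + 1 + y) := by
  rw [← win_self d (k + y + 1), ← win_split d (by omega) (by omega), ← win_self d k,
    ← win_split d (by omega) (by omega)]
  congr 1
  omega

theorem end_window {m n : ℕ} {d : ℕ → ℕ} (hd : ∀ t, 1 ≤ d t) (hn : win d 1 m ≤ n)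
    (hmn : m + 1 ≤ n) {j y : ℕ} (hj : 1 ≤ j) (hy : j + y = m) (h2 : 2 ≤ win d j m) :
    n ^ j * win d j m ^ (y + 1) ≤ CL (m + 1) * exStar n (degs m d) := by
  have := lower_fam hd hn hmn (ρ := j) (z := y + 1) (w := 0) (I := m + 1) hj (by omega) (by omega)
    (by omega) le_rfl h2 (fun j' a b => by
      obtain rfl : j' = j := by omega
      rw [show j' + (y + 1) - 1 = m by omega])
  simpa [topWin] using this

theorem valley_lower {m n : ℕ} {d : ℕ → ℕ} (hd : ∀ t, 1 ≤ d t) (hn : win d 1 m ≤ n)
    (hmn : m + 1 ≤ n)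
    (hv : ∀ a b c, 1 ≤ a → a < b → b < c → c ≤ m → d b ≤ max (d a) (d c)) :
    windowMax (m + 1) n d ≤ CL (m + 1) * exStar n (degs m d) := by
  refine Finset.sup_le ?_
  rintro ⟨j, i⟩ hp
  simp only [mem_filter, mem_product, mem_Icc, add_tsub_cancel_right] at hp ⊢
  obtain ⟨⟨⟨j1, -⟩, -, i2⟩, hji, h2⟩ := hp
  obtain ⟨y, rfl⟩ := Nat.exists_eq_add_of_le hji
  rw [show j + y + 1 - j = y + 1 by omega]
  have Tn : topWin (m + 1) n d (j + y + 1) ≤ n := by
    unfold topWin
    split_ifs
    · exact le_rfl
    · exact (win_mono hd le_rfl (by omega)).trans hn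
  by_cases hA : ∀ j', 1 ≤ j' → j' ≤ j → win d j (j + y) ≤ win d j' (j' + y)
  · have := lower_fam hd hn hmn (ρ := 1) (z := y + 1) (w := m - (y + 1)) (I := j + y + 1) le_rfl
      (by omega) (by omega) (by omega) (by omega) h2 (fun j' a b => by
        rw [show j' + (y + 1) - 1 = j' + y by omega]
        exact hA j' a (by omega))
    refine le_trans (le_of_eq ?_) this
    ring
  push Not at hA
  obtain ⟨j', a1, a2, a3⟩ := hA
  have ex : ∃ k, 1 ≤ k ∧ k < j ∧ d k < d (k + y + 1) := by
    by_contra hc
    push Not at hc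
    have : ∀ s, j' + s ≤ j → win d (j' + s) (j' + s + y) ≤ win d j' (j' + y) := by
      intro s
      induction s with
      | zero => simp
      | succ s ih =>
        intro hs
        refine le_trans ?_ (ih (by omega))
        have e := win_shift d (j' + s) y
        have := Nat.mul_le_mul_left (win d (j' + s) (j' + s + y)) (hc (j' + s) (by omega) (by omega))
        rw [e, mul_comm] at this
        exact Nat.le_of_mul_le_mul_right this (hd _)
    have := this (j - j') (by omega)
    rw [show j' + (j - j') = j by omega] at this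
    omega
  obtain ⟨k, k1, k2, k3⟩ := ex
  have up : ∀ s, j + s + y ≤ m → win d j (j + y) ≤ win d (j + s) (j + s + y) := by
    intro s
    induction s with
    | zero => simp
    | succ s ih =>
      intro hs
      refine (ih (by omega)).trans ?_
      have e := win_shift d (j + s) y
      have v1 := hv k (k + y + 1) (j + s + y + 1) k1 (by omega) (by omega) (by omega)
      have v2 := hv k (j + s) (j + s + y + 1) k1 (by omega) (by omega) (by omega)
      have := Nat.mul_le_mul_left (win d (j + s) (j + s + y))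
        (show d (j + s) ≤ d (j + s + y + 1) by omega)
      rw [e, mul_comm] at this
      exact Nat.le_of_mul_le_mul_left this (hd _)
  have u := up (m - y - j) (by omega)
  rw [show j + (m - y - j) = m - y by omega, show m - y + y = m by omega] at u
  refine le_trans ?_ (end_window hd hn hmn (j := m - y) (y := y) (by omega) (by omega) (h2.trans u))
  rw [show m - y = m - (y + 1) + 1 by omega, pow_succ n]
  rw [show m - y = m - (y + 1) + 1 by omega] at u
  calc _ ≤ n ^ (m - (y + 1)) * win d (m - (y + 1) + 1) m ^ (y + 1) * n := by gcongr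
    _ = _ := by ring

theorem pow_le_windowMax {m n : ℕ} {d : ℕ → ℕ} (hm : 1 ≤ m) (hn : 1 ≤ n) (h : n < win d 1 m) :
    n ^ (m + 1) ≤ windowMax (m + 1) n d := by
  refine le_trans ?_ (le_sup (f := fun p : ℕ × ℕ => n ^ (m + 1 - 1 - (p.2 + 1 - p.1)) *
    win d p.1 p.2 ^ (p.2 + 1 - p.1) * topWin (m + 1) n d (p.2 + 1)) (b := (1, m))
    (by simp only [mem_filter, mem_product, mem_Icc]; omega))
  simp only [add_tsub_cancel_right, tsub_self, pow_zero, one_mul, topWin, if_true, pow_succ]
  gcongr

end Pool.Agent.P.MP_754fe6_co
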