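import Mathlib
import Pool.Agent.P.MP_754fe6_co.RefSched
import Pool.Agent.P.MP_754fe6_co.Valley
import Pool.Agent.P.MP_754fe6_co.Bridge

namespace Pool.Agent.P.MP_754fe6_co

open Finset

variable {m n : ℕ} {d : ℕ → ℕ}

theorem end_fam {j y : ℕ} (hj : 1 ≤ j) (hy : j + y = m) (h2 : 2 ≤ win d j m) :
    n ^ j * win d j m ^ (y + 1) ≤ famMax (m + 1) n d := by
  obtain ⟨j', j1, j2, j3⟩ := minWin_spec d (ρ := j) (z := y + 1) (I := m + 1) (by omega)
  obtain rfl : j' = j := by omega
  rw [show j' + (y + 1) - 1 = m by omega] at j3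
  refine le_trans (le_of_eq ?_) (le_famMax (ρ := j') (z := y + 1) (I := m + 1) hj (by omega)
    (by omega) le_rfl (by omega))
  rw [j3, topWin, if_pos rfl, show m + 1 - j' - (y + 1) = 0 by omega, pow_zero, one_mul]

theorem left_fam {j y : ℕ} (hj : 1 ≤ j) (hy : j + y ≤ m) (h2 : 2 ≤ win d j (j + y))
    (hA : ∀ j', 1 ≤ j' → j' ≤ j → win d j (j + y) ≤ win d j' (j' + y)) :
    n ^ (m - (y + 1)) * win d j (j + y) ^ (y + 1) * topWin (m + 1) n d (j + y + 1) ≤
      famMax (m + 1) n d := by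
  obtain ⟨j', j1, j2, j3⟩ := minWin_spec d (ρ := 1) (z := y + 1) (I := j + y + 1) (by omega)
  rw [show j' + (y + 1) - 1 = j' + y by omega] at j3
  have a := hA j' j1 (by omega)
  refine le_trans ?_ (le_famMax (ρ := 1) (z := y + 1) (I := j + y + 1) le_rfl (by omega)
    (by omega) (by omega) (by omega))
  rw [j3, pow_one, add_tsub_cancel_right, mul_right_comm]
  gcongr

theorem valley_fam (hd : ∀ t, 1 ≤ d t) (hn : win d 1 m ≤ n)
    (hv : ∀ a b c, 1 ≤ a → a < b → b < c → c ≤ m → d b ≤ max (d a) (d c)) :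
    windowMax (m + 1) n d ≤ famMax (m + 1) n d := by
  refine Finset.sup_le ?_
  rintro ⟨j, i⟩ hp
  simp only [mem_filter, mem_product, mem_Icc, add_tsub_cancel_right] at hp ⊢
  obtain ⟨⟨⟨j1, -⟩, -, i2⟩, hji, h2⟩ := hp
  obtain ⟨y, rfl⟩ := Nat.exists_eq_add_of_le hji
  rw [show j + y + 1 - j = y + 1 by omega]
  have Tn : topWin (m + 1) n d (j + y + 1) ≤ n := by
    unfold topWin
    split_ifs
    · exact le_rfl
    · exact (win_mono hd le_rfl (by omega)).trans hn
  by_cases hA : ∀ j', 1 ≤ j' → j' ≤ j → win d j (j + y) ≤ win d j' (j' + y)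
  · exact left_fam j1 i2 h2 hA
  push Not at hA
  obtain ⟨j', a1, a2, a3⟩ := hA
  have ex : ∃ k, 1 ≤ k ∧ k < j ∧ d k < d (k + y + 1) := by
    by_contra hc
    push Not at hc
    have : ∀ s, j' + s ≤ j → win d (j' + s) (j' + s + y) ≤ win d j' (j' + y) := by
      intro s
      induction s with
      | zero => simp
      | succ s ih =>
        intro hs
        refine le_trans ?_ (ih (by omega))
        have e := win_shift d (j' + s) y
        have := Nat.mul_le_mul_left (win d (j' + s) (j' + s + y)) (hc (j' + s) (by omega) (by omega))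
        rw [e, mul_comm] at this
        exact Nat.le_of_mul_le_mul_right this (hd _)
    have := this (j - j') (by omega)
    rw [show j' + (j - j') = j by omega] at this
    omega
  obtain ⟨k, k1, k2, k3⟩ := ex
  have up : ∀ s, j + s + y ≤ m → win d j (j + y) ≤ win d (j + s) (j + s + y) := by
    intro s
    induction s with
    | zero => simp
    | succ s ih =>
      intro hs
      refine (ih (by omega)).trans ?_
      have e := win_shift d (j + s) y
      have v1 := hv k (k + y + 1) (j + s + y + 1) k1 (by omega) (by omega) (by omega)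
      have v2 := hv k (j + s) (j + s + y + 1) k1 (by omega) (by omega) (by omega)
      have := Nat.mul_le_mul_left (win d (j + s) (j + s + y))
        (show d (j + s) ≤ d (j + s + y + 1) by omega)
      rw [e, mul_comm] at this
      exact Nat.le_of_mul_le_mul_left this (hd _)
  have u := up (m - y - j) (by omega)
  rw [show j + (m - y - j) = m - y by omega, show m - y + y = m by omega] at u
  refine le_trans ?_ (end_fam (j := m - y) (y := y) (by omega) (by omega) (h2.trans u))
  rw [show m - y = m - (y + 1) + 1 by omega, pow_succ n]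
  rw [show m - y = m - (y + 1) + 1 by omega] at u
  calc _ ≤ n ^ (m - (y + 1)) * win d (m - (y + 1) + 1) m ^ (y + 1) * n := by gcongr
    _ = _ := by ring

/-- the slack of a window -/
noncomputable def sw (y : ℕ → ℝ) (j i : ℕ) : ℝ := 1 - ∑ t ∈ Icc j i, y t

theorem sw_anti {y : ℕ → ℝ} (nn : ∀ t, 0 ≤ y t) {j j' i i' : ℕ} (h1 : j' ≤ j) (h2 : i ≤ i') :
    sw y j' i' ≤ sw y j i :=
  sub_le_sub_left (sum_le_sum_of_subset_of_nonneg (Icc_subset_Icc h1 h2) fun t _ _ => nn t) 1

theorem sw_self (y : ℕ → ℝ) (j : ℕ) : sw y j j = 1 - y j := by simp [sw]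

/-- all inner windows are dominated -/
def GoodW (m : ℕ) (y : ℕ → ℝ) : Prop :=
  ∀ j i, 2 ≤ j → j ≤ i → i < m →
    1 - y m < ((i + 1 - j : ℕ) : ℝ) * sw y j i + sw y 1 (i + 1) ∨
      m * sw y 1 m < ((i + 1 - j : ℕ) : ℝ) * sw y j i + sw y 1 (i + 1)

/-- the conditions of the refined scheduling lemma -/
def GoodR (m : ℕ) (y : ℕ → ℝ) : Prop :=
  (∀ j i, 1 ≤ j → j < i → i < m → 1 - y m < ((i + 1 - j : ℕ) : ℝ) * sw y j i ∨
      m * sw y 1 m < ((i + 1 - j : ℕ) : ℝ) * sw y j i) ∧
  ∃ (a b k p : ℕ) (M : ℝ), (∀ t, 1 ≤ t → t ≤ m → y t ≤ M) ∧ M - y m ≤ sw y (a + 1) m ∧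
    M - y m ≤ sw y 1 (m - b) ∧ M - y m ≤ (k + 1) * sw y 1 m ∧ a + 1 ≤ p ∧ a + k ≤ p ∧ p + b ≤ m ∧
    y p ≤ y m + sw y 1 m

/-- the exponent vector -/
noncomputable def ev (n : ℕ) (d : ℕ → ℕ) (t : ℕ) : ℝ := Real.log (d t) / Real.log n

theorem ev_nn (t : ℕ) : 0 ≤ ev n d t :=
  div_nonneg (Real.log_natCast_nonneg _) (Real.log_natCast_nonneg _)

theorem log_sw (hd : ∀ t, 1 ≤ d t) (h2 : 2 ≤ n) (j i : ℕ) :
    Real.log n * sw (ev n d) j i = Real.log n - Real.log (win d j i) := by
  have hL : 0 < Real.log n := Real.log_pos (by exact_mod_cast h2)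
  simp only [sw, ev]
  rw [← sum_div, log_win hd]
  field_simp

theorem sw_nn (hd : ∀ t, 1 ≤ d t) (h2 : 2 ≤ n) (hn : win d 1 m ≤ n) : 0 ≤ sw (ev n d) 1 m := by
  have hL : 0 < Real.log n := Real.log_pos (by exact_mod_cast h2)
  have w0 : (0 : ℝ) < win d 1 m := by exact_mod_cast win_pos hd 1 m
  have := Real.log_le_log w0 (show (win d 1 m : ℝ) ≤ n by exact_mod_cast hn)
  refine nonneg_of_mul_nonneg_right (a := Real.log n) ?_ hL
  rw [log_sw hd h2]
  linarith

theorem two_le_of_ev (hd : ∀ t, 1 ≤ d t) (h : 0 < ev n d m) : 2 ≤ d m := by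
  by_contra hc
  have e : d m = 1 := by have := hd m; omega
  simp [ev, e] at h

theorem log_end (hd : ∀ t, 1 ≤ d t) (h2 : 2 ≤ n) {j y : ℕ} (hy : j + y = m) :
    Real.log ((n ^ j * win d j m ^ (y + 1) : ℕ) : ℝ) =
      Real.log n * (m + 1 - ((y + 1 : ℕ) : ℝ) * sw (ev n d) j m) := by
  have w0 : (0 : ℝ) < win d j m := by exact_mod_cast win_pos hd j m
  have := log_sw hd h2 j m
  subst hy
  push_cast
  rw [Real.log_mul (by positivity) (by positivity), Real.log_pow, Real.log_pow]
  push_cast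
  linear_combination (y + 1 : ℝ) * this

theorem goodW_fam (hd : ∀ t, 1 ≤ d t) (h2 : 2 ≤ n) (hm : 1 ≤ m) (h0 : 0 < ev n d m)
    (h : GoodW m (ev n d)) : windowMax (m + 1) n d ≤ famMax (m + 1) n d := by
  have hL : 0 < Real.log n := Real.log_pos (by exact_mod_cast h2)
  have d2 := two_le_of_ev hd h0
  refine Finset.sup_le ?_
  rintro ⟨j, i⟩ hp
  simp only [mem_filter, mem_product, mem_Icc, add_tsub_cancel_right] at hp ⊢
  obtain ⟨⟨⟨j1, -⟩, -, i2⟩, hji, hw⟩ := hp
  obtain ⟨y, rfl⟩ := Nat.exists_eq_add_of_le hji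
  have e : j + y + 1 - j = y + 1 := by omega
  rw [e]
  rcases Nat.eq_or_lt_of_le j1 with rfl | j2
  · exact left_fam le_rfl i2 hw fun j' a b => by rw [show j' = 1 by omega]
  rcases Nat.eq_or_lt_of_le i2 with i3 | i3
  · refine le_trans (le_of_eq ?_) (end_fam j1 i3 (i3 ▸ hw))
    rw [topWin, if_pos (by omega), i3, show j = m - (y + 1) + 1 by omega, pow_succ n]
    ring
  have w1 : (0 : ℝ) < win d j (j + y) := by exact_mod_cast win_pos hd _ _
  have w2 : (0 : ℝ) < win d 1 (j + y + 1) := by exact_mod_cast win_pos hd _ _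
  have lg : Real.log ((n ^ (m - (y + 1)) * win d j (j + y) ^ (y + 1) *
      topWin (m + 1) n d (j + y + 1) : ℕ) : ℝ) = Real.log n * (m + 1 -
        (((y + 1 : ℕ) : ℝ) * sw (ev n d) j (j + y) + sw (ev n d) 1 (j + y + 1))) := by
    have a1 := log_sw hd h2 j (j + y)
    have a2 := log_sw hd h2 1 (j + y + 1)
    have a3 : ((m - (y + 1) : ℕ) : ℝ) = m - (y + 1) := by
      rw [eq_sub_iff_add_eq]
      exact_mod_cast (by omega)
    rw [topWin, if_neg (by omega)]
    push_cast
    rw [Real.log_mul (by positivity) (by positivity), Real.log_mul (by positivity) (by positivity),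
      Real.log_pow, Real.log_pow, a3]
    push_cast
    linear_combination (y + 1 : ℝ) * a1 + a2
  have fin : ∀ j' y', 1 ≤ j' → j' + y' = m → ((y' + 1 : ℕ) : ℝ) * sw (ev n d) j' m <
      ((y + 1 : ℕ) : ℝ) * sw (ev n d) j (j + y) + sw (ev n d) 1 (j + y + 1) →
      n ^ (m - (y + 1)) * win d j (j + y) ^ (y + 1) * topWin (m + 1) n d (j + y + 1) ≤
        famMax (m + 1) n d := by
    intro j' y' b1 b2 b3
    refine le_trans ?_ (end_fam b1 b2 (d2.trans (le_win hd (by omega) le_rfl)))
    by_contra hc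
    have := win_pos hd j' m
    have := Real.log_lt_log (by positivity) (Nat.cast_lt.2 (not_le.1 hc))
    rw [lg, log_end hd h2 b2] at this
    have := lt_of_mul_lt_mul_left this hL.le
    linarith
  have := h j (j + y) j2 hji i3
  rw [e] at this
  rcases this with a | a
  · exact fin m 0 hm rfl (by simpa [sw_self] using a)
  · exact fin 1 (m - 1) le_rfl (by omega) (by rwa [show m - 1 + 1 = m by omega])

theorem goodR_card (hd : ∀ t, 1 ≤ d t) (h2 : 2 ≤ n) (hm : 1 ≤ m) (hn : win d 1 m ≤ n)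
    (h0 : 0 < ev n d m) (h : GoodR m (ev n d)) (G : Finset (Fin (m + 1) → Fin n))
    (hG : G.Nonempty) (hB : Blocked d G) : G.card ≤ famMax (m + 1) n d := by
  by_contra hc
  have hL : 0 < Real.log n := Real.log_pos (by exact_mod_cast h2)
  have d2 := two_le_of_ev hd h0
  have nn := ev_nn (n := n) (d := d)
  have s0 := sw_nn hd h2 hn
  obtain ⟨D, hD⟩ : ∃ D, (sysOf G hG).Φ = Real.log n * D :=
    ⟨(sysOf G hG).Φ / Real.log n, by field_simp⟩
  have hΦ : (sysOf G hG).Φ = (m + 1) * Real.log n - Real.log G.card := by simp [sysOf]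
  have fin : ∀ j y, 1 ≤ j → j + y = m → D < ((y + 1 : ℕ) : ℝ) * sw (ev n d) j m := by
    intro j y b1 b2
    have b3 := (end_fam (n := n) b1 b2 (d2.trans (le_win hd (by omega) le_rfl))).trans_lt
      (not_le.1 hc)
    have := win_pos hd j m
    have := Real.log_lt_log (by positivity) (Nat.cast_lt.2 b3)
    rw [log_end hd h2 b2] at this
    refine lt_of_mul_lt_mul_left (a := Real.log n) ?_ hL.le
    linarith
  have fa : D < 1 - ev n d m := by simpa [sw_self] using fin m 0 hm rfl
  have fb : D < m * sw (ev n d) 1 m := by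
    have := fin 1 (m - 1) le_rfl (by omega)
    rwa [show m - 1 + 1 = m by omega] at this
  obtain ⟨h1, a, b, k, p, M, c0, c1, c2, c3, p0, p1, p2, c4⟩ := h
  have key : (sysOf G hG).Ref (fun j i => Real.log n * sw (ev n d) j i) a b k p
      (Real.log n * (1 - M)) (Real.log n * sw (ev n d) 1 m) := by
    refine ⟨?_, ?_, ?_, ?_, mul_nonneg hL.le s0, ?_, p0, p1, by rw [Fintype.card_fin]; omega,
      ?_, ?_⟩
    · intro j i a1 a2 a3
      rw [Fintype.card_fin] at a3
      rw [hD, mul_left_comm]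
      refine mul_lt_mul_of_pos_left ?_ hL
      rcases (by omega : i = m ∨ i < m) with rfl | a4
      · have := fin j (i - j) a1 (by omega)
        rwa [show i - j + 1 = i + 1 - j by omega] at this
      · rcases h1 j i a1 a2 a4 with a5 | a5 <;> linarith
    · intro q a1 a2
      rw [Fintype.card_fin] at a2
      have := c0 q a1 (by omega)
      rw [sw_self]
      exact mul_le_mul_of_nonneg_left (by linarith) hL.le
    · intro j i a1 a2 a3 a4
      rw [Fintype.card_fin] at a3 a4
      rw [hD, ← mul_sub]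
      refine mul_lt_mul_of_pos_left ?_ hL
      rcases a4 with a4 | a4
      · have := sw_anti nn (j := j) (j' := a + 1) (i := i) (i' := m) a4 (by omega)
        linarith
      · have := sw_anti nn (j := j) (j' := 1) (i := i) (i' := m - b) a1 (by omega)
        linarith
    · intro j i a1 a2 a3
      rw [Fintype.card_fin] at a3
      exact mul_le_mul_of_nonneg_left (sw_anti nn a1 (by omega)) hL.le
    · rw [hD, ← mul_sub, mul_left_comm]
      exact mul_lt_mul_of_pos_left (by linarith) hL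
    · rw [hD, ← mul_sub, sw_self]
      exact mul_lt_mul_of_pos_left (by linarith) hL
    · rw [hD, Fintype.card_fin, add_tsub_cancel_right, sw_self]
      exact mul_lt_mul_of_pos_left fa hL
  obtain ⟨f, f1, f2⟩ := key.sched
  rw [Fintype.card_fin] at f1 f2
  obtain ⟨j, i, a1, a2, a3, a4, a5⟩ := hB f f1
  have := f2 j i a1 a2 (by omega)
  rw [log_sw hd h2] at this
  simp only [sysOf, Fintype.card_fin] at this
  have c1 := cost_pos hG ((range j).image f) (f i)
  have := Real.log_le_log (show (0 : ℝ) < cost G ((range j).image f) (f i) by positivity)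
    (show (cost G ((range j).image f) (f i) : ℝ) ≤ win d j i by exact_mod_cast a5)
  linarith

theorem upper_good (hd : ∀ t, 1 ≤ d t) (h2 : 2 ≤ n) (hm : 1 ≤ m) (hn : win d 1 m ≤ n)
    (h0 : 0 < ev n d m) (h : GoodW m (ev n d) ∨ GoodR m (ev n d)) :
    exStar n (degs m d) ≤ CU (m + 1) * famMax (m + 1) n d := by
  rcases h with h | h
  · exact (upper_window hd hn).trans (Nat.mul_le_mul_left _ (goodW_fam hd h2 hm h0 h))
  · exact upper_reduction m n d _ (goodR_card hd h2 hm hn h0 h)

end Pool.Agent.P.MP_754fe6_co
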