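import Mathlib
import Pool.Agent.P.MP_754fe6_co.Defs4

namespace Pool.Agent.P.MP_754fe6_co

open MeasureTheory Set Pointwise

variable {m : ℕ}

theorem measurableSet_expSimplex : MeasurableSet (expSimplex m) := by
  unfold expSimplex
  measurability

theorem vol_expSimplex_ne_top : volume (expSimplex m) ≠ ⊤ := by
  refine ne_top_of_le_ne_top (isCompact_Icc (a := (0 : Fin m → ℝ)) (b := 1)).measure_ne_top
    (measure_mono fun x hx => ⟨hx.1, fun i => le_trans ?_ hx.2⟩)
  exact Finset.single_le_sum (fun i _ => hx.1 i) (Finset.mem_univ i)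

theorem vol_shift (c : Fin m → ℝ) {ρ : ℝ} (hρ : 0 < ρ) :
    volume {x : Fin m → ℝ | (∀ i, c i ≤ x i) ∧ ∑ i, x i ≤ ρ + ∑ i, c i} =
      ENNReal.ofReal (ρ ^ m) * volume (expSimplex m) := by
  have e : {x : Fin m → ℝ | (∀ i, c i ≤ x i) ∧ ∑ i, x i ≤ ρ + ∑ i, c i} =
      (fun x => -c + x) ⁻¹' (ρ • expSimplex m) := by
    ext x
    rw [mem_preimage, mem_smul_set_iff_inv_smul_mem₀ hρ.ne']
    simp only [expSimplex, mem_ofPred_eq, Pi.smul_apply, Pi.add_apply, Pi.neg_apply, smul_eq_mul,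
      ← Finset.mul_sum, Finset.sum_add_distrib, Finset.sum_neg_distrib]
    rw [inv_mul_le_iff₀ hρ]
    refine and_congr (forall_congr' fun i => ?_) ⟨fun h => by linarith, fun h => by linarith⟩
    rw [mul_nonneg_iff_of_pos_left (inv_pos.2 hρ)]
    exact ⟨fun h => by linarith, fun h => by linarith⟩
  rw [e, measure_preimage_add, Measure.addHaar_smul, abs_of_pos (by positivity)]
  simp

/-- `S` covers at most the proportion `ε` of the simplex -/
def Sm (S : Set (Fin m → ℝ)) (ε : ℝ) : Prop :=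
  volume (expSimplex m ∩ S) ≤ ENNReal.ofReal ε * volume (expSimplex m)

theorem Sm.mono {S T : Set (Fin m → ℝ)} {ε ε' : ℝ} (h : Sm T ε)
    (hS : ∀ x ∈ expSimplex m, x ∈ S → x ∈ T) (he : ε ≤ ε') : Sm S ε' :=
  (measure_mono fun x hx => (⟨hx.1, hS x hx.1 hx.2⟩ : x ∈ expSimplex m ∩ T)).trans
    (h.trans (by gcongr))

theorem Sm.union {S T : Set (Fin m → ℝ)} {ε ε' : ℝ} (h : Sm S ε) (h' : Sm T ε') (h0 : 0 ≤ ε)
    (h0' : 0 ≤ ε') : Sm (S ∪ T) (ε + ε') := by
  unfold Sm at *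
  rw [inter_union_distrib_left, ENNReal.ofReal_add h0 h0', add_mul]
  exact (measure_union_le _ _).trans (add_le_add h h')

theorem sm_one (S : Set (Fin m → ℝ)) {ε : ℝ} (h : 1 ≤ ε) : Sm S ε := by
  refine (measure_mono inter_subset_left).trans (le_mul_of_one_le_left' ?_)
  simpa using h

theorem sm_ge (Q : Finset (Fin m)) {c : ℝ} (hc : Q.card * c < 1) :
    volume (expSimplex m ∩ {x | ∀ i ∈ Q, c ≤ x i}) ≤
      ENNReal.ofReal ((1 - Q.card * c) ^ m) * volume (expSimplex m) := by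
  rw [← vol_shift (fun i => if i ∈ Q then c else 0) (sub_pos.2 hc)]
  refine measure_mono fun x hx => ⟨fun i => ?_, ?_⟩
  · split_ifs with h
    · exact hx.2 i h
    · exact hx.1.1 i
  · simpa using hx.1.2

theorem sm_big {M : ℝ} (hM : M < 1) : Sm {x : Fin m → ℝ | ∃ i, M ≤ x i} (m * (1 - M) ^ m) := by
  have e : expSimplex m ∩ {x : Fin m → ℝ | ∃ i, M ≤ x i} =
      ⋃ i, expSimplex m ∩ {x | ∀ j ∈ ({i} : Finset (Fin m)), M ≤ x j} := by
    ext x
    simp
  unfold Sm
  rw [e]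
  refine (measure_iUnion_fintype_le _ _).trans
    ((Finset.sum_le_sum fun i _ => sm_ge {i} (by simpa using hM)).trans_eq ?_)
  simp [ENNReal.ofReal_mul, mul_assoc]

theorem sm_slack {M : ℝ} (hM : M < 1) :
    Sm {x : Fin m → ℝ | M ≤ 1 - ∑ i, x i} ((1 - M) ^ m) := by
  unfold Sm
  rw [← vol_shift 0 (sub_pos.2 hM)]
  refine measure_mono fun x hx => ⟨hx.1.1, ?_⟩
  have : M ≤ 1 - ∑ i, x i := hx.2
  simp only [Pi.zero_apply, Finset.sum_const_zero]
  linarith

theorem sm_lt (i : Fin m) {c : ℝ} (hc : 0 ≤ c) : Sm {x : Fin m → ℝ | x i < c} (m * c) := by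
  have m1 : (1 : ℝ) ≤ m := by exact_mod_cast i.pos
  rcases le_or_gt 1 c with h | h
  · exact sm_one _ (by nlinarith)
  have h1 := vol_shift (fun j => if j = i then c else 0) (sub_pos.2 h)
  have h2 := measure_inter_add_sdiff (μ := volume) (expSimplex m)
    (t := {x : Fin m → ℝ | x i < c}) (by measurability)
  have e : expSimplex m \ {x : Fin m → ℝ | x i < c} = {x : Fin m → ℝ |
      (∀ j, (if j = i then c else 0) ≤ x j) ∧
        ∑ j, x j ≤ 1 - c + ∑ j, if j = i then c else 0} := by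
    ext x
    simp only [expSimplex, mem_sdiff, mem_ofPred_eq, not_lt, Finset.sum_ite_eq', Finset.mem_univ,
      if_true, sub_add_cancel]
    constructor
    · rintro ⟨⟨a1, a2⟩, a3⟩
      refine ⟨fun j => ?_, a2⟩
      split_ifs with hj
      · rwa [hj]
      · exact a1 j
    · rintro ⟨a1, a2⟩
      refine ⟨⟨fun j => le_trans ?_ (a1 j), a2⟩, by simpa using a1 i⟩
      split_ifs
      · exact hc
      · exact le_rfl
  rw [e, h1] at h2
  refine (ENNReal.add_le_add_iff_right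
    (ENNReal.mul_ne_top ENNReal.ofReal_ne_top vol_expSimplex_ne_top)).1 (h2.le.trans ?_)
  rw [← add_mul, ← ENNReal.ofReal_add (by positivity) (pow_nonneg (sub_pos.2 h).le _)]
  refine le_mul_of_one_le_left' (ENNReal.one_le_ofReal.2 ?_)
  have := one_add_mul_le_pow (a := -c) (by linarith) m
  rw [← sub_eq_add_neg] at this
  linarith

theorem sm_sum (Q : Finset (Fin m)) {c : ℝ} (hc : 0 ≤ c) :
    Sm {x : Fin m → ℝ | ∑ i ∈ Q, x i ≤ c} ((1 + c) ^ m / 2 ^ Q.card) := by
  have h1 := Measure.addHaar_image_linearMap volume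
    (Matrix.toLin' (Matrix.diagonal fun i : Fin m => (1 + c)⁻¹ * if i ∈ Q then 2 else 1))
    (expSimplex m ∩ {x : Fin m → ℝ | ∑ i ∈ Q, x i ≤ c})
  have c0 : 0 < 1 + c := by linarith
  rw [LinearMap.det_toLin', Matrix.det_diagonal, Finset.prod_mul_distrib, Finset.prod_ite_mem,
    Finset.univ_inter, Finset.prod_const, Finset.prod_const, Finset.card_univ, Fintype.card_fin,
    abs_of_pos (by positivity)] at h1
  have h2 : ENNReal.ofReal ((1 + c)⁻¹ ^ m * 2 ^ Q.card) *
      volume (expSimplex m ∩ {x : Fin m → ℝ | ∑ i ∈ Q, x i ≤ c}) ≤ volume (expSimplex m) := by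
    rw [← h1]
    refine measure_mono ?_
    rintro _ ⟨x, ⟨⟨x1, x2⟩, x3⟩, rfl⟩
    have x3' : ∑ i ∈ Q, x i ≤ c := x3
    simp only [expSimplex, mem_ofPred_eq, Matrix.toLin'_apply, Matrix.mulVec_diagonal]
    refine ⟨fun i => mul_nonneg (mul_nonneg (by positivity) (by split_ifs <;> norm_num)) (x1 i), ?_⟩
    have e : ∀ i, ((1 + c)⁻¹ * if i ∈ Q then 2 else 1) * x i =
        (1 + c)⁻¹ * (x i + if i ∈ Q then x i else 0) := fun i => by split_ifs <;> ring
    simp only [e, ← Finset.mul_sum, Finset.sum_add_distrib, Finset.sum_ite_mem, Finset.univ_inter]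
    rw [inv_mul_le_iff₀ c0]
    linarith
  refine le_trans (le_of_eq ?_) (mul_le_mul_right h2 _)
  rw [← mul_assoc, ← ENNReal.ofReal_mul (by positivity), inv_pow,
    show (1 + c) ^ m / 2 ^ Q.card * (((1 + c) ^ m)⁻¹ * 2 ^ Q.card) = 1 by field_simp]
  simp

/-- the coordinates with numbers `j, ..., k` -/
def seg (m j k : ℕ) : Finset (Fin m) := Finset.univ.filter fun i => j ≤ i + 1 ∧ i + 1 ≤ k

theorem seg_map {j k : ℕ} (hj : 1 ≤ j) (hk : k ≤ m) :
    (seg m j k).map ⟨fun i : Fin m => i.1 + 1, fun _ _ h => Fin.ext (Nat.succ_injective h)⟩ =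
      Finset.Icc j k := by
  ext t
  simp only [seg, Finset.mem_map, Finset.mem_filter, Finset.mem_univ, true_and,
    Function.Embedding.coeFn_mk, Finset.mem_Icc]
  constructor
  · rintro ⟨i, hi, rfl⟩
    exact hi
  · intro h
    exact ⟨⟨t - 1, by omega⟩, by simp only; omega, by simp only; omega⟩

theorem seg_card {j k : ℕ} (hj : 1 ≤ j) (hk : k ≤ m) : (seg m j k).card = k + 1 - j := by
  rw [← Nat.card_Icc, ← seg_map hj hk, Finset.card_map]

theorem seg_sum {j k : ℕ} (hj : 1 ≤ j) (hk : k ≤ m) (y : ℕ → ℝ) :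
    ∑ i ∈ seg m j k, y (i + 1) = ∑ t ∈ Finset.Icc j k, y t := by
  rw [← seg_map hj hk, Finset.sum_map]
  rfl

/-- the open set of well spread exponent vectors -/
def typSet (m a : ℕ) (M μ : ℝ) : Set (Fin m → ℝ) :=
  {x | (∀ i, x i < M) ∧ 1 - ∑ i, x i < M ∧ (∀ i ∈ seg m 1 1, μ < x i) ∧
    (∀ i ∈ seg m m m, μ < x i) ∧ 2 * M < ∑ i ∈ seg m 1 a, x i ∧
    2 * M < ∑ i ∈ seg m (m + 1 - a) m, x i ∧ ∃ i ∈ seg m (4 * a + 2) (m - a), x i < μ}

theorem isOpen_typSet (m a : ℕ) (M μ : ℝ) : IsOpen (typSet m a M μ) := by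
  simp only [typSet, ofPred_and, ofPred_forall, ofPred_exists]
  refine (isOpen_iInter_of_finite fun i => ?_).inter (IsOpen.inter ?_
    ((isOpen_iInter_of_finite fun i => isOpen_iInter_of_finite fun _ => ?_).inter
    ((isOpen_iInter_of_finite fun i => isOpen_iInter_of_finite fun _ => ?_).inter
    (IsOpen.inter ?_ (IsOpen.inter ?_ (isOpen_iUnion fun i => isOpen_const.inter ?_))))))
  all_goals exact isOpen_lt (by fun_prop) (by fun_prop)

theorem sm_typSet {a : ℕ} {M μ : ℝ} (hm : 1 ≤ m) (ha : a ≤ m) (M0 : 0 ≤ M) (M1 : M < 1)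
    (μ0 : 0 < μ) (hμ : m * μ < 1) :
    Sm (typSet m a M μ)ᶜ (m * (1 - M) ^ m + ((1 - M) ^ m + (m * (2 * μ) + (m * (2 * μ) +
      ((1 + 2 * M) ^ m / 2 ^ a + ((1 + 2 * M) ^ m / 2 ^ a +
        (1 - (m - a + 1 - (4 * a + 2) : ℕ) * μ) ^ m)))))) := by
  have b1 := sm_sum (seg m 1 a) (c := 2 * M) (by positivity)
  have b2 := sm_sum (seg m (m + 1 - a) m) (c := 2 * M) (by positivity)
  have k3 : (seg m (4 * a + 2) (m - a)).card = m - a + 1 - (4 * a + 2) :=
    seg_card (by omega) (by omega)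
  have k4 : ((seg m (4 * a + 2) (m - a)).card : ℝ) * μ < 1 := lt_of_le_of_lt
    (mul_le_mul_of_nonneg_right (by exact_mod_cast (by omega)) μ0.le) hμ
  have b3 : Sm _ _ := sm_ge (seg m (4 * a + 2) (m - a)) k4
  rw [seg_card le_rfl ha, add_tsub_cancel_right] at b1
  rw [seg_card (by omega) le_rfl, show m + 1 - (m + 1 - a) = a by omega] at b2
  rw [k3] at b3 k4
  have p1 : 0 ≤ (1 - M) ^ m := pow_nonneg (by linarith) _
  have p2 := pow_nonneg (sub_pos.2 k4).le m
  refine ((sm_big M1).union ((sm_slack M1).union ((sm_lt ⟨0, hm⟩ (c := 2 * μ)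
    (by positivity)).union ((sm_lt ⟨m - 1, by omega⟩ (c := 2 * μ) (by positivity)).union
    (b1.union (b2.union b3 (by positivity) p2) (by positivity) (by positivity)) (by positivity)
    (by positivity)) (by positivity) (by positivity)) p1 (by positivity)) (by positivity)
    (by positivity)).mono (fun x _ hx => ?_) le_rfl
  by_contra hc
  simp only [mem_union, mem_ofPred_eq, not_or, not_exists, not_le, not_lt, not_forall] at hc
  obtain ⟨c1, c2, c3, c4, c5, c6, i, c7, c8⟩ := hc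
  refine hx ⟨c1, c2, fun j hj => ?_, fun j hj => ?_, c5, c6, i, c7, c8⟩
  · obtain rfl : j = ⟨0, hm⟩ := Fin.ext (by have := (Finset.mem_filter.1 hj).2; simp only; omega)
    linarith
  · obtain rfl : j = ⟨m - 1, by omega⟩ :=
      Fin.ext (by have := (Finset.mem_filter.1 hj).2; simp only; omega)
    linarith

end Pool.Agent.P.MP_754fe6_co
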