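import Mathlib
import Pool.Agent.P.MP_754fe6_co.TypVol

namespace Pool.Agent.P.MP_754fe6_co

open MeasureTheory Finset Matrix

variable {m : ℕ}

theorem sm_cone (u w β γ : Fin m → ℝ) (b0 κ : ℝ) (hw : ∀ i, 0 < w i) (h0 : 0 < 1 + κ * b0)
    (hκ : ∑ i, u i = κ) (hu : ∀ i, u i * β i = 0) (hwu : ∀ i, w i * u i = u i)
    (hww : ∀ i, w i = 1 + κ * β i + (1 + κ * b0) * γ i) :
    Sm {x : Fin m → ℝ | (∀ i, u i * (b0 * (1 - ∑ t, x t) + ∑ t, β t * x t) ≤ x i) ∧
      ∑ t, γ t * x t ≤ 1 - ∑ t, x t} (1 / ((1 + κ * b0) * ∏ i, w i)) := by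
  set S := {x : Fin m → ℝ | (∀ i, u i * (b0 * (1 - ∑ t, x t) + ∑ t, β t * x t) ≤ x i) ∧
      ∑ t, γ t * x t ≤ 1 - ∑ t, x t} with hS
  set M : Matrix (Fin m) (Fin m) ℝ := diagonal w * (1 + vecMulVec u fun t => b0 - β t) with hM
  have h1 := Measure.addHaar_image_linearMap volume (Matrix.toLin' M) (expSimplex m ∩ S)
  have hd : M.det = (1 + κ * b0) * ∏ i, w i := by
    rw [hM, det_mul, det_diagonal, vecMulVec_eq Unit, det_one_add_replicateCol_mul_replicateRow,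
      mul_comm]
    congr 2
    simp only [dotProduct, sub_mul, sum_sub_distrib, ← mul_sum, hκ, mul_comm (β _), hu,
      sum_const_zero]
    ring
  have pw : 0 < ∏ i, w i := prod_pos fun i _ => hw i
  rw [LinearMap.det_toLin', hd, abs_of_pos (by positivity)] at h1
  have hx : ∀ x : Fin m → ℝ, ∀ i, (M *ᵥ x + fun i => -(u i * b0)) i =
      w i * (x i - u i * (b0 * (1 - ∑ t, x t) + ∑ t, β t * x t)) := by
    intro x i
    rw [hM, ← mulVec_mulVec, Pi.add_apply, mulVec_diagonal, add_mulVec, one_mulVec,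
      vecMulVec_mulVec]
    simp only [Pi.add_apply, Pi.smul_apply, MulOpposite.smul_eq_mul_unop, MulOpposite.unop_op,
      dotProduct, sub_mul, sum_sub_distrib, ← mul_sum]
    have := hwu i
    linear_combination b0 * this
  have h2 : ENNReal.ofReal ((1 + κ * b0) * ∏ i, w i) * volume (expSimplex m ∩ S) ≤
      volume (expSimplex m) := by
    rw [← h1, ← measure_preimage_add_right volume (fun i => -(u i * b0)) (expSimplex m)]
    refine measure_mono ?_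
    rintro _ ⟨x, ⟨⟨x1, x2⟩, x3, x4⟩, rfl⟩
    simp only [Set.mem_preimage, expSimplex, Set.mem_ofPred_eq, Matrix.toLin'_apply, hx]
    refine ⟨fun i => mul_nonneg (hw i).le (sub_nonneg.2 (x3 i)), ?_⟩
    have e : ∀ i, w i * (x i - u i * (b0 * (1 - ∑ t, x t) + ∑ t, β t * x t)) =
        x i + κ * (β i * x i) + (1 + κ * b0) * (γ i * x i) -
          u i * (b0 * (1 - ∑ t, x t) + ∑ t, β t * x t) := by
      intro i
      have a1 := hwu i
      have a2 := hww i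
      linear_combination x i * a2 - (b0 * (1 - ∑ t, x t) + ∑ t, β t * x t) * a1
    simp only [e, sum_sub_distrib, sum_add_distrib, ← mul_sum, ← sum_mul, hκ]
    have := mul_le_mul_of_nonneg_left x4 h0.le
    linarith
  refine le_trans (le_of_eq ?_) (mul_le_mul_right h2 _)
  rw [← mul_assoc, ← ENNReal.ofReal_mul (by positivity), one_div_mul_cancel (by positivity)]
  simp

/-- the coordinates numbered from one -/
noncomputable def ext (x : Fin m → ℝ) (t : ℕ) : ℝ :=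
  if h : 1 ≤ t ∧ t ≤ m then x ⟨t - 1, by omega⟩ else 0

theorem ext_succ (x : Fin m → ℝ) (i : Fin m) : ext x (i + 1) = x i := by
  have := i.2
  rw [ext, dif_pos (by omega)]
  rfl

theorem ext_of (y : ℕ → ℝ) {t : ℕ} (h : t ∈ Icc 1 m) : ext (fun i : Fin m => y (i + 1)) t = y t := by
  have := mem_Icc.1 h
  rw [ext, dif_pos this]
  simp only [show t - 1 + 1 = t by omega]

theorem seg_univ : seg m 1 m = univ := filter_true_of_mem fun i _ => by omega

theorem sum_fin (y : ℕ → ℝ) : ∑ i : Fin m, y (i + 1) = ∑ t ∈ Icc 1 m, y t := by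
  rw [← seg_univ, seg_sum le_rfl le_rfl]

theorem prod_fin (y : ℕ → ℝ) : ∏ i : Fin m, y (i + 1) = ∏ t ∈ Icc 1 m, y t := by
  rw [← seg_univ, ← seg_map le_rfl le_rfl, prod_map]
  rfl

/-- data of an event -/
structure Dat where
  K : Finset ℕ
  b0 : ℚ
  b : ℕ → ℚ
  c : ℕ → ℚ

/-- the event: the coordinates in `K` and the slack are large -/
def Dat.Ev (D : Dat) (m : ℕ) (y : ℕ → ℝ) : Prop :=
  (∀ p ∈ D.K, D.b0 * (1 - ∑ t ∈ Icc 1 m, y t) + ∑ t ∈ Icc 1 m, D.b t * y t ≤ y p) ∧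
    ∑ t ∈ Icc 1 m, D.c t * y t ≤ 1 - ∑ t ∈ Icc 1 m, y t

def Dat.w0 (D : Dat) : ℚ := 1 + D.K.card * D.b0

def Dat.w (D : Dat) (t : ℕ) : ℚ := 1 + D.K.card * D.b t + D.w0 * D.c t

def Dat.pr (D : Dat) (m : ℕ) : ℚ := 1 / (D.w0 * ∏ t ∈ Icc 1 m, D.w t)

structure Dat.OK (D : Dat) (m : ℕ) : Prop where
  sub : D.K ⊆ Icc 1 m
  zero : ∀ p ∈ D.K, D.b p = 0 ∧ D.c p = 0
  pos0 : 0 < D.w0
  pos : ∀ t ∈ Icc 1 m, 0 < D.w t

theorem Dat.OK.nonneg {D : Dat} (h : D.OK m) : 0 ≤ D.pr m :=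
  (one_div_pos.2 (mul_pos h.pos0 (prod_pos h.pos))).le

theorem Dat.OK.sm {D : Dat} (h : D.OK m) : Sm {x : Fin m → ℝ | D.Ev m (ext x)} (D.pr m) := by
  have mem : ∀ i : Fin m, (i : ℕ) + 1 ∈ Icc 1 m := fun i => mem_Icc.2 (by omega)
  have a := sm_cone (m := m) (fun i => if (i : ℕ) + 1 ∈ D.K then 1 else 0)
    (fun i => D.w (i + 1)) (fun i => D.b (i + 1)) (fun i => D.c (i + 1)) (D.b0) D.K.card
    (fun i => by exact_mod_cast h.pos _ (mem i)) (by exact_mod_cast h.pos0)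
    (by
      rw [sum_fin fun t => if t ∈ D.K then 1 else 0, sum_ite_mem, inter_eq_right.2 h.sub]
      simp)
    (fun i => by
      split_ifs with e
      · simp [(h.zero _ e).1]
      · simp)
    (fun i => by
      split_ifs with e
      · simp [Dat.w, (h.zero _ e).1, (h.zero _ e).2]
      · simp)
    (fun i => by simp [Dat.w, Dat.w0])
  refine a.mono (fun x hx ⟨e1, e2⟩ => ?_) (le_of_eq ?_)
  · rw [← sum_fin, ← sum_fin] at e1 e2
    simp only [ext_succ] at e1 e2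
    refine ⟨fun i => ?_, e2⟩
    split_ifs with e
    · simpa only [ext_succ, one_mul] using e1 _ e
    · simpa using hx.1 i
  · rw [prod_fin fun t => (D.w t : ℝ)]
    simp [Dat.pr, Dat.w0]

theorem continuous_ext (t : ℕ) : Continuous fun x : Fin m → ℝ => ext x t := by
  unfold ext
  split_ifs
  · fun_prop
  · fun_prop

theorem Dat.isClosed (D : Dat) : IsClosed {x : Fin m → ℝ | D.Ev m (ext x)} := by
  have c := continuous_ext (m := m)
  simp only [Dat.Ev, Set.ofPred_and, Set.ofPred_forall]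
  refine (isClosed_iInter fun p => isClosed_iInter fun _ => ?_).inter ?_
  all_goals exact isClosed_le (by fun_prop) (by fun_prop)

theorem Dat.ev_of {D : Dat} (h : D.K ⊆ Icc 1 m) {y : ℕ → ℝ} (e : D.Ev m y) :
    D.Ev m (ext fun i : Fin m => y (i + 1)) := by
  have e1 : ∑ t ∈ Icc 1 m, ext (fun i : Fin m => y (i + 1)) t = ∑ t ∈ Icc 1 m, y t :=
    sum_congr rfl fun t ht => ext_of y ht
  have e2 : ∀ c : ℕ → ℚ, ∑ t ∈ Icc 1 m, c t * ext (fun i : Fin m => y (i + 1)) t =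
      ∑ t ∈ Icc 1 m, c t * y t := fun c => sum_congr rfl fun t ht => by rw [ext_of y ht]
  unfold Dat.Ev
  rw [e1, e2, e2]
  exact ⟨fun p hp => by rw [ext_of y (h hp)]; exact e.1 p hp, e.2⟩

theorem sm_biUnion {ι : Type} (I : Finset ι) (S : ι → Set (Fin m → ℝ)) (ε : ι → ℝ)
    (h : ∀ i ∈ I, Sm (S i) (ε i)) (h0 : ∀ i ∈ I, 0 ≤ ε i) : Sm (⋃ i ∈ I, S i) (∑ i ∈ I, ε i) := by
  classical
  induction I using Finset.induction_on with
  | empty => simp [Sm]
  | insert a I ha ih =>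
    rw [set_biUnion_insert, sum_insert ha]
    exact (h a (mem_insert_self _ _)).union
      (ih (fun i hi => h i (mem_insert_of_mem hi)) fun i hi => h0 i (mem_insert_of_mem hi))
      (h0 a (mem_insert_self _ _)) (sum_nonneg fun i hi => h0 i (mem_insert_of_mem hi))

theorem sm_last (hm : 1 ≤ m) : Sm {x : Fin m → ℝ | ext x m ≤ 0} 0 := by
  have := Measure.pi_hyperplane (fun _ : Fin m => (volume : Measure ℝ)) ⟨m - 1, by omega⟩ 0
  refine (measure_mono fun x hx => ?_).trans (this.le.trans zero_le)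
  have e : ext x m = x ⟨m - 1, by omega⟩ := dif_pos ⟨hm, le_rfl⟩
  exact le_antisymm (e ▸ hx.2) (hx.1.1 _)

/-- the property `P` holds on an open set that misses at most the proportion `ε` -/
def Cov' (m : ℕ) (ε : ℝ) (P : (ℕ → ℝ) → Prop) : Prop :=
  0 ≤ ε ∧ ∃ A : Set (Fin m → ℝ), IsOpen A ∧ Sm Aᶜ ε ∧
    ∀ y : ℕ → ℝ, (fun i : Fin m => y (i + 1)) ∈ A → P y

theorem Cov'.and {ε ε' : ℝ} {P Q : (ℕ → ℝ) → Prop} (h : Cov' m ε P) (h' : Cov' m ε' Q) :
    Cov' m (ε + ε') fun y => P y ∧ Q y := by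
  obtain ⟨a0, A, a1, a2, a3⟩ := h
  obtain ⟨b0, B, b1, b2, b3⟩ := h'
  refine ⟨add_nonneg a0 b0, A ∩ B, a1.inter b1, ?_, fun y hy => ⟨a3 y hy.1, b3 y hy.2⟩⟩
  rw [Set.compl_inter]
  exact a2.union b2 a0 b0

theorem Cov'.mono {ε ε' : ℝ} {P Q : (ℕ → ℝ) → Prop} (h : Cov' m ε P) (he : ε ≤ ε')
    (hP : ∀ y, P y → Q y) : Cov' m ε' Q := by
  obtain ⟨a0, A, a1, a2, a3⟩ := h
  exact ⟨a0.trans he, A, a1, a2.mono (fun _ _ h => h) he, fun y hy => hP y (a3 y hy)⟩

theorem cov_pos (hm : 1 ≤ m) : Cov' m 0 fun y => 0 < y m := by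
  refine ⟨le_rfl, {x | ext x m ≤ 0}ᶜ,
    (isClosed_le (continuous_ext m) continuous_const).isOpen_compl, ?_, fun y hy => ?_⟩
  · rw [compl_compl]
    exact sm_last hm
  · simp only [Set.mem_compl_iff, Set.mem_ofPred_eq, not_le] at hy
    rwa [ext_of y (mem_Icc.2 ⟨hm, le_rfl⟩)] at hy

theorem cov_fam {ι : Type} (I : Finset ι) (D : ι → Dat) (h : ∀ i ∈ I, (D i).OK m) :
    Cov' m ((∑ i ∈ I, (D i).pr m : ℚ) : ℝ) fun y => ∀ i ∈ I, ¬ (D i).Ev m y := by
  refine ⟨by exact_mod_cast sum_nonneg fun i hi => (h i hi).nonneg,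
    (⋃ i ∈ I, {x | (D i).Ev m (ext x)})ᶜ,
    (isClosed_biUnion_finset fun i _ => (D i).isClosed).isOpen_compl, ?_, fun y hy => ?_⟩
  · rw [compl_compl]
    push_cast
    exact sm_biUnion I _ (fun i => ((D i).pr m : ℝ)) (fun i hi => (h i hi).sm)
      fun i hi => by exact_mod_cast (h i hi).nonneg
  · simp only [Set.mem_compl_iff, Set.mem_ofPred_eq, Set.mem_iUnion, not_exists] at hy
    exact fun i hi e => hy i hi (Dat.ev_of (h i hi).sub e)

end Pool.Agent.P.MP_754fe6_co
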