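import Mathlib
import Pool.Agent.P.MP_754fe6_co.MostUpper
import Pool.Agent.P.MP_754fe6_co.MostVol

namespace Pool.Agent.P.MP_754fe6_co

open Finset

variable {m : ℕ} {y : ℕ → ℝ}

/-- indicator of an interval -/
def χ (j i t : ℕ) : ℚ := if j ≤ t ∧ t ≤ i then 1 else 0

theorem sum_χ (y : ℕ → ℝ) {j i : ℕ} (h1 : 1 ≤ j) (h2 : i ≤ m) :
    ∑ t ∈ Icc 1 m, (χ j i t : ℝ) * y t = ∑ t ∈ Icc j i, y t := by
  rw [← inter_eq_right.2 (Icc_subset_Icc h1 h2), ← sum_ite_mem]
  refine sum_congr rfl fun t _ => ?_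
  simp only [χ, mem_Icc]
  split_ifs <;> simp

theorem sum_split (y : ℕ → ℝ) {j i k : ℕ} (h1 : j ≤ i + 1) (h2 : i ≤ k) :
    ∑ t ∈ Icc j k, y t = ∑ t ∈ Icc j i, y t + ∑ t ∈ Icc (i + 1) k, y t := by
  rw [← sum_union (disjoint_left.2 fun t a b => by
    have := mem_Icc.1 a
    have := mem_Icc.1 b
    omega)]
  congr 1
  ext t
  simp only [mem_union, mem_Icc]
  omega

/-- an inner window of length `z` starting at `j` is not dominated -/
def evS (m j z : ℕ) : Dat where
  K := {j}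
  b0 := 2 / (z + 1) * z
  b t := 2 / (z + 1) * ((z - 1) * (1 - χ j (j + z - 1) t) - χ (j + 1) (j + z - 1) t +
    χ (j + z + 1) m t + χ m m t)
  c t := 1 / (m - z - 1) * (z * (1 - χ j (j + z - 1) t) + χ (j + z + 1) m t)

/-- the same without the correction term -/
def evV (m j z : ℕ) : Dat where
  K := {j}
  b0 := 1 / z * (z - 1)
  b t := 1 / z * ((z - 1) * (1 - χ j (j + z - 1) t) - χ (j + 1) (j + z - 1) t)
  c t := 1 / (m - z) * (z * (1 - χ j (j + z - 1) t))

def evZ (m j : ℕ) : Dat where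
  K := {j}
  b0 := m - 2
  b t := m * χ m m t - (1 - χ j j t)
  c t := 1 / (m - 2) * (1 - χ j j t + χ (j + 2) m t)

def evC (m q : ℕ) (b0 : ℚ) (j i : ℕ) : Dat where
  K := {q}
  b0 := b0
  b t := χ j i t + χ m m t
  c t := 1 / (m - 2) * (1 - χ q q t)

def evG (m j i : ℕ) : Dat where
  K := Icc j i
  b0 := 1
  b t := χ m m t
  c _ := 0

theorem ev_S (nn : ∀ t, 0 ≤ y t) {j z : ℕ} (hj : 2 ≤ j) (hz : 1 ≤ z) (hm : j + z ≤ m)
    (h1 : z * sw y j (j + z - 1) + sw y 1 (j + z) ≤ 1 - y m)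
    (h2 : z * sw y j (j + z - 1) + sw y 1 (j + z) ≤ m * sw y 1 m) : (evS m j z).Ev m y := by
  have z1 : (1 : ℝ) ≤ z := by exact_mod_cast hz
  have q1 : (z + 2 : ℝ) ≤ m := by exact_mod_cast (by omega : z + 2 ≤ m)
  have s1 := sum_split y (j := j) (i := j) (k := j + z - 1) (by omega) (by omega)
  have s2 := sum_split y (j := 1) (i := j + z) (k := m) (by omega) hm
  have c1 := sum_χ (m := m) y (j := j) (i := j + z - 1) (by omega) (by omega)
  have c2 := sum_χ (m := m) y (j := j + 1) (i := j + z - 1) (by omega) (by omega)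
  have c3 := sum_χ (m := m) y (j := j + z + 1) (i := m) (by omega) le_rfl
  have c4 := sum_χ (m := m) y (j := m) (i := m) (by omega) le_rfl
  rw [Icc_self, sum_singleton] at s1 c4
  unfold sw at h1 h2
  constructor
  · intro p hp
    obtain rfl := mem_singleton.1 hp
    simp only [evS]
    push_cast
    simp only [mul_assoc, add_mul, sub_mul, one_mul, sum_add_distrib, sum_sub_distrib, ← mul_sum,
      c1, c2, c3, c4, ← mul_add]
    have t0 : (0 : ℝ) ≤ 2 / (z + 1) := by positivity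
    have t1 : (2 : ℝ) / (z + 1) ≤ 1 := (div_le_one (by linarith)).2 (by linarith)
    refine le_trans (mul_le_mul_of_nonneg_left ?_ t0) (mul_le_of_le_one_left (nn p) t1)
    linarith
  · simp only [evS]
    push_cast
    simp only [mul_assoc, add_mul, sub_mul, one_mul, sum_add_distrib, sum_sub_distrib, ← mul_sum,
      c1, c3]
    rw [one_div_mul_eq_div, div_le_iff₀ (by linarith)]
    linarith

theorem ev_V (nn : ∀ t, 0 ≤ y t) {j z : ℕ} (hj : 1 ≤ j) (hz : 1 ≤ z) (hm : j + z ≤ m)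
    (h1 : z * sw y j (j + z - 1) ≤ 1 - y m) (h2 : z * sw y j (j + z - 1) ≤ m * sw y 1 m) :
    (evV m j z).Ev m y := by
  have z1 : (1 : ℝ) ≤ z := by exact_mod_cast hz
  have q1 : (z + 1 : ℝ) ≤ m := by exact_mod_cast (by omega : z + 1 ≤ m)
  have s1 := sum_split y (j := j) (i := j) (k := j + z - 1) (by omega) (by omega)
  have c1 := sum_χ (m := m) y (j := j) (i := j + z - 1) (by omega) (by omega)
  have c2 := sum_χ (m := m) y (j := j + 1) (i := j + z - 1) (by omega) (by omega)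
  rw [Icc_self, sum_singleton] at s1
  unfold sw at h1 h2
  constructor
  · intro p hp
    obtain rfl := mem_singleton.1 hp
    simp only [evV]
    push_cast
    simp only [mul_assoc, sub_mul, one_mul, sum_sub_distrib, ← mul_sum, c1, c2, ← mul_add]
    have t0 : (0 : ℝ) ≤ 1 / z := by positivity
    have t1 : (1 : ℝ) / z ≤ 1 := (div_le_one (by linarith)).2 (by linarith)
    refine le_trans (mul_le_mul_of_nonneg_left ?_ t0) (mul_le_of_le_one_left (nn p) t1)
    have := nn m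
    linarith
  · simp only [evV]
    push_cast
    simp only [mul_assoc, sub_mul, one_mul, sum_sub_distrib, ← mul_sum, c1]
    rw [one_div_mul_eq_div, div_le_iff₀ (by linarith)]
    linarith

theorem ev_Z {j : ℕ} (hj : 2 ≤ j) (hm : j < m)
    (h1 : ((m - 1 : ℕ) : ℝ) * sw y 1 (m - 1) ≤ 1 - y m)
    (h2 : sw y j j + sw y 1 (j + 1) ≤ m * sw y 1 m) : (evZ m j).Ev m y := by
  have q1 : (3 : ℝ) ≤ m := by exact_mod_cast (by omega : 3 ≤ m)
  have s1 := sum_split y (j := 1) (i := m - 1) (k := m) (by omega) (by omega)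
  have s2 := sum_split y (j := 1) (i := j + 1) (k := m) (by omega) hm
  have c1 := sum_χ (m := m) y (j := j) (i := j) (by omega) (by omega)
  have c3 := sum_χ (m := m) y (j := j + 2) (i := m) (by omega) le_rfl
  have c4 := sum_χ (m := m) y (j := m) (i := m) (by omega) le_rfl
  rw [show m - 1 + 1 = m by omega] at s1
  rw [Nat.cast_sub (by omega)] at h1
  unfold sw at h1 h2
  rw [Icc_self, sum_singleton] at s1 c1 c4 h2
  constructor
  · intro p hp
    obtain rfl := mem_singleton.1 hp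
    simp only [evZ]
    push_cast at h1 ⊢
    simp only [mul_assoc, sub_mul, one_mul, sum_sub_distrib, ← mul_sum, c1, c4]
    rw [s1] at *
    linarith
  · simp only [evZ]
    push_cast
    simp only [mul_assoc, add_mul, sub_mul, one_mul, sum_add_distrib, sum_sub_distrib, ← mul_sum,
      c1, c3]
    rw [one_div_mul_eq_div, div_le_iff₀ (by linarith)]
    linarith

theorem ev_C {q j i : ℕ} {b0 : ℚ} (hm : 3 ≤ m) (hq : 1 ≤ q) (hq' : q ≤ m) (hj : 1 ≤ j) (hi : i ≤ m)
    (h1 : b0 * sw y 1 m + ∑ t ∈ Icc j i, y t + y m ≤ y q)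
    (h2 : 1 - y q ≤ (m - 1) * sw y 1 m) : (evC m q b0 j i).Ev m y := by
  have q1 : (3 : ℝ) ≤ m := by exact_mod_cast hm
  have c1 := sum_χ (m := m) y (j := q) (i := q) hq hq'
  have c3 := sum_χ (m := m) y hj hi
  have c4 := sum_χ (m := m) y (j := m) (i := m) (by omega) le_rfl
  unfold sw at h1 h2
  rw [Icc_self, sum_singleton] at c1 c4
  constructor
  · intro p hp
    obtain rfl := mem_singleton.1 hp
    simp only [evC]
    push_cast
    simp only [add_mul, sum_add_distrib, c3, c4]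
    linarith
  · simp only [evC]
    push_cast
    simp only [mul_assoc, sub_mul, one_mul, sum_sub_distrib, ← mul_sum, c1]
    rw [one_div_mul_eq_div, div_le_iff₀ (by linarith)]
    linarith

theorem ev_G {j i : ℕ} (hm : 1 ≤ m) (h0 : 0 ≤ sw y 1 m)
    (h1 : ∀ p ∈ Icc j i, y m + sw y 1 m ≤ y p) : (evG m j i).Ev m y := by
  have c4 := sum_χ (m := m) y (j := m) (i := m) hm le_rfl
  unfold sw at h0 h1
  rw [Icc_self, sum_singleton] at c4
  constructor
  · intro p hp
    have := h1 p hp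
    simp only [evG, c4]
    push_cast
    linarith
  · simpa [evG] using h0

/-- pairs (length, start) of windows inside `[j0, m - 1]` with length in `[z0, m - 2]` -/
def wins (m j0 z0 : ℕ) : Finset ((_ : ℕ) × ℕ) := (Icc z0 (m - 2)).sigma fun z => Icc j0 (m - z)

theorem good1 (nn : ∀ t, 0 ≤ y t) (h : ∀ p ∈ wins m 2 1, ¬ (evS m p.2 p.1).Ev m y) :
    GoodW m y := by
  intro j i h1 h2 h3
  by_contra hc
  push Not at hc
  obtain ⟨z, rfl⟩ := Nat.exists_eq_add_of_le h2
  rw [show j + z + 1 - j = z + 1 by omega] at hc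
  refine h ⟨z + 1, j⟩ (by simp only [wins, mem_sigma, mem_Icc]; omega)
    (ev_S (j := j) (z := z + 1) nn h1 (by omega) (by omega) hc.1 hc.2)

theorem good2 (nn : ∀ t, 0 ≤ y t) (h0 : 0 ≤ sw y 1 m) {h : ℕ} (h1 : 1 ≤ h) (h4 : 4 * h ≤ m)
    (eV : ∀ p ∈ wins m 1 2, ¬ (evV m p.2 p.1).Ev m y)
    (eZ : ∀ j ∈ Icc 2 (m - 1), ¬ (evZ m j).Ev m y)
    (e1 : ∀ q ∈ Icc (h + 1) (m - 1), ¬ (evC m q 1 1 h).Ev m y)
    (e2 : ∀ q ∈ Icc 1 (m - h), ¬ (evC m q 1 (m - h + 1) m).Ev m y)
    (e3 : ∀ q ∈ Icc 1 (m - 1), ¬ (evC m q (h + 1) 1 0).Ev m y)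
    (e4 : ∀ _u ∈ ({0} : Finset ℕ), ¬ (evG m (2 * h) (m - h)).Ev m y) :
    GoodW m y ∨ GoodR m y := by
  have V : ∀ j i, 1 ≤ j → j < i → i < m → i + 3 ≤ m + j →
      1 - y m < ((i + 1 - j : ℕ) : ℝ) * sw y j i ∨
        m * sw y 1 m < ((i + 1 - j : ℕ) : ℝ) * sw y j i := by
    intro j i a1 a2 a3 a4
    by_contra hc
    push Not at hc
    obtain ⟨z, rfl⟩ := Nat.exists_eq_add_of_le a2.le
    rw [show j + z + 1 - j = z + 1 by omega] at hc
    exact eV ⟨z + 1, j⟩ (by simp only [wins, mem_sigma, mem_Icc]; omega)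
      (ev_V (j := j) (z := z + 1) nn a1 (by omega) (by omega) hc.1 hc.2)
  by_cases hW : GoodW m y
  · exact Or.inl hW
  right
  unfold GoodW at hW
  push Not at hW
  obtain ⟨j, i, a1, a2, a3, a4, a5⟩ := hW
  have p1 := h0.trans (sw_anti nn (j := 1) (i := i + 1) le_rfl a3)
  obtain rfl : j = i := by
    by_contra hne
    rcases V j i (by omega) (by omega) a3 (by omega) with b | b <;> linarith
  rw [show j + 1 - j = 1 by omega, Nat.cast_one, one_mul] at a4 a5
  refine ⟨fun j' i' b1 b2 b3 => ?_, ?_⟩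
  · by_cases b4 : i' + 3 ≤ m + j'
    · exact V j' i' b1 b2 b3 b4
    obtain rfl : j' = 1 := by omega
    obtain rfl : i' = m - 1 := by omega
    refine Or.inl (not_le.1 fun hc => eZ j (mem_Icc.2 (by omega)) (ev_Z a1 a3 ?_ a5))
    rwa [show m - 1 + 1 - 1 = m - 1 by omega] at hc
  obtain ⟨q, q1, q2⟩ := exists_max_image (Icc 1 m) y ⟨1, mem_Icc.2 (by omega)⟩
  obtain ⟨q3, q4⟩ := mem_Icc.1 q1
  have big : 1 - y q ≤ (m - 1) * sw y 1 m := by
    have := q2 j (mem_Icc.2 (by omega))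
    have := sw_anti nn (j := 1) (i := j + 1) (i' := m) le_rfl a3
    rw [sw_self] at a5
    linarith
  have ym := nn m
  have s1 := sum_split y (j := 1) (i := h) (k := m) (by omega) (by omega)
  have s2 := sum_split y (j := 1) (i := m - h) (k := m) (by omega) (by omega)
  have n1 : 0 ≤ ∑ t ∈ Icc 1 h, y t := sum_nonneg fun t _ => nn t
  obtain ⟨p, p2, p3⟩ : ∃ p ∈ Icc (2 * h) (m - h), y p < y m + sw y 1 m := by
    by_contra hc
    push Not at hc
    exact e4 0 (mem_singleton_self _) (ev_G (by omega) h0 hc)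
  have p4 := mem_Icc.1 p2
  refine ⟨h, h, h, p, y q, fun t b1 b2 => q2 t (mem_Icc.2 ⟨b1, b2⟩), ?_, ?_, ?_, by omega,
    by omega, by omega, p3.le⟩
  · have e : sw y (h + 1) m = sw y 1 m + ∑ t ∈ Icc 1 h, y t := by
      unfold sw
      linarith
    rw [e]
    rcases (by omega : q ≤ h ∨ q = m ∨ h + 1 ≤ q ∧ q ≤ m - 1) with b | rfl | b
    · have := single_le_sum (f := y) (fun t _ => nn t) (mem_Icc.2 ⟨q3, b⟩)
      linarith
    · linarith
    · by_contra hc
      refine e1 q (mem_Icc.2 b) (ev_C (by omega) q3 q4 le_rfl (by omega) ?_ big)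
      push_cast
      linarith
  · have e : sw y 1 (m - h) = sw y 1 m + ∑ t ∈ Icc (m - h + 1) m, y t := by
      unfold sw
      linarith
    rw [e]
    rcases (by omega : m - h + 1 ≤ q ∨ q ≤ m - h) with b | b
    · have := single_le_sum (f := y) (fun t _ => nn t) (mem_Icc.2 ⟨b, q4⟩)
      linarith
    · by_contra hc
      refine e2 q (mem_Icc.2 ⟨q3, b⟩) (ev_C (by omega) q3 q4 (by omega) le_rfl ?_ big)
      push_cast
      linarith
  · rcases (by omega : q = m ∨ q ≤ m - 1) with rfl | b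
    · rw [sub_self]
      positivity
    · by_contra hc
      refine e3 q (mem_Icc.2 ⟨q3, b⟩) (ev_C (by omega) q3 q4 le_rfl (by omega) ?_ big)
      push_cast
      rw [Icc_eq_empty (by omega), sum_empty]
      linarith

end Pool.Agent.P.MP_754fe6_co
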