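import Mathlib
import Pool.Agent.P.MP_754fe6_co.MostEv

namespace Pool.Agent.P.MP_754fe6_co

open Finset

variable {m j i t z : ℕ}

theorem χ1 (h : j ≤ t ∧ t ≤ i) : χ j i t = 1 := if_pos h

theorem χ0 (h : ¬ (j ≤ t ∧ t ≤ i)) : χ j i t = 0 := if_neg h

theorem χ_nn (j i t : ℕ) : 0 ≤ χ j i t := by
  unfold χ
  split_ifs <;> norm_num

theorem χ_le (j i t : ℕ) : 0 ≤ 1 - χ j i t := by
  unfold χ
  split_ifs <;> norm_num

theorem prod_step {f : ℕ → ℚ} {a e : ℕ} (b : ℕ) (c : ℚ) (h1 : a ≤ b) (h2 : b ≤ e)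
    (h : ∀ t, a ≤ t → t < b → f t = c) :
    ∏ t ∈ Ico a e, f t = c ^ (b - a) * ∏ t ∈ Ico b e, f t := by
  rw [← prod_Ico_consecutive f h1 h2,
    prod_congr rfl fun t ht => h t (mem_Ico.1 ht).1 (mem_Ico.1 ht).2, prod_const, Nat.card_Ico]

theorem okS (hj : 2 ≤ j) (hz : 1 ≤ z) (hm : j + z ≤ m) : (evS m j z).OK m := by
  have z1 : (1 : ℚ) ≤ z := by exact_mod_cast hz
  have q1 : (z + 2 : ℚ) ≤ m := by exact_mod_cast (by omega : z + 2 ≤ m)
  refine ⟨singleton_subset_iff.2 (mem_Icc.2 (by omega)), fun p hp => ?_, ?_, fun t _ => ?_⟩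
  · obtain rfl := mem_singleton.1 hp
    simp (disch := omega) only [evS, χ1, χ0]
    simp
  · simp only [Dat.w0, evS]
    positivity
  · by_cases e : j + 1 ≤ t ∧ t ≤ j + z - 1
    · have z2 : (2 : ℚ) ≤ z := by exact_mod_cast (by omega : 2 ≤ z)
      simp (disch := omega) only [Dat.w, evS, χ1, χ0, card_singleton]
      have : (2 : ℚ) / (z + 1) < 1 := (div_lt_one (by linarith)).2 (by linarith)
      push_cast
      linarith
    · have a1 := χ_le j (j + z - 1) t
      have a2 := χ_nn (j + z + 1) m t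
      have a3 := χ_nn m m t
      have a4 : (0 : ℚ) ≤ z - 1 := by linarith
      have a5 : (0 : ℚ) < m - z - 1 := by linarith
      simp only [Dat.w, Dat.w0, evS, χ0 e, sub_zero]
      positivity

def clA (m z : ℕ) : ℚ := 1 + 2 / (z + 1) * (z - 1) + (1 + 2 / (z + 1) * z) * (1 / (m - z - 1) * z)

def clB (m z : ℕ) : ℚ := 2 / (z + 1) + (1 + 2 / (z + 1) * z) * (1 / (m - z - 1))

/-- closed form of the volume bound -/
def clS (m j z : ℕ) : ℚ :=
  1 / ((1 + 2 / (z + 1) * z) * (clA m z ^ (j - 1) * ((1 - 2 / (z + 1)) ^ (z - 1) *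
    if j + z = m then clA m z + 2 / (z + 1) else
      clA m z * ((clA m z + clB m z) ^ (m - (j + z + 1)) * (clA m z + clB m z + 2 / (z + 1))))))

theorem prS (hj : 2 ≤ j) (hz : 1 ≤ z) (hm : j + z ≤ m) : (evS m j z).pr m = clS m j z := by
  have W : ∀ t c, (1 + 2 / (z + 1) * ((z - 1) * (1 - χ j (j + z - 1) t) - χ (j + 1) (j + z - 1) t +
      χ (j + z + 1) m t + χ m m t) + (1 + 2 / (z + 1) * z) *
      (1 / (m - z - 1) * (z * (1 - χ j (j + z - 1) t) + χ (j + z + 1) m t)) = c) →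
      (evS m j z).w t = c := fun t c h => by simpa [Dat.w, Dat.w0, evS] using h
  rw [Dat.pr, ← Ico_add_one_right_eq_Icc,
    prod_step j (clA m z) (by omega) (by omega) fun t a b => W _ _ ?_,
    prod_step (j + 1) 1 (by omega) (by omega) fun t a b => W _ _ ?_,
    prod_step (j + z) (1 - 2 / (z + 1)) (by omega) (by omega) fun t a b => W _ _ ?_, clS,
    one_pow, one_mul, show j + z - (j + 1) = z - 1 by omega]
  · congr 4
    · simp [Dat.w0, evS]
    split_ifs with e
    · rw [e, Nat.Ico_succ_singleton, prod_singleton]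
      refine W _ _ ?_
      simp (disch := omega) only [χ1, χ0, clA]
      ring
    · rw [prod_step (j + z + 1) (clA m z) (by omega) (by omega) fun t a b => W _ _ ?_,
        prod_step m (clA m z + clB m z) (by omega) (by omega) fun t a b => W _ _ ?_,
        Nat.Ico_succ_singleton, prod_singleton, add_tsub_cancel_left, pow_one, W m _ ?_]
      all_goals
        simp (disch := omega) only [χ1, χ0, clA, clB]
        ring
  all_goals
    simp (disch := omega) only [χ1, χ0, clA]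
    ring

theorem num1 : ∀ m ∈ Icc 1 23, ∑ z ∈ Icc 1 (m - 2), ∑ j ∈ Icc 2 (m - z), clS m j z ≤
    min (13 / 100) (60 / ((m : ℚ) + 1) ^ 2) := by
  decide +kernel

end Pool.Agent.P.MP_754fe6_co
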