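import Mathlib
import Pool.Agent.P.MP_754fe6_co.MostNum1

namespace Pool.Agent.P.MP_754fe6_co

open Finset

variable {m j i t z q h : ℕ}

theorem okV (hj : 1 ≤ j) (hz : 2 ≤ z) (hm : j + z ≤ m) : (evV m j z).OK m := by
  have z1 : (2 : ℚ) ≤ z := by exact_mod_cast hz
  have q1 : (z + 1 : ℚ) ≤ m := by exact_mod_cast (by omega : z + 1 ≤ m)
  have a4 : (0 : ℚ) ≤ z - 1 := by linarith
  refine ⟨singleton_subset_iff.2 (mem_Icc.2 (by omega)), fun p hp => ?_, ?_, fun t _ => ?_⟩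
  · obtain rfl := mem_singleton.1 hp
    simp (disch := omega) only [evV, χ1, χ0]
    simp
  · simp only [Dat.w0, evV]
    positivity
  · by_cases e : j + 1 ≤ t ∧ t ≤ j + z - 1
    · simp (disch := omega) only [Dat.w, evV, χ1, card_singleton]
      have : (1 : ℚ) / z < 1 := (div_lt_one (by linarith)).2 (by linarith)
      push_cast
      linarith
    · have a1 := χ_le j (j + z - 1) t
      have a5 : (0 : ℚ) < m - z := by linarith
      simp only [Dat.w, Dat.w0, evV, χ0 e, sub_zero]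
      positivity

theorem prV (hj : 1 ≤ j) (hz : 1 ≤ z) (hm : j + z ≤ z + q) :
    (evV (z + q) j z).pr (z + q) =
      1 / ((2 - 1 / z) ^ (q + 1) * ((z + q) / q) ^ q * (1 - 1 / z) ^ (z - 1)) := by
  have z0 : (z : ℚ) ≠ 0 := by positivity
  have q0 : (q : ℚ) ≠ 0 := Nat.cast_ne_zero.2 (by omega)
  have w0 : (evV (z + q) j z).w0 = 2 - 1 / z := by
    simp only [Dat.w0, evV, card_singleton]
    field_simp
    push_cast
    ring
  have W : ∀ t c, (1 + 1 / z * ((z - 1) * (1 - χ j (j + z - 1) t) - χ (j + 1) (j + z - 1) t) +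
      (2 - 1 / z) * (1 / q * (z * (1 - χ j (j + z - 1) t))) = c) →
      (evV (z + q) j z).w t = c := fun t c h => by
    rw [Dat.w, w0]
    simpa [evV] using h
  rw [Dat.pr, ← Ico_add_one_right_eq_Icc,
    prod_step j ((2 - 1 / z) * ((z + q) / q)) (by omega) (by omega) fun t a b => W _ _ ?_,
    prod_step (j + 1) 1 (by omega) (by omega) fun t a b => W _ _ ?_,
    prod_step (j + z) (1 - 1 / z) (by omega) (by omega) fun t a b => W _ _ ?_,
    prod_step (z + q + 1) ((2 - 1 / z) * ((z + q) / q)) (by omega) (by omega)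
      fun t a b => W _ _ ?_,
    one_pow, one_mul, show j + z - (j + 1) = z - 1 by omega, w0, Ico_self, prod_empty, mul_one,
    mul_left_comm (_ ^ (j - 1)), ← pow_add, show j - 1 + (z + q + 1 - (j + z)) = q by omega,
    mul_pow]
  · congr 1
    ring
  all_goals
    simp (disch := omega) only [χ1, χ0]
    field_simp
    ring

theorem e3 (hz : 2 ≤ z) : (1 : ℚ) / 3 ≤ (1 - 1 / z) ^ (z - 1) := by
  obtain ⟨k, rfl⟩ : ∃ k, z = k + 1 := ⟨z - 1, by omega⟩
  have k0 : (0 : ℚ) < k := by exact_mod_cast (by omega : 0 < k)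
  have a : (1 + (k : ℚ)⁻¹) ^ k ≤ 3 := by
    have := (Real.one_add_inv_pow_le_exp (n := k)).trans Real.exp_one_lt_three.le
    rw [← Rat.cast_le (K := ℝ)]
    push_cast
    exact this
  have e : (1 - 1 / ((k + 1 : ℕ) : ℚ)) = 1 / (1 + (k : ℚ)⁻¹) := by
    push_cast
    field_simp
    ring
  rw [e, add_tsub_cancel_right, one_div_pow]
  exact one_div_le_one_div_of_le (by positivity) a

def FV (q : ℕ) : ℚ := 2 * q ^ 3 * (2 / 3) ^ q * min 1 ((q : ℚ) / 24) ^ (q - 2)

theorem FV_nn (q : ℕ) : 0 ≤ FV q := by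
  unfold FV
  positivity

theorem prV_le (hj : 1 ≤ j) (hz : 2 ≤ z) (hm : j + z ≤ z + q) (hq : 2 ≤ q) (h24 : 24 ≤ z + q) :
    (evV (z + q) j z).pr (z + q) ≤ FV q / q / (z + q) ^ 2 := by
  have z1 : (2 : ℚ) ≤ z := by exact_mod_cast hz
  have q1 : (2 : ℚ) ≤ q := by exact_mod_cast hq
  have m1 : (24 : ℚ) ≤ z + q := by exact_mod_cast h24
  have u : (3 : ℚ) / 2 ≤ 2 - 1 / z := by
    have := one_div_le_one_div_of_le (by norm_num) z1
    linarith
  have e := e3 hz
  have μ : (q : ℚ) / (z + q) ≤ min 1 ((q : ℚ) / 24) :=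
    le_min ((div_le_one (by linarith)).2 (by linarith)) (by gcongr)
  rw [prV hj (by omega) hm]
  calc _ ≤ 1 / ((3 / 2 : ℚ) ^ (q + 1) * ((z + q) / q) ^ q * (1 / 3)) := by gcongr
    _ = 2 * q ^ 3 * (2 / 3) ^ q * (q / (z + q)) ^ (q - 2) / q / (z + q) ^ 2 := by
      obtain ⟨k, rfl⟩ := Nat.exists_eq_add_of_le hq
      rw [add_tsub_cancel_left]
      simp only [div_pow]
      field_simp
      ring
    _ ≤ _ := by
      unfold FV
      gcongr

theorem FV_sum (N : ℕ) (hN : 25 ≤ N) : ∑ q ∈ Icc 2 N, FV q + 3 * FV N ≤ 39 / 2 := by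
  induction N, hN using Nat.le_induction with
  | base => decide +kernel
  | succ N hN ih =>
    have n1 : (25 : ℚ) ≤ N := by exact_mod_cast hN
    have e : ∀ k : ℕ, N ≤ k → FV k = 2 * k ^ 3 * (2 / 3) ^ k := fun k hk => by
      have : (N : ℚ) ≤ k := by exact_mod_cast hk
      rw [FV, min_eq_left ((one_le_div (by norm_num)).2 (by linarith)), one_pow, mul_one]
    have a : 8 * ((N : ℚ) + 1) ^ 3 ≤ 9 * N ^ 3 := by
      nlinarith [mul_nonneg (sub_nonneg.2 n1) (sq_nonneg (N : ℚ)), sq_nonneg ((N : ℚ) - 25)]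
    have b := mul_le_mul_of_nonneg_right a (show (0 : ℚ) ≤ (2 / 3) ^ N by positivity)
    rw [sum_Icc_succ_top (by omega), e (N + 1) (by omega), pow_succ (2 / 3 : ℚ)]
    rw [e N le_rfl] at ih
    push_cast
    linarith

theorem sumV (hm : 24 ≤ m) : ∑ p ∈ wins m 1 2, (evV m p.2 p.1).pr m ≤ 39 / 2 / m ^ 2 := by
  have a : ∀ z ∈ Icc 2 (m - 2), ∑ j ∈ Icc 1 (m - z), (evV m j z).pr m ≤ FV (m - z) / m ^ 2 := by
    intro z hz
    have := mem_Icc.1 hz
    obtain ⟨q, rfl⟩ := Nat.exists_eq_add_of_le (show z ≤ m by omega)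
    have q0 : (q : ℚ) ≠ 0 := Nat.cast_ne_zero.2 (by omega)
    rw [add_tsub_cancel_left]
    refine (sum_le_card_nsmul _ _ _ fun j hj => prV_le (mem_Icc.1 hj).1 this.1
      (by have := mem_Icc.1 hj; omega) (by omega) hm).trans (le_of_eq ?_)
    rw [Nat.card_Icc, add_tsub_cancel_right, nsmul_eq_mul]
    push_cast
    field_simp
  rw [wins, sum_sigma]
  refine (sum_le_sum a).trans ?_
  rw [← sum_div, sum_nbij' (t := Icc 2 (m - 2)) (g := FV) (fun z => m - z) (fun q => m - q)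
    (fun z hz => by simp only [mem_Icc] at hz ⊢; omega)
    (fun z hz => by simp only [mem_Icc] at hz ⊢; omega)
    (fun z hz => by simp only [mem_Icc] at hz ⊢; omega)
    (fun z hz => by simp only [mem_Icc] at hz ⊢; omega) fun _ _ => rfl]
  have b := FV_sum (m + 1) (by omega)
  have c := sum_le_sum_of_subset_of_nonneg (f := FV)
    (Icc_subset_Icc_right (a := 2) (show m - 2 ≤ m + 1 by omega)) fun q _ _ => FV_nn q
  have := FV_nn (m + 1)
  gcongr
  linarith

theorem wZ (hj : 2 ≤ j) (hm : j < m) (t : ℕ) :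
    1 + χ (j + 2) m t + m * χ m m t ≤ (evZ m j).w t := by
  have q1 : (3 : ℚ) ≤ m := by exact_mod_cast (by omega : 3 ≤ m)
  simp only [Dat.w, Dat.w0, evZ, card_singleton]
  by_cases e : t = j
  · simp (disch := omega) only [χ1, χ0]
    simp
  · have a := χ_nn (j + 2) m t
    have b : (1 : ℚ) ≤ (1 + (m - 2)) * (1 / (m - 2)) := by
      rw [mul_one_div, one_le_div (by linarith)]
      linarith
    have := mul_le_mul_of_nonneg_right b (show 0 ≤ 1 + χ (j + 2) m t by linarith)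
    rw [χ0 (j := j) (i := j) (by omega)]
    push_cast
    linarith

theorem okZ (hj : 2 ≤ j) (hm : j < m) : (evZ m j).OK m := by
  have q1 : (3 : ℚ) ≤ m := by exact_mod_cast (by omega : 3 ≤ m)
  refine ⟨singleton_subset_iff.2 (mem_Icc.2 (by omega)), fun p hp => ?_, ?_, fun t _ => ?_⟩
  · obtain rfl := mem_singleton.1 hp
    simp (disch := omega) only [evZ, χ1, χ0]
    simp
  · simp only [Dat.w0, evZ, card_singleton]
    push_cast
    linarith
  · have a := χ_nn (j + 2) m t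
    have b := χ_nn m m t
    exact lt_of_lt_of_le (by positivity) (wZ hj hm t)

theorem prZ_le (hj : 2 ≤ j) (hm : j < m) :
    (evZ m j).pr m ≤ (1 / 2) ^ (m - j) * (4 / ((m - 1) * m)) := by
  have q1 : (3 : ℚ) ≤ m := by exact_mod_cast (by omega : 3 ≤ m)
  have q2 : (0 : ℚ) < m - 1 := by linarith
  have w0 : (evZ m j).w0 = m - 1 := by
    simp only [Dat.w0, evZ, card_singleton]
    push_cast
    ring
  have a := prod_le_prod (s := Icc 1 m) (fun t _ => by
    have a := χ_nn (j + 2) m t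
    have b := χ_nn m m t
    positivity) fun t _ => wZ hj hm t
  rw [← Ico_add_one_right_eq_Icc,
    prod_step (min (j + 2) m) 1 (by omega) (by omega) fun t a b => ?_,
    prod_step m 2 (by omega) (by omega) fun t a b => ?_, Nat.Ico_succ_singleton, prod_singleton,
    one_pow, one_mul, χ1 (j := m) ⟨le_rfl, le_rfl⟩, Ico_add_one_right_eq_Icc] at a
  · have b := χ_nn (j + 2) m m
    have c : (2 : ℚ) ^ (m - j) ≤ 2 ^ (m - min (j + 2) m + 2) :=
      pow_le_pow_right₀ (by norm_num) (by omega)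
    have d : (2 : ℚ) ^ (m - j) / 4 * m ≤ ∏ t ∈ Icc 1 m, (evZ m j).w t := by
      refine le_trans ?_ a
      rw [pow_add] at c
      gcongr <;> linarith
    rw [Dat.pr, w0]
    calc _ ≤ 1 / ((m - 1) * ((2 : ℚ) ^ (m - j) / 4 * m)) := by gcongr
      _ = _ := by
        rw [one_div_pow]
        field_simp
  all_goals
    simp (disch := omega) only [χ1, χ0]
    norm_num

theorem geo (m : ℕ) : ∑ j ∈ range m, (1 / 2 : ℚ) ^ (m - j) ≤ 1 := by
  induction m with
  | zero => simp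
  | succ m ih =>
    rw [sum_range_succ, sum_congr rfl fun j hj => by
      rw [show m + 1 - j = m - j + 1 by have := mem_range.1 hj; omega, pow_succ], ← sum_mul,
      add_tsub_cancel_left]
    linarith

theorem sumZ (hm : 3 ≤ m) : ∑ j ∈ Icc 2 (m - 1), (evZ m j).pr m ≤ 4 / ((m - 1) * m) := by
  have q1 : (3 : ℚ) ≤ m := by exact_mod_cast hm
  have q2 : (0 : ℚ) < m - 1 := by linarith
  refine (sum_le_sum fun j hj => prZ_le (mem_Icc.1 hj).1 (by have := mem_Icc.1 hj; omega)).trans ?_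
  rw [← sum_mul]
  refine mul_le_of_le_one_left (by positivity) (le_trans ?_ (geo m))
  exact sum_le_sum_of_subset_of_nonneg
    (fun j hj => mem_range.2 (by have := mem_Icc.1 hj; omega)) fun _ _ _ => by positivity

variable {b0 : ℚ}

theorem okC (hm : 3 ≤ m) (hq : 1 ≤ q) (hq' : q < m) (hj : ¬ (j ≤ q ∧ q ≤ i)) (hb : 0 ≤ b0) :
    (evC m q b0 j i).OK m := by
  have q1 : (0 : ℚ) < m - 2 := sub_pos.2 (by exact_mod_cast hm)
  refine ⟨singleton_subset_iff.2 (mem_Icc.2 (by omega)), fun p hp => ?_, ?_, fun t _ => ?_⟩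
  · obtain rfl := mem_singleton.1 hp
    simp (disch := omega) only [evC, χ1, χ0]
    simp
  · simp only [Dat.w0, evC]
    positivity
  · have a := χ_nn j i t
    have b := χ_nn m m t
    have c := χ_le q q t
    simp only [Dat.w, Dat.w0, evC]
    positivity

def gC (m : ℕ) (b0 : ℚ) (j i t : ℕ) : ℚ := 1 + (1 + b0) / (m - 2) + χ j i t + χ m m t

def clC (m : ℕ) (b0 : ℚ) (j i : ℕ) : ℚ :=
  (1 + (1 + b0) / (m - 2)) / ((1 + b0) * ∏ t ∈ Icc 1 m, gC m b0 j i t)

theorem prC (hm : 3 ≤ m) (hq : 1 ≤ q) (hq' : q < m) (hj : ¬ (j ≤ q ∧ q ≤ i)) (hb : 0 ≤ b0) :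
    (evC m q b0 j i).pr m = clC m b0 j i := by
  have q1 : (0 : ℚ) < m - 2 := sub_pos.2 (by exact_mod_cast hm)
  have mem : q ∈ Icc 1 m := mem_Icc.2 (by omega)
  have w0 : (evC m q b0 j i).w0 = 1 + b0 := by simp [Dat.w0, evC]
  have z := (okC hm hq hq' hj hb).zero q (mem_singleton_self q)
  have e1 : (evC m q b0 j i).w q = 1 := by simp [Dat.w, z.1, z.2]
  have e2 : gC m b0 j i q = 1 + (1 + b0) / (m - 2) := by
    simp (disch := omega) only [gC, χ0, add_zero]
  have e3 : ∀ t ∈ (Icc 1 m).erase q, (evC m q b0 j i).w t = gC m b0 j i t := fun t ht => by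
    have := ne_of_mem_erase ht
    rw [Dat.w, w0]
    simp only [evC, gC, χ0 (j := q) (i := q) (t := t) (by omega), card_singleton]
    push_cast
    ring
  rw [Dat.pr, clC, w0, ← mul_prod_erase _ _ mem, ← mul_prod_erase _ _ mem, e1, e2,
    prod_congr rfl e3, one_mul, mul_left_comm, div_mul_cancel_left₀ (by positivity), one_div]

theorem clC_le (hm : 3 ≤ m) (hb : 1 ≤ b0) (hb' : b0 + 3 ≤ m)
    (hp : 2 ^ h ≤ ∏ t ∈ Icc 1 m, gC m b0 j i t) : clC m b0 j i ≤ 1 / 2 ^ h := by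
  have q1 : (0 : ℚ) < m - 2 := sub_pos.2 (by exact_mod_cast hm)
  have a : (1 + b0) / (m - 2) ≤ 1 := (div_le_one q1).2 (by linarith)
  calc _ ≤ (1 + b0) / ((1 + b0) * 2 ^ h) := by
        unfold clC
        gcongr
        linarith
    _ = _ := by field_simp

theorem gC_win (hm : 3 ≤ m) (hj : 1 ≤ j) (hi : i ≤ m) (hh : i + 1 - j = h) :
    2 ^ h ≤ ∏ t ∈ Icc 1 m, gC m 1 j i t := by
  have q1 : (0 : ℚ) < m - 2 := sub_pos.2 (by exact_mod_cast hm)
  have a : ∀ t, 1 + χ j i t ≤ gC m 1 j i t := fun t => by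
    have : (0 : ℚ) ≤ (1 + 1) / (m - 2) := by positivity
    have := χ_nn m m t
    unfold gC
    linarith
  have b : ∀ t, 1 ≤ gC m 1 j i t := fun t => by linarith [a t, χ_nn j i t]
  refine le_trans ?_ (prod_le_prod_of_subset_of_one_le (Icc_subset_Icc hj hi)
    (fun t _ => by linarith [b t]) fun t _ _ => b t)
  rw [← hh, ← Nat.card_Icc, ← prod_const]
  refine prod_le_prod (fun _ _ => by norm_num) fun t ht => ?_
  have := a t
  rw [χ1 (mem_Icc.1 ht)] at this
  linarith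

theorem gC_all (hm : 3 ≤ m) (h1 : 4 * h ≤ m) (h2 : m ≤ 4 * h + 3) :
    2 ^ h ≤ ∏ t ∈ Icc 1 m, gC m (h + 1) 1 0 t := by
  have q1 : (0 : ℚ) < m - 2 := sub_pos.2 (by exact_mod_cast hm)
  have q2 : (m : ℚ) ≤ 4 * h + 3 := by exact_mod_cast h2
  have a : (1 : ℚ) / 4 ≤ (1 + (h + 1)) / (m - 2) := by
    rw [le_div_iff₀ q1]
    linarith
  calc (2 : ℚ) ^ h ≤ ((5 / 4) ^ 4) ^ h := by gcongr; norm_num
    _ ≤ (5 / 4) ^ m := by
      rw [← pow_mul]
      exact pow_le_pow_right₀ (by norm_num) h1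
    _ = ∏ _t ∈ Icc 1 m, (5 / 4 : ℚ) := by rw [prod_const, Nat.card_Icc, add_tsub_cancel_right]
    _ ≤ _ := prod_le_prod (fun _ _ => by norm_num) fun t _ => by
      have := χ_nn m m t
      have := χ_nn 1 0 t
      unfold gC
      linarith

theorem okG (hj : 1 ≤ j) (hi : i < m) : (evG m j i).OK m := by
  refine ⟨Icc_subset_Icc hj hi.le, fun p hp => ?_, ?_, fun t _ => ?_⟩
  · have := mem_Icc.1 hp
    exact ⟨χ0 (by omega), rfl⟩
  · simp only [Dat.w0, evG]
    positivity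
  · have b := χ_nn m m t
    simp only [Dat.w, Dat.w0, evG]
    positivity

theorem prG (hm : 1 ≤ m) : (evG m j i).pr m = 1 / (1 + (i + 1 - j : ℕ)) ^ 2 := by
  rw [Dat.pr, ← Ico_add_one_right_eq_Icc, prod_step m 1 hm (by omega) fun t a b => ?_,
    Nat.Ico_succ_singleton, prod_singleton]
  · simp [Dat.w, Dat.w0, evG, χ, sq]
  · simp (disch := omega) [Dat.w, evG, χ0]

def rest (m h : ℕ) : ℚ :=
  (m - 1 + 1 - (h + 1) : ℕ) * clC m 1 1 h + (m - h + 1 - 1 : ℕ) * clC m 1 (m - h + 1) m +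
    (m - 1 + 1 - 1 : ℕ) * clC m (h + 1) 1 0 + 1 / (1 + (m - h + 1 - 2 * h : ℕ)) ^ 2

theorem num2 : ∀ m ∈ Icc 24 63, rest m (m / 4) ≤ 34 / ((m : ℚ) + 1) ^ 2 := by
  decide +kernel

theorem cube (hh : 16 ≤ h) : (4 * h + 4) ^ 3 ≤ 5 * 2 ^ h := by
  induction h, hh using Nat.le_induction with
  | base => norm_num
  | succ h hh ih =>
    have : (4 * (h + 1) + 4) ^ 3 ≤ 2 * (4 * h + 4) ^ 3 := by
      nlinarith [Nat.mul_le_mul_right (h * h) hh, Nat.mul_le_mul_right h hh]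
    rw [pow_succ 2]
    omega

theorem rest_le (hm : 24 ≤ m) : rest m (m / 4) ≤ 34 / ((m : ℚ) + 1) ^ 2 := by
  by_cases h63 : m ≤ 63
  · exact num2 m (mem_Icc.2 ⟨hm, h63⟩)
  obtain ⟨h, hh⟩ : ∃ h, m / 4 = h := ⟨_, rfl⟩
  have q1 : (24 : ℚ) ≤ m := by exact_mod_cast hm
  have q2 : (h + 4 : ℚ) ≤ m := by exact_mod_cast (by omega : h + 4 ≤ m)
  have c1 := clC_le (by omega) le_rfl (by linarith)
    (gC_win (m := m) (j := 1) (i := h) (by omega) le_rfl (by omega) (add_tsub_cancel_right _ _))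
  have c2 := clC_le (by omega) le_rfl (by linarith)
    (gC_win (m := m) (j := m - h + 1) (i := m) (h := h) (by omega) (by omega) le_rfl (by omega))
  have c3 := clC_le (by omega) (le_add_of_nonneg_left (by positivity)) (by linarith)
    (gC_all (m := m) (h := h) (by omega) (by omega) (by omega))
  have k : ∀ (a : ℕ) (c : ℚ), a ≤ m + 1 → c ≤ 1 / 2 ^ h → a * c ≤ 5 / ((m : ℚ) + 1) ^ 2 := by
    intro a c ha hc
    have : a * (m + 1) ^ 2 ≤ 5 * 2 ^ h :=
      calc _ ≤ (4 * h + 4) * (4 * h + 4) ^ 2 :=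
          Nat.mul_le_mul (by omega) (Nat.pow_le_pow_left (by omega) 2)
        _ ≤ _ := by
          rw [← pow_succ']
          exact cube (by omega)
    refine (mul_le_mul_of_nonneg_left hc (by positivity)).trans ?_
    rw [mul_one_div, div_le_div_iff₀ (by positivity) (by positivity)]
    exact_mod_cast this
  have g : (1 : ℚ) / (1 + (m - h + 1 - 2 * h : ℕ)) ^ 2 ≤ 16 / ((m : ℚ) + 1) ^ 2 := by
    have : 1 * (m + 1) ^ 2 ≤ 16 * (1 + (m - h + 1 - 2 * h)) ^ 2 :=
      calc _ = (m + 1) ^ 2 := one_mul _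
        _ ≤ (4 * (1 + (m - h + 1 - 2 * h))) ^ 2 := by gcongr; omega
        _ = _ := by ring
    rw [div_le_div_iff₀ (by positivity) (by positivity)]
    exact_mod_cast this
  have := k (m - 1 + 1 - (h + 1)) _ (by omega) c1
  have := k (m - h + 1 - 1) _ (by omega) c2
  have := k (m - 1 + 1 - 1) _ (by omega) c3
  have : (0 : ℚ) ≤ 3 / ((m : ℚ) + 1) ^ 2 := by positivity
  rw [hh, rest]
  simp only [div_eq_mul_inv] at *
  linarith

/-- what the open set guarantees -/
def Fine (m : ℕ) (y : ℕ → ℝ) : Prop :=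
  0 < y m ∧ ((∀ t, 0 ≤ y t) → 0 ≤ sw y 1 m → GoodW m y ∨ GoodR m y)

theorem cov1 (h1 : 1 ≤ m) (h2 : m ≤ 23) :
    Cov' m (min (13 / 100) (60 / ((m : ℝ) + 1) ^ 2)) (Fine m) := by
  have mem : ∀ p ∈ wins m 2 1, 2 ≤ p.2 ∧ 1 ≤ p.1 ∧ p.2 + p.1 ≤ m := fun p hp => by
    simp only [wins, mem_sigma, mem_Icc] at hp
    omega
  refine ((cov_pos h1).and (cov_fam (wins m 2 1) (fun p => evS m p.2 p.1) fun p hp =>
    okS (mem p hp).1 (mem p hp).2.1 (mem p hp).2.2)).mono ?_
    fun y hy => ⟨hy.1, fun nn _ => Or.inl (good1 nn hy.2)⟩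
  have := num1 m (mem_Icc.2 ⟨h1, h2⟩)
  rw [← Rat.cast_le (K := ℝ)] at this
  rw [zero_add, sum_congr rfl fun p hp => prS (mem p hp).1 (mem p hp).2.1 (mem p hp).2.2, wins,
    sum_sigma]
  refine this.trans (le_of_eq ?_)
  push_cast
  rfl

theorem cov2 (hm : 24 ≤ m) : Cov' m (min (13 / 100) (60 / ((m : ℝ) + 1) ^ 2)) (Fine m) := by
  have r := rest_le hm
  obtain ⟨h, hh⟩ : ∃ h, m / 4 = h := ⟨_, rfl⟩
  have hb : (0 : ℚ) ≤ h + 1 := by positivity
  have cV := cov_fam (wins m 1 2) (fun p => evV m p.2 p.1) fun p hp => by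
    simp only [wins, mem_sigma, mem_Icc] at hp
    exact okV (m := m) hp.2.1 hp.1.1 (by omega)
  have cZ := cov_fam (Icc 2 (m - 1)) (evZ m) fun j hj => by
    have := mem_Icc.1 hj
    exact okZ (m := m) this.1 (by omega)
  have c1 := cov_fam (Icc (h + 1) (m - 1)) (fun q => evC m q 1 1 h) fun q hq => by
    have := mem_Icc.1 hq
    exact okC (m := m) (by omega) (by omega) (by omega) (by omega) zero_le_one
  have c2 := cov_fam (Icc 1 (m - h)) (fun q => evC m q 1 (m - h + 1) m) fun q hq => by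
    have := mem_Icc.1 hq
    exact okC (m := m) (by omega) (by omega) (by omega) (by omega) zero_le_one
  have c3 := cov_fam (Icc 1 (m - 1)) (fun q => evC m q (h + 1) 1 0) fun q hq => by
    have := mem_Icc.1 hq
    exact okC (m := m) (by omega) (by omega) (by omega) (by omega) hb
  have c4 := cov_fam ({0} : Finset ℕ) (fun _ => evG m (2 * h) (m - h)) fun _ _ =>
    okG (m := m) (by omega) (by omega)
  refine ((cov_pos (by omega)).and (cV.and (cZ.and (c1.and (c2.and (c3.and c4)))))).mono ?_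
    fun y hy => ⟨hy.1, fun nn h0 => good2 nn h0 (h := h) (by omega) (by omega) hy.2.1 hy.2.2.1
      hy.2.2.2.1 hy.2.2.2.2.1 hy.2.2.2.2.2.1 hy.2.2.2.2.2.2⟩
  rw [sum_congr rfl fun q hq => prC (j := 1) (i := h) (by omega)
      (by have := mem_Icc.1 hq; omega) (by have := mem_Icc.1 hq; omega)
      (by have := mem_Icc.1 hq; omega) zero_le_one,
    sum_congr rfl fun q hq => prC (j := m - h + 1) (i := m) (by omega)
      (by have := mem_Icc.1 hq; omega) (by have := mem_Icc.1 hq; omega)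
      (by have := mem_Icc.1 hq; omega) zero_le_one,
    sum_congr rfl fun q hq => prC (j := 1) (i := 0) (by omega)
      (by have := mem_Icc.1 hq; omega) (by have := mem_Icc.1 hq; omega)
      (by have := mem_Icc.1 hq; omega) hb, sum_singleton, prG (by omega)]
  simp only [sum_const, Nat.card_Icc, nsmul_eq_mul]
  rw [hh, rest] at r
  have q1 : (24 : ℚ) ≤ m := by exact_mod_cast hm
  have v := sumV hm
  have v' : (39 / 2 : ℚ) / m ^ 2 ≤ 106 / 5 / (m + 1) ^ 2 := by
    rw [div_le_div_iff₀ (by positivity) (by positivity)]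
    nlinarith
  have z := sumZ (m := m) (by omega)
  have z' : (4 : ℚ) / ((m - 1) * m) ≤ 24 / 5 / (m + 1) ^ 2 := by
    rw [div_le_div_iff₀ (by nlinarith) (by positivity)]
    nlinarith
  have e : min (13 / 100) (60 / ((m : ℝ) + 1) ^ 2) = ((60 / ((m : ℚ) + 1) ^ 2 : ℚ) : ℝ) := by
    have : (24 : ℝ) ≤ m := by exact_mod_cast hm
    rw [min_eq_right (by rw [div_le_iff₀ (by positivity)]; nlinarith)]
    push_cast
    rfl
  rw [e, zero_add, ← Rat.cast_add, ← Rat.cast_add, ← Rat.cast_add, ← Rat.cast_add, ← Rat.cast_add,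
    Rat.cast_le]
  simp only [div_eq_mul_inv] at *
  linarith

theorem cov_main (h1 : 1 ≤ m) : Cov' m (min (13 / 100) (60 / ((m : ℝ) + 1) ^ 2)) (Fine m) := by
  rcases (by omega : m ≤ 23 ∨ 24 ≤ m) with h | h
  exacts [cov1 h1 h, cov2 h]

end Pool.Agent.P.MP_754fe6_co
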