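import Mathlib
import Pool.Agent.P.MP_754fe6_co.TypSched
import Pool.Agent.P.MP_754fe6_co.Valley

namespace Pool.Agent.P.MP_754fe6_co

open Finset

/-- well spread exponents -/
structure Gen (m a : ℕ) (M μ : ℝ) (x : ℕ → ℝ) : Prop where
  small : ∀ t, 1 ≤ t → t ≤ m → x t ≤ M
  slack : 1 - ∑ t ∈ Icc 1 m, x t ≤ M
  first : μ ≤ x 1
  last : μ ≤ x m
  head : 2 * M ≤ ∑ t ∈ Icc 1 a, x t
  tail : 2 * M ≤ ∑ t ∈ Icc (m + 1 - a) m, x t
  mid : ∃ p, 4 * a + 2 ≤ p ∧ p + a ≤ m ∧ x p ≤ μ

/-- admissible parameters -/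
structure Par (m a : ℕ) (M μ : ℝ) : Prop where
  M0 : 0 < M
  M1 : M ≤ 1 / 2
  μ0 : 0 < μ
  am : 2 * m * M ≤ a
  a4 : 4 * a ≤ m
  μm : 4 * a * M ≤ m * μ

theorem typ_of {κ : Type} [Fintype κ] [DecidableEq κ] (X : Sys κ) {m a : ℕ} {M μ L : ℝ}
    {x : ℕ → ℝ} (hκ : Fintype.card κ = m + 1) (hL : 0 < L) (hp : Par m a M μ) (h : Gen m a M μ x)
    (nn : ∀ t, 0 ≤ x t) (tot : ∑ t ∈ Icc 1 m, x t ≤ 1) (h1 : X.Φ < L * (1 - x m))
    (h2 : X.Φ < L * (m * (1 - ∑ t ∈ Icc 1 m, x t))) :
    ∃ p, X.Typ (fun j i => L * (1 - ∑ t ∈ Icc j i, x t)) a p (L * (1 - M))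
      (L * (1 - ∑ t ∈ Icc 1 m, x t)) := by
  obtain ⟨p, p1, p2, p3⟩ := h.mid
  obtain ⟨D, hD⟩ : ∃ D, X.Φ = L * D := ⟨X.Φ / L, by field_simp⟩
  rw [hD] at h1 h2
  have d1 := lt_of_mul_lt_mul_left h1 hL.le
  have d2 := lt_of_mul_lt_mul_left h2 hL.le
  have M0 := hp.M0
  have M1 := hp.M1
  have a4 := hp.a4
  have xm := nn m
  have out : ∀ j i (A : Finset ℕ), 1 ≤ j → i ≤ m → (∀ t ∈ A, 1 ≤ t ∧ t ≤ m ∧ (t < j ∨ i < t)) →
      ∑ t ∈ A, x t + ∑ t ∈ Icc j i, x t ≤ ∑ t ∈ Icc 1 m, x t := by
    intro j i A a1 a2 a3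
    rw [← sum_union (disjoint_left.2 fun t b1 b2 => by
      have := a3 t b1
      have := mem_Icc.1 b2
      omega)]
    refine sum_le_sum_of_subset_of_nonneg (fun t ht => ?_) fun t _ _ => nn t
    rcases mem_union.1 ht with b | b
    · have := a3 t b
      exact mem_Icc.2 (by omega)
    · have := mem_Icc.1 b
      exact mem_Icc.2 (by omega)
  have far : ∀ j i, 1 ≤ j → i ≤ m → (a < j ∨ i + a < m + 1) →
      2 * M ≤ 1 - ∑ t ∈ Icc j i, x t := by
    intro j i a1 a2 a3
    rcases a3 with a3 | a3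
    · have := out j i (Icc 1 a) a1 a2 fun t ht => by have := mem_Icc.1 ht; omega
      have := h.head
      linarith
    · have := out j i (Icc (m + 1 - a) m) a1 a2 fun t ht => by have := mem_Icc.1 ht; omega
      have := h.tail
      linarith
  refine ⟨p, ?_, ?_, ?_, ?_, mul_nonneg hL.le (by linarith), ?_, p1, by omega, ?_, ?_⟩
  · intro j i a1 a2 a3
    rw [hD, mul_left_comm]
    refine mul_lt_mul_of_pos_left ?_ hL
    have a3' : i ≤ m := by omega
    have z2 : (2 : ℝ) ≤ ((i + 1 - j : ℕ) : ℝ) := by exact_mod_cast (by omega : 2 ≤ i + 1 - j)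
    by_cases hf : a < j ∨ i + a < m + 1
    · have b1 := far j i a1 a3' hf
      have b2 : ∑ t ∈ Icc j i, x t ≤ ((i + 1 - j : ℕ) : ℝ) * M := by
        have := sum_le_card_nsmul (Icc j i) x M fun t ht => by
          have := mem_Icc.1 ht
          exact h.small t (by omega) (by omega)
        rwa [Nat.card_Icc, nsmul_eq_mul] at this
      generalize ((i + 1 - j : ℕ) : ℝ) = z at *
      rcases le_total (z * M) (1 / 2) with b3 | b3
      · nlinarith
      · nlinarith
    by_cases he : j = 1 ∧ i = m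
    · obtain ⟨rfl, rfl⟩ := he
      simpa using d2
    have b1 : μ + ∑ t ∈ Icc j i, x t ≤ ∑ t ∈ Icc 1 m, x t := by
      by_cases hj : j = 1
      · have := out j i {m} a1 a3' fun t ht => by have := mem_singleton.1 ht; omega
        have := h.last
        rw [sum_singleton] at *
        linarith
      · have := out j i {1} a1 a3' fun t ht => by have := mem_singleton.1 ht; omega
        have := h.first
        rw [sum_singleton] at *
        linarith
    have z1 : (m : ℝ) ≤ ((i + 1 - j : ℕ) : ℝ) + 2 * a := by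
      exact_mod_cast (by omega : m ≤ i + 1 - j + 2 * a)
    have z3 : (4 * a : ℝ) ≤ m := by exact_mod_cast a4
    have b2 := h.slack
    have b3 := hp.μm
    have b4 := hp.μ0
    have a0 : (0 : ℝ) ≤ a := Nat.cast_nonneg a
    generalize ((i + 1 - j : ℕ) : ℝ) = z at *
    generalize ∑ t ∈ Icc j i, x t = S at *
    generalize ∑ t ∈ Icc 1 m, x t = T at *
    have c1 : z * (1 - T + μ) ≤ z * (1 - S) := mul_le_mul_of_nonneg_left (by linarith) (by linarith)
    have c2 : m * (1 - T) ≤ (z + 2 * a) * (1 - T) := mul_le_mul_of_nonneg_right z1 (by linarith)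
    have c3 : 2 * a * (1 - T) ≤ 2 * a * M := mul_le_mul_of_nonneg_left b2 (by linarith)
    have c4 : m * μ ≤ 2 * z * μ := mul_le_mul_of_nonneg_right (by linarith) b4.le
    linarith
  · intro q a1 a2
    have := h.small q a1 (by omega)
    rw [Icc_self, sum_singleton]
    exact mul_le_mul_of_nonneg_left (by linarith) hL.le
  · intro j i a1 a2 a3 a4
    have := far j i a1 (by omega) (by omega)
    rw [hD, ← mul_sub]
    exact mul_lt_mul_of_pos_left (by linarith) hL
  · intro j i a1 a2 a3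
    have := out j i ∅ a1 (by omega) (by simp)
    rw [sum_empty] at this
    exact mul_le_mul_of_nonneg_left (by linarith) hL.le
  · rw [hD, ← mul_sub, mul_left_comm]
    refine mul_lt_mul_of_pos_left ?_ hL
    have b1 := hp.am
    have a0 : (0 : ℝ) ≤ a := Nat.cast_nonneg a
    generalize ∑ t ∈ Icc 1 m, x t = T at *
    have c1 : 2 * m * M * (1 - T) ≤ a * (1 - T) := mul_le_mul_of_nonneg_right b1 (by linarith)
    rcases lt_or_ge D (1 - M) with b2 | b2
    · have := mul_nonneg a0 (show 0 ≤ 1 - T by linarith)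
      linarith
    · nlinarith
  · have := h.last
    rw [hD, Icc_self, sum_singleton]
    exact mul_lt_mul_of_pos_left (by linarith) hL
  · rw [hD, hκ, add_tsub_cancel_right, Icc_self, sum_singleton]
    exact h1

theorem log_win {d : ℕ → ℕ} (hd : ∀ t, 1 ≤ d t) (j i : ℕ) :
    Real.log (win d j i) = ∑ t ∈ Icc j i, Real.log (d t) := by
  rw [win, Nat.cast_prod, Real.log_prod]
  intro t _
  have := hd t
  positivity

theorem card_le_typ {m n a : ℕ} {M μ : ℝ} {d : ℕ → ℕ} (hd : ∀ t, 1 ≤ d t) (hn : win d 1 m ≤ n)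
    (h2 : 2 ≤ n) (hp : Par m a M μ) (h : Gen m a M μ fun t => Real.log (d t) / Real.log n)
    (G : Finset (Fin (m + 1) → Fin n)) (hG : G.Nonempty) (hB : Blocked d G) :
    G.card ≤ max (n ^ m * d m) (n * win d 1 m ^ m) := by
  by_contra hc
  rw [not_le, max_lt_iff] at hc
  have hL : 0 < Real.log n := Real.log_pos (by exact_mod_cast h2)
  have n0 : (0 : ℝ) < n := by positivity
  have e : ∀ j i, Real.log n * (1 - ∑ t ∈ Icc j i, Real.log (d t) / Real.log n) =
      Real.log n - Real.log (win d j i) := by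
    intro j i
    rw [← sum_div, log_win hd]
    field_simp
  have hΦ : (sysOf G hG).Φ = (m + 1) * Real.log n - Real.log G.card := by simp [sysOf]
  have w0 : (0 : ℝ) < win d 1 m := by exact_mod_cast win_pos hd 1 m
  have dm : (0 : ℝ) < d m := by exact_mod_cast hd m
  obtain ⟨p, hp⟩ := typ_of (sysOf G hG) (Fintype.card_fin _) hL hp h
    (fun t => div_nonneg (Real.log_natCast_nonneg _) hL.le)
    (by
      rw [← sum_div, ← log_win hd, div_le_one hL]
      exact Real.log_le_log w0 (by exact_mod_cast hn))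
    (by
      have := Real.log_lt_log (by positivity)
        (show (n : ℝ) ^ m * d m < G.card by exact_mod_cast hc.1)
      rw [Real.log_mul (by positivity) dm.ne', Real.log_pow] at this
      rw [hΦ, mul_sub, mul_div_cancel₀ _ hL.ne']
      linarith)
    (by
      have := Real.log_lt_log (by positivity)
        (show (n : ℝ) * (win d 1 m : ℝ) ^ m < G.card by exact_mod_cast hc.2)
      rw [Real.log_mul n0.ne' (by positivity), Real.log_pow] at this
      rw [hΦ, mul_left_comm, e]
      linarith)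
  obtain ⟨f, f1, f2⟩ := hp.sched
  rw [Fintype.card_fin] at f1 f2
  obtain ⟨j, i, a1, a2, a3, a4, a5⟩ := hB f f1
  have := f2 j i a1 a2 (by omega)
  rw [e] at this
  simp only [sysOf, Fintype.card_fin] at this
  have c1 := cost_pos hG ((range j).image f) (f i)
  have := Real.log_le_log (show (0 : ℝ) < cost G ((range j).image f) (f i) by positivity)
    (show (cost G ((range j).image f) (f i) : ℝ) ≤ win d j i by exact_mod_cast a5)
  linarith

theorem both_typ {m n a : ℕ} {M μ : ℝ} {d : ℕ → ℕ} (hd : ∀ t, 1 ≤ d t) (hm : 1 ≤ m)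
    (hmn : m + 1 ≤ n) (hp : Par m a M μ) (h : Gen m a M μ fun t => Real.log (d t) / Real.log n) :
    exStar n (degs m d) ≤ CC (m + 1) * min (n ^ (m + 1)) (max (n ^ m * d m) (n * win d 1 m ^ m)) ∧
      min (n ^ (m + 1)) (max (n ^ m * d m) (n * win d 1 m ^ m)) ≤
        CC (m + 1) * exStar n (degs m d) := by
  have d2 : 2 ≤ d m := by
    by_contra hc
    have e : d m = 1 := by have := hd m; omega
    have := hp.μ0.trans_le h.last
    simp [e] at this
  refine both_of hd hmn
    (fun hn => upper_reduction m n d _ (card_le_typ hd hn (by omega) hp h)) (fun hn => ?_)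
    fun hn => le_max_of_le_right ?_
  · refine max_le ?_ ?_
    · simpa [win_self] using end_window hd hn hmn (j := m) (y := 0) hm rfl (by rwa [win_self])
    · have := end_window hd hn hmn (j := 1) (y := m - 1) le_rfl (by omega)
        (d2.trans (le_win hd hm le_rfl))
      rwa [pow_one, show m - 1 + 1 = m by omega] at this
  · rw [pow_succ']
    gcongr

end Pool.Agent.P.MP_754fe6_co
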