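import Mathlib
import Pool.Agent.P.MP_754fe6_co.TypUpper
import Pool.Agent.P.MP_754fe6_co.TypVol

namespace Pool.Agent.P.MP_754fe6_co

open Finset

theorem gen_of_mem {m a : ℕ} {M μ : ℝ} {y : ℕ → ℝ} (hm : 1 ≤ m) (ha : a ≤ m)
    (h : (fun i : Fin m => y (i + 1)) ∈ typSet m a M μ) : Gen m a M μ y := by
  obtain ⟨c1, c2, c3, c4, c5, c6, i, c7, c8⟩ := h
  have e : seg m 1 m = univ := filter_true_of_mem fun i _ => by omega
  rw [← e, seg_sum le_rfl le_rfl] at c2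
  rw [seg_sum le_rfl ha] at c5
  rw [seg_sum (by omega) le_rfl] at c6
  have c9 := (mem_filter.1 c7).2
  refine ⟨fun t h1 h2 => ?_, c2.le, ?_, ?_, c5.le, c6.le, i + 1, c9.1, by omega, c8.le⟩
  · have := c1 ⟨t - 1, by omega⟩
    simp only [show t - 1 + 1 = t by omega] at this
    exact this.le
  · exact (c3 ⟨0, hm⟩ (by simp [seg])).le
  · have := c4 ⟨m - 1, by omega⟩ (by simp only [seg, mem_filter, mem_univ, true_and]; omega)
    simp only [show m - 1 + 1 = m by omega] at this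
    exact this.le

theorem exists_par {m : ℕ} (h1 : 1 ≤ Real.log m) (h2 : 1000 * Real.log m ^ 2 ≤ m) :
    ∃ a M μ, Par m a M μ ∧ Sm (typSet m a M μ)ᶜ (300 * Real.log m ^ 2 / m) := by
  obtain ⟨l, hl⟩ : ∃ l, l = Real.log m := ⟨_, rfl⟩
  rw [← hl] at h1 h2 ⊢
  have ll : l ≤ l ^ 2 := by nlinarith
  have m0 : (0 : ℝ) < m := by linarith
  have m1 : (1 : ℝ) ≤ m := by linarith
  have el : Real.exp (-l) = 1 / m := by rw [hl, Real.exp_neg, Real.exp_log m0, one_div]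
  obtain ⟨a, a1, a2⟩ : ∃ a : ℕ, 8 * l ≤ a ∧ a ≤ 9 * l :=
    ⟨⌈8 * l⌉₊, Nat.le_ceil _, by linarith [Nat.ceil_lt_add_one (show 0 ≤ 8 * l by linarith)]⟩
  have a3 : 10 * a + 2 ≤ m := by exact_mod_cast (show (10 * a + 2 : ℝ) ≤ m by linarith)
  obtain ⟨M, hM⟩ : ∃ M : ℝ, m * M = 2 * l := ⟨2 * l / m, by field_simp⟩
  obtain ⟨μ, hμ⟩ : ∃ μ : ℝ, m * μ = 4 * a * M := ⟨4 * a * M / m, by field_simp⟩
  have M0 : 0 < M := (mul_pos_iff_of_pos_left m0).1 (by linarith)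
  have M1 : M ≤ 1 / 2 := le_of_mul_le_mul_left (by linarith) m0
  have a0 : (0 : ℝ) < a := by linarith
  have μ0 : 0 < μ := (mul_pos_iff_of_pos_left m0).1 (by rw [hμ]; positivity)
  have b1 : m * μ ≤ 72 * l ^ 2 / m := by
    rw [le_div_iff₀ m0, hμ, mul_assoc, mul_comm M, hM]
    nlinarith
  have b2 : m * μ < 1 := b1.trans_lt ((div_lt_one m0).2 (by linarith))
  refine ⟨a, M, μ, ⟨M0, M1, μ0, by linarith, by omega, hμ.ge⟩,
    (sm_typSet (by omega) (by omega) M0.le (by linarith) μ0 b2).mono (fun _ _ h => h) ?_⟩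
  have pw : ∀ t c : ℝ, 0 ≤ 1 + t → m * t ≤ c → (1 + t) ^ m ≤ Real.exp c := by
    intro t c t0 t1
    refine (pow_le_pow_left₀ t0 ((add_comm 1 t).trans_le (Real.add_one_le_exp t)) m).trans ?_
    rw [← Real.exp_nat_mul]
    exact Real.exp_le_exp.2 t1
  have t1 : (1 - M) ^ m ≤ 1 / m * (1 / m) := by
    rw [← el, ← Real.exp_add, sub_eq_add_neg]
    exact pw _ _ (by linarith) (by linarith)
  have t2 : (1 + 2 * M) ^ m / 2 ^ a ≤ 1 / m := by
    rw [div_le_iff₀ (by positivity), ← el]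
    refine (pw _ (-l + a * Real.log 2) (by linarith) ?_).trans_eq ?_
    · have := Real.log_two_gt_d9
      nlinarith
    · rw [Real.exp_add, Real.exp_nat_mul, Real.exp_log two_pos]
  have t3 : (1 - (m - a + 1 - (4 * a + 2) : ℕ) * μ) ^ m ≤ 1 / m := by
    have n1 : (m : ℝ) ≤ 2 * (m - a + 1 - (4 * a + 2) : ℕ) := by exact_mod_cast (by omega)
    have n2 : ((m - a + 1 - (4 * a + 2) : ℕ) : ℝ) ≤ m := by exact_mod_cast (by omega)
    generalize ((m - a + 1 - (4 * a + 2) : ℕ) : ℝ) = N at n1 n2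
    rw [← el, sub_eq_add_neg]
    refine pw _ _ (by nlinarith) ?_
    have c1 : m * (m * μ) ≤ 2 * N * (m * μ) := mul_le_mul_of_nonneg_right n1 (by positivity)
    have c2 : m * (m * μ) = 8 * a * l := by rw [hμ, mul_left_comm, hM]; ring
    nlinarith
  have t4 : m * (1 - M) ^ m ≤ 1 / m :=
    (mul_le_mul_of_nonneg_left t1 m0.le).trans_eq (by field_simp)
  have t5 : 1 / (m : ℝ) * (1 / m) ≤ 1 / m :=
    mul_le_of_le_one_right (by positivity) ((div_le_one m0).2 m1)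
  have t6 : 1 / (m : ℝ) ≤ l ^ 2 / m := div_le_div_of_nonneg_right (by linarith) m0.le
  have t7 : 0 ≤ l ^ 2 / m := by positivity
  rw [mul_div_assoc] at b1 ⊢
  linarith

theorem exists_typ {m : ℕ} (hm : 1 ≤ m) : ∃ A : Set (Fin m → ℝ), IsOpen A ∧
    Sm Aᶜ (2000 * Real.log (m + 1) ^ 2 / (m + 1)) ∧
      ∀ y : ℕ → ℝ, (fun i : Fin m => y (i + 1)) ∈ A → ∃ a M μ, Par m a M μ ∧ Gen m a M μ y := by
  have m1 : (1 : ℝ) ≤ m := by exact_mod_cast hm
  rcases le_or_gt (m + 1 : ℝ) (2000 * Real.log (m + 1) ^ 2) with h | h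
  · exact ⟨∅, isOpen_empty, sm_one _ ((one_le_div (by linarith)).2 h), fun _ h => h.elim⟩
  have l1 := Real.log_le_log two_pos (show (2 : ℝ) ≤ m + 1 by linarith)
  have l2 := Real.log_two_gt_d9
  have l3 : 1 ≤ Real.log m := by
    rw [Real.le_log_iff_exp_le (by linarith)]
    have := Real.exp_one_lt_d9
    nlinarith
  have l4 := Real.log_le_log (by linarith) (show (m : ℝ) ≤ m + 1 by linarith)
  have l5 : Real.log m ^ 2 ≤ Real.log (m + 1) ^ 2 := pow_le_pow_left₀ (by linarith) l4 2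
  obtain ⟨a, M, μ, p, q⟩ := exists_par l3 (by linarith)
  refine ⟨_, isOpen_typSet m a M μ, q.mono (fun _ _ h => h) ?_,
    fun y hy => ⟨a, M, μ, p, gen_of_mem hm (by have := p.a4; omega) hy⟩⟩
  rw [div_le_div_iff₀ (by linarith) (by linarith)]
  nlinarith [sq_nonneg (Real.log m)]

end Pool.Agent.P.MP_754fe6_co
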